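import Pool.Agent.Lib.MP_e1e19a_an.N.Core

/-!
Taylor estimates and symmetries of sums of plane waves.
-/

namespace Pool.Agent.Lib.MP_e1e19a_an

open Real MeasureTheory Set
open scoped MatrixGroups ComplexConjugate UpperHalfPlane

variable {ι : Type} {a a' : ι → ℝ} {k k' : ι → ℂ}

namespace A0

lemma dot_eq (k x : ℂ) : dot k x = k.re * x.re + k.im * x.im := by simp [dot]

lemma dot_add (k x y : ℂ) : dot k (x + y) = dot k x + dot k y := by simp [dot_eq]; ring

lemma abs_dot (k x : ℂ) : |dot k x| ≤ ‖k‖ * ‖x‖ := by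
  have := Complex.abs_re_le_norm (conj k * x)
  rwa [norm_mul, Complex.norm_conj] at this

lemma unit_sq {k : ℂ} (h : ‖k‖ = 1) : k.re ^ 2 + k.im ^ 2 = 1 := by
  have := Complex.sq_norm k
  rw [h, Complex.normSq_apply] at this
  linarith

lemma norm_sq (v : ℂ) : ‖v‖ ^ 2 = v.re ^ 2 + v.im ^ 2 := by
  rw [Complex.sq_norm, Complex.normSq_apply]; ring

lemma hasSum_dot {f : ι → ℂ} {g : ℂ} (h : HasSum f g) (v : ℂ) :
    HasSum (fun i => dot (f i) v) (dot g v) := by
  simp only [dot_eq]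
  exact ((Complex.hasSum_re h).mul_right _).add ((Complex.hasSum_im h).mul_right _)

lemma mvt {f f' : ℝ → ℝ} (h : ∀ u, HasDerivAt f (f' u) u) {C s : ℝ}
    (hC : ∀ u, |u| ≤ |s| → |f' u| ≤ C) : |f s - f 0| ≤ C * |s| := by
  have := (convex_closedBall (0 : ℝ) |s|).norm_image_sub_le_of_norm_hasDerivWithin_le
    (f := f) (f' := f') (C := C) (x := 0) (y := s) (fun u _ => (h u).hasDerivWithinAt)
    (fun u hu => hC u (by simpa using hu)) (by simp) (by simp)
  simpa using this

lemma cos_one (θ s : ℝ) : |cos (θ + s) - cos θ| ≤ |s| := by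
  simpa using abs_cos_sub_cos_le (θ + s) θ

lemma sin_two (θ s : ℝ) : |sin (θ + s) - sin θ - cos θ * s| ≤ s ^ 2 := by
  have := mvt (f := fun u => sin (θ + u) - cos θ * u) (f' := fun u => cos (θ + u) - cos θ)
    (fun u => (((hasDerivAt_id' u).const_add θ).sin.fun_sub
      ((hasDerivAt_id' u).const_mul (cos θ))).congr_deriv (by ring))
    (C := |s|) (s := s) fun u hu => (cos_one θ u).trans hu
  rw [abs_mul_abs_self, ← sq] at this
  convert this using 2
  simp; ring

lemma cos_three (θ s : ℝ) :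
    |cos (θ + s) - cos θ + sin θ * s + cos θ * s ^ 2 / 2| ≤ |s| ^ 3 := by
  have := mvt (f := fun u => cos (θ + u) + sin θ * u + cos θ * u ^ 2 / 2)
    (f' := fun u => -(sin (θ + u) - sin θ - cos θ * u))
    (fun u => ((((hasDerivAt_id' u).const_add θ).cos.fun_add
        ((hasDerivAt_id' u).const_mul (sin θ))).fun_add
        (((hasDerivAt_pow 2 u).const_mul (cos θ)).div_const 2)).congr_deriv (by norm_num; ring))
    (C := |s| ^ 2) (s := s) fun u hu => by
      rw [abs_neg]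
      refine (sin_two θ u).trans ?_
      rw [← sq_abs u]
      gcongr
  rw [← pow_succ] at this
  convert this using 2
  simp; ring

lemma bW (h : Fam a k) (φ : ι → ℝ) (i : ι) : ‖a i * cos (φ i)‖ ≤ a i := by
  rw [norm_mul, Real.norm_of_nonneg (h.pos i).le]
  exact mul_le_of_le_one_right (h.pos i).le (abs_cos_le_one _)

lemma bG (h : Fam a k) (φ : ι → ℝ) (i : ι) : ‖((-(a i * sin (φ i)) : ℝ) : ℂ) * k i‖ ≤ a i := by
  rw [norm_mul, h.unit, mul_one, Complex.norm_real, norm_neg, norm_mul,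
    Real.norm_of_nonneg (h.pos i).le]
  exact mul_le_of_le_one_right (h.pos i).le (abs_sin_le_one _)

lemma bH (h : Fam a k) (φ : ι → ℝ) (i : ι) : ‖((a i * cos (φ i) : ℝ) : ℂ) * k i ^ 2‖ ≤ a i := by
  rw [norm_mul, norm_pow, h.unit, one_pow, mul_one, Complex.norm_real]
  exact bW h φ i

lemma sW (h : Fam a k) (t : ι → ℝ) (x : ℂ) :
    HasSum (fun i => a i * cos (dot (k i) x + t i)) (Wv a k t x) :=
  (Summable.of_norm_bounded h.sum (bW h fun i => dot (k i) x + t i)).hasSum

lemma sG (h : Fam a k) (t : ι → ℝ) (x : ℂ) :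
    HasSum (fun i => ((-(a i * sin (dot (k i) x + t i)) : ℝ) : ℂ) * k i) (Gr a k t x) :=
  (Summable.of_norm_bounded h.sum (bG h fun i => dot (k i) x + t i)).hasSum

lemma sH (h : Fam a k) (t : ι → ℝ) (x : ℂ) :
    HasSum (fun i => ((a i * cos (dot (k i) x + t i) : ℝ) : ℂ) * k i ^ 2) (Hs a k t x) :=
  (Summable.of_norm_bounded h.sum (bH h fun i => dot (k i) x + t i)).hasSum

lemma phase (κ x v : ℂ) (t : ℝ) : dot κ (x + v) + t = dot κ x + t + dot κ v := by
  rw [dot_add]; ring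

lemma termF {κ : ℂ} (hκ : ‖κ‖ = 1) {α : ℝ} (hα : 0 ≤ α) (θ : ℝ) (v : ℂ) :
    ‖α * cos (θ + dot κ v) - α * cos θ - dot (((-(α * sin θ) : ℝ) : ℂ) * κ) v +
      (α * cos θ * ‖v‖ ^ 2 + (((α * cos θ : ℝ) : ℂ) * κ ^ 2 * conj v ^ 2).re) / 4‖ ≤
      α * ‖v‖ ^ 3 := by
  have h1 := unit_sq hκ
  have h2 : |dot κ v| ≤ ‖v‖ := by simpa [hκ] using abs_dot κ v
  have e : α * cos (θ + dot κ v) - α * cos θ - dot (((-(α * sin θ) : ℝ) : ℂ) * κ) v +
      (α * cos θ * ‖v‖ ^ 2 + (((α * cos θ : ℝ) : ℂ) * κ ^ 2 * conj v ^ 2).re) / 4 =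
      α * (cos (θ + dot κ v) - cos θ + sin θ * dot κ v + cos θ * dot κ v ^ 2 / 2) := by
    generalize cos (θ + dot κ v) = c'
    generalize cos θ = c
    generalize sin θ = s
    rw [norm_sq, dot_eq, dot_eq]
    simp only [sq, Complex.mul_re, Complex.mul_im, Complex.ofReal_re, Complex.ofReal_im,
      Complex.conj_re, Complex.conj_im]
    linear_combination (-(α * c * (v.re ^ 2 + v.im ^ 2) / 4)) * h1
  rw [e, norm_mul, Real.norm_of_nonneg hα]
  refine mul_le_mul_of_nonneg_left ((cos_three θ _).trans ?_) hα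
  gcongr

lemma termG {κ : ℂ} (hκ : ‖κ‖ = 1) {α : ℝ} (hα : 0 ≤ α) (θ : ℝ) (v : ℂ) :
    ‖((-(α * sin (θ + dot κ v)) : ℝ) : ℂ) * κ - ((-(α * sin θ) : ℝ) : ℂ) * κ +
      (((α * cos θ : ℝ) : ℂ) * v + ((α * cos θ : ℝ) : ℂ) * κ ^ 2 * conj v) / 2‖ ≤
      α * ‖v‖ ^ 2 := by
  have h1 := unit_sq hκ
  have h2 : |dot κ v| ≤ ‖v‖ := by simpa [hκ] using abs_dot κ v
  have e : ((-(α * sin (θ + dot κ v)) : ℝ) : ℂ) * κ - ((-(α * sin θ) : ℝ) : ℂ) * κ +
      (((α * cos θ : ℝ) : ℂ) * v + ((α * cos θ : ℝ) : ℂ) * κ ^ 2 * conj v) / 2 =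
      ((-(α * (sin (θ + dot κ v) - sin θ - cos θ * dot κ v)) : ℝ) : ℂ) * κ := by
    generalize sin (θ + dot κ v) = s'
    generalize cos θ = c
    generalize sin θ = s
    rw [dot_eq]
    apply Complex.ext
    · simp only [sq, Complex.mul_re, Complex.mul_im, Complex.ofReal_re, Complex.ofReal_im,
        Complex.conj_re, Complex.conj_im, Complex.add_re, Complex.sub_re, Complex.div_ofNat_re]
      linear_combination (-(α * c * v.re / 2)) * h1
    · simp only [sq, Complex.mul_re, Complex.mul_im, Complex.ofReal_re, Complex.ofReal_im,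
        Complex.conj_re, Complex.conj_im, Complex.add_im, Complex.sub_im, Complex.div_ofNat_im]
      linear_combination (-(α * c * v.im / 2)) * h1
  rw [e, norm_mul, hκ, mul_one, Complex.norm_real, norm_neg, norm_mul, Real.norm_of_nonneg hα]
  refine mul_le_mul_of_nonneg_left ((sin_two θ _).trans ?_) hα
  rw [← sq_abs]
  gcongr

lemma termH {κ : ℂ} (hκ : ‖κ‖ = 1) {α : ℝ} (hα : 0 ≤ α) (θ : ℝ) (v : ℂ) :
    ‖((α * cos (θ + dot κ v) : ℝ) : ℂ) * κ ^ 2 - ((α * cos θ : ℝ) : ℂ) * κ ^ 2‖ ≤ α * ‖v‖ := by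
  have h2 : |dot κ v| ≤ ‖v‖ := by simpa [hκ] using abs_dot κ v
  rw [← sub_mul, ← Complex.ofReal_sub, ← mul_sub, norm_mul, norm_pow, hκ, one_pow, mul_one,
    Complex.norm_real, norm_mul, Real.norm_of_nonneg hα]
  exact mul_le_mul_of_nonneg_left ((cos_one θ _).trans h2) hα

lemma exp_close {κ κ' x : ℂ} (hx : ‖x‖ ≤ 1) (t t' : ℝ) :
    ‖Complex.exp ((dot κ' x + t' : ℝ) * Complex.I) - Complex.exp ((dot κ x + t : ℝ) * Complex.I)‖
      ≤ ‖κ' - κ‖ + ‖Complex.exp (Complex.I * t') - Complex.exp (Complex.I * t)‖ := by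
  have hd : dot κ' x = dot κ x + dot (κ' - κ) x := by simp [dot_eq]; ring
  have e : Complex.exp ((dot κ' x + t' : ℝ) * Complex.I) -
      Complex.exp ((dot κ x + t : ℝ) * Complex.I) =
      Complex.exp (Complex.I * (dot κ x : ℝ)) * (Complex.exp (Complex.I * t') *
        (Complex.exp (Complex.I * (dot (κ' - κ) x : ℝ)) - 1) +
        (Complex.exp (Complex.I * t') - Complex.exp (Complex.I * t))) := by
    rw [hd]
    push_cast
    simp only [mul_comm _ Complex.I, mul_add, Complex.exp_add]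
    ring
  rw [e, norm_mul, Complex.norm_exp_I_mul_ofReal, one_mul]
  refine (norm_add_le _ _).trans (add_le_add_left ?_ _)
  rw [norm_mul, Complex.norm_exp_I_mul_ofReal, one_mul]
  refine Real.norm_exp_I_mul_ofReal_sub_one_le.trans ((abs_dot _ _).trans ?_)
  exact mul_le_of_le_one_right (norm_nonneg _) hx

lemma prod_close {α α' c c' E : ℝ} (hα : 0 ≤ α) (hc : |c'| ≤ 1) (hE : |c' - c| ≤ E) :
    |α' * c' - α * c| ≤ |α' - α| + α * E := by
  rw [show α' * c' - α * c = (α' - α) * c' + α * (c' - c) by ring]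
  refine (abs_add_le _ _).trans (add_le_add ?_ ?_)
  · rw [abs_mul]; exact mul_le_of_le_one_right (abs_nonneg _) hc
  · rw [abs_mul, abs_of_nonneg hα]; exact mul_le_mul_of_nonneg_left hE hα

lemma vec_close {u u' α : ℝ} {w w' : ℂ} (hw : ‖w'‖ = 1) (hu : |u| ≤ α) :
    ‖(u' : ℂ) * w' - u * w‖ ≤ |u' - u| + α * ‖w' - w‖ := by
  rw [show (u' : ℂ) * w' - u * w = ((u' - u : ℝ) : ℂ) * w' + u * (w' - w) by push_cast; ring]
  refine (norm_add_le _ _).trans (add_le_add ?_ ?_)
  · rw [norm_mul, hw, mul_one, Complex.norm_real, Real.norm_eq_abs]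
  · rw [norm_mul, Complex.norm_real]
    exact mul_le_mul_of_nonneg_right hu (norm_nonneg _)

lemma deriv_of_sq {f : ℝ → ℝ} {f' u C : ℝ}
    (h : ∀ s : ℝ, |s| ≤ 1 → |f (u + s) - f u - s * f'| ≤ C * s ^ 2) : HasDerivAt f f' u := by
  rw [hasDerivAt_iff_isLittleO_nhds_zero]
  refine Asymptotics.IsBigO.trans_isLittleO (g := fun s : ℝ => s ^ 2) ?_
    (Asymptotics.isLittleO_pow_id one_lt_two)
  refine Asymptotics.IsBigO.of_bound C ?_
  filter_upwards [Metric.closedBall_mem_nhds (0 : ℝ) one_pos] with s hs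
  simpa using h s (by simpa using hs)

end A0

open A0

theorem Fam.jet (h : Fam a k) (t : ι → ℝ) :
    Jet (1 + ∑' i, a i) (Wv a k t) (Gr a k t) (Hs a k t) := by
  have h0 : 0 ≤ ∑' i, a i := tsum_nonneg fun i => (h.pos i).le
  have ha := h.sum.hasSum
  refine ⟨by linarith, fun x => ?_, fun x => ?_, fun x => ?_, fun x v => ?_, fun x v => ?_,
    fun x v => ?_⟩
  · have := (sW h t x).norm_le_of_bounded ha (bW h fun i => dot (k i) x + t i)
    rw [Real.norm_eq_abs] at this
    linarith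
  · linarith [(sG h t x).norm_le_of_bounded ha (bG h fun i => dot (k i) x + t i)]
  · linarith [(sH h t x).norm_le_of_bounded ha (bH h fun i => dot (k i) x + t i)]
  · have := ((((sW h t (x + v)).sub (sW h t x)).sub (hasSum_dot (sG h t x) v)).add
      ((((sW h t x).mul_right (‖v‖ ^ 2)).add
        (Complex.hasSum_re ((sH h t x).mul_right (conj v ^ 2)))).div_const 4)).norm_le_of_bounded
      (ha.mul_right (‖v‖ ^ 3)) fun i => by
        rw [phase]; exact termF (h.unit i) (h.pos i).le _ v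
    rw [Real.norm_eq_abs] at this
    nlinarith [pow_nonneg (norm_nonneg v) 3]
  · have := (((sG h t (x + v)).sub (sG h t x)).add
      ((((Complex.hasSum_ofReal.2 (sW h t x)).mul_right v).add
        ((sH h t x).mul_right (conj v))).div_const 2)).norm_le_of_bounded
      (ha.mul_right (‖v‖ ^ 2)) fun i => by
        rw [phase]; exact termG (h.unit i) (h.pos i).le _ v
    nlinarith [pow_nonneg (norm_nonneg v) 2]
  · have := ((sH h t (x + v)).sub (sH h t x)).norm_le_of_bounded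
      (ha.mul_right ‖v‖) fun i => by
        rw [phase]; exact termH (h.unit i) (h.pos i).le _ v
    nlinarith [norm_nonneg v]

theorem Fam.close (h : Fam a k) (h' : Fam a' k') (t t' : ι → ℝ) (d : ι → ℝ) (hd : Summable d)
    (H : ∀ i, |a' i - a i| + a i * (‖k' i - k i‖ +
      ‖Complex.exp (Complex.I * t' i) - Complex.exp (Complex.I * t i)‖) ≤ d i)
    (x : ℂ) (hx : ‖x‖ ≤ 1) : |Wv a' k' t' x - Wv a k t x| ≤ 4 * ∑' i, d i ∧
      ‖Gr a' k' t' x - Gr a k t x‖ ≤ 4 * ∑' i, d i ∧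
      ‖Hs a' k' t' x - Hs a k t x‖ ≤ 4 * ∑' i, d i := by
  have hs := hd.hasSum.mul_left 4
  have hc : ∀ i, |cos (dot (k' i) x + t' i) - cos (dot (k i) x + t i)| ≤ ‖k' i - k i‖ +
      ‖Complex.exp (Complex.I * t' i) - Complex.exp (Complex.I * t i)‖ := fun i => by
    refine le_trans ?_ (exp_close hx (t i) (t' i))
    rw [← Complex.exp_ofReal_mul_I_re, ← Complex.exp_ofReal_mul_I_re, ← Complex.sub_re]
    exact Complex.abs_re_le_norm _
  have hsn : ∀ i, |sin (dot (k' i) x + t' i) - sin (dot (k i) x + t i)| ≤ ‖k' i - k i‖ +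
      ‖Complex.exp (Complex.I * t' i) - Complex.exp (Complex.I * t i)‖ := fun i => by
    refine le_trans ?_ (exp_close hx (t i) (t' i))
    rw [← Complex.exp_ofReal_mul_I_im, ← Complex.exp_ofReal_mul_I_im, ← Complex.sub_im]
    exact Complex.abs_im_le_norm _
  have h1 : ∀ i, |a' i * cos (dot (k' i) x + t' i) - a i * cos (dot (k i) x + t i)| ≤ d i :=
    fun i => (prod_close (h.pos i).le (abs_cos_le_one _) (hc i)).trans (H i)
  have h2 : ∀ i, |a' i * sin (dot (k' i) x + t' i) - a i * sin (dot (k i) x + t i)| ≤ d i :=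
    fun i => (prod_close (h.pos i).le (abs_sin_le_one _) (hsn i)).trans (H i)
  have h3 : ∀ i, 0 ≤ a i * ‖k' i - k i‖ ∧ a i * ‖k' i - k i‖ ≤ d i := fun i => by
    have := H i
    have h4 := mul_nonneg (h.pos i).le
      (norm_nonneg (Complex.exp (Complex.I * t' i) - Complex.exp (Complex.I * t i)))
    exact ⟨mul_nonneg (h.pos i).le (norm_nonneg _), by linarith [abs_nonneg (a' i - a i)]⟩
  refine ⟨((sW h' t' x).sub (sW h t x)).norm_le_of_bounded hs fun i => ?_,
    ((sG h' t' x).sub (sG h t x)).norm_le_of_bounded hs fun i => ?_,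
    ((sH h' t' x).sub (sH h t x)).norm_le_of_bounded hs fun i => ?_⟩
  · rw [Real.norm_eq_abs]
    linarith [h1 i, (h3 i).1, (h3 i).2]
  · refine (vec_close (α := a i) (h'.unit i) ?_).trans ?_
    · rw [abs_neg, abs_mul, abs_of_pos (h.pos i)]
      exact mul_le_of_le_one_right (h.pos i).le (abs_sin_le_one _)
    · rw [neg_sub_neg, abs_sub_comm]
      linarith [h2 i, (h3 i).1, (h3 i).2]
  · have hw : ‖k' i ^ 2‖ = 1 := by rw [norm_pow, h'.unit, one_pow]
    have hu : |a i * cos (dot (k i) x + t i)| ≤ a i := by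
      rw [abs_mul, abs_of_pos (h.pos i)]
      exact mul_le_of_le_one_right (h.pos i).le (abs_cos_le_one _)
    refine (vec_close (u' := a' i * cos (dot (k' i) x + t' i)) (w := k i ^ 2) hw hu).trans ?_
    have h5 : ‖k' i ^ 2 - k i ^ 2‖ ≤ 2 * ‖k' i - k i‖ := by
      rw [sq_sub_sq, norm_mul]
      refine mul_le_mul_of_nonneg_right ((norm_add_le _ _).trans ?_) (norm_nonneg _)
      rw [h.unit, h'.unit]; norm_num
    have h6 := mul_le_mul_of_nonneg_left h5 (h.pos i).le
    linarith [h1 i, (h3 i).1, (h3 i).2]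

theorem Wv_shift (t : ι → ℝ) (x y : ℂ) :
    Wv a k t (x + y) = Wv a k (fun i => t i + dot (k i) y) x ∧
      Gr a k t (x + y) = Gr a k (fun i => t i + dot (k i) y) x ∧
      Hs a k t (x + y) = Hs a k (fun i => t i + dot (k i) y) x := by
  simp only [Wv, Gr, Hs, phase, add_assoc, and_self]

theorem Wv_per {t t' : ι → ℝ} (h : ∀ i, ∃ n : ℤ, t' i = t i + n * (2 * π)) :
    Wv a k t' = Wv a k t ∧ Gr a k t' = Gr a k t ∧ Hs a k t' = Hs a k t := by
  choose n hn using h
  refine ⟨funext fun x => ?_, funext fun x => ?_, funext fun x => ?_⟩ <;>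
    simp only [Wv, Gr, Hs, hn, ← add_assoc, cos_add_int_mul_two_pi, sin_add_int_mul_two_pi]

theorem Wv_neg (t : ι → ℝ) (x : ℂ) : Wv a k (fun i => t i + π) x = -Wv a k t x := by
  simp only [Wv, ← add_assoc, cos_add_pi, mul_neg, tsum_neg]

theorem Fam.cont (h : Fam a k) : Continuous (fun p : (ι → ℝ) × ℂ => Wv a k p.1 p.2) ∧
    Continuous (fun p : (ι → ℝ) × ℂ => Gr a k p.1 p.2) ∧
    Continuous fun p : (ι → ℝ) × ℂ => Hs a k p.1 p.2 := by
  have hφ : ∀ i, Continuous fun p : (ι → ℝ) × ℂ => dot (k i) p.2 + p.1 i := fun i => by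
    simp only [dot_eq]; fun_prop
  refine ⟨continuous_tsum (fun i => ?_) h.sum fun i p => bW h (fun i => dot (k i) p.2 + p.1 i) i,
    continuous_tsum (fun i => ?_) h.sum fun i p => bG h (fun i => dot (k i) p.2 + p.1 i) i,
    continuous_tsum (fun i => ?_) h.sum fun i p => bH h (fun i => dot (k i) p.2 + p.1 i) i⟩
  · exact continuous_const.mul (continuous_cos.comp (hφ i))
  · exact (Complex.continuous_ofReal.comp
      (continuous_const.mul (continuous_sin.comp (hφ i))).neg).mul continuous_const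
  · exact (Complex.continuous_ofReal.comp
      (continuous_const.mul (continuous_cos.comp (hφ i)))).mul continuous_const

theorem Fam.bp (h : Fam a k) {t : ι → ℝ} (hB : Barrier (Wv a k t)) : BP a k := by
  obtain ⟨D, x₀, hD, hb, hx₀, hpos, hneg⟩ := hB
  have hc : Continuous fun x => -Wv a k t x :=
    (h.cont.1.comp (Continuous.prodMk_right t)).neg
  have hK : IsCompact (frontier D) :=
    Metric.isCompact_of_isClosed_isBounded isClosed_frontier
      (hb.closure.subset frontier_subset_closure)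
  obtain ⟨m, hm, hm'⟩ := hK.exists_forall_le' (a := 0) hc.continuousOn
    fun x hx => neg_pos.2 (hneg x hx)
  set η := min m (Wv a k t x₀) / 2 with hη
  have h1 : 2 * η ≤ m := by rw [hη]; linarith [min_le_left m (Wv a k t x₀)]
  have h2 : 2 * η ≤ Wv a k t x₀ := by rw [hη]; linarith [min_le_right m (Wv a k t x₀)]
  have h0 : 0 < η := half_pos (lt_min hm hpos)
  refine ⟨D, x₀, η, hD, hb, hx₀, h0, fun ϑ hϑ => ?_⟩
  have hε : 0 < min η (min ϑ 1) := lt_min h0 (lt_min hϑ one_pos)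
  obtain ⟨T, hT⟩ := ((tendsto_order.1 h.sum.hasSum).1 _ (sub_lt_self _ hε)).exists
  have e1 := min_le_left η (min ϑ 1)
  have e2 := (min_le_right η (min ϑ 1)).trans (min_le_left ϑ 1)
  have e3 := (min_le_right η (min ϑ 1)).trans (min_le_right ϑ 1)
  have tail : ∀ x, |Wv a k t x - wave a k t T x| ≤ η := fun x => by
    have b := fun i => abs_le.1 (bW h (fun i => dot (k i) x + t i) i)
    have u1 := sum_le_hasSum T (fun i _ => sub_nonneg.2 (b i).2) (h.sum.hasSum.sub (sW h t x))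
    have u2 := sum_le_hasSum T (fun i _ => by linarith [(b i).1]) (h.sum.hasSum.add (sW h t x))
    rw [Finset.sum_sub_distrib] at u1
    rw [Finset.sum_add_distrib] at u2
    rw [abs_le, wave]
    constructor <;> linarith
  have rest : ∀ T' : Finset ι, Disjoint T' T → ∑ i ∈ T', a i ≤ min η (min ϑ 1) := fun T' hT' => by
    have := sum_le_hasSum (T'.disjUnion T hT') (fun i _ => (h.pos i).le) h.sum.hasSum
    rw [Finset.sum_disjUnion] at this
    linarith
  refine ⟨T, t, ?_, fun x hx => ?_, fun T' hT' => ?_⟩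
  · linarith [(abs_le.1 (tail x₀)).2]
  · linarith [(abs_le.1 (tail x)).1, hm' x hx]
  · refine le_trans (Finset.sum_le_sum fun i hi => ?_) ((rest T' hT').trans e2)
    have := (Finset.single_le_sum (fun i _ => (h.pos i).le) hi).trans ((rest T' hT').trans e3)
    nlinarith [h.pos i]

variable {A : ℝ} {F : ℂ → ℝ} {G H : ℂ → ℂ}

namespace A0

lemma dF (h : Jet A F G H) (x e : ℂ) (u : ℝ) :
    HasDerivAt (fun u : ℝ => F (x + u * e)) (dot (G (x + u * e)) e) u := by
  refine deriv_of_sq (C := A * ‖e‖ ^ 3 + A * ‖e‖ ^ 2) fun s hs => ?_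
  have h1 := abs_le.1 (h.tF (x + u * e) (s * e))
  have hA : 0 ≤ A := by linarith [h.one]
  have e1 : x + ((u + s : ℝ) : ℂ) * e = x + u * e + s * e := by push_cast; ring
  have e2 : dot (G (x + u * e)) (s * e) = s * dot (G (x + u * e)) e := by simp [dot_eq]; ring
  have e3 : ‖(s : ℂ) * e‖ ^ 2 = s ^ 2 * ‖e‖ ^ 2 := by
    rw [norm_mul, Complex.norm_real, mul_pow, Real.norm_eq_abs, sq_abs]
  have e4 : ‖(s : ℂ) * e‖ ^ 3 ≤ s ^ 2 * ‖e‖ ^ 3 := by
    rw [norm_mul, Complex.norm_real, mul_pow, Real.norm_eq_abs, ← sq_abs s]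
    exact mul_le_mul_of_nonneg_right
      (pow_le_pow_of_le_one (abs_nonneg s) hs (by norm_num)) (by positivity)
  have h2 : |F (x + u * e) * ‖(s : ℂ) * e‖ ^ 2| ≤ A * (s ^ 2 * ‖e‖ ^ 2) := by
    rw [abs_mul, abs_of_nonneg (sq_nonneg ‖(s : ℂ) * e‖), e3]
    exact mul_le_mul_of_nonneg_right (h.bF _) (by positivity)
  have h3 : |(H (x + u * e) * conj ((s : ℂ) * e) ^ 2).re| ≤ A * (s ^ 2 * ‖e‖ ^ 2) := by
    refine (Complex.abs_re_le_norm _).trans ?_
    rw [norm_mul, norm_pow, Complex.norm_conj, e3]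
    exact mul_le_mul_of_nonneg_right (h.bH _) (by positivity)
  have h4 := mul_le_mul_of_nonneg_left e4 hA
  have h5 : 0 ≤ A * (s ^ 2 * ‖e‖ ^ 2) := by positivity
  rw [abs_le] at h2 h3 ⊢
  simp only [e1, ← e2]
  constructor <;> nlinarith [h1.1, h1.2, h2.1, h2.2, h3.1, h3.2]

lemma dG (h : Jet A F G H) (x e f : ℂ) (u : ℝ) :
    HasDerivAt (fun u : ℝ => dot (G (x + u * e)) f)
      (-(F (x + u * e) * dot e f + (H (x + u * e) * conj e * conj f).re) / 2) u := by
  refine deriv_of_sq (C := A * ‖e‖ ^ 2 * ‖f‖) fun s _ => ?_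
  have h1 := h.tG (x + u * e) (s * e)
  have e1 : x + ((u + s : ℝ) : ℂ) * e = x + u * e + s * e := by push_cast; ring
  have e3 : ‖(s : ℂ) * e‖ ^ 2 = s ^ 2 * ‖e‖ ^ 2 := by
    rw [norm_mul, Complex.norm_real, mul_pow, Real.norm_eq_abs, sq_abs]
  have h2 := (abs_dot _ f).trans (mul_le_mul_of_nonneg_right h1 (norm_nonneg f))
  rw [e3] at h2
  have e2 : ∀ (g g' q : ℂ) (r : ℝ), dot g' f - dot g f - s * (-(r * dot e f +
      (q * conj e * conj f).re) / 2) = dot (g' - g + (r * (s * e) + q * conj (s * e)) / 2) f := by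
    intro g g' q r
    simp [dot_eq]
    ring
  simp only [e1, e2]
  exact h2.trans_eq (by ring)

lemma lip (h : Jet A F G H) (x y : ℂ) :
    |F x - F y| ≤ A * ‖x - y‖ ∧ ‖G x - G y‖ ≤ A * ‖x - y‖ := by
  have hA : 0 ≤ A := by linarith [h.one]
  constructor
  · have := mvt (dF h y (x - y)) (C := A * ‖x - y‖) (s := 1) fun u _ =>
      (abs_dot _ _).trans (mul_le_mul_of_nonneg_right (h.bG _) (norm_nonneg _))
    simpa using this
  · have := mvt (dG h y (x - y) (G x - G y)) (C := A * ‖x - y‖ * ‖G x - G y‖) (s := 1)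
      fun u _ => by
        have h2 : |F (y + u * (x - y)) * dot (x - y) (G x - G y)| ≤
            A * ‖x - y‖ * ‖G x - G y‖ := by
          rw [abs_mul, mul_assoc]
          exact mul_le_mul (h.bF _) (abs_dot _ _) (abs_nonneg _) hA
        have h3 : |(H (y + u * (x - y)) * conj (x - y) * conj (G x - G y)).re| ≤
            A * ‖x - y‖ * ‖G x - G y‖ := by
          refine (Complex.abs_re_le_norm _).trans ?_
          rw [norm_mul, norm_mul, Complex.norm_conj, Complex.norm_conj]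
          gcongr
          exact h.bH _
        rw [abs_le] at h2 h3 ⊢
        constructor <;> linarith [h2.1, h2.2, h3.1, h3.2]
    have e : dot (G x) (G x - G y) - dot (G y) (G x - G y) = ‖G x - G y‖ ^ 2 := by
      rw [norm_sq]; simp [dot_eq]; ring
    simp only [Complex.ofReal_one, one_mul, add_sub_cancel, Complex.ofReal_zero, zero_mul,
      add_zero, abs_one, mul_one, e] at this
    rcases (norm_nonneg (G x - G y)).eq_or_lt with h0 | h0
    · rw [← h0]; positivity
    · refine le_of_mul_le_mul_right ?_ h0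
      rw [← sq]
      exact (le_abs_self _).trans this

end A0

theorem Jet.cont (h : Jet A F G H) : Continuous F ∧ Continuous G ∧ Continuous H := by
  refine ⟨(LipschitzWith.of_dist_le' (K := A) fun x y => ?_).continuous,
    (LipschitzWith.of_dist_le' (K := A) fun x y => ?_).continuous,
    (LipschitzWith.of_dist_le' (K := A) fun x y => ?_).continuous⟩
  · rw [Real.dist_eq, dist_eq_norm]; exact (A0.lip h x y).1
  · rw [dist_eq_norm, dist_eq_norm]; exact (A0.lip h x y).2
  · rw [dist_eq_norm, dist_eq_norm]; simpa using h.tH y (x - y)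

theorem Jet.deriv_F (h : Jet A F G H) (x e : ℂ) (u : ℝ) :
    HasDerivAt (fun u : ℝ => F (x + u * e)) (dot (G (x + u * e)) e) u := dF h x e u

theorem Jet.deriv_G (h : Jet A F G H) (x e f : ℂ) (u : ℝ) :
    HasDerivAt (fun u : ℝ => dot (G (x + u * e)) f)
      (-(F (x + u * e) * dot e f + (H (x + u * e) * conj e * conj f).re) / 2) u := dG h x e f u

theorem Jet.lip (h : Jet A F G H) (x y : ℂ) :
    |F x - F y| ≤ A * ‖x - y‖ ∧ ‖G x - G y‖ ≤ A * ‖x - y‖ := A0.lip h x y

theorem unif_prob (σ : Type) [Fintype σ] : IsProbabilityMeasure (unif σ) := by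
  have : IsProbabilityMeasure
      ((ENNReal.ofReal (2 * π))⁻¹ • (volume : Measure ℝ).restrict (Ico 0 (2 * π))) := by
    refine ⟨?_⟩
    rw [Measure.smul_apply, Measure.restrict_apply_univ, Real.volume_Ico, sub_zero, smul_eq_mul]
    exact ENNReal.inv_mul_cancel (by simp [pi_pos]) ENNReal.ofReal_ne_top
  unfold unif
  infer_instance

end Pool.Agent.Lib.MP_e1e19a_an
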