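import Pool.Agent.Lib.MP_e1e19a_an.N.A0

/-!
Small boxes have small probability.
-/

namespace Pool.Agent.Lib.MP_e1e19a_an

open Real MeasureTheory Set
open scoped MatrixGroups ComplexConjugate UpperHalfPlane

namespace A1

/-- real part of the rotated vector -/
noncomputable def ph (z : ℂ) (θ : ℝ) : ℝ := z.re * cos θ - z.im * sin θ

/-- its derivative -/
noncomputable def ps (z : ℂ) (θ : ℝ) : ℝ := -(z.re * sin θ) - z.im * cos θ

lemma ph_eq (z : ℂ) (θ : ℝ) : (z * Complex.exp (Complex.I * θ)).re = ph z θ := by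
  rw [mul_comm Complex.I, Complex.mul_re, Complex.exp_ofReal_mul_I_re, Complex.exp_ofReal_mul_I_im]
  rfl

lemma ph_deriv (z : ℂ) (θ : ℝ) : HasDerivAt (ph z) (ps z θ) θ := by
  have h := ((hasDerivAt_cos θ).const_mul z.re).sub ((hasDerivAt_sin θ).const_mul z.im)
  refine h.congr_deriv ?_
  unfold ps; ring

lemma ps_deriv (z : ℂ) (θ : ℝ) : HasDerivAt (ps z) (-ph z θ) θ := by
  have h := ((hasDerivAt_sin θ).const_mul z.re).neg.sub ((hasDerivAt_cos θ).const_mul z.im)
  refine h.congr_deriv ?_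
  unfold ph; ring

lemma ph_cont (z : ℂ) : Continuous (ph z) := by unfold ph; fun_prop

lemma ps_cont (z : ℂ) : Continuous (ps z) := by unfold ps; fun_prop

lemma sq_sum (z : ℂ) (θ : ℝ) : ph z θ ^ 2 + ps z θ ^ 2 = ‖z‖ ^ 2 := by
  rw [Complex.sq_norm, Complex.normSq_apply]
  unfold ph ps
  have := sin_sq_add_cos_sq θ
  linear_combination (z.re * z.re + z.im * z.im) * this

lemma ph_abs (z : ℂ) (θ : ℝ) : |ph z θ| ≤ ‖z‖ :=
  abs_le_of_sq_le_sq' (by nlinarith [sq_sum z θ, sq_nonneg (ps z θ)]) (norm_nonneg _) |> abs_le.2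

lemma ps_abs (z : ℂ) (θ : ℝ) : |ps z θ| ≤ ‖z‖ :=
  abs_le_of_sq_le_sq' (by nlinarith [sq_sum z θ, sq_nonneg (ph z θ)]) (norm_nonneg _) |> abs_le.2

lemma ph_per (z : ℂ) : ph z (2 * π) = ph z 0 := by simp [ph]

lemma ps_per (z : ℂ) : ps z (2 * π) = ps z 0 := by simp [ps]

/-- second integration by parts -/
lemma int_ph_sq (z : ℂ) {q : ℝ} (hq : 0 < q) :
    ∫ θ in (0:ℝ)..2 * π, ph z θ ^ 2 / (ps z θ ^ 2 + q ^ 2) ≤ π ^ 2 * ‖z‖ / q := by
  have hpos : ∀ θ, 0 < ps z θ ^ 2 + q ^ 2 := fun θ => by positivity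
  have hd : ∀ θ, HasDerivAt (fun θ => ph z θ * (arctan (ps z θ / q) / q))
      (ps z θ * (arctan (ps z θ / q) / q) - ph z θ ^ 2 / (ps z θ ^ 2 + q ^ 2)) θ := by
    intro θ
    have h := (ph_deriv z θ).mul ((((ps_deriv z θ).div_const q).arctan).div_const q)
    refine h.congr_deriv ?_
    have := (hpos θ).ne'
    field_simp
    ring
  have c1 : Continuous fun θ => ps z θ * (arctan (ps z θ / q) / q) :=
    (ps_cont z).mul ((continuous_arctan.comp ((ps_cont z).div_const q)).div_const q)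
  have c2 : Continuous fun θ => ph z θ ^ 2 / (ps z θ ^ 2 + q ^ 2) :=
    ((ph_cont z).pow 2).div (((ps_cont z).pow 2).add continuous_const) fun θ => (hpos θ).ne'
  have h0 := intervalIntegral.integral_eq_sub_of_hasDerivAt (a := 0) (b := 2 * π)
    (fun θ _ => hd θ) ((c1.sub c2).intervalIntegrable _ _)
  rw [ph_per, ps_per, sub_self, intervalIntegral.integral_sub (c1.intervalIntegrable _ _)
    (c2.intervalIntegrable _ _), sub_eq_zero] at h0
  rw [← h0]
  have hb : ∀ θ ∈ Set.uIoc (0:ℝ) (2 * π), ‖ps z θ * (arctan (ps z θ / q) / q)‖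
      ≤ ‖z‖ * (π / 2 / q) := by
    intro θ _
    rw [Real.norm_eq_abs, abs_mul, abs_div, abs_of_pos hq]
    have h1 : |arctan (ps z θ / q)| ≤ π / 2 :=
      abs_le.2 ⟨(neg_pi_div_two_lt_arctan _).le, (arctan_lt_pi_div_two _).le⟩
    have h2 := ps_abs z θ
    gcongr
  have h1 := intervalIntegral.norm_integral_le_of_norm_le_const hb
  rw [sub_zero, abs_of_pos two_pi_pos] at h1
  refine (le_abs_self _).trans (h1.trans (le_of_eq ?_))
  field_simp

lemma int_inv (z : ℂ) {q : ℝ} (hq : 0 < q) (hz : ‖z‖ = q ^ 2) :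
    ∫ θ in (0:ℝ)..2 * π, 2 * q ^ 2 / (ps z θ ^ 2 + q ^ 2) ≤ 4 * π / q ^ 2 + 2 * π ^ 2 / q := by
  have hpos : ∀ θ, 0 < ps z θ ^ 2 + q ^ 2 := fun θ => by positivity
  have c2 : Continuous fun θ => ph z θ ^ 2 / (ps z θ ^ 2 + q ^ 2) :=
    ((ph_cont z).pow 2).div (((ps_cont z).pow 2).add continuous_const) fun θ => (hpos θ).ne'
  have c3 : Continuous fun θ => 2 * q ^ 2 / (ps z θ ^ 2 + q ^ 2) :=
    continuous_const.div (((ps_cont z).pow 2).add continuous_const) fun θ => (hpos θ).ne'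
  have hle : ∀ θ, 2 * q ^ 2 / (ps z θ ^ 2 + q ^ 2)
      ≤ 2 / q ^ 2 + 2 / q ^ 2 * (ph z θ ^ 2 / (ps z θ ^ 2 + q ^ 2)) := by
    intro θ
    have h1 := sq_sum z θ
    rw [hz] at h1
    have h2 := hpos θ
    have : 2 / q ^ 2 + 2 / q ^ 2 * (ph z θ ^ 2 / (ps z θ ^ 2 + q ^ 2))
        - 2 * q ^ 2 / (ps z θ ^ 2 + q ^ 2) = 2 / (ps z θ ^ 2 + q ^ 2) := by
      have h3 : ph z θ ^ 2 = (q ^ 2) ^ 2 - ps z θ ^ 2 := by linarith
      rw [h3]
      field_simp
      ring
    have h4 : 0 ≤ 2 / (ps z θ ^ 2 + q ^ 2) := by positivity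
    linarith
  have c5 : Continuous fun θ => 2 / q ^ 2 * (ph z θ ^ 2 / (ps z θ ^ 2 + q ^ 2)) :=
    continuous_const.mul c2
  have c6 : Continuous fun θ => 2 / q ^ 2 + 2 / q ^ 2 * (ph z θ ^ 2 / (ps z θ ^ 2 + q ^ 2)) :=
    continuous_const.add c5
  have h1 := intervalIntegral.integral_mono_on (a := 0) (b := 2 * π) (μ := volume) two_pi_pos.le
    (c3.intervalIntegrable _ _) (c6.intervalIntegrable _ _) (fun θ _ => hle θ)
  refine h1.trans ?_
  rw [intervalIntegral.integral_add (continuous_const.intervalIntegrable _ _)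
    (c5.intervalIntegrable _ _), intervalIntegral.integral_const_mul,
    intervalIntegral.integral_const]
  have h2 := int_ph_sq z hq
  rw [hz] at h2
  have h3 : 2 / q ^ 2 * ∫ θ in (0:ℝ)..2 * π, ph z θ ^ 2 / (ps z θ ^ 2 + q ^ 2)
      ≤ 2 / q ^ 2 * (π ^ 2 * q ^ 2 / q) := by gcongr
  have h4 : 2 / q ^ 2 * (π ^ 2 * q ^ 2 / q) = 2 * π ^ 2 / q := by field_simp
  have h5 : (2 * π - 0) • (2 / q ^ 2) = 4 * π / q ^ 2 := by
    rw [smul_eq_mul]; ring
  linarith

/-- first integration by parts -/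
lemma osc (z : ℂ) {q : ℝ} (hq : 0 < q) (hz : ‖z‖ = q ^ 2) :
    ‖∫ θ in (0:ℝ)..2 * π, Complex.exp (ph z θ * Complex.I)‖ ≤ 4 * π / q ^ 2 + 2 * π ^ 2 / q := by
  have hpos : ∀ θ, 0 < ps z θ ^ 2 + q ^ 2 := fun θ => by positivity
  set h' : ℝ → ℝ := fun θ => -ph z θ * (q ^ 2 - ps z θ ^ 2) / (ps z θ ^ 2 + q ^ 2) ^ 2 with hh'
  have hd0 : ∀ θ, HasDerivAt (fun θ => ps z θ / (ps z θ ^ 2 + q ^ 2)) (h' θ) θ := by
    intro θ
    have h := (ps_deriv z θ).div (((ps_deriv z θ).pow 2).add_const (q ^ 2)) (hpos θ).ne'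
    refine h.congr_deriv ?_
    simp only [hh', Pi.pow_apply]
    congr 1
    push_cast
    ring
  have hd : ∀ θ, HasDerivAt (fun θ => Complex.I * ((ps z θ / (ps z θ ^ 2 + q ^ 2) : ℝ) *
      Complex.exp (ph z θ * Complex.I)))
      (((q ^ 2 / (ps z θ ^ 2 + q ^ 2) : ℝ) + Complex.I * h' θ) * Complex.exp (ph z θ * Complex.I)
        - Complex.exp (ph z θ * Complex.I)) θ := by
    intro θ
    have h := ((hd0 θ).ofReal_comp.mul
      (((ph_deriv z θ).ofReal_comp.mul_const Complex.I).cexp)).const_mul Complex.I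
    refine h.congr_deriv ?_
    have h2 : ((ps z θ : ℂ) ^ 2 + (q : ℂ) ^ 2) ≠ 0 := by exact_mod_cast (hpos θ).ne'
    have h3 : ((q ^ 2 / (ps z θ ^ 2 + q ^ 2) : ℝ) : ℂ)
        = 1 - ((ps z θ / (ps z θ ^ 2 + q ^ 2) : ℝ) : ℂ) * ps z θ := by
      push_cast
      field_simp
      ring
    rw [h3]
    linear_combination (((ps z θ / (ps z θ ^ 2 + q ^ 2) : ℝ) : ℂ) * ps z θ *
      Complex.exp (ph z θ * Complex.I)) * Complex.I_mul_I
  have ce : Continuous fun θ => Complex.exp (ph z θ * Complex.I) :=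
    Complex.continuous_exp.comp ((Complex.continuous_ofReal.comp (ph_cont z)).mul continuous_const)
  have cd : Continuous fun θ => ps z θ ^ 2 + q ^ 2 := ((ps_cont z).pow 2).add continuous_const
  have c1 : Continuous fun θ => q ^ 2 / (ps z θ ^ 2 + q ^ 2) :=
    continuous_const.div cd fun θ => (hpos θ).ne'
  have c2 : Continuous h' :=
    ((ph_cont z).neg.mul (continuous_const.sub ((ps_cont z).pow 2))).div (cd.pow 2)
      fun θ => (pow_pos (hpos θ) 2).ne'
  have c3 : Continuous fun θ => (((q ^ 2 / (ps z θ ^ 2 + q ^ 2) : ℝ) : ℂ) + Complex.I * h' θ) *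
      Complex.exp (ph z θ * Complex.I) :=
    ((Complex.continuous_ofReal.comp c1).add
      (continuous_const.mul (Complex.continuous_ofReal.comp c2))).mul ce
  have h0 := intervalIntegral.integral_eq_sub_of_hasDerivAt (a := 0) (b := 2 * π)
    (fun θ _ => hd θ) ((c3.sub ce).intervalIntegrable _ _)
  rw [ph_per, ps_per, sub_self, intervalIntegral.integral_sub (c3.intervalIntegrable _ _)
    (ce.intervalIntegrable _ _), sub_eq_zero] at h0
  rw [← h0]
  refine le_trans ?_ (int_inv z hq hz)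
  have c4 : Continuous fun θ => 2 * q ^ 2 / (ps z θ ^ 2 + q ^ 2) :=
    continuous_const.div cd fun θ => (hpos θ).ne'
  refine intervalIntegral.norm_integral_le_of_norm_le two_pi_pos.le
    (ae_of_all _ fun θ _ => ?_) (c4.intervalIntegrable _ _)
  rw [norm_mul, Complex.norm_exp_ofReal_mul_I, mul_one]
  refine (norm_add_le _ _).trans ?_
  rw [norm_mul, Complex.norm_I, one_mul, Complex.norm_real, Complex.norm_real, Real.norm_eq_abs,
    Real.norm_eq_abs, abs_of_nonneg (by have := hpos θ; positivity)]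
  have h1 : |h' θ| ≤ q ^ 2 / (ps z θ ^ 2 + q ^ 2) := by
    have hp := hpos θ
    simp only [hh']
    rw [abs_div, abs_mul, abs_neg, abs_of_pos (pow_pos hp 2)]
    have h2 : |q ^ 2 - ps z θ ^ 2| ≤ ps z θ ^ 2 + q ^ 2 :=
      abs_le.2 ⟨by nlinarith [sq_nonneg q], by nlinarith [sq_nonneg (ps z θ)]⟩
    have h3 := ph_abs z θ
    rw [hz] at h3
    calc _ ≤ q ^ 2 * (ps z θ ^ 2 + q ^ 2) / (ps z θ ^ 2 + q ^ 2) ^ 2 := by gcongr
      _ = _ := by field_simp
  have h2 : 2 * q ^ 2 / (ps z θ ^ 2 + q ^ 2)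
      = q ^ 2 / (ps z θ ^ 2 + q ^ 2) + q ^ 2 / (ps z θ ^ 2 + q ^ 2) := by ring
  linarith

/-- one uniform phase -/
noncomputable def one : Measure ℝ :=
  (ENNReal.ofReal (2 * π))⁻¹ • volume.restrict (Ico 0 (2 * π))

instance one_prob : IsProbabilityMeasure one := by
  constructor
  have h : ENNReal.ofReal (2 * π) ≠ 0 := by simpa using pi_pos
  simp only [one, Measure.smul_apply, Measure.restrict_apply_univ, Real.volume_Ico, sub_zero,
    smul_eq_mul]
  exact ENNReal.inv_mul_cancel h ENNReal.ofReal_ne_top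

/-- the mean over one phase -/
noncomputable def J (z : ℂ) : ℂ := ∫ θ, Complex.exp (ph z θ * Complex.I) ∂one

lemma J_le_one (z : ℂ) : ‖J z‖ ≤ 1 := by
  have := norm_integral_le_of_norm_le_const (μ := one)
    (f := fun θ => Complex.exp (ph z θ * Complex.I)) (C := 1)
    (ae_of_all _ fun θ => (Complex.norm_exp_ofReal_mul_I _).le)
  simpa [J] using this

lemma J_le (z : ℂ) {r : ℝ} (hr : 0 < r) (hz : r ≤ ‖z‖) : ‖J z‖ ≤ 6 / √r := by
  have hz0 : 0 < ‖z‖ := hr.trans_le hz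
  have hq : 0 < √‖z‖ := sqrt_pos.2 hz0
  have hq' : 0 < √r := sqrt_pos.2 hr
  have hrq : √r ≤ √‖z‖ := sqrt_le_sqrt hz
  refine le_trans ?_ (show 6 / √‖z‖ ≤ 6 / √r by gcongr)
  set q := √‖z‖ with hqd
  by_cases h1 : q ≤ 1
  · refine (J_le_one z).trans ?_
    rw [le_div_iff₀ hq]; linarith
  push Not at h1
  have h2 := osc z hq (by rw [hqd, sq_sqrt hz0.le])
  have h3 : J z = (2 * π)⁻¹ • ∫ θ in (0:ℝ)..2 * π, Complex.exp (ph z θ * Complex.I) := by
    rw [J, one, integral_smul_measure, intervalIntegral.integral_of_le two_pi_pos.le,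
      integral_Ico_eq_integral_Ioo, integral_Ioc_eq_integral_Ioo, ENNReal.toReal_inv,
      ENNReal.toReal_ofReal two_pi_pos.le]
  rw [h3, norm_smul, Real.norm_eq_abs, abs_of_pos (inv_pos.2 two_pi_pos)]
  have hp := pi_pos
  calc _ ≤ (2 * π)⁻¹ * (4 * π / q ^ 2 + 2 * π ^ 2 / q) := by gcongr
    _ = 2 / q ^ 2 + π / q := by field_simp; ring
    _ ≤ 2 / q + 4 / q := by
        gcongr
        · nlinarith
        · exact pi_le_four
    _ = 6 / q := by ring

/-- an integrable majorant -/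
noncomputable def maj (K x : ℝ) : ℝ := 2 * (1 + (x / K) ^ 2)⁻¹

lemma maj_pos (K x : ℝ) : 0 < maj K x := by unfold maj; positivity

lemma prod_J {n : ℕ} {c₁ : ℝ} (hc : 0 < c₁) {σ : Type} [Fintype σ] (w : σ → Fin n → ℂ)
    (H : ∀ u : Fin n → ℝ, ‖u‖ = 1 →
      4 * n ≤ (Finset.univ.filter fun g => c₁ ≤ ‖∑ i, u i * w g i‖).card) (ξ : Fin n → ℝ) :
    ∏ g, ‖J (∑ i, ξ i * w g i)‖ ≤ ∏ i, maj (36 / c₁) (ξ i) := by
  by_cases h0 : ξ = 0
  · refine (Finset.prod_le_one (fun g _ => norm_nonneg _) fun g _ => J_le_one _).trans ?_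
    have : ∏ i, maj (36 / c₁) (ξ i) = 2 ^ n := by simp [h0, maj]
    rw [this]
    exact one_le_pow₀ one_le_two
  have hρ : 0 < ‖ξ‖ := norm_pos_iff.2 h0
  set ρ := ‖ξ‖ with hρd
  have hu : ‖ρ⁻¹ • ξ‖ = 1 := by
    rw [norm_smul, norm_inv, norm_norm, inv_mul_cancel₀ hρ.ne']
  have hG := H _ hu
  set G := Finset.univ.filter fun g => c₁ ≤ ‖∑ i, ((ρ⁻¹ • ξ) i : ℝ) * w g i‖ with hGd
  set β := min 1 (6 / √(c₁ * ρ)) with hβ
  have hs : 0 < √(c₁ * ρ) := sqrt_pos.2 (mul_pos hc hρ)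
  have hβ0 : 0 ≤ β := le_min zero_le_one (by positivity)
  have hβ1 : β ≤ 1 := min_le_left _ _
  have hgood : ∀ g ∈ G, ‖J (∑ i, ξ i * w g i)‖ ≤ β := by
    intro g hg
    refine le_min (J_le_one _) (J_le _ (mul_pos hc hρ) ?_)
    have h1 := (Finset.mem_filter.1 hg).2
    have h2 : ∑ i, (ξ i : ℂ) * w g i = ρ * ∑ i, ((ρ⁻¹ • ξ) i : ℝ) * w g i := by
      rw [Finset.mul_sum]
      refine Finset.sum_congr rfl fun i _ => ?_
      have : (ρ : ℂ) ≠ 0 := by exact_mod_cast hρ.ne'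
      simp only [Pi.smul_apply, smul_eq_mul]
      push_cast
      field_simp
    rw [h2, norm_mul, Complex.norm_real, Real.norm_eq_abs, abs_of_pos hρ, mul_comm c₁]
    gcongr
  have hβ4 : ∀ i, β ^ 4 ≤ maj (36 / c₁) (ξ i) := by
    intro i
    have hi : |ξ i| ≤ ρ := by simpa using norm_le_pi_norm ξ i
    have hK : 0 < 36 / c₁ := by positivity
    have hx : (ξ i / (36 / c₁)) ^ 2 ≤ (ρ / (36 / c₁)) ^ 2 := by
      rw [← sq_abs, abs_div, abs_of_pos hK]
      gcongr
    have h1 : β ^ 4 ≤ 1 := pow_le_one₀ hβ0 hβ1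
    have h2 : β ^ 4 * (ρ / (36 / c₁)) ^ 2 ≤ 1 := by
      have h3 : β ^ 4 ≤ (6 / √(c₁ * ρ)) ^ 4 := by
        gcongr
        exact min_le_right _ _
      have h4 : (6 / √(c₁ * ρ)) ^ 4 * (ρ / (36 / c₁)) ^ 2 = 1 := by
        have h5 : √(c₁ * ρ) ^ 4 = (c₁ * ρ) ^ 2 := by
          rw [show 4 = 2 * 2 from rfl, pow_mul, sq_sqrt (mul_pos hc hρ).le]
        rw [div_pow, h5]
        field_simp
        norm_num
      calc _ ≤ (6 / √(c₁ * ρ)) ^ 4 * (ρ / (36 / c₁)) ^ 2 := by gcongr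
        _ = 1 := h4
    unfold maj
    rw [← div_eq_mul_inv, le_div_iff₀ (by positivity)]
    have h6 : β ^ 4 * (ξ i / (36 / c₁)) ^ 2 ≤ β ^ 4 * (ρ / (36 / c₁)) ^ 2 := by gcongr
    linarith
  calc ∏ g, ‖J (∑ i, ξ i * w g i)‖ ≤ ∏ g ∈ G, ‖J (∑ i, ξ i * w g i)‖ :=
        Finset.prod_le_prod_of_subset_of_le_one (Finset.subset_univ _)
          (fun g _ => norm_nonneg _) fun g _ _ => J_le_one _
    _ ≤ ∏ _g ∈ G, β := Finset.prod_le_prod (fun g _ => norm_nonneg _) hgood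
    _ = β ^ G.card := Finset.prod_const _
    _ ≤ β ^ (4 * n) := pow_le_pow_of_le_one hβ0 hβ1 hG
    _ = ∏ _i : Fin n, β ^ 4 := by rw [Finset.prod_const, Finset.card_univ, Fintype.card_fin, pow_mul]
    _ ≤ _ := Finset.prod_le_prod (fun i _ => by positivity) fun i _ => hβ4 i

open ProbabilityTheory in
lemma gauss_maj {K s : ℝ} (hK : 0 < K) (hs : 0 < s) :
    ∫ η, maj K (η / s) ∂gaussianReal 0 1 ≤ 2 * π * K * s := by
  have hi : Integrable fun η : ℝ => maj K (η / s) :=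
    ((integrable_inv_one_add_sq.comp_div hK.ne').const_mul 2).comp_div hs.ne'
  have hv : ∫ η : ℝ, maj K (η / s) = 2 * π * K * s := by
    rw [Measure.integral_comp_div (maj K), abs_of_pos hs]
    unfold maj
    rw [integral_const_mul, Measure.integral_comp_div (fun x : ℝ => (1 + x ^ 2)⁻¹), abs_of_pos hK,
      integral_univ_inv_one_add_sq, smul_eq_mul, smul_eq_mul]
    ring
  rw [integral_gaussianReal_eq_integral_smul one_ne_zero, ← hv]
  refine integral_mono_of_nonneg (ae_of_all _ fun x => ?_) hi (ae_of_all _ fun x => ?_)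
  · exact smul_nonneg (gaussianPDFReal_nonneg _ _ _) (maj_pos _ _).le
  · have h1 : gaussianPDFReal 0 1 x ≤ 1 := by
      unfold gaussianPDFReal
      have h2 : (√(2 * π * (1 : NNReal)))⁻¹ ≤ 1 := by
        refine inv_le_one_of_one_le₀ (one_le_sqrt.2 ?_)
        have := pi_gt_three
        push_cast
        linarith
      have h3 : rexp (-(x - 0) ^ 2 / (2 * (1 : NNReal))) ≤ 1 := by
        refine exp_le_one_iff.2 ?_
        push_cast
        nlinarith [sq_nonneg (x - 0)]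
      exact mul_le_one₀ h2 (exp_pos _).le h3
    have h4 := maj_pos K (x / s)
    simp only [smul_eq_mul]
    nlinarith

open ProbabilityTheory in
lemma gauss_char (t : ℝ) : ((rexp (-(t ^ 2 / 2)) : ℝ) : ℂ)
    = ∫ η : ℝ, Complex.exp (t * η * Complex.I) ∂gaussianReal 0 1 := by
  rw [← charFun_apply_real, charFun_gaussianReal]
  push_cast
  congr 1
  ring

end A1

open A1 ProbabilityTheory in
theorem box_prob (n : ℕ) {c₁ : ℝ} (hc : 0 < c₁) : ∃ C > 0, ∀ (σ : Type) [Fintype σ]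
    (w : σ → Fin n → ℂ) (v s : Fin n → ℝ), (∀ i, 0 < s i) →
    (∀ u : Fin n → ℝ, ‖u‖ = 1 →
      4 * n ≤ (Finset.univ.filter fun g => c₁ ≤ ‖∑ i, u i * w g i‖).card) →
    unif σ {ω | ∀ i, |v i + ∑ g, (w g i * Complex.exp (Complex.I * ω g)).re| ≤ s i}
      ≤ ENNReal.ofReal (C * ∏ i, s i) := by
  have hK : 0 < 36 / c₁ := by positivity
  have hp := pi_pos
  refine ⟨(rexp (1 / 2) * (2 * π * (36 / c₁))) ^ n, by positivity, ?_⟩
  intro σ _ w v s hs H
  have hμ : unif σ = Measure.pi fun _ : σ => one := rfl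
  rw [hμ]
  set μ := Measure.pi fun _ : σ => one with hμd
  set γ := Measure.pi fun _ : Fin n => gaussianReal 0 1 with hγ
  simp only [ph_eq]
  set V : (σ → ℝ) → Fin n → ℝ := fun ω i => v i + ∑ g, ph (w g i) (ω g) with hV
  have cV : ∀ i, Continuous fun ω => V ω i := fun i =>
    continuous_const.add (continuous_finsetSum _ fun g _ =>
      (ph_cont _).comp (continuous_apply g))
  set f : (σ → ℝ) → ℝ := fun ω => ∏ i, rexp (-((V ω i / s i) ^ 2 / 2)) with hf
  set F : (σ → ℝ) → (Fin n → ℝ) → ℂ := fun ω η =>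
    ∏ i, Complex.exp ((V ω i / s i : ℝ) * η i * Complex.I) with hF
  have cf : Continuous f := continuous_finsetProd _ fun i _ =>
    continuous_exp.comp ((((cV i).div_const _).pow 2).div_const 2).neg
  have f0 : ∀ ω, 0 ≤ f ω := fun ω => Finset.prod_nonneg fun i _ => (exp_pos _).le
  have f1 : ∀ ω, f ω ≤ 1 := fun ω => Finset.prod_le_one (fun i _ => (exp_pos _).le) fun i _ =>
    exp_le_one_iff.2 (neg_nonpos.2 (by positivity))
  have fi : Integrable f μ := Integrable.of_bound cf.aestronglyMeasurable 1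
    (ae_of_all _ fun ω => by rw [Real.norm_eq_abs, abs_of_nonneg (f0 ω)]; exact f1 ω)
  have hfF : ∀ ω, (f ω : ℂ) = ∫ η, F ω η ∂γ := by
    intro ω
    simp only [hf, hF, hγ]
    rw [integral_fintype_prod_eq_prod
      (fun i (x : ℝ) => Complex.exp ((V ω i / s i : ℝ) * x * Complex.I)), Complex.ofReal_prod]
    exact Finset.prod_congr rfl fun i _ => gauss_char _
  have nF : ∀ ω η, ‖F ω η‖ = 1 := by
    intro ω η
    simp only [hF]
    rw [norm_prod]
    refine Finset.prod_eq_one fun i _ => ?_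
    rw [← Complex.ofReal_mul, Complex.norm_exp_ofReal_mul_I]
  have cF : Continuous (Function.uncurry F) := by
    refine continuous_finsetProd _ fun i _ => Complex.continuous_exp.comp ?_
    exact ((Complex.continuous_ofReal.comp (((cV i).comp continuous_fst).div_const _)).mul
      (Complex.continuous_ofReal.comp ((continuous_apply i).comp continuous_snd))).mul
      continuous_const
  have iF : Integrable (Function.uncurry F) (μ.prod γ) :=
    Integrable.of_bound cF.aestronglyMeasurable 1 (ae_of_all _ fun p => (nF p.1 p.2).le)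
  have hin : ∀ η, ‖∫ ω, F ω η ∂μ‖ ≤ ∏ i, maj (36 / c₁) (η i / s i) := by
    intro η
    have e1 : ∀ ω, F ω η = Complex.exp ((∑ i, η i / s i * v i : ℝ) * Complex.I) *
        ∏ g, Complex.exp (ph (∑ i, (η i / s i : ℝ) * w g i) (ω g) * Complex.I) := by
      intro ω
      simp only [hF]
      rw [← Complex.exp_sum, ← Complex.exp_sum, ← Complex.exp_add, ← Finset.sum_mul,
        ← Finset.sum_mul, ← add_mul]
      congr 2
      have e2 : ∀ g, ph (∑ i, (η i / s i : ℝ) * w g i) (ω g)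
          = ∑ i, η i / s i * ph (w g i) (ω g) := by
        intro g
        simp only [ph, Complex.re_sum, Complex.im_sum, Complex.re_ofReal_mul, Complex.im_ofReal_mul,
          Finset.sum_mul, ← Finset.sum_sub_distrib]
        exact Finset.sum_congr rfl fun i _ => by ring
      simp only [e2]
      norm_cast
      rw [Finset.sum_comm, ← Finset.sum_add_distrib]
      refine Finset.sum_congr rfl fun i _ => ?_
      simp only [hV]
      rw [← Finset.mul_sum]
      ring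
    simp only [e1]
    rw [integral_const_mul, norm_mul, Complex.norm_exp_ofReal_mul_I, one_mul, hμd,
      integral_fintype_prod_eq_prod (fun g (θ : ℝ) =>
        Complex.exp (ph (∑ i, (η i / s i : ℝ) * w g i) θ * Complex.I)), norm_prod]
    exact prod_J hc w H fun i => η i / s i
  have hint : ∫ ω, f ω ∂μ ≤ ∏ i, 2 * π * (36 / c₁) * s i := by
    have e1 : ((∫ ω, f ω ∂μ : ℝ) : ℂ) = ∫ η, ∫ ω, F ω η ∂μ ∂γ := by
      rw [← integral_integral_swap iF, ← integral_complex_ofReal]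
      exact integral_congr_ae (ae_of_all _ hfF)
    have cm : Continuous fun η : Fin n → ℝ => ∏ i, maj (36 / c₁) (η i / s i) := by
      refine continuous_finsetProd _ fun i _ => ?_
      unfold maj
      exact continuous_const.mul ((continuous_const.add
        ((((continuous_apply i).div_const _).div_const _).pow 2)).inv₀ fun η =>
        (add_pos_of_pos_of_nonneg one_pos (sq_nonneg _)).ne')
    have im : Integrable (fun η : Fin n → ℝ => ∏ i, maj (36 / c₁) (η i / s i)) γ := by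
      refine Integrable.of_bound cm.aestronglyMeasurable (∏ _i : Fin n, 2)
        (ae_of_all _ fun η => ?_)
      rw [Real.norm_eq_abs, abs_of_nonneg (Finset.prod_nonneg fun i _ => (maj_pos _ _).le)]
      refine Finset.prod_le_prod (fun i _ => (maj_pos _ _).le) fun i _ => ?_
      unfold maj
      have : (1 + (η i / s i / (36 / c₁)) ^ 2)⁻¹ ≤ 1 :=
        inv_le_one_of_one_le₀ (le_add_of_nonneg_right (sq_nonneg _))
      linarith
    calc ∫ ω, f ω ∂μ ≤ ‖((∫ ω, f ω ∂μ : ℝ) : ℂ)‖ := by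
          rw [Complex.norm_real]; exact le_abs_self _
      _ ≤ ∫ η, ∏ i, maj (36 / c₁) (η i / s i) ∂γ := by
          rw [e1]; exact norm_integral_le_of_norm_le im (ae_of_all _ hin)
      _ = ∏ i, ∫ x, maj (36 / c₁) (x / s i) ∂gaussianReal 0 1 := by
          rw [hγ, integral_fintype_prod_eq_prod (fun i (x : ℝ) => maj (36 / c₁) (x / s i))]
      _ ≤ _ := Finset.prod_le_prod (fun i _ => integral_nonneg fun x => (maj_pos _ _).le)
          fun i _ => gauss_maj hK (hs i)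
  have hsub : {ω | ∀ i, |V ω i| ≤ s i} ⊆ {ω | rexp (-(1 / 2)) ^ n ≤ f ω} := by
    intro ω hω
    show rexp (-(1 / 2)) ^ n ≤ f ω
    have : rexp (-(1 / 2)) ^ n = ∏ _i : Fin n, rexp (-(1 / 2)) := by simp
    rw [this]
    refine Finset.prod_le_prod (fun i _ => (exp_pos _).le) fun i _ => exp_le_exp.2 ?_
    have h1 : (V ω i / s i) ^ 2 ≤ 1 := by
      rw [sq_le_one_iff_abs_le_one, abs_div, abs_of_pos (hs i), div_le_one (hs i)]
      exact hω i
    linarith
  have hM := mul_meas_ge_le_integral_of_nonneg (ae_of_all _ f0) fi (rexp (-(1 / 2)) ^ n)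
  refine (measure_mono hsub).trans ?_
  rw [← ofReal_measureReal]
  refine ENNReal.ofReal_le_ofReal ?_
  have e1 : rexp (1 / 2) ^ n * rexp (-(1 / 2)) ^ n = 1 := by
    rw [← mul_pow, ← exp_add]; simp
  calc μ.real {ω | rexp (-(1 / 2)) ^ n ≤ f ω}
      = rexp (1 / 2) ^ n * (rexp (-(1 / 2)) ^ n * μ.real {ω | rexp (-(1 / 2)) ^ n ≤ f ω}) := by
        rw [← mul_assoc, e1, one_mul]
    _ ≤ rexp (1 / 2) ^ n * ∏ i, 2 * π * (36 / c₁) * s i := by
        gcongr
        exact hM.trans hint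
    _ = _ := by
        rw [Finset.prod_mul_distrib, Finset.prod_const, Finset.card_univ, Fintype.card_fin,
          mul_pow (rexp (1 / 2)), mul_assoc (rexp (1 / 2) ^ n)]

end Pool.Agent.Lib.MP_e1e19a_an
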