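import Pool.Agent.Lib.MP_e1e19a_an.N.A0

/-!
Small perturbations are realised by moving the phases of the tail.
-/

namespace Pool.Agent.Lib.MP_e1e19a_an

open Real MeasureTheory Set
open scoped MatrixGroups ComplexConjugate UpperHalfPlane

namespace A10

lemma cos_taylor (y δ : ℝ) : |cos (y + δ) - cos y + δ * sin y| ≤ δ ^ 2 := by
  have key : ∀ s : ℝ, HasDerivAt (fun s : ℝ => cos (y + s) + s * sin y)
      (-sin (y + s) + sin y) s := fun s => by
    have h1 := ((hasDerivAt_id s).const_add y).cos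
    have h2 := (hasDerivAt_id s).mul_const (sin y)
    have h3 := h1.fun_add h2
    simp only [id, mul_one, one_mul] at h3
    exact h3
  have hb : ∀ s ∈ Metric.closedBall (0 : ℝ) |δ|, ‖-sin (y + s) + sin y‖ ≤ |δ| := fun s hs => by
    have h1 := Real.abs_sin_sub_sin_le y (y + s)
    rw [mem_closedBall_zero_iff, Real.norm_eq_abs] at hs
    rw [Real.norm_eq_abs, neg_add_eq_sub]
    have : |y - (y + s)| = |s| := by rw [← abs_neg]; congr 1; ring
    linarith
  have := (convex_closedBall (0 : ℝ) |δ|).norm_image_sub_le_of_norm_hasDerivWithin_le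
    (fun s _ => (key s).hasDerivWithinAt) hb (Metric.mem_closedBall_self (abs_nonneg δ))
    (y := δ) (by rw [mem_closedBall_zero_iff, Real.norm_eq_abs])
  simp only [add_zero, zero_mul, sub_zero, Real.norm_eq_abs] at this
  rw [abs_mul_abs_self] at this
  calc _ = |cos (y + δ) + δ * sin y - cos y| := by congr 1; ring
    _ ≤ δ * δ := this
    _ = δ ^ 2 := by ring

lemma dot_lip (u v x : ℂ) : |dot u x - dot v x| ≤ ‖u - v‖ * ‖x‖ := by
  have : dot u x - dot v x = (conj (u - v) * x).re := by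
    simp only [dot, map_sub, sub_mul, Complex.sub_re]
  rw [this]
  refine (Complex.abs_re_le_norm _).trans ?_
  rw [norm_mul, Complex.norm_conj]

lemma summ {ι : Type} {a : ι → ℝ} {k : ι → ℂ} (h : Fam a k) (t : ι → ℝ) (x : ℂ) :
    Summable fun i => a i * cos (dot (k i) x + t i) :=
  Summable.of_norm_bounded h.sum fun i => by
    rw [Real.norm_eq_abs, abs_mul, abs_of_pos (h.pos i)]
    exact mul_le_of_le_one_right (h.pos i).le (abs_cos_le_one _)

/-- moving the phases of finitely many waves -/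
lemma move {ι ρ : Type} [Fintype ρ] {a : ι → ℝ} {k : ι → ℂ} (h : Fam a k) (t : ι → ℝ)
    (G : ρ → ι) (β : ρ → ℝ) {m : ℝ} (hm : 0 < m) (hG : ∀ j, m ≤ a (G j)) :
    ∃ t' : ι → ℝ, ∀ x : ℂ, |Wv a k t' x - Wv a k t x +
      ∑ j, β j * sin (dot (k (G j)) x + t (G j))| ≤ (∑ j, |β j|) ^ 2 / m := by
  classical
  set b : ι → ℝ := fun i => ∑ j ∈ Finset.univ.filter fun j => G j = i, β j with hb
  set B : ι → ℝ := fun i => ∑ j ∈ Finset.univ.filter fun j => G j = i, |β j| with hB
  set S : Finset ι := Finset.univ.image G with hS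
  have mem : ∀ j ∈ (Finset.univ : Finset ρ), G j ∈ S := fun j hj => Finset.mem_image_of_mem G hj
  refine ⟨fun i => t i + b i / a i, fun x => ?_⟩
  have e1 : Wv a k (fun i => t i + b i / a i) x - Wv a k t x = ∑ i ∈ S,
      (a i * cos (dot (k i) x + (t i + b i / a i)) - a i * cos (dot (k i) x + t i)) := by
    rw [Wv, Wv, ← (summ h _ x).tsum_sub (summ h t x)]
    refine tsum_eq_sum fun i hi => ?_
    have : b i = 0 := Finset.sum_eq_zero fun j hj =>
      absurd ((Finset.mem_filter.1 hj).2 ▸ mem j (Finset.mem_univ j)) hi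
    rw [this, zero_div, add_zero, sub_self]
  have e2 : ∑ j, β j * sin (dot (k (G j)) x + t (G j)) =
      ∑ i ∈ S, b i * sin (dot (k i) x + t i) := by
    rw [← Finset.sum_fiberwise_of_maps_to mem]
    refine Finset.sum_congr rfl fun i _ => ?_
    rw [hb, Finset.sum_mul]
    exact Finset.sum_congr rfl fun j hj => by rw [(Finset.mem_filter.1 hj).2]
  have e3 : ∑ j, |β j| = ∑ i ∈ S, B i := (Finset.sum_fiberwise_of_maps_to mem _).symm
  have B0 : ∀ i, 0 ≤ B i := fun i => Finset.sum_nonneg fun j _ => abs_nonneg _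
  rw [e1, e2, ← Finset.sum_add_distrib, e3]
  refine (Finset.abs_sum_le_sum_abs _ _).trans ?_
  have step : ∀ i ∈ S, |a i * cos (dot (k i) x + (t i + b i / a i)) -
      a i * cos (dot (k i) x + t i) + b i * sin (dot (k i) x + t i)| ≤ B i ^ 2 / m := by
    intro i hi
    obtain ⟨j, -, rfl⟩ := Finset.mem_image.1 hi
    have a0 := h.pos (G j)
    have c1 := cos_taylor (dot (k (G j)) x + t (G j)) (b (G j) / a (G j))
    have c2 : |b (G j)| ≤ B (G j) := Finset.abs_sum_le_sum_abs _ _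
    have c3 : b (G j) ^ 2 ≤ B (G j) ^ 2 := sq_le_sq' (abs_le.1 c2).1 (abs_le.1 c2).2
    calc _ = a (G j) * |cos (dot (k (G j)) x + t (G j) + b (G j) / a (G j)) -
          cos (dot (k (G j)) x + t (G j)) +
          b (G j) / a (G j) * sin (dot (k (G j)) x + t (G j))| := by
          rw [← abs_of_pos a0, ← abs_mul, abs_of_pos a0, add_assoc (dot _ _)]
          congr 1
          field_simp
      _ ≤ a (G j) * (b (G j) / a (G j)) ^ 2 := mul_le_mul_of_nonneg_left c1 a0.le
      _ = b (G j) ^ 2 / a (G j) := by field_simp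
      _ ≤ B (G j) ^ 2 / m := div_le_div₀ (sq_nonneg _) c3 hm (hG j)
  refine (Finset.sum_le_sum step).trans ?_
  rw [← Finset.sum_div]
  exact div_le_div_of_nonneg_right (Finset.sum_sq_le_sq_sum_of_nonneg fun i _ => B0 i) hm.le

end A10

open A10 in
theorem realise {ι : Type} {a : ι → ℝ} {k : ι → ℂ} {χ : ι → Bool} {K : Set ℂ} (h : Fam a k)
    (hd : Dense' a k χ K) (T : Finset ι) {η C₁ : ℝ} (hη : 0 < η) (hC : 0 < C₁) : ∃ ε₀ > 0,
    ∀ ε ∈ Ioc 0 ε₀, ∀ t : ι → ℝ, (∀ i ∉ T, t i = if χ i then 0 else π / 2) →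
    ∀ (σ : Type) [Fintype σ] (κ w : σ → ℂ), (∀ j, κ j ∈ K) → ∑ j, ‖w j‖ ≤ 4 * ε →
    ∃ t' : ι → ℝ, ∀ x : ℂ, ‖x‖ ≤ C₁ / ε → |Wv a k t' x - Wv a k t x -
      (∑ j, w j * Complex.exp (Complex.I * dot (κ j) x)).re| ≤ η * ε := by
  obtain ⟨c, hc, C, hC0, H⟩ := hd
  obtain ⟨m, hm, hT⟩ : ∃ m > 0, ∀ i ∈ T, m ≤ a i := by
    rcases T.eq_empty_or_nonempty with rfl | hne
    · exact ⟨1, one_pos, by simp⟩
    · obtain ⟨i, -, hi⟩ := T.exists_min_image a hne
      exact ⟨a i, h.pos i, hi⟩
  set q : ℝ := η / (16 * C * C₁) with hq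
  have q0 : 0 < q := by positivity
  refine ⟨min (1 / q) (min ((m / (2 * C)) ^ 2 / q) ((η * c / 128) ^ 2 * q)), by positivity,
    fun ε hε t ht σ _ κ w hκ hw => ?_⟩
  obtain ⟨ε0, hε⟩ := hε
  have l1 : ε ≤ 1 / q := hε.trans (min_le_left _ _)
  have l2 : ε ≤ (m / (2 * C)) ^ 2 / q := hε.trans ((min_le_right _ _).trans (min_le_left _ _))
  have l3 : ε ≤ (η * c / 128) ^ 2 * q := hε.trans ((min_le_right _ _).trans (min_le_right _ _))
  rw [le_div_iff₀ q0] at l1 l2
  have τ0 : 0 < ε * q := by positivity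
  have s0 : 0 < √(ε * q) := Real.sqrt_pos.2 τ0
  have s1 : √(ε * q) ≤ m / (2 * C) := Real.sqrt_le_iff.2 ⟨by positivity, l2⟩
  have s2 : ε ≤ η * c / 128 * √(ε * q) := by
    refine (pow_le_pow_iff_left₀ ε0.le (by positivity) two_ne_zero).1 ?_
    rw [mul_pow, Real.sq_sqrt τ0.le]
    nlinarith
  choose G g1 g2 g3 g4 using fun p : σ × Bool => H (ε * q) ⟨τ0, l1⟩ (κ p.1) (hκ p.1) p.2
  have gT : ∀ p, G p ∉ T := fun p hp => by
    have h1 := (hT _ hp).trans (g3 p)
    have h2 : C * √(ε * q) ≤ C * (m / (2 * C)) := mul_le_mul_of_nonneg_left s1 hC0.le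
    have h3 : C * (m / (2 * C)) = m / 2 := by field_simp
    linarith
  obtain ⟨t', ht'⟩ := move h t G (fun p => if p.2 then (w p.1).im else -(w p.1).re)
    (m := c * √(ε * q)) (by positivity) g2
  refine ⟨t', fun x hx => ?_⟩
  have hx' := ht' x
  simp only [Fintype.sum_prod_type, Fintype.sum_bool, if_true, Bool.false_eq_true, if_false]
    at hx'
  have t1 : ∀ j, t (G (j, true)) = 0 := fun j => by rw [ht _ (gT _), g1]; rfl
  have t2 : ∀ j, t (G (j, false)) = π / 2 := fun j => by rw [ht _ (gT _), g1]; rfl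
  simp only [t1, t2, add_zero, sin_add_pi_div_two] at hx'
  have w1 : ∑ j, (|(w j).im| + |-(w j).re|) ≤ 8 * ε := by
    have : ∑ j, (|(w j).im| + |-(w j).re|) ≤ ∑ j, 2 * ‖w j‖ := Finset.sum_le_sum fun j _ => by
      have := Complex.abs_im_le_norm (w j)
      have := Complex.abs_re_le_norm (w j)
      rw [abs_neg]
      linarith
    rw [← Finset.mul_sum] at this
    linarith
  have w0 : 0 ≤ ∑ j, (|(w j).im| + |-(w j).re|) :=
    Finset.sum_nonneg fun j _ => add_nonneg (abs_nonneg _) (abs_nonneg _)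
  have r1 : (∑ j, (|(w j).im| + |-(w j).re|)) ^ 2 / (c * √(ε * q)) ≤ η * ε / 2 := by
    rw [div_le_iff₀ (by positivity)]
    have : (∑ j, (|(w j).im| + |-(w j).re|)) ^ 2 ≤ (8 * ε) ^ 2 := pow_le_pow_left₀ w0 w1 2
    nlinarith
  have dl : ∀ p : σ × Bool, |dot (k (G p)) x - dot (κ p.1) x| ≤ η / 16 := fun p => by
    refine (dot_lip _ _ _).trans ((mul_le_mul (g4 p) hx (norm_nonneg _) (by positivity)).trans
      (le_of_eq ?_))
    rw [hq]
    field_simp
  have r2 : |∑ j, ((w j).im * sin (dot (k (G (j, true))) x) +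
      -(w j).re * cos (dot (k (G (j, false))) x)) +
      (∑ j, w j * Complex.exp (Complex.I * dot (κ j) x)).re| ≤ η * ε / 2 := by
    rw [Complex.re_sum, ← Finset.sum_add_distrib]
    refine (Finset.abs_sum_le_sum_abs _ _).trans ?_
    have : ∀ j ∈ (Finset.univ : Finset σ), |(w j).im * sin (dot (k (G (j, true))) x) +
        -(w j).re * cos (dot (k (G (j, false))) x) +
        (w j * Complex.exp (Complex.I * dot (κ j) x)).re| ≤
        (|(w j).im| + |-(w j).re|) * (η / 16) := fun j _ => by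
      have a1 := (Real.abs_sin_sub_sin_le _ _).trans (dl (j, true))
      have a2 := (Real.abs_cos_sub_cos_le _ _).trans (dl (j, false))
      rw [mul_comm Complex.I, Complex.mul_re, Complex.exp_ofReal_mul_I_re,
        Complex.exp_ofReal_mul_I_im]
      calc _ = |(w j).im * (sin (dot (k (G (j, true))) x) - sin (dot (κ j) x)) +
            -(w j).re * (cos (dot (k (G (j, false))) x) - cos (dot (κ j) x))| := by
            congr 1
            ring
        _ ≤ |(w j).im| * (η / 16) + |-(w j).re| * (η / 16) := by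
            refine (abs_add_le _ _).trans (add_le_add ?_ ?_)
            · rw [abs_mul]
              exact mul_le_mul_of_nonneg_left a1 (abs_nonneg _)
            · rw [abs_mul]
              exact mul_le_mul_of_nonneg_left a2 (abs_nonneg _)
        _ = _ := by ring
    refine (Finset.sum_le_sum this).trans ?_
    rw [← Finset.sum_mul]
    nlinarith
  have r3 := abs_le.1 (hx'.trans r1)
  have r4 := abs_le.1 r2
  rw [abs_le]
  constructor <;> linarith

end Pool.Agent.Lib.MP_e1e19a_an
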