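import Pool.Agent.Lib.MP_e1e19a_an.N.A5

/-!
A component with few necks.
-/

namespace Pool.Agent.Lib.MP_e1e19a_an

open Real MeasureTheory Set
open scoped MatrixGroups ComplexConjugate UpperHalfPlane

namespace A11a

/-- the grid cell of a point -/
noncomputable def fl (x : ℂ) : ℤ × ℤ := (⌊x.re⌋, ⌊x.im⌋)

/-- the neighbours of a cell -/
noncomputable def nb (j : ℤ × ℤ) : Finset (ℤ × ℤ) :=
  Finset.Icc (j.1 - 1) (j.1 + 1) ×ˢ Finset.Icc (j.2 - 1) (j.2 + 1)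

lemma card_nb (j : ℤ × ℤ) : (nb j).card = 9 := by
  have h : ∀ a : ℤ, (Finset.Icc (a - 1) (a + 1)).card = 3 := fun a => by
    rw [Int.card_Icc, show a + 1 + 1 - (a - 1) = 3 by ring]; rfl
  rw [nb, Finset.card_product, h, h]

lemma mem_nb {i j : ℤ × ℤ} :
    i ∈ nb j ↔ (j.1 - 1 ≤ i.1 ∧ i.1 ≤ j.1 + 1) ∧ j.2 - 1 ≤ i.2 ∧ i.2 ≤ j.2 + 1 := by
  simp only [nb, Finset.mem_product, Finset.mem_Icc]

lemma mem_cell (x : ℂ) : x ∈ cell (fl x) :=
  ⟨Int.floor_le _, (Int.lt_floor_add_one _).le, Int.floor_le _, (Int.lt_floor_add_one _).le⟩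

lemma near1 {x y : ℝ} {j : ℤ} (h : |x - y| < 1) (h1 : (j : ℝ) ≤ y) (h2 : y ≤ j + 1) :
    j - 1 ≤ ⌊x⌋ ∧ ⌊x⌋ ≤ j + 1 := by
  obtain ⟨h3, h4⟩ := abs_lt.1 h
  refine ⟨Int.le_floor.2 (by push_cast; linarith), ?_⟩
  have : ⌊x⌋ < j + 2 := Int.floor_lt.2 (by push_cast; linarith)
  omega

lemma near {x y : ℂ} {j : ℤ × ℤ} (h : ‖x - y‖ < 1) (hy : y ∈ cell j) : fl x ∈ nb j := by
  obtain ⟨h1, h2, h3, h4⟩ := hy
  exact mem_nb.2 ⟨near1 ((Complex.abs_re_le_norm (x - y)).trans_lt h) h1 h2,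
    near1 ((Complex.abs_im_le_norm (x - y)).trans_lt h) h3 h4⟩

lemma ivt {W : Set ℂ} (hW : IsPreconnected W) {y y' : ℂ} (hy : y ∈ W) (hy' : y' ∈ W) (a b t : ℝ)
    (h1 : max |y.re - a| |y.im - b| ≤ t) (h2 : t ≤ max |y'.re - a| |y'.im - b|) :
    ∃ z ∈ W, max |z.re - a| |z.im - b| = t :=
  hW.intermediate_value (f := fun z : ℂ => max |z.re - a| |z.im - b|) hy hy'
    (Continuous.continuousOn (by fun_prop)) ⟨h1, h2⟩

lemma deg_count {α β : Type} (E : Finset α) (V : Finset β) (L R : α → β) (n : ℕ) :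
    ∃ V₁ : Finset β, V₁.card * n ≤ E.card * 2 ∧ ∀ W ∈ V, W ∉ V₁ → ∀ N : Finset α,
      (∀ c ∈ N, c ∈ E ∧ (W = L c ∨ W = R c)) → N.card < n := by
  classical
  refine ⟨V.filter fun W => n ≤ (E.filter fun c => W = L c ∨ W = R c).card, ?_, ?_⟩
  · refine Finset.card_mul_le_card_mul (fun W c => W = L c ∨ W = R c) (fun W hW => ?_)
      fun c _ => ?_
    · exact (Finset.mem_filter.1 hW).2
    · refine (Finset.card_le_card (t := {L c, R c}) fun W hW => ?_).trans Finset.card_le_two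
      simpa using (Finset.mem_filter.1 hW).2
  · intro W hW hW' N hN
    by_contra hlt
    exact hW' (Finset.mem_filter.2 ⟨hW, (not_lt.1 hlt).trans
      (Finset.card_le_card fun c hc => Finset.mem_filter.2 (hN c hc))⟩)

lemma comp_eq {F : ℂ → ℝ} {ε : ℝ} {x y : ℂ} (h : y ∈ comp F ε x) :
    ε < F y ∧ comp F ε x = comp F ε y :=
  ⟨connectedComponentIn_subset {y | ε < F y} x h, connectedComponentIn_eq h⟩

open Classical in
lemma cell_count {F : ℂ → ℝ} {ε : ℝ} {C₀ : ℕ} (hF : FewComp F ε C₀) (E : Finset ℂ)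
    (inj : Set.InjOn fl E) (L R : ℂ → Set ℂ) (V : Finset (Set ℂ))
    (hV : ∀ W ∈ V, ∃ c ∈ E, (W = L c ∨ W = R c) ∧ ∃ y, ‖c - y‖ < 1 ∧ W = comp F ε y) (j : ℤ × ℤ) :
    (V.filter fun W => ∃ y ∈ W, y ∈ cell j).card ≤ 4 * C₀ + 18 := by
  let S : ℂ → ℂ → Finset (Set ℂ) := fun x e => V.filter fun W =>
    ∃ s ∈ Icc (0 : ℝ) 1, ε < F (x + s * e) ∧ W = comp F ε (x + s * e)
  have hS : ∀ x, ∀ e ∈ ({1, Complex.I} : Set ℂ), (S x e).card ≤ C₀ := fun x e he =>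
    hF x e he _ fun W hW => (Finset.mem_filter.1 hW).2
  let E' := E.filter fun c => fl c ∈ nb j
  have hE' : E'.card ≤ 9 := by
    rw [← card_nb j]
    exact Finset.card_le_card_of_injOn fl (fun c hc => (Finset.mem_filter.1 hc).2)
      (inj.mono fun c hc => (Finset.mem_filter.1 hc).1)
  have hsub : (V.filter fun W => ∃ y ∈ W, y ∈ cell j) ⊆
      S (j.1 + j.2 * Complex.I) 1 ∪ S (j.1 + (j.2 + 1) * Complex.I) 1 ∪
        S (j.1 + j.2 * Complex.I) Complex.I ∪ S (j.1 + 1 + j.2 * Complex.I) Complex.I ∪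
        E'.image L ∪ E'.image R := by
    intro W hW
    obtain ⟨hWV, y, hy, hyj⟩ := Finset.mem_filter.1 hW
    obtain ⟨c, hc, hLR, y₀, hcy, rfl⟩ := hV W hWV
    simp only [Finset.mem_union]
    by_cases h0 : y₀ ∈ cell j
    · have hc' : c ∈ E' := Finset.mem_filter.2 ⟨hc, near hcy h0⟩
      rcases hLR with h | h
      · exact .inl (.inr (Finset.mem_image.2 ⟨c, hc', h.symm⟩))
      · exact .inr (Finset.mem_image.2 ⟨c, hc', h.symm⟩)
    have hy₀ : y₀ ∈ comp F ε y₀ := mem_connectedComponentIn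
      (connectedComponentIn_nonempty_iff.1 ⟨y, hy⟩)
    obtain ⟨h1, h2, h3, h4⟩ := hyj
    obtain ⟨z, hz, hz'⟩ := ivt isPreconnected_connectedComponentIn hy hy₀ (j.1 + 1 / 2)
      (j.2 + 1 / 2) (1 / 2)
      (max_le (abs_le.2 ⟨by linarith, by linarith⟩) (abs_le.2 ⟨by linarith, by linarith⟩))
      (by
        by_contra hlt
        obtain ⟨h5, h6⟩ := max_lt_iff.1 (not_le.1 hlt)
        obtain ⟨h7, h8⟩ := abs_lt.1 h5
        obtain ⟨h9, h10⟩ := abs_lt.1 h6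
        exact h0 ⟨by linarith, by linarith, by linarith, by linarith⟩)
    obtain ⟨h5, h6⟩ := abs_le.1 ((le_max_left _ _).trans hz'.le)
    obtain ⟨h7, h8⟩ := abs_le.1 ((le_max_right _ _).trans hz'.le)
    have key : ∀ (x e : ℂ) (s : ℝ), 0 ≤ s → s ≤ 1 → x + s * e = z → comp F ε y₀ ∈ S x e :=
      fun x e s hs hs' he => Finset.mem_filter.2 ⟨hWV, s, ⟨hs, hs'⟩, he ▸ comp_eq hz⟩
    rcases max_choice |z.re - (j.1 + 1 / 2)| |z.im - (j.2 + 1 / 2)| with h | h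
    · rw [h] at hz'
      rcases eq_or_eq_neg_of_abs_eq hz' with h' | h'
      · refine .inl (.inl (.inr (key _ _ (z.im - j.2) (by linarith) (by linarith) ?_)))
        apply Complex.ext <;> simp
        linarith
      · refine .inl (.inl (.inl (.inr (key _ _ (z.im - j.2) (by linarith) (by linarith) ?_))))
        apply Complex.ext <;> simp
        linarith
    · rw [h] at hz'
      rcases eq_or_eq_neg_of_abs_eq hz' with h' | h'
      · refine .inl (.inl (.inl (.inl (.inr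
          (key _ _ (z.re - j.1) (by linarith) (by linarith) ?_)))))
        apply Complex.ext <;> simp
        linarith
      · refine .inl (.inl (.inl (.inl (.inl
          (key _ _ (z.re - j.1) (by linarith) (by linarith) ?_)))))
        apply Complex.ext <;> simp
        linarith
  have a1 := hS (j.1 + j.2 * Complex.I) 1 (by simp)
  have a2 := hS (j.1 + (j.2 + 1) * Complex.I) 1 (by simp)
  have a3 := hS (j.1 + j.2 * Complex.I) Complex.I (by simp)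
  have a4 := hS (j.1 + 1 + j.2 * Complex.I) Complex.I (by simp)
  have a5 : (E'.image L).card ≤ 9 := Finset.card_image_le.trans hE'
  have a6 : (E'.image R).card ≤ 9 := Finset.card_image_le.trans hE'
  refine (Finset.card_le_card hsub).trans ?_
  refine (Finset.card_union_le _ _).trans ?_
  refine (Nat.add_le_add_right (Finset.card_union_le _ _) _).trans ?_
  refine (Nat.add_le_add_right (Nat.add_le_add_right (Finset.card_union_le _ _) _) _).trans ?_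
  have b1 := Finset.card_union_le (S (j.1 + j.2 * Complex.I) 1 ∪ S (j.1 + (j.2 + 1) * Complex.I) 1)
    (S (j.1 + j.2 * Complex.I) Complex.I)
  have b2 := Finset.card_union_le (S (j.1 + j.2 * Complex.I) 1) (S (j.1 + (j.2 + 1) * Complex.I) 1)
  omega

/-- the cells near the boundary of the grid or near a marked cell -/
noncomputable def uns (R : ℕ) (B : Finset (ℤ × ℤ)) : Finset (ℤ × ℤ) :=
  ({-1, 0, (R : ℤ) - 1, (R : ℤ)} : Finset ℤ) ×ˢ Finset.Icc (-1 : ℤ) R ∪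
    Finset.Icc (-1 : ℤ) R ×ˢ ({-1, 0, (R : ℤ) - 1, (R : ℤ)} : Finset ℤ) ∪ B.biUnion nb

lemma card_uns (R : ℕ) (B : Finset (ℤ × ℤ)) : (uns R B).card ≤ 8 * (R + 2) + 9 * B.card := by
  have h1 : ({-1, 0, (R : ℤ) - 1, (R : ℤ)} : Finset ℤ).card ≤ 4 := Finset.card_le_four
  have h2 : (Finset.Icc (-1 : ℤ) R).card = R + 2 := by
    rw [Int.card_Icc]; omega
  have h3 : (B.biUnion nb).card ≤ B.card * 9 :=
    Finset.card_biUnion_le_card_mul _ _ _ fun j _ => (card_nb j).le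
  refine (Finset.card_union_le _ _).trans ?_
  refine (Nat.add_le_add_right (Finset.card_union_le _ _) _).trans ?_
  rw [Finset.card_product, Finset.card_product, h2]
  nlinarith

lemma safe {W : Set ℂ} (hW : IsPreconnected W) {R : ℕ} {B : Finset (ℤ × ℤ)}
    (hU : ∀ j ∈ uns R B, ∀ y ∈ W, y ∉ cell j) {y₀ c : ℂ} (h0 : y₀ ∈ W) (hc : ‖c - y₀‖ ≤ 1 / 2)
    (hc' : fl c ∈ Finset.Ico (0 : ℤ) R ×ˢ Finset.Ico (0 : ℤ) R) {y : ℂ} (hy : y ∈ W) :
    ‖y‖ < 2 * R ∧ ∀ x, ‖x - y‖ < 1 →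
      fl x ∈ Finset.Ico (0 : ℤ) R ×ˢ Finset.Ico (0 : ℤ) R ∧ fl x ∉ B := by
  have hin : ∀ z ∈ W, max |z.re - R / 2| |z.im - R / 2| ≤ R / 2 + 1 / 2 →
      (1 ≤ (fl z).1 ∧ (fl z).1 ≤ R - 2) ∧ 1 ≤ (fl z).2 ∧ (fl z).2 ≤ R - 2 := by
    intro z hz h
    obtain ⟨h5, h6⟩ := abs_le.1 ((le_max_left _ _).trans h)
    obtain ⟨h7, h8⟩ := abs_le.1 ((le_max_right _ _).trans h)
    have a1 : -1 ≤ (fl z).1 := Int.le_floor.2 (by push_cast; linarith)
    have a2 : (fl z).1 < R + 1 := Int.floor_lt.2 (by push_cast; linarith)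
    have a3 : -1 ≤ (fl z).2 := Int.le_floor.2 (by push_cast; linarith)
    have a4 : (fl z).2 < R + 1 := Int.floor_lt.2 (by push_cast; linarith)
    have h9 : fl z ∉ uns R B := fun hj => hU _ hj z hz (mem_cell z)
    simp only [uns, Finset.mem_union, Finset.mem_product, Finset.mem_Icc, Finset.mem_insert,
      Finset.mem_singleton, not_or] at h9
    omega
  have hlt : max |y.re - R / 2| |y.im - R / 2| ≤ R / 2 + 1 / 2 := by
    by_contra hlt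
    simp only [Finset.mem_product, Finset.mem_Ico, fl, Int.le_floor, Int.floor_lt] at hc'
    push_cast at hc'
    obtain ⟨⟨c1, c2⟩, c3, c4⟩ := hc'
    obtain ⟨d1, d2⟩ := abs_le.1 ((Complex.abs_re_le_norm (c - y₀)).trans hc)
    obtain ⟨d3, d4⟩ := abs_le.1 ((Complex.abs_im_le_norm (c - y₀)).trans hc)
    rw [Complex.sub_re] at d1 d2
    rw [Complex.sub_im] at d3 d4
    obtain ⟨z, hz, hz'⟩ := ivt hW h0 hy (R / 2) (R / 2) (R / 2 + 1 / 2)
      (max_le (abs_le.2 ⟨by linarith, by linarith⟩) (abs_le.2 ⟨by linarith, by linarith⟩))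
      (not_le.1 hlt).le
    obtain ⟨⟨e1, e2⟩, e3, e4⟩ := hin z hz hz'.le
    obtain ⟨f1, f2, f3, f4⟩ := mem_cell z
    have e1' : (1 : ℝ) ≤ (fl z).1 := by exact_mod_cast e1
    have e2' : ((fl z).1 : ℝ) ≤ R - 2 := by exact_mod_cast e2
    have e3' : (1 : ℝ) ≤ (fl z).2 := by exact_mod_cast e3
    have e4' : ((fl z).2 : ℝ) ≤ R - 2 := by exact_mod_cast e4
    have : max |z.re - R / 2| |z.im - R / 2| ≤ R / 2 :=
      max_le (abs_le.2 ⟨by linarith, by linarith⟩) (abs_le.2 ⟨by linarith, by linarith⟩)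
    linarith
  obtain ⟨⟨e1, e2⟩, e3, e4⟩ := hin y hy hlt
  refine ⟨?_, fun x hx => ?_⟩
  · obtain ⟨f1, f2, f3, f4⟩ := mem_cell y
    have e1' : (1 : ℝ) ≤ (fl y).1 := by exact_mod_cast e1
    have e2' : ((fl y).1 : ℝ) ≤ R - 2 := by exact_mod_cast e2
    have e3' : (1 : ℝ) ≤ (fl y).2 := by exact_mod_cast e3
    have e4' : ((fl y).2 : ℝ) ≤ R - 2 := by exact_mod_cast e4
    have := Complex.norm_le_abs_re_add_abs_im y
    rw [abs_of_nonneg (by linarith), abs_of_nonneg (by linarith)] at this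
    linarith
  · have h1 := mem_nb.1 (near hx (mem_cell y))
    refine ⟨?_, fun hB => hU (fl y) ?_ y hy (mem_cell y)⟩
    · simp only [Finset.mem_product, Finset.mem_Ico]
      omega
    · refine Finset.mem_union_right _ (Finset.mem_biUnion.2 ⟨_, hB, mem_nb.2 ?_⟩)
      omega

end A11a

open A11a in
open Classical in
theorem Jet.select {A κ d r ε g D τ : ℝ} {F : ℂ → ℝ} {G H : ℂ → ℂ} (h : Jet A F G H) (hr : 0 < r)
    (h0 : 40 * r ≤ 1) (h1 : 40 * A * r ≤ d) (h2 : κ ≤ d * r ^ 2 / 100) (h3 : 0 < ε) (h4 : ε ≤ κ)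
    (hg : 0 ≤ g) (hD : 2 ≤ D) {C₀ m R : ℕ} (hm : 1 ≤ m) (hF : FewComp F ε C₀)
    (hB : ¬Barrier fun x => -F x) (𝔈 𝔅 ℭ : Finset (ℤ × ℤ))
    (hE : ∀ j ∈ 𝔈, j ∈ Finset.Ico (0 : ℤ) R ×ˢ Finset.Ico (0 : ℤ) R ∧
      ∃ x, ‖x - (j.1 + 1 / 2 + (j.2 + 1 / 2) * Complex.I)‖ ≤ 1 / 4 ∧ G x = 0 ∧ 0 < F x ∧ F x ≤ ε)
    (hb : ∀ j ∈ Finset.Ico (0 : ℤ) R ×ˢ Finset.Ico (0 : ℤ) R,
      (∃ x ∈ cell j, Bad F G H κ g d (d / (4 * A)) D τ x) → j ∈ 𝔅)
    (hC : ∀ j ∈ Finset.Ico (0 : ℤ) R ×ˢ Finset.Ico (0 : ℤ) R,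
      (∃ x ∈ cell j, G x = 0 ∧ |F x| ≤ κ) → j ∈ ℭ)
    (H₀ : (2000 * (C₀ + 1) * R : ℝ) + 2000 * (C₀ + 1) * 𝔅.card + 6 / m * ℭ.card < 𝔈.card) :
    ∃ x₁, ε < F x₁ ∧ comp F ε x₁ ⊆ Metric.ball 0 (2 * R) ∧
      (∀ x, (∃ y ∈ comp F ε x₁, ‖x - y‖ < 1) → ¬Bad F G H κ g d (d / (4 * A)) D τ x) ∧
      ∃ N : Finset ℂ, N.card ≤ m ∧
        (∀ c, c ∈ N ↔ Sad F G H κ d c ∧ Adj F H ε r (comp F ε x₁) c) ∧
        1 ≤ (N.filter fun c => 0 < F c ∧ F c ≤ ε).card ∧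
        (N.filter fun c => 0 < F c ∧ F c ≤ ε).card ≤ 2 := by
  have hA := h.one
  have hd : 0 < d := by nlinarith
  have hdr : 0 < d * r ^ 2 := by positivity
  have hκ : κ ≤ d / 2 := by
    have : r ^ 2 ≤ 1 := by nlinarith
    nlinarith
  set Γ := Finset.Ico (0 : ℤ) R ×ˢ Finset.Ico (0 : ℤ) R with hΓ
  let bad : ℂ → Prop := Bad F G H κ g d (d / (4 * A)) D τ
  let Cs : Set ℂ := {c | G c = 0 ∧ |F c| ≤ κ ∧ ¬bad c ∧ fl c ∈ Γ}
  have hsad : ∀ c ∈ Cs, Sad F G H κ d c := fun c hc => ⟨hc.1, hc.2.1, by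
    by_contra hlt
    exact hc.2.2.1 (.inl ⟨hc.2.1, by rw [hc.1, norm_zero]; exact hg, by linarith [not_le.1 hlt]⟩)⟩
  have hinj : InjOn fl Cs := by
    intro c hc c' hc' he
    refine (h.isolated hκ (hsad c hc) hc'.1 ?_).symm
    by_contra hlt
    refine hc.2.2.1 (.inr (.inl ⟨hc.1, hc.2.1, c', hc'.1, hc'.2.1, ?_, ?_⟩))
    · rw [norm_sub_rev]; exact not_lt.1 hlt
    · obtain ⟨a1, a2, a3, a4⟩ := mem_cell c
      obtain ⟨b1, b2, b3, b4⟩ := mem_cell c'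
      rw [← he] at b1 b2 b3 b4
      have := Complex.norm_le_abs_re_add_abs_im (c - c')
      rw [Complex.sub_re, Complex.sub_im] at this
      have e1 : |c.re - c'.re| ≤ 1 := abs_le.2 ⟨by linarith, by linarith⟩
      have e2 : |c.im - c'.im| ≤ 1 := abs_le.2 ⟨by linarith, by linarith⟩
      linarith
  have hfin : Cs.Finite :=
    Set.Finite.of_injOn (t := (Γ : Set (ℤ × ℤ))) (fun c hc => hc.2.2.2) hinj Γ.finite_toSet
  obtain ⟨C, hCm⟩ : ∃ C : Finset ℂ, ∀ c, c ∈ C ↔ c ∈ Cs := ⟨hfin.toFinset, fun c => hfin.mem_toFinset⟩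
  have hCc : C.card ≤ ℭ.card := Finset.card_le_card_of_injOn fl
    (fun c hc => hC _ ((hCm c).1 hc).2.2.2 ⟨c, mem_cell c, ((hCm c).1 hc).1, ((hCm c).1 hc).2.1⟩)
    (hinj.mono fun c hc => (hCm c).1 hc)
  obtain ⟨E, hEm⟩ : ∃ E : Finset ℂ, ∀ c, c ∈ E ↔ c ∈ Cs ∧ 0 < F c ∧ F c ≤ ε :=
    ⟨C.filter fun c => 0 < F c ∧ F c ≤ ε, fun c => by rw [Finset.mem_filter, hCm]⟩
  have hEc : 𝔈.card ≤ E.card + 𝔅.card := by
    refine (Finset.card_le_card (t := E.image fl ∪ 𝔅) fun j hj => ?_).trans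
      ((Finset.card_union_le _ _).trans (Nat.add_le_add_right Finset.card_image_le _))
    obtain ⟨hjΓ, x, hx, x1, x2, x3⟩ := hE j hj
    obtain ⟨d1, d2⟩ := abs_le.1 ((Complex.abs_re_le_norm _).trans hx)
    obtain ⟨d3, d4⟩ := abs_le.1 ((Complex.abs_im_le_norm _).trans hx)
    have e1 : (x - (j.1 + 1 / 2 + (j.2 + 1 / 2) * Complex.I)).re = x.re - (j.1 + 1 / 2) := by simp
    have e2 : (x - (j.1 + 1 / 2 + (j.2 + 1 / 2) * Complex.I)).im = x.im - (j.2 + 1 / 2) := by simp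
    rw [e1] at d1 d2
    rw [e2] at d3 d4
    have hfl : fl x = j := Prod.ext (Int.floor_eq_iff.2 ⟨by linarith, by linarith⟩)
      (Int.floor_eq_iff.2 ⟨by linarith, by linarith⟩)
    by_cases hbad : bad x
    · exact Finset.mem_union_right _ (hb j hjΓ ⟨x, hfl ▸ mem_cell x, hbad⟩)
    · refine Finset.mem_union_left _ (Finset.mem_image.2 ⟨x, (hEm x).2 ⟨⟨x1, ?_, hbad, ?_⟩, x2, x3⟩,
        hfl⟩)
      · rw [abs_of_pos x2]; linarith
      · rw [hfl]; exact hjΓ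
  let Lf : ℂ → Set ℂ := fun c => comp F ε (c + r * fr (H c))
  let Rt : ℂ → Set ℂ := fun c => comp F ε (c - r * fr (H c))
  have hend : ∀ c, Sad F G H κ d c → ∀ W, W = Lf c ∨ W = Rt c →
      ∃ y, ‖c - y‖ ≤ 1 / 2 ∧ ε < F y ∧ W = comp F ε y := by
    intro c hc W hW
    have h5 := (h.axes hr h1 h2 hc).2.2.2
    have h6 : ‖(r : ℂ) * fr (H c)‖ ≤ 1 / 2 := by
      rw [norm_mul, fr_norm, Complex.norm_real, Real.norm_of_nonneg hr.le]; linarith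
    rcases hW with hW | hW
    · refine ⟨_, ?_, ?_, hW⟩
      · rwa [sub_add_cancel_left, norm_neg]
      · have := h5 r (abs_of_pos hr)
        linarith
    · refine ⟨_, ?_, ?_, hW⟩
      · rwa [sub_sub_cancel]
      · have := h5 (-r) (by rw [abs_neg, abs_of_pos hr])
        rw [Complex.ofReal_neg, neg_mul, ← sub_eq_add_neg] at this
        linarith
  obtain ⟨V, hV, hVm⟩ : ∃ V : Finset (Set ℂ), E.card ≤ V.card ∧
      ∀ W ∈ V, ∃ c ∈ E, W = Lf c ∨ W = Rt c := by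
    refine ⟨_, h.forest hr h1 h2 h3 h4 hB E fun c hc =>
      ⟨hsad c ((hEm c).1 hc).1, ((hEm c).1 hc).2⟩, fun W hW => ?_⟩
    rcases Finset.mem_union.1 hW with hW | hW <;> obtain ⟨c, hc, rfl⟩ := Finset.mem_image.1 hW
    exacts [⟨c, hc, .inl rfl⟩, ⟨c, hc, .inr rfl⟩]
  obtain ⟨V₁, k1, l1⟩ := deg_count E V Lf Rt 3
  obtain ⟨V₂, k2, l2⟩ := deg_count C V Lf Rt (m + 1)
  have k3 : ((uns R 𝔅).biUnion fun j => V.filter fun W => ∃ y ∈ W, y ∈ cell j).card ≤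
      (uns R 𝔅).card * (4 * C₀ + 18) :=
    Finset.card_biUnion_le_card_mul _ _ _ fun j _ => cell_count hF E
      (hinj.mono fun c hc => ((hEm c).1 hc).1) Lf Rt V (fun W hW => by
        obtain ⟨c, hc, hW'⟩ := hVm W hW
        obtain ⟨y, y1, -, y2⟩ := hend c (hsad c ((hEm c).1 hc).1) W hW'
        exact ⟨c, hc, hW', y, by linarith, y2⟩) j
  have k4 := card_uns R 𝔅
  set V₃ := (uns R 𝔅).biUnion fun j => V.filter fun W => ∃ y ∈ W, y ∈ cell j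
  obtain ⟨W, hWV, hW⟩ : ∃ W ∈ V, W ∉ V₁ ∪ V₂ ∪ V₃ := by
    by_contra hno
    have hsub : V ⊆ V₁ ∪ V₂ ∪ V₃ := fun W hW => by
      by_contra hW'
      exact hno ⟨W, hW, hW'⟩
    have k5 := (Finset.card_le_card hsub).trans ((Finset.card_union_le _ _).trans
      (Nat.add_le_add_right (Finset.card_union_le _ _) _))
    have hm' : (0 : ℝ) < m := by exact_mod_cast hm
    have hR : 1 ≤ R := by
      have hpos : (0 : ℝ) < 𝔈.card := lt_of_le_of_lt (by positivity) H₀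
      obtain ⟨j, hj⟩ := Finset.card_pos.1 (Nat.cast_pos.1 hpos)
      have := (hE j hj).1
      simp only [hΓ, Finset.mem_product, Finset.mem_Ico] at this
      omega
    have k6 : V₃.card ≤ 432 * ((C₀ + 1) * R) + 432 * ((C₀ + 1) * 𝔅.card) := by
      have : (uns R 𝔅).card ≤ 24 * (R + 𝔅.card) := by omega
      calc V₃.card ≤ 24 * (R + 𝔅.card) * (18 * (C₀ + 1)) :=
            k3.trans (Nat.mul_le_mul this (by omega))
        _ = _ := by ring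
    have k7 : (3 * V₂.card : ℝ) ≤ 6 / m * ℭ.card := by
      have : V₂.card * m ≤ ℭ.card * 2 :=
        ((Nat.mul_le_mul_left _ (Nat.le_succ m)).trans k2).trans (Nat.mul_le_mul_right _ hCc)
      have : (V₂.card * m : ℝ) ≤ ℭ.card * 2 := by exact_mod_cast this
      rw [div_mul_eq_mul_div, le_div_iff₀ hm']
      linarith
    have k8 : 𝔅.card ≤ (C₀ + 1) * 𝔅.card := Nat.le_mul_of_pos_left _ (Nat.succ_pos _)
    have k9 : 𝔈.card ≤ 3 * V₂.card + 2000 * ((C₀ + 1) * R) + 2000 * ((C₀ + 1) * 𝔅.card) := by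
      omega
    have k10 : (𝔈.card : ℝ) ≤
        3 * V₂.card + 2000 * ((C₀ + 1) * R) + 2000 * ((C₀ + 1) * 𝔅.card) := by exact_mod_cast k9
    linarith
  simp only [Finset.mem_union, not_or] at hW
  obtain ⟨⟨w1, w2⟩, w3⟩ := hW
  have w3' : ∀ j ∈ uns R 𝔅, ∀ y ∈ W, y ∉ cell j := fun j hj y hy hy' =>
    w3 (Finset.mem_biUnion.2 ⟨j, hj, Finset.mem_filter.2 ⟨hWV, y, hy, hy'⟩⟩)
  obtain ⟨c₀, hc₀, hWc⟩ := hVm W hWV
  have hc₀' := (hEm c₀).1 hc₀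
  obtain ⟨x₁, x1, x2, rfl⟩ := hend c₀ (hsad c₀ hc₀'.1) W hWc
  have hs := fun y (hy : y ∈ comp F ε x₁) => safe isPreconnected_connectedComponentIn w3'
    (mem_connectedComponentIn (show x₁ ∈ {y | ε < F y} from x2)) x1 hc₀'.1.2.2.2 hy
  have hnb : ∀ x, (∃ y ∈ comp F ε x₁, ‖x - y‖ < 1) → ¬bad x ∧ fl x ∈ Γ := by
    rintro x ⟨y, hy, hxy⟩
    obtain ⟨s1, s2⟩ := (hs y hy).2 x hxy
    exact ⟨fun hbad => s2 (hb _ s1 ⟨x, mem_cell x, hbad⟩), s1⟩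
  refine ⟨x₁, x2, fun y hy => mem_ball_zero_iff.2 (hs y hy).1, fun x hx => (hnb x hx).1,
    C.filter fun c => comp F ε x₁ = Lf c ∨ comp F ε x₁ = Rt c,
    Nat.le_of_lt_succ (l2 _ hWV w2 _ fun c hc => Finset.mem_filter.1 hc), fun c => ?_, ?_, ?_⟩
  · rw [Finset.mem_filter, hCm]
    refine ⟨fun hc => ⟨hsad c hc.1, hc.2⟩, fun hc => ⟨?_, hc.2⟩⟩
    obtain ⟨y, y1, y2, y3⟩ := hend c hc.1 _ hc.2
    have := hnb c ⟨y, y3 ▸ mem_connectedComponentIn (show y ∈ {y | ε < F y} from y2), by linarith⟩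
    exact ⟨hc.1.1, hc.1.2.1, this⟩
  · exact Finset.card_pos.2 ⟨c₀, Finset.mem_filter.2
      ⟨Finset.mem_filter.2 ⟨(hCm c₀).2 hc₀'.1, hWc⟩, hc₀'.2⟩⟩
  · refine Nat.le_of_lt_succ (l1 _ hWV w1 _ fun c hc => ?_)
    obtain ⟨c1, c2⟩ := Finset.mem_filter.1 hc
    obtain ⟨c3, c4⟩ := Finset.mem_filter.1 c1
    exact ⟨(hEm c).2 ⟨(hCm c).1 c3, c2⟩, c4⟩

end Pool.Agent.Lib.MP_e1e19a_an
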