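import Pool.Agent.Lib.MP_e1e19a_an.N.A4

/-!
Closing the necks of a component.
-/

namespace Pool.Agent.Lib.MP_e1e19a_an

open Real MeasureTheory Set
open scoped MatrixGroups ComplexConjugate UpperHalfPlane Topology

namespace A7

theorem dot_add (e v w : ℂ) : dot e (v + w) = dot e v + dot e w := by
  simp only [dot, mul_add, Complex.add_re]

theorem dot_sub_left (a b e : ℂ) : dot (a - b) e = dot a e - dot b e := by
  simp only [dot, map_sub, sub_mul, Complex.sub_re]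

theorem dot_smul (a e : ℂ) (u : ℝ) : dot a (u * e) = u * dot a e := by
  simp only [dot]
  rw [mul_left_comm, Complex.re_ofReal_mul]

theorem abs_dot_le (e v : ℂ) : |dot e v| ≤ ‖e‖ * ‖v‖ := by
  refine (Complex.abs_re_le_norm _).trans ?_
  rw [norm_mul, Complex.norm_conj]

theorem norm_le_dot {e : ℂ} (he : ‖e‖ = 1) (v : ℂ) :
    ‖v‖ ≤ |dot e v| + |dot (Complex.I * e) v| := by
  have h1 : ‖conj e * v‖ = ‖v‖ := by rw [norm_mul, Complex.norm_conj, he, one_mul]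
  have h2 : dot (Complex.I * e) v = (conj e * v).im := by
    simp [dot]
    ring
  rw [← h1, h2]
  exact Complex.norm_le_abs_re_add_abs_im _

theorem exists_dir {w : ℂ} (hw : w ≠ 0) : ∃ e : ℂ, ‖e‖ = 1 ∧ dot w e = ‖w‖ := by
  have h0 : ‖w‖ ≠ 0 := norm_ne_zero_iff.2 hw
  refine ⟨(‖w‖⁻¹ : ℝ) * w, ?_, ?_⟩
  · rw [norm_mul, Complex.norm_real, norm_inv, norm_norm, inv_mul_cancel₀ h0]
  · rw [dot_smul, dot, Complex.conj_mul', ← Complex.ofReal_pow, Complex.ofReal_re]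
    field_simp

theorem rect_norm {c e x : ℂ} {ρ : ℝ} (he : ‖e‖ = 1) (hx : x ∈ rect c e ρ) :
    ‖x - c‖ < 3 / 2 * ρ := by
  have := norm_le_dot he (x - c)
  linarith [hx.1, hx.2]

theorem rect_move {c e x v : ℂ} {ρ ρ' : ℝ} (he : ‖e‖ = 1) (hx : x ∈ rect c e ρ)
    (hv : ρ + 2 * ‖v‖ ≤ ρ') : x + v ∈ rect c e ρ' := by
  have h1 := abs_dot_le e v
  have h2 := abs_dot_le (Complex.I * e) v
  rw [norm_mul, Complex.norm_I, he] at h2
  rw [he] at h1
  have h3 := norm_nonneg v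
  have h4 : x + v - c = x - c + v := by ring
  constructor
  · rw [h4, dot_add]
    linarith [abs_add_le (dot e (x - c)) (dot e v), hx.1]
  · rw [h4, dot_add]
    linarith [abs_add_le (dot (Complex.I * e) (x - c)) (dot (Complex.I * e) v), hx.2]

theorem rect_mono {c e x : ℂ} {ρ ρ' : ℝ} (hx : x ∈ rect c e ρ) (h : ρ ≤ ρ') : x ∈ rect c e ρ' :=
  ⟨hx.1.trans_le h, hx.2.trans_le (by linarith)⟩

theorem rect_self (c e : ℂ) {ρ : ℝ} (h : 0 < ρ) : c ∈ rect c e ρ := by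
  constructor <;> simp [dot, h]

theorem cont_dot (e : ℂ) : Continuous (dot e) := by
  unfold dot
  fun_prop

theorem cont_dot_left (e : ℂ) : Continuous fun w => dot w e := by
  unfold dot
  fun_prop

theorem rect_open (c e : ℂ) (ρ : ℝ) : IsOpen (rect c e ρ) :=
  (isOpen_lt ((cont_dot e).comp (continuous_id.sub continuous_const)).abs continuous_const).inter
    (isOpen_lt ((cont_dot _).comp (continuous_id.sub continuous_const)).abs continuous_const)

theorem norm_seg {t : ℝ} (ht : t ∈ Icc (0 : ℝ) 1) (v : ℂ) : ‖(t : ℂ) * v‖ ≤ ‖v‖ := by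
  rw [norm_mul, Complex.norm_real, Real.norm_of_nonneg ht.1]
  exact mul_le_of_le_one_left (norm_nonneg v) ht.2

variable {A κ d r ε K g s : ℝ} {F : ℂ → ℝ} {G H : ℂ → ℂ}

theorem comp_seg {x v : ℂ} (h : ∀ t ∈ Icc (0 : ℝ) 1, ε < F (x + t * v)) :
    comp F ε x = comp F ε (x + v) := by
  have h1 : IsPreconnected ((fun t : ℝ => x + t * v) '' Icc 0 1) :=
    isPreconnected_Icc.image _ (by fun_prop)
  refine connectedComponentIn_eq (h1.subset_connectedComponentIn ⟨0, by simp, by simp⟩ ?_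
    ⟨1, by simp, by simp⟩)
  rintro _ ⟨t, ht, rfl⟩
  exact h t ht

theorem climb (h : Jet A F G H) (hs : 16 * A * s ≤ g) (hs1 : s ≤ 1) {x e p : ℂ} (he : ‖e‖ = 1)
    (hx : g ≤ dot (G x) e) (hp : ‖p - x‖ ≤ 2 * s) {u : ℝ} (hu : 0 ≤ u) (hus : u ≤ s) :
    F p + u * g / 2 ≤ F (p + u * e) := by
  have hA := h.one
  have hn : ‖(u : ℂ) * e‖ = u := by
    rw [norm_mul, he, mul_one, Complex.norm_real, Real.norm_of_nonneg hu]
  have h1 := (abs_le.1 (h.tF p (u * e))).1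
  rw [hn, dot_smul] at h1
  have h2 : |(H p * conj ((u : ℂ) * e) ^ 2).re| ≤ A * u ^ 2 := by
    refine (Complex.abs_re_le_norm _).trans ?_
    rw [norm_mul, norm_pow, Complex.norm_conj, hn]
    exact mul_le_mul_of_nonneg_right (h.bH p) (sq_nonneg u)
  have h3 : F p * u ^ 2 ≤ A * u ^ 2 :=
    mul_le_mul_of_nonneg_right (abs_le.1 (h.bF p)).2 (sq_nonneg u)
  have h4 : g - A * (2 * s) ≤ dot (G p) e := by
    have h5 := (abs_le.1 (abs_dot_le (G p - G x) e)).1
    rw [he, mul_one, dot_sub_left] at h5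
    have h6 := (h.lip p x).2.trans (mul_le_mul_of_nonneg_left hp (by linarith))
    linarith
  have h5 : u * (g - A * (2 * s)) ≤ u * dot (G p) e := mul_le_mul_of_nonneg_left h4 hu
  have h6 : A * u ^ 2 ≤ u * (A * s) := by
    nlinarith [mul_le_mul_of_nonneg_left hus (mul_nonneg hu (by linarith : (0 : ℝ) ≤ A))]
  have h7 : A * u ^ 3 ≤ A * u ^ 2 :=
    mul_le_mul_of_nonneg_left (pow_le_pow_of_le_one hu (hus.trans hs1) (by norm_num)) (by linarith)
  have h8 : u * (16 * A * s) ≤ u * g := mul_le_mul_of_nonneg_left hs hu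
  have h9 := (abs_le.1 h2).2
  have h10 : 0 ≤ u * (A * s) := mul_nonneg hu (mul_nonneg (by linarith) (hu.trans hus))
  nlinarith

/-- a short ascending segment that ends in the superlevel set -/
def Asc (F : ℂ → ℝ) (ε s : ℝ) (x v : ℂ) : Prop :=
  ‖v‖ ≤ s ∧ ε < F (x + v) ∧ ∀ t ∈ Icc (0 : ℝ) 1, F x ≤ F (x + t * v)

theorem asc_zero (hs0 : 0 < s) {x : ℂ} (hx : ε < F x) : Asc F ε s x 0 :=
  ⟨by simpa using hs0.le, by simpa using hx, fun t _ => by simp⟩

theorem regular (h : Jet A F G H) (hs0 : 0 < s) (hs : 16 * A * s ≤ g) (hs1 : s ≤ 1)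
    (hsg : s * g = 4 * (K + 1) * ε) (h3 : 0 < ε) (h5 : 1 ≤ K) (h7 : 0 < g) {x : ℂ}
    (hK : -(K * ε) < F x) (hreg : ε < F x ∨ g < ‖G x‖) :
    ∃ V : Set ℂ, ∀ᶠ x' in 𝓝 x, (∃ v, Asc F ε s x' v) ∧
      ∀ v, Asc F ε s x' v → comp F ε (x' + v) = V := by
  have hb : ∀ {x' : ℂ} {δ : ℝ}, x' ∈ Metric.ball x δ → ∀ t ∈ Icc (0 : ℝ) 1,
      x + t * (x' - x) ∈ Metric.ball x δ := fun {x' δ} hx' t ht => by
    rw [mem_ball_iff_norm] at hx' ⊢
    rw [add_sub_cancel_left]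
    exact (norm_seg ht _).trans_lt hx'
  rcases hreg with hF | hG
  · obtain ⟨δ, hδ, hδ'⟩ := Metric.isOpen_iff.1 (isOpen_lt continuous_const h.cont.1) x hF
    refine ⟨comp F ε x, ?_⟩
    filter_upwards [Metric.ball_mem_nhds x hδ] with x' hx'
    refine ⟨⟨0, asc_zero hs0 (hδ' hx')⟩, fun v hv => ?_⟩
    rw [← comp_seg fun t ht => (show ε < F x' from hδ' hx').trans_le (hv.2.2 t ht),
      comp_seg (x := x) (v := x' - x) fun t ht => hδ' (hb hx' t ht), add_sub_cancel]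
  · obtain ⟨δ, hδ, hδ'⟩ := Metric.isOpen_iff.1 (isOpen_lt continuous_const h.cont.1) x hK
    obtain ⟨e, he, hx⟩ := exists_dir (w := G x) (norm_pos_iff.1 (h7.trans hG))
    have hx' : g ≤ dot (G x) e := hx ▸ hG.le
    have up : ∀ p, ‖p - x‖ ≤ 2 * s → -(K * ε) < F p → ε < F (p + s * e) := fun p hp hF => by
      have := climb h hs hs1 he hx' hp hs0.le le_rfl
      nlinarith [mul_le_mul_of_nonneg_right h5 h3.le]
    have mono : ∀ p, ‖p - x‖ ≤ 2 * s → ∀ t ∈ Icc (0 : ℝ) 1, F p ≤ F (p + t * (s * e)) :=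
      fun p hp t ht => by
        have h1 := mul_nonneg ht.1 hs0.le
        have := climb h hs hs1 he hx' hp h1 (mul_le_of_le_one_left hs0.le ht.2)
        rw [Complex.ofReal_mul, mul_assoc (t : ℂ)] at this
        nlinarith [mul_nonneg h1 h7.le]
    refine ⟨comp F ε (x + s * e), ?_⟩
    filter_upwards [Metric.ball_mem_nhds x hδ, Metric.ball_mem_nhds x hs0] with x' h1 h2
    have h2' := mem_ball_iff_norm.1 h2
    have hF' : -(K * ε) < F x' := hδ' h1
    refine ⟨⟨s * e, ?_, up x' (by linarith) hF', mono x' (by linarith)⟩, fun v hv => ?_⟩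
    · rw [norm_mul, he, mul_one, Complex.norm_real, Real.norm_of_nonneg hs0.le]
    · have hn : ∀ t ∈ Icc (0 : ℝ) 1, ‖x' + t * v - x‖ ≤ 2 * s := fun t ht => by
        rw [add_sub_right_comm]
        linarith [norm_add_le (x' - x) (t * v), norm_seg ht v, hv.1]
      have e1 : comp F ε (x' + v) = comp F ε (x' + v + s * e) :=
        comp_seg fun t ht => hv.2.1.trans_le (mono _ (by simpa using hn 1 (by simp)) t ht)
      have e2 : comp F ε (x' + s * e) = comp F ε (x' + s * e + v) :=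
        comp_seg fun t ht => by
          rw [add_right_comm]
          exact up _ (hn t ht) (hF'.trans_le (hv.2.2 t ht))
      have e3 : comp F ε (x + s * e) = comp F ε (x + s * e + (x' - x)) :=
        comp_seg fun t ht => by
          rw [add_right_comm]
          refine up _ ?_ (hδ' (hb h1 t ht))
          linarith [mem_ball_iff_norm.1 (hb h2 t ht)]
      rw [e1, add_right_comm, ← e2, e3]
      congr 1
      ring

/-- the component on the side of `x` at the saddle `c` -/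
noncomputable def Side (F : ℂ → ℝ) (G H : ℂ → ℂ) (ε r : ℝ) (c x : ℂ) : Set ℂ :=
  if 0 ≤ dot (G x) (fr (H c)) then comp F ε (c + r * fr (H c)) else comp F ε (c - r * fr (H c))

theorem side_eq (h : Jet A F G H) (hr : 0 < r) (h1 : 40 * A * r ≤ d) (h2 : κ ≤ d * r ^ 2 / 100)
    {c : ℂ} (hc : Sad F G H κ d c) (h4 : ε ≤ κ) {y : ℂ} (hy : y ∈ rect c (fr (H c)) r)
    (hF : ε < F y) : Side F G H ε r c y = comp F ε y := by
  have := h.side hr h1 h2 hc h4 hy hF
  unfold Side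
  split_ifs with h0
  · exact (this.1 h0).symm
  · exact (this.2 (not_le.1 h0).le).symm

theorem side_adj {c x : ℂ} {W : Set ℂ} (h : Side F G H ε r c x = W) : Adj F H ε r W c := by
  unfold Side at h
  split_ifs at h
  · exact Or.inl h.symm
  · exact Or.inr h.symm

theorem side_high (h : Jet A F G H) (hr : 0 < r) (h1 : 40 * A * r ≤ d) (h2 : κ ≤ d * r ^ 2 / 100)
    {c : ℂ} (hc : Sad F G H κ d c) (h4 : ε ≤ κ) (hF : ε < F c) (x : ℂ) :
    Side F G H ε r c x = comp F ε c := by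
  have h0 : dot (G c) (fr (H c)) = 0 := by simp [dot, hc.1]
  have := h.side hr h1 h2 hc h4 (rect_self c _ hr) hF
  unfold Side
  split_ifs
  · exact (this.1 h0.ge).symm
  · exact (this.2 h0.le).symm

theorem side_congr {c x y : ℂ} (h : 0 ≤ dot (G x) (fr (H c)) ↔ 0 ≤ dot (G y) (fr (H c))) :
    Side F G H ε r c x = Side F G H ε r c y := if_congr h rfl rfl

theorem sign_seg {φ : ℝ → ℝ} (hφ : Continuous φ) (h : ∀ t ∈ Icc (0 : ℝ) 1, φ t ≠ 0) :
    0 ≤ φ 0 ↔ 0 ≤ φ 1 := by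
  have h0 : (0 : ℝ) ∈ Icc (0 : ℝ) 1 := by simp
  have h1 : (1 : ℝ) ∈ Icc (0 : ℝ) 1 := by simp
  constructor
  · intro ha
    by_contra hb
    obtain ⟨t, ht, e⟩ := isPreconnected_Icc.intermediate_value h1 h0 hφ.continuousOn
      ⟨(not_le.1 hb).le, ha⟩
    exact h t ht e
  · intro ha
    by_contra hb
    obtain ⟨t, ht, e⟩ := isPreconnected_Icc.intermediate_value h0 h1 hφ.continuousOn
      ⟨(not_le.1 hb).le, ha⟩
    exact h t ht e

theorem side_asc (h : Jet A F G H) (hr : 0 < r) (h1 : 40 * A * r ≤ d) (h2 : κ ≤ d * r ^ 2 / 100)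
    (h4 : ε ≤ κ) (hsr : 16 * s ≤ r) {c : ℂ} (hc : Sad F G H κ d c) {W : Set ℂ} {x v : ℂ}
    (hadj : Adj F H ε r W c → F c ≤ ε → F c < F x) (hx : x ∈ rect c (fr (H c)) (7 / 8 * r))
    (hv : Asc F ε s x v) : comp F ε (x + v) = W ↔ Side F G H ε r c x = W := by
  have hm : ∀ t ∈ Icc (0 : ℝ) 1, x + t * v ∈ rect c (fr (H c)) r := fun t ht =>
    rect_move (fr_norm _) hx (by linarith [norm_seg ht v, hv.1])
  have hy : x + v ∈ rect c (fr (H c)) r := by simpa using hm 1 (by simp)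
  rw [← side_eq h hr h1 h2 hc h4 hy hv.2.1]
  by_cases hA : Adj F H ε r W c
  swap
  · exact ⟨fun e => absurd (side_adj e) hA, fun e => absurd (side_adj e) hA⟩
  rcases le_or_gt (F c) ε with hF | hF
  · have := sign_seg (φ := fun t : ℝ => dot (G (x + t * v)) (fr (H c)))
      ((cont_dot_left _).comp (h.cont.2.1.comp (by fun_prop))) fun t ht e =>
        absurd (h.ridge hr h1 h2 hc (hm t ht) e) (not_le.2 ((hadj hA hF).trans_le (hv.2.2 t ht)))
    rw [side_congr (x := x) (y := x + v) (by simpa using this)]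
  · rw [side_high h hr h1 h2 hc h4 hF, side_high h hr h1 h2 hc h4 hF]

theorem side_loc (h : Jet A F G H) (hr : 0 < r) (h1 : 40 * A * r ≤ d) (h2 : κ ≤ d * r ^ 2 / 100)
    (h4 : ε ≤ κ) {c : ℂ} (hc : Sad F G H κ d c) {W : Set ℂ} {x : ℂ}
    (hadj : Adj F H ε r W c → F c ≤ ε → F c < F x) (hx : x ∈ rect c (fr (H c)) r) :
    ∀ᶠ x' in 𝓝 x, Side F G H ε r c x' = W ↔ Side F G H ε r c x = W := by
  by_cases hA : Adj F H ε r W c
  swap
  · exact .of_forall fun _ =>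
      ⟨fun e => absurd (side_adj e) hA, fun e => absurd (side_adj e) hA⟩
  rcases le_or_gt (F c) ε with hF | hF
  · have hne : dot (G x) (fr (H c)) ≠ 0 := fun e =>
      absurd (h.ridge hr h1 h2 hc hx e) (not_le.2 (hadj hA hF))
    have hφ : Continuous fun x' => dot (G x') (fr (H c)) := (cont_dot_left _).comp h.cont.2.1
    rcases hne.lt_or_gt with h0 | h0
    · filter_upwards [(isOpen_lt hφ continuous_const).mem_nhds h0] with x' hx'
      rw [side_congr (iff_of_false (not_le.2 hx') (not_le.2 h0))]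
    · filter_upwards [(isOpen_lt continuous_const hφ).mem_nhds h0] with x' hx'
      rw [side_congr (iff_of_true (le_of_lt hx') h0.le)]
  · exact .of_forall fun x' => by
      rw [side_high h hr h1 h2 hc h4 hF, side_high h hr h1 h2 hc h4 hF]

theorem of_loc {Z χ : Set ℂ} (hZ : IsOpen Z) (h : ∀ x ∈ Z, ∀ᶠ x' in 𝓝 x, x' ∈ Z → (x' ∈ χ ↔ x ∈ χ)) :
    IsOpen (Z ∩ χ) ∧ ∀ x ∈ frontier (Z ∩ χ), x ∉ Z := by
  have ho : IsOpen (Z ∩ χ) := isOpen_iff_mem_nhds.2 fun x hx => by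
    filter_upwards [hZ.mem_nhds hx.1, h x hx.1] with x' h1 h2
    exact ⟨h1, (h2 h1).2 hx.2⟩
  refine ⟨ho, fun x hx hxZ => ?_⟩
  rw [ho.frontier_eq] at hx
  obtain ⟨x', h1, h2⟩ := ((mem_closure_iff_frequently.1 hx.1).and_eventually (h x hxZ)).exists
  exact hx.2 ⟨hxZ, (h2 h1.1).1 h1.2⟩

end A7

open A7 in
theorem Jet.closing {A κ d r ε K g : ℝ} {F : ℂ → ℝ} {G H : ℂ → ℂ} (h : Jet A F G H) (hr : 0 < r)
    (h0 : 40 * r ≤ 1) (h1 : 40 * A * r ≤ d) (h2 : κ ≤ d * r ^ 2 / 100) (h3 : 0 < ε) (h4 : ε ≤ κ)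
    (h5 : 1 ≤ K) (h6 : 64 * A * (K + 1) * ε ≤ g ^ 2) (h7 : 0 < g) (h8 : g ≤ r) {x₁ : ℂ}
    (hx : ε < F x₁) (hW : Bornology.IsBounded (comp F ε x₁)) {Z : Set ℂ} (hZ : IsOpen Z)
    (hK : ∀ x ∈ Z, -(K * ε) < F x)
    (near : ∀ x, (∃ y ∈ comp F ε x₁, ‖x - y‖ < 1) → |F x| ≤ K * ε → ‖G x‖ ≤ g →
      ∃ c, Sad F G H κ d c ∧ ‖x - c‖ ≤ r / 16)
    (adj : ∀ c, Sad F G H κ d c → Adj F H ε r (comp F ε x₁) c → F c ≤ ε →
      ∀ x ∈ Z, x ∈ rect c (fr (H c)) r → F c < F x) :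
    ∃ D, IsOpen D ∧ Bornology.IsBounded D ∧ comp F ε x₁ ∩ Z ⊆ D ∧
      (∀ x ∈ D, ∃ y ∈ comp F ε x₁, ‖x - y‖ ≤ 2 * r) ∧ ∀ x ∈ frontier D, x ∉ Z := by
  have hA := h.one
  have hAr : 0 < A * r := mul_pos (by linarith) hr
  have hd : 0 < d := by linarith
  obtain ⟨s, hs0, hsg⟩ : ∃ s : ℝ, 0 < s ∧ s * g = 4 * (K + 1) * ε :=
    ⟨4 * (K + 1) * ε / g, by positivity, div_mul_cancel₀ _ h7.ne'⟩
  have hs : 16 * A * s ≤ g := by
    refine le_of_mul_le_mul_right ?_ h7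
    rw [mul_assoc, hsg]
    linarith
  have hsr : 16 * s ≤ r := by nlinarith
  have hs1 : s ≤ 1 := by linarith
  generalize hWd : comp F ε x₁ = W at *
  have hWc : ∀ y ∈ W, ε < F y ∧ comp F ε y = W := fun y hy => by
    rw [← hWd] at hy ⊢
    exact ⟨connectedComponentIn_subset {y | ε < F y} x₁ hy, (connectedComponentIn_eq hy).symm⟩
  have hcW : ∀ y, ε < F y → comp F ε y = W → y ∈ W := fun y hy e =>
    e ▸ mem_connectedComponentIn hy
  have uniq : ∀ c c' x, Sad F G H κ d c → Sad F G H κ d c' → x ∈ rect c (fr (H c)) r →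
      x ∈ rect c' (fr (H c')) r → c' = c := fun c c' x hc hc' hx hx' => by
    refine h.isolated ?_ hc hc'.1 ?_
    · have : r ^ 2 ≤ 1 := pow_le_one₀ hr.le (by linarith)
      nlinarith
    · have e1 := rect_norm (fr_norm _) hx
      have e2 := rect_norm (fr_norm _) hx'
      have e3 := norm_sub_le (x - c) (x - c')
      rw [show x - c - (x - c') = c' - c by ring] at e3
      rw [lt_div_iff₀ (by linarith)]
      nlinarith
  let χ : Set ℂ := {x | (∃ c, Sad F G H κ d c ∧ x ∈ rect c (fr (H c)) (r / 2) ∧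
      Side F G H ε r c x = W) ∨ ((∀ c, Sad F G H κ d c → x ∉ rect c (fr (H c)) (r / 2)) ∧
      ∃ v, Asc F ε s x v ∧ comp F ε (x + v) = W)}
  have hfar : ∀ x, (∀ c, Sad F G H κ d c → x ∉ rect c (fr (H c)) (r / 2)) →
      (x ∈ χ ↔ ∃ v, Asc F ε s x v ∧ comp F ε (x + v) = W) := fun x hn =>
    ⟨fun hχ => hχ.elim (fun ⟨c, hc, hx, _⟩ => absurd hx (hn c hc)) fun e => e.2,
      fun e => Or.inr ⟨hn, e⟩⟩
  have hreg : ∀ x ∈ Z, (∃ y ∈ W, ‖x - y‖ < 1) →
      (∀ c, Sad F G H κ d c → x ∉ rect c (fr (H c)) (r / 2)) →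
      ∃ V : Set ℂ, ∀ᶠ x' in 𝓝 x, (∃ v, Asc F ε s x' v) ∧
        ∀ v, Asc F ε s x' v → comp F ε (x' + v) = V := fun x hxZ hn hc => by
    refine regular h hs0 hs hs1 hsg h3 h5 h7 (hK x hxZ) ?_
    by_contra hno
    rw [not_or, not_lt, not_lt] at hno
    obtain ⟨c, hc', hxc⟩ := near x hn (abs_le.2 ⟨(hK x hxZ).le, by nlinarith⟩) hno.2
    refine hc c hc' ?_
    have := rect_move (v := x - c) (ρ' := r / 2) (fr_norm (H c))
      (rect_self c _ (show 0 < r / 4 by positivity)) (by linarith)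
    rwa [add_sub_cancel] at this
  have hsad : ∀ c, Sad F G H κ d c → ∀ x ∈ Z, (∃ y ∈ W, ‖x - y‖ < 1) →
      x ∈ rect c (fr (H c)) (7 / 8 * r) → (x ∈ χ ↔ Side F G H ε r c x = W) := by
    intro c hc x hxZ hn hx
    have hx' : x ∈ rect c (fr (H c)) r := rect_mono hx (by linarith)
    by_cases hin : x ∈ rect c (fr (H c)) (r / 2)
    · refine ⟨fun hχ => hχ.elim (fun ⟨c', hc', hx2, e⟩ => ?_) fun e => absurd hin (e.1 c hc),
        fun e => Or.inl ⟨c, hc, hin, e⟩⟩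
      rwa [uniq c c' x hc hc' hx' (rect_mono hx2 (by linarith))] at e
    · have hno : ∀ c', Sad F G H κ d c' → x ∉ rect c' (fr (H c')) (r / 2) := fun c' hc' hx2 => by
        rw [uniq c c' x hc hc' hx' (rect_mono hx2 (by linarith))] at hx2
        exact hin hx2
      obtain ⟨V, hV⟩ := hreg x hxZ hn hno
      obtain ⟨v, hv⟩ := hV.self_of_nhds.1
      have key : ∀ v, Asc F ε s x v → (comp F ε (x + v) = W ↔ Side F G H ε r c x = W) :=
        fun v hv => side_asc h hr h1 h2 h4 hsr hc (fun a b => adj c hc a b x hxZ hx') hx hv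
      rw [hfar x hno]
      exact ⟨fun ⟨v, hv, e⟩ => (key v hv).1 e, fun e => ⟨v, hv, (key v hv).2 e⟩⟩
  have hdist : ∀ x ∈ χ, ∃ y ∈ W, ‖x - y‖ ≤ 2 * r := by
    rintro x (⟨c, hc, hx, e⟩ | ⟨-, v, hv, e⟩)
    · have e1 := rect_norm (fr_norm _) hx
      have hu : ∀ u : ℝ, |u| = r → comp F ε (c + u * fr (H c)) = W →
          ∃ y ∈ W, ‖x - y‖ ≤ 2 * r := fun u hu e => by
        have e2 := (h.axes hr h1 h2 hc).2.2.2 u hu
        have e3 : 0 < d * r ^ 2 := by positivity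
        refine ⟨_, hcW _ (by linarith) e, ?_⟩
        have e4 := norm_sub_le (x - c) (u * fr (H c))
        rw [norm_mul, fr_norm, mul_one, Complex.norm_real, Real.norm_eq_abs, hu, sub_sub] at e4
        linarith
      rcases side_adj e with e | e
      · exact hu r (abs_of_pos hr) e.symm
      · refine hu (-r) (by rw [abs_neg, abs_of_pos hr]) ?_
        rw [e, Complex.ofReal_neg, neg_mul, ← sub_eq_add_neg]
    · refine ⟨_, hcW _ hv.2.1 e, ?_⟩
      rw [sub_add_cancel_left, norm_neg]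
      linarith [hv.1]
  have hloc : ∀ x ∈ Z, ∀ᶠ x' in 𝓝 x, x' ∈ Z → (x' ∈ χ ↔ x ∈ χ) := by
    intro x hxZ
    have hball : ∀ᶠ x' in 𝓝 x, ‖x' - x‖ < r / 8 := by
      filter_upwards [Metric.ball_mem_nhds x (show 0 < r / 8 by positivity)] with x' hx'
      exact mem_ball_iff_norm.1 hx'
    by_cases hn : ∃ y ∈ W, ‖x - y‖ < 3 * r
    swap
    · have hno : ∀ x', ‖x' - x‖ < r / 8 → x' ∉ χ := fun x' hx' hχ => by
        obtain ⟨y, hy, e⟩ := hdist x' hχ
        have e3 := norm_sub_le (x' - y) (x' - x)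
        rw [show x' - y - (x' - x) = x - y by ring] at e3
        exact hn ⟨y, hy, by linarith⟩
      filter_upwards [hball] with x' hx' _
      exact iff_of_false (hno x' hx') (hno x (by simpa using hr))
    obtain ⟨y, hy, hxy⟩ := hn
    have hn' : ∀ x', ‖x' - x‖ < r / 8 → ∃ y ∈ W, ‖x' - y‖ < 1 := fun x' hx' => by
      have e3 := norm_add_le (x' - x) (x - y)
      rw [sub_add_sub_cancel] at e3
      exact ⟨y, hy, by linarith⟩
    have hn0 := hn' x (by simpa using hr)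
    by_cases hc : ∃ c, Sad F G H κ d c ∧ x ∈ rect c (fr (H c)) (7 / 8 * r)
    · obtain ⟨c, hc, hx⟩ := hc
      have hx' : x ∈ rect c (fr (H c)) r := rect_mono hx (by linarith)
      filter_upwards [hball, (rect_open c _ _).mem_nhds hx,
        side_loc h hr h1 h2 h4 hc (fun a b => adj c hc a b x hxZ hx') hx'] with x' e1 e2 e3 e4
      rw [hsad c hc x' e4 (hn' x' e1) e2, hsad c hc x hxZ hn0 hx, e3]
    · have hno : ∀ x', ‖x' - x‖ < r / 8 → ∀ c, Sad F G H κ d c →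
          x' ∉ rect c (fr (H c)) (r / 2) := fun x' hx' c hc' hin => by
        refine hc ⟨c, hc', ?_⟩
        have := rect_move (v := x - x') (ρ' := 7 / 8 * r) (fr_norm (H c)) hin (by
          rw [norm_sub_rev]
          linarith)
        rwa [add_sub_cancel] at this
      have hno0 := hno x (by simpa using hr)
      obtain ⟨V, hV⟩ := hreg x hxZ hn0 hno0
      have key : ∀ x', (∀ c, Sad F G H κ d c → x' ∉ rect c (fr (H c)) (r / 2)) →
          ((∃ v, Asc F ε s x' v) ∧ ∀ v, Asc F ε s x' v → comp F ε (x' + v) = V) →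
          (x' ∈ χ ↔ V = W) := fun x' a b => by
        rw [hfar x' a]
        obtain ⟨⟨v, hv⟩, b⟩ := b
        exact ⟨fun ⟨v, hv, e⟩ => (b v hv).symm.trans e, fun e => ⟨v, hv, (b v hv).trans e⟩⟩
      filter_upwards [hball, hV] with x' e1 e2 _
      rw [key x' (hno x' e1) e2, key x hno0 hV.self_of_nhds]
  obtain ⟨ho, hf⟩ := of_loc hZ hloc
  refine ⟨Z ∩ χ, ho, (hW.cthickening (δ := 2 * r)).subset fun x hx => ?_, fun x hx => ⟨hx.2, ?_⟩,
    fun x hx => hdist x hx.2, hf⟩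
  · obtain ⟨y, hy, e⟩ := hdist x hx.2
    exact Metric.mem_cthickening_of_dist_le x y _ _ hy (by rwa [dist_eq_norm])
  · obtain ⟨e1, e2⟩ := hWc x hx.1
    by_cases hc : ∃ c, Sad F G H κ d c ∧ x ∈ rect c (fr (H c)) (r / 2)
    · obtain ⟨c, hc, hin⟩ := hc
      exact Or.inl ⟨c, hc, hin,
        (side_eq h hr h1 h2 hc h4 (rect_mono hin (by linarith)) e1).trans e2⟩
    · exact Or.inr ⟨fun c hc' hin => hc ⟨c, hc', hin⟩, 0, asc_zero hs0 e1, by rwa [add_zero]⟩

end Pool.Agent.Lib.MP_e1e19a_an
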