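import Pool.Agent.Lib.MP_e1e19a_an.N.A0

/-!
Necks of small height have proportional probability.
-/

namespace Pool.Agent.Lib.MP_e1e19a_an

open Real MeasureTheory Set
open scoped MatrixGroups ComplexConjugate UpperHalfPlane

namespace A8b

/-- half of an arc lies in the fundamental interval after a translation -/
theorem arc (b l : ℝ) (h0 : 0 ≤ l) (h1 : l ≤ 2 * π) : ∃ (u : ℝ) (n : ℤ), 0 ≤ u ∧
    u + l / 2 ≤ 2 * π ∧ b ≤ u + n * (2 * π) ∧ u + l / 2 + n * (2 * π) ≤ b + l := by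
  obtain ⟨a1, a2⟩ := toIcoMod_mem_Ico' two_pi_pos b
  have a3 := toIcoMod_add_toIcoDiv_zsmul two_pi_pos 0 b
  rw [zsmul_eq_mul] at a3
  by_cases c : toIcoMod two_pi_pos 0 b + l / 2 ≤ 2 * π
  · exact ⟨_, toIcoDiv two_pi_pos 0 b, a1, c, a3.ge, by linarith⟩
  · refine ⟨toIcoMod two_pi_pos 0 b + l / 2 - 2 * π, toIcoDiv two_pi_pos 0 b + 1, by linarith,
      by linarith, ?_, ?_⟩ <;> push_cast <;> linarith

/-- the law of one phase -/
noncomputable def ν : Measure ℝ := (ENNReal.ofReal (2 * π))⁻¹ • volume.restrict (Ico 0 (2 * π))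

theorem ν_Ico {u w : ℝ} (h0 : 0 ≤ u) (h1 : u + w ≤ 2 * π) :
    ν (Ico u (u + w)) = ENNReal.ofReal (w / (2 * π)) := by
  rw [ν, Measure.smul_apply, Measure.restrict_apply measurableSet_Ico,
    inter_eq_left.2 (Ico_subset_Ico h0 h1), volume_Ico, add_sub_cancel_left,
    ENNReal.ofReal_div_of_pos two_pi_pos, smul_eq_mul, ENNReal.div_eq_inv_mul]

instance : IsProbabilityMeasure ν where
  measure_univ := by
    rw [ν, Measure.smul_apply, Measure.restrict_apply MeasurableSet.univ, univ_inter, volume_Ico,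
      sub_zero, smul_eq_mul,
      ENNReal.inv_mul_cancel (by simpa using pi_pos) ENNReal.ofReal_ne_top]

theorem slice {σ : Type} [Fintype σ] [DecidableEq σ] (g : σ) (S : σ → Set ℝ)
    (hS : ∀ i, MeasurableSet (S i)) (hg : S g = univ) {E : Set (σ → ℝ)} (hE : MeasurableSet E)
    (q : ENNReal) (h : ∀ ω, (∀ i, ω i ∈ S i) → q ≤ ν {θ | Function.update ω g θ ∈ E}) :
    q * ∏ i, ν (S i) ≤ unif σ E := by
  have hP : MeasurableSet (Set.pi univ S) := MeasurableSet.univ_pi hS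
  have key := lintegral_le_of_lmarginal_le (μ := fun _ : σ => ν) {g}
    (f := (Set.pi univ S).indicator fun _ => q) (g := E.indicator 1)
    (measurable_const.indicator hP) (measurable_const.indicator hE) (by
      rw [lmarginal_singleton, lmarginal_singleton]
      intro ω
      have m : MeasurableSet {θ | Function.update ω g θ ∈ E} := measurable_update ω hE
      have e : (fun θ => E.indicator (1 : (σ → ℝ) → ENNReal) (Function.update ω g θ)) =
          {θ | Function.update ω g θ ∈ E}.indicator 1 := rfl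
      simp only
      rw [e, lintegral_indicator_one m]
      by_cases c : ∀ i, i ≠ g → ω i ∈ S i
      · have h1 := h (Function.update ω g 0) fun i => by
          by_cases d : i = g
          · rw [d, hg]; trivial
          · rw [Function.update_of_ne d]; exact c i d
        simp only [Function.update_idem] at h1
        refine le_trans ?_ h1
        calc _ ≤ ∫⁻ _, q ∂ν := lintegral_mono fun θ => indicator_le_self _ _ _
          _ = q := by simp
      · push Not at c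
        obtain ⟨i, hi, c⟩ := c
        have : ∀ θ, (Set.pi univ S).indicator (fun _ => q) (Function.update ω g θ) = 0 :=
          fun θ => indicator_of_notMem (fun d => c (by
            have := d i trivial
            rwa [Function.update_of_ne hi] at this)) _
        simp [this])
  rw [lintegral_indicator_one hE, lintegral_indicator_const hP, Measure.pi_pi] at key
  exact key

theorem closed {ι : Type} [DecidableEq ι] {a : ι → ℝ} {k : ι → ℂ} (h : Fam a k) (T : Finset ι)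
    (t : ι → ℝ) (x₀ : ℂ) (ε : ℝ) : IsClosed {ω : T → ℝ | ∃ x, ‖x - x₀‖ ≤ 1 / 4 ∧
      Gr a k (mix T t ω) x = 0 ∧ ε / 2 ≤ Wv a k (mix T t ω) x ∧ Wv a k (mix T t ω) x ≤ ε} := by
  have hm : Continuous fun ω : T → ℝ => mix T t ω := continuous_pi fun i => by
    by_cases c : i ∈ T
    · simp only [mix, dif_pos c]; exact continuous_apply _
    · simp only [mix, dif_neg c]; exact continuous_const
  have hp : Continuous fun p : (T → ℝ) × Metric.closedBall x₀ (1 / 4) =>
      ((mix T t p.1, (p.2 : ℂ)) : (ι → ℝ) × ℂ) :=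
    (hm.comp continuous_fst).prodMk (continuous_subtype_val.comp continuous_snd)
  have h1 := h.cont.1.comp hp
  have h2 := h.cont.2.1.comp hp
  have h3 : IsClosed {p : (T → ℝ) × Metric.closedBall x₀ (1 / 4) |
      Gr a k (mix T t p.1) p.2 = 0 ∧ ε / 2 ≤ Wv a k (mix T t p.1) p.2 ∧
        Wv a k (mix T t p.1) p.2 ≤ ε} :=
    (isClosed_eq h2 continuous_const).inter
      ((isClosed_le continuous_const h1).inter (isClosed_le h1 continuous_const))
  convert isClosedMap_fst_of_compactSpace _ h3 using 1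
  ext ω
  constructor
  · rintro ⟨x, hx, hx'⟩
    exact ⟨(ω, ⟨x, mem_closedBall_iff_norm.2 hx⟩), hx', rfl⟩
  · rintro ⟨⟨ω', x, hx⟩, hx', rfl⟩
    exact ⟨x, mem_closedBall_iff_norm.1 hx, hx'⟩

theorem window {v : ℝ → ℝ} {θ₀ θ₁ A ε : ℝ} (hθ : θ₀ ≤ θ₁) (hA : 0 < A) (hε : 0 < ε)
    (hv : ∀ θ ∈ Icc θ₀ θ₁, ∀ θ' ∈ Icc θ₀ θ₁, |v θ - v θ'| ≤ A * |θ - θ'|) (h0 : ε ≤ v θ₀)
    (h1 : v θ₁ ≤ 0) : ∃ b, θ₀ ≤ b ∧ b + ε / (4 * A) ≤ θ₁ ∧
      ∀ θ ∈ Icc b (b + ε / (4 * A)), ε / 2 ≤ v θ ∧ v θ ≤ ε := by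
  have hc : ContinuousOn v (Icc θ₀ θ₁) :=
    (LipschitzOnWith.of_dist_le' (K := A) fun x hx y hy => hv x hx y hy).continuousOn
  obtain ⟨b, hb, e⟩ := intermediate_value_Icc' hθ hc
    (show 3 * ε / 4 ∈ Icc (v θ₁) (v θ₀) from ⟨by linarith, by linarith⟩)
  have e1 : A * (ε / (4 * A)) = ε / 4 := by field_simp
  have h2 : b + ε / (4 * A) ≤ θ₁ := by
    have := hv θ₁ (right_mem_Icc.2 hθ) b hb
    rw [abs_of_nonneg (sub_nonneg.2 hb.2)] at this
    have h3 := (abs_le.1 this).1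
    have h4 : A * (ε / (4 * A)) ≤ A * (θ₁ - b) := by linarith
    linarith [le_of_mul_le_mul_left h4 hA]
  refine ⟨b, hb.1, h2, fun θ hθ' => ?_⟩
  have := hv θ ⟨hb.1.trans hθ'.1, hθ'.2.trans h2⟩ b hb
  rw [abs_of_nonneg (sub_nonneg.2 hθ'.1)] at this
  have h4 : A * (θ - b) ≤ A * (ε / (4 * A)) :=
    mul_le_mul_of_nonneg_left (by linarith [hθ'.2]) hA.le
  obtain ⟨h5, h6⟩ := abs_le.1 this
  constructor <;> linarith

end A8b

open A8b in
theorem lb_prob {ι : Type} [DecidableEq ι] {a : ι → ℝ} {k : ι → ℂ} (h : Fam a k) (hL : LB a k) :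
    ∃ T₀ : Finset ι, ∃ c > 0, ∃ ε₀ > 0, ∀ T ⊇ T₀, ∀ (t : ι → ℝ) (x₀ : ℂ), ∀ ε ∈ Ioc 0 ε₀,
      ∃ E : Set (T → ℝ), MeasurableSet E ∧ ENNReal.ofReal (c * ε) ≤ unif T E ∧ ∀ ω ∈ E,
        ∃ x, ‖x - x₀‖ ≤ 1 / 4 ∧ Gr a k (mix T t ω) x = 0 ∧ 0 < Wv a k (mix T t ω) x ∧
          Wv a k (mix T t ω) x ≤ ε := by
  obtain ⟨T₀, g, t₀, θ₀, θ₁, κ, v₀, hg, hθ, hθ', hκ, hκ', hv₀, H⟩ := hL
  have ha := h.pos g
  have hπ := pi_gt_three
  refine ⟨T₀, (κ / 2 / (2 * π)) ^ T₀.card / (8 * a g) / (2 * π), by positivity, v₀, hv₀,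
    fun T hT t x₀ ε hε => ⟨_, (closed h T t x₀ ε).measurableSet, ?_, ?_⟩⟩
  swap
  · rintro ω ⟨x, h1, h2, h3, h4⟩
    exact ⟨x, h1, h2, by linarith [hε.1], h4⟩
  choose u n u0 u1 u2 u3 using fun i => arc (t₀ i - dot (k i) x₀) κ hκ.le (by linarith)
  refine le_trans ?_ (slice (⟨g, hT hg⟩ : T)
    (fun i => if (i : ι) ∈ T₀ ∧ (i : ι) ≠ g then Ico (u i) (u i + κ / 2) else univ)
    (fun i => by split_ifs <;> simp) (by simp) (closed h T t x₀ ε).measurableSet
    (ENNReal.ofReal (ε / (4 * a g) / 2 / (2 * π))) fun ω hω => ?_)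
  · have hq : 0 ≤ κ / 2 / (2 * π) := by positivity
    have hq' : κ / 2 / (2 * π) ≤ 1 := by
      rw [div_le_one two_pi_pos]; linarith
    have e : ENNReal.ofReal (κ / 2 / (2 * π)) ^ T₀.card =
        ∏ i : T, if (i : ι) ∈ T₀ then ENNReal.ofReal (κ / 2 / (2 * π)) else 1 := by
      rw [Finset.prod_coe_sort T fun i => if i ∈ T₀ then ENNReal.ofReal (κ / 2 / (2 * π)) else 1,
        Finset.prod_ite_mem, Finset.inter_eq_right.2 hT, Finset.prod_const]
    have e' : (κ / 2 / (2 * π)) ^ T₀.card / (8 * a g) / (2 * π) * ε =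
        ε / (4 * a g) / 2 / (2 * π) * (κ / 2 / (2 * π)) ^ T₀.card := by ring
    rw [e', ENNReal.ofReal_mul (by have := hε.1; positivity), ENNReal.ofReal_pow hq, e]
    gcongr with i
    by_cases c : (i : ι) ∈ T₀ ∧ (i : ι) ≠ g
    · rw [if_pos c, if_pos c.1, ν_Ico (u0 i) (u1 i)]
    · rw [if_neg c, measure_univ]
      split_ifs
      · exact ENNReal.ofReal_le_one.2 hq'
      · exact le_rfl
  · obtain ⟨v, v1, v2, v3, v4⟩ := H
      (fun i => mix T t ω i + dot (k i) x₀ + n i * (2 * π)) fun i hi hne => by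
        have := hω ⟨i, hT hi⟩
        rw [if_pos ⟨hi, hne⟩] at this
        obtain ⟨b1, b2⟩ := this
        have b3 := u2 i
        have b4 := u3 i
        simp only [mix, dif_pos (hT hi)] at b1 b2 ⊢
        rw [abs_le]
        constructor <;> linarith
    obtain ⟨b, b0, b1, b2⟩ := window hθ ha hε.1 v2 (hε.2.trans v3) (by linarith)
    obtain ⟨w, m, w0, w1, w2, w3⟩ := arc (b - dot (k g) x₀) (ε / (4 * a g))
      (by have := hε.1; positivity) (by linarith)
    rw [← ν_Ico w0 w1]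
    refine measure_mono fun θ hθ'' => ?_
    have hm : θ + dot (k g) x₀ + m * (2 * π) ∈ Icc b (b + ε / (4 * a g)) :=
      ⟨by linarith [hθ''.1], by linarith [hθ''.2]⟩
    obtain ⟨c, c1, c2, c3⟩ := v1 _ ⟨b0.trans hm.1, hm.2.trans b1⟩
    have p := Wv_per (a := a) (k := k)
      (t := fun i => mix T t (Function.update ω ⟨g, hT hg⟩ θ) i + dot (k i) x₀)
      (t' := Function.update (fun i => mix T t ω i + dot (k i) x₀ + n i * (2 * π)) g
        (θ + dot (k g) x₀ + m * (2 * π))) fun i => by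
        by_cases d : i = g
        · subst d
          exact ⟨m, by simp [mix, hT hg]⟩
        · refine ⟨n i, ?_⟩
          rw [Function.update_of_ne d]
          by_cases d' : i ∈ T
          · simp only [mix, dif_pos d']
            rw [Function.update_of_ne fun e => d (congrArg Subtype.val e)]
          · simp only [mix, dif_neg d']
    have s := Wv_shift (a := a) (k := k) (mix T t (Function.update ω ⟨g, hT hg⟩ θ)) c x₀
    refine ⟨c + x₀, by simpa using c1, ?_, ?_⟩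
    · rw [s.2.1, ← p.2.1, c2]
    · rw [s.1, ← p.1, c3]
      exact b2 _ hm

/-- first moment method -/
theorem exists_of_mean {Ω J : Type} [MeasurableSpace Ω] (μ : Measure Ω) [IsProbabilityMeasure μ]
    (I : Finset J) (E B C : J → Set Ω) {e b c x y u : ℝ} (hb : 0 ≤ b) (hc : 0 ≤ c) (hx : 0 ≤ x)
    (hy : 0 ≤ y) (hE : ∀ j ∈ I, MeasurableSet (E j) ∧ ENNReal.ofReal e ≤ μ (E j))
    (hB : ∀ j ∈ I, μ (B j) ≤ ENNReal.ofReal b) (hC : ∀ j ∈ I, μ (C j) ≤ ENNReal.ofReal c)
    (H : u + I.card * (x * b + y * c) < I.card * e) : ∃ (ω : Ω) (𝔈 𝔅 ℭ : Finset J),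
      (∀ j ∈ 𝔈, j ∈ I ∧ ω ∈ E j) ∧ (∀ j ∈ I, ω ∈ B j → j ∈ 𝔅) ∧ (∀ j ∈ I, ω ∈ C j → j ∈ ℭ) ∧
      u + x * 𝔅.card + y * ℭ.card < 𝔈.card := by
  classical
  let f : J → Ω → ℝ := fun j ω => (E j).indicator 1 ω -
    x * (toMeasurable μ (B j)).indicator 1 ω - y * (toMeasurable μ (C j)).indicator 1 ω
  have i0 : ∀ {s : Set Ω}, MeasurableSet s → Integrable (s.indicator (1 : Ω → ℝ)) μ :=
    fun hs => (integrable_const (1 : ℝ)).indicator hs
  have i1 := fun j => (i0 (measurableSet_toMeasurable μ (B j))).const_mul x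
  have i2 := fun j => (i0 (measurableSet_toMeasurable μ (C j))).const_mul y
  have hf : ∀ j ∈ I, Integrable (f j) μ := fun j hj =>
    ((i0 (hE j hj).1).sub (i1 j)).sub (i2 j)
  have hI : ∀ j ∈ I, e - (x * b + y * c) ≤ ∫ ω, f j ω ∂μ := fun j hj => by
    have e1 : ∫ ω, f j ω ∂μ = μ.real (E j) - x * μ.real (B j) - y * μ.real (C j) := by
      simp only [f]
      rw [integral_sub (f := fun ω => (E j).indicator 1 ω -
        x * (toMeasurable μ (B j)).indicator 1 ω) ((i0 (hE j hj).1).sub (i1 j)) (i2 j),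
        integral_sub (i0 (hE j hj).1) (i1 j), integral_const_mul, integral_const_mul, integral_indicator_one (hE j hj).1,
        integral_indicator_one (measurableSet_toMeasurable _ _),
        integral_indicator_one (measurableSet_toMeasurable _ _)]
      simp only [Measure.real, measure_toMeasurable]
    have a1 : e ≤ μ.real (E j) := (ENNReal.ofReal_le_iff_le_toReal (measure_ne_top _ _)).1
      (hE j hj).2
    have a2 : μ.real (B j) ≤ b := ENNReal.toReal_le_of_le_ofReal hb (hB j hj)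
    have a3 : μ.real (C j) ≤ c := ENNReal.toReal_le_of_le_ofReal hc (hC j hj)
    have a4 := mul_le_mul_of_nonneg_left a2 hx
    have a5 := mul_le_mul_of_nonneg_left a3 hy
    linarith
  obtain ⟨ω, hω⟩ := exists_integral_le (integrable_finsetSum I hf)
  rw [integral_finsetSum I hf] at hω
  have h1 := (Finset.sum_le_sum hI).trans hω
  rw [Finset.sum_const, nsmul_eq_mul] at h1
  refine ⟨ω, I.filter fun j => ω ∈ E j, I.filter fun j => ω ∈ toMeasurable μ (B j),
    I.filter fun j => ω ∈ toMeasurable μ (C j), fun j hj => Finset.mem_filter.1 hj,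
    fun j hj h => Finset.mem_filter.2 ⟨hj, subset_toMeasurable _ _ h⟩,
    fun j hj h => Finset.mem_filter.2 ⟨hj, subset_toMeasurable _ _ h⟩, ?_⟩
  simp only [f, Finset.sum_sub_distrib, ← Finset.mul_sum, indicator_apply, Pi.one_apply,
    Finset.sum_boole] at h1
  linarith

end Pool.Agent.Lib.MP_e1e19a_an
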