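import Pool.Agent.Lib.MP_e1e19a_an.N.A3
import Pool.Agent.Lib.MP_e1e19a_an.N.A7
import Pool.Agent.Lib.MP_e1e19a_an.N.A8b
import Pool.Agent.Lib.MP_e1e19a_an.N.A10
import Pool.Agent.Lib.MP_e1e19a_an.N.A11a

/-!
The barrier when the amplitudes are summable.
-/

namespace Pool.Agent.Lib.MP_e1e19a_an

open Real MeasureTheory Set Topology Filter
open scoped MatrixGroups ComplexConjugate UpperHalfPlane

namespace A11b

variable {A κ d r ε g D η τ ρ : ℝ} {F F' : ℂ → ℝ} {G H : ℂ → ℂ}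

theorem edge (h : Jet A F G H) (hr : 0 < r) (h1 : 40 * A * r ≤ d) (h2 : κ ≤ d * r ^ 2 / 100)
    (h4 : ε ≤ κ) {c : ℂ} (hc : Sad F G H κ d c) {W : Set ℂ} (ha : Adj F H ε r W c) :
    ∃ y ∈ W, ‖c - y‖ = r ∧ d * r ^ 2 / 8 ≤ F y := by
  have d0 : 0 < d := by nlinarith [h.one]
  have p := mul_pos d0 (pow_pos hr 2)
  have n : ‖(r : ℂ) * fr (H c)‖ = r := by
    rw [norm_mul, fr_norm, Complex.norm_real, Real.norm_eq_abs, abs_of_pos hr, mul_one]
  have e1 := (h.axes hr h1 h2 hc).2.2.2 r (abs_of_pos hr)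
  have e2 := (h.axes hr h1 h2 hc).2.2.2 (-r) (by rw [abs_neg, abs_of_pos hr])
  rw [Complex.ofReal_neg, neg_mul, ← sub_eq_add_neg] at e2
  rcases ha with rfl | rfl
  · exact ⟨_, mem_connectedComponentIn (show ε < _ by linarith), by simpa using n, e1⟩
  · exact ⟨_, mem_connectedComponentIn (show ε < _ by linarith), by simpa using n, e2⟩

theorem sep (h : Jet A F G H) (hr : 0 < r) (h0 : 40 * r ≤ 1) (h1 : 40 * A * r ≤ d)
    (h2 : κ ≤ d * r ^ 2 / 100) (h4 : ε ≤ κ) {W : Set ℂ}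
    (nb : ∀ x, (∃ y ∈ W, ‖x - y‖ < 1) → ¬Bad F G H κ g d (d / (4 * A)) D τ x) {c c' : ℂ}
    (hc : Sad F G H κ d c) (ha : Adj F H ε r W c) (hc' : Sad F G H κ d c') (e : c ≠ c') :
    D ≤ ‖c - c'‖ := by
  have d0 : 0 < d := by nlinarith [h.one]
  obtain ⟨y, y1, y2, -⟩ := edge h hr h1 h2 h4 hc ha
  by_contra hn
  refine nb c ⟨y, y1, by linarith⟩ (Or.inr (Or.inl ⟨hc.1, hc.2.1, c', hc'.1, hc'.2.1, ?_,
    (not_le.1 hn).le⟩))
  by_contra hn
  exact e (h.isolated (by nlinarith [mul_pos d0 hr]) hc' hc.1 (not_le.1 hn))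

theorem close (h : Jet A F G H) (cF : Continuous F') (hr : 0 < r) (h0 : 40 * r ≤ 1)
    (h1 : 40 * A * r ≤ d) (h2 : κ ≤ d * r ^ 2 / 100) (h3 : 0 < ε)
    (h4 : 6 * ε + 16 * g ^ 2 / d ≤ κ) (h6 : 448 * A * ε ≤ g ^ 2) (h7 : 0 < g) (h8 : g ≤ r)
    (h9 : 64 * A * g ≤ d ^ 2) (h10 : 64 * g ≤ d * r) (η0 : 0 < η) (η1 : η ≤ 1 / 10)
    (η2 : r ≤ η / 2) {x₁ : ℂ} (hx : ε < F x₁) (hW : comp F ε x₁ ⊆ Metric.ball 0 ρ)
    (nb : ∀ x, (∃ y ∈ comp F ε x₁, ‖x - y‖ < 1) →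
      ¬Bad F G H κ g d (d / (4 * A)) D (10 * η * ε) x) {N Q : Finset ℂ}
    (hN : ∀ c, c ∈ N ↔ Sad F G H κ d c ∧ Adj F H ε r (comp F ε x₁) c)
    (hQ : ∀ c, c ∈ Q ↔ c ∈ N ∧ 0 < F c ∧ F c ≤ ε) (q1 : 1 ≤ Q.card) (q2 : Q.card ≤ 2)
    {Φ : ℂ → ℂ} (p0 : Φ 0 = 1) (p1 : ∀ x, ‖Φ x‖ ≤ 1) (p2 : ∀ x y, ‖Φ x - Φ y‖ ≤ ‖x - y‖)
    (p3 : ∀ c ∈ N, ∀ c' ∈ N, c ≠ c' → ‖Φ (c - c')‖ ≤ η)
    (hP : ∀ x, ‖x‖ ≤ ρ + 1 → |F' x - F x + 2 * ε * ∑ c ∈ Q, (Φ (x - c)).re| ≤ η * ε) :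
    Barrier F' := by
  classical
  have hA := h.one
  have d0 : 0 < d := by nlinarith
  have g0 : 0 ≤ 16 * g ^ 2 / d := by positivity
  have e4 : ε ≤ κ := by linarith
  have q3 : (Q.card : ℝ) ≤ 2 := by exact_mod_cast q2
  have S1 : ∀ x, |∑ c ∈ Q, (Φ (x - c)).re| ≤ 2 := fun x => by
    refine (Finset.abs_sum_le_sum_abs _ _).trans ((Finset.sum_le_card_nsmul _ _ 1 fun c _ =>
      (Complex.abs_re_le_norm _).trans (p1 _)).trans ?_)
    simpa using q3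
  have S2 : ∀ c ∈ N, ∀ x, ‖x - c‖ ≤ 3 / 4 * η →
      (if c ∈ Q then 1 else 0) - 7 / 2 * η ≤ ∑ c' ∈ Q, (Φ (x - c')).re := fun c hc x hx => by
    have : ∀ c' ∈ Q, (if c = c' then 1 else 0) - 7 / 4 * η ≤ (Φ (x - c')).re := fun c' hc' => by
      have e1 := (Complex.re_le_norm _).trans (p2 (c - c') (x - c'))
      rw [show c - c' - (x - c') = -(x - c) by ring, norm_neg, Complex.sub_re] at e1
      split_ifs with e
      · rw [e, sub_self, p0, Complex.one_re] at e1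
        rw [e] at hx
        linarith
      · have := (abs_le.1 ((Complex.abs_re_le_norm _).trans (p3 c hc c' ((hQ c').1 hc').1 e))).1
        linarith
    refine le_trans ?_ (Finset.sum_le_sum this)
    rw [Finset.sum_sub_distrib, Finset.sum_ite_eq, Finset.sum_const, nsmul_eq_mul]
    nlinarith
  set Z := {x | -(η * ε) < F' x} ∩ Metric.ball (0 : ℂ) (ρ + 1) with hZ
  have Z1 : ∀ x ∈ Z, -(2 * η * ε) + 2 * ε * ∑ c ∈ Q, (Φ (x - c)).re < F x := fun x hx => by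
    have := (abs_le.1 (hP x (mem_ball_zero_iff.1 hx.2).le)).2
    have : -(η * ε) < F' x := hx.1
    linarith
  obtain ⟨E, E1, E2, E3, E4, E5⟩ := h.closing (K := 6) (g := g) hr h0 h1 h2 h3 e4 (by norm_num)
    (by linarith) h7 h8 hx (Metric.isBounded_ball.subset hW) (Z := Z)
    ((isOpen_lt continuous_const cF).inter Metric.isOpen_ball) (fun x hx => by
      have := Z1 x hx
      nlinarith [(abs_le.1 (S1 x)).1]) (fun x x1 x2 x3 => by
      have n1 : 2 * d ≤ ‖H x‖ := by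
        by_contra hn
        exact nb x x1 (Or.inl ⟨by linarith, x3, (not_le.1 hn).le⟩)
      obtain ⟨c, c1, c2, c3, c4⟩ := h.newton d0 (by nlinarith [mul_pos d0 hr]) x3 n1 h9
      refine ⟨c, ⟨c2, by linarith [abs_sub_abs_le_abs_sub (F c) (F x)], c4⟩, ?_⟩
      rw [norm_sub_rev]
      refine c1.trans ?_
      rw [div_le_div_iff₀ d0 (by norm_num)]
      linarith) fun c c1 c2 c3 x x1 x2 => by
      have e1 := S2 c ((hN c).2 ⟨c1, c2⟩) x (by linarith [A7.rect_norm (fr_norm _) x2])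
      have e2 := Z1 x x1
      have e3 := mul_le_mul_of_nonneg_left e1 h3.le
      split_ifs at e3 with e
      · nlinarith
      · obtain ⟨y, y1, y2, -⟩ := edge h hr h1 h2 e4 c1 c2
        have e5 : F c < -(10 * η * ε) := by
          by_contra hn
          refine nb c ⟨y, y1, by linarith⟩ (Or.inr (Or.inr ⟨c1.1, not_lt.1 hn, ?_⟩))
          by_contra hn
          exact e ((hQ c).2 ⟨(hN c).2 ⟨c1, c2⟩, not_le.1 hn, c3⟩)
        nlinarith [mul_pos η0 h3]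
  obtain ⟨c, hc⟩ := Finset.card_pos.1 q1
  obtain ⟨c1, c2⟩ := (hN c).1 ((hQ c).1 hc).1
  obtain ⟨y, y1, -, y3⟩ := edge h hr h1 h2 e4 c1 c2
  have y4 := mem_ball_zero_iff.1 (hW y1)
  have y5 : 0 < F' y := by
    have := (abs_le.1 (hP y (by linarith))).1
    nlinarith [(abs_le.1 (S1 y)).2]
  refine ⟨E, y, E1, E2, E3 ⟨y1, show -(η * ε) < F' y by linarith [mul_pos η0 h3],
    mem_ball_zero_iff.2 (by linarith)⟩, y5, fun x hx => ?_⟩
  have e1 : E ⊆ Metric.closedBall 0 (ρ + 1 / 2) := fun z hz => by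
    obtain ⟨w, w1, w2⟩ := E4 z hz
    have := mem_ball_zero_iff.1 (hW w1)
    exact mem_closedBall_zero_iff.2 (by linarith [norm_le_norm_add_norm_sub' z w])
  have e2 := mem_closedBall_zero_iff.1 (closure_minimal e1 Metric.isClosed_closedBall hx.1)
  by_contra hn
  exact E5 x hx ⟨show -(η * ε) < F' x by linarith [mul_pos η0 h3],
    mem_ball_zero_iff.2 (by linarith)⟩

theorem raj_fun {K : Set ℂ} (hR : Raj K) (m : ℕ) (hη : 0 < η) : ∃ D : ℝ, ∀ N : Finset ℂ,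
    N.card ≤ m → (∀ c ∈ N, ∀ c' ∈ N, c ≠ c' → D ≤ ‖c - c'‖) →
    ∃ (σ : Type) (_ : Fintype σ) (κ : σ → ℂ) (w : σ → ℝ), (∀ i, κ i ∈ K) ∧ (∀ i, 0 ≤ w i) ∧
      ∑ i, w i = 1 ∧ ∀ c ∈ N, ∀ c' ∈ N, c ≠ c' →
        ‖∑ i, w i * Complex.exp (Complex.I * dot (κ i) (c - c'))‖ ≤ η := by
  classical
  obtain ⟨D, hD⟩ := hR (m * m) η hη
  refine ⟨D, fun N h1 h2 => ?_⟩
  obtain ⟨v, v1, v2⟩ := hD N.offDiag.card (by
    rw [Finset.offDiag_card]
    exact (Nat.sub_le _ _).trans (Nat.mul_le_mul h1 h1))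
    (fun j => (N.offDiag.equivFin.symm j).1.1 - (N.offDiag.equivFin.symm j).1.2) fun j => by
      obtain ⟨a, b, c⟩ := Finset.mem_offDiag.1 (N.offDiag.equivFin.symm j).2
      exact h2 _ a _ b c
  obtain ⟨σ, _, w, z, w1, w2, w3, rfl⟩ := mem_convexHull_iff_exists_fintype.1 v1
  choose κ k1 k2 using w3
  refine ⟨σ, inferInstance, κ, w, k1, w1, w2, fun c hc c' hc' e => ?_⟩
  convert v2 (N.offDiag.equivFin ⟨(c, c'), Finset.mem_offDiag.2 ⟨hc, hc', e⟩⟩) using 2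
  simp [← k2]

theorem small (M : ℝ) {c : ℝ} (hc : 0 < c) : ∀ᶠ g in 𝓝[>] (0 : ℝ), M * g ≤ c :=
  ((show ContinuousAt (fun g : ℝ => M * g) 0 by fun_prop).eventually
    (ge_mem_nhds (by simpa))).filter_mono nhdsWithin_le_nhds

theorem phi {σ : Type} [Fintype σ] {κ : σ → ℂ} {w : σ → ℝ} (k1 : ∀ i, ‖κ i‖ = 1)
    (w1 : ∀ i, 0 ≤ w i) (w2 : ∑ i, w i = 1) (x y : ℂ) :
    ‖∑ i, w i * Complex.exp (Complex.I * dot (κ i) x)‖ ≤ 1 ∧
      ‖∑ i, w i * Complex.exp (Complex.I * dot (κ i) x) -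
        ∑ i, w i * Complex.exp (Complex.I * dot (κ i) y)‖ ≤ ‖x - y‖ := by
  constructor
  · refine (norm_sum_le _ _).trans (le_of_eq_of_le (Finset.sum_congr rfl fun i _ => ?_) w2.le)
    rw [norm_mul, Complex.norm_exp_I_mul_ofReal, Complex.norm_real, Real.norm_eq_abs,
      abs_of_nonneg (w1 i), mul_one]
  · rw [← Finset.sum_sub_distrib, ← one_mul ‖x - y‖, ← w2, Finset.sum_mul]
    refine (norm_sum_le _ _).trans (Finset.sum_le_sum fun i _ => ?_)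
    have e : dot (κ i) x = dot (κ i) y + dot (κ i) (x - y) := by rw [← A7.dot_add]; simp
    rw [e, Complex.ofReal_add, mul_add, Complex.exp_add, ← mul_sub, ← mul_sub_one, norm_mul,
      norm_mul, Complex.norm_exp_I_mul_ofReal, Complex.norm_real, Real.norm_eq_abs,
      abs_of_nonneg (w1 i), one_mul]
    refine mul_le_mul_of_nonneg_left (Real.norm_exp_I_mul_ofReal_sub_one_le.trans ?_) (w1 i)
    simpa [k1] using A7.abs_dot_le (κ i) (x - y)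

end A11b

open A11b in
theorem barrier_exists {ι : Type} [DecidableEq ι] {a : ι → ℝ} {k : ι → ℂ} {χ : ι → Bool}
    {K : Set ℂ} (h : Fam a k) (hd : Dense' a k χ K) (hK : K.Infinite) (hu : ∀ κ ∈ K, ‖κ‖ = 1)
    (hR : Raj K) (hL : LB a k)
    (hF : ∃ C₀ : ℕ, ∀ t, ∀ ε ∈ Icc (0 : ℝ) 1, FewComp (Wv a k t) ε C₀) :
    ∃ t, Barrier (Wv a k t) := by
  classical
  by_contra hB
  rw [not_exists] at hB
  have J := h.jet
  set A := 1 + ∑' i, a i
  have hA : 1 ≤ A := (J 0).one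
  obtain ⟨T₁, C₁, C1, P1⟩ := prob_one h hd hK hu
  obtain ⟨T₀, c, c0, ε₀, e0, P0⟩ := lb_prob h hL
  obtain ⟨C₀, hF⟩ := hF
  obtain ⟨Λ, hΛ⟩ : ∃ Λ : ℝ, Λ = 2000 * (C₀ + 1) := ⟨_, rfl⟩
  have Λ0 : 0 < Λ := by rw [hΛ]; positivity
  have c8 : 0 < c / (8 * Λ) := by positivity
  obtain ⟨d, ⟨d1, d2⟩, d0⟩ := (((small 1 one_pos).and (small (C₁ * (4 * 7622 * A)) c8)).and
    self_mem_nhdsWithin).exists
  obtain ⟨η, ⟨η1, η2⟩, η0⟩ := (((small 10 one_pos).and (small (2 * C₁ * A ^ 2 * 10) c8)).and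
    self_mem_nhdsWithin).exists
  replace d0 : 0 < d := d0
  replace η0 : 0 < η := η0
  obtain ⟨r, ⟨r1, r2⟩, r0⟩ := (((small (40 * A) d0).and (small 2 η0)).and
    self_mem_nhdsWithin).exists
  replace r0 : 0 < r := r0
  have r3 : 40 * r ≤ 1 := by nlinarith
  obtain ⟨κ', hκ⟩ : ∃ κ' : ℝ, κ' = 6 + 7168 * A / d := ⟨_, rfl⟩
  have k0 : 6 < κ' := by rw [hκ]; linarith [show 0 < 7168 * A / d by positivity]
  obtain ⟨m, hm⟩ := exists_nat_ge (max 1 (6 * (2 * C₁ * A ^ 2 * κ') / (c / 8)))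
  have m1 : (1 : ℝ) ≤ m := (le_max_left _ _).trans hm
  have m2 : 6 / m * (2 * C₁ * A ^ 2 * κ') ≤ c / 8 := by
    have := (le_max_right _ _).trans hm
    rw [div_le_iff₀ (by positivity)] at this
    rw [div_mul_eq_mul_div, div_le_iff₀ (by positivity)]
    linarith
  obtain ⟨D, hD⟩ := raj_fun hR m η0
  obtain ⟨T₂, C₂, C2, P2⟩ := prob_two h hd hK hu (r₁ := d / (4 * A)) (by positivity) (max 2 D)
  obtain ⟨T, t0, t1, t2⟩ : ∃ T : Finset ι, T ⊇ T₀ ∧ T ⊇ T₁ ∧ T ⊇ T₂ :=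
    ⟨T₀ ∪ T₁ ∪ T₂, fun _ => by simp +contextual, fun _ => by simp +contextual,
      fun _ => by simp +contextual⟩
  obtain ⟨ε₁, e1, P3⟩ := realise h hd T η0 (show 0 < 4 * Λ / c + 5 by positivity)
  obtain ⟨g, ⟨⟨⟨g1, g2, g3⟩, g4, g5, g6⟩, g7, g8⟩, g0⟩ := (((((small 1 e0).and ((small 1 e1).and
    (small 1 r0))).and ((small (64 * A) (pow_pos d0 2)).and ((small 64 (mul_pos d0 r0)).and
    (small (C₂ * κ' ^ 2) c8)))).and ((small κ' (show 0 < d * r ^ 2 / 100 by positivity)).and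
    (small κ' one_pos))).and self_mem_nhdsWithin).exists
  replace g0 : 0 < g := g0
  obtain ⟨ε, hε⟩ : ∃ ε : ℝ, ε = g ^ 2 / (448 * A) := ⟨_, rfl⟩
  have ε0 : 0 < ε := by rw [hε]; positivity
  have ε1 : 448 * A * ε = g ^ 2 := by rw [hε]; field_simp
  have ε2 : ε ≤ g := by nlinarith
  have ε3 : κ' * ε ≤ κ' * g := mul_le_mul_of_nonneg_left ε2 (by linarith)
  have ε4 : 6 * ε + 16 * g ^ 2 / d = κ' * ε := by rw [hκ, ← ε1]; ring
  have ε5 : ε ≤ 1 := by linarith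
  have ε6 : ε ≤ κ' * ε := by nlinarith
  obtain ⟨R, R1, R2⟩ : ∃ R : ℕ, 2 * Λ / (c * ε) < R ∧ R ≤ 2 * Λ / (c * ε) + 2 :=
    ⟨⌈2 * Λ / (c * ε)⌉₊ + 1, by push_cast; linarith [Nat.le_ceil (2 * Λ / (c * ε))], by
      push_cast; linarith [Nat.ceil_lt_add_one (show 0 ≤ 2 * Λ / (c * ε) by positivity)]⟩
  have R0 : (0 : ℝ) < R := lt_trans (by positivity) R1
  set t : ι → ℝ := fun i => if χ i then 0 else π / 2 with ht
  choose E E1 E2 E3 using fun j : ℤ × ℤ =>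
    P0 T t0 t (j.1 + 1 / 2 + (j.2 + 1 / 2) * Complex.I) ε ⟨ε0, by linarith⟩
  have crit : ∀ (j : ℤ × ℤ), ∀ τ ∈ Ioc (0 : ℝ) 1, unif T {ω | ∃ x ∈ cell j,
      Gr a k (mix T t ω) x = 0 ∧ |Wv a k (mix T t ω) x| ≤ τ}
      ≤ ENNReal.ofReal (2 * C₁ * A ^ 2 * τ) := fun j τ hτ => by
    have s1 : √τ ≤ 1 := sqrt_le_one.2 hτ.2
    refine le_trans (measure_mono ?_) ((P1 T t1 t j τ √τ A hτ.1.le (sqrt_pos.2 hτ.1) s1
      (s1.trans hA)).trans (le_of_eq ?_))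
    · rintro ω ⟨x, x1, x2, x3⟩
      exact ⟨x, x1, x3, by rw [x2, norm_zero]; exact sqrt_nonneg _, (J _).bH x⟩
    · rw [sq_sqrt hτ.1.le]; congr 1; ring
  have := unif_prob T
  obtain ⟨ω, 𝔈, 𝔅, ℭ, a1, a2, a3, a4⟩ := exists_of_mean (unif T)
    (Finset.Ico (0 : ℤ) R ×ˢ Finset.Ico (0 : ℤ) R) E
    (fun j => {ω | ∃ x ∈ cell j, Bad (Wv a k (mix T t ω)) (Gr a k (mix T t ω))
      (Hs a k (mix T t ω)) (κ' * ε) g d (d / (4 * A)) (max 2 D) (10 * η * ε) x})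
    (fun j => {ω | ∃ x ∈ cell j, Gr a k (mix T t ω) x = 0 ∧ |Wv a k (mix T t ω) x| ≤ κ' * ε})
    (e := c * ε) (b := 3 * (c / (8 * Λ) * ε)) (c := 2 * C₁ * A ^ 2 * (κ' * ε)) (x := Λ)
    (y := 6 / m) (u := Λ * R) (by positivity) (by positivity) Λ0.le (by positivity)
    (fun j _ => ⟨E1 j, E2 j⟩) (fun j _ => by
      have b1 := P1 T t1 t j (κ' * ε) g (2 * d) (by positivity) g0 (by linarith) (by nlinarith)
      have b2 := P2 T t2 t j (κ' * ε) ⟨by positivity, by linarith⟩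
      have b3 := crit j (10 * η * ε) ⟨by positivity, by nlinarith⟩
      refine le_trans (measure_mono ?_) ((measure_union_le _ _).trans (add_le_add b1
        ((measure_union_le _ _).trans (add_le_add b2 b3)))) |>.trans ?_
      · rintro ω ⟨x, x1, x2 | x2 | x2⟩
        · exact Or.inl ⟨x, x1, x2⟩
        · exact Or.inr (Or.inl ⟨x, x1, x2⟩)
        · exact Or.inr (Or.inr ⟨x, x1, x2.1, abs_le.2 ⟨x2.2.1, x2.2.2.trans (by positivity)⟩⟩)
      rw [← ENNReal.ofReal_add (by positivity) (by positivity),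
        ← ENNReal.ofReal_add (by positivity) (by positivity)]
      refine ENNReal.ofReal_le_ofReal ?_
      have u1 : C₁ * (κ' * ε + g ^ 2) * (2 * d) ^ 2 ≤ C₁ * (4 * 7622 * A) * d * ε := by
        have : (κ' + 448 * A) * d ≤ 7622 * A := by
          rw [hκ, add_mul, add_mul, div_mul_cancel₀ _ d0.ne']; nlinarith
        calc _ = (κ' + 448 * A) * d * (4 * C₁ * d * ε) := by rw [← ε1]; ring
          _ ≤ 7622 * A * (4 * C₁ * d * ε) := by gcongr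
          _ = _ := by ring
      have u2 : C₂ * (κ' * ε) ^ 2 ≤ C₂ * κ' ^ 2 * g * ε := by
        calc _ = C₂ * κ' ^ 2 * ε * ε := by ring
          _ ≤ _ := by gcongr
      nlinarith [mul_le_mul_of_nonneg_right d2 ε0.le, mul_le_mul_of_nonneg_right η2 ε0.le,
        mul_le_mul_of_nonneg_right g6 ε0.le])
    (fun j _ => crit j _ ⟨by positivity, by linarith⟩) (by
      have e2 : Λ * (3 * (c / (8 * Λ) * ε)) = 3 / 8 * c * ε := by field_simp
      have e3 := mul_le_mul_of_nonneg_right m2 ε0.le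
      rw [div_lt_iff₀ (by positivity)] at R1
      rw [Finset.card_product, Int.card_Ico, sub_zero, Int.toNat_natCast, e2]
      push_cast
      have e4 : 3 / 8 * c * ε + 6 / m * (2 * C₁ * A ^ 2 * (κ' * ε)) ≤ c * ε / 2 := by nlinarith
      nlinarith [mul_le_mul_of_nonneg_left e4 (mul_pos R0 R0).le, mul_lt_mul_of_pos_left R1 R0])
  obtain ⟨x₁, b1, b2, b3, N, b4, b5, b6, b7⟩ := (J (mix T t ω)).select (τ := 10 * η * ε) r0 r3 r1
    (ε3.trans g7) ε0 ε6 g0.le (le_max_left 2 D) (m := m) (R := R) (by exact_mod_cast m1)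
    (hF _ ε ⟨ε0.le, ε5⟩) (by
      convert hB fun i => mix T t ω i + π using 2
      exact funext fun x => (Wv_neg _ x).symm) 𝔈 𝔅 ℭ
    (fun j hj => ⟨(a1 j hj).1, E3 j ω (a1 j hj).2⟩) a2 a3 (by rwa [← hΛ])
  obtain ⟨σ, _, κ, w, k1, w1, w2, w3⟩ := hD N b4 fun c hc c' hc' e => (le_max_right 2 D).trans
    (sep (J _) r0 r3 r1 (ε3.trans g7) ε6 b3 ((b5 c).1 hc).1 ((b5 c).1 hc).2 ((b5 c').1 hc').1 e)
  set Q := N.filter fun c => 0 < Wv a k (mix T t ω) c ∧ Wv a k (mix T t ω) c ≤ ε with hQ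
  obtain ⟨t', ht'⟩ := P3 ε ⟨ε0, by linarith⟩ (mix T t ω) (fun i hi => by simp [mix, hi, ht])
    (Q × σ) (fun j => κ j.2)
    (fun j => -(2 * ε * w j.2 : ℝ) * Complex.exp (Complex.I * dot (κ j.2) (-j.1)))
    (fun j => k1 _) (by
      have : ∀ j : Q × σ, ‖-((2 * ε * w j.2 : ℝ) : ℂ) *
          Complex.exp (Complex.I * dot (κ j.2) (-j.1))‖ = 2 * ε * w j.2 := fun j => by
        rw [norm_mul, norm_neg, Complex.norm_exp_I_mul_ofReal, Complex.norm_real, Real.norm_eq_abs,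
          abs_of_nonneg (by have := w1 j.2; positivity), mul_one]
      simp only [this, Fintype.sum_prod_type, ← Finset.mul_sum, w2, Finset.sum_const,
        Finset.card_univ, Fintype.card_coe, nsmul_eq_mul]
      have : (Q.card : ℝ) ≤ 2 := by exact_mod_cast b7
      nlinarith)
  refine hB t' (close (J _) (J t').cont.1 r0 r3 r1 (ε3.trans g7) ε0 ε4.le ε1.le g0 (by linarith)
    g4 g5 η0 (by linarith) (by linarith) b1 b2 b3 b5 (fun c => Finset.mem_filter) b6 b7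
    (Φ := fun x => ∑ i, w i * Complex.exp (Complex.I * dot (κ i) x))
    (by simp [dot, ← Complex.ofReal_sum, w2]) (fun x => (phi (fun i => hu _ (k1 i)) w1 w2 x x).1)
    (fun x y => (phi (fun i => hu _ (k1 i)) w1 w2 x y).2) w3 fun x hx => ?_)
  convert ht' x (hx.trans ?_) using 2
  · rw [sub_eq_add_neg (_ - _), Fintype.sum_prod_type, Complex.re_sum, ← Finset.sum_neg_distrib,
      Finset.mul_sum, ← Finset.sum_coe_sort]
    refine congrArg _ (Finset.sum_congr rfl fun c _ => ?_)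
    rw [← Complex.neg_re, ← Complex.re_ofReal_mul, ← Finset.sum_neg_distrib, Finset.mul_sum]
    refine congrArg _ (Finset.sum_congr rfl fun i _ => ?_)
    rw [sub_eq_neg_add, A7.dot_add, Complex.ofReal_add, mul_add, Complex.exp_add]
    push_cast
    ring
  · have e2 : 2 * (2 * Λ / (c * ε)) = 4 * Λ / c / ε := by field_simp; ring
    have e3 : 5 ≤ 5 / ε := by rw [le_div_iff₀ ε0]; linarith
    rw [add_div]
    linarith

end Pool.Agent.Lib.MP_e1e19a_an
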