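import Pool.Agent.Lib.MP_e1e19a_an.N.A6
import Pool.Agent.Lib.MP_e1e19a_an.N.A11b

/-!
Rotation to generic axes.
-/

namespace Pool.Agent.Lib.MP_e1e19a_an

open Real MeasureTheory Set
open scoped MatrixGroups ComplexConjugate UpperHalfPlane

namespace A11c

lemma dot_rot (e κ x : ℂ) : dot (conj e * κ) x = dot κ (e * x) := by
  simp only [dot, map_mul, Complex.conj_conj]
  congr 1
  ring

lemma dot_mul (v e f : ℂ) : dot v (e * f) = dot (v * conj f) e := by
  simp only [dot, map_mul, Complex.conj_conj]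
  congr 1
  ring

lemma dot_sub (v w x : ℂ) : dot (v - w) x = dot v x - dot w x := by
  simp only [dot, map_sub, sub_mul, Complex.sub_re]

lemma dot_add (v w x : ℂ) : dot (v + w) x = dot v x + dot w x := by
  simp only [dot, map_add, add_mul, Complex.add_re]

lemma zeros_countable {v : ℂ} (hv : v ≠ 0) :
    {θ : ℝ | dot v (Complex.exp (θ * Complex.I)) = 0}.Countable := by
  refine (countable_range fun n : ℤ => v.arg + (2 * n + 1) * π / 2).mono fun θ hθ => ?_
  have e : dot v (Complex.exp (θ * Complex.I)) = ‖v‖ * cos (θ - v.arg) := by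
    have h1 := Complex.norm_mul_cos_arg v
    have h2 := Complex.norm_mul_sin_arg v
    simp only [dot, Complex.mul_re, Complex.conj_re, Complex.conj_im,
      Complex.exp_ofReal_mul_I_re, Complex.exp_ofReal_mul_I_im, cos_sub]
    linear_combination (-cos θ) * h1 - sin θ * h2
  rw [mem_ofPred_eq, e, mul_eq_zero, norm_eq_zero] at hθ
  obtain ⟨n, hn⟩ := Real.cos_eq_zero_iff.1 (hθ.resolve_left hv)
  exact ⟨n, by simp only; linarith⟩

lemma exists_unit {σ : Type} [Countable σ] (v : σ → ℂ) (hv : ∀ j, v j ≠ 0) :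
    ∃ e : ℂ, ‖e‖ = 1 ∧ ∀ j, dot (v j) e ≠ 0 := by
  have hc := countable_iUnion fun j => zeros_countable (hv j)
  have hne : (⋃ j, {θ : ℝ | dot (v j) (Complex.exp (θ * Complex.I)) = 0}) ≠ univ := fun h =>
    Cardinal.not_countable_real (h ▸ hc)
  obtain ⟨θ, hθ⟩ := (ne_univ_iff_exists_notMem _).1 hne
  refine ⟨Complex.exp (θ * Complex.I), Complex.norm_exp_ofReal_mul_I θ, fun j hj => hθ ?_⟩
  exact mem_iUnion.2 ⟨j, hj⟩

end A11c

open A11c in
theorem bp_sum {ι : Type} [DecidableEq ι] [Countable ι] {a : ι → ℝ} {k : ι → ℂ} {χ : ι → Bool}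
    {K : Set ℂ} (h : Fam a k) (hd : Dense' a k χ K) (hK : K.Infinite) (hu : ∀ κ ∈ K, ‖κ‖ = 1)
    (hR : Raj K) (hL : LB a k) (o : ι) (ho : ∀ i, i ≠ o → k i ≠ k o ∧ k i ≠ -k o) :
    BP a k := by
  have k0 : k o ≠ 0 := by
    intro h0
    have := h.unit o
    rw [h0, norm_zero] at this
    exact zero_ne_one this
  let u : Option ({i // i ≠ o} × Bool) → ℂ := fun j => match j with
    | none => k o
    | some (i, true) => k i - k o
    | some (i, false) => k i + k o
  have hu0 : ∀ j, u j ≠ 0 := by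
    rintro (_ | ⟨i, _ | _⟩)
    · exact k0
    · exact fun h0 => (ho i i.2).2 (eq_neg_of_add_eq_zero_left h0)
    · exact sub_ne_zero.2 (ho i i.2).1
  obtain ⟨e, he, hv⟩ := exists_unit
    (fun p : Option ({i // i ≠ o} × Bool) × Bool => u p.1 * conj (if p.2 then 1 else Complex.I))
    (by
      rintro ⟨j, b⟩
      refine mul_ne_zero (hu0 j) ?_
      cases b <;> simp)
  have hv' : ∀ j, ∀ f ∈ ({1, Complex.I} : Set ℂ), dot (u j) (e * f) ≠ 0 := by
    rintro j f (rfl | rfl)
    · rw [dot_mul]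
      exact hv (j, true)
    · rw [dot_mul]
      exact hv (j, false)
  have hc : ‖conj e‖ = 1 := by rw [Complex.norm_conj, he]
  have ee : e * conj e = 1 := by
    rw [Complex.mul_conj, Complex.normSq_eq_norm_sq, he]
    simp
  have c0 : conj e ≠ 0 := by
    intro h0
    rw [h0, norm_zero] at hc
    exact zero_ne_one hc
  set k' : ι → ℂ := fun i => conj e * k i with hk'
  have hW : ∀ t x, Wv a k' t x = Wv a k t (e * x) := fun t x => by
    simp only [Wv, hk', dot_rot]
  have hG : ∀ t x, Gr a k' t x = conj e * Gr a k t (e * x) := fun t x => by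
    simp only [Gr, hk', dot_rot]
    rw [← tsum_mul_left]
    exact tsum_congr fun i => by ring
  have h' : Fam a k' := ⟨h.pos, h.sum, fun i => by rw [hk']; simp only [norm_mul, hc, h.unit, one_mul]⟩
  have hd' : Dense' a k' χ ((fun κ => conj e * κ) '' K) := by
    obtain ⟨c, hc0, C, hC0, H⟩ := hd
    refine ⟨c, hc0, C, hC0, ?_⟩
    rintro τ hτ _ ⟨κ, hκ, rfl⟩ b
    obtain ⟨i, h1, h2, h3, h4⟩ := H τ hτ κ hκ b
    refine ⟨i, h1, h2, h3, ?_⟩
    simp only [hk']
    rw [← mul_sub, norm_mul, hc, one_mul]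
    exact h4
  have hK' : ((fun κ => conj e * κ) '' K).Infinite :=
    hK.image (mul_right_injective₀ c0).injOn
  have hu' : ∀ κ ∈ (fun κ => conj e * κ) '' K, ‖κ‖ = 1 := by
    rintro _ ⟨κ, hκ, rfl⟩
    simp only [norm_mul, hc, hu κ hκ, one_mul]
  have hR' : Raj ((fun κ => conj e * κ) '' K) := by
    intro m η hη
    obtain ⟨D, H⟩ := hR m η hη
    refine ⟨D, fun n hn x hx => ?_⟩
    obtain ⟨v, hv1, hv2⟩ := H n hn (fun j => e * x j) fun j => by
      rw [norm_mul, he, one_mul]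
      exact hx j
    refine ⟨v, ?_, hv2⟩
    rw [image_image]
    simpa only [dot_rot] using hv1
  have hL' : LB a k' := by
    obtain ⟨T, g, t₀, θ₀, θ₁, κ, v₀, h1, h2, h3, h4, h5, h6, H⟩ := hL
    refine ⟨T, g, t₀, θ₀, θ₁, κ, v₀, h1, h2, h3, h4, h5, h6, fun t ht => ?_⟩
    obtain ⟨v, hv1, hv2⟩ := H t ht
    refine ⟨v, fun θ hθ => ?_, hv2⟩
    obtain ⟨c, c1, c2, c3⟩ := hv1 θ hθ
    have ec : e * (conj e * c) = c := by rw [← mul_assoc, ee, one_mul]
    refine ⟨conj e * c, by rw [norm_mul, hc, one_mul]; exact c1, ?_, ?_⟩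
    · rw [hG, ec, c2, mul_zero]
    · rw [hW, ec, c3]
  have hF := h'.fewComp o fun f hf => by
    simp only [hk', dot_rot]
    refine ⟨hv' none f hf, fun i hi => ⟨fun h0 => hv' (some (⟨i, hi⟩, true)) f hf ?_,
      fun h0 => hv' (some (⟨i, hi⟩, false)) f hf ?_⟩⟩
    · simp only [u]
      rw [dot_sub, h0, sub_self]
    · simp only [u]
      rw [dot_add, h0, neg_add_cancel]
  obtain ⟨t, D, x₀, d1, d2, d3, d4, d5⟩ := barrier_exists h' hd' hK' hu' hR' hL' hF
  refine h.bp (t := t) ⟨(Homeomorph.mulLeft₀ (conj e) c0) ⁻¹' D, e * x₀,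
    d1.preimage (Homeomorph.continuous _), ?_, ?_, ?_, fun x hx => ?_⟩
  · obtain ⟨R, hR0⟩ := d2.exists_norm_le
    refine (Metric.isBounded_closedBall (x := (0 : ℂ)) (r := R)).subset fun y hy => ?_
    have := hR0 _ hy
    rw [Homeomorph.coe_mulLeft₀, norm_mul, hc, one_mul] at this
    exact mem_closedBall_zero_iff.2 this
  · show conj e * (e * x₀) ∈ D
    rw [← mul_assoc, mul_comm (conj e), ee, one_mul]
    exact d3
  · rw [← hW]
    exact d4
  · rw [← Homeomorph.preimage_frontier] at hx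
    have := d5 _ hx
    rw [hW, Homeomorph.coe_mulLeft₀, ← mul_assoc, ee, one_mul] at this
    exact this

end Pool.Agent.Lib.MP_e1e19a_an
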