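import Pool.Agent.Lib.MP_e1e19a_an.N.Core

/-!
Nondegeneracy of the jets of a random wave.
-/

namespace Pool.Agent.Lib.MP_e1e19a_an

open Real MeasureTheory Set
open scoped MatrixGroups ComplexConjugate UpperHalfPlane

variable {ι : Type} {a : ι → ℝ} {k : ι → ℂ} {χ : ι → Bool} {K : Set ℂ}

namespace A2

open Filter Topology Polynomial

theorem infinite_near (h : Fam a k) (hd : Dense' a k χ K) {κ : ℂ} (hκ : κ ∈ K) {β : ℝ}
    (hβ : 0 < β) : {i | ‖k i - κ‖ ≤ β}.Infinite := by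
  obtain ⟨c, -, C, hC, hd⟩ := hd
  intro hf
  have h1 : ∀ᶠ τ in 𝓝[>] (0 : ℝ), ∀ i ∈ {i | ‖k i - κ‖ ≤ β}, C * √τ < a i :=
    (eventually_all_finite hf).2 fun i _ => nhdsWithin_le_nhds
      ((by fun_prop : Continuous fun τ : ℝ => C * √τ).continuousAt.eventually_lt_const
        (by simpa using h.pos i))
  have h2 : ∀ᶠ τ in 𝓝[>] (0 : ℝ), C * τ < β := nhdsWithin_le_nhds
    ((by fun_prop : Continuous fun τ : ℝ => C * τ).continuousAt.eventually_lt_const
      (by simpa using hβ))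
  obtain ⟨τ, ⟨h3, h4⟩, h5⟩ := ((h1.and h2).and (Ioc_mem_nhdsGT one_pos)).exists
  obtain ⟨i, -, -, h6, h7⟩ := hd τ h5 κ hκ true
  exact (h3 i (h7.trans h4.le)).not_ge h6

theorem generic (h : Fam a k) (hd : Dense' a k χ K) {P : Type} [TopologicalSpace P] {S : Set P}
    (hS : IsCompact S) (ψ : P → ℂ → ℂ) (hψ : Continuous fun q : P × ℂ => ψ q.1 q.2)
    (hne : ∀ p ∈ S, ∃ κ ∈ K, ψ p κ ≠ 0) (N : ℕ) : ∃ T : Finset ι, ∃ c₁ > 0, ∀ p ∈ S,
      N ≤ (T.filter fun i => c₁ ≤ a i * ‖ψ p (k i)‖).card := by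
  classical
  refine hS.induction_on (p := fun s => ∃ T : Finset ι, ∃ c₁ > 0, ∀ p ∈ s,
    N ≤ (T.filter fun i => c₁ ≤ a i * ‖ψ p (k i)‖).card) ⟨∅, 1, one_pos, by simp⟩ ?_ ?_ ?_
  · rintro s t hst ⟨T, c, hc, h1⟩
    exact ⟨T, c, hc, fun p hp => h1 p (hst hp)⟩
  · rintro s t ⟨T, c, hc, h1⟩ ⟨T', c', hc', h2⟩
    refine ⟨T ∪ T', min c c', lt_min hc hc', fun p hp => ?_⟩
    rcases hp with hp | hp
    · refine (h1 p hp).trans (Finset.card_le_card fun i hi => ?_)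
      rw [Finset.mem_filter] at hi ⊢
      exact ⟨Finset.mem_union_left _ hi.1, (min_le_left _ _).trans hi.2⟩
    · refine (h2 p hp).trans (Finset.card_le_card fun i hi => ?_)
      rw [Finset.mem_filter] at hi ⊢
      exact ⟨Finset.mem_union_right _ hi.1, (min_le_right _ _).trans hi.2⟩
  · intro p hp
    obtain ⟨κ, hκ, h0⟩ := hne p hp
    have hm := half_pos (norm_pos_iff.2 h0)
    have h1 : ∀ᶠ q : P × ℂ in 𝓝 (p, κ), ‖ψ p κ‖ / 2 < ‖ψ q.1 q.2‖ :=
      hψ.norm.continuousAt.eventually_const_lt (half_lt_self (norm_pos_iff.2 h0))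
    rw [nhds_prod_eq] at h1
    obtain ⟨U, hU, V, hV, h2⟩ := eventually_prod_iff.1 h1
    obtain ⟨β, hβ, h3⟩ := Metric.nhds_basis_closedBall.eventually_iff.1 hV
    obtain ⟨T, hT, hN⟩ := (infinite_near h hd hκ hβ).exists_subset_card_eq N
    have h4 : ∀ᶠ c in 𝓝[>] (0 : ℝ), ∀ i ∈ T, c < a i * (‖ψ p κ‖ / 2) :=
      (eventually_all_finset T).2 fun i _ =>
        nhdsWithin_le_nhds (eventually_lt_nhds (mul_pos (h.pos i) hm))
    obtain ⟨c, h5, h6⟩ := (h4.and self_mem_nhdsWithin).exists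
    refine ⟨{q | U q}, nhdsWithin_le_nhds hU, T, c, h6, fun q hq => ?_⟩
    rw [Finset.filter_true_of_mem fun i hi => (h5 i hi).le.trans (mul_le_mul_of_nonneg_left
      (h2 hq (h3 (mem_closedBall_iff_norm.2 (hT hi)))).le (h.pos i).le), hN]

theorem re_im {z : ℂ} (hz : ‖z‖ = 1) :
    z ≠ 0 ∧ conj z = z⁻¹ ∧ (z.re : ℂ) = (z + z⁻¹) / 2 ∧ (z.im : ℂ) = -Complex.I * (z - z⁻¹) / 2 := by
  have h1 : conj z = z⁻¹ := (Complex.inv_eq_conj hz).symm
  refine ⟨norm_ne_zero_iff.1 (hz ▸ one_ne_zero), h1, ?_, ?_⟩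
  · rw [← h1, Complex.re_eq_add_conj]
  · rw [← h1, Complex.im_eq_sub_conj]
    field_simp
    simp

theorem lin_zero {s t : ℝ} (h : (s - Complex.I * t) / 2 = 0) : s = 0 ∧ t = 0 := by
  simpa [Complex.ext_iff] using h

theorem ne_one (hK : K.Infinite) (hu : ∀ κ ∈ K, ‖κ‖ = 1) {u : Fin 5 → ℝ} (h1 : ‖u‖ = 1) :
    ∃ κ ∈ K, u 0 + Complex.I * (u 1 * κ.re + u 2 * κ.im) +
      (u 3 * (κ ^ 2).re + u 4 * (κ ^ 2).im) ≠ 0 := by
  by_contra h
  push Not at h
  have h2 : (C ((u 3 - Complex.I * u 4) / 2) * X ^ 4 +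
      C (Complex.I * ((u 1 - Complex.I * u 2) / 2)) * X ^ 3 + C (u 0 : ℂ) * X ^ 2 +
      C (Complex.I * ((u 1 + Complex.I * u 2) / 2)) * X ^ 1 +
      C ((u 3 + Complex.I * u 4) / 2) * X ^ 0 : ℂ[X]) = 0 :=
    eq_zero_of_infinite_isRoot _ (hK.mono fun κ hκ => by
      obtain ⟨h0, -, h3, h4⟩ := re_im (hu κ hκ)
      obtain ⟨-, -, h5, h6⟩ := re_im (z := κ ^ 2) (by rw [norm_pow, hu κ hκ, one_pow])
      have h7 := congrArg (κ ^ 2 * ·) (h κ hκ)
      simp only [h3, h4, h5, h6, mul_zero] at h7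
      simp only [mem_ofPred_eq, IsRoot.def, eval_add, eval_mul, eval_C, eval_pow, eval_X]
      rw [← h7]
      field_simp
      ring)
  have h3 := fun n => congrArg (fun p => coeff p n) h2
  simp only [coeff_add, coeff_C_mul_X_pow, coeff_zero] at h3
  have h4 := lin_zero (by simpa using h3 4 : (u 3 - Complex.I * u 4) / 2 = 0)
  have h5 := lin_zero (by simpa using h3 3 : (u 1 - Complex.I * u 2) / 2 = 0)
  have h6 : u 0 = 0 := by simpa using h3 2
  have h7 : u = 0 := funext fun i => by fin_cases i <;> simp [h4.1, h4.2, h5.1, h5.2, h6]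
  simp [h7] at h1

/-- the polynomial attached to an affine form -/
noncomputable def quad (r s t : ℝ) : ℂ[X] := C (Complex.I * ((s - Complex.I * t) / 2)) * X ^ 2 +
  C (r : ℂ) * X ^ 1 + C (Complex.I * ((s + Complex.I * t) / 2)) * X ^ 0

theorem quad_zero {r s t : ℝ} (h : quad r s t = 0) : r = 0 ∧ s = 0 ∧ t = 0 := by
  have h3 := fun n => congrArg (fun p => coeff p n) h
  simp only [quad, coeff_add, coeff_C_mul_X_pow, coeff_zero] at h3
  exact ⟨by simpa using h3 1, lin_zero (by simpa using h3 2)⟩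

theorem eval_quad (r s t : ℝ) {z : ℂ} (hz : ‖z‖ = 1) :
    (quad r s t).eval z = z * (r + Complex.I * (s * z.re + t * z.im)) := by
  obtain ⟨h0, -, h3, h4⟩ := re_im hz
  simp only [quad, eval_add, eval_mul, eval_C, eval_pow, eval_X, h3, h4]
  field_simp
  ring

theorem ne_two (hK : K.Infinite) (hu : ∀ κ ∈ K, ‖κ‖ = 1) {u : Fin 6 → ℝ} (h1 : ‖u‖ = 1) {x : ℂ}
    (hx : x ≠ 0) : ∃ κ ∈ K, u 0 + Complex.I * (u 1 * κ.re + u 2 * κ.im) +
      (u 3 + Complex.I * (u 4 * κ.re + u 5 * κ.im)) * Complex.exp (Complex.I * dot κ x) ≠ 0 := by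
  by_contra h
  push Not at h
  obtain ⟨z₀, hz₀, hacc⟩ := hK.exists_accPt_of_subset_isCompact (isCompact_sphere (0 : ℂ) 1)
    fun κ hκ => mem_sphere_zero_iff_norm.2 (hu κ hκ)
  have h2 : AnalyticOnNhd ℂ (fun z => (quad (u 0) (u 1) (u 2)).eval z +
      (quad (u 3) (u 4) (u 5)).eval z * Complex.exp (Complex.I * ((x / z + z * conj x) / 2)))
      {0}ᶜ := DifferentiableOn.analyticOnNhd (fun z hz => DifferentiableAt.differentiableWithinAt (by
        have : z ≠ 0 := hz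
        fun_prop (disch := assumption))) isOpen_compl_singleton
  have h3 := h2.eqOn_zero_of_preconnected_of_frequently_eq_zero
    (isConnected_compl_singleton_of_one_lt_rank (by simp) 0).isPreconnected
    (re_im (mem_sphere_zero_iff_norm.1 hz₀)).1
    ((accPt_iff_frequently_nhdsNE.1 hacc).mono fun κ hκ => by
      obtain ⟨h0, h4, -⟩ := re_im (hu κ hκ)
      have h5 : (dot κ x : ℂ) = (x / κ + κ * conj x) / 2 := by
        rw [dot, Complex.re_eq_add_conj, map_mul, Complex.conj_conj, h4, div_eq_inv_mul x]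
      rw [eval_quad _ _ _ (hu κ hκ), eval_quad _ _ _ (hu κ hκ), ← h5, mul_assoc, ← mul_add, h κ hκ,
        mul_zero])
  have hx' : conj x ≠ 0 := (_root_.map_ne_zero _).2 hx
  have h4 : ∀ w : ℂ, ∃ z : ℂ, z ≠ 0 ∧ (x / z + z * conj x) / 2 = w := fun w => by
    obtain ⟨s, hs⟩ := IsAlgClosed.exists_pow_nat_eq (w ^ 2 - x * conj x) two_pos
    have h5 : w + s ≠ 0 := fun h5 => mul_ne_zero hx hx' (by
      linear_combination hs + (w - s) * h5)
    refine ⟨(w + s) / conj x, div_ne_zero h5 hx', ?_⟩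
    field_simp
    linear_combination hs
  choose z hz0 hz using h4
  have h5 : ∀ w : ℂ, quad (u 0) (u 1) (u 2) + quad (u 3) (u 4) (u 5) *
      C (Complex.exp (Complex.I * w)) = 0 := fun w =>
    eq_zero_of_infinite_isRoot _ (infinite_of_injective_forall_mem
      (f := fun n : ℕ => z (w + n * (2 * π))) (fun n m hnm => by
        have h6 := hz (w + n * (2 * π))
        rw [show z (w + n * (2 * π)) = _ from hnm, hz] at h6
        simpa [eq_comm] using h6) fun n => by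
      have h6 := h3 (hz0 (w + n * (2 * π)))
      have h7 : Complex.exp (Complex.I * (w + n * (2 * π))) = Complex.exp (Complex.I * w) := by
        rw [mul_add, Complex.exp_add, mul_comm Complex.I (n * _), mul_assoc,
          Complex.exp_nat_mul_two_pi_mul_I, mul_one]
      simpa only [hz, h7, mem_ofPred_eq, IsRoot.def, eval_add, eval_mul, eval_C, Pi.zero_apply]
        using h6)
  have h6 := h5 0
  have h7 := h5 π
  rw [mul_zero, Complex.exp_zero, map_one] at h6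
  rw [mul_comm Complex.I, Complex.exp_pi_mul_I, map_neg, map_one] at h7
  have h8 : quad (u 0) (u 1) (u 2) = 0 :=
    mul_left_cancel₀ (two_ne_zero (α := ℂ[X])) (by linear_combination h6 + h7)
  have h9 := quad_zero (by linear_combination h6 - h8 : quad (u 3) (u 4) (u 5) = 0)
  have h10 := quad_zero h8
  have h11 : u = 0 := funext fun i => by
    fin_cases i <;> simp [h9.1, h9.2.1, h9.2.2, h10.1, h10.2.1, h10.2.2]
  simp [h11] at h1

end A2

theorem nondeg_one (h : Fam a k) (hd : Dense' a k χ K) (hK : K.Infinite) (hu : ∀ κ ∈ K, ‖κ‖ = 1)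
    (N : ℕ) : ∃ T : Finset ι, ∃ c₁ > 0, ∀ u : Fin 5 → ℝ, ‖u‖ = 1 →
      N ≤ (T.filter fun i => c₁ ≤ a i * ‖u 0 + Complex.I * (u 1 * (k i).re + u 2 * (k i).im) +
        (u 3 * (k i ^ 2).re + u 4 * (k i ^ 2).im)‖).card := by
  obtain ⟨T, c, hc, h1⟩ := A2.generic h hd (isCompact_sphere (0 : Fin 5 → ℝ) 1)
    (fun u κ => u 0 + Complex.I * (u 1 * κ.re + u 2 * κ.im) +
      (u 3 * (κ ^ 2).re + u 4 * (κ ^ 2).im)) (by fun_prop)
    (fun u h1 => A2.ne_one hK hu (mem_sphere_zero_iff_norm.1 h1)) N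
  exact ⟨T, c, hc, fun u h2 => h1 u (mem_sphere_zero_iff_norm.2 h2)⟩

theorem nondeg_two (h : Fam a k) (hd : Dense' a k χ K) (hK : K.Infinite) (hu : ∀ κ ∈ K, ‖κ‖ = 1)
    (N : ℕ) {r₁ : ℝ} (hr : 0 < r₁) (D : ℝ) : ∃ T : Finset ι, ∃ c₁ > 0, ∀ u : Fin 6 → ℝ,
      ‖u‖ = 1 → ∀ x : ℂ, r₁ ≤ ‖x‖ → ‖x‖ ≤ D →
      N ≤ (T.filter fun i => c₁ ≤ a i * ‖u 0 + Complex.I * (u 1 * (k i).re + u 2 * (k i).im) +
        (u 3 + Complex.I * (u 4 * (k i).re + u 5 * (k i).im)) *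
          Complex.exp (Complex.I * dot (k i) x)‖).card := by
  obtain ⟨T, c, hc, h1⟩ := A2.generic h hd ((isCompact_sphere (0 : Fin 6 → ℝ) 1).prod
    ((isCompact_closedBall (0 : ℂ) D).inter_left (isClosed_le (continuous_const (y := r₁))
      continuous_norm)))
    (fun p κ => p.1 0 + Complex.I * (p.1 1 * κ.re + p.1 2 * κ.im) +
      (p.1 3 + Complex.I * (p.1 4 * κ.re + p.1 5 * κ.im)) * Complex.exp (Complex.I * dot κ p.2))
    (by unfold dot; fun_prop)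
    (fun p h1 => A2.ne_two hK hu (mem_sphere_zero_iff_norm.1 h1.1)
      (norm_pos_iff.1 (hr.trans_le h1.2.1))) N
  exact ⟨T, c, hc, fun u h2 x h3 h4 =>
    h1 (u, x) ⟨mem_sphere_zero_iff_norm.2 h2, h3, mem_closedBall_zero_iff.2 h4⟩⟩

end Pool.Agent.Lib.MP_e1e19a_an
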