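import Pool.Agent.Lib.MP_e1e19a_an.N.A1
import Pool.Agent.Lib.MP_e1e19a_an.N.A2

/-!
Bad points are rare.
-/

namespace Pool.Agent.Lib.MP_e1e19a_an

open Real MeasureTheory Set
open scoped MatrixGroups ComplexConjugate UpperHalfPlane

variable {ι : Type} [DecidableEq ι] {a : ι → ℝ} {k : ι → ℂ} {χ : ι → Bool} {K : Set ℂ}

namespace A3

lemma grid1 (α L δ : ℝ) (hδ : 0 < δ) (x : ℝ) (h1 : α ≤ x) (h2 : x ≤ α + L) :
    ∃ i ∈ Finset.range (⌊L / δ⌋₊ + 1), |α + i * δ - x| ≤ δ := by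
  have h0 : 0 ≤ (x - α) / δ := div_nonneg (by linarith) hδ.le
  refine ⟨⌊(x - α) / δ⌋₊, Finset.mem_range.2 (Nat.lt_succ_of_le (Nat.floor_le_floor ?_)), ?_⟩
  · exact div_le_div_of_nonneg_right (by linarith) hδ.le
  · have h3 := Nat.floor_le h0
    have h4 := Nat.lt_floor_add_one ((x - α) / δ)
    rw [le_div_iff₀ hδ] at h3
    rw [div_lt_iff₀ hδ] at h4
    rw [abs_le]
    constructor <;> nlinarith

lemma grid (α β L δ : ℝ) (hδ : 0 < δ) (hL : δ ≤ L) : ∃ P : Finset ℂ,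
    (P.card : ℝ) ≤ 4 * L ^ 2 / δ ^ 2 ∧ ∀ x : ℂ, α ≤ x.re → x.re ≤ α + L → β ≤ x.im →
      x.im ≤ β + L → ∃ p ∈ P, ‖p - x‖ ≤ 2 * δ := by
  classical
  set N := ⌊L / δ⌋₊ + 1 with hN
  refine ⟨(Finset.range N ×ˢ Finset.range N).image
    fun q => (⟨α + q.1 * δ, β + q.2 * δ⟩ : ℂ), ?_, ?_⟩
  · have h1 : (1 : ℝ) ≤ L / δ := (one_le_div hδ).2 hL
    have h2 : (N : ℝ) ≤ 2 * (L / δ) := by
      have := Nat.floor_le (zero_le_one.trans h1)
      rw [hN]
      push_cast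
      linarith
    have h3 : (((Finset.range N ×ˢ Finset.range N).image
        fun q => (⟨α + q.1 * δ, β + q.2 * δ⟩ : ℂ)).card : ℝ) ≤ (N : ℝ) ^ 2 := by
      have := Finset.card_image_le (s := Finset.range N ×ˢ Finset.range N)
        (f := fun q => (⟨α + q.1 * δ, β + q.2 * δ⟩ : ℂ))
      rw [Finset.card_product, Finset.card_range, ← sq] at this
      exact_mod_cast this
    refine h3.trans ((pow_le_pow_left₀ (Nat.cast_nonneg _) h2 2).trans (le_of_eq ?_))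
    ring
  · intro x h1 h2 h3 h4
    obtain ⟨i, hi, hi'⟩ := grid1 α L δ hδ x.re h1 h2
    obtain ⟨l, hl, hl'⟩ := grid1 β L δ hδ x.im h3 h4
    refine ⟨_, Finset.mem_image.2 ⟨(i, l), Finset.mem_product.2 ⟨hi, hl⟩, rfl⟩, ?_⟩
    refine (Complex.norm_le_abs_re_add_abs_im _).trans ?_
    simp only [Complex.sub_re, Complex.sub_im]
    linarith

lemma near {A : ℝ} {F : ℂ → ℝ} {G H : ℂ → ℂ} (hJ : Jet A F G H) {x p : ℂ} {κ δ : ℝ}
    (hδ : 0 < δ) (h1 : δ ≤ 1) (hp : ‖p - x‖ ≤ 2 * δ) (hF : |F x| ≤ κ) (hG : ‖G x‖ ≤ δ) :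
    |F p| ≤ 12 * A * (κ + δ ^ 2) ∧ ‖G p‖ ≤ 3 * A * δ := by
  have hA := hJ.one
  have hκ : 0 ≤ κ := (abs_nonneg _).trans hF
  constructor
  · have h2 := hJ.tF x (p - x)
    rw [add_sub_cancel] at h2
    set v := p - x
    have hv : 0 ≤ ‖v‖ := norm_nonneg v
    have h3 : |dot (G x) v| ≤ δ * (2 * δ) := by
      refine (Complex.abs_re_le_norm _).trans ?_
      rw [norm_mul, Complex.norm_conj]
      exact mul_le_mul hG hp hv hδ.le
    have hv2 : ‖v‖ ^ 2 ≤ 4 * δ ^ 2 := by nlinarith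
    have h4 : |F x * ‖v‖ ^ 2| ≤ A * (4 * δ ^ 2) := by
      rw [abs_mul, abs_of_nonneg (sq_nonneg ‖v‖)]
      exact mul_le_mul (hJ.bF x) hv2 (sq_nonneg _) (by linarith)
    have h5 : |(H x * conj v ^ 2).re| ≤ A * (4 * δ ^ 2) := by
      refine (Complex.abs_re_le_norm _).trans ?_
      rw [norm_mul, norm_pow, Complex.norm_conj]
      exact mul_le_mul (hJ.bH x) hv2 (sq_nonneg _) (by linarith)
    have h6 : A * ‖v‖ ^ 3 ≤ A * (8 * δ ^ 2) := by
      refine mul_le_mul_of_nonneg_left ?_ (by linarith)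
      have : ‖v‖ ≤ 2 := by linarith
      nlinarith
    have h7 : κ ≤ A * κ := le_mul_of_one_le_left hκ hA
    have h8 : δ ^ 2 ≤ A * δ ^ 2 := le_mul_of_one_le_left (sq_nonneg _) hA
    rw [abs_le] at h2 h3 h4 h5 hF ⊢
    constructor <;> nlinarith
  · have h2 := (hJ.lip p x).2
    have h3 : ‖G p‖ ≤ ‖G x‖ + ‖G p - G x‖ := norm_le_norm_add_norm_sub' _ _
    have h4 : A * ‖p - x‖ ≤ A * (2 * δ) := mul_le_mul_of_nonneg_left hp (by linarith)
    have h5 : δ ≤ A * δ := le_mul_of_one_le_left hδ.le hA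
    linarith

/-- the real part of a sum of oscillating terms -/
noncomputable def J (c : ι → ℂ) (t : ι → ℝ) : ℝ :=
  ∑' i, (c i * Complex.exp (Complex.I * t i)).re

omit [DecidableEq ι] in
lemma summ (h : Fam a k) {c : ι → ℂ} (hc : ∀ i, ‖c i‖ ≤ a i) (t : ι → ℝ) :
    Summable fun i => (c i * Complex.exp (Complex.I * t i)).re := by
  refine Summable.of_norm_bounded h.sum fun i => ?_
  refine (Complex.abs_re_le_norm _).trans ?_
  rw [norm_mul, Complex.norm_exp_I_mul_ofReal, mul_one]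
  exact hc i

lemma split (h : Fam a k) {c : ι → ℂ} (hc : ∀ i, ‖c i‖ ≤ a i) (T : Finset ι) (t : ι → ℝ) :
    ∃ v : ℝ, ∀ ω : T → ℝ,
      J c (mix T t ω) = v + ∑ g : T, (c g * Complex.exp (Complex.I * ω g)).re := by
  refine ⟨∑' i : ((T : Set ι)ᶜ : Set ι), (c i * Complex.exp (Complex.I * t i)).re, fun ω => ?_⟩
  rw [J, ← (summ h hc (mix T t ω)).sum_add_tsum_compl (s := T), add_comm]
  congr 1
  · refine tsum_congr fun i => ?_
    have : (i : ι) ∉ T := i.2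
    rw [mix, dif_neg this]
  · rw [← Finset.sum_coe_sort]
    refine Finset.sum_congr rfl fun g _ => ?_
    rw [mix, dif_pos g.2]

lemma boxJ (h : Fam a k) (n : ℕ) {c₁ : ℝ} (hc : 0 < c₁) : ∃ C > 0, ∀ (T₁ T : Finset ι), T₁ ⊆ T →
    ∀ (w : ι → Fin n → ℂ) (s : Fin n → ℝ) (t : ι → ℝ), (∀ g i, ‖w g i‖ ≤ a g) → (∀ i, 0 < s i) →
    (∀ u : Fin n → ℝ, ‖u‖ = 1 → 4 * n ≤ (T₁.filter fun g => c₁ ≤ ‖∑ i, u i * w g i‖).card) →
    unif T {ω | ∀ i, |J (fun g => w g i) (mix T t ω)| ≤ s i} ≤ ENNReal.ofReal (C * ∏ i, s i) := by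
  obtain ⟨C, hC, H⟩ := box_prob n hc
  refine ⟨C, hC, fun T₁ T hT w s t hw hs hn => ?_⟩
  choose v hv using fun i => split h (c := fun g => w g i) (fun g => hw g i) T t
  simp only [hv]
  refine H T (fun g => w g) v s hs fun u hu => (hn u hu).trans ?_
  refine le_trans (Finset.card_le_card ?_) (Finset.card_image_le (f := Subtype.val))
  intro g hg
  rw [Finset.mem_filter] at hg
  exact Finset.mem_image.2 ⟨⟨g, hT hg.1⟩, Finset.mem_filter.2 ⟨Finset.mem_univ _, hg.2⟩, rfl⟩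

/-- the complex amplitude of a wave at a point -/
noncomputable def am (a : ι → ℝ) (k : ι → ℂ) (x : ℂ) (g : ι) : ℂ :=
  a g * Complex.exp (Complex.I * dot (k g) x)

omit [DecidableEq ι] in
lemma norm_am (h : Fam a k) (x : ℂ) (g : ι) (m : ℂ) : ‖am a k x g * m‖ = a g * ‖m‖ := by
  rw [norm_mul, am, norm_mul, Complex.norm_exp_I_mul_ofReal, mul_one, Complex.norm_real,
    Real.norm_of_nonneg (h.pos g).le]

omit [DecidableEq ι] in
lemma norm_am_le (h : Fam a k) (x : ℂ) (g : ι) {m : ℂ} (hm : ‖m‖ ≤ 1) :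
    ‖am a k x g * m‖ ≤ a g := by
  rw [norm_am h]
  exact mul_le_of_le_one_right (h.pos g).le hm

omit [DecidableEq ι] in
lemma am_re (x : ℂ) (g : ι) (θ : ℝ) (m : ℂ) :
    (am a k x g * m * Complex.exp (Complex.I * θ)).re =
      a g * cos (dot (k g) x + θ) * m.re - a g * sin (dot (k g) x + θ) * m.im := by
  have : am a k x g * m * Complex.exp (Complex.I * θ) =
      a g * (Complex.exp (((dot (k g) x + θ : ℝ) : ℂ) * Complex.I) * m) := by
    rw [am, Complex.ofReal_add, add_mul, Complex.exp_add, mul_comm Complex.I, mul_comm Complex.I]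
    ring
  rw [this, Complex.re_ofReal_mul, Complex.mul_re, Complex.exp_ofReal_mul_I_re,
    Complex.exp_ofReal_mul_I_im]
  ring

omit [DecidableEq ι] in
lemma J_W (t : ι → ℝ) (x : ℂ) : J (fun g => am a k x g * 1) t = Wv a k t x := by
  refine tsum_congr fun g => ?_
  rw [am_re]
  simp

omit [DecidableEq ι] in
lemma summ_G (h : Fam a k) (t : ι → ℝ) (x : ℂ) :
    Summable fun i => ((-(a i * sin (dot (k i) x + t i)) : ℝ) : ℂ) * k i := by
  refine Summable.of_norm_bounded h.sum fun i => ?_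
  rw [norm_mul, h.unit, mul_one, Complex.norm_real, norm_neg, norm_mul,
    Real.norm_of_nonneg (h.pos i).le]
  exact mul_le_of_le_one_right (h.pos i).le (abs_sin_le_one _)

omit [DecidableEq ι] in
lemma summ_H (h : Fam a k) (t : ι → ℝ) (x : ℂ) :
    Summable fun i => ((a i * cos (dot (k i) x + t i) : ℝ) : ℂ) * k i ^ 2 := by
  refine Summable.of_norm_bounded h.sum fun i => ?_
  rw [norm_mul, norm_pow, h.unit, one_pow, mul_one, Complex.norm_real, norm_mul,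
    Real.norm_of_nonneg (h.pos i).le]
  exact mul_le_of_le_one_right (h.pos i).le (abs_cos_le_one _)

omit [DecidableEq ι] in
lemma J_Gre (h : Fam a k) (t : ι → ℝ) (x : ℂ) :
    J (fun g => am a k x g * (Complex.I * (k g).re)) t = (Gr a k t x).re := by
  rw [Gr, Complex.re_tsum (summ_G h t x)]
  refine tsum_congr fun g => ?_
  rw [am_re, Complex.re_ofReal_mul]
  simp

omit [DecidableEq ι] in
lemma J_Gim (h : Fam a k) (t : ι → ℝ) (x : ℂ) :
    J (fun g => am a k x g * (Complex.I * (k g).im)) t = (Gr a k t x).im := by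
  rw [Gr, Complex.im_tsum (summ_G h t x)]
  refine tsum_congr fun g => ?_
  rw [am_re, Complex.im_ofReal_mul]
  simp

omit [DecidableEq ι] in
lemma J_Hre (h : Fam a k) (t : ι → ℝ) (x : ℂ) :
    J (fun g => am a k x g * ((k g ^ 2).re : ℝ)) t = (Hs a k t x).re := by
  rw [Hs, Complex.re_tsum (summ_H h t x)]
  refine tsum_congr fun g => ?_
  rw [am_re, Complex.re_ofReal_mul, Complex.ofReal_re, Complex.ofReal_im, mul_zero, sub_zero]

omit [DecidableEq ι] in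
lemma J_Him (h : Fam a k) (t : ι → ℝ) (x : ℂ) :
    J (fun g => am a k x g * ((k g ^ 2).im : ℝ)) t = (Hs a k t x).im := by
  rw [Hs, Complex.im_tsum (summ_H h t x)]
  refine tsum_congr fun g => ?_
  rw [am_re, Complex.im_ofReal_mul, Complex.ofReal_re, Complex.ofReal_im, mul_zero, sub_zero]

lemma re_le {z : ℂ} (hz : ‖z‖ = 1) : ‖((z.re : ℝ) : ℂ)‖ ≤ 1 ∧ ‖((z.im : ℝ) : ℂ)‖ ≤ 1 ∧
    ‖Complex.I * z.re‖ ≤ 1 ∧ ‖Complex.I * z.im‖ ≤ 1 := by
  have h1 := Complex.abs_re_le_norm z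
  have h2 := Complex.abs_im_le_norm z
  rw [hz] at h1 h2
  simp only [norm_mul, Complex.norm_I, one_mul, Complex.norm_real, Real.norm_eq_abs]
  exact ⟨h1, h2, h1, h2⟩

lemma union_le {Ω β : Type} [MeasurableSpace Ω] (μ : Measure Ω) (P : Finset β) (S : Set Ω)
    (B : β → Set Ω) (N b : ℝ) (hb : 0 ≤ b) (hN : (P.card : ℝ) ≤ N)
    (hS : ∀ ω ∈ S, ∃ p ∈ P, ω ∈ B p) (hB : ∀ p ∈ P, μ (B p) ≤ ENNReal.ofReal b) :
    μ S ≤ ENNReal.ofReal (N * b) := by
  have h1 : S ⊆ ⋃ p ∈ P, B p := fun ω hω => by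
    obtain ⟨p, hp, h⟩ := hS ω hω
    exact mem_biUnion hp h
  refine (measure_mono h1).trans ((measure_biUnion_finset_le P B).trans ?_)
  refine (Finset.sum_le_card_nsmul P _ _ hB).trans ?_
  rw [← ENNReal.ofReal_nsmul, nsmul_eq_mul]
  exact ENNReal.ofReal_le_ofReal (mul_le_mul_of_nonneg_right hN hb)

end A3

open A3 in
theorem prob_one (h : Fam a k) (hd : Dense' a k χ K) (hK : K.Infinite) (hu : ∀ κ ∈ K, ‖κ‖ = 1) :
    ∃ T₁ : Finset ι, ∃ C > 0, ∀ T ⊇ T₁, ∀ (t : ι → ℝ) (j : ℤ × ℤ) (κ g d : ℝ), 0 ≤ κ → 0 < g →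
      g ≤ 1 → g ≤ d → unif T {ω | ∃ x ∈ cell j, |Wv a k (mix T t ω) x| ≤ κ ∧
        ‖Gr a k (mix T t ω) x‖ ≤ g ∧ ‖Hs a k (mix T t ω) x‖ ≤ d}
        ≤ ENNReal.ofReal (C * (κ + g ^ 2) * d ^ 2) := by
  obtain ⟨T₁, c₁, hc₁, hn⟩ := nondeg_one h hd hK hu (4 * 5)
  obtain ⟨C, hC, hbox⟩ := boxJ h 5 hc₁
  obtain ⟨A, hA, hJ⟩ : ∃ A : ℝ, 1 ≤ A ∧ ∀ t, Jet A (Wv a k t) (Gr a k t) (Hs a k t) :=
    ⟨_, (h.jet 0).one, h.jet⟩
  refine ⟨T₁, 3888 * C * A ^ 5, by positivity, fun T hT t j κ g d hκ hg hg1 hgd => ?_⟩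
  have hd0 : 0 < d := hg.trans_le hgd
  obtain ⟨P, hP, hP'⟩ := grid j.1 j.2 1 g hg hg1
  set m : ι → Fin 5 → ℂ := fun i => ![1, Complex.I * (k i).re, Complex.I * (k i).im,
    ((k i ^ 2).re : ℝ), ((k i ^ 2).im : ℝ)] with hm
  set s : Fin 5 → ℝ := ![12 * A * (κ + g ^ 2), 3 * A * g, 3 * A * g, 3 * A * d, 3 * A * d] with hs
  have hs0 : ∀ i, 0 < s i := by
    intro i
    fin_cases i <;> simp only [hs] <;> simp <;> positivity
  refine (union_le _ P _ (fun p => {ω | ∀ i, |J (fun g => am a k p g * m g i) (mix T t ω)| ≤ s i})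
    _ (C * ∏ i, s i) (mul_nonneg hC.le (Finset.prod_nonneg fun i _ => (hs0 i).le)) hP ?_ ?_).trans
    (le_of_eq ?_)
  · rintro ω ⟨x, ⟨h1, h2, h3, h4⟩, hF, hG, hH⟩
    obtain ⟨p, hp, hpx⟩ := hP' x h1 h2 h3 h4
    refine ⟨p, hp, ?_⟩
    obtain ⟨hF', hG'⟩ := near (hJ _) hg hg1 hpx hF hG
    have hH' : ‖Hs a k (mix T t ω) p‖ ≤ 3 * A * d := by
      have h5 := (hJ (mix T t ω)).tH x (p - x)
      rw [add_sub_cancel] at h5
      have h6 := norm_le_norm_add_norm_sub' (Hs a k (mix T t ω) p) (Hs a k (mix T t ω) x)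
      have h7 : A * ‖p - x‖ ≤ A * (2 * d) := mul_le_mul_of_nonneg_left (by linarith) (by linarith)
      have h8 : d ≤ A * d := le_mul_of_one_le_left hd0.le hA
      linarith
    intro i
    fin_cases i
    · exact (congrArg abs (J_W _ p)).trans_le hF'
    · exact (congrArg abs (J_Gre h _ p)).trans_le ((Complex.abs_re_le_norm _).trans hG')
    · exact (congrArg abs (J_Gim h _ p)).trans_le ((Complex.abs_im_le_norm _).trans hG')
    · exact (congrArg abs (J_Hre h _ p)).trans_le ((Complex.abs_re_le_norm _).trans hH')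
    · exact (congrArg abs (J_Him h _ p)).trans_le ((Complex.abs_im_le_norm _).trans hH')
  · intro p _
    refine hbox T₁ T hT (fun g i => am a k p g * m g i) s t (fun g i => norm_am_le h p g ?_) hs0
      fun u hu1 => (hn u hu1).trans (le_of_eq ?_)
    · have h1 := re_le (h.unit g)
      have h2 := re_le (z := k g ^ 2) (by rw [norm_pow, h.unit, one_pow])
      fin_cases i
      exacts [norm_one.le, h1.2.2.1, h1.2.2.2, h2.1, h2.2.1]
    · congr 1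
      refine Finset.filter_congr fun g _ => ?_
      rw [← norm_am h p g]
      refine iff_of_eq (congrArg (fun z : ℂ => c₁ ≤ ‖z‖) ?_)
      simp only [Fin.sum_univ_five, hm, Matrix.cons_val]
      ring
  · congr 1
    simp only [Fin.prod_univ_five, hs, Matrix.cons_val]
    field_simp
    ring

open A3 in
theorem prob_two (h : Fam a k) (hd : Dense' a k χ K) (hK : K.Infinite) (hu : ∀ κ ∈ K, ‖κ‖ = 1)
    {r₁ : ℝ} (hr : 0 < r₁) (D : ℝ) : ∃ T₂ : Finset ι, ∃ C > 0, ∀ T ⊇ T₂,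
      ∀ (t : ι → ℝ) (j : ℤ × ℤ), ∀ κ ∈ Ioc (0 : ℝ) 1, unif T {ω | ∃ x ∈ cell j,
        Gr a k (mix T t ω) x = 0 ∧ |Wv a k (mix T t ω) x| ≤ κ ∧ ∃ x', Gr a k (mix T t ω) x' = 0 ∧
        |Wv a k (mix T t ω) x'| ≤ κ ∧ r₁ ≤ ‖x - x'‖ ∧ ‖x - x'‖ ≤ D}
        ≤ ENNReal.ofReal (C * κ ^ 2) := by
  classical
  obtain ⟨T₁, c₁, hc₁, hn⟩ := nondeg_two h hd hK hu (4 * 6) (half_pos hr) (D + r₁ / 2)
  obtain ⟨C, hC, hbox⟩ := boxJ h 6 hc₁
  obtain ⟨A, hA, hJ⟩ : ∃ A : ℝ, 1 ≤ A ∧ ∀ t, Jet A (Wv a k t) (Gr a k t) (Hs a k t) :=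
    ⟨_, (h.jet 0).one, h.jet⟩
  set L := 1 + 2 * |D| with hL
  have hL1 : 1 ≤ L := by linarith [abs_nonneg D]
  refine ⟨T₁, 746496 * C * A ^ 6 * L ^ 2 + (8 / r₁) ^ 4, by positivity,
    fun T hT t j κ ⟨hκ, hκ1⟩ => ?_⟩
  obtain ⟨δ, hδ, rfl⟩ : ∃ δ : ℝ, 0 < δ ∧ κ = δ ^ 2 := ⟨√κ, sqrt_pos.2 hκ, (sq_sqrt hκ.le).symm⟩
  have hδ1 : δ ≤ 1 := by nlinarith
  by_cases hbig : r₁ / 8 ≤ δ
  · haveI := unif_prob T
    refine prob_le_one.trans (ENNReal.one_le_ofReal.2 ?_)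
    have h1 : 1 ≤ 8 / r₁ * δ := by
      rw [div_mul_eq_mul_div, one_le_div hr]
      linarith
    have h2 : 1 ≤ (8 / r₁ * δ) ^ 4 := one_le_pow₀ h1
    have h3 : 0 ≤ 746496 * C * A ^ 6 * L ^ 2 * (δ ^ 2) ^ 2 := by positivity
    nlinarith
  push Not at hbig
  obtain ⟨P, hP, hP'⟩ := grid j.1 j.2 1 δ hδ hδ1
  obtain ⟨Q, hQ, hQ'⟩ := grid (j.1 - |D|) (j.2 - |D|) L δ hδ (hδ1.trans hL1)
  set w : ℂ × ℂ → ι → Fin 6 → ℂ := fun q i => ![am a k q.1 i * 1,
    am a k q.1 i * (Complex.I * (k i).re), am a k q.1 i * (Complex.I * (k i).im),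
    am a k q.2 i * 1, am a k q.2 i * (Complex.I * (k i).re),
    am a k q.2 i * (Complex.I * (k i).im)] with hw
  set s : Fin 6 → ℝ := ![12 * A * (δ ^ 2 + δ ^ 2), 3 * A * δ, 3 * A * δ,
    12 * A * (δ ^ 2 + δ ^ 2), 3 * A * δ, 3 * A * δ] with hs
  have hs0 : ∀ i, 0 < s i := by
    intro i
    fin_cases i <;> simp only [hs] <;> simp <;> positivity
  have hcard : ((((P ×ˢ Q).filter fun q : ℂ × ℂ =>
      r₁ / 2 ≤ ‖q.2 - q.1‖ ∧ ‖q.2 - q.1‖ ≤ D + r₁ / 2).card : ℕ) : ℝ) ≤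
      4 * 1 ^ 2 / δ ^ 2 * (4 * L ^ 2 / δ ^ 2) := by
    refine le_trans ?_ (mul_le_mul hP hQ (Nat.cast_nonneg _) (by positivity))
    rw [← Nat.cast_mul, ← Finset.card_product]
    exact_mod_cast Finset.card_filter_le _ _
  refine (union_le _ _ _ (fun q => {ω | ∀ i, |J (fun g => w q g i) (mix T t ω)| ≤ s i})
    _ (C * ∏ i, s i) (mul_nonneg hC.le (Finset.prod_nonneg fun i _ => (hs0 i).le)) hcard
    ?_ ?_).trans (ENNReal.ofReal_le_ofReal ?_)
  · rintro ω ⟨x, ⟨h1, h2, h3, h4⟩, hG, hF, y, hGy, hFy, hxy1, hxy2⟩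
    obtain ⟨p, hp, hpx⟩ := hP' x h1 h2 h3 h4
    have h5 := (Complex.abs_re_le_norm (x - y)).trans (hxy2.trans (le_abs_self D))
    have h6 := (Complex.abs_im_le_norm (x - y)).trans (hxy2.trans (le_abs_self D))
    rw [Complex.sub_re, abs_le] at h5
    rw [Complex.sub_im, abs_le] at h6
    obtain ⟨q, hq, hqy⟩ := hQ' y (by linarith [h5.2]) (by linarith [h5.1]) (by linarith [h6.2])
      (by linarith [h6.1])
    have h7 : ‖q - p‖ ≤ ‖x - y‖ + (‖q - y‖ + ‖p - x‖) := by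
      rw [show q - p = -(x - y) + ((q - y) - (p - x)) by ring, ← norm_neg (x - y)]
      exact (norm_add_le _ _).trans (add_le_add le_rfl (norm_sub_le _ _))
    have h8 : ‖x - y‖ ≤ ‖q - p‖ + (‖q - y‖ + ‖p - x‖) := by
      rw [show x - y = -(q - p) + ((q - y) - (p - x)) by ring, ← norm_neg (q - p)]
      exact (norm_add_le _ _).trans (add_le_add le_rfl (norm_sub_le _ _))
    refine ⟨(p, q), Finset.mem_filter.2 ⟨Finset.mem_product.2 ⟨hp, hq⟩, ?_, ?_⟩, ?_⟩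
    · show r₁ / 2 ≤ ‖q - p‖
      linarith
    · show ‖q - p‖ ≤ D + r₁ / 2
      linarith
    obtain ⟨hF1, hG1⟩ := near (hJ _) hδ hδ1 hpx hF (by rw [hG, norm_zero]; exact hδ.le)
    obtain ⟨hF2, hG2⟩ := near (hJ _) hδ hδ1 hqy hFy (by rw [hGy, norm_zero]; exact hδ.le)
    intro i
    fin_cases i
    · exact (congrArg abs (J_W _ p)).trans_le hF1
    · exact (congrArg abs (J_Gre h _ p)).trans_le ((Complex.abs_re_le_norm _).trans hG1)
    · exact (congrArg abs (J_Gim h _ p)).trans_le ((Complex.abs_im_le_norm _).trans hG1)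
    · exact (congrArg abs (J_W _ q)).trans_le hF2
    · exact (congrArg abs (J_Gre h _ q)).trans_le ((Complex.abs_re_le_norm _).trans hG2)
    · exact (congrArg abs (J_Gim h _ q)).trans_le ((Complex.abs_im_le_norm _).trans hG2)
  · rintro ⟨p, q⟩ hpq
    obtain ⟨-, h1, h2⟩ := Finset.mem_filter.1 hpq
    refine hbox T₁ T hT (w (p, q)) s t (fun g i => ?_) hs0
      fun u hu1 => (hn u hu1 (q - p) h1 h2).trans (le_of_eq ?_)
    · have h3 := re_le (h.unit g)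
      fin_cases i
      exacts [norm_am_le h p g norm_one.le, norm_am_le h p g h3.2.2.1, norm_am_le h p g h3.2.2.2,
        norm_am_le h q g norm_one.le, norm_am_le h q g h3.2.2.1, norm_am_le h q g h3.2.2.2]
    · congr 1
      refine Finset.filter_congr fun g _ => ?_
      rw [← norm_am h p g]
      refine iff_of_eq (congrArg (fun z : ℂ => c₁ ≤ ‖z‖) ?_)
      have h3 : am a k q g = am a k p g * Complex.exp (Complex.I * dot (k g) (q - p)) := by
        have : dot (k g) q = dot (k g) p + dot (k g) (q - p) := by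
          rw [dot, dot, dot, ← Complex.add_re, ← mul_add, add_sub_cancel]
        rw [am, am, this, Complex.ofReal_add, mul_add, Complex.exp_add, mul_assoc]
      simp only [Fin.sum_univ_six, hw, Matrix.cons_val, h3]
      ring
  · have h1 : 4 * 1 ^ 2 / δ ^ 2 * (4 * L ^ 2 / δ ^ 2) * (C * ∏ i, s i) =
        746496 * C * A ^ 6 * L ^ 2 * (δ ^ 2) ^ 2 := by
      simp only [Fin.prod_univ_six, hs, Matrix.cons_val]
      field_simp
      ring
    rw [h1, add_mul]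
    exact le_add_of_nonneg_right (by positivity)

end Pool.Agent.Lib.MP_e1e19a_an
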