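import Pool.Agent.Lib.MP_e1e19a_an.N.A0

/-!
Local structure near a nondegenerate saddle.
-/

namespace Pool.Agent.Lib.MP_e1e19a_an

open Real MeasureTheory Set
open scoped MatrixGroups ComplexConjugate UpperHalfPlane

variable {A κ d r ε : ℝ} {F : ℂ → ℝ} {G H : ℂ → ℂ} {c : ℂ}

theorem fr_norm (w : ℂ) : ‖fr w‖ = 1 := by
  unfold fr
  rw [norm_mul, Complex.norm_I, one_mul, Complex.norm_exp_I_mul_ofReal]

theorem fr_sq (w : ℂ) : w * conj (fr w) ^ 2 = -‖w‖ := by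
  have h1 : conj (fr w) = -Complex.I * Complex.exp (-(Complex.I * (w.arg / 2 : ℝ))) := by
    unfold fr
    rw [map_mul, Complex.conj_I, ← Complex.exp_conj, map_mul, Complex.conj_I, Complex.conj_ofReal,
      neg_mul Complex.I ((w.arg / 2 : ℝ) : ℂ)]
  have h2 : Complex.exp (-(Complex.I * (w.arg / 2 : ℝ))) ^ 2 *
      Complex.exp (w.arg * Complex.I) = 1 := by
    rw [sq, ← Complex.exp_add, ← Complex.exp_add, ← Complex.exp_zero]
    congr 1
    push_cast
    ring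
  have h3 := Complex.norm_mul_exp_arg_mul_I w
  rw [h1]
  have h4 : w * (-Complex.I * Complex.exp (-(Complex.I * (w.arg / 2 : ℝ)))) ^ 2 =
      (‖w‖ * Complex.exp (w.arg * Complex.I)) *
        (-Complex.I * Complex.exp (-(Complex.I * (w.arg / 2 : ℝ)))) ^ 2 := by rw [h3]
  rw [h4]
  have h5 : (-Complex.I) ^ 2 = -1 := by rw [neg_sq, Complex.I_sq]
  rw [mul_pow, h5]
  linear_combination (-(‖w‖ : ℂ)) * h2

namespace A4

theorem dot_le (k x : ℂ) : |dot k x| ≤ ‖k‖ * ‖x‖ := by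
  unfold dot
  calc |(conj k * x).re| ≤ ‖conj k * x‖ := Complex.abs_re_le_norm _
    _ = ‖k‖ * ‖x‖ := by rw [norm_mul, Complex.norm_conj]

theorem dot_neg_left (k x : ℂ) : dot (-k) x = -dot k x := by simp [dot]

theorem dot_neg_right (k x : ℂ) : dot k (-x) = -dot k x := by simp [dot]

theorem dot_self {e : ℂ} (he : ‖e‖ = 1) : dot e e = 1 := by
  unfold dot
  rw [Complex.conj_mul', he]
  simp

theorem mul_conj_one {e : ℂ} (he : ‖e‖ = 1) : e * conj e = 1 := by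
  rw [Complex.mul_conj', he]
  simp

theorem decomp {e : ℂ} (he : ‖e‖ = 1) (z : ℂ) :
    z = (dot (Complex.I * e) z : ℝ) * (Complex.I * e) + (dot e z : ℝ) * e := by
  have h1 : dot (Complex.I * e) z = (conj e * z).im := by
    unfold dot
    rw [map_mul, Complex.conj_I]
    simp only [Complex.mul_re, Complex.mul_im, Complex.neg_re, Complex.neg_im, Complex.I_re,
      Complex.I_im]
    ring
  have h2 : dot e z = (conj e * z).re := rfl
  rw [h1, h2]
  have h3 := Complex.re_add_im (conj e * z)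
  have h4 := mul_conj_one he
  linear_combination (-e) * h3 - z * h4

theorem norm_sq_pt {e : ℂ} (he : ‖e‖ = 1) (u w : ℝ) :
    ‖(w : ℂ) * (Complex.I * e) + u * e‖ ^ 2 = u ^ 2 + w ^ 2 := by
  have : (w : ℂ) * (Complex.I * e) + u * e = (u + w * Complex.I) * e := by ring
  rw [this, norm_mul, he, mul_one, Complex.sq_norm, Complex.normSq_add_mul_I]

theorem norm_pt_le {e : ℂ} (he : ‖e‖ = 1) (hr : 0 < r) {u w : ℝ} (hu : |u| ≤ r)
    (hw : |w| ≤ r / 2) : ‖(w : ℂ) * (Complex.I * e) + u * e‖ ≤ 6 / 5 * r := by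
  refine (pow_le_pow_iff_left₀ (norm_nonneg _) (by positivity) two_ne_zero).1 ?_
  rw [norm_sq_pt he]
  have h1 : u ^ 2 ≤ r ^ 2 := sq_le_sq' (by linarith [(abs_le.1 hu).1]) (abs_le.1 hu).2
  have h2 : w ^ 2 ≤ (r / 2) ^ 2 := sq_le_sq' (by linarith [(abs_le.1 hw).1]) (abs_le.1 hw).2
  nlinarith

theorem small (h : Jet A F G H) (hr : 0 < r) (h1 : 40 * A * r ≤ d)
    (hc : Sad F G H κ d c) : 0 < d ∧ r ≤ 1 / 40 := by
  have hA := h.one
  have h2 := (hc.2.2).trans (h.bH c)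
  constructor
  · nlinarith
  · nlinarith

/-- Taylor formula in the frame of the saddle. -/
theorem tay (h : Jet A F G H) (hr : 0 < r) (h1 : 40 * A * r ≤ d) (hc : Sad F G H κ d c)
    {e : ℂ} (he : ‖e‖ = 1) (hH : H c * conj e ^ 2 = -‖H c‖) {u w : ℝ} (hu : |u| ≤ r)
    (hw : |w| ≤ r / 2) :
    |F (c + w * (Complex.I * e) + u * e) - F c +
      (F c * (u ^ 2 + w ^ 2) - ‖H c‖ * (u ^ 2 - w ^ 2)) / 4| ≤ 3 / 100 * d * (u ^ 2 + w ^ 2) := by
  have hA := h.one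
  have t := h.tF c ((w : ℂ) * (Complex.I * e) + u * e)
  have hn := norm_pt_le he hr hu hw
  have hs := norm_sq_pt he u w
  have h3 : (H c * conj ((w : ℂ) * (Complex.I * e) + u * e) ^ 2).re =
      -(‖H c‖ * (u ^ 2 - w ^ 2)) := by
    have : H c * conj ((w : ℂ) * (Complex.I * e) + u * e) ^ 2 =
        (H c * conj e ^ 2) * (u - w * Complex.I) ^ 2 := by
      simp only [map_add, map_mul, Complex.conj_ofReal, Complex.conj_I]
      ring
    rw [this, hH, sq]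
    simp only [Complex.mul_re, Complex.mul_im, Complex.neg_re, Complex.neg_im, Complex.I_re,
      Complex.I_im, Complex.ofReal_re, Complex.ofReal_im, Complex.sub_re, Complex.sub_im]
    ring
  have h4 : dot (G c) ((w : ℂ) * (Complex.I * e) + u * e) = 0 := by
    rw [hc.1]
    simp [dot]
  rw [h3, h4, hs, ← add_assoc, pow_succ _ 2, hs] at t
  have h5 : A * ((u ^ 2 + w ^ 2) * ‖(w : ℂ) * (Complex.I * e) + u * e‖) ≤
      3 / 100 * d * (u ^ 2 + w ^ 2) := by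
    have h6 : A * ‖(w : ℂ) * (Complex.I * e) + u * e‖ ≤ 3 / 100 * d := by
      have := mul_le_mul_of_nonneg_left hn (by linarith : 0 ≤ A)
      linarith
    have := mul_le_mul_of_nonneg_right h6 (by positivity : 0 ≤ u ^ 2 + w ^ 2)
    linarith
  refine le_trans (le_of_eq ?_) (t.trans h5)
  congr 1
  ring

theorem edge (h : Jet A F G H) (hr : 0 < r) (h1 : 40 * A * r ≤ d) (h2 : κ ≤ d * r ^ 2 / 100)
    (hc : Sad F G H κ d c) {e : ℂ} (he : ‖e‖ = 1) (hH : H c * conj e ^ 2 = -‖H c‖) {u w : ℝ}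
    (hu : |u| = r) (hw : |w| ≤ r / 2) :
    d * r ^ 2 / 8 ≤ F (c + w * (Complex.I * e) + u * e) := by
  obtain ⟨hd, hr1⟩ := small h hr h1 hc
  have t := (abs_le.1 (tay h hr h1 hc he hH hu.le hw)).1
  have e1 : u ^ 2 = r ^ 2 := by rw [← hu, sq_abs]
  have e2 : w ^ 2 ≤ (r / 2) ^ 2 := sq_le_sq' (by linarith [(abs_le.1 hw).1]) (abs_le.1 hw).2
  rw [e1] at t
  have hF := abs_le.1 hc.2.1
  have hκ : 0 ≤ κ := (abs_nonneg _).trans hc.2.1
  have e3 : d * (r ^ 2 - w ^ 2) ≤ ‖H c‖ * (r ^ 2 - w ^ 2) :=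
    mul_le_mul_of_nonneg_right hc.2.2 (by nlinarith)
  have e4 : -κ ≤ F c * (1 - (r ^ 2 + w ^ 2) / 4) := by
    have a1 : 0 ≤ 1 - (r ^ 2 + w ^ 2) / 4 := by nlinarith
    have a2 : 0 ≤ (r ^ 2 + w ^ 2) / 4 := by positivity
    nlinarith
  have e5 : d * w ^ 2 ≤ d * (r / 2) ^ 2 := mul_le_mul_of_nonneg_left e2 hd.le
  nlinarith

/-- the directional derivative along `e` increases on each slice -/
theorem mono (h : Jet A F G H) (hr : 0 < r) (h1 : 40 * A * r ≤ d) (h2 : κ ≤ d * r ^ 2 / 100)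
    (hc : Sad F G H κ d c) {e : ℂ} (he : ‖e‖ = 1) (hH : H c * conj e ^ 2 = -‖H c‖) {w : ℝ}
    (hw : |w| ≤ r / 2) :
    MonotoneOn (fun u : ℝ => dot (G (c + w * (Complex.I * e) + u * e)) e) (Icc (-r) r) := by
  obtain ⟨hd, hr1⟩ := small h hr h1 hc
  have hA := h.one
  have hD := fun u => h.deriv_G (c + w * (Complex.I * e)) e e u
  refine monotoneOn_of_deriv_nonneg (convex_Icc _ _)
    (fun u _ => (hD u).continuousAt.continuousWithinAt)
    (fun u _ => (hD u).differentiableAt.differentiableWithinAt) ?_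
  intro u hu
  have hu' : |u| ≤ r := abs_le.2 (mem_Icc.1 (interior_subset hu))
  rw [(hD u).deriv, dot_self he]
  have hn := norm_pt_le he hr hu' hw
  have h6 : A * ‖(w : ℂ) * (Complex.I * e) + u * e‖ ≤ 3 / 100 * d := by
    have := mul_le_mul_of_nonneg_left hn (by linarith : 0 ≤ A)
    linarith
  have l1 := (h.lip (c + w * (Complex.I * e) + u * e) c).1
  have l2 := h.tH c ((w : ℂ) * (Complex.I * e) + u * e)
  rw [← add_assoc] at l2
  have e0 : c + w * (Complex.I * e) + u * e - c = (w : ℂ) * (Complex.I * e) + u * e := by ring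
  rw [e0] at l1
  set x := c + w * (Complex.I * e) + u * e
  have e1 : H x * conj e * conj e = (H x - H c) * conj e ^ 2 + -‖H c‖ := by
    rw [← hH]; ring
  have e2 : ((H x - H c) * conj e ^ 2).re ≤ 3 / 100 * d := by
    calc ((H x - H c) * conj e ^ 2).re ≤ ‖(H x - H c) * conj e ^ 2‖ := Complex.re_le_norm _
      _ = ‖H x - H c‖ := by rw [norm_mul, norm_pow, Complex.norm_conj, he]; ring
      _ ≤ _ := l2.trans h6
  rw [e1, Complex.add_re, Complex.neg_re, Complex.ofReal_re]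
  have hF := (abs_le.1 hc.2.1).2
  have l3 := (abs_le.1 l1).2
  have e3 : d * r ^ 2 ≤ d := by
    nlinarith [mul_le_mul_of_nonneg_left (show r ^ 2 ≤ 1 by nlinarith) hd.le]
  have := hc.2.2
  linarith

theorem up (h : Jet A F G H) (x e : ℂ) {a b : ℝ}
    (hp : ∀ u ∈ Icc a b, 0 ≤ dot (G (x + u * e)) e) :
    MonotoneOn (fun u : ℝ => F (x + u * e)) (Icc a b) := by
  have hD := fun u => h.deriv_F x e u
  refine monotoneOn_of_deriv_nonneg (convex_Icc _ _)
    (fun u _ => (hD u).continuousAt.continuousWithinAt)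
    (fun u _ => (hD u).differentiableAt.differentiableWithinAt) ?_
  intro u hu
  rw [(hD u).deriv]
  exact hp u (interior_subset hu)

theorem down (h : Jet A F G H) (x e : ℂ) {a b : ℝ}
    (hp : ∀ u ∈ Icc a b, dot (G (x + u * e)) e ≤ 0) :
    AntitoneOn (fun u : ℝ => F (x + u * e)) (Icc a b) := by
  have hD := fun u => h.deriv_F x e u
  refine antitoneOn_of_deriv_nonpos (convex_Icc _ _)
    (fun u _ => (hD u).continuousAt.continuousWithinAt)
    (fun u _ => (hD u).differentiableAt.differentiableWithinAt) ?_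
  intro u hu
  rw [(hD u).deriv]
  exact hp u (interior_subset hu)

theorem side (h : Jet A F G H) (hr : 0 < r) (h1 : 40 * A * r ≤ d) (h2 : κ ≤ d * r ^ 2 / 100)
    (hc : Sad F G H κ d c) (hε : ε ≤ κ) {e : ℂ} (he : ‖e‖ = 1) (hH : H c * conj e ^ 2 = -‖H c‖)
    {y : ℂ} (hy : y ∈ rect c e r) (hF : ε < F y) (h0 : 0 ≤ dot (G y) e) :
    comp F ε y = comp F ε (c + r * e) := by
  obtain ⟨hd, hr1⟩ := small h hr h1 hc
  obtain ⟨hu, hw⟩ := hy
  have hy0 : y = c + (dot (Complex.I * e) (y - c) : ℝ) * (Complex.I * e) +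
      (dot e (y - c) : ℝ) * e := by
    have := decomp he (y - c)
    linear_combination this
  generalize dot e (y - c) = u₀ at hu hy0
  generalize dot (Complex.I * e) (y - c) = w₀ at hw hy0
  subst hy0
  have hu1 := abs_lt.1 hu
  have hw1 := abs_lt.1 hw
  have hm := mono h hr h1 h2 hc he hH hw.le
  have hup := up h (c + w₀ * (Complex.I * e)) e (a := u₀) (b := r) fun u hu2 =>
    h0.trans (hm ⟨hu1.1.le, hu1.2.le⟩ ⟨by linarith [hu2.1], hu2.2⟩ hu2.1)
  have s1 : IsPreconnected ((fun u : ℝ => c + w₀ * (Complex.I * e) + u * e) '' Icc u₀ r) :=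
    isPreconnected_Icc.image _ (by fun_prop)
  have s2 : IsPreconnected ((fun w : ℝ => c + w * (Complex.I * e) + r * e) ''
      Icc (-(r / 2)) (r / 2)) := isPreconnected_Icc.image _ (by fun_prop)
  have s3 := IsPreconnected.union (c + w₀ * (Complex.I * e) + r * e)
    (mem_image_of_mem (fun u : ℝ => c + w₀ * (Complex.I * e) + u * e)
      (show r ∈ Icc u₀ r from ⟨hu1.2.le, le_rfl⟩))
    (mem_image_of_mem (fun w : ℝ => c + w * (Complex.I * e) + r * e)
      (show w₀ ∈ Icc (-(r / 2)) (r / 2) from ⟨hw1.1.le, hw1.2.le⟩)) s1 s2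
  unfold comp
  apply connectedComponentIn_eq
  refine s3.subset_connectedComponentIn (Or.inl ⟨u₀, ⟨le_rfl, hu1.2.le⟩, rfl⟩) ?_
    (Or.inr ⟨0, ⟨by linarith, by linarith⟩, by simp⟩)
  rintro z (⟨u, hu2, rfl⟩ | ⟨w, hw2, rfl⟩)
  · exact hF.trans_le (hup ⟨le_rfl, hu1.2.le⟩ hu2 hu2.1)
  · have := edge h hr h1 h2 hc he hH (abs_of_pos hr) (abs_le.2 hw2)
    have h3 : 0 < d * r ^ 2 := by positivity
    change ε < F _
    linarith

end A4

theorem Jet.side (h : Jet A F G H) (hr : 0 < r) (h1 : 40 * A * r ≤ d) (h2 : κ ≤ d * r ^ 2 / 100)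
    (hc : Sad F G H κ d c) (hε : ε ≤ κ) {y : ℂ} (hy : y ∈ rect c (fr (H c)) r) (hF : ε < F y) :
    (0 ≤ dot (G y) (fr (H c)) → comp F ε y = comp F ε (c + r * fr (H c))) ∧
      (dot (G y) (fr (H c)) ≤ 0 → comp F ε y = comp F ε (c - r * fr (H c))) := by
  refine ⟨fun h0 => A4.side h hr h1 h2 hc hε (fr_norm _) (fr_sq _) hy hF h0, fun h0 => ?_⟩
  have key := A4.side h hr h1 h2 hc hε (e := -fr (H c)) (by rw [norm_neg, fr_norm])
    (by rw [map_neg, neg_sq, fr_sq]) (y := y) ?_ hF ?_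
  · rw [key, mul_neg, ← sub_eq_add_neg]
  · obtain ⟨a1, a2⟩ := hy
    constructor
    · rwa [A4.dot_neg_left, abs_neg]
    · rwa [mul_neg, A4.dot_neg_left, abs_neg]
  · rw [A4.dot_neg_right]
    linarith

theorem Jet.axes (h : Jet A F G H) (hr : 0 < r) (h1 : 40 * A * r ≤ d) (h2 : κ ≤ d * r ^ 2 / 100)
    (hc : Sad F G H κ d c) : (∀ u : ℝ, |u| ≤ r → F c ≤ F (c + u * fr (H c))) ∧
      (∀ u : ℝ, |u| ≤ r / 2 → F (c + u * (Complex.I * fr (H c))) ≤ F c) ∧
      (∀ u : ℝ, |u| = r / 2 → F (c + u * (Complex.I * fr (H c))) < 0) ∧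
      ∀ u : ℝ, |u| = r → d * r ^ 2 / 8 ≤ F (c + u * fr (H c)) := by
  obtain ⟨hd, hr1⟩ := A4.small h hr h1 hc
  have hF := abs_le.1 hc.2.1
  have e3 : d * r ^ 2 ≤ d := by
    nlinarith [mul_le_mul_of_nonneg_left (show r ^ 2 ≤ 1 by nlinarith) hd.le]
  have hH := hc.2.2
  have z : |(0 : ℝ)| ≤ r / 2 := by rw [abs_zero]; positivity
  have z' : |(0 : ℝ)| ≤ r := by rw [abs_zero]; positivity
  have key : ∀ u : ℝ, |u| ≤ r / 2 →
      F (c + u * (Complex.I * fr (H c))) ≤ F c - d / 5 * u ^ 2 := by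
    intro u hu
    have t := (abs_le.1 (A4.tay h hr h1 hc (fr_norm _) (fr_sq _) z' hu)).2
    simp only [Complex.ofReal_zero, zero_mul, add_zero] at t
    have a1 : 0 ≤ (‖H c‖ - d) * u ^ 2 := mul_nonneg (by linarith) (sq_nonneg u)
    have a2 : 0 ≤ (F c + d / 100) * u ^ 2 := mul_nonneg (by linarith) (sq_nonneg u)
    have a3 : 0 ≤ d * u ^ 2 := by positivity
    nlinarith
  refine ⟨fun u hu => ?_, fun u hu => ?_, fun u hu => ?_, fun u hu => ?_⟩
  · have t := (abs_le.1 (A4.tay h hr h1 hc (fr_norm _) (fr_sq _) hu z)).1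
    simp only [Complex.ofReal_zero, zero_mul, add_zero] at t
    have a1 : 0 ≤ (‖H c‖ - d) * u ^ 2 := mul_nonneg (by linarith) (sq_nonneg u)
    have a2 : 0 ≤ (d / 100 - F c) * u ^ 2 := mul_nonneg (by linarith) (sq_nonneg u)
    have a3 : 0 ≤ d * u ^ 2 := by positivity
    nlinarith
  · have := key u hu
    have a3 : 0 ≤ d * u ^ 2 := by positivity
    linarith
  · have := key u hu.le
    have e1 : u ^ 2 = (r / 2) ^ 2 := by rw [← hu, sq_abs]
    rw [e1] at this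
    have h3 : 0 < d * r ^ 2 := by positivity
    nlinarith
  · have := A4.edge h hr h1 h2 hc (fr_norm _) (fr_sq _) hu z
    simpa using this

theorem Jet.ridge (h : Jet A F G H) (hr : 0 < r) (h1 : 40 * A * r ≤ d) (h2 : κ ≤ d * r ^ 2 / 100)
    (hc : Sad F G H κ d c) {y : ℂ} (hy : y ∈ rect c (fr (H c)) r)
    (h0 : dot (G y) (fr (H c)) = 0) : F y ≤ F c := by
  have hax := (h.axes hr h1 h2 hc).2.1
  have he := fr_norm (H c)
  have hH := fr_sq (H c)
  generalize fr (H c) = e at *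
  obtain ⟨hu, hw⟩ := hy
  have hy0 : y = c + (dot (Complex.I * e) (y - c) : ℝ) * (Complex.I * e) +
      (dot e (y - c) : ℝ) * e := by
    have := A4.decomp he (y - c)
    linear_combination this
  generalize dot e (y - c) = u₀ at hu hy0
  generalize dot (Complex.I * e) (y - c) = w₀ at hw hy0
  subst hy0
  have hu1 := abs_lt.1 hu
  have hm := A4.mono h hr h1 h2 hc he hH hw.le
  refine le_trans ?_ (hax w₀ hw.le)
  have e0 : F (c + w₀ * (Complex.I * e)) = F (c + w₀ * (Complex.I * e) + (0 : ℝ) * e) := by simp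
  rw [e0]
  rcases le_total u₀ 0 with h3 | h3
  · have hup := A4.up h (c + w₀ * (Complex.I * e)) e (a := u₀) (b := 0) fun u hu2 =>
      h0.ge.trans (hm ⟨hu1.1.le, hu1.2.le⟩ ⟨by linarith [hu2.1], by linarith [hu2.2]⟩ hu2.1)
    exact hup ⟨le_rfl, h3⟩ ⟨h3, le_rfl⟩ h3
  · have hdn := A4.down h (c + w₀ * (Complex.I * e)) e (a := 0) (b := u₀) fun u hu2 =>
      (hm ⟨by linarith [hu2.1], by linarith [hu2.2]⟩ ⟨hu1.1.le, hu1.2.le⟩ hu2.2).trans h0.le
    exact hdn ⟨le_rfl, h3⟩ ⟨h3, le_rfl⟩ h3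

namespace A4

theorem lin_ge (f : ℝ) (w v : ℂ) : (‖w‖ - |f|) * ‖v‖ ≤ ‖(f : ℂ) * v + w * conj v‖ := by
  have h1 : ‖w * conj v‖ ≤ ‖(f : ℂ) * v + w * conj v‖ + ‖(f : ℂ) * v‖ := by
    have := norm_sub_le ((f : ℂ) * v + w * conj v) ((f : ℂ) * v)
    rwa [add_sub_cancel_left] at this
  rw [norm_mul, norm_mul, Complex.norm_conj, Complex.norm_real, Real.norm_eq_abs] at h1
  linarith

theorem solve (f : ℝ) (w z : ℂ) (h : |f| < ‖w‖) : ∃ v : ℂ, (f : ℂ) * v + w * conj v = 2 * z := by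
  have h1 : f ^ 2 - ‖w‖ ^ 2 ≠ 0 := by
    have : f ^ 2 < ‖w‖ ^ 2 := by
      rw [← sq_abs f]
      exact pow_lt_pow_left₀ h (abs_nonneg _) two_ne_zero
    linarith
  have h2 : ((f ^ 2 - ‖w‖ ^ 2 : ℝ) : ℂ) ≠ 0 := Complex.ofReal_ne_zero.2 h1
  refine ⟨2 * (f * z - w * conj z) / ((f ^ 2 - ‖w‖ ^ 2 : ℝ) : ℂ), ?_⟩
  simp only [map_div₀, map_mul, map_sub, Complex.conj_ofReal, Complex.conj_conj, map_ofNat]
  have h3 := Complex.mul_conj' w
  field_simp
  push_cast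
  linear_combination (-z) * h3

/-- the norm of the gradient has no nonzero local minimum at a nondegenerate point -/
theorem descent (h : Jet A F G H) {x : ℂ} (h1 : |F x| < ‖H x‖) (h2 : G x ≠ 0) {δ : ℝ}
    (hδ : 0 < δ) : ∃ y, ‖y - x‖ ≤ δ ∧ ‖G y‖ < ‖G x‖ := by
  obtain ⟨v, hv⟩ := solve (F x) (H x) (G x) h1
  have hA := h.one
  have hg : 0 < ‖G x‖ := norm_pos_iff.2 h2
  have hv0 : 0 ≤ ‖v‖ := norm_nonneg v
  obtain ⟨t, ht0, ht1, ht2, ht3⟩ : ∃ t : ℝ, 0 < t ∧ t ≤ 1 ∧ t * ‖v‖ ≤ δ ∧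
      t * (A * ‖v‖ ^ 2) < ‖G x‖ := by
    refine ⟨min 1 (min (δ / (‖v‖ + 1)) (‖G x‖ / (A * ‖v‖ ^ 2 + 1))), by positivity,
      min_le_left _ _, ?_, ?_⟩
    · have a1 : min 1 (min (δ / (‖v‖ + 1)) (‖G x‖ / (A * ‖v‖ ^ 2 + 1))) ≤ δ / (‖v‖ + 1) :=
        (min_le_right _ _).trans (min_le_left _ _)
      have a2 : δ / (‖v‖ + 1) * ‖v‖ ≤ δ := by
        rw [div_mul_eq_mul_div, div_le_iff₀ (by positivity)]
        nlinarith
      exact (mul_le_mul_of_nonneg_right a1 hv0).trans a2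
    · have a1 : min 1 (min (δ / (‖v‖ + 1)) (‖G x‖ / (A * ‖v‖ ^ 2 + 1))) ≤
          ‖G x‖ / (A * ‖v‖ ^ 2 + 1) := (min_le_right _ _).trans (min_le_right _ _)
      have a2 : ‖G x‖ / (A * ‖v‖ ^ 2 + 1) * (A * ‖v‖ ^ 2) < ‖G x‖ := by
        rw [div_mul_eq_mul_div, div_lt_iff₀ (by positivity)]
        nlinarith
      exact (mul_le_mul_of_nonneg_right a1 (by positivity)).trans_lt a2
  have hn : ‖(t : ℂ) * v‖ = t * ‖v‖ := by
    rw [norm_mul, Complex.norm_real, Real.norm_eq_abs, abs_of_pos ht0]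
  refine ⟨x + t * v, by rw [add_sub_cancel_left, hn]; exact ht2, ?_⟩
  have t1 := h.tG x (t * v)
  have e1 : G (x + t * v) - G x + (F x * (t * v) + H x * conj ((t : ℂ) * v)) / 2 =
      G (x + t * v) - ((1 - t : ℝ) : ℂ) * G x := by
    rw [map_mul, Complex.conj_ofReal]
    push_cast
    linear_combination (t / 2 : ℂ) * hv
  rw [e1, hn] at t1
  have t2 : ‖G (x + t * v)‖ ≤ ‖G (x + t * v) - ((1 - t : ℝ) : ℂ) * G x‖ +
      ‖((1 - t : ℝ) : ℂ) * G x‖ := by
    have := norm_add_le (G (x + t * v) - ((1 - t : ℝ) : ℂ) * G x) (((1 - t : ℝ) : ℂ) * G x)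
    rwa [sub_add_cancel] at this
  rw [norm_mul, Complex.norm_real, Real.norm_eq_abs, abs_of_nonneg (by linarith)] at t2
  have t3 := mul_lt_mul_of_pos_left ht3 ht0
  nlinarith

end A4

theorem Jet.isolated (h : Jet A F G H) (h2 : κ ≤ d / 2) (hc : Sad F G H κ d c) {c' : ℂ}
    (h0 : G c' = 0) (h1 : ‖c' - c‖ < d / (4 * A)) : c' = c := by
  have hA := h.one
  by_contra hne
  have hv : 0 < ‖c' - c‖ := norm_pos_iff.2 (sub_ne_zero.2 hne)
  have t := h.tG c (c' - c)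
  rw [add_sub_cancel, h0, hc.1, sub_zero, zero_add, norm_div, Complex.norm_ofNat] at t
  have l := A4.lin_ge (F c) (H c) (c' - c)
  have a1 : d / 2 * ‖c' - c‖ ≤ (‖H c‖ - |F c|) * ‖c' - c‖ :=
    mul_le_mul_of_nonneg_right (by linarith [hc.2.1, hc.2.2]) hv.le
  rw [lt_div_iff₀ (by positivity)] at h1
  have a2 := mul_lt_mul_of_pos_right h1 hv
  nlinarith

theorem Jet.newton (h : Jet A F G H) {g : ℝ} {x : ℂ} (hd : 0 < d) (h1 : |F x| ≤ d / 8)
    (h2 : ‖G x‖ ≤ g) (h3 : 2 * d ≤ ‖H x‖) (h4 : 64 * A * g ≤ d ^ 2) : ∃ c, ‖c - x‖ ≤ 4 * g / d ∧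
      G c = 0 ∧ |F c - F x| ≤ 16 * g ^ 2 / d ∧ d ≤ ‖H c‖ := by
  have hA := h.one
  rcases ((norm_nonneg _).trans h2).eq_or_lt with hg | hg
  · subst hg
    exact ⟨x, by simp, norm_le_zero_iff.1 h2, by simp, by linarith⟩
  have hη : 0 < ‖H x‖ := by linarith
  obtain ⟨ρ, hρ0, hρ⟩ : ∃ ρ : ℝ, 0 < ρ ∧ ρ * ‖H x‖ = 8 * g :=
    ⟨8 * g / ‖H x‖, by positivity, by field_simp⟩
  have b1 : ρ * d ≤ 4 * g := by nlinarith
  have b2 : A * ρ ≤ d / 16 := by
    have a1 : A * (ρ * d) ≤ A * (4 * g) := mul_le_mul_of_nonneg_left b1 (by linarith)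
    have a2 : A * ρ * d ≤ d / 16 * d := by nlinarith
    exact le_of_mul_le_mul_right a2 hd
  obtain ⟨c, hc, hmin⟩ := (isCompact_closedBall x ρ).exists_isMinOn
    ⟨x, Metric.mem_closedBall_self hρ0.le⟩ (h.cont.2.1.norm.continuousOn)
  rw [mem_closedBall_iff_norm] at hc
  have hv0 := norm_nonneg (c - x)
  have b3 : A * ‖c - x‖ ≤ d / 16 := (mul_le_mul_of_nonneg_left hc (by linarith)).trans b2
  have hHc : ‖H x‖ - d / 16 ≤ ‖H c‖ := by
    have t := h.tH x (c - x)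
    rw [add_sub_cancel] at t
    have := norm_sub_norm_le (H x) (H c)
    rw [norm_sub_rev] at this
    linarith
  have hFc : |F c| ≤ d / 8 + d / 16 := by
    have t := (h.lip c x).1
    have := abs_sub_abs_le_abs_sub (F c) (F x)
    linarith
  have hm : ‖G c‖ ≤ g := (hmin (Metric.mem_closedBall_self hρ0.le)).trans h2
  have hin : ‖c - x‖ < ρ := by
    refine lt_of_le_of_ne hc fun hb => ?_
    have t := h.tG x (c - x)
    rw [add_sub_cancel] at t
    have l := A4.lin_ge (F x) (H x) (c - x)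
    have a1 : ‖((F x : ℂ) * (c - x) + H x * conj (c - x)) / 2‖ ≤
        ‖G c - G x + ((F x : ℂ) * (c - x) + H x * conj (c - x)) / 2‖ + ‖G c - G x‖ := by
      have := norm_sub_le (G c - G x + ((F x : ℂ) * (c - x) + H x * conj (c - x)) / 2)
        (G c - G x)
      rwa [add_sub_cancel_left] at this
    rw [norm_div, Complex.norm_ofNat] at a1
    have a2 := norm_sub_le (G c) (G x)
    rw [hb] at t l
    have a3 : |F x| * ρ ≤ d / 8 * ρ := mul_le_mul_of_nonneg_right h1 hρ0.le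
    have a4 : A * ρ * ρ ≤ d / 16 * ρ := mul_le_mul_of_nonneg_right b2 hρ0.le
    nlinarith
  have hG : G c = 0 := by
    by_contra hne
    obtain ⟨y, hy1, hy2⟩ := A4.descent h (x := c) (by linarith) hne (sub_pos.2 hin)
    have : y ∈ Metric.closedBall x ρ := by
      rw [mem_closedBall_iff_norm]
      have := norm_add_le (y - c) (c - x)
      rw [sub_add_sub_cancel] at this
      linarith
    exact absurd (hmin this) (not_le.2 hy2)
  refine ⟨c, ?_, hG, ?_, by linarith⟩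
  · rw [le_div_iff₀ hd]
    nlinarith
  · have t := h.tF x (c - x)
    rw [add_sub_cancel] at t
    have a1 : |dot (G x) (c - x)| ≤ g * ρ :=
      (A4.dot_le _ _).trans (mul_le_mul h2 hc hv0 hg.le)
    have hs : ‖c - x‖ ^ 2 ≤ ρ ^ 2 := pow_le_pow_left₀ hv0 hc 2
    have a2 : |F x * ‖c - x‖ ^ 2| ≤ d / 8 * ρ ^ 2 := by
      rw [abs_mul, abs_of_nonneg (sq_nonneg ‖c - x‖)]
      exact mul_le_mul h1 hs (sq_nonneg _) (by positivity)
    have a3 : |(H x * conj (c - x) ^ 2).re| ≤ 8 * g * ρ := by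
      calc |(H x * conj (c - x) ^ 2).re| ≤ ‖H x * conj (c - x) ^ 2‖ := Complex.abs_re_le_norm _
        _ = ‖H x‖ * ‖c - x‖ ^ 2 := by rw [norm_mul, norm_pow, Complex.norm_conj]
        _ ≤ ‖H x‖ * ρ ^ 2 := mul_le_mul_of_nonneg_left hs hη.le
        _ = 8 * g * ρ := by rw [← hρ]; ring
    have a4 : A * ‖c - x‖ ^ 3 ≤ d / 16 * ρ ^ 2 := by
      rw [pow_succ' _ 2, ← mul_assoc]
      exact mul_le_mul b3 hs (sq_nonneg _) (by positivity)
    have a5 : d * ρ ^ 2 ≤ 4 * g * ρ := by nlinarith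
    have a6 : |F c - F x| ≤ 4 * g * ρ := by
      have t' := abs_le.1 t
      have a1' := abs_le.1 a1
      have a2' := abs_le.1 a2
      have a3' := abs_le.1 a3
      have : 0 < g * ρ := by positivity
      rw [abs_le]
      constructor <;> nlinarith
    rw [le_div_iff₀ hd]
    have a7 := mul_le_mul_of_nonneg_right a6 hd.le
    have a8 := mul_le_mul_of_nonneg_left b1 (by positivity : 0 ≤ 4 * g)
    nlinarith

end Pool.Agent.Lib.MP_e1e19a_an
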