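import Pool.Agent.Lib.MP_e1e19a_an.N.A4

/-!
Without closed nodal curves the necks form a forest.
-/

namespace Pool.Agent.Lib.MP_e1e19a_an

open Real MeasureTheory Set
open scoped MatrixGroups ComplexConjugate UpperHalfPlane

namespace A5

open Complex in
theorem lift_exp {A : Type*} [TopologicalSpace A] {G : unitInterval × A → ℂ} (hG : Continuous G)
    (h0 : ∀ p, G p ≠ 0) {L₀ : A → ℂ} (hL : Continuous L₀) (he : ∀ a, cexp (L₀ a) = G (0, a)) :
    ∃ L : unitInterval × A → ℂ, Continuous L ∧ ∀ p, cexp (L p) = G p := by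
  let H : C(unitInterval × A, {z : ℂ // z ≠ 0}) := ⟨fun p => ⟨G p, h0 p⟩, hG.subtype_mk _⟩
  have H0 : ∀ a, H (0, a) = (fun z => (⟨cexp z, exp_ne_zero z⟩ : {z : ℂ // z ≠ 0}))
      ((⟨L₀, hL⟩ : C(A, ℂ)) a) := fun a => Subtype.ext (he a).symm
  exact ⟨isCoveringMap_exp.liftHomotopy H ⟨L₀, hL⟩ H0, ContinuousMap.continuous _, fun p =>
    congrArg Subtype.val (congrFun (isCoveringMap_exp.liftHomotopy_lifts H ⟨L₀, hL⟩ H0) p)⟩

open Complex in
theorem incr {s : Set ℂ} (hs : IsPreconnected s) {f g : ℂ → ℂ} (hf : ContinuousOn f s)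
    (hg : ContinuousOn g s) (h : ∀ z ∈ s, cexp (f z) = cexp (g z)) {x y : ℂ} (hx : x ∈ s)
    (hy : y ∈ s) : f y - f x = g y - g x := by
  have := isPreconnected_iff_preconnectedSpace.1 hs
  exact congrFun (isCoveringMap_exp.eq_of_comp_eq (g₁ := fun z : s => f z - f x)
    (g₂ := fun z : s => g z - g x) (hf.domRestrict.sub continuous_const)
    (hg.domRestrict.sub continuous_const) (funext fun z => Subtype.ext (by
      change cexp (f z - f x) = cexp (g z - g x)
      rw [Complex.exp_sub, Complex.exp_sub, h z z.2, h x hx])) ⟨x, hx⟩ (by simp)) ⟨y, hy⟩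

open Complex in
theorem has_log {K : Set ℂ} (hK : IsCompact K) {p : ℂ}
    (h : ¬Bornology.IsBounded (connectedComponentIn Kᶜ p)) :
    ∃ L : ℂ → ℂ, ContinuousOn L K ∧ ∀ z ∈ K, cexp (L z) = z - p := by
  classical
  obtain ⟨R, R0, hR⟩ := hK.isBounded.subset_ball_lt 0 0
  obtain ⟨q, q1, q2⟩ := not_subset.1 fun e => h ((Metric.isBounded_ball (x := 0) (r := R)).subset e)
  have hp : p ∈ Kᶜ := connectedComponentIn_nonempty_iff.1 ⟨q, q1⟩
  rw [mem_ball_zero_iff, not_lt] at q2
  have q0 : q ≠ 0 := norm_pos_iff.1 (R0.trans_le q2)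
  obtain ⟨γ, hγ⟩ := ((hK.isClosed.isOpen_compl.connectedComponentIn.isConnected_iff_isPathConnected).1
    (isConnected_connectedComponentIn_iff.2 hp)).joinedIn q q1 p (mem_connectedComponentIn hp)
  have sl : ∀ z : K, 1 - (z : ℂ) / q ∈ slitPlane := fun z => by
    rw [sub_eq_add_neg]
    refine mem_slitPlane_of_norm_lt_one ?_
    rw [norm_neg, norm_div, div_lt_one (R0.trans_le q2)]
    exact (mem_ball_zero_iff.1 (hR z.2)).trans_le q2
  obtain ⟨L, h1, h2⟩ := lift_exp (A := K) (G := fun x => x.2 - γ x.1) (by fun_prop)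
    (fun x e => connectedComponentIn_subset _ _ (hγ x.1) (sub_eq_zero.1 e ▸ x.2.2))
    (L₀ := fun z => log (-q) + log (1 - z / q))
    (continuous_const.add (Continuous.clog (by fun_prop) sl)) fun z => by
      rw [Complex.exp_add, Complex.exp_log (neg_ne_zero.2 q0), Complex.exp_log (slitPlane_ne_zero (sl z))]
      simp only [Path.source]
      field_simp
      ring
  refine ⟨fun z => if h : z ∈ K then L (1, ⟨z, h⟩) else 0, continuousOn_iff_continuous_domRestrict.2
    ((h1.comp (.prodMk_right 1)).congr fun z => by simp), fun z hz => ?_⟩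
  simp [hz, h2]

theorem front {U : Set ℂ} (hU : IsOpen U) (x : ℂ) : frontier (connectedComponentIn U x) ⊆ Uᶜ := by
  rw [hU.connectedComponentIn.frontier_eq]
  rintro y ⟨h1, h2⟩ hy
  obtain ⟨z, z1, z2⟩ := mem_closure_iff.1 h1 _ hU.connectedComponentIn (mem_connectedComponentIn hy)
  rw [connectedComponentIn_eq z2, ← connectedComponentIn_eq z1] at h2
  exact h2 (mem_connectedComponentIn hy)

theorem count {β γ : Type*} [DecidableEq γ] (E : Finset β) (l r : β → γ) (φ : β → γ → Prop)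
    (h1 : ∀ c ∈ E, φ c (l c)) (h2 : ∀ c ∈ E, ¬φ c (r c))
    (h3 : ∀ c ∈ E, ∀ c' ∈ E, c' ≠ c → (φ c (l c') ↔ φ c (r c'))) :
    E.card ≤ (E.image l ∪ E.image r).card := by
  classical
  let V := E.image l ∪ E.image r
  let v : E → V → ℝ := fun c W => (if l c = W then 1 else 0) - if r c = W then 1 else 0
  have key : ∀ c c' : E, ∑ W : V, (if φ c W then 1 else 0) * v c' W = if c' = c then 1 else 0 := by
    intro c c'
    have a : ∀ W ∈ V, ∑ X : V, (if φ c X then (1 : ℝ) else 0) * (if W = X then 1 else 0) =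
        if φ c W then 1 else 0 := fun W hW => by
      rw [Finset.sum_eq_single ⟨W, hW⟩ (fun X _ h => by
        rw [if_neg (show ¬W = X from fun e => h (Subtype.ext e.symm)), mul_zero]) (by simp)]
      simp
    simp only [v, mul_sub, Finset.sum_sub_distrib]
    rw [a _ (Finset.mem_union_left _ (Finset.mem_image_of_mem _ c'.2)),
      a _ (Finset.mem_union_right _ (Finset.mem_image_of_mem _ c'.2))]
    by_cases e : c' = c
    · simp [e, h1 c c.2, h2 c c.2]
    · simp [e, h3 c c.2 c' c'.2 fun h => e (Subtype.ext h)]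
  have : LinearIndependent ℝ v := Fintype.linearIndependent_iff.2 fun g hg c => by
    have : ∑ W : V, (if φ c W then 1 else 0) * (∑ c', g c' • v c') W = 0 := by
      rw [hg]
      simp
    simp only [Finset.sum_apply, Pi.smul_apply, smul_eq_mul, Finset.mul_sum] at this
    rw [Finset.sum_comm] at this
    simp only [mul_left_comm _ (g _), ← Finset.mul_sum, key] at this
    simpa using this
  simpa using this.fintype_card_le_finrank

end A5

open A5

open Complex in
theorem crossing {B : Set ℂ} (hB : IsCompact B) (hc : IsPreconnected B) {a r : ℝ} (ha : 0 < a)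
    (hr : 0 < r) (h1 : (a : ℂ) ∈ B) (h2 : (-a : ℂ) ∈ B)
    (h3 : ∀ u : ℝ, |u| ≤ r → u * Complex.I ∉ B) : ∃ u : ℝ, |u| = r ∧ Bornology.IsBounded
      (connectedComponentIn (B ∪ (fun x : ℝ => (x : ℂ)) '' Icc (-a) a)ᶜ (u * Complex.I)) := by
  by_contra H
  push Not at H
  have hK : IsCompact (B ∪ (fun x : ℝ => (x : ℂ)) '' Icc (-a) a) :=
    hB.union (isCompact_Icc.image continuous_ofReal)
  obtain ⟨L, l1, l2⟩ := has_log hK (H r (abs_of_pos hr))
  obtain ⟨L', l3, l4⟩ := has_log hK (H (-r) (by rw [abs_neg, abs_of_pos hr]))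
  simp only [ofReal_neg, neg_mul, sub_neg_eq_add] at l4
  have n0 : ∀ z ∈ B, z + r * I ≠ 0 := fun z hz e => h3 (-r) (by rw [abs_neg, abs_of_pos hr])
    (by rwa [ofReal_neg, neg_mul, ← eq_neg_of_add_eq_zero_left e])
  have sl : ∀ z ∈ B, (z - r * I) / (z + r * I) ∈ slitPlane := fun z hz => by
    by_contra h
    rw [mem_slitPlane_iff, not_or, not_lt, not_not] at h
    obtain ⟨s, hs⟩ : ∃ s : ℝ, (z - r * I) / (z + r * I) = s := ⟨_, Complex.ext rfl h.2⟩
    rw [hs, ofReal_re] at h
    rw [div_eq_iff (n0 z hz)] at hs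
    have s0 : 0 < 1 - s := by linarith [h.1]
    have s1 : (1 - s : ℂ) ≠ 0 := by exact_mod_cast s0.ne'
    refine h3 (r * (1 + s) / (1 - s)) ?_ ?_
    · rw [abs_div, abs_of_pos s0, div_le_iff₀ s0, abs_mul, abs_of_pos hr]
      exact mul_le_mul_of_nonneg_left (abs_le.2 ⟨by linarith, by linarith [h.1]⟩) hr.le
    · convert hz using 1
      push_cast
      field_simp
      linear_combination -hs
  have e1 := incr hc (f := fun z => L z - L' z) (g := fun z => log ((z - r * I) / (z + r * I)))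
    ((l1.sub l3).mono subset_union_left)
    (ContinuousOn.clog (ContinuousOn.div (by fun_prop) (by fun_prop) n0) sl) (fun z hz => by
      rw [Complex.exp_sub, l2 z (Or.inl hz), l4 z (Or.inl hz), Complex.exp_log (slitPlane_ne_zero (sl z hz))]) h2 h1
  have s1 : ∀ x : ℝ, (x : ℂ) - r * I ∈ slitPlane := fun x => Or.inr (by simp [hr.ne'])
  have s2 : ∀ x : ℝ, (x : ℂ) + r * I ∈ slitPlane := fun x => Or.inr (by simp [hr.ne'])
  have e2 := incr (isPreconnected_Icc.image (fun x : ℝ => (x : ℂ)) continuous_ofReal.continuousOn)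
    (f := fun z => L z - L' z) (g := fun z => log (z - r * I) - log (z + r * I))
    ((l1.sub l3).mono subset_union_right)
    ((ContinuousOn.clog (by fun_prop) (by rintro _ ⟨x, -, rfl⟩; exact s1 x)).sub
      (ContinuousOn.clog (by fun_prop) (by rintro _ ⟨x, -, rfl⟩; exact s2 x)))
    (by
      rintro _ ⟨x, hx, rfl⟩
      rw [Complex.exp_sub, Complex.exp_sub, l2 _ (Or.inr ⟨x, hx, rfl⟩), l4 _ (Or.inr ⟨x, hx, rfl⟩),
        Complex.exp_log (slitPlane_ne_zero (s1 x)), Complex.exp_log (slitPlane_ne_zero (s2 x))])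
    (x := -a) (y := a) ⟨-a, ⟨le_rfl, by linarith⟩, ofReal_neg a⟩ ⟨a, ⟨by linarith, le_rfl⟩, rfl⟩
  obtain ⟨n, hn⟩ := exp_eq_exp_iff_exists_int.1 (show cexp (log ((a - r * I) / (a + r * I))) =
    cexp (log (a - r * I) - log (a + r * I)) by
      rw [Complex.exp_sub, Complex.exp_log (slitPlane_ne_zero (sl _ h1)), Complex.exp_log (slitPlane_ne_zero (s1 a)),
        Complex.exp_log (slitPlane_ne_zero (s2 a))])
  have e3 := congrArg im (e1.symm.trans e2)
  have e4 := congrArg im hn
  have cj : ∀ x : ℝ, arg (x - r * I) = -arg (x + r * I) := fun x => by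
    rw [show (x - r * I : ℂ) = conj (x + r * I) by simp [sub_eq_add_neg], arg_conj,
      if_neg (slitPlane_arg_ne_pi (s2 x))]
  have c2 := cj (-a)
  rw [ofReal_neg] at c2
  simp only [sub_im, add_im, log_im, cj a, c2] at e3 e4
  have b1 : |arg (a + r * I)| < π / 2 := abs_arg_lt_pi_div_two_iff.2 (Or.inl (by simpa))
  have b2 : 0 ≤ arg (a + r * I) := arg_nonneg_iff.2 (by simpa using hr.le)
  have b3 : π / 2 < arg (-a + r * I) := not_le.1 fun h => by
    rcases arg_le_pi_div_two_iff.1 h with h | h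
    · simp [ha.not_ge] at h
    · simp [hr.le.not_gt] at h
  have b4 := neg_pi_lt_arg ((a - r * I) / (a + r * I))
  have b5 := arg_le_pi ((a - r * I) / (a + r * I))
  have b6 := neg_pi_lt_arg ((-a - r * I) / (-a + r * I))
  have e5 : (n * (2 * π * I) : ℂ).im = n * (2 * π) := by simp
  rw [e5] at e4
  have p := pi_pos
  rw [abs_lt] at b1
  have n1 : (0 : ℝ) < n := (mul_pos_iff_of_pos_right (show 0 < 2 * π by positivity)).1 (by linarith)
  have n2 : (1 : ℝ) ≤ n := by exact_mod_cast (show 0 < n by exact_mod_cast n1)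
  nlinarith

open Classical in
theorem Jet.forest {A κ d r ε : ℝ} {F : ℂ → ℝ} {G H : ℂ → ℂ} (h : Jet A F G H) (hr : 0 < r)
    (h1 : 40 * A * r ≤ d) (h2 : κ ≤ d * r ^ 2 / 100) (h3 : 0 < ε) (h4 : ε ≤ κ)
    (hB : ¬Barrier fun x => -F x) (E : Finset ℂ)
    (hE : ∀ c ∈ E, Sad F G H κ d c ∧ 0 < F c ∧ F c ≤ ε) :
    E.card ≤ ((E.image fun c => comp F ε (c + r * fr (H c))) ∪
      E.image fun c => comp F ε (c - r * fr (H c))).card := by
  have A1 := h.one
  have d0 : 0 < d := by nlinarith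
  have o : IsOpen {y | ε < F y} := isOpen_lt continuous_const h.cont.1
  let Y : ℂ → Set ℂ := fun c => {y | ε < F y} ∪
    {y | ∃ c' ∈ E, c' ≠ c ∧ ∃ u : ℝ, |u| ≤ r ∧ y = c' + u * fr (H c')}
  have hp : ∀ c ∈ E, ∀ u : ℝ, |u| = r → ε < F (c + u * fr (H c)) := fun c hc u hu => by
    have := (h.axes hr h1 h2 (hE c hc).1).2.2.2 u hu
    nlinarith [mul_pos d0 (pow_pos hr 2)]
  have p1 : ∀ c ∈ E, ε < F (c + r * fr (H c)) := fun c hc => hp c hc r (abs_of_pos hr)
  have p2 : ∀ c ∈ E, ε < F (c - r * fr (H c)) := fun c hc => by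
    simpa [sub_eq_add_neg] using hp c hc (-r) (by rw [abs_neg, abs_of_pos hr])
  have jn : ∀ c p x, ε < F x → ((∃ y ∈ comp F ε x, JoinedIn (Y c) p y) ↔ JoinedIn (Y c) p x) :=
    fun c p x hx => ⟨fun ⟨y, y1, y2⟩ => y2.trans (((o.connectedComponentIn.isConnected_iff_isPathConnected.1
      (isConnected_connectedComponentIn_iff.2 hx)).joinedIn y y1 x (mem_connectedComponentIn hx)).mono
        ((connectedComponentIn_subset _ _).trans subset_union_left)),
      fun j => ⟨x, mem_connectedComponentIn hx, j⟩⟩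
  refine count E _ _ (fun c W => ∃ y ∈ W, JoinedIn (Y c) (c + r * fr (H c)) y)
    (fun c hc => (jn c _ _ (p1 c hc)).2 (JoinedIn.refl (Or.inl (p1 c hc)))) (fun c hc j => ?_)
    fun c hc c' hc' e => ?_
  · obtain ⟨γ, hγ⟩ := (jn c _ _ (p2 c hc)).1 j
    obtain ⟨a1, a2, a3, -⟩ := h.axes hr h1 h2 (hE c hc).1
    have n1 := fr_norm (H c)
    have n0 : fr (H c) ≠ 0 := norm_pos_iff.1 (n1 ▸ one_pos)
    let T : ℂ ≃ₜ ℂ := (Homeomorph.mulRight₀ _ n0).trans (Homeomorph.addLeft c)
    have hT : ∀ w, T w = c + w * fr (H c) := fun _ => rfl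
    have pos : ∀ y ∈ Y c, 0 < F y := by
      rintro y (hy | ⟨c', hc', -, u, hu, rfl⟩)
      · exact h3.trans hy
      · exact (hE c' hc').2.1.trans_le ((h.axes hr h1 h2 (hE c' hc').1).1 u hu)
    have r1 : 40 * r ≤ 1 := by nlinarith [(hE c hc).1.2.2.trans (h.bH c)]
    obtain ⟨u, hu, bd⟩ := crossing (B := T ⁻¹' range γ) (T.isCompact_preimage.2
      (isCompact_range γ.continuous)) (T.isPreconnected_preimage.2
      (isPreconnected_range γ.continuous)) hr (half_pos hr) ⟨0, γ.source⟩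
      ⟨1, γ.target.trans (by rw [hT]; ring)⟩ fun u hu ⟨t, ht⟩ => by
        have := hγ t
        rw [ht, hT, mul_assoc] at this
        rcases this with e | ⟨c', hc', e1, v, hv, e2⟩
        · exact (e.trans_le (a2 u hu)).not_ge (hE c hc).2.2
        · refine e1 (h.isolated (by nlinarith [mul_pos d0 hr]) (hE c hc).1 (hE c' hc').1.1 ?_)
          rw [show c' - c = u * (Complex.I * fr (H c)) - v * fr (H c') by linear_combination -e2,
            lt_div_iff₀ (by positivity)]
          have := norm_sub_le (u * (Complex.I * fr (H c))) (v * fr (H c'))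
          simp only [norm_mul, fr_norm, Complex.norm_I, Complex.norm_real, Real.norm_eq_abs] at this
          nlinarith [mul_pos hr (one_pos.trans_le A1)]
    set K := T ⁻¹' range γ ∪ (fun x : ℝ => (x : ℂ)) '' Icc (-r) r
    have cl : IsClosed K := ((T.isCompact_preimage.2 (isCompact_range γ.continuous)).union
      (isCompact_Icc.image Complex.continuous_ofReal)).isClosed
    have pk : ∀ w ∈ K, 0 < F (T w) := by
      rintro w (⟨t, ht⟩ | ⟨x, hx, rfl⟩)
      · exact ht ▸ pos _ (hγ t)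
      · exact (hE c hc).2.1.trans_le (a1 x (abs_le.2 hx))
    have ng : F (T (u * Complex.I)) < 0 := by rw [hT, mul_assoc]; exact a3 u hu
    refine hB ⟨T '' connectedComponentIn Kᶜ (u * Complex.I), T (u * Complex.I),
      T.isOpenMap _ cl.isOpen_compl.connectedComponentIn, ?_,
      mem_image_of_mem _ (mem_connectedComponentIn fun e => ng.not_gt (pk _ e)), neg_pos.2 ng, ?_⟩
    · exact (bd.isCompact_closure.image T.continuous).isBounded.subset (image_mono subset_closure)
    · rw [← T.image_frontier]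
      rintro _ ⟨w, hw, rfl⟩
      exact neg_neg_of_pos (pk w (not_not.1 (front cl.isOpen_compl _ hw)))
  · rw [jn c _ _ (p1 c' hc'), jn c _ _ (p2 c' hc')]
    have j : JoinedIn (Y c) (c' + r * fr (H c')) (c' - r * fr (H c')) :=
      JoinedIn.of_segment_subset (by
        rintro _ ⟨s, t, s0, t0, st, rfl⟩
        refine Or.inr ⟨c', hc', e, (s - t) * r, ?_, ?_⟩
        · rw [abs_mul, abs_of_pos hr]
          exact mul_le_of_le_one_left hr.le (abs_le.2 ⟨by linarith, by linarith⟩)
        · have : (s + t : ℂ) = 1 := by exact_mod_cast st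
          simp only [Complex.real_smul]
          push_cast
          linear_combination c' * this)
    exact ⟨fun k => k.trans j, fun k => k.trans j.symm⟩

end Pool.Agent.Lib.MP_e1e19a_an
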