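import Pool.Agent.Lib.MP_e1e19a_an.N.A0

/-!
A uniform bound for the number of zeros on unit segments.
-/

namespace Pool.Agent.Lib.MP_e1e19a_an

open Real MeasureTheory Set
open scoped MatrixGroups ComplexConjugate UpperHalfPlane

namespace A6

open Filter Topology

variable {ι : Type} {a μ : ι → ℝ}

/-- the derivatives of a sum of waves along a line -/
noncomputable def g (a μ : ι → ℝ) (n : ℕ) (φ : ι → ℝ) (s : ℝ) : ℝ :=
  ∑' i, a i * μ i ^ n * cos (μ i * s + φ i + n * (π / 2))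

lemma term_le (ha : ∀ i, 0 < a i) (hμ : ∀ i, |μ i| ≤ 1) (n : ℕ) (i : ι) (θ : ℝ) :
    ‖a i * μ i ^ n * cos θ‖ ≤ a i := by
  rw [Real.norm_eq_abs, abs_mul, abs_mul, abs_pow, abs_of_pos (ha i)]
  have h1 : |μ i| ^ n ≤ 1 := pow_le_one₀ (abs_nonneg _) (hμ i)
  have h2 := abs_cos_le_one θ
  have h3 := (ha i).le
  calc a i * |μ i| ^ n * |cos θ| ≤ a i * 1 * 1 := by gcongr
    _ = a i := by ring

lemma g_le (ha : ∀ i, 0 < a i) (hs : Summable a) (hμ : ∀ i, |μ i| ≤ 1) (n : ℕ) (φ : ι → ℝ)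
    (s : ℝ) : ‖g a μ n φ s‖ ≤ ∑' i, a i :=
  tsum_of_norm_bounded hs.hasSum fun i => term_le ha hμ n i _

lemma g_deriv (ha : ∀ i, 0 < a i) (hs : Summable a) (hμ : ∀ i, |μ i| ≤ 1) (n : ℕ) (φ : ι → ℝ)
    (s : ℝ) : HasDerivAt (g a μ n φ) (g a μ (n + 1) φ s) s := by
  refine hasDerivAt_tsum (y₀ := 0) hs
    (g := fun i s => a i * μ i ^ n * cos (μ i * s + φ i + n * (π / 2)))
    (g' := fun i s => a i * μ i ^ (n + 1) * cos (μ i * s + φ i + (n + 1 : ℕ) * (π / 2)))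
    (fun i y => ?_) (fun i y => term_le ha hμ _ i _)
    (hs.of_norm_bounded fun i => term_le ha hμ n i _) s
  have h1 : HasDerivAt (fun s => μ i * s + φ i + n * (π / 2)) (μ i) y := by
    simpa using (((hasDerivAt_id y).const_mul (μ i)).add_const (φ i)).add_const (n * (π / 2))
  refine (h1.cos.const_mul (a i * μ i ^ n)).congr_deriv ?_
  have : μ i * y + φ i + ((n + 1 : ℕ) : ℝ) * (π / 2) =
      μ i * y + φ i + n * (π / 2) + π / 2 := by push_cast; ring
  rw [this, cos_add_pi_div_two]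
  ring

lemma g_shift (n : ℕ) (φ : ι → ℝ) (s : ℝ) :
    g a μ n φ s = g a μ n (fun i => μ i * s + φ i) 0 := by
  simp [g]

lemma g_cont (ha : ∀ i, 0 < a i) (hs : Summable a) (hμ : ∀ i, |μ i| ≤ 1) (n : ℕ) :
    Continuous fun φ : ι → ℝ => g a μ n φ 0 :=
  continuous_tsum (fun i => by fun_prop) hs fun i φ => term_le ha hμ n i _

lemma g_lip (ha : ∀ i, 0 < a i) (hs : Summable a) (hμ : ∀ i, |μ i| ≤ 1) (n : ℕ) (φ : ι → ℝ)
    (s u : ℝ) : ‖g a μ n φ u - g a μ n φ s‖ ≤ (∑' i, a i) * ‖u - s‖ :=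
  convex_univ.norm_image_sub_le_of_norm_hasDerivWithin_le
    (fun x _ => (g_deriv ha hs hμ n φ x).hasDerivWithinAt) (fun x _ => g_le ha hs hμ _ φ x)
    (mem_univ s) (mem_univ u)

lemma vanish_near (ha : ∀ i, 0 < a i) (hs : Summable a) (hμ : ∀ i, |μ i| ≤ 1) (φ : ι → ℝ)
    (s : ℝ) (h : ∀ n, g a μ (n + 1) φ s = 0) (u : ℝ) (hu : |u - s| ≤ 1 / 2) (n : ℕ) :
    g a μ (n + 1) φ u = 0 := by
  have key : ∀ m n : ℕ, ∀ u ∈ Metric.closedBall s (1 / 2),
      ‖g a μ (n + 1) φ u‖ ≤ (∑' i, a i) * (1 / 2) ^ m := by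
    intro m
    induction m with
    | zero => intro n u _; simpa using g_le ha hs hμ (n + 1) φ u
    | succ m ih =>
      intro n u hu
      have h1 := (convex_closedBall s (1 / 2)).norm_image_sub_le_of_norm_hasDerivWithin_le
        (fun x _ => (g_deriv ha hs hμ (n + 1) φ x).hasDerivWithinAt) (fun x hx => ih (n + 1) x hx)
        (Metric.mem_closedBall_self (by norm_num)) hu
      rw [h n, sub_zero] at h1
      have h2 : ‖u - s‖ ≤ 1 / 2 := mem_closedBall_iff_norm.1 hu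
      have h3 : 0 ≤ ∑' i, a i := tsum_nonneg fun i => (ha i).le
      calc _ ≤ _ := h1
        _ ≤ (∑' i, a i) * (1 / 2) ^ m * (1 / 2) := by gcongr
        _ = _ := by ring
  have lim : Tendsto (fun m : ℕ => (∑' i, a i) * (1 / 2 : ℝ) ^ m) atTop (𝓝 0) := by
    simpa using (tendsto_pow_atTop_nhds_zero_of_lt_one (r := (1 / 2 : ℝ)) (by norm_num)
      (by norm_num)).const_mul (∑' i, a i)
  exact norm_le_zero_iff.1 (ge_of_tendsto' lim fun m => key m n u (mem_closedBall_iff_norm.2 hu))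

lemma vanish_nat (ha : ∀ i, 0 < a i) (hs : Summable a) (hμ : ∀ i, |μ i| ≤ 1) (φ : ι → ℝ)
    (h : ∀ n, g a μ (n + 1) φ 0 = 0) (j : ℕ) : ∀ n, g a μ (n + 1) φ j = 0 := by
  induction j with
  | zero => simpa using h
  | succ j ih =>
    refine vanish_near ha hs hμ φ (j + 1 / 2)
      (vanish_near ha hs hμ φ j ih _ ?_) _ ?_
    · rw [abs_le]; constructor <;> linarith
    · push_cast; rw [abs_le]; constructor <;> linarith

lemma avg (α β : ℝ) (h0 : α ≠ 0) (h2 : |α| ≤ 2) :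
    Tendsto (fun N : ℕ => (∑ j ∈ Finset.range N, cos (α * j + β)) / N) atTop (𝓝 0) := by
  have hsin : sin (α / 2) ≠ 0 := by
    intro h
    obtain ⟨h3, h4⟩ := abs_le.1 h2
    have := (sin_eq_zero_iff_of_lt_of_lt (by linarith [pi_gt_three]) (by linarith [pi_gt_three])).1 h
    exact h0 (by linarith)
  have tel : ∀ N : ℕ, 2 * sin (α / 2) * ∑ j ∈ Finset.range N, cos (α * j + β) =
      sin (α * N + β - α / 2) - sin (β - α / 2) := by
    intro N
    induction N with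
    | zero => simp
    | succ N ih =>
      have e : α * ((N + 1 : ℕ) : ℝ) + β - α / 2 = α * N + β + α / 2 := by push_cast; ring
      rw [Finset.sum_range_succ, mul_add, ih, e, sin_add (α * N + β), sin_sub (α * N + β)]
      ring
  have bd : ∀ N : ℕ, |∑ j ∈ Finset.range N, cos (α * j + β)| ≤ 1 / |sin (α / 2)| := by
    intro N
    have h3 : 0 < |sin (α / 2)| := abs_pos.2 hsin
    rw [le_div_iff₀ h3, ← abs_mul]
    have h4 := tel N
    have h5 := abs_le.1 (abs_sin_le_one (α * N + β - α / 2))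
    have h6 := abs_le.1 (abs_sin_le_one (β - α / 2))
    rw [abs_le]
    constructor <;> linarith [h5.1, h5.2, h6.1, h6.2]
  refine squeeze_zero_norm (fun N => ?_) (tendsto_const_div_atTop_nhds_zero_nat (1 / |sin (α / 2)|))
  rw [Real.norm_eq_abs, abs_div, Nat.abs_cast]
  exact div_le_div_of_nonneg_right (bd N) (Nat.cast_nonneg N)

lemma exists_ne (ha : ∀ i, 0 < a i) (hs : Summable a) (hμ : ∀ i, |μ i| ≤ 1) (o : ι)
    (h0 : μ o ≠ 0) (h1 : ∀ i, i ≠ o → μ i ≠ μ o ∧ μ i ≠ -μ o) (φ : ι → ℝ) :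
    ∃ n, g a μ (n + 1) φ 0 ≠ 0 := by
  classical
  by_contra hc
  push Not at hc
  have hz := fun j : ℕ => vanish_nat ha hs hμ φ hc j 0
  set ψ : ι → ℝ := fun i => φ i + ((0 + 1 : ℕ) : ℝ) * (π / 2) with hψ
  let F : ℕ → ι → ℝ := fun N i =>
    (∑ j ∈ Finset.range N, a i * μ i ^ 1 * cos (μ i * j + ψ i) * cos (μ o * j + ψ o)) / N
  have hb : ∀ (j : ℕ) i, ‖a i * μ i ^ 1 * cos (μ i * j + ψ i) * cos (μ o * j + ψ o)‖ ≤ a i := by
    intro j i
    rw [norm_mul]
    exact (mul_le_of_le_one_right (norm_nonneg _) (abs_cos_le_one _)).trans (term_le ha hμ 1 i _)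
  have hF0 : ∀ N, ∑' i, F N i = 0 := by
    intro N
    simp only [F]
    rw [tsum_div_const, Summable.tsum_finsetSum fun j _ => hs.of_norm_bounded (hb j),
      Finset.sum_eq_zero, zero_div]
    intro j _
    rw [tsum_mul_right]
    have := hz j
    simp only [g, add_assoc] at this
    rw [mul_eq_zero]
    exact Or.inl this
  have hFb : ∀ N i, ‖F N i‖ ≤ a i := by
    intro N i
    rcases N.eq_zero_or_pos with rfl | hN
    · simpa [F] using (ha i).le
    · simp only [F]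
      rw [norm_div, Real.norm_natCast, div_le_iff₀ (by exact_mod_cast hN)]
      refine (norm_sum_le_of_le _ fun j _ => hb j i).trans ?_
      simp [mul_comm]
  have hFe : ∀ N i, F N i = a i * μ i / 2 *
      ((∑ j ∈ Finset.range N, cos ((μ i - μ o) * j + (ψ i - ψ o))) / N +
        (∑ j ∈ Finset.range N, cos ((μ i + μ o) * j + (ψ i + ψ o))) / N) := by
    intro N i
    simp only [F]
    rw [← add_div, ← Finset.sum_add_distrib, ← mul_div_assoc, Finset.mul_sum]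
    congr 1
    refine Finset.sum_congr rfl fun j _ => ?_
    have e1 : (μ i - μ o) * j + (ψ i - ψ o) = (μ i * j + ψ i) - (μ o * j + ψ o) := by ring
    have e2 : (μ i + μ o) * j + (ψ i + ψ o) = (μ i * j + ψ i) + (μ o * j + ψ o) := by ring
    rw [e1, e2, cos_sub, cos_add (μ i * j + ψ i) (μ o * j + ψ o)]
    ring
  have hab : ∀ i, |μ i - μ o| ≤ 2 ∧ |μ i + μ o| ≤ 2 := fun i =>
    ⟨(abs_sub _ _).trans (by linarith [hμ i, hμ o]),
      (abs_add_le _ _).trans (by linarith [hμ i, hμ o])⟩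
  have hlim : ∀ i, Tendsto (fun N => F N i) atTop (𝓝 (if i = o then a o * μ o / 2 else 0)) := by
    intro i
    simp only [hFe]
    split_ifs with hi
    · subst hi
      have h2 := avg (μ i + μ i) (ψ i + ψ i) (fun h => h0 (by linarith)) (hab i).2
      have h3 : Tendsto (fun N : ℕ =>
          (∑ j ∈ Finset.range N, cos ((μ i - μ i) * j + (ψ i - ψ i))) / N) atTop (𝓝 1) := by
        refine tendsto_const_nhds.congr' ((eventually_gt_atTop 0).mono fun N hN => ?_)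
        have : (N : ℝ) ≠ 0 := by exact_mod_cast hN.ne'
        simp [this]
      simpa using (h3.add h2).const_mul (a i * μ i / 2)
    · have h2 := avg (μ i - μ o) (ψ i - ψ o) (sub_ne_zero.2 (h1 i hi).1) (hab i).1
      have h3 := avg (μ i + μ o) (ψ i + ψ o) (fun h => (h1 i hi).2 (by linarith)) (hab i).2
      simpa using (h2.add h3).const_mul (a i * μ i / 2)
  have h4 := tendsto_tsum_of_dominated_convergence hs hlim (Eventually.of_forall hFb)
  simp only [hF0, tsum_ite_eq] at h4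
  have h5 := tendsto_nhds_unique h4 tendsto_const_nhds
  exact (div_ne_zero (mul_ne_zero (ha o).ne' h0) two_ne_zero) h5

lemma uniform (ha : ∀ i, 0 < a i) (hs : Summable a) (hμ : ∀ i, |μ i| ≤ 1) (o : ι)
    (h0 : μ o ≠ 0) (h1 : ∀ i, i ≠ o → μ i ≠ μ o ∧ μ i ≠ -μ o) :
    ∃ N : ℕ, ∀ φ : ι → ℝ, ∀ s, ∃ n ≤ N, 1 / (N + 1 : ℝ) < ‖g a μ (n + 1) φ s‖ := by
  have hK : IsCompact (univ.pi fun _ : ι => Icc (0 : ℝ) (2 * π)) :=
    isCompact_univ_pi fun _ => isCompact_Icc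
  obtain ⟨T, hT⟩ := hK.elim_finite_subcover
    (fun p : ℕ × ℕ => {φ | 1 / (p.2 + 1 : ℝ) < ‖g a μ (p.1 + 1) φ 0‖})
    (fun p => isOpen_lt continuous_const (g_cont ha hs hμ _).norm) (by
      intro φ _
      obtain ⟨n, hn⟩ := exists_ne ha hs hμ o h0 h1 φ
      obtain ⟨m, hm⟩ := exists_nat_one_div_lt (norm_pos_iff.2 hn)
      exact mem_iUnion.2 ⟨(n, m), hm⟩)
  refine ⟨T.sup fun p => max p.1 p.2, fun φ s => ?_⟩
  let φ' : ι → ℝ := fun i => toIcoMod two_pi_pos 0 (μ i * s + φ i)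
  have h2 : φ' ∈ univ.pi fun _ : ι => Icc (0 : ℝ) (2 * π) := fun i _ =>
    Ico_subset_Icc_self (toIcoMod_mem_Ico' two_pi_pos _)
  obtain ⟨p, hp, h3⟩ := mem_iUnion₂.1 (hT h2)
  have h4 : max p.1 p.2 ≤ T.sup fun p => max p.1 p.2 := Finset.le_sup (f := fun p : ℕ × ℕ => max p.1 p.2) hp
  refine ⟨p.1, (le_max_left _ _).trans h4, ?_⟩
  have h5 : g a μ (p.1 + 1) φ s = g a μ (p.1 + 1) φ' 0 := by
    refine tsum_congr fun i => ?_
    have := toIcoMod_add_toIcoDiv_zsmul two_pi_pos 0 (μ i * s + φ i)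
    rw [zsmul_eq_mul] at this
    rw [← this, add_right_comm, cos_add_int_mul_two_pi, mul_zero, zero_add]
  rw [h5]
  refine lt_of_le_of_lt ?_ h3
  have h6 : (p.2 : ℝ) ≤ (T.sup fun p => max p.1 p.2 : ℕ) := by
    exact_mod_cast (le_max_right _ _).trans h4
  exact one_div_le_one_div_of_le (by positivity) (by linarith)

lemma interleave (S : Finset ℝ) (P : ℝ → Prop) (m : ℕ)
    (hP : ∀ T : Finset ℝ, (∀ z ∈ T, P z) → T.card ≤ m)
    (h : ∀ x ∈ S, ∀ y ∈ S, x < y → ∃ z, P z ∧ x < z ∧ z < y) : S.card ≤ m + 1 := by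
  classical
  choose! z hz using h
  have h1 := hP (((S ×ˢ S).filter fun p => p.1 < p.2).image fun p => z p.1 p.2) (by
    intro w hw
    obtain ⟨p, hp, rfl⟩ := Finset.mem_image.1 hw
    obtain ⟨hp1, hp2⟩ := Finset.mem_filter.1 hp
    obtain ⟨hp3, hp4⟩ := Finset.mem_product.1 hp1
    exact (hz _ hp3 _ hp4 hp2).1)
  refine (Finset.card_le_of_interleaved fun x hx y hy hxy _ => ⟨z x y, ?_, (hz x hx y hy hxy).2⟩).trans
    (Nat.add_le_add_right h1 1)
  exact Finset.mem_image.2 ⟨(x, y), Finset.mem_filter.2 ⟨Finset.mem_product.2 ⟨hx, hy⟩, hxy⟩, rfl⟩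

lemma rolle (f : ℕ → ℝ → ℝ) (hf : ∀ n s, HasDerivAt (f n) (f (n + 1) s) s) (b c : ℝ) (n : ℕ) :
    ∀ m, (∀ s ∈ Icc b c, f (m + n) s ≠ 0) →
      ∀ T : Finset ℝ, (∀ z ∈ T, z ∈ Icc b c ∧ f m z = 0) → T.card ≤ n := by
  induction n with
  | zero =>
    intro m h T hT
    rw [Nat.le_zero, Finset.card_eq_zero, Finset.eq_empty_iff_forall_notMem]
    exact fun z hz => h z (hT z hz).1 (hT z hz).2
  | succ n ih =>
    intro m h T hT
    refine interleave T _ n (ih (m + 1) (by rwa [add_assoc, add_comm 1])) fun x hx y hy hxy => ?_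
    obtain ⟨z, hz, hz'⟩ := exists_hasDerivAt_eq_zero hxy
      (fun s _ => (hf m s).continuousAt.continuousWithinAt) ((hT x hx).2.trans (hT y hy).2.symm)
      fun s _ => hf m s
    exact ⟨z, ⟨⟨(hT x hx).1.1.trans hz.1.le, hz.2.le.trans (hT y hy).1.2⟩, hz'⟩, hz⟩

lemma zeros (ha : ∀ i, 0 < a i) (hs : Summable a) (hμ : ∀ i, |μ i| ≤ 1) (o : ι)
    (h0 : μ o ≠ 0) (h1 : ∀ i, i ≠ o → μ i ≠ μ o ∧ μ i ≠ -μ o) :
    ∃ C : ℕ, ∀ φ : ι → ℝ, ∀ T : Finset ℝ, (∀ z ∈ T, z ∈ Icc (0 : ℝ) 1 ∧ g a μ 1 φ z = 0) →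
      T.card ≤ C := by
  obtain ⟨N, hN⟩ := uniform ha hs hμ o h0 h1
  have hA : 0 < ∑' i, a i := hs.tsum_pos (fun i => (ha i).le) o (ha o)
  set A := ∑' i, a i with hA'
  set L : ℝ := A * (N + 1) with hL
  have hL0 : 0 < L := by positivity
  refine ⟨N * (Finset.range (⌊L⌋₊ + 1)).card, fun φ T hT => ?_⟩
  refine Finset.card_le_mul_card_image_of_maps_to (f := fun z => ⌊z * L⌋₊) (fun z hz => ?_) N
    fun j _ => ?_
  · exact Finset.mem_range.2 (Nat.lt_succ_of_le (Nat.floor_le_floor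
      (mul_le_of_le_one_left hL0.le (hT z hz).1.2)))
  · obtain ⟨n, hn, h2⟩ := hN φ (j / L)
    refine (rolle (fun n => g a μ n φ) (fun n s => g_deriv ha hs hμ n φ s) (j / L) (j / L + 1 / L)
      n 1 (fun s hs' h3 => ?_) _ fun z hz => ?_).trans hn
    · have h4 := g_lip ha hs hμ (n + 1) φ s (j / L)
      rw [add_comm 1 n] at h3
      rw [h3, sub_zero, norm_sub_rev, Real.norm_of_nonneg (sub_nonneg.2 hs'.1)] at h4
      have h5 : A * (s - j / L) ≤ A * (1 / L) := by gcongr; linarith [hs'.2]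
      have h6 : A * (1 / L) = 1 / (N + 1) := by rw [hL]; field_simp
      linarith
    · obtain ⟨hz1, hz2⟩ := Finset.mem_filter.1 hz
      have h3 : 0 ≤ z * L := mul_nonneg (hT z hz1).1.1 hL0.le
      have h4 := (Nat.floor_eq_iff h3).1 hz2
      refine ⟨⟨?_, ?_⟩, (hT z hz1).2⟩
      · rw [div_le_iff₀ hL0]; exact h4.1
      · rw [← add_div, le_div_iff₀ hL0]; exact h4.2.le

end A6

theorem Fam.fewComp {ι : Type} {a : ι → ℝ} {k : ι → ℂ} (h : Fam a k) (o : ι)
    (ho : ∀ e ∈ ({1, Complex.I} : Set ℂ), dot (k o) e ≠ 0 ∧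
      ∀ i, i ≠ o → dot (k i) e ≠ dot (k o) e ∧ dot (k i) e ≠ -dot (k o) e) :
    ∃ C₀ : ℕ, ∀ t, ∀ ε ∈ Icc (0 : ℝ) 1, FewComp (Wv a k t) ε C₀ := by
  classical
  have hμ : ∀ e ∈ ({1, Complex.I} : Set ℂ), ∀ i, |dot (k i) e| ≤ 1 := by
    intro e he i
    refine (Complex.abs_re_le_norm _).trans ?_
    rcases he with rfl | rfl <;> simp [h.unit i]
  choose! C hC using fun e he =>
    A6.zeros h.pos h.sum (hμ e he) o (ho e he).1 (ho e he).2
  refine ⟨max (C 1) (C Complex.I) + 1, fun t ε _ x e he 𝒲 hW => ?_⟩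
  have hCe : C e ≤ max (C 1) (C Complex.I) := by
    rcases he with rfl | rfl
    · exact le_max_left _ _
    · exact le_max_right _ _
  let φ : ι → ℝ := fun i => dot (k i) x + t i
  have hF : ∀ s : ℝ, Wv a k t (x + s * e) = A6.g a (fun i => dot (k i) e) 0 φ s := by
    intro s
    refine tsum_congr fun i => ?_
    have : dot (k i) (x + s * e) + t i = dot (k i) e * s + φ i + ((0 : ℕ) : ℝ) * (π / 2) := by
      simp [dot, φ]
      ring
    rw [this, pow_zero, mul_one]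
  have hd := A6.g_deriv h.pos h.sum (hμ e he) 0 φ
  choose! s hs using hW
  have hinj : Set.InjOn s 𝒲 := fun W hW W' hW' hh => by
    rw [(hs W hW).2.2, (hs W' hW').2.2, hh]
  rw [← Finset.card_image_of_injOn hinj]
  refine (A6.interleave _ _ _ (hC e he φ) fun u hu v hv huv => ?_).trans
    (Nat.add_le_add_right hCe 1)
  obtain ⟨W, hW, rfl⟩ := Finset.mem_image.1 hu
  obtain ⟨W', hW', rfl⟩ := Finset.mem_image.1 hv
  obtain ⟨z, hz, hmin⟩ := isCompact_Icc.exists_isMinOn (nonempty_Icc.2 huv.le)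
    (fun y _ => (hd y).continuousAt.continuousWithinAt :
      ContinuousOn (A6.g a (fun i => dot (k i) e) 0 φ) (Icc (s W) (s W')))
  have hle : A6.g a (fun i => dot (k i) e) 0 φ z ≤ ε := by
    by_contra hlt
    have hpre : IsPreconnected ((fun y : ℝ => x + y * e) '' Icc (s W) (s W')) :=
      isPreconnected_Icc.image _ (by fun_prop)
    have hsub : (fun y : ℝ => x + y * e) '' Icc (s W) (s W') ⊆ {y | ε < Wv a k t y} := by
      rintro _ ⟨y, hy, rfl⟩
      simp only [mem_ofPred_eq, hF]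
      exact (not_le.1 hlt).trans_le (hmin hy)
    have h1 := hpre.subset_connectedComponentIn ⟨s W, left_mem_Icc.2 huv.le, rfl⟩ hsub
      ⟨s W', right_mem_Icc.2 huv.le, rfl⟩
    have h2 : W = W' := by
      rw [(hs W hW).2.2, (hs W' hW').2.2]
      exact connectedComponentIn_eq h1
    rw [h2] at huv
    exact lt_irrefl _ huv
  have h1 : s W < z := lt_of_le_of_ne hz.1 fun h => by
    have := (hs W hW).2.1
    rw [hF, h] at this
    linarith
  have h2 : z < s W' := lt_of_le_of_ne hz.2 fun h => by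
    have := (hs W' hW').2.1
    rw [hF, ← h] at this
    linarith
  exact ⟨z, ⟨⟨(hs W hW).1.1.trans h1.le, h2.le.trans (hs W' hW').1.2⟩,
    (hmin.isLocalMin (Icc_mem_nhds h1 h2)).hasDerivAt_eq_zero (hd z)⟩, h1, h2⟩

end Pool.Agent.Lib.MP_e1e19a_an
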