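import Pool.Agent.Lib.MP_e1e19a_an.N.A4

/-!
A neck of height zero.
-/

namespace Pool.Agent.Lib.MP_e1e19a_an

open Real MeasureTheory Set
open scoped MatrixGroups ComplexConjugate UpperHalfPlane

namespace A8a

lemma jet_mono {A A' : ℝ} {F : ℂ → ℝ} {G H : ℂ → ℂ} (h : Jet A F G H) (hA : A ≤ A') :
    Jet A' F G H :=
  ⟨h.one.trans hA, fun x => (h.bF x).trans hA, fun x => (h.bG x).trans hA,
    fun x => (h.bH x).trans hA,
    fun x v => (h.tF x v).trans (mul_le_mul_of_nonneg_right hA (by positivity)),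
    fun x v => (h.tG x v).trans (mul_le_mul_of_nonneg_right hA (by positivity)),
    fun x v => (h.tH x v).trans (mul_le_mul_of_nonneg_right hA (by positivity))⟩

lemma re_fr (w z : ℂ) : (z * conj (fr w) ^ 2).re ≤ -‖w‖ + ‖z - w‖ := by
  have h1 : z * conj (fr w) ^ 2 = -(‖w‖ : ℂ) + (z - w) * conj (fr w) ^ 2 := by
    rw [← fr_sq w]; ring
  have h2 : ((z - w) * conj (fr w) ^ 2).re ≤ ‖z - w‖ := by
    refine (Complex.re_le_norm _).trans ?_
    rw [norm_mul, norm_pow, Complex.norm_conj, fr_norm, one_pow, mul_one]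
  rw [h1, Complex.add_re, Complex.neg_re, Complex.ofReal_re]
  linarith

/-- at a saddle the function increases along `fr w` and decreases along `I * fr w` -/
lemma axes {A ρ s : ℝ} {F : ℂ → ℝ} {G H : ℂ → ℂ} (h : Jet A F G H) {w c : ℂ} (h0 : G c = 0)
    (h1 : ‖H c - w‖ + |F c| + 4 * A * ρ ≤ ‖w‖) (hs : |s| ≤ ρ) :
    F c ≤ F (c + s * fr w) ∧ F (c + s * (Complex.I * fr w)) ≤ F c := by
  have hA : 0 ≤ A := zero_le_one.trans h.one
  have e1 := re_fr w (H c)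
  have n1 : ‖(s : ℂ) * fr w‖ = |s| := by rw [norm_mul, fr_norm, Complex.norm_real]; simp
  have n2 : ‖(s : ℂ) * (Complex.I * fr w)‖ = |s| := by
    rw [norm_mul, norm_mul, fr_norm, Complex.norm_real]; simp
  have r1 : (H c * conj ((s : ℂ) * fr w) ^ 2).re = s ^ 2 * (H c * conj (fr w) ^ 2).re := by
    rw [show H c * conj ((s : ℂ) * fr w) ^ 2 = ((s ^ 2 : ℝ) : ℂ) * (H c * conj (fr w) ^ 2) by
      rw [map_mul, Complex.conj_ofReal]; push_cast; ring, Complex.re_ofReal_mul]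
  have r2 : (H c * conj ((s : ℂ) * (Complex.I * fr w)) ^ 2).re =
      -s ^ 2 * (H c * conj (fr w) ^ 2).re := by
    rw [show H c * conj ((s : ℂ) * (Complex.I * fr w)) ^ 2 =
      ((-s ^ 2 : ℝ) : ℂ) * (H c * conj (fr w) ^ 2) by
      rw [map_mul, map_mul, Complex.conj_ofReal, Complex.conj_I]
      push_cast
      linear_combination (H c * s ^ 2 * conj (fr w) ^ 2) * Complex.I_sq, Complex.re_ofReal_mul]
  have t1 := h.tF c (s * fr w)
  have t2 := h.tF c (s * (Complex.I * fr w))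
  rw [h0, n1, r1, sq_abs, abs_le] at t1
  rw [h0, n2, r2, sq_abs, abs_le] at t2
  have d0 : ∀ v, dot 0 v = 0 := fun v => by simp [dot]
  rw [d0] at t1 t2
  have q1 : A * |s| ^ 3 ≤ s ^ 2 * (A * ρ) := by
    rw [show A * |s| ^ 3 = |s| ^ 2 * (A * |s|) by ring, sq_abs]
    exact mul_le_mul_of_nonneg_left (mul_le_mul_of_nonneg_left hs hA) (sq_nonneg s)
  have q2 := le_abs_self (F c)
  have q3 := neg_abs_le (F c)
  have q4 : s ^ 2 * (F c + (H c * conj (fr w) ^ 2).re + 4 * A * ρ) ≤ 0 :=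
    mul_nonpos_of_nonneg_of_nonpos (sq_nonneg s) (by linarith)
  have q5 : s ^ 2 * (-F c + (H c * conj (fr w) ^ 2).re + 4 * A * ρ) ≤ 0 :=
    mul_nonpos_of_nonneg_of_nonpos (sq_nonneg s) (by linarith)
  constructor <;> nlinarith [t1.1, t2.2]

/-- critical values of two nearby functions -/
lemma crit_le {A ρ δ : ℝ} {F F' : ℂ → ℝ} {G H G' H' : ℂ → ℂ} (h : Jet A F G H)
    (h' : Jet A F' G' H') {w c c' : ℂ} (h0 : G c = 0) (h0' : G' c' = 0)
    (h1 : ‖H c - w‖ + |F c| + 4 * A * ρ ≤ ‖w‖) (h1' : ‖H' c' - w‖ + |F' c'| + 4 * A * ρ ≤ ‖w‖)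
    (hc : ‖c' - c‖ ≤ ρ) (hF : ∀ x, F x ≤ F' x + δ) : F c ≤ F' c' + δ := by
  have n : ‖conj (fr w) * (c' - c)‖ ≤ ρ := by
    rwa [norm_mul, Complex.norm_conj, fr_norm, one_mul]
  have e0 : fr w * conj (fr w) = 1 := by
    rw [Complex.mul_conj, Complex.normSq_eq_norm_sq, fr_norm]; simp
  have e : c + ((conj (fr w) * (c' - c)).re : ℝ) * fr w =
      c' + ((-(conj (fr w) * (c' - c)).im : ℝ) : ℂ) * (Complex.I * fr w) := by
    have := Complex.re_add_im (conj (fr w) * (c' - c))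
    push_cast
    linear_combination fr w * this + (c' - c) * e0
  have a1 := (axes h h0 h1 ((Complex.abs_re_le_norm _).trans n)).1
  have a2 := (axes h' h0' h1' (s := -(conj (fr w) * (c' - c)).im)
    (by rw [abs_neg]; exact (Complex.abs_im_le_norm _).trans n)).2
  rw [← e] at a2
  linarith [hF (c + ((conj (fr w) * (c' - c)).re : ℝ) * fr w)]

lemma tsum_diff {ι E : Type} [NormedAddCommGroup E] [CompleteSpace E] {f f' : ι → E}
    (hf : Summable f) (hf' : Summable f') (S : Finset ι) (h : ∀ i ∉ S, f' i = f i) :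
    ∑' i, f' i = ∑' i, f i + ∑ i ∈ S, (f' i - f i) := by
  rw [← tsum_eq_sum (L := .unconditional ι) (f := fun i => f' i - f i) (s := S)
    fun i hi => by rw [h i hi, sub_self], hf'.tsum_sub hf]
  abel

variable {ι : Type} {a a' : ι → ℝ} {k k' : ι → ℂ}

lemma sumF (h : Fam a k) (u : ι → ℝ) : Summable fun i => a i * cos (u i) :=
  h.sum.of_norm_bounded fun i => by
    rw [norm_mul, Real.norm_of_nonneg (h.pos i).le]
    exact mul_le_of_le_one_right (h.pos i).le (abs_cos_le_one _)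

lemma sumG (h : Fam a k) (u : ι → ℝ) : Summable fun i => ((-(a i * sin (u i)) : ℝ) : ℂ) * k i :=
  h.sum.of_norm_bounded fun i => by
    rw [norm_mul, h.unit, mul_one, Complex.norm_real, norm_neg, norm_mul,
      Real.norm_of_nonneg (h.pos i).le]
    exact mul_le_of_le_one_right (h.pos i).le (abs_sin_le_one _)

lemma sumH (h : Fam a k) (u : ι → ℝ) : Summable fun i => ((a i * cos (u i) : ℝ) : ℂ) * k i ^ 2 :=
  h.sum.of_norm_bounded fun i => by
    rw [norm_mul, norm_pow, h.unit, one_pow, mul_one, Complex.norm_real, norm_mul,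
      Real.norm_of_nonneg (h.pos i).le]
    exact mul_le_of_le_one_right (h.pos i).le (abs_cos_le_one _)

lemma lip_update [DecidableEq ι] (h : Fam a k) (t : ι → ℝ) (g : ι) (θ θ' : ℝ) (x : ℂ) :
    Wv a k (Function.update t g θ) x ≤ Wv a k (Function.update t g θ') x + a g * |θ - θ'| := by
  have := tsum_diff (sumF h fun i => dot (k i) x + Function.update t g θ' i)
    (sumF h fun i => dot (k i) x + Function.update t g θ i) {g} fun i hi => by
      rw [Function.update_of_ne (by simpa using hi), Function.update_of_ne (by simpa using hi)]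
  rw [Wv, Wv, this, Finset.sum_singleton, Function.update_self, Function.update_self, ← mul_sub]
  have h1 := abs_cos_sub_cos_le (dot (k g) x + θ) (dot (k g) x + θ')
  rw [add_sub_add_left_eq_sub] at h1
  linarith [mul_le_mul_of_nonneg_left ((le_abs_self _).trans h1) (h.pos g).le]

lemma exp_sub_le (s t : ℝ) :
    ‖Complex.exp (Complex.I * s) - Complex.exp (Complex.I * t)‖ ≤ min 2 |s - t| := by
  refine le_min ((norm_sub_le _ _).trans ?_) ?_
  · rw [Complex.norm_exp_I_mul_ofReal, Complex.norm_exp_I_mul_ofReal]; norm_num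
  · rw [show Complex.exp (Complex.I * s) - Complex.exp (Complex.I * t) =
      Complex.exp (Complex.I * t) * (Complex.exp (Complex.I * (s - t : ℝ)) - 1) by
        rw [mul_sub, ← Complex.exp_add]; push_cast; ring_nf,
      norm_mul, Complex.norm_exp_I_mul_ofReal, one_mul]
    exact Real.norm_exp_I_mul_ofReal_sub_one_le

lemma lb_of_base [DecidableEq ι] (h : Fam a k) {t₀ : ι → ℝ} {g : ι} {w : ℂ} {d γ m : ℝ}
    (hd : 0 < d) (hd1 : d ≤ 1) (hm : 0 < m) (h1 : 64 * (2 + ∑' i, a i) * (2 * γ) ≤ d ^ 2)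
    (h2 : 16 * (2 * γ) ^ 2 / d ≤ m / 4) (h3 : 4 * d ≤ ‖w‖) (h4 : m ≤ a g) (h5 : a g ≤ γ)
    (hb : ∀ θ, Wv a k (Function.update t₀ g θ) 0 = a g * cos θ ∧
      ‖Gr a k (Function.update t₀ g θ) 0‖ ≤ γ ∧ ‖Hs a k (Function.update t₀ g θ) 0 - w‖ ≤ γ) :
    ∃ δ > 0, ∀ (a' : ι → ℝ) (k' : ι → ℂ),
      Fam a' k' → ∑' i, (|a' i - a i| + a i * ‖k' i - k i‖) ≤ δ → LB a' k' := by
  have hs0 : 0 ≤ ∑' i, a i := tsum_nonneg fun i => (h.pos i).le
  obtain ⟨T₀, hT₀⟩ : ∃ T₀ : Finset ι, ∀ T ⊇ T₀, ∑' i, a i - m / 96 ≤ ∑ i ∈ T, a i := by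
    have := (tendsto_order.1 h.sum.hasSum).1 (∑' i, a i - m / 96) (by linarith)
    obtain ⟨T₀, hT₀⟩ := Filter.eventually_atTop.1 this
    exact ⟨T₀, fun T hT => (hT₀ T hT).le⟩
  have hT := hT₀ (insert g T₀) (Finset.subset_insert _ _)
  have hgT : g ∈ insert g T₀ := Finset.mem_insert_self _ _
  generalize insert g T₀ = T at hT hgT
  set κ : ℝ := min 1 (m / 48 / (1 + ∑' i, a i)) with hκ
  have hκ0 : 0 < κ := lt_min one_pos (by positivity)
  have hκ1 : κ * ∑' i, a i ≤ m / 48 := by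
    have : κ * (1 + ∑' i, a i) ≤ m / 48 := (le_div_iff₀ (by positivity)).1 (min_le_right _ _)
    nlinarith
  refine ⟨min 1 (m / 48), lt_min one_pos (by positivity), fun a' k' h' hδ => ?_⟩
  have s1 : Summable fun i => |a' i - a i| + a i * ‖k' i - k i‖ := by
    refine (h'.sum.sub h.sum).abs.add ((h.sum.mul_right 2).of_norm_bounded fun i => ?_)
    rw [norm_mul, norm_norm, Real.norm_of_nonneg (h.pos i).le]
    refine mul_le_mul_of_nonneg_left ((norm_sub_le _ _).trans ?_) (h.pos i).le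
    rw [h.unit, h'.unit]; norm_num
  have s2 : Summable fun i => if i ∈ T then 0 else a i :=
    h.sum.of_norm_bounded fun i => by
      split_ifs
      · simpa using (h.pos i).le
      · exact (Real.norm_of_nonneg (h.pos i).le).le
  have s3 : ∑' i, (if i ∈ T then 0 else a i) ≤ m / 96 := by
    rw [tsum_diff h.sum s2 T fun i hi => if_neg hi,
      Finset.sum_congr rfl fun i hi => by rw [if_pos hi, zero_sub], Finset.sum_neg_distrib]
    linarith
  have hA : 1 + ∑' i, a' i ≤ 2 + ∑' i, a i := by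
    have : ∑' i, a' i ≤ ∑' i, (a i + (|a' i - a i| + a i * ‖k' i - k i‖)) :=
      h'.sum.tsum_le_tsum (fun i => by
        have := le_abs_self (a' i - a i)
        have := mul_nonneg (h.pos i).le (norm_nonneg (k' i - k i))
        linarith) (h.sum.add s1)
    rw [h.sum.tsum_add s1] at this
    linarith [hδ.trans (min_le_left _ _)]
  refine ⟨T, g, t₀, 0, π, κ, m / 2, hgT, pi_pos.le, by simp, hκ0, min_le_left _ _, by positivity,
    fun t ht => ?_⟩
  generalize 2 + ∑' i, a i = A at h1 hA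
  have hJ : ∀ θ, Jet A (Wv a' k' (Function.update t g θ)) (Gr a' k' (Function.update t g θ))
      (Hs a' k' (Function.update t g θ)) := fun θ => jet_mono (h'.jet _) hA
  have hA1 : 1 ≤ A := (hJ 0).one
  have hγ : 0 < γ := by linarith
  have hγd : 128 * γ ≤ d := by nlinarith
  have hr : A * (4 * (2 * γ) / d) ≤ d / 16 := by
    rw [← mul_div_assoc, div_le_iff₀ hd]; nlinarith
  have hr0 : 0 ≤ 4 * (2 * γ) / d := by positivity
  have hcl : ∀ θ, |Wv a' k' (Function.update t g θ) 0 - a g * cos θ| ≤ m / 4 ∧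
      ‖Gr a' k' (Function.update t g θ) 0‖ ≤ 2 * γ ∧
      ‖Hs a' k' (Function.update t g θ) 0 - w‖ ≤ 2 * γ := fun θ => by
    have c1 := h.close h' (Function.update t₀ g θ) (Function.update t g θ)
      (fun i => (|a' i - a i| + a i * ‖k' i - k i‖) + κ * a i + 2 * if i ∈ T then 0 else a i)
      ((s1.add (h.sum.mul_left κ)).add (s2.mul_left 2)) (fun i => by
        have hp := (h.pos i).le
        have e1 := exp_sub_le (Function.update t g θ i) (Function.update t₀ g θ i)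
        have e2 := mul_nonneg hκ0.le hp
        rw [mul_add]
        split_ifs with hi
        · have e3 : |Function.update t g θ i - Function.update t₀ g θ i| ≤ κ := by
            by_cases hg : i = g
            · subst hg; simpa using hκ0.le
            · rw [Function.update_of_ne hg, Function.update_of_ne hg]; exact ht i hi hg
          have := mul_le_mul_of_nonneg_left ((e1.trans (min_le_right _ _)).trans e3) hp
          linarith
        · have := mul_le_mul_of_nonneg_left (e1.trans (min_le_left _ _)) hp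
          linarith) 0 (by simp)
    rw [(s1.add (h.sum.mul_left κ)).tsum_add (s2.mul_left 2), s1.tsum_add (h.sum.mul_left κ),
      tsum_mul_left, tsum_mul_left] at c1
    have c2 := hδ.trans (min_le_right _ _)
    obtain ⟨b1, b2, b3⟩ := hb θ
    refine ⟨by rw [← b1]; linarith [c1.1], ?_, ?_⟩
    · linarith [norm_sub_norm_le (Gr a' k' (Function.update t g θ) 0)
        (Gr a k (Function.update t₀ g θ) 0), c1.2.1]
    · linarith [norm_sub_le_norm_sub_add_norm_sub (Hs a' k' (Function.update t g θ) 0)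
        (Hs a k (Function.update t₀ g θ) 0) w, c1.2.2]
  have hF0 : ∀ θ, |Wv a' k' (Function.update t g θ) 0| ≤ 2 * γ := fun θ => by
    have e1 := abs_sub_abs_le_abs_sub (Wv a' k' (Function.update t g θ) 0) (a g * cos θ)
    have e2 : |a g * cos θ| ≤ a g := by
      rw [abs_mul, abs_of_pos (h.pos g)]
      exact mul_le_of_le_one_right (h.pos g).le (abs_cos_le_one _)
    linarith [(hcl θ).1]
  have hN : ∀ θ, ∃ c, ‖c‖ ≤ 4 * (2 * γ) / d ∧ Gr a' k' (Function.update t g θ) c = 0 ∧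
      |Wv a' k' (Function.update t g θ) c - Wv a' k' (Function.update t g θ) 0| ≤ m / 4 :=
    fun θ => by
      obtain ⟨c, c1, c2, c3, -⟩ := (hJ θ).newton (g := 2 * γ) (x := 0) hd (by linarith [hF0 θ])
        (hcl θ).2.1 (by
          have := norm_sub_norm_le w (Hs a' k' (Function.update t g θ) 0)
          rw [norm_sub_rev] at this
          linarith [(hcl θ).2.2]) h1
      exact ⟨c, by simpa using c1, c2, c3.trans h2⟩
  choose c c1 c2 c3 using hN
  have hW : ∀ θ, ‖Hs a' k' (Function.update t g θ) (c θ) - w‖ +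
      |Wv a' k' (Function.update t g θ) (c θ)| + 4 * A * (2 * (4 * (2 * γ) / d)) ≤ ‖w‖ := fun θ => by
    have e1 := (hJ θ).tH 0 (c θ)
    rw [zero_add] at e1
    have e2 := mul_le_mul_of_nonneg_left (c1 θ) (zero_le_one.trans hA1)
    have e3 := norm_sub_le_norm_sub_add_norm_sub (Hs a' k' (Function.update t g θ) (c θ))
      (Hs a' k' (Function.update t g θ) 0) w
    have e4 := abs_sub_abs_le_abs_sub (Wv a' k' (Function.update t g θ) (c θ))
      (Wv a' k' (Function.update t g θ) 0)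
    linarith [(hcl θ).2.2, hF0 θ, c3 θ]
  have hL : ∀ θ θ', Wv a' k' (Function.update t g θ) (c θ) ≤
      Wv a' k' (Function.update t g θ') (c θ') + a' g * |θ - θ'| := fun θ θ' =>
    crit_le (hJ θ) (hJ θ') (c2 θ) (c2 θ') (hW θ) (hW θ')
      ((norm_sub_le _ _).trans (by linarith [c1 θ, c1 θ'])) (lip_update h' t g θ θ')
  refine ⟨fun θ => Wv a' k' (Function.update t g θ) (c θ), fun θ _ => ⟨c θ, ?_, c2 θ, rfl⟩,
    fun θ _ θ' _ => ?_, ?_, ?_⟩
  · nlinarith [c1 θ]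
  · have e1 := hL θ θ'
    have e2 := hL θ' θ
    rw [abs_sub_comm] at e2
    exact abs_le.2 ⟨by linarith, by linarith⟩
  · have e1 := (abs_le.1 (hcl 0).1).1
    have e2 := (abs_le.1 (c3 0)).1
    rw [cos_zero] at e1
    linarith
  · have e1 := (abs_le.1 (hcl π).1).2
    have e2 := (abs_le.1 (c3 π)).2
    rw [cos_pi] at e1
    linarith

lemma pair_rot {α β s : ℝ} (hβ : 0 < β) (h1 : β < α) (h2 : 0 ≤ s) (h3 : s ≤ 2 * β) :
    ∃ φ ψ : ℝ, α * (cos φ + 1) + β * (cos ψ + 1) = s ∧ α * sin φ + β * sin ψ = 0 := by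
  obtain ⟨ψ, -, hψ⟩ : α ^ 2 ∈ (fun ψ => (α + β - s + β * cos ψ) ^ 2 + (β * sin ψ) ^ 2) ''
      Icc 0 π := by
    refine intermediate_value_Icc' pi_pos.le (by fun_prop) ⟨?_, ?_⟩
    · simp only [cos_pi, sin_pi]; nlinarith
    · simp only [cos_zero, sin_zero]; nlinarith
  have hα : 0 < α := hβ.trans h1
  set z : ℂ := ⟨-(α + β - s + β * cos ψ), -(β * sin ψ)⟩ with hz
  have hn : ‖z‖ = α := by
    rw [← sq_eq_sq₀ (norm_nonneg _) hα.le, Complex.sq_norm, Complex.normSq_apply, ← hψ]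
    simp only [hz]; ring
  have hz0 : z ≠ 0 := fun e => by rw [e, norm_zero] at hn; exact hα.ne hn
  refine ⟨z.arg, ψ, ?_, ?_⟩
  · rw [Complex.cos_arg hz0, hn, mul_add, mul_div_cancel₀ _ hα.ne']
    simp only [hz]; ring
  · rw [Complex.sin_arg, hn, mul_div_cancel₀ _ hα.ne']
    simp only [hz]; ring

lemma sq_sub_le {x y : ℂ} {ε : ℝ} (hx : ‖x‖ = 1) (hy : ‖y‖ = 1) (h : ‖x - y‖ ≤ ε) :
    ‖x ^ 2 - y ^ 2‖ ≤ 2 * ε := by
  rw [sq_sub_sq, norm_mul]
  refine mul_le_mul ((norm_add_le _ _).trans ?_) h (norm_nonneg _) zero_le_two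
  rw [hx, hy]; norm_num

lemma mul_le {p ε : ℝ} {z : ℂ} (hp : 0 ≤ p) (h : ‖z‖ ≤ ε) : ‖(p : ℂ) * z‖ ≤ p * ε := by
  rw [norm_mul, Complex.norm_real, Real.norm_of_nonneg hp]
  exact mul_le_mul_of_nonneg_left h hp

lemma base_core [DecidableEq ι] {χ : ι → Bool} (h : Fam a k)
    (h0 : ∑' i, (if χ i then a i else -a i) = 0) {i₁ j₁ j₂ g : ι} {κ κ' : ℂ} {ε : ℝ}
    (hκ : ‖κ‖ = 1) (hκ' : ‖κ'‖ = 1) (c₁ : χ i₁ = true) (c₂ : χ j₁ = false) (c₃ : χ j₂ = false)
    (c₄ : χ g = true) (l₁ : a g < a i₁) (l₂ : 2 * a i₁ ≤ a j₂) (l₃ : a j₂ < a j₁)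
    (k₁ : ‖k i₁ - κ‖ ≤ ε) (k₂ : ‖k j₁ - κ'‖ ≤ ε) (k₃ : ‖k j₂ - κ'‖ ≤ ε) :
    ∃ t₀ : ι → ℝ, ∀ θ, Wv a k (Function.update t₀ g θ) 0 = a g * cos θ ∧
      ‖Gr a k (Function.update t₀ g θ) 0‖ ≤ 2 * ε * a j₂ + a g ∧
      ‖Hs a k (Function.update t₀ g θ) 0 - (Hs a k (fun i => if χ i then 0 else π) 0 -
        (2 * a i₁ : ℝ) * (κ ^ 2 - κ' ^ 2))‖ ≤ 10 * ε * a i₁ + 3 * a g := by
  have pg := h.pos g
  have hε : 0 ≤ ε := (norm_nonneg _).trans k₁
  obtain ⟨φ, ψ, e1, e2⟩ := pair_rot (h.pos j₂) l₃ (s := 2 * a i₁ + a g) (by linarith) (by linarith)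
  have n1 : i₁ ≠ j₁ := fun e => by simp [e, c₂] at c₁
  have n2 : i₁ ≠ j₂ := fun e => by simp [e, c₃] at c₁
  have n3 : i₁ ≠ g := fun e => by simp [e] at l₁
  have n4 : j₁ ≠ j₂ := fun e => by simp [e] at l₃
  have n5 : j₁ ≠ g := fun e => by simp [e, c₄] at c₂
  have n6 : j₂ ≠ g := fun e => by simp [e, c₄] at c₃
  refine ⟨fun i => if i = i₁ then π else if i = j₁ then φ else if i = j₂ then ψ else
    if χ i then 0 else π, fun θ => ?_⟩
  generalize hu : Function.update (fun i => if i = i₁ then π else if i = j₁ then φ else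
    if i = j₂ then ψ else if χ i then 0 else π) g θ = u
  have u1 : u i₁ = π := by simp [← hu, n3]
  have u2 : u j₁ = φ := by simp [← hu, n5, n1.symm]
  have u3 : u j₂ = ψ := by simp [← hu, n6, n2.symm, n4.symm]
  have u4 : u g = θ := by simp [← hu]
  have u5 : ∀ i ∉ ({i₁, j₁, j₂, g} : Finset ι), u i = if χ i then 0 else π := fun i hi => by
    simp only [Finset.mem_insert, Finset.mem_singleton, not_or] at hi
    simp [← hu, hi]
  have hS : ∀ {E : Type} [AddCommMonoid E] (f : ι → E),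
      ∑ i ∈ ({i₁, j₁, j₂, g} : Finset ι), f i = f i₁ + f j₁ + f j₂ + f g := fun f => by
    rw [Finset.sum_insert (by simp [n1, n2, n3]), Finset.sum_insert (by simp [n4, n5]),
      Finset.sum_pair n6, add_assoc, add_assoc]
  have d0 : ∀ i, dot (k i) 0 = 0 := fun i => by simp [dot]
  simp only [Wv, Gr, Hs, d0, zero_add]
  rw [tsum_diff (sumF h fun i => if χ i then 0 else π) (sumF h u) _ fun i hi => by rw [u5 i hi],
    tsum_diff (sumG h fun i => if χ i then 0 else π) (sumG h u) _ fun i hi => by rw [u5 i hi],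
    tsum_diff (sumH h fun i => if χ i then 0 else π) (sumH h u) _ fun i hi => by rw [u5 i hi],
    hS, hS, hS, u1, u2, u3, u4]
  have b1 : ∑' i, a i * cos (if χ i then 0 else π) = 0 := by
    refine Eq.trans (tsum_congr fun i => ?_) h0
    split_ifs <;> simp
  have b2 : ∑' i, ((-(a i * sin (if χ i then 0 else π)) : ℝ) : ℂ) * k i = 0 := by
    refine Eq.trans (tsum_congr fun i => ?_) tsum_zero
    split_ifs <;> simp
  rw [b1, b2]
  simp only [c₁, c₂, c₃, c₄, if_true, Bool.false_eq_true, if_false, cos_pi, sin_pi, cos_zero,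
    sin_zero]
  have e1' := congrArg (fun x : ℝ => (x : ℂ)) e1
  have e2' := congrArg (fun x : ℝ => (x : ℂ)) e2
  refine ⟨by linarith, ?_, ?_⟩
  · refine le_of_eq_of_le (b := ‖((sin ψ : ℝ) : ℂ) * (a j₂ * ((k j₁ - κ') - (k j₂ - κ'))) -
      ((sin θ : ℝ) : ℂ) * (a g * k g)‖) ?_ ((norm_sub_le _ _).trans (add_le_add ?_ ?_))
    · congr 1
      push_cast at e2' ⊢
      linear_combination -k j₁ * e2'
    · rw [norm_mul, Complex.norm_real]
      refine (mul_le_of_le_one_left (norm_nonneg _) (abs_sin_le_one _)).trans ?_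
      exact (mul_le (h.pos j₂).le ((norm_sub_le _ _).trans (add_le_add k₂ k₃))).trans_eq (by ring)
    · rw [norm_mul, Complex.norm_real]
      refine (mul_le_of_le_one_left (norm_nonneg _) (abs_sin_le_one _)).trans ?_
      exact (mul_le pg.le (h.unit g).le).trans_eq (by ring)
  · have p1 : 0 ≤ a j₁ * (cos φ + 1) := mul_nonneg (h.pos _).le (by linarith [neg_one_le_cos φ])
    have p2 : 0 ≤ a j₂ * (cos ψ + 1) := mul_nonneg (h.pos _).le (by linarith [neg_one_le_cos ψ])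
    have p3 : 0 ≤ a g * (1 - cos θ) := mul_nonneg pg.le (by linarith [cos_le_one θ])
    have p4 : a g * (1 - cos θ) ≤ a g * 2 :=
      mul_le_mul_of_nonneg_left (by linarith [neg_one_le_cos θ]) pg.le
    have m1 := mul_le (p := 2 * a i₁) (by linarith) (sq_sub_le (h.unit _) hκ k₁)
    have m2 := mul_le p1 (sq_sub_le (h.unit _) hκ' k₂)
    have m3 := mul_le p2 (sq_sub_le (h.unit _) hκ' k₃)
    have m4 := mul_le pg.le (z := κ' ^ 2) (ε := 1) (by rw [norm_pow, hκ', one_pow])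
    have m5 := mul_le p3 (z := k g ^ 2) (ε := 1) (by rw [norm_pow, h.unit, one_pow])
    have m6 := (norm_sub_le _ _).trans (add_le_add ((norm_sub_le _ _).trans (add_le_add
      ((norm_add_le _ _).trans (add_le_add ((norm_add_le _ _).trans (add_le_add m2 m3)) m4)) m1)) m5)
    refine le_of_eq_of_le ?_ (m6.trans ?_)
    · congr 1
      push_cast at e1' ⊢
      linear_combination κ' ^ 2 * e1'
    · rw [← add_mul, e1]
      nlinarith [mul_le_mul_of_nonneg_left l₁.le hε]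

lemma base [DecidableEq ι] {χ : ι → Bool} {K : Set ℂ} (h : Fam a k) (hd : Dense' a k χ K)
    (hK : K.Infinite) (hu : ∀ κ ∈ K, ‖κ‖ = 1) (h0 : ∑' i, (if χ i then a i else -a i) = 0) :
    ∃ c > 0, ∃ C > 0, ∃ σ₀ > 0, ∀ σ ∈ Ioc (0 : ℝ) σ₀, ∃ (t₀ : ι → ℝ) (g : ι) (w : ℂ),
      c * σ ^ 3 ≤ a g ∧ a g ≤ C * σ ^ 3 ∧ c * σ ≤ ‖w‖ ∧
      ∀ θ, Wv a k (Function.update t₀ g θ) 0 = a g * cos θ ∧
        ‖Gr a k (Function.update t₀ g θ) 0‖ ≤ C * σ ^ 3 ∧
        ‖Hs a k (Function.update t₀ g θ) 0 - w‖ ≤ C * σ ^ 3 := by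
  obtain ⟨c, hc, C, hC, hd⟩ := hd
  obtain ⟨κ, hκ⟩ := hK.nonempty
  obtain ⟨κ', hκ', hne⟩ := hK.exists_notMem_finite (Set.toFinite {κ, -κ})
  have hβ : 0 < ‖κ ^ 2 - κ' ^ 2‖ := by
    rw [norm_pos_iff, sub_ne_zero]
    exact fun e => hne (sq_eq_sq_iff_eq_or_eq_neg.1 e.symm)
  have hd' : ∀ σ ∈ Ioc (0 : ℝ) 1, ∀ κ ∈ K, ∀ b : Bool, ∃ i, χ i = b ∧ c * σ ≤ a i ∧
      a i ≤ C * σ ∧ ‖k i - κ‖ ≤ C * σ ^ 2 := fun σ hσ κ hκ b => by
    have := hd (σ ^ 2) ⟨pow_pos hσ.1 2, pow_le_one₀ hσ.1.le hσ.2⟩ κ hκ b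
    rwa [sqrt_sq hσ.1.le] at this
  have hcC : c ≤ C := by
    obtain ⟨i, -, h1, h2, -⟩ := hd' 1 ⟨one_pos, le_rfl⟩ κ hκ true
    linarith
  obtain ⟨q, hq, hq1, hqC⟩ : ∃ q : ℝ, 0 < q ∧ q ≤ 1 / 2 ∧ C * q = c / 2 :=
    ⟨c / (2 * C), by positivity, by rw [div_le_iff₀ (by positivity)]; linarith, by field_simp⟩
  generalize hβ' : ‖κ ^ 2 - κ' ^ 2‖ = β at hβ
  generalize hH : Hs a k (fun i => if χ i then 0 else π) 0 = H₀
  obtain ⟨σ₁, hσ₁, hw⟩ : ∃ σ₁ > 0, ∀ σ ∈ Ioc (0 : ℝ) σ₁, ∀ x : ℝ, c * (q ^ 2 * σ) ≤ x →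
      x ≤ C * σ → 2 * c * q ^ 2 * β * σ ≤ ‖H₀ - (2 * x : ℝ) * (κ ^ 2 - κ' ^ 2)‖ := by
    have hn : ∀ x : ℝ, 0 ≤ x → ‖((2 * x : ℝ) : ℂ) * (κ ^ 2 - κ' ^ 2)‖ = 2 * x * β := fun x hx => by
      rw [norm_mul, Complex.norm_real, hβ', Real.norm_of_nonneg (by positivity)]
    by_cases hH0 : H₀ = 0
    · refine ⟨1, one_pos, fun σ hσ x h1 _ => ?_⟩
      have := hσ.1
      rw [hH0, zero_sub, norm_neg, hn x (le_trans (by positivity) h1)]
      nlinarith [mul_le_mul_of_nonneg_right h1 hβ.le]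
    · have hp := norm_pos_iff.2 hH0
      refine ⟨‖H₀‖ / ((2 * c * q ^ 2 + 2 * C) * β), by positivity, fun σ hσ x h1 h2 => ?_⟩
      have h3 := hσ.1
      have h4 := (le_div_iff₀ (by positivity)).1 hσ.2
      have h5 := norm_sub_norm_le H₀ (((2 * x : ℝ) : ℂ) * (κ ^ 2 - κ' ^ 2))
      rw [hn x (le_trans (by positivity) h1)] at h5
      nlinarith [mul_le_mul_of_nonneg_right h2 hβ.le]
  refine ⟨min c (2 * c * q ^ 2 * β), by positivity, 10 * C ^ 2 + 3 * C, by positivity,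
    min σ₁ (q ^ 2), by positivity, fun σ hσ => ?_⟩
  have s0 := hσ.1
  have s1 : σ ≤ q ^ 2 := hσ.2.trans (min_le_right _ _)
  have q2 : q ^ 2 ≤ 1 / 4 := by nlinarith
  have s2 : σ ≤ 1 / 4 := s1.trans q2
  have s3 : q * σ ≤ σ := by nlinarith
  have s4 : q ^ 2 * σ ≤ σ := by nlinarith
  have s5 : σ ^ 3 ≤ q ^ 2 * σ * (q / 2) := by
    have : σ * σ ≤ q ^ 2 * (q / 2) := mul_le_mul s1 (by nlinarith) s0.le (by positivity)
    nlinarith
  obtain ⟨j₁, c₂, a₂, -, k₂⟩ := hd' σ ⟨s0, by linarith⟩ κ' hκ' false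
  obtain ⟨j₂, c₃, a₃, b₃, k₃⟩ := hd' (q * σ) ⟨by positivity, by linarith⟩ κ' hκ' false
  obtain ⟨i₁, c₁, a₁, b₁, k₁⟩ := hd' (q ^ 2 * σ) ⟨by positivity, by linarith⟩ κ hκ true
  obtain ⟨g, c₄, a₄, b₄, -⟩ := hd' (σ ^ 3) ⟨by positivity, pow_le_one₀ s0.le (by linarith)⟩ κ hκ true
  have x1 : 0 < c * (q ^ 2 * σ) := by positivity
  have x2 : 0 < c * σ := by positivity
  have l₁ : a g < a i₁ := by
    have := mul_le_mul_of_nonneg_left s5 hC.le
    rw [show C * (q ^ 2 * σ * (q / 2)) = C * q * (q ^ 2 * σ) / 2 by ring, hqC] at this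
    linarith
  have l₂ : 2 * a i₁ ≤ a j₂ := by
    rw [show C * (q ^ 2 * σ) = C * q * (q * σ) by ring, hqC] at b₁
    linarith
  have l₃ : a j₂ < a j₁ := by
    rw [← mul_assoc, hqC] at b₃
    linarith
  have y1 : a i₁ ≤ C * σ := b₁.trans (mul_le_mul_of_nonneg_left s4 hC.le)
  have y2 : a j₂ ≤ C * σ := b₃.trans (mul_le_mul_of_nonneg_left s3 hC.le)
  obtain ⟨t₀, ht⟩ := base_core h h0 (hu κ hκ) (hu κ' hκ') c₁ c₂ c₃ c₄ l₁ l₂ l₃ (ε := C * σ ^ 2)
    (k₁.trans (mul_le_mul_of_nonneg_left (pow_le_pow_left₀ (by positivity) s4 2) hC.le)) k₂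
    (k₃.trans (mul_le_mul_of_nonneg_left (pow_le_pow_left₀ (by positivity) s3 2) hC.le))
  rw [hH] at ht
  have z0 : 0 ≤ C * σ ^ 2 := by positivity
  have z1 := mul_le_mul_of_nonneg_left y1 z0
  have z2 := mul_le_mul_of_nonneg_left y2 z0
  have z3 : 0 ≤ C ^ 2 * σ ^ 3 := by positivity
  have z4 : 0 ≤ C * σ ^ 3 := by positivity
  refine ⟨t₀, g, _, le_trans (mul_le_mul_of_nonneg_right (min_le_left _ _) (by positivity)) a₄,
    by linarith, le_trans (mul_le_mul_of_nonneg_right (min_le_right _ _) s0.le)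
      (hw σ ⟨s0, hσ.2.trans (min_le_left _ _)⟩ _ a₁ y1), fun θ => ?_⟩
  obtain ⟨f1, f2, f3⟩ := ht θ
  exact ⟨f1, f2.trans (by linarith), f3.trans (by linarith)⟩

end A8a

theorem lb_config {ι : Type} [DecidableEq ι] {a : ι → ℝ} {k : ι → ℂ} {χ : ι → Bool} {K : Set ℂ}
    (h : Fam a k) (hd : Dense' a k χ K) (hK : K.Infinite) (hu : ∀ κ ∈ K, ‖κ‖ = 1)
    (h0 : ∑' i, (if χ i then a i else -a i) = 0) : ∃ δ > 0, ∀ (a' : ι → ℝ) (k' : ι → ℂ),
      Fam a' k' → ∑' i, (|a' i - a i| + a i * ‖k' i - k i‖) ≤ δ → LB a' k' := by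
  obtain ⟨c, hc, C, hC, σ₀, hσ₀, hb⟩ := A8a.base h hd hK hu h0
  have hA : 0 < 2 + ∑' i, a i := add_pos_of_pos_of_nonneg two_pos (tsum_nonneg fun i => (h.pos i).le)
  obtain ⟨σ, s0, s1, s2, s3, s4⟩ : ∃ σ : ℝ, 0 < σ ∧ σ ≤ σ₀ ∧ σ ≤ 4 / c ∧ σ ≤ c / (32 * C) ∧
      σ ≤ c ^ 2 / (2048 * (2 + ∑' i, a i) * C) :=
    ⟨min (min σ₀ (4 / c)) (min (c / (32 * C)) (c ^ 2 / (2048 * (2 + ∑' i, a i) * C))),
      by positivity, (min_le_left _ _).trans (min_le_left _ _),
      (min_le_left _ _).trans (min_le_right _ _), (min_le_right _ _).trans (min_le_left _ _),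
      (min_le_right _ _).trans (min_le_right _ _)⟩
  obtain ⟨t₀, g, w, b1, b2, b3, b4⟩ := hb σ ⟨s0, s1⟩
  rw [le_div_iff₀ (by positivity)] at s2 s3 s4
  refine A8a.lb_of_base h (d := c * σ / 4) (m := c * σ ^ 3) (by positivity) (by linarith)
    (by positivity) ?_ ?_ (by linarith) b1 b2 b4
  · nlinarith [mul_le_mul_of_nonneg_left s4 (sq_nonneg σ)]
  · rw [div_le_iff₀ (by positivity)]
    have := pow_le_pow_left₀ (by positivity) s3 2
    nlinarith [mul_le_mul_of_nonneg_left this (pow_pos s0 4).le]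

end Pool.Agent.Lib.MP_e1e19a_an
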