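import Pool.Agent.Lib.MP_e1e19a_an.N.S1

/-!
The finite Rajchman property.
-/

namespace Pool.Agent.Lib.MP_e1e19a_an

open Real MeasureTheory Set
open scoped MatrixGroups ComplexConjugate UpperHalfPlane

namespace A9

theorem normsq {M : ℕ} (α : Fin M → ℝ) :
    ‖∑ i, Complex.exp (Complex.I * (α i : ℝ))‖ ^ 2 = ∑ i, ∑ k, cos (α i - α k) := by
  rw [Complex.sq_norm, Complex.normSq_apply, Complex.re_sum, Complex.im_sum, Finset.sum_mul_sum,
    Finset.sum_mul_sum, ← Finset.sum_add_distrib]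
  refine Finset.sum_congr rfl fun i _ => ?_
  rw [← Finset.sum_add_distrib]
  refine Finset.sum_congr rfl fun k _ => ?_
  rw [mul_comm _ (α i : ℂ), mul_comm _ (α k : ℂ), Complex.exp_ofReal_mul_I_re,
    Complex.exp_ofReal_mul_I_re, Complex.exp_ofReal_mul_I_im, Complex.exp_ofReal_mul_I_im, cos_sub]

/-- a primitive of `cos (l t)` -/
noncomputable def pr (l t : ℝ) : ℝ := if l = 0 then t else sin (l * t) / l

theorem pr_deriv (l t : ℝ) : HasDerivAt (pr l) (cos (l * t)) t := by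
  unfold pr
  split_ifs with h
  · simpa [h] using hasDerivAt_id' t
  · have := (((hasDerivAt_id' t).const_mul l).sin).div_const l
    simpa [h] using this

theorem pr_le {l b : ℝ} (hb : 0 < b) (h : b ≤ |l|) (s t : ℝ) : pr l s - pr l t ≤ 2 / b := by
  have l0 : l ≠ 0 := abs_pos.1 (hb.trans_le h)
  rw [pr, pr, if_neg l0, if_neg l0, ← sub_div]
  refine (le_abs_self _).trans ?_
  rw [abs_div]
  have : |sin (l * s) - sin (l * t)| ≤ 2 := by
    linarith [abs_sub (sin (l * s)) (sin (l * t)), abs_sin_le_one (l * s), abs_sin_le_one (l * t)]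
  gcongr

theorem moment {M : ℕ} {φ : Fin M → ℝ} (hφ : Function.Injective φ) (m : ℕ) {a ε : ℝ} (ha : 0 < a)
    (hε : 0 < ε) (hM : 2 * m ≤ ε ^ 2 * M) : ∃ T ≥ (1 : ℝ), ∀ (n : ℕ) (S : Finset (Fin n)),
      S.card ≤ m → ∀ r : Fin n → ℝ, (∀ j ∈ S, a ≤ |r j|) → ∃ t ∈ Icc 1 T, ∀ j ∈ S,
        ‖∑ i, Complex.exp (Complex.I * (r j * t * φ i : ℝ))‖ ≤ ε * M := by
  obtain ⟨δ, δ0, hδ⟩ : ∃ δ > 0, ∀ i k, i ≠ k → δ ≤ |φ i - φ k| := by
    have : ∀ᶠ δ in nhdsWithin (0 : ℝ) (Ioi 0), ∀ i k, i ≠ k → δ ≤ |φ i - φ k| := by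
      refine Filter.eventually_all.2 fun i => Filter.eventually_all.2 fun k => ?_
      by_cases h : i = k
      · simp [h]
      · have : 0 < |φ i - φ k| := abs_pos.2 (sub_ne_zero.2 fun e => h (hφ e))
        filter_upwards [Ioc_mem_nhdsGT this] with δ hδ _ using hδ.2
    obtain ⟨δ, h1, h2⟩ := (this.and self_mem_nhdsWithin).exists
    exact ⟨δ, h2, h1⟩
  set U : ℝ := 4 * m / (a * δ * ε ^ 2) + 1 with hU
  have U0 : 0 < U := by positivity
  refine ⟨1 + U, by linarith, fun n S hS r hr => ?_⟩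
  obtain ⟨t, ht, e⟩ := exists_hasDerivAt_eq_slope
    (fun t => ∑ j ∈ S, ∑ i, ∑ k, pr (r j * (φ i - φ k)) t)
    (fun t => ∑ j ∈ S, ∑ i, ∑ k, cos (r j * (φ i - φ k) * t)) (a := 1) (b := 1 + U) (by linarith)
    (continuousOn_finsetSum _ fun j _ => continuousOn_finsetSum _ fun i _ =>
      continuousOn_finsetSum _ fun k _ x _ => (pr_deriv _ x).continuousAt.continuousWithinAt)
    (fun x _ => HasDerivAt.fun_sum fun j _ => HasDerivAt.fun_sum fun i _ =>
      HasDerivAt.fun_sum fun k _ => pr_deriv _ x)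
  refine ⟨t, ⟨ht.1.le, ht.2.le⟩, fun j hj => ?_⟩
  have b1 : ∑ j ∈ S, ∑ i, ∑ k, pr (r j * (φ i - φ k)) (1 + U) -
      ∑ j ∈ S, ∑ i, ∑ k, pr (r j * (φ i - φ k)) 1 ≤ m * (M * (U + M * (2 / (a * δ)))) := by
    simp only [← Finset.sum_sub_distrib]
    refine (Finset.sum_le_card_nsmul _ _ (M * (U + M * (2 / (a * δ)))) fun j hj => ?_).trans ?_
    · refine (Finset.sum_le_card_nsmul _ _ (U + M * (2 / (a * δ))) fun i _ => ?_).trans
        (by simp [mul_add])
      refine (Finset.sum_le_sum (g := fun k => (if i = k then U else 0) + 2 / (a * δ))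
        fun k _ => ?_).trans (by simp [Finset.sum_add_distrib])
      split_ifs with h
      · have : 0 ≤ 2 / (a * δ) := by positivity
        simp [h, pr, this]
      · rw [zero_add]
        refine pr_le (by positivity) ?_ _ _
        rw [abs_mul]
        exact mul_le_mul (hr j hj) (hδ i k h) δ0.le (abs_nonneg _)
    · rw [nsmul_eq_mul]
      gcongr
  have b2 : ∑ j ∈ S, ‖∑ i, Complex.exp (Complex.I * (r j * t * φ i : ℝ))‖ ^ 2 ≤ (ε * M) ^ 2 := by
    have e2 : ∑ j ∈ S, ‖∑ i, Complex.exp (Complex.I * (r j * t * φ i : ℝ))‖ ^ 2 =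
        ∑ j ∈ S, ∑ i, ∑ k, cos (r j * (φ i - φ k) * t) := by
      refine Finset.sum_congr rfl fun j _ => ?_
      rw [normsq fun i => r j * t * φ i]
      exact Finset.sum_congr rfl fun i _ => Finset.sum_congr rfl fun k _ => by congr 1; ring
    rw [e2, e, add_sub_cancel_left, div_le_iff₀ U0]
    refine b1.trans ?_
    have h3 : m * (2 / (a * δ)) ≤ ε ^ 2 / 2 * U := by
      have : ε ^ 2 / 2 * U = m * (2 / (a * δ)) + ε ^ 2 / 2 := by rw [hU]; field_simp; ring
      rw [this]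
      linarith [sq_nonneg ε]
    have h4 := mul_le_mul_of_nonneg_right h3 (sq_nonneg (M : ℝ))
    have h5 := mul_le_mul_of_nonneg_right hM (mul_nonneg (Nat.cast_nonneg (α := ℝ) M) U0.le)
    nlinarith
  exact abs_le_of_sq_le_sq' ((Finset.single_le_sum (f := fun j =>
    ‖∑ i, Complex.exp (Complex.I * (r j * t * φ i : ℝ))‖ ^ 2) (fun _ _ => sq_nonneg _) hj).trans
      b2) (by positivity) |>.2

/-- a phase of frequency `l` with divided difference `G` -/
structure Ph (C l : ℝ) (θ : ℝ → ℝ) (G : ℝ → ℝ → ℝ) : Prop where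
  eq : ∀ a b, θ a - θ b = (a - b) * G a b
  bd : ∀ a b, |G a b| ≤ C * l
  lip : ∀ a b ξ, |G a b - G ξ ξ| ≤ C * l * (|a - ξ| + |b - ξ|)

/-- averages of the waves over points of `Λ` near `ξ` -/
def hull {n : ℕ} (Λ : Set ℝ) (θ : Fin n → ℝ → ℝ) (ξ ρ : ℝ) : Set (Fin n → ℂ) :=
  convexHull ℝ ((fun y j => Complex.exp (Complex.I * θ j y)) '' {y ∈ Λ | |y - ξ| ≤ ρ})

theorem hull_mono {n : ℕ} {Λ : Set ℝ} {θ : Fin n → ℝ → ℝ} {ξ ρ ξ' ρ' : ℝ}
    (h : ρ + |ξ - ξ'| ≤ ρ') : hull Λ θ ξ ρ ⊆ hull Λ θ ξ' ρ' := by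
  refine convexHull_mono ?_
  rintro _ ⟨y, ⟨h1, h2⟩, rfl⟩
  refine ⟨y, ⟨h1, ?_⟩, rfl⟩
  have := abs_add_le (y - ξ) (ξ - ξ')
  rw [sub_add_sub_cancel] at this
  linarith

theorem exp_sub_le (a b : ℝ) :
    ‖Complex.exp (Complex.I * a) - Complex.exp (Complex.I * b)‖ ≤ |a - b| := by
  have : Complex.exp (Complex.I * a) - Complex.exp (Complex.I * b) =
      Complex.exp (Complex.I * b) * (Complex.exp (Complex.I * (a - b : ℝ)) - 1) := by
    rw [mul_sub, ← Complex.exp_add]; push_cast; ring_nf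
  rw [this, norm_mul, Complex.norm_exp_I_mul_ofReal, one_mul]
  exact Real.norm_exp_I_mul_ofReal_sub_one_le

theorem single {Λ : Set ℝ} (h3 : NA Λ) (m : ℕ) {c C η B : ℝ} (hc : 0 < c) (hC : 0 < C)
    (hη : 0 < η) (hB : 0 < B) : ∃ R > 0, ∃ L₀ > 0, ∀ L ≥ L₀, ∀ (n : ℕ) (S : Finset (Fin n))
      (l : Fin n → ℝ) (θ : Fin n → ℝ → ℝ) (G : Fin n → ℝ → ℝ → ℝ), S.card ≤ m →
      (∀ j ∈ S, Ph C (l j) (θ j) (G j) ∧ L / B ≤ l j ∧ l j ≤ L) → ∀ ξ ∈ Λ,
      (∀ j ∈ S, c * l j ≤ |G j ξ ξ|) → ∃ v ∈ hull Λ θ ξ (R / L), ∀ j ∈ S, ‖v j‖ ≤ η := by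
  obtain ⟨M, hM⟩ := exists_nat_gt (2 * m / (η / 2) ^ 2)
  have M0 : (0 : ℝ) < M := lt_of_le_of_lt (by positivity) hM
  rw [div_lt_iff₀' (by positivity)] at hM
  obtain ⟨φ, hφ, h4⟩ := h3 M
  obtain ⟨T, T1, h5⟩ := moment hφ m (div_pos hc hB) (half_pos hη) hM.le
  have T0 : 0 < T := by linarith
  obtain ⟨Q, Q0, h6⟩ := h4 (η / (4 * C * T)) (by positivity)
  refine ⟨Q * T, by positivity, Q * T + 16 * C * (Q * T) ^ 2 / η, by positivity,
    fun L hL n S l θ G hS hl ξ hξ hG => ?_⟩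
  have L1 : Q * T ≤ L := le_trans (le_add_of_nonneg_right (by positivity)) hL
  have L2 : 16 * C * (Q * T) ^ 2 / η ≤ L := le_trans (le_add_of_nonneg_left (by positivity)) hL
  have L0 : 0 < L := lt_of_lt_of_le (by positivity) L1
  obtain ⟨t, ht, h7⟩ := h5 n S hS (fun j => G j ξ ξ / L) fun j hj => by
    rw [abs_div, abs_of_pos L0, le_div_iff₀ L0]
    calc c / B * L = c * (L / B) := by ring
      _ ≤ c * l j := by gcongr; exact (hl j hj).2.1
      _ ≤ _ := hG j hj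
  have t0 : 0 < t := by linarith [ht.1]
  obtain ⟨y₀, hy₀, y, hy⟩ := h6 ξ hξ (Q * T / L) ⟨by positivity, (div_le_one L0).2 L1⟩ (t / L)
    ⟨by positivity, by
      rw [show Q * T / L / Q = T / L by field_simp]
      gcongr
      exact ht.2⟩
  refine ⟨∑ i, (M : ℝ)⁻¹ • fun j => Complex.exp (Complex.I * θ j (y i)),
    (convex_convexHull ℝ _).sum_mem (fun _ _ => by positivity) (by simp [M0.ne'])
      fun i _ => subset_convexHull ℝ _ ⟨y i, ⟨(hy i).1, (hy i).2.1⟩, rfl⟩, fun j hj => ?_⟩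
  obtain ⟨P, -, l2⟩ := hl j hj
  have key : ∀ i, |θ j (y i) - (θ j y₀ + G j ξ ξ / L * t * φ i)| ≤ η / 2 := fun i => by
    have e : θ j (y i) - (θ j y₀ + G j ξ ξ / L * t * φ i) =
        (y i - y₀) * (G j (y i) y₀ - G j ξ ξ) + (y i - y₀ - t / L * φ i) * G j ξ ξ := by
      linear_combination P.eq (y i) y₀
    have a1 : |y i - y₀| ≤ 2 * (Q * T / L) := by
      have := abs_sub (y i - ξ) (y₀ - ξ)
      rw [sub_sub_sub_cancel_right] at this
      linarith [(hy i).2.1]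
    have CL : C * l j ≤ C * L := by gcongr
    have a2 : |G j (y i) y₀ - G j ξ ξ| ≤ C * L * (2 * (Q * T / L)) :=
      (P.lip _ _ _).trans (mul_le_mul CL (by linarith [(hy i).2.1]) (by positivity) (by positivity))
    have a3 : |G j ξ ξ| ≤ C * L := (P.bd _ _).trans CL
    have a4 : 2 * (Q * T / L) * (C * L * (2 * (Q * T / L))) ≤ η / 4 := by
      rw [div_le_iff₀ hη] at L2
      rw [show 2 * (Q * T / L) * (C * L * (2 * (Q * T / L))) = 4 * C * (Q * T) ^ 2 / L by
        field_simp; ring, div_le_iff₀ L0]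
      linarith
    have a5 : η / (4 * C * T) * (t / L) * (C * L) ≤ η / 4 := by
      rw [show η / (4 * C * T) * (t / L) * (C * L) = η / 4 * (t / T) by field_simp]
      exact mul_le_of_le_one_right (by positivity) ((div_le_one T0).2 ht.2)
    rw [e]
    refine (abs_add_le _ _).trans ?_
    rw [abs_mul, abs_mul]
    linarith [mul_le_mul a1 a2 (abs_nonneg _) (by positivity),
      mul_le_mul (hy i).2.2 a3 (abs_nonneg _) (by positivity)]
  have e : (∑ i, (M : ℝ)⁻¹ • fun j => Complex.exp (Complex.I * θ j (y i))) j =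
      (M : ℝ)⁻¹ • (∑ i, (Complex.exp (Complex.I * θ j (y i)) -
        Complex.exp (Complex.I * (θ j y₀ + G j ξ ξ / L * t * φ i : ℝ))) +
        Complex.exp (Complex.I * θ j y₀) *
          ∑ i, Complex.exp (Complex.I * (G j ξ ξ / L * t * φ i : ℝ))) := by
    rw [Finset.mul_sum, ← Finset.sum_add_distrib, Finset.smul_sum, Finset.sum_apply]
    refine Finset.sum_congr rfl fun i _ => ?_
    rw [← Complex.exp_add, Complex.ofReal_add, mul_add, sub_add_cancel]
    rfl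
  rw [e, norm_smul, norm_inv, Real.norm_of_nonneg M0.le, inv_mul_le_iff₀ M0]
  refine (norm_add_le _ _).trans ?_
  rw [norm_mul, Complex.norm_exp_I_mul_ofReal, one_mul]
  have := (norm_sum_le _ _).trans (Finset.sum_le_card_nsmul Finset.univ _ (η / 2)
    fun i _ => (exp_sub_le _ _).trans (key i))
  rw [Finset.card_fin, nsmul_eq_mul] at this
  linarith [h7 j hj]

theorem multi {Λ : Set ℝ} (h3 : NA Λ) (m : ℕ) {c C : ℝ} (hc : 0 < c) (hC : 0 < C) (k : ℕ) :
    ∀ η > 0, ∀ B ≥ (1 : ℝ), ∀ ρ > 0, ∃ D > 0, ∀ L ≥ D, ∀ (n : ℕ) (S : Finset (Fin n))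
      (l : Fin n → ℝ) (θ : Fin n → ℝ → ℝ) (G : Fin n → ℝ → ℝ → ℝ), S.card ≤ m →
      (∀ j ∈ S, Ph C (l j) (θ j) (G j) ∧ D ≤ l j ∧ l j ≤ L) →
      (S.filter fun j => l j < L / B).card ≤ k → ∀ ξ ∈ Λ,
      (∀ j ∈ S, ∀ y, |y - ξ| ≤ ρ → c * l j ≤ |G j y y|) →
      ∃ v ∈ hull Λ θ ξ ρ, ∀ j ∈ S, ‖v j‖ ≤ η := by
  induction k with
  | zero =>
    intro η hη B hB ρ hρ
    obtain ⟨R, R0, L₀, L0, h⟩ := single h3 m hc hC hη (by linarith : 0 < B)
    refine ⟨L₀ + R / ρ, by positivity, fun L hL n S l θ G hS hl hk ξ hξ hG => ?_⟩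
    have L1 : L₀ ≤ L := le_trans (le_add_of_nonneg_right (by positivity)) hL
    have L2 : R / ρ ≤ L := le_trans (le_add_of_nonneg_left L0.le) hL
    obtain ⟨v, hv, h'⟩ := h L L1 n S l θ G hS (fun j hj => ⟨(hl j hj).1, by
      rw [Nat.le_zero, Finset.card_eq_zero, Finset.filter_eq_empty_iff] at hk
      exact not_lt.1 (hk hj), (hl j hj).2.2⟩) ξ hξ fun j hj => hG j hj ξ (by simp [hρ.le])
    refine ⟨v, hull_mono ?_ hv, h'⟩
    rw [div_le_iff₀ hρ] at L2
    rw [sub_self, abs_zero, add_zero, div_le_iff₀ (L0.trans_le L1)]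
    linarith
  | succ k ih =>
    intro η hη B hB ρ hρ
    obtain ⟨R, R0, L₀, L0, h⟩ := single h3 m hc hC hη (by linarith : 0 < B)
    set B' := B + 2 * C * R / η with hB'
    have BB : B ≤ B' := le_add_of_nonneg_right (by positivity)
    obtain ⟨D₁, D1, h₁⟩ := ih η hη B' (hB.trans BB) ρ hρ
    obtain ⟨D₂, D2, h₂⟩ := ih (η / 2) (half_pos hη) 1 le_rfl (ρ / 2) (half_pos hρ)
    have p1 : 0 < 2 * R / ρ := by positivity
    refine ⟨L₀ + 2 * R / ρ + D₁ + D₂, by positivity,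
      fun L hL n S l θ G hS hl hk ξ hξ hG => ?_⟩
    have Lp : 0 < L := by linarith
    by_cases hk' : (S.filter fun j => l j < L / B').card ≤ k
    · exact h₁ L (by linarith) n S l θ G hS
        (fun j hj => ⟨(hl j hj).1, by linarith [(hl j hj).2.1], (hl j hj).2.2⟩) hk' ξ hξ hG
    set S' := S.filter fun j => l j < L / B' with hS'
    have sub : S' ⊆ S.filter fun j => l j < L / B := fun j hj => by
      rw [Finset.mem_filter] at hj ⊢
      exact ⟨hj.1, hj.2.trans_le (by gcongr)⟩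
    have eqS : S' = S.filter fun j => l j < L / B :=
      Finset.eq_of_subset_of_card_le sub (by omega)
    obtain ⟨j₀, hj₀, hmax⟩ := S'.exists_max_image l (Finset.card_pos.1 (by omega))
    have sub' : S' ⊆ S := Finset.filter_subset _ _
    obtain ⟨w, hw, hw'⟩ := h₂ (l j₀) (by linarith [(hl j₀ (sub' hj₀)).2.1]) n S' l θ G
      ((Finset.card_le_card sub').trans hS)
      (fun j hj => ⟨(hl j (sub' hj)).1, by linarith [(hl j (sub' hj)).2.1], hmax j hj⟩) (by
        have : (S'.filter fun j => l j < l j₀ / 1).card < S'.card :=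
          Finset.card_lt_card (Finset.filter_ssubset.2 ⟨j₀, hj₀, by simp⟩)
        have := Finset.card_le_card sub
        omega) ξ hξ fun j hj y hy => hG j (sub' hj) y (by linarith)
    have RL : R / L ≤ ρ / 2 := by
      have : 2 * R / ρ ≤ L := by linarith
      rw [div_le_iff₀ hρ] at this
      rw [div_le_iff₀ Lp]
      linarith
    have : hull Λ θ ξ (ρ / 2) ⊆ {w | ∃ v ∈ hull Λ θ ξ ρ, (∀ j ∈ S \ S', ‖v j‖ ≤ η) ∧
        ∀ j ∈ S', ‖v j - w j‖ ≤ η / 2} := by
      refine convexHull_min ?_ ?_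
      · rintro _ ⟨y, ⟨hy1, hy2⟩, rfl⟩
        obtain ⟨v, hv, h'⟩ := h L (by linarith) n (S \ S') l θ G
          ((Finset.card_le_card Finset.sdiff_subset).trans hS) (fun j hj => by
            rw [Finset.mem_sdiff, eqS, Finset.mem_filter] at hj
            exact ⟨(hl j hj.1).1, not_lt.1 fun e => hj.2 ⟨hj.1, e⟩, (hl j hj.1).2.2⟩) y hy1
          fun j hj => hG j (Finset.mem_sdiff.1 hj).1 y (by linarith)
        refine ⟨v, hull_mono (by linarith) hv, h', fun j hj => ?_⟩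
        · have cv := (convex_closedBall (Complex.exp (Complex.I * θ j y)) (η / 2)).linear_preimage
            (LinearMap.proj (R := ℝ) (φ := fun _ : Fin n => ℂ) j)
          refine mem_closedBall_iff_norm.1 (show v j ∈ Metric.closedBall _ _ from
            convexHull_min ?_ cv hv)
          rintro _ ⟨x, hx, rfl⟩
          refine mem_closedBall_iff_norm.2 ((exp_sub_le _ _).trans ?_)
          obtain ⟨P, l0, -⟩ := hl j (sub' hj)
          have l1 : l j ≤ L / B' := (Finset.mem_filter.1 hj).2.le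
          have B0 : 0 < B' := by linarith
          rw [P.eq, abs_mul]
          calc _ ≤ R / L * (C * (L / B')) :=
                mul_le_mul hx.2 ((P.bd _ _).trans (by gcongr)) (abs_nonneg _) (by positivity)
            _ = C * R / B' := by field_simp
            _ ≤ η / 2 := by
              have : 2 * C * R / η ≤ B' := le_add_of_nonneg_left (by linarith)
              rw [div_le_iff₀ hη] at this
              rw [div_le_iff₀ B0]
              linarith
      · rintro w₁ ⟨v₁, a1, a2, a3⟩ w₂ ⟨v₂, b1, b2, b3⟩ s t hs ht hst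
        refine ⟨s • v₁ + t • v₂, convex_convexHull ℝ _ a1 b1 hs ht hst, fun j hj => ?_,
          fun j hj => ?_⟩
        · exact mem_closedBall_zero_iff.1 (convex_closedBall (0 : ℂ) η
            (mem_closedBall_zero_iff.2 (a2 j hj)) (mem_closedBall_zero_iff.2 (b2 j hj)) hs ht hst)
        · have := mem_closedBall_zero_iff.1 (convex_closedBall (0 : ℂ) (η / 2)
            (mem_closedBall_zero_iff.2 (a3 j hj)) (mem_closedBall_zero_iff.2 (b3 j hj)) hs ht hst)
          rwa [smul_sub, smul_sub, ← add_sub_add_comm] at this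
    obtain ⟨v, hv, v1, v2⟩ := this hw
    refine ⟨v, hv, fun j hj => ?_⟩
    by_cases e : j ∈ S'
    · linarith [norm_le_norm_add_norm_sub' (v j) (w j), v2 j e, hw' j e]
    · exact v1 j (Finset.mem_sdiff.2 ⟨hj, e⟩)

/-- the divided difference of `kd z` -/
noncomputable def g (z : ℍ) (a b : ℝ) : ℂ :=
  -(2 * z.im : ℝ) * ((conj (z : ℂ) - a)⁻¹ * (conj (z : ℂ) - b)⁻¹)

theorem dot_le (k x : ℂ) : |dot k x| ≤ ‖k‖ * ‖x‖ := by
  simpa [dot] using Complex.abs_re_le_norm (conj k * x)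

theorem dot_sub (k k' x : ℂ) : dot k x - dot k' x = dot (k - k') x := by
  simp only [dot, map_sub, sub_mul, Complex.sub_re]

theorem phase (z : ℍ) (x : ℂ) : Ph (2 / z.im + 2 / z.im ^ 2) ‖x‖ (fun y => dot (kd z y) x)
    fun a b => dot (g z a b) x := by
  have y0 := z.im_pos
  have h : ∀ t : ℝ, ‖(conj (z : ℂ) - t)⁻¹‖ ≤ z.im⁻¹ := fun t => by
    rw [norm_inv]
    exact inv_anti₀ y0 (by simpa [abs_of_pos y0] using Complex.abs_im_le_norm (conj (z : ℂ) - t))
  have h' : ∀ s t : ℝ, ‖(conj (z : ℂ) - s)⁻¹ - (conj (z : ℂ) - t)⁻¹‖ ≤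
      |s - t| * (z.im⁻¹ * z.im⁻¹) := fun s t => by
    have : (conj (z : ℂ) - s)⁻¹ - (conj (z : ℂ) - t)⁻¹ =
        (s - t : ℝ) * ((conj (z : ℂ) - s)⁻¹ * (conj (z : ℂ) - t)⁻¹) := by
      have h1 := kd_den z s
      have h2 := kd_den z t
      field_simp
      push_cast
      ring
    rw [this, norm_mul, norm_mul, Complex.norm_real, Real.norm_eq_abs]
    gcongr <;> exact h _
  have n2 : ‖(-(2 * z.im : ℝ) : ℂ)‖ = 2 * z.im := by
    rw [norm_neg, Complex.norm_real, Real.norm_of_nonneg (by positivity)]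
  have p1 : 0 < 2 / z.im := by positivity
  have p2 : 0 < 2 / z.im ^ 2 := by positivity
  refine ⟨fun a b => ?_, fun a b => (dot_le _ _).trans ?_, fun a b ξ => ?_⟩
  · have : kd z a - kd z b = (a - b : ℝ) * g z a b := by
      rw [kd_sub, g, div_eq_mul_inv, mul_inv]
      push_cast
      ring
    rw [dot_sub, this, dot, dot, map_mul, Complex.conj_ofReal, mul_assoc, Complex.re_ofReal_mul]
  · gcongr
    rw [g, norm_mul, norm_mul, n2]
    calc _ ≤ 2 * z.im * (z.im⁻¹ * z.im⁻¹) := by gcongr <;> exact h _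
      _ = 2 / z.im := by field_simp
      _ ≤ _ := by linarith
  · rw [dot_sub, mul_right_comm]
    refine (dot_le _ _).trans ?_
    gcongr
    have : g z a b - g z ξ ξ = -(2 * z.im : ℝ) *
        (((conj (z : ℂ) - a)⁻¹ - (conj (z : ℂ) - ξ)⁻¹) * (conj (z : ℂ) - b)⁻¹ +
          (conj (z : ℂ) - ξ)⁻¹ * ((conj (z : ℂ) - b)⁻¹ - (conj (z : ℂ) - ξ)⁻¹)) := by
      rw [g, g]; ring
    rw [this, norm_mul, n2]
    calc _ ≤ 2 * z.im * (|a - ξ| * (z.im⁻¹ * z.im⁻¹) * z.im⁻¹ +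
          z.im⁻¹ * (|b - ξ| * (z.im⁻¹ * z.im⁻¹))) := by
          gcongr
          refine (norm_add_le _ _).trans ?_
          rw [norm_mul, norm_mul]
          gcongr
          exacts [h' _ _, h _, h _, h' _ _]
      _ = 2 / z.im ^ 2 * (|a - ξ| + |b - ξ|) := by field_simp
      _ ≤ _ := by gcongr; linarith

theorem zero_of {z : ℍ} {x : ℂ} {p : ℝ} (h : dot (g z p p) x = 0) :
    x.re * ((z.re - p) ^ 2 - z.im ^ 2) + x.im * (2 * (z.re - p) * z.im) = 0 := by
  have y0 := z.im_pos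
  have h1 := kd_den z p
  have e : g z p p = (-(2 * z.im) / Complex.normSq (conj (z : ℂ) - p) ^ 2 : ℝ) * (z - p) ^ 2 := by
    have h2 : (z : ℂ) - p ≠ 0 := fun e => h1 (by simpa using congrArg conj e)
    have h3 : (Complex.normSq (conj (z : ℂ) - p) : ℂ) = (conj (z : ℂ) - p) * (z - p) := by
      rw [← Complex.mul_conj]; simp
    rw [g]
    push_cast
    rw [h3]
    field_simp
  rw [e, dot, map_mul, Complex.conj_ofReal, mul_assoc, Complex.re_ofReal_mul, mul_eq_zero] at h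
  rcases h with h | h
  · have := Complex.normSq_pos.2 h1
    exact absurd h (div_ne_zero (neg_ne_zero.2 (by positivity)) (by positivity))
  · simp [sq] at h
    linear_combination h

theorem three (z : ℍ) {p q r : ℝ} (h1 : p ≠ q) (h2 : p ≠ r) (h3 : q ≠ r) : ∃ c > 0, ∀ x : ℂ,
    c * ‖x‖ ≤ |dot (g z p p) x| ∨ c * ‖x‖ ≤ |dot (g z q q) x| ∨ c * ‖x‖ ≤ |dot (g z r r) x| := by
  have y0 := z.im_pos
  let f (k : ℂ) : ℂ →ₗ[ℝ] ℝ := Complex.reLm ∘ₗ LinearMap.mul ℝ ℂ (conj k)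
  obtain ⟨K, K0, hK⟩ := ((f (g z p p)).prod ((f (g z q q)).prod
    (f (g z r r)))).exists_antilipschitzWith (LinearMap.ker_eq_bot'.2 fun x hx => by
      have a := zero_of (z := z) (x := x) (p := p) (congrArg (·.1) hx)
      have b := zero_of (z := z) (x := x) (p := q) (congrArg (·.2.1) hx)
      have c := zero_of (z := z) (x := x) (p := r) (congrArg (·.2.2) hx)
      have d1 : x.re * (2 * z.re - p - q) + x.im * (2 * z.im) = 0 :=
        mul_left_cancel₀ (sub_ne_zero.2 h1.symm) (by linear_combination a - b)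
      have d2 : x.re * (2 * z.re - p - r) + x.im * (2 * z.im) = 0 :=
        mul_left_cancel₀ (sub_ne_zero.2 h2.symm) (by linear_combination a - c)
      have d3 : x.re = 0 := mul_left_cancel₀ (sub_ne_zero.2 h3.symm) (by linear_combination d1 - d2)
      have d4 : x.im = 0 := mul_left_cancel₀ (by positivity : 2 * z.im ≠ 0)
        (by rw [d3] at d1; linear_combination d1)
      exact Complex.ext d3 d4)
  have K1 : (0 : ℝ) < K := K0
  refine ⟨K⁻¹, by positivity, fun x => ?_⟩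
  have := hK.le_mul_norm (map_zero _) x
  rw [← inv_mul_le_iff₀ K1, Prod.norm_def, Prod.norm_def, le_max_iff, le_max_iff] at this
  exact this

end A9

open A9 in
theorem raj_of_na {Λ : Set ℝ} (h1 : Λ.Infinite) (h2 : Bornology.IsBounded Λ) (h3 : NA Λ) (z : ℍ) :
    Raj (kd z '' Λ) := by
  intro m η hη
  have _ := h2
  have y0 := z.im_pos
  obtain ⟨P, hP, Pc⟩ := h1.exists_subset_card_eq (2 * m + 1)
  obtain ⟨c, hc, c0⟩ : ∃ c : ℝ, (∀ p ∈ P, ∀ q ∈ P, ∀ r ∈ P, p ≠ q → p ≠ r → q ≠ r → ∀ x : ℂ,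
      c * ‖x‖ ≤ |dot (g z p p) x| ∨ c * ‖x‖ ≤ |dot (g z q q) x| ∨ c * ‖x‖ ≤ |dot (g z r r) x|) ∧
      c ∈ Ioi 0 := by
    refine (Filter.Eventually.and ?_ (self_mem_nhdsWithin (a := (0 : ℝ)) (s := Ioi 0))).exists
    refine (Filter.eventually_all_finset _).2 fun p _ => (Filter.eventually_all_finset _).2
      fun q _ => (Filter.eventually_all_finset _).2 fun r _ => Filter.eventually_imp_distrib_left.2
        fun a => Filter.eventually_imp_distrib_left.2 fun b =>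
          Filter.eventually_imp_distrib_left.2 fun d => ?_
    obtain ⟨c, c0, hc⟩ := three z a b d
    filter_upwards [Ioc_mem_nhdsGT c0] with c' hc' x
    have : c' * ‖x‖ ≤ c * ‖x‖ := by gcongr; exact hc'.2
    exact (hc x).imp this.trans (Or.imp this.trans this.trans)
  replace c0 : 0 < c := c0
  set C := 2 / z.im + 2 / z.im ^ 2 with hC
  have C0 : 0 < C := by positivity
  obtain ⟨D, D0, hD⟩ := multi h3 m (half_pos c0) C0 m η hη 1 le_rfl (c / (4 * C)) (by positivity)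
  refine ⟨D, fun n hn x hx => ?_⟩
  obtain ⟨p, hp, hp'⟩ : ∃ p ∈ P, p ∉ Finset.univ.biUnion fun j =>
      P.filter fun p => |dot (g z p p) (x j)| < c * ‖x j‖ := by
    refine Finset.exists_mem_notMem_of_card_lt_card ?_
    refine (Finset.card_biUnion_le_card_mul _ _ 2 fun j _ => ?_).trans_lt (by simp; omega)
    by_contra h
    obtain ⟨p, q, r, a1, a2, a3, b1, b2, b3⟩ := Finset.two_lt_card_iff.1 (not_le.1 h)
    rw [Finset.mem_filter] at a1 a2 a3
    rcases hc p a1.1 q a2.1 r a3.1 b1 b2 b3 (x j) with e | e | e <;> linarith [a1.2, a2.2, a3.2]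
  obtain ⟨v, hv, hv'⟩ := hD (D + ∑ j, ‖x j‖) (le_add_of_nonneg_right (by positivity)) n Finset.univ
    (fun j => ‖x j‖) (fun j y => dot (kd z y) (x j)) (fun j a b => dot (g z a b) (x j))
    (by simpa using hn) (fun j _ => ⟨phase z _, hx j, by
      linarith [Finset.single_le_sum (f := fun j => ‖x j‖) (fun _ _ => norm_nonneg _)
        (Finset.mem_univ j)]⟩)
    ((Finset.card_filter_le _ _).trans (by simpa using hn)) p (hP hp) fun j _ y hy => by
      have a1 : c * ‖x j‖ ≤ |dot (g z p p) (x j)| := not_lt.1 fun e =>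
        hp' (Finset.mem_biUnion.2 ⟨j, Finset.mem_univ _, Finset.mem_filter.2 ⟨hp, e⟩⟩)
      have a2 := (phase z (x j)).lip y y p
      have a3 : C * ‖x j‖ * (|y - p| + |y - p|) ≤ C * ‖x j‖ * (c / (4 * C) + c / (4 * C)) := by
        gcongr
      rw [show C * ‖x j‖ * (c / (4 * C) + c / (4 * C)) = c / 2 * ‖x j‖ by field_simp; ring] at a3
      have a4 := abs_sub_abs_le_abs_sub (dot (g z p p) (x j)) (dot (g z y y) (x j))
      rw [abs_sub_comm] at a4
      linarith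
  refine ⟨v, convexHull_mono ?_ hv, fun j => hv' j (Finset.mem_univ j)⟩
  rintro _ ⟨y, hy, rfl⟩
  exact ⟨_, ⟨y, hy.1, rfl⟩, rfl⟩

end Pool.Agent.Lib.MP_e1e19a_an
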