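import Pool.Agent.Lib.MP_e1e19a_an.N.Core

/-!
The barrier when the amplitudes are not summable.
-/

namespace Pool.Agent.Lib.MP_e1e19a_an

open Real MeasureTheory Set
open scoped MatrixGroups ComplexConjugate UpperHalfPlane

namespace B1

/-- continuous functions on a large disc -/
abbrev E : Type := C(Metric.closedBall (0 : ℂ) 20, ℂ)

theorem cont_dot (κ : ℂ) : Continuous fun x : ℂ => dot κ x := by
  unfold dot
  fun_prop

/-- a plane wave -/
noncomputable def pw (κ : ℂ) : E :=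
  ⟨fun x => Complex.exp (Complex.I * (dot κ x : ℝ)), by
    have := cont_dot κ
    fun_prop⟩

variable {ι : Type} {a : ι → ℝ} {k : ι → ℂ} {K : Set ℂ}

/-- a finite sum of complex plane waves -/
noncomputable def cw (a : ι → ℝ) (k : ι → ℂ) (t : ι → ℝ) (T : Finset ι) (x : ℂ) : ℂ :=
  ∑ i ∈ T, a i * Complex.exp (Complex.I * (dot (k i) x + t i : ℝ))

theorem cw_re (t : ι → ℝ) (T : Finset ι) (x : ℂ) : (cw a k t T x).re = wave a k t T x := by
  unfold cw wave
  rw [Complex.re_sum]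
  refine Finset.sum_congr rfl fun i _ => ?_
  rw [Complex.re_ofReal_mul, mul_comm Complex.I, Complex.exp_ofReal_mul_I_re]

/-- functions that can be approximated by unused waves -/
def Ap (a : ι → ℝ) (k : ι → ℂ) (f : E) : Prop :=
  ∀ U : Finset ι, ∀ ε > 0, ∃ (T : Finset ι) (t : ι → ℝ), Disjoint T U ∧
    ∀ x : Metric.closedBall (0 : ℂ) 20, ‖cw a k t T x - f x‖ ≤ ε

theorem cw_union [DecidableEq ι] {T T' : Finset ι} (h : Disjoint T' T) (t t' : ι → ℝ) (x : ℂ) :
    cw a k (fun i => if i ∈ T then t i else t' i) (T ∪ T') x = cw a k t T x + cw a k t' T' x := by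
  unfold cw
  rw [Finset.sum_union h.symm]
  congr 1
  · exact Finset.sum_congr rfl fun i hi => by simp only [hi, if_true]
  · exact Finset.sum_congr rfl fun i hi => by
      simp only [Finset.disjoint_left.1 h hi, if_false]

theorem Ap.zero : Ap a k 0 := fun U ε hε => ⟨∅, fun _ => 0, by simp, fun x => by
  simpa [cw] using hε.le⟩

theorem Ap.add {f g : E} (hf : Ap a k f) (hg : Ap a k g) : Ap a k (f + g) := by
  classical
  intro U ε hε
  obtain ⟨T, t, h1, h2⟩ := hf U (ε / 2) (by positivity)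
  obtain ⟨T', t', h3, h4⟩ := hg (U ∪ T) (ε / 2) (by positivity)
  rw [Finset.disjoint_union_right] at h3
  refine ⟨T ∪ T', fun i => if i ∈ T then t i else t' i,
    Finset.disjoint_union_left.2 ⟨h1, h3.1⟩, fun x => ?_⟩
  rw [cw_union h3.2, ContinuousMap.add_apply, add_sub_add_comm]
  exact (norm_add_le _ _).trans (by linarith [h2 x, h4 x])

theorem Ap.of_closure {s : Set E} (hs : ∀ f ∈ s, Ap a k f) {f : E} (hf : f ∈ closure s) :
    Ap a k f := by
  intro U ε hε
  obtain ⟨g, hg, h1⟩ := Metric.mem_closure_iff.1 hf (ε / 2) (by positivity)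
  obtain ⟨T, t, h2, h3⟩ := hs g hg U (ε / 2) (by positivity)
  refine ⟨T, t, h2, fun x => ?_⟩
  have h4 : ‖g x - f x‖ ≤ ε / 2 := by
    rw [← dist_eq_norm, dist_comm]
    exact (ContinuousMap.dist_apply_le_dist x).trans h1.le
  calc ‖cw a k t T x - f x‖ = ‖(cw a k t T x - g x) + (g x - f x)‖ := by ring_nf
    _ ≤ _ := (norm_add_le _ _).trans (by linarith [h3 x])

theorem greedy {b : ι → ℝ} {δ : ℝ} (hδ : 0 ≤ δ) (hb : ∀ i, b i ≤ δ) (T : Finset ι) :
    ∀ c : ℝ, 0 ≤ c → c ≤ ∑ i ∈ T, b i →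
      ∃ T' : Finset ι, c - δ ≤ ∑ i ∈ T', b i ∧ ∑ i ∈ T', b i ≤ c := by
  classical
  induction T using Finset.induction_on with
  | empty => exact fun c h1 h2 => ⟨∅, by simp at h2 ⊢; constructor <;> linarith⟩
  | insert j T hj ih =>
    intro c h1 h2
    rw [Finset.sum_insert hj] at h2
    by_cases h3 : c ≤ ∑ i ∈ T, b i
    · exact ih c h1 h3
    · exact ⟨T, by linarith [hb j], by linarith⟩

theorem exp_lip (s t : ℝ) :
    ‖Complex.exp (Complex.I * s) - Complex.exp (Complex.I * t)‖ ≤ |s - t| := by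
  have h : Complex.exp (Complex.I * s) - Complex.exp (Complex.I * t) =
      Complex.exp (Complex.I * t) * (Complex.exp (Complex.I * (s - t : ℝ)) - 1) := by
    rw [mul_sub, ← Complex.exp_add]
    push_cast
    ring_nf
  rw [h, norm_mul, Complex.norm_exp_I_mul_ofReal, one_mul]
  exact Real.norm_exp_I_mul_ofReal_sub_one_le

theorem dot_lip (κ κ' x : ℂ) : |dot κ x - dot κ' x| ≤ ‖κ - κ'‖ * ‖x‖ := by
  have : dot κ x - dot κ' x = (conj (κ - κ') * x).re := by
    simp only [dot, map_sub, sub_mul, Complex.sub_re]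
  rw [this, ← Complex.norm_conj (κ - κ'), ← norm_mul]
  exact Complex.abs_re_le_norm _

theorem ap_pw (ha : ∀ i, 0 < a i) (hs : Summable fun i => a i ^ 2) (hd : Div a k K) {κ : ℂ}
    (hκ : κ ∈ K) (w : ℂ) : Ap a k (w • pw κ) := by
  classical
  intro U ε hε
  set β := ε / (40 * (‖w‖ + 1)) with hβ
  have hβ0 : 0 < β := by positivity
  set b : ι → ℝ := fun i => if ‖k i - κ‖ ≤ β ∧ i ∉ U ∧ a i ≤ ε / 2 then a i else 0 with hb
  have hb0 : ∀ i, 0 ≤ b i := fun i => by
    simp only [hb]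
    split_ifs
    exacts [(ha i).le, le_rfl]
  have hb1 : ∀ i, b i ≤ ε / 2 := fun i => by
    simp only [hb]
    split_ifs with h
    exacts [h.2.2, by positivity]
  have hns : ¬ Summable b := by
    intro h
    refine hd κ hκ β hβ0 (h.congr_cofinite ?_)
    have h1 := hs.tendsto_cofinite_zero.eventually (gt_mem_nhds (by positivity : 0 < (ε / 2) ^ 2))
    filter_upwards [h1, U.eventually_cofinite_notMem] with i h2 h3
    have h4 : a i ≤ ε / 2 := (abs_lt_of_sq_lt_sq' h2 (by positivity)).2.le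
    simp only [hb, h3, h4, not_false_eq_true, and_true]
  obtain ⟨T₀, hT₀⟩ : ∃ T₀ : Finset ι, ‖w‖ ≤ ∑ i ∈ T₀, b i := by
    by_contra hc
    exact hns (summable_of_sum_le hb0 fun u => (not_le.1 fun h => hc ⟨u, h⟩).le)
  obtain ⟨T₁, h1, h2⟩ := greedy (by positivity) hb1 T₀ ‖w‖ (norm_nonneg _) hT₀
  set T := T₁.filter fun i => ‖k i - κ‖ ≤ β ∧ i ∉ U ∧ a i ≤ ε / 2 with hT
  have h3 : ∑ i ∈ T, a i = ∑ i ∈ T₁, b i := Finset.sum_filter _ _
  rw [← h3] at h1 h2
  refine ⟨T, fun _ => w.arg, Finset.disjoint_left.2 fun i hi => (Finset.mem_filter.1 hi).2.2.1,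
    fun x => ?_⟩
  have hx : ‖(x : ℂ)‖ ≤ 20 := mem_closedBall_zero_iff.1 x.2
  have h4 : cw a k (fun _ => w.arg) T x - (w • pw κ) x =
      ∑ i ∈ T, a i * (Complex.exp (Complex.I * (dot (k i) x + w.arg : ℝ)) -
        Complex.exp (Complex.I * (dot κ x + w.arg : ℝ))) +
      (∑ i ∈ T, a i - ‖w‖ : ℝ) * Complex.exp (Complex.I * (dot κ x + w.arg : ℝ)) := by
    have h5 : (w • pw κ) x = ‖w‖ * Complex.exp (Complex.I * (dot κ x + w.arg : ℝ)) := by
      show w * Complex.exp (Complex.I * (dot κ x : ℝ)) = _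
      conv_lhs => rw [← Complex.norm_mul_exp_arg_mul_I w]
      rw [mul_assoc, ← Complex.exp_add]
      push_cast
      ring_nf
    rw [h5]
    unfold cw
    simp only [mul_sub, Finset.sum_sub_distrib, Complex.ofReal_sub, Complex.ofReal_sum, sub_mul,
      Finset.sum_mul]
    ring
  rw [h4]
  refine (norm_add_le _ _).trans ?_
  have h5 : ‖∑ i ∈ T, a i * (Complex.exp (Complex.I * (dot (k i) x + w.arg : ℝ)) -
      Complex.exp (Complex.I * (dot κ x + w.arg : ℝ)))‖ ≤ ∑ i ∈ T, a i * (β * 20) := by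
    refine norm_sum_le_of_le _ fun i hi => ?_
    rw [norm_mul, Complex.norm_real, Real.norm_of_nonneg (ha i).le]
    refine mul_le_mul_of_nonneg_left ((exp_lip _ _).trans ?_) (ha i).le
    rw [add_sub_add_right_eq_sub]
    exact (dot_lip _ _ _).trans
      (mul_le_mul (Finset.mem_filter.1 hi).2.1 hx (norm_nonneg _) hβ0.le)
  rw [norm_mul, Complex.norm_exp_I_mul_ofReal, mul_one, Complex.norm_real, Real.norm_eq_abs,
    abs_of_nonpos (by linarith)]
  rw [← Finset.sum_mul] at h5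
  have h6 : (‖w‖ + 1) * (β * 20) = ε / 2 := by
    rw [hβ]
    field_simp
    ring
  have h7 : (∑ i ∈ T, a i) * (β * 20) ≤ (‖w‖ + 1) * (β * 20) :=
    mul_le_mul_of_nonneg_right (by linarith) (by positivity)
  linarith

theorem ap_span (ha : ∀ i, 0 < a i) (hs : Summable fun i => a i ^ 2) (hd : Div a k K) {f : E}
    (hf : f ∈ (Submodule.span ℂ (pw '' K)).topologicalClosure) : Ap a k f := by
  refine Ap.of_closure (s := Submodule.span ℂ (pw '' K)) (fun g hg => ?_) hf
  have key : ∀ w : ℂ, Ap a k (w • g) := by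
    induction hg using Submodule.span_induction with
    | mem g hg =>
      obtain ⟨κ, hκ, rfl⟩ := hg
      exact ap_pw ha hs hd hκ
    | zero => exact fun w => by simpa using Ap.zero
    | add g g' _ _ h1 h2 => exact fun w => by simpa using (h1 w).add (h2 w)
    | smul c g _ h => exact fun w => by simpa [smul_smul] using h (w * c)
  simpa using key 1

/-- the holomorphic family of plane waves -/
noncomputable def pz (ζ : ℂ) : E :=
  NormedSpace.exp (ζ • (⟨fun x => Complex.I * conj (x : ℂ) / 2, by fun_prop⟩ : E) +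
    ζ⁻¹ • (⟨fun x => Complex.I * (x : ℂ) / 2, by fun_prop⟩ : E))

theorem pz_an {ζ : ℂ} (h : ζ ≠ 0) : AnalyticAt ℂ pz ζ :=
  (NormedSpace.exp_analytic _).comp ((analyticAt_id.smul analyticAt_const).add
    ((analyticAt_id.inv h).smul analyticAt_const))

theorem pz_eq {κ : ℂ} (h : ‖κ‖ = 1) : pz κ = pw κ := by
  ext x
  have h1 := NormedSpace.map_exp_of_mem_ball (𝕂 := ℂ) (ContinuousMap.evalAlgHom ℂ ℂ x)
    (continuous_eval_const x)
    (κ • (⟨fun x => Complex.I * conj (x : ℂ) / 2, by fun_prop⟩ : E) +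
      κ⁻¹ • (⟨fun x => Complex.I * (x : ℂ) / 2, by fun_prop⟩ : E))
    ((NormedSpace.expSeries_radius_eq_top ℂ E).symm ▸ edist_lt_top _ _)
  refine h1.trans ?_
  rw [← Complex.exp_eq_exp_ℂ]
  show Complex.exp (κ * (Complex.I * conj (x : ℂ) / 2) + κ⁻¹ * (Complex.I * x / 2)) =
    Complex.exp (Complex.I * (dot κ x : ℝ))
  congr 1
  rw [Complex.inv_eq_conj h, dot, Complex.re_eq_add_conj, map_mul, Complex.conj_conj]
  ring

theorem pw_mem (hK : K.Infinite) (hu : ∀ κ ∈ K, ‖κ‖ = 1) {κ : ℂ} (hκ : ‖κ‖ = 1) :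
    pw κ ∈ (Submodule.span ℂ (pw '' K)).topologicalClosure := by
  by_contra hc
  set S := (Submodule.span ℂ (pw '' K)).topologicalClosure
  obtain ⟨φ, u, h1, h2⟩ := RCLike.geometric_hahn_banach_closed_point (𝕜 := ℂ) (s := (S : Set E))
    (S.restrictScalars ℝ).convex (Submodule.isClosed_topologicalClosure _) hc
  have h3 : ∀ f ∈ S, φ f = 0 := by
    intro f hf
    by_contra h
    have := h1 _ (S.smul_mem ((u : ℂ) / φ f) hf)
    rw [map_smul, smul_eq_mul, div_mul_cancel₀ _ h] at this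
    simp at this
  obtain ⟨z, hz, hz'⟩ := hK.exists_accPt_of_subset_isCompact (isCompact_sphere (0 : ℂ) 1)
    fun κ h => by simpa using hu κ h
  have hz0 : z ≠ 0 := by
    rintro rfl
    simp at hz
  have h4 : AnalyticOnNhd ℂ (fun ζ => φ (pz ζ)) {0}ᶜ := fun ζ h =>
    (φ.analyticAt _).comp (pz_an h)
  have h5 := h4.eqOn_zero_of_preconnected_of_frequently_eq_zero
    (isConnected_compl_singleton_of_one_lt_rank (by simp) _).isPreconnected hz0
    ((accPt_iff_frequently_nhdsNE.1 hz').mono fun ζ h => by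
      rw [pz_eq (hu ζ h)]
      exact h3 _ (Submodule.le_topologicalClosure _ (Submodule.subset_span ⟨ζ, h, rfl⟩)))
  have h6 : φ (pz κ) = 0 := h5 (show κ ≠ 0 by rintro rfl; simp at hκ)
  have h7 := h1 0 S.zero_mem
  rw [pz_eq hκ] at h6
  rw [h6] at h2
  rw [map_zero] at h7
  exact lt_asymm h2 h7

end B1

open B1 in
theorem bp_div {ι : Type} {a : ι → ℝ} {k : ι → ℂ} {K : Set ℂ} (ha : ∀ i, 0 < a i)
    (hs : Summable fun i => a i ^ 2) (hk : ∀ i, ‖k i‖ = 1) (hK : K.Infinite)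
    (hu : ∀ κ ∈ K, ‖κ‖ = 1) (hd : Div a k K) : BP a k := by
  classical
  have h3 : √3 ^ 2 = 3 := Real.sq_sqrt (by norm_num)
  have h31 : 1 ≤ √3 := Real.one_le_sqrt.2 (by norm_num)
  set k₂ : ℂ := ⟨-1 / 2, √3 / 2⟩ with hk₂
  set k₃ : ℂ := ⟨-1 / 2, -(√3 / 2)⟩ with hk₃
  have n₂ : ‖k₂‖ = 1 := by
    rw [Complex.norm_eq_sqrt_sq_add_sq, Real.sqrt_eq_one]
    simp only [hk₂]
    nlinarith
  have n₃ : ‖k₃‖ = 1 := by
    rw [Complex.norm_eq_sqrt_sq_add_sq, Real.sqrt_eq_one]
    simp only [hk₃]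
    nlinarith
  have e₁ : ∀ x, dot 1 x = x.re := fun x => by simp [dot]
  have e₂ : ∀ x, dot k₂ x = -1 / 2 * x.re + √3 / 2 * x.im := fun x => by simp [dot, hk₂]
  have e₃ : ∀ x, dot k₃ x = -(dot 1 x + dot k₂ x) := fun x => by
    rw [e₁, e₂]
    simp [dot, hk₃]
    ring
  have hb : ∀ x : ℂ, max |dot 1 x| |dot k₂ x| ≤ π → ‖x‖ ≤ 20 := by
    intro x hx
    rw [max_le_iff, e₁, e₂] at hx
    have h1 := abs_le.1 hx.1
    have h2 := abs_le.1 hx.2
    have h4 := Real.pi_lt_four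
    have h5 : |x.im| ≤ 12 := by
      rw [abs_le]
      constructor <;> nlinarith
    linarith [Complex.norm_le_abs_re_add_abs_im x, hx.1]
  have hc : Continuous fun x : ℂ => max |dot 1 x| |dot k₂ x| :=
    (cont_dot 1).abs.max (cont_dot k₂).abs
  refine ⟨{x | max |dot 1 x| |dot k₂ x| < π}, 0, 1 / 2, isOpen_lt hc continuous_const,
    (Metric.isBounded_closedBall (x := (0 : ℂ)) (r := 20)).subset fun x hx => by
      simpa using hb x (le_of_lt hx), by simp [dot, Real.pi_pos], by norm_num, fun ϑ hϑ => ?_⟩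
  obtain ⟨B, hB⟩ := hs.vanishing (gt_mem_nhds hϑ)
  have hm := fun κ hκ => pw_mem hK hu (κ := κ) hκ
  obtain ⟨T, t, h1, h2⟩ := ap_span ha hs hd (Submodule.sub_mem _
    (Submodule.add_mem _ (Submodule.add_mem _ (hm 1 norm_one) (hm k₂ n₂)) (hm k₃ n₃))
    (Submodule.sum_mem _ fun i (_ : i ∈ B) => Submodule.smul_mem _ (a i : ℂ) (hm _ (hk i))))
    B (1 / 2) (by norm_num)
  have key : ∀ x : ℂ, ‖x‖ ≤ 20 → |wave a k (fun i => if i ∈ B then 0 else t i) (B ∪ T) x -
      (cos (dot 1 x) + cos (dot k₂ x) + cos (dot k₃ x))| ≤ 1 / 2 := by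
    intro x hx
    refine le_trans (le_of_eq ?_) ((Complex.abs_re_le_norm _).trans (h2 ⟨x, by simpa using hx⟩))
    have h4 : ∀ κ, (Complex.exp (Complex.I * (dot κ x : ℝ))).re = cos (dot κ x) := fun κ => by
      rw [mul_comm, Complex.exp_ofReal_mul_I_re]
    have h5 : (∑ i ∈ B, (a i : ℂ) • pw (k i)) ⟨x, by simpa using hx⟩ =
        cw a k (fun _ => 0) B x := by
      rw [ContinuousMap.sum_apply]
      simp [cw, pw]
    rw [← cw_re, cw_union h1, ContinuousMap.sub_apply, h5, ← h4, ← h4, ← h4]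
    congr 1
    simp only [pw, ContinuousMap.add_apply, ContinuousMap.coe_mk, Complex.add_re, Complex.sub_re]
    ring
  refine ⟨B ∪ T, fun i => if i ∈ B then 0 else t i, ?_, fun x hx => ?_, fun T' h4 =>
    (hB T' (Finset.disjoint_union_right.1 h4).1).le⟩
  · have := abs_le.1 (key 0 (by simp))
    simp only [dot, mul_zero, Complex.zero_re, cos_zero] at this
    linarith [this.1]
  · have h4 : max |dot 1 x| |dot k₂ x| = π := frontier_lt_subset_eq hc continuous_const hx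
    have h5 := (abs_le.1 (key x (hb x h4.le))).2
    have h6 : ∀ u v : ℝ, |u| = π → cos u + cos v + cos (u + v) = -1 := by
      intro u v h
      rcases abs_eq (le_of_lt Real.pi_pos) |>.1 h with rfl | rfl <;> simp [cos_add]
    rw [e₃, cos_neg] at h5
    rcases max_choice |dot 1 x| |dot k₂ x| with h | h
    · linarith [h6 _ (dot k₂ x) (h.symm.trans h4)]
    · have := h6 _ (dot 1 x) (h.symm.trans h4)
      rw [add_comm (dot k₂ x)] at this
      linarith

end Pool.Agent.Lib.MP_e1e19a_an
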