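import Pool.Agent.Lib.MP_e1e19a_an.N.C1x

/-!
Joint equidistribution of the phases.
-/

namespace Pool.Agent.Lib.MP_e1e19a_an

open Real MeasureTheory Set
open scoped MatrixGroups ComplexConjugate UpperHalfPlane

namespace C1

open Filter Topology Polynomial

/-- the horizontal derivative of a nontrivial combination has finitely many zeros -/
lemma fin_zero {ι : Type} [DecidableEq ι] (S : Finset ι) (p : ι → ℝ)
    (hp : ∀ i ∈ S, ∀ j ∈ S, p i = p j → i = j) (n : ι → ℝ) {k : ι} (hk : k ∈ S) (hn : n k ≠ 0)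
    {y : ℝ} (hy : 0 < y) :
    {x : ℝ | ∑ i ∈ S, n i * (2 * (x - p i) / ((x - p i) ^ 2 + y ^ 2)) = 0}.Finite := by
  set P : ℂ[X] := ∑ i ∈ S, C (n i : ℂ) * (X - C (p i : ℂ)) *
    ∏ j ∈ S.erase i, ((X - C (p j : ℂ)) ^ 2 + C ((y : ℂ) ^ 2)) with hP
  have ev : ∀ u : ℂ, P.eval u = ∑ i ∈ S, (n i : ℂ) * (u - p i) *
      ∏ j ∈ S.erase i, ((u - p j) ^ 2 + (y : ℂ) ^ 2) := by
    intro u
    simp [hP, eval_finsetSum, eval_prod]
  have hy' : (y : ℂ) ≠ 0 := by exact_mod_cast hy.ne'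
  have hP0 : P ≠ 0 := by
    intro h0
    have h1 := ev (p k + y * Complex.I)
    rw [h0, eval_zero, Finset.sum_eq_single k] at h1
    · refine absurd h1.symm (mul_ne_zero (mul_ne_zero ?_ ?_) ?_)
      · exact_mod_cast hn
      · simp [hy']
      · refine Finset.prod_ne_zero_iff.2 fun j hj => ?_
        have hjk : p k - p j ≠ 0 := fun h =>
          (Finset.ne_of_mem_erase hj) (hp j (Finset.mem_of_mem_erase hj) k hk (by linarith))
        have e : ((p k : ℂ) + y * Complex.I - p j) ^ 2 + (y : ℂ) ^ 2 =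
            ((p k - p j : ℝ) : ℂ) * (((p k - p j : ℝ) : ℂ) + 2 * y * Complex.I) := by
          push_cast
          linear_combination (y : ℂ) ^ 2 * Complex.I_sq
        rw [e]
        refine mul_ne_zero (by exact_mod_cast hjk) fun h => hjk ?_
        simpa using congrArg Complex.re h
    · intro i _ hik
      refine mul_eq_zero_of_right _ (Finset.prod_eq_zero (Finset.mem_erase.2 ⟨hik.symm, hk⟩) ?_)
      linear_combination (y : ℂ) ^ 2 * Complex.I_sq
    · exact fun h => absurd hk h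
  have hfin := (P.finite_setOfPred_isRoot hP0).preimage Complex.ofReal_injective.injOn
  refine hfin.subset fun x hx => ?_
  simp only [mem_preimage, mem_ofPred_eq, IsRoot.def] at hx ⊢
  rw [ev]
  have e : ∑ i ∈ S, n i * (x - p i) * ∏ j ∈ S.erase i, ((x - p j) ^ 2 + y ^ 2) =
      (∑ i ∈ S, n i * (2 * (x - p i) / ((x - p i) ^ 2 + y ^ 2))) *
        (∏ j ∈ S, ((x - p j) ^ 2 + y ^ 2)) / 2 := by
    rw [Finset.sum_mul, Finset.sum_div]
    refine Finset.sum_congr rfl fun i hi => ?_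
    rw [← Finset.mul_prod_erase S _ hi]
    have : (x - p i) ^ 2 + y ^ 2 ≠ 0 := by positivity
    field_simp
  rw [hx, zero_mul, zero_div] at e
  exact_mod_cast congrArg (fun t : ℝ => (t : ℂ)) e

lemma sq_pos {z : ℂ} {ρ : ℝ} (hρ : ρ < z.im) {w : ℝ × ℝ} (hw : w ∈ Sq z ρ) : 0 < w.2 := by
  have := hw.2.1
  linarith

lemma compact_sq (z : ℂ) (ρ : ℝ) : IsCompact (Sq z ρ) := isCompact_Icc.prod isCompact_Icc

lemma meas_sq (z : ℂ) (ρ : ℝ) : MeasurableSet (Sq z ρ) := measurableSet_Icc.prod measurableSet_Icc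

section chars

variable {ι : Type} [Fintype ι] {o : ι} {p τ : ι → ℝ} {φ : ι → ℝ × ℝ → ℝ} {z : ℂ} {ρ : ℝ}

omit [Fintype ι] in
lemma cont_phi (ho : ∀ w : ℝ × ℝ, 0 < w.2 → φ o w = log w.2)
    (hφ : ∀ i, i ≠ o → ∀ w : ℝ × ℝ, 0 < w.2 →
      φ i w = τ i + log w.2 - log ((w.1 - p i) ^ 2 + w.2 ^ 2)) (hρ : ρ < z.im) (i : ι) :
    ContinuousOn (φ i) (Sq z ρ) := by
  have hl : ContinuousOn (fun w : ℝ × ℝ => log w.2) (Sq z ρ) :=
    continuous_snd.continuousOn.log fun w hw => (sq_pos hρ hw).ne'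
  by_cases h : i = o
  · subst h
    exact hl.congr fun w hw => ho w (sq_pos hρ hw)
  · have h2 : ContinuousOn (fun w : ℝ × ℝ => log ((w.1 - p i) ^ 2 + w.2 ^ 2)) (Sq z ρ) := by
      refine ContinuousOn.log (by fun_prop) fun w hw => ?_
      have := sq_pos hρ hw
      positivity
    exact ((continuousOn_const.add hl).sub h2).congr fun w hw => hφ i h w (sq_pos hρ hw)

lemma rl_char (hp : ∀ i j, i ≠ o → j ≠ o → p i = p j → i = j)
    (ho : ∀ w : ℝ × ℝ, 0 < w.2 → φ o w = log w.2)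
    (hφ : ∀ i, i ≠ o → ∀ w : ℝ × ℝ, 0 < w.2 →
      φ i w = τ i + log w.2 - log ((w.1 - p i) ^ 2 + w.2 ^ 2)) (hρ : ρ < z.im)
    {A : ℝ × ℝ → ℂ} (hA : ContinuousOn A (Sq z ρ)) (n : ι → ℝ) (hn : n ≠ 0) :
    Tendsto (fun l => ∫ w in Sq z ρ, A w * osc l (∑ i, n i * φ i w)) atTop (𝓝 0) := by
  classical
  have hψ : ContinuousOn (fun w => ∑ i, n i * φ i w) (Sq z ρ) :=
    continuousOn_finsetSum _ fun i _ => continuousOn_const.mul (cont_phi ho hφ hρ i)
  have hF : ∀ l, ContinuousOn (fun w => A w * osc l (∑ i, n i * φ i w)) (Sq z ρ) := fun l =>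
    hA.mul ((continuous_osc l).comp_continuousOn hψ)
  obtain ⟨M, hM⟩ := (compact_sq z ρ).exists_bound_of_continuousOn hA
  have hμ : volume.restrict (Sq z ρ) = (volume.restrict (Icc (z.re - ρ) (z.re + ρ))).prod
      (volume.restrict (Icc (z.im - ρ) (z.im + ρ))) := by
    rw [Measure.prod_restrict, ← Measure.volume_eq_prod]; rfl
  have hm : ∀ l, AEStronglyMeasurable (fun w => A w * osc l (∑ i, n i * φ i w))
      (volume.restrict (Sq z ρ)) := fun l => (hF l).aestronglyMeasurable (meas_sq z ρ)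
  have hb : ∀ l, ∀ᵐ w ∂volume.restrict (Sq z ρ), ‖A w * osc l (∑ i, n i * φ i w)‖ ≤ M := by
    intro l
    filter_upwards [ae_restrict_mem (meas_sq z ρ)] with w hw
    rw [norm_mul, norm_osc, mul_one]
    exact hM w hw
  have split : ∀ w : ℝ × ℝ, 0 < w.2 → ∑ i, n i * φ i w = n o * log w.2 +
      ∑ i ∈ Finset.univ.erase o, n i * (τ i + log w.2 - log ((w.1 - p i) ^ 2 + w.2 ^ 2)) := by
    intro w hw
    rw [← Finset.add_sum_erase _ _ (Finset.mem_univ o), ho w hw]
    congr 1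
    exact Finset.sum_congr rfl fun i hi => by rw [hφ i (Finset.ne_of_mem_erase hi) w hw]
  rw [hμ] at hm hb ⊢
  by_cases hc : ∀ i, i ≠ o → n i = 0
  · have hno : n o ≠ 0 := by
      intro h
      refine hn (funext fun i => ?_)
      by_cases hi : i = o
      · rw [hi, h]; rfl
      · exact hc i hi
    refine rl_prod _ hm hb ?_
    filter_upwards [ae_restrict_mem measurableSet_Icc] with x hx
    have hpos : ∀ y ∈ Icc (z.im - ρ) (z.im + ρ), 0 < y := fun y hy => by linarith [hy.1]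
    have h1 := rl_one (a := z.im - ρ) (b := z.im + ρ) (ψ := fun y => n o * log y)
      (ψ' := fun y => n o * y⁻¹)
      (fun y hy => (Real.hasDerivAt_log (hpos y hy).ne').const_mul _)
      (continuousOn_const.mul (continuousOn_id.inv₀ fun y hy => (hpos y hy).ne'))
      (finite_empty.subset fun y hy =>
        mul_ne_zero hno (inv_ne_zero (hpos y hy.2).ne') hy.1)
      (A := fun y => A (x, y))
      (hA.comp (by fun_prop) fun y hy => ⟨hx, hy⟩)
    refine h1.congr fun l => setIntegral_congr_fun measurableSet_Icc fun y hy => ?_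
    rw [split (x, y) (hpos y hy), Finset.sum_eq_zero, add_zero]
    intro i hi
    rw [hc i (Finset.ne_of_mem_erase hi), zero_mul]
  · push Not at hc
    obtain ⟨k, hko, hk⟩ := hc
    have hsw := rl_prod (μ := volume.restrict (Icc (z.im - ρ) (z.im + ρ)))
      (ν := volume.restrict (Icc (z.re - ρ) (z.re + ρ)))
      (fun l w => A w.swap * osc l (∑ i, n i * φ i w.swap)) (fun l => (hm l).prod_swap)
      (M := M) (fun l => (Measure.measurePreserving_swap.quasiMeasurePreserving.ae (hb l))) ?_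
    · refine hsw.congr fun l => ?_
      exact integral_prod_swap (fun w => A w * osc l (∑ i, n i * φ i w))
    filter_upwards [ae_restrict_mem measurableSet_Icc] with y hy
    have hpos : 0 < y := by linarith [hy.1]
    have hden : ∀ x i, (x - p i) ^ 2 + y ^ 2 ≠ 0 := fun x i => by positivity
    have h1 := rl_one (a := z.re - ρ) (b := z.re + ρ)
      (ψ := fun x => n o * log y +
        ∑ i ∈ Finset.univ.erase o, n i * (τ i + log y - log ((x - p i) ^ 2 + y ^ 2)))
      (ψ' := fun x => -∑ i ∈ Finset.univ.erase o, n i * (2 * (x - p i) / ((x - p i) ^ 2 + y ^ 2)))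
      (fun x _ => by
        rw [← Finset.sum_neg_distrib]
        refine HasDerivAt.const_add _ (HasDerivAt.fun_sum fun i _ => ?_)
        have h2 : HasDerivAt (fun x : ℝ => (x - p i) ^ 2 + y ^ 2) (2 * (x - p i)) x := by
          simpa using (((hasDerivAt_id x).sub_const (p i)).pow 2).add_const (y ^ 2)
        have h3 := ((h2.log (hden x i)).const_sub (τ i + log y)).const_mul (n i)
        refine h3.congr_deriv ?_
        ring)
      (ContinuousOn.neg (continuousOn_finsetSum _ fun i _ => continuousOn_const.mul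
        (ContinuousOn.div (by fun_prop) (by fun_prop) fun x _ => hden x i)))
      ((fin_zero (Finset.univ.erase o) p
        (fun i hi j hj => hp i j (Finset.ne_of_mem_erase hi) (Finset.ne_of_mem_erase hj)) n
        (Finset.mem_erase.2 ⟨hko, Finset.mem_univ k⟩) hk hpos).subset fun x hx =>
          neg_eq_zero.1 hx.1)
      (A := fun x => A (x, y))
      (hA.comp (by fun_prop) fun x hx => ⟨hx, hy⟩)
    refine h1.congr fun l => setIntegral_congr_fun measurableSet_Icc fun x _ => ?_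
    simp only [Prod.swap_prod_mk]
    rw [split (x, y) hpos]

end chars

/-- uniform smallness passes from a total set to the whole space -/
lemma dense_ext {E : Type*} [NormedAddCommGroup E] [NormedSpace ℂ E] (Λ : ℝ → ℝ → E → ℂ)
    (hadd : ∀ l β F G, Λ l β (F + G) = Λ l β F + Λ l β G)
    (hsm : ∀ l β (c : ℂ) F, Λ l β (c • F) = c * Λ l β F) {C : ℝ} (hC : 0 ≤ C)
    (hb : ∀ l β F, ‖Λ l β F‖ ≤ C * ‖F‖) {S : Set E}
    (hS : (Submodule.span ℂ S).topologicalClosure = ⊤)
    (h : ∀ F ∈ S, ∀ ε > 0, ∃ l₁ : ℝ, ∀ l ≥ l₁, ∀ β, ‖Λ l β F‖ ≤ ε) (F : E) :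
    ∀ ε > 0, ∃ l₁ : ℝ, ∀ l ≥ l₁, ∀ β, ‖Λ l β F‖ ≤ ε := by
  have hsp : ∀ G ∈ Submodule.span ℂ S, ∀ ε > 0, ∃ l₁ : ℝ, ∀ l ≥ l₁, ∀ β, ‖Λ l β G‖ ≤ ε := by
    intro G hG
    induction hG using Submodule.span_induction with
    | mem G hG => exact h G hG
    | zero =>
      intro ε hε
      refine ⟨0, fun l _ β => (hb l β 0).trans ?_⟩
      simpa using hε.le
    | add G G' _ _ ih ih' =>
      intro ε hε
      obtain ⟨l₁, h₁⟩ := ih (ε / 2) (by positivity)
      obtain ⟨l₂, h₂⟩ := ih' (ε / 2) (by positivity)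
      refine ⟨max l₁ l₂, fun l hl β => ?_⟩
      rw [hadd]
      have := h₁ l (le_trans (le_max_left _ _) hl) β
      have := h₂ l (le_trans (le_max_right _ _) hl) β
      exact (norm_add_le _ _).trans (by linarith)
    | smul c G _ ih =>
      intro ε hε
      obtain ⟨l₁, h₁⟩ := ih (ε / (‖c‖ + 1)) (by positivity)
      refine ⟨l₁, fun l hl β => ?_⟩
      rw [hsm, norm_mul]
      calc _ ≤ (‖c‖ + 1) * (ε / (‖c‖ + 1)) :=
            mul_le_mul (by linarith) (h₁ l hl β) (norm_nonneg _) (by positivity)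
        _ = ε := by field_simp
  intro ε hε
  have hF : F ∈ closure (Submodule.span ℂ S : Set E) := by
    rw [← Submodule.topologicalClosure_coe, hS]; trivial
  obtain ⟨G, hG, hd⟩ := Metric.mem_closure_iff.1 hF (ε / 2 / (C + 1)) (by positivity)
  obtain ⟨l₁, h₁⟩ := hsp G hG (ε / 2) (by positivity)
  refine ⟨l₁, fun l hl β => ?_⟩
  have e : F = G + (F - G) := by abel
  rw [e, hadd]
  have h2 : ‖Λ l β (F - G)‖ ≤ ε / 2 := by
    rw [dist_eq_norm] at hd
    calc _ ≤ C * ‖F - G‖ := hb _ _ _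
      _ ≤ (C + 1) * (ε / 2 / (C + 1)) :=
          mul_le_mul (by linarith) hd.le (norm_nonneg _) (by positivity)
      _ = ε / 2 := by field_simp
  have := h₁ l hl β
  exact (norm_add_le _ _).trans (by linarith)

/-- the uniform measure on the torus -/
noncomputable def haarT (ι : Type) [Fintype ι] : Measure (UnitAddTorus ι) :=
  Measure.pi fun _ => AddCircle.haarAddCircle

instance (ι : Type) [Fintype ι] : IsProbabilityMeasure (haarT ι) := by
  unfold haarT
  infer_instance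

lemma int_fourier (m : ℤ) (hm : m ≠ 0) :
    ∫ t : UnitAddCircle, fourier m t ∂AddCircle.haarAddCircle = 0 := by
  have := congrFun (fourierCoeff_fourier (T := 1) m) 0
  rw [Pi.single_eq_of_ne hm.symm, fourierCoeff] at this
  simpa using this

lemma int_mFourier {ι : Type} [Fintype ι] (n : ι → ℤ) (hn : n ≠ 0) :
    ∫ x, UnitAddTorus.mFourier n x ∂haarT ι = 0 := by
  obtain ⟨k, hk⟩ := Function.ne_iff.1 hn
  unfold haarT UnitAddTorus.mFourier
  rw [ContinuousMap.coe_mk,
    integral_fintype_prod_eq_prod (fun i (t : UnitAddCircle) => fourier (n i) t)]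
  exact Finset.prod_eq_zero (Finset.mem_univ k) (int_fourier _ hk)

/-- the point of the torus given by the phases -/
noncomputable def tp {ι : Type} (φ : ι → ℝ × ℝ → ℝ) (l β : ℝ) (w : ℝ × ℝ) : UnitAddTorus ι :=
  fun i => (((l * φ i w + β) / (2 * π) : ℝ) : UnitAddCircle)

lemma mFourier_tp {ι : Type} [Fintype ι] (φ : ι → ℝ × ℝ → ℝ) (l β : ℝ) (w : ℝ × ℝ) (n : ι → ℤ) :
    UnitAddTorus.mFourier n (tp φ l β w) =
      osc l (∑ i, (n i : ℝ) * φ i w) * osc β (∑ i, (n i : ℝ)) := by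
  unfold UnitAddTorus.mFourier tp osc
  rw [ContinuousMap.coe_mk]
  simp only [fourier_coe_apply]
  rw [← Complex.exp_sum, ← Complex.exp_add]
  congr 1
  push_cast
  rw [Finset.mul_sum, Finset.mul_sum, Finset.mul_sum, Finset.mul_sum, ← Finset.sum_add_distrib]
  refine Finset.sum_congr rfl fun i _ => ?_
  have : (π : ℂ) ≠ 0 := by exact_mod_cast pi_ne_zero
  field_simp

theorem torus {ι : Type} [Fintype ι] {φ : ι → ℝ × ℝ → ℝ} {z : ℂ} {ρ : ℝ}
    (hc : ∀ i, ContinuousOn (φ i) (Sq z ρ)) {A : ℝ × ℝ → ℂ} (hA : ContinuousOn A (Sq z ρ))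
    (hrl : ∀ n : ι → ℝ, n ≠ 0 →
      Tendsto (fun l => ∫ w in Sq z ρ, A w * osc l (∑ i, n i * φ i w)) atTop (𝓝 0))
    (F : C(UnitAddTorus ι, ℂ)) : ∀ ε > 0, ∃ l₁ : ℝ, ∀ l ≥ l₁, ∀ β : ℝ,
      ‖(∫ w in Sq z ρ, A w * F (tp φ l β w)) - (∫ w in Sq z ρ, A w) * ∫ x, F x ∂haarT ι‖ ≤ ε := by
  have ctp : ∀ l β, ContinuousOn (tp φ l β) (Sq z ρ) := fun l β =>
    continuousOn_pi.2 fun i => (AddCircle.continuous_mk' 1).comp_continuousOn
      (((continuousOn_const.mul (hc i)).add continuousOn_const).div_const _)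
  have iA : IntegrableOn A (Sq z ρ) := hA.integrableOn_compact (compact_sq z ρ)
  have i1 : ∀ l β (G : C(UnitAddTorus ι, ℂ)),
      IntegrableOn (fun w => A w * G (tp φ l β w)) (Sq z ρ) := fun l β G =>
    (hA.mul (G.continuous.comp_continuousOn (ctp l β))).integrableOn_compact (compact_sq z ρ)
  have i2 : ∀ G : C(UnitAddTorus ι, ℂ), Integrable G (haarT ι) := fun G =>
    Integrable.of_bound G.continuous.aestronglyMeasurable ‖G‖ (ae_of_all _ G.norm_coe_le_norm)
  have hK : 0 ≤ ∫ w in Sq z ρ, ‖A w‖ := integral_nonneg fun _ => norm_nonneg _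
  refine dense_ext (fun l β (G : C(UnitAddTorus ι, ℂ)) => (∫ w in Sq z ρ, A w * G (tp φ l β w)) -
      (∫ w in Sq z ρ, A w) * ∫ x, G x ∂haarT ι) ?_ ?_ (C := 2 * ∫ w in Sq z ρ, ‖A w‖)
      (by positivity) ?_ UnitAddTorus.span_mFourier_closure_eq_top ?_ F
  · intro l β G G'
    simp only [ContinuousMap.add_apply, mul_add]
    rw [integral_add (i1 l β G) (i1 l β G'), integral_add (i2 G) (i2 G')]
    ring
  · intro l β c G
    simp only [ContinuousMap.smul_apply, smul_eq_mul]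
    have : (fun w => A w * (c * G (tp φ l β w))) = fun w => c * (A w * G (tp φ l β w)) := by
      funext w; ring
    rw [this, integral_const_mul, integral_const_mul]
    ring
  · intro l β G
    have h1 : ‖∫ w in Sq z ρ, A w * G (tp φ l β w)‖ ≤ (∫ w in Sq z ρ, ‖A w‖) * ‖G‖ := by
      rw [← integral_mul_const]
      refine norm_integral_le_of_norm_le (iA.norm.mul_const _) (ae_of_all _ fun w => ?_)
      rw [norm_mul]
      exact mul_le_mul_of_nonneg_left (G.norm_coe_le_norm _) (norm_nonneg _)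
    have h2 : ‖∫ x, G x ∂haarT ι‖ ≤ ‖G‖ := by
      simpa using norm_integral_le_of_norm_le_const (μ := haarT ι)
        (ae_of_all _ G.norm_coe_le_norm)
    have h3 : ‖(∫ w in Sq z ρ, A w) * ∫ x, G x ∂haarT ι‖ ≤ (∫ w in Sq z ρ, ‖A w‖) * ‖G‖ := by
      rw [norm_mul]
      exact mul_le_mul (norm_integral_le_integral_norm _) h2 (norm_nonneg _) hK
    exact (norm_sub_le _ _).trans (by linarith)
  · rintro _ ⟨n, rfl⟩ ε hε
    by_cases hn : n = 0
    · subst hn
      refine ⟨0, fun l _ β => ?_⟩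
      simpa [UnitAddTorus.mFourier_zero] using hε.le
    · have hn' : (fun i => (n i : ℝ)) ≠ 0 := by
        intro h
        refine hn (funext fun i => ?_)
        have h3 : (n i : ℝ) = 0 := congrFun h i
        exact Int.cast_eq_zero.1 h3
      obtain ⟨l₁, h₁⟩ := Metric.tendsto_atTop.1 (hrl _ hn') ε hε
      refine ⟨l₁, fun l hl β => ?_⟩
      have h2 := h₁ l hl
      rw [dist_zero_right] at h2
      simp only [int_mFourier n hn, mul_zero, sub_zero, mFourier_tp, ← mul_assoc]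
      rw [integral_mul_const, norm_mul, norm_osc, mul_one]
      exact h2.le

end C1

open C1 in
theorem equi {ι : Type} [Fintype ι] (o : ι) (p τ : ι → ℝ)
    (hp : ∀ i j, i ≠ o → j ≠ o → p i = p j → i = j) (φ : ι → ℝ × ℝ → ℝ)
    (ho : ∀ w : ℝ × ℝ, 0 < w.2 → φ o w = log w.2)
    (hφ : ∀ i, i ≠ o → ∀ w : ℝ × ℝ, 0 < w.2 →
      φ i w = τ i + log w.2 - log ((w.1 - p i) ^ 2 + w.2 ^ 2))
    {z : ℂ} {ρ : ℝ} (hρ : ρ < z.im) (A : ℝ × ℝ → ℂ) (hA : ContinuousOn A (Sq z ρ))
    (θ : ι → ℝ → ℂ) (hθ : ∀ i, Continuous (θ i)) (per : ∀ i, Function.Periodic (θ i) (2 * π))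
    {ε : ℝ} (hε : 0 < ε) : ∃ l₁ : ℝ, ∀ l ≥ l₁, ∀ β : ℝ,
      ‖(∫ w in Sq z ρ, A w * ∏ i, θ i (l * φ i w + β)) -
        (∫ w in Sq z ρ, A w) * ∏ i, ((∫ t in (0 : ℝ)..2 * π, θ i t) / (2 * π))‖ ≤ ε := by
  have per1 : ∀ i, Function.Periodic (fun t => θ i (2 * π * t)) 1 := fun i t => by
    simp only [mul_add, mul_one]
    exact per i _
  have cl : ∀ i, Continuous ((per1 i).lift : UnitAddCircle → ℂ) := fun i =>
    continuous_quot_lift _ ((hθ i).comp (continuous_const.mul continuous_id))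
  let F : C(UnitAddTorus ι, ℂ) := ⟨fun x => ∏ i, ((per1 i).lift : UnitAddCircle → ℂ) (x i),
    continuous_finsetProd _ fun i _ => (cl i).comp (continuous_apply i)⟩
  have h2π : (2 * π : ℝ) ≠ 0 := by positivity
  have e1 : ∀ l β w, F (tp φ l β w) = ∏ i, θ i (l * φ i w + β) := by
    intro l β w
    refine Finset.prod_congr rfl fun i _ => ?_
    unfold tp
    rw [Function.Periodic.lift_coe, mul_div_cancel₀ _ h2π]
  have e2 : ∫ x, F x ∂haarT ι = ∏ i, ((∫ t in (0 : ℝ)..2 * π, θ i t) / (2 * π)) := by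
    unfold haarT
    simp only [F, ContinuousMap.coe_mk]
    rw [integral_fintype_prod_eq_prod (fun i (t : UnitAddCircle) =>
      ((per1 i).lift : UnitAddCircle → ℂ) t)]
    refine Finset.prod_congr rfl fun i _ => ?_
    rw [AddCircle.integral_haarAddCircle, ← AddCircle.intervalIntegral_preimage 1 0]
    simp only [Function.Periodic.lift_coe]
    rw [intervalIntegral.integral_comp_mul_left _ h2π]
    simp [div_eq_inv_mul]
  obtain ⟨l₁, h⟩ := torus (cont_phi ho hφ hρ) hA (fun n hn => rl_char hp ho hφ hρ hA n hn) F ε hε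
  refine ⟨l₁, fun l hl β => ?_⟩
  have := h l hl β
  simpa only [e1, e2] using this

end Pool.Agent.Lib.MP_e1e19a_an
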