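import Pool.Agent.Lib.MP_e1e19a_an.N.Core

/-!
Riemann-Lebesgue lemma for phases whose derivative has finitely many zeros.
-/

namespace Pool.Agent.Lib.MP_e1e19a_an.C1

open Real MeasureTheory Set Filter Topology

/-- the oscillating factor -/
noncomputable def osc (l t : ℝ) : ℂ := Complex.exp (Complex.I * ((l * t : ℝ) : ℂ))

lemma norm_osc (l t : ℝ) : ‖osc l t‖ = 1 := by
  unfold osc
  rw [mul_comm, Complex.norm_exp_ofReal_mul_I]

lemma continuous_osc (l : ℝ) : Continuous (osc l) := by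
  unfold osc
  fun_prop

/-- the property of having oscillating integrals tending to zero is closed in `L¹` -/
lemma rl_closed {X : Type*} [MeasurableSpace X] {μ : Measure X} (E : ℝ → X → ℂ)
    (hE : ∀ l, AEStronglyMeasurable (E l) μ) (hn : ∀ l x, ‖E l x‖ ≤ 1) {A : X → ℂ}
    (hA : Integrable A μ)
    (h : ∀ ε > 0, ∃ B : X → ℂ, Integrable B μ ∧
      Tendsto (fun l => ∫ x, B x * E l x ∂μ) atTop (𝓝 0) ∧ ∫ x, ‖A x - B x‖ ∂μ ≤ ε) :
    Tendsto (fun l => ∫ x, A x * E l x ∂μ) atTop (𝓝 0) := by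
  rw [Metric.tendsto_atTop]
  intro ε hε
  obtain ⟨B, hB, hBt, hAB⟩ := h (ε / 2) (by positivity)
  obtain ⟨N, hN⟩ := Metric.tendsto_atTop.1 hBt (ε / 2) (by positivity)
  refine ⟨N, fun l hl => ?_⟩
  have h1 := hN l hl
  rw [dist_zero_right] at h1 ⊢
  have iA : Integrable (fun x => A x * E l x) μ :=
    hA.mul_bdd (hE l) (ae_of_all _ (hn l))
  have iB : Integrable (fun x => B x * E l x) μ :=
    hB.mul_bdd (hE l) (ae_of_all _ (hn l))
  have e : ∫ x, A x * E l x ∂μ = ∫ x, B x * E l x ∂μ + ∫ x, (A x - B x) * E l x ∂μ := by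
    have : (fun x => (A x - B x) * E l x) = fun x => A x * E l x - B x * E l x := by
      funext x; ring
    rw [this, integral_sub iA iB]; ring
  have h2 : ‖∫ x, (A x - B x) * E l x ∂μ‖ ≤ ∫ x, ‖A x - B x‖ ∂μ := by
    refine norm_integral_le_of_norm_le (hA.sub hB).norm (ae_of_all _ fun x => ?_)
    rw [norm_mul]
    exact mul_le_of_le_one_right (norm_nonneg _) (hn l x)
  rw [e]
  calc _ ≤ _ := norm_add_le _ _
    _ < ε := by linarith

section one

variable {a b : ℝ} {ψ ψ' : ℝ → ℝ}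

lemma cont_phase (hd : ∀ x ∈ Icc a b, HasDerivAt ψ (ψ' x) x) (l : ℝ) :
    ContinuousOn (fun x => osc l (ψ x)) (Icc a b) :=
  (continuous_osc l).comp_continuousOn fun x hx => (hd x hx).continuousAt.continuousWithinAt

lemma rl_poly (hab : a ≤ b) (hd : ∀ x ∈ Icc a b, HasDerivAt ψ (ψ' x) x)
    (hc : ContinuousOn ψ' (Icc a b)) (q : Polynomial ℝ) :
    Tendsto (fun l => ∫ x in Icc a b, ((q.eval x * ψ' x : ℝ) : ℂ) * osc l (ψ x)) atTop (𝓝 0) := by
  set C : ℝ := |q.eval b| + |q.eval a| + ∫ x in a..b, |q.derivative.eval x| with hC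
  have hlim : Tendsto (fun l : ℝ => C * l⁻¹) atTop (𝓝 0) := by
    simpa using tendsto_inv_atTop_zero.const_mul C
  refine squeeze_zero_norm' ?_ hlim
  filter_upwards [eventually_gt_atTop 0] with l hl
  have hl' : (l : ℂ) ≠ 0 := by exact_mod_cast hl.ne'
  have hu : ∀ x ∈ uIcc a b, HasDerivAt (fun x : ℝ => ((q.eval x : ℝ) : ℂ))
      ((q.derivative.eval x : ℝ) : ℂ) x := fun x _ => (q.hasDerivAt x).ofReal_comp
  have hv : ∀ x ∈ uIcc a b, HasDerivAt (fun x : ℝ => osc l (ψ x) / (Complex.I * l))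
      ((ψ' x : ℂ) * osc l (ψ x)) x := by
    intro x hx
    rw [uIcc_of_le hab] at hx
    have h1 : HasDerivAt (fun x : ℝ => Complex.I * ((l * ψ x : ℝ) : ℂ))
        (Complex.I * ((l * ψ' x : ℝ) : ℂ)) x :=
      (((hd x hx).const_mul l).ofReal_comp).const_mul _
    have h2 := (h1.cexp).div_const (Complex.I * l)
    refine h2.congr_deriv ?_
    unfold osc
    push_cast
    field_simp
  have cq : Continuous fun x : ℝ => ((q.derivative.eval x : ℝ) : ℂ) :=
    Complex.continuous_ofReal.comp q.derivative.continuous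
  have cv : ContinuousOn (fun x => (ψ' x : ℂ) * osc l (ψ x)) (uIcc a b) := by
    rw [uIcc_of_le hab]
    exact (Complex.continuous_ofReal.comp_continuousOn hc).mul (cont_phase hd l)
  have ibp := intervalIntegral.integral_mul_deriv_eq_deriv_mul hu hv
    (cq.intervalIntegrable _ _) cv.intervalIntegrable
  have e : ∫ x in Icc a b, ((q.eval x * ψ' x : ℝ) : ℂ) * osc l (ψ x) =
      ∫ x in a..b, ((q.eval x : ℝ) : ℂ) * ((ψ' x : ℂ) * osc l (ψ x)) := by
    rw [intervalIntegral.integral_of_le hab, integral_Icc_eq_integral_Ioc]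
    refine integral_congr_ae (ae_of_all _ fun x => ?_)
    push_cast; ring
  have nn : ∀ t, ‖osc l t / (Complex.I * l)‖ = l⁻¹ := by
    intro t
    rw [norm_div, norm_osc, norm_mul, Complex.norm_I, Complex.norm_real, Real.norm_eq_abs,
      abs_of_pos hl]
    simp
  have h3 : ‖∫ x in a..b, ((q.derivative.eval x : ℝ) : ℂ) * (osc l (ψ x) / (Complex.I * l))‖ ≤
      (∫ x in a..b, |q.derivative.eval x|) * l⁻¹ := by
    rw [← intervalIntegral.integral_mul_const]
    refine intervalIntegral.norm_integral_le_of_norm_le hab (ae_of_all _ fun x _ => ?_) ?_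
    · rw [norm_mul, nn, Complex.norm_real, Real.norm_eq_abs]
    · exact ((q.derivative.continuous.abs).mul continuous_const).intervalIntegrable _ _
  rw [e, ibp, hC]
  calc _ ≤ ‖((q.eval b : ℝ) : ℂ) * (osc l (ψ b) / (Complex.I * l))‖ +
        ‖((q.eval a : ℝ) : ℂ) * (osc l (ψ a) / (Complex.I * l))‖ + _ :=
        (norm_sub_le _ _).trans (add_le_add (norm_sub_le _ _) h3)
    _ = _ := by
        rw [norm_mul, norm_mul, nn, nn, Complex.norm_real, Complex.norm_real, Real.norm_eq_abs,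
          Real.norm_eq_abs]
        ring

lemma rl_cont (hab : a ≤ b) (hd : ∀ x ∈ Icc a b, HasDerivAt ψ (ψ' x) x)
    (hc : ContinuousOn ψ' (Icc a b)) {g : ℝ → ℝ} (hg : ContinuousOn g (Icc a b)) :
    Tendsto (fun l => ∫ x in Icc a b, ((g x * ψ' x : ℝ) : ℂ) * osc l (ψ x)) atTop (𝓝 0) := by
  have iI : IntegrableOn (fun x => |ψ' x|) (Icc a b) := hc.abs.integrableOn_Icc
  set M : ℝ := ∫ x in Icc a b, |ψ' x| with hM
  have hM0 : 0 ≤ M := integral_nonneg fun x => abs_nonneg _
  refine rl_closed (fun l x => osc l (ψ x))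
    (fun l => (cont_phase hd l).aestronglyMeasurable measurableSet_Icc)
    (fun l x => (norm_osc _ _).le)
    (Complex.continuous_ofReal.comp_continuousOn (hg.mul hc)).integrableOn_Icc fun ε hε => ?_
  obtain ⟨q, hq⟩ := exists_polynomial_near_of_continuousOn a b g hg (ε / (M + 1)) (by positivity)
  refine ⟨fun x => ((q.eval x * ψ' x : ℝ) : ℂ),
    (Complex.continuous_ofReal.comp_continuousOn
      (q.continuous.continuousOn.mul hc)).integrableOn_Icc, rl_poly hab hd hc q, ?_⟩
  calc _ ≤ ∫ x in Icc a b, ε / (M + 1) * |ψ' x| := by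
        refine integral_mono_of_nonneg (ae_of_all _ fun x => norm_nonneg _) (iI.const_mul _) ?_
        filter_upwards [ae_restrict_mem measurableSet_Icc] with x hx
        rw [← Complex.ofReal_sub, Complex.norm_real, Real.norm_eq_abs, ← sub_mul, abs_mul,
          abs_sub_comm]
        exact mul_le_mul_of_nonneg_right (hq x hx).le (abs_nonneg _)
    _ = ε / (M + 1) * M := by rw [integral_const_mul]
    _ ≤ ε := by
        rw [div_mul_eq_mul_div, div_le_iff₀ (by positivity)]
        nlinarith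

lemma rl_real (hab : a ≤ b) (hd : ∀ x ∈ Icc a b, HasDerivAt ψ (ψ' x) x)
    (hc : ContinuousOn ψ' (Icc a b)) (hz : {x | ψ' x = 0 ∧ x ∈ Icc a b}.Finite)
    {g : ℝ → ℝ} (hg : ContinuousOn g (Icc a b)) :
    Tendsto (fun l => ∫ x in Icc a b, (g x : ℂ) * osc l (ψ x)) atTop (𝓝 0) := by
  refine rl_closed (fun l x => osc l (ψ x))
    (fun l => (cont_phase hd l).aestronglyMeasurable measurableSet_Icc)
    (fun l x => (norm_osc _ _).le)
    (Complex.continuous_ofReal.comp_continuousOn hg).integrableOn_Icc fun ε hε => ?_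
  have cden : ∀ δ : ℝ, 0 < δ → ContinuousOn (fun x => g x * ψ' x / (ψ' x ^ 2 + δ)) (Icc a b) :=
    fun δ hδ => (hg.mul hc).div ((hc.pow 2).add continuousOn_const) fun x _ => by positivity
  have key : Tendsto (fun δ : ℝ => ∫ x in Icc a b, |g x| * (δ / (ψ' x ^ 2 + δ))) (𝓝[>] 0)
      (𝓝 (∫ x in Icc a b, (0 : ℝ))) := by
    refine tendsto_integral_filter_of_dominated_convergence (fun x => |g x|) ?_ ?_
      hg.abs.integrableOn_Icc ?_
    · filter_upwards [self_mem_nhdsWithin] with δ hδ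
      have hδ' : 0 < δ := hδ
      have hcd : ContinuousOn (fun x => δ / (ψ' x ^ 2 + δ)) (Icc a b) :=
        continuousOn_const.div ((hc.pow 2).add continuousOn_const)
          fun x _ => (add_pos_of_nonneg_of_pos (sq_nonneg _) hδ').ne'
      exact (hg.abs.mul hcd).aestronglyMeasurable measurableSet_Icc
    · filter_upwards [self_mem_nhdsWithin] with δ hδ
      have hδ' : 0 < δ := hδ
      refine ae_of_all _ fun x => ?_
      have h1 : δ / (ψ' x ^ 2 + δ) ≤ 1 := by
        rw [div_le_one (by positivity)]; nlinarith [sq_nonneg (ψ' x)]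
      rw [Real.norm_eq_abs, abs_of_nonneg (by positivity)]
      exact mul_le_of_le_one_right (abs_nonneg _) h1
    · have h0 : ∀ᵐ x ∂(volume.restrict (Icc a b)), x ∉ {x | ψ' x = 0 ∧ x ∈ Icc a b} :=
        ae_restrict_of_ae (hz.countable.ae_notMem _)
      filter_upwards [h0, ae_restrict_mem measurableSet_Icc] with x hx hx'
      have hne : ψ' x ≠ 0 := fun h => hx ⟨h, hx'⟩
      have hct : ContinuousAt (fun δ : ℝ => |g x| * (δ / (ψ' x ^ 2 + δ))) 0 := by
        refine continuousAt_const.mul (continuousAt_id.div (by fun_prop) ?_)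
        simpa using hne
      simpa using hct.tendsto.mono_left nhdsWithin_le_nhds
  rw [integral_zero] at key
  obtain ⟨δ, hδ1, hδ⟩ := ((key.eventually (ge_mem_nhds hε)).and self_mem_nhdsWithin).exists
  have hδ' : 0 < δ := hδ
  have hcc : ContinuousOn (fun x => ((g x * ψ' x / (ψ' x ^ 2 + δ) * ψ' x : ℝ) : ℂ)) (Icc a b) :=
    Complex.continuous_ofReal.comp_continuousOn ((cden δ hδ').mul hc)
  refine ⟨fun x => ((g x * ψ' x / (ψ' x ^ 2 + δ) * ψ' x : ℝ) : ℂ), hcc.integrableOn_Icc,
    rl_cont hab hd hc (cden δ hδ'), ?_⟩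
  refine le_trans (le_of_eq (integral_congr_ae (ae_of_all _ fun x => ?_))) hδ1
  have hp : 0 < ψ' x ^ 2 + δ := by positivity
  have : g x - g x * ψ' x / (ψ' x ^ 2 + δ) * ψ' x = g x * (δ / (ψ' x ^ 2 + δ)) := by
    field_simp; ring
  simp only
  rw [← Complex.ofReal_sub, Complex.norm_real, Real.norm_eq_abs, this, abs_mul,
    abs_of_pos (div_pos hδ' hp)]

lemma rl_one (hd : ∀ x ∈ Icc a b, HasDerivAt ψ (ψ' x) x)
    (hc : ContinuousOn ψ' (Icc a b)) (hz : {x | ψ' x = 0 ∧ x ∈ Icc a b}.Finite)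
    {A : ℝ → ℂ} (hA : ContinuousOn A (Icc a b)) :
    Tendsto (fun l => ∫ x in Icc a b, A x * osc l (ψ x)) atTop (𝓝 0) := by
  rcases lt_or_ge b a with hab | hab
  · simp [Icc_eq_empty_of_lt hab]
  have hr : ContinuousOn (fun x => (A x).re) (Icc a b) :=
    Complex.continuous_re.comp_continuousOn hA
  have hi : ContinuousOn (fun x => (A x).im) (Icc a b) :=
    Complex.continuous_im.comp_continuousOn hA
  have h := (rl_real hab hd hc hz hr).add ((rl_real hab hd hc hz hi).const_mul Complex.I)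
  rw [mul_zero, add_zero] at h
  refine h.congr fun l => ?_
  have i1 : IntegrableOn (fun x => ((A x).re : ℂ) * osc l (ψ x)) (Icc a b) :=
    ((Complex.continuous_ofReal.comp_continuousOn hr).mul (cont_phase hd l)).integrableOn_Icc
  have i2 : IntegrableOn (fun x => ((A x).im : ℂ) * osc l (ψ x)) (Icc a b) :=
    ((Complex.continuous_ofReal.comp_continuousOn hi).mul (cont_phase hd l)).integrableOn_Icc
  rw [← integral_const_mul, ← integral_add i1 (i2.const_mul _)]
  refine integral_congr_ae (ae_of_all _ fun x => ?_)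
  simp only
  conv_rhs => rw [← Complex.re_add_im (A x)]
  ring

end one

/-- from slices to the product -/
lemma rl_prod {μ ν : Measure ℝ} [IsFiniteMeasure μ] [IsFiniteMeasure ν] (F : ℝ → ℝ × ℝ → ℂ)
    (hF : ∀ l, AEStronglyMeasurable (F l) (μ.prod ν)) {M : ℝ}
    (hb : ∀ l, ∀ᵐ w ∂μ.prod ν, ‖F l w‖ ≤ M)
    (h : ∀ᵐ x ∂μ, Tendsto (fun l => ∫ y, F l (x, y) ∂ν) atTop (𝓝 0)) :
    Tendsto (fun l => ∫ w, F l w ∂μ.prod ν) atTop (𝓝 0) := by
  have iF : ∀ l, Integrable (F l) (μ.prod ν) := fun l =>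
    Integrable.of_bound (hF l) M (hb l)
  have key : Tendsto (fun l => ∫ x, ∫ y, F l (x, y) ∂ν ∂μ) atTop (𝓝 (∫ _x, (0 : ℂ) ∂μ)) := by
    refine tendsto_integral_filter_of_dominated_convergence (fun _ => M * ν.real univ)
      (Eventually.of_forall fun l => (iF l).integral_prod_left.aestronglyMeasurable)
      (Eventually.of_forall fun l => ?_) (integrable_const _) h
    filter_upwards [Measure.ae_ae_of_ae_prod (hb l)] with x hx
    exact norm_integral_le_of_norm_le_const hx
  rw [integral_zero] at key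
  exact key.congr fun l => (integral_prod _ (iF l)).symm

end Pool.Agent.Lib.MP_e1e19a_an.C1
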