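import Pool.Agent.Lib.MP_e1e19a_an.N.S1

/-!
Linearisation of the waves; a mean square bound for the maximum of plane waves.
-/

namespace Pool.Agent.Lib.MP_e1e19a_an

open Real MeasureTheory Set
open scoped MatrixGroups ComplexConjugate UpperHalfPlane

set_option linter.unusedSectionVars false

variable {α : Type} [Fintype α] [DecidableEq α] [Inhabited α] (S : SchottkyData α)

namespace C2a

theorem exp2 (u v : ℂ) : HasSum (fun p : ℕ × ℕ => u ^ p.1 / p.1.factorial * (v ^ p.2 / p.2.factorial))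
    (Complex.exp (u + v)) := by
  have h : ∀ u : ℂ, HasSum (fun n : ℕ => u ^ n / n.factorial) (Complex.exp u) := fun u => by
    rw [Complex.exp_eq_exp_ℂ]
    exact NormedSpace.expSeries_div_hasSum_exp u
  have h0 : ∀ u : ℂ, Summable fun n : ℕ => ‖u ^ n / n.factorial‖ := fun u => (h u).summable.norm
  have h1 := summable_mul_of_summable_norm (R := ℂ) (h0 u) (h0 v)
  rw [Complex.exp_add]
  exact HasSum.mul (f := fun n : ℕ => u ^ n / n.factorial) (g := fun n : ℕ => v ^ n / n.factorial)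
    (h u) (h v) h1

/-- Cauchy-Schwarz for a weighted series -/
theorem cs {P : Type} {w : P → ℝ} (hw : ∀ p, 0 ≤ w p) {F G : P → ℂ} {f A B : ℂ}
    (h1 : HasSum (fun p => w p * (F p * G p)) f) (h2 : HasSum (fun p => w p * (F p * conj (F p))) A)
    (h3 : HasSum (fun p => w p * (G p * conj (G p))) B) : ‖f‖ ^ 2 ≤ B.re * A.re := by
  have k : ∀ {H : P → ℂ} {D : ℂ}, HasSum (fun p => w p * (H p * conj (H p))) D →
      HasSum (fun p => w p * ‖H p‖ ^ 2) D.re := fun {H D} h => by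
    convert Complex.hasSum_re h using 2 with p
    rw [Complex.mul_conj, ← Complex.ofReal_mul, Complex.ofReal_re, Complex.sq_norm]
  have k2 := k h2
  have k3 := k h3
  refine le_of_tendsto' ((continuous_norm.pow 2).continuousAt.tendsto.comp h1) fun s => ?_
  have n2 : ∀ p, 0 ≤ w p * ‖F p‖ ^ 2 := fun p => mul_nonneg (hw p) (sq_nonneg _)
  have n3 : ∀ p, 0 ≤ w p * ‖G p‖ ^ 2 := fun p => mul_nonneg (hw p) (sq_nonneg _)
  calc ‖∑ p ∈ s, w p * (F p * G p)‖ ^ 2 ≤ (∑ p ∈ s, w p * (‖F p‖ * ‖G p‖)) ^ 2 := by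
        gcongr
        refine (norm_sum_le _ _).trans (Finset.sum_le_sum fun p _ => ?_)
        rw [norm_mul, norm_mul, Complex.norm_real, Real.norm_of_nonneg (hw p)]
    _ ≤ (∑ p ∈ s, w p * ‖G p‖ ^ 2) * ∑ p ∈ s, w p * ‖F p‖ ^ 2 :=
        Finset.sum_sq_le_sum_mul_sum_of_sq_le_mul s (fun p _ => n3 p) (fun p _ => n2 p)
          fun p _ => le_of_eq (by ring)
    _ ≤ _ := mul_le_mul (sum_le_hasSum s (fun p _ => n3 p) k3) (sum_le_hasSum s (fun p _ => n2 p) k2)
        (Finset.sum_nonneg fun p _ => n2 p) (k3.nonneg n3)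

theorem dot_eq (k x : ℂ) : dot k x = k.re * x.re + k.im * x.im := by simp [dot]

theorem abs_dot (k x : ℂ) : |dot k x| ≤ ‖k‖ * ‖x‖ := by
  simpa [dot] using Complex.abs_re_le_norm (conj k * x)

theorem den_ne (z : ℍ) (g : FreeGroup α) : (S.M g 1 0 * z - S.M g 0 0 : ℂ) ≠ 0 := fun e => by
  have h1 := congrArg Complex.im e
  have h2 := congrArg Complex.re e
  have d := det2 (S.M g)
  simp [z.im_pos.ne'] at h1
  simp [h1] at h2
  simp [h1, h2] at d

theorem ht_den (z : ℍ) (g : FreeGroup α) :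
    S.ht g z = z.im / ‖(S.M g 1 0 * z - S.M g 0 0 : ℂ)‖ ^ 2 := by
  rw [SchottkyData.ht, im_eq, QQ, (S1.inv_entries S g).2.2.1, (S1.inv_entries S g).2.2.2,
    Complex.sq_norm, Complex.normSq_apply]
  simp only [Complex.sub_re, Complex.sub_im, Complex.mul_re, Complex.mul_im, Complex.ofReal_re,
    Complex.ofReal_im, UpperHalfPlane.coe_re, UpperHalfPlane.coe_im]
  ring

theorem den_ge (z : ℍ) (g : FreeGroup α) :
    |S.M g 1 0| * z.im ≤ ‖(S.M g 1 0 * z - S.M g 0 0 : ℂ)‖ := by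
  simpa [abs_mul, abs_of_pos z.im_pos] using
    Complex.abs_im_le_norm (S.M g 1 0 * z - S.M g 0 0 : ℂ)

theorem pt_im (w : ℝ × ℝ) : (pt w).im = w.2 := by simp [pt]

theorem coe_of {z : ℂ} (h : 0 < z.im) : (UpperHalfPlane.ofComplex z : ℂ) = z := by
  rw [UpperHalfPlane.ofComplex_apply_of_im_pos h]

theorem log_err {u : ℂ} {ρ : ℝ} (h : ‖u‖ ≤ ρ) (h2 : ρ ≤ 1 / 2) : |log ‖1 + u‖ - u.re| ≤ ρ ^ 2 := by
  have h1 := Complex.norm_log_one_add_sub_self_le (z := u) (by linarith)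
  have h3 := Complex.abs_re_le_norm (Complex.log (1 + u) - u)
  rw [Complex.sub_re, Complex.log_re] at h3
  have h4 : (1 - ‖u‖)⁻¹ ≤ 2 := by
    rw [inv_le_comm₀ (by linarith) two_pos]; linarith
  have h5 : ‖u‖ ^ 2 ≤ ρ ^ 2 := by gcongr
  nlinarith [sq_nonneg ‖u‖]

/-- second order expansion of the phase -/
theorem taylor (z z' : ℍ) (g : FreeGroup α) {ρ : ℝ} (h : ‖(z' : ℂ) - z‖ ≤ ρ * z.im) (h2 : ρ ≤ 1 / 2) :
    |log (S.ht g z') - log (S.ht g z) - dot (S.dir z g) (z' - z) / z.im| ≤ 3 * ρ ^ 2 := by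
  have y0 := z.im_pos
  have y1 := z'.im_pos
  have d0 := den_ne S z g
  have d1 := den_ne S z' g
  have d2 := den_ge S z g
  set v : ℂ := z' - z with hv
  set c := S.M g 1 0
  set a := S.M g 0 0
  have n0 := norm_pos_iff.2 d0
  have n1 := norm_pos_iff.2 d1
  have e1 := log_err (u := (v.im / z.im : ℝ)) (ρ := ρ) (by
    rw [Complex.norm_real, Real.norm_eq_abs, abs_div, abs_of_pos y0, div_le_iff₀ y0]
    exact (Complex.abs_im_le_norm v).trans h) h2
  have e2 := log_err (u := c * v / (c * z - a)) (ρ := ρ) (by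
    rw [norm_div, norm_mul, Complex.norm_real, Real.norm_eq_abs, div_le_iff₀ n0]
    have r0 : 0 ≤ ρ := nonneg_of_mul_nonneg_left ((norm_nonneg _).trans h) y0
    nlinarith [abs_nonneg c, mul_le_mul_of_nonneg_left h (abs_nonneg c),
      mul_le_mul_of_nonneg_left d2 r0]) h2
  have f1 : ‖(1 + (v.im / z.im : ℝ) : ℂ)‖ = z'.im / z.im := by
    rw [← Complex.ofReal_one, ← Complex.ofReal_add, Complex.norm_real, ← Real.norm_of_nonneg
      (div_pos y1 y0).le, hv]
    congr 1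
    simp only [Complex.sub_im, UpperHalfPlane.coe_im]
    field_simp
    ring
  have f2 : ‖1 + c * v / (c * z - a)‖ = ‖(c * z' - a : ℂ)‖ / ‖(c * z - a : ℂ)‖ := by
    rw [← norm_div, hv]
    congr 1
    field_simp
    ring
  have f3 : dot (S.dir z g) v / z.im = v.im / z.im - 2 * (c * v / (c * z - a)).re := by
    have y2 : (z.im : ℂ) ≠ 0 := Complex.ofReal_ne_zero.2 y0.ne'
    have h3 := Complex.sub_conj (z : ℂ)
    have : conj (S.dir z g) * v = -Complex.I * v - z.im * (2 * (c * v / (c * z - a))) := by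
      rw [SchottkyData.dir]
      simp only [map_div₀, map_mul, map_sub, Complex.conj_I, Complex.conj_ofReal, Complex.conj_conj]
      change -Complex.I * (c * conj (z : ℂ) - a) / (c * z - a) * v = _
      field_simp
      push_cast at h3
      simp only [UpperHalfPlane.coe_im] at h3
      linear_combination Complex.I * v * c * h3 + 2 * z.im * v * c * Complex.I_mul_I
    rw [dot, this, Complex.sub_re, Complex.re_ofReal_mul]
    simp only [Complex.mul_re, Complex.neg_re, Complex.neg_im, Complex.I_re, Complex.I_im,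
      Complex.re_ofNat, Complex.im_ofNat]
    field_simp
    ring
  rw [f1, Complex.ofReal_re, log_div y1.ne' y0.ne'] at e1
  rw [f2, log_div n1.ne' n0.ne'] at e2
  rw [f3, ht_den, ht_den, log_div y1.ne' (by positivity), log_div y0.ne' (by positivity), log_pow,
    log_pow]
  rw [abs_le] at e1 e2 ⊢
  push_cast
  constructor <;> linarith [e1.1, e1.2, e2.1, e2.2]

end C2a

open C2a

theorem sup_planar (R : ℝ) : ∃ (β : ℂ → ℂ → ℂ) (C : ℝ), 0 < C ∧
    ContinuousOn (fun x : ℂ × ℂ => β x.1 x.2) (Metric.closedBall 0 1 ×ˢ Metric.closedBall 0 1) ∧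
    (∀ k, ‖k‖ ≤ 1 → ‖β k k‖ ≤ C) ∧ ∀ (ι : Type) (T : Finset ι) (k c : ι → ℂ), (∀ i, ‖k i‖ ≤ 1) →
      ∀ x : ℂ, ‖x‖ ≤ R → ‖∑ i ∈ T, c i * Complex.exp (Complex.I * dot (k i) x)‖ ^ 2
        ≤ (∑ i ∈ T, ∑ j ∈ T, c i * conj (c j) * β (k i) (k j)).re := by
  refine ⟨fun k k' => exp (R ^ 2) * Complex.exp (dot k k'), exp (R ^ 2) * exp 1, by positivity,
    Continuous.continuousOn (by unfold dot; fun_prop), fun k hk => ?_, fun ι T k c _ x hx => ?_⟩
  · rw [norm_mul, Complex.norm_real, Complex.norm_exp_ofReal, Real.norm_of_nonneg (exp_pos _).le]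
    gcongr
    nlinarith [le_abs_self (dot k k), abs_dot k k, norm_nonneg k]
  let w : ℕ × ℕ → ℝ := fun p => (p.1.factorial * p.2.factorial : ℝ)⁻¹
  let φ : ℂ → ℕ × ℕ → ℂ := fun k p => k.re ^ p.1 * k.im ^ p.2
  let G : ℕ × ℕ → ℂ := fun p => (Complex.I * x.re) ^ p.1 * (Complex.I * x.im) ^ p.2
  have h1 : HasSum (fun p => w p * ((∑ i ∈ T, c i * φ (k i) p) * G p))
      (∑ i ∈ T, c i * Complex.exp (Complex.I * dot (k i) x)) := by
    simp only [Finset.sum_mul, Finset.mul_sum]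
    refine hasSum_sum fun i _ => ?_
    convert (exp2 ((k i).re * (Complex.I * x.re)) ((k i).im * (Complex.I * x.im))).mul_left (c i)
      using 1
    · rfl
    · funext p; simp only [w, φ, G, mul_pow]; push_cast; ring
    · rw [dot_eq]; push_cast; ring_nf
  have h2 : HasSum (fun p => w p * ((∑ i ∈ T, c i * φ (k i) p) * conj (∑ i ∈ T, c i * φ (k i) p)))
      (∑ i ∈ T, ∑ j ∈ T, c i * conj (c j) * Complex.exp (dot (k i) (k j))) := by
    simp only [map_sum, Finset.sum_mul_sum]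
    simp only [Finset.mul_sum]
    refine hasSum_sum fun i _ => hasSum_sum fun j _ => ?_
    convert (exp2 ((k i).re * (k j).re) ((k i).im * (k j).im)).mul_left (c i * conj (c j)) using 1
    · rfl
    · funext p; simp only [w, φ, mul_pow, map_mul, map_pow, Complex.conj_ofReal]; push_cast; ring
    · rw [dot_eq]; push_cast; rfl
  have h3 : HasSum (fun p => w p * (G p * conj (G p))) (Complex.exp (‖x‖ ^ 2 : ℝ)) := by
    convert exp2 (Complex.I * x.re * conj (Complex.I * x.re))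
      (Complex.I * x.im * conj (Complex.I * x.im)) using 1
    · funext p; simp only [w, G, map_mul, map_pow, mul_pow]; push_cast; ring
    · rw [Complex.mul_conj, Complex.mul_conj, Complex.sq_norm, Complex.normSq_apply x]
      simp
  have h4 := cs (fun p => by positivity) h1 h2 h3
  have h5 : 0 ≤ (∑ i ∈ T, ∑ j ∈ T, c i * conj (c j) * Complex.exp (dot (k i) (k j))).re :=
    (Complex.hasSum_re h2).nonneg fun p => by
      rw [Complex.mul_conj, ← Complex.ofReal_mul, Complex.ofReal_re]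
      exact mul_nonneg (by positivity) (Complex.normSq_nonneg _)
  simp only [mul_left_comm _ (exp (R ^ 2) : ℂ), ← Finset.mul_sum, Complex.re_ofReal_mul]
  rw [Complex.exp_ofReal_re] at h4
  refine h4.trans ?_
  gcongr

theorem SchottkyData.amp_le (z₀ : ℍ) (g : FreeGroup α) {w : ℝ × ℝ} (hw : w ∈ Sq z₀ (z₀.im / 4)) :
    S.amp (UpperHalfPlane.ofComplex (pt w)) g ≤ 2 * S.amp z₀ g := by
  obtain ⟨⟨a1, a2⟩, a3, a4⟩ := hw
  simp only [UpperHalfPlane.coe_re, UpperHalfPlane.coe_im] at a1 a2 a3 a4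
  have y0 := z₀.im_pos
  have w0 : 0 < (pt w).im := by rw [pt_im]; linarith
  have n0 := norm_pos_iff.2 (den_ne S z₀ g)
  have d2 := den_ge S z₀ g
  have h1 : ‖pt w - z₀‖ ≤ 3 / 8 * z₀.im := by
    refine le_of_pow_le_pow_left₀ two_ne_zero (by positivity) ?_
    rw [Complex.sq_norm, Complex.normSq_apply]
    simp only [pt, Complex.sub_re, Complex.sub_im, Complex.add_re, Complex.add_im, Complex.mul_re,
      Complex.mul_im, Complex.ofReal_re, Complex.ofReal_im, Complex.I_re, Complex.I_im,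
      UpperHalfPlane.coe_re, UpperHalfPlane.coe_im]
    nlinarith
  have h2 : 5 / 8 * ‖(S.M g 1 0 * z₀ - S.M g 0 0 : ℂ)‖ ≤ ‖(S.M g 1 0 * pt w - S.M g 0 0 : ℂ)‖ := by
    have := norm_sub_le (S.M g 1 0 * pt w - S.M g 0 0 : ℂ) (S.M g 1 0 * (pt w - z₀))
    rw [show (S.M g 1 0 * pt w - S.M g 0 0 : ℂ) - S.M g 1 0 * (pt w - z₀) =
      S.M g 1 0 * z₀ - S.M g 0 0 by ring, norm_mul, Complex.norm_real, Real.norm_eq_abs] at this
    nlinarith [mul_le_mul_of_nonneg_left h1 (abs_nonneg (S.M g 1 0))]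
  rw [SchottkyData.amp, SchottkyData.amp, sqrt_le_left (by positivity), mul_pow,
    sq_sqrt (S.ht_pos g z₀).le, ht_den, ht_den, ← UpperHalfPlane.coe_im, coe_of w0, pt_im]
  calc _ ≤ 5 / 4 * z₀.im / (5 / 8 * ‖(S.M g 1 0 * z₀ - S.M g 0 0 : ℂ)‖) ^ 2 := by
        gcongr; linarith
    _ = 16 / 5 * (z₀.im / ‖(S.M g 1 0 * z₀ - S.M g 0 0 : ℂ)‖ ^ 2) := by field_simp; norm_num
    _ ≤ _ := by gcongr; norm_num

theorem SchottkyData.linearise (z₀ : ℍ) (g : FreeGroup α) (R : ℝ) {ε : ℝ} (hε : 0 < ε) :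
    ∃ l₁ : ℝ, ∀ l ≥ l₁, ∀ w ∈ Sq z₀ (z₀.im / 4), ∀ x : ℂ, ‖x‖ ≤ R →
      ‖((S.ht g (UpperHalfPlane.ofComplex (pt w + z₀.im / l * x)) : ℝ) : ℂ) ^
          (1 / 2 + l * Complex.I) - S.amp (UpperHalfPlane.ofComplex (pt w)) g *
        Complex.exp (Complex.I * (l * log (S.ht g (UpperHalfPlane.ofComplex (pt w))) +
          dot (S.dir (UpperHalfPlane.ofComplex (pt w)) g) (z₀.im / w.2 * x) : ℝ))‖ ≤ ε := by
  have y0 := z₀.im_pos
  have A0 : 0 < S.amp z₀ g := sqrt_pos.2 (S.ht_pos g z₀)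
  set K := 2 * |R| + 1 with hK
  have K1 : 1 ≤ K := by linarith [abs_nonneg R]
  refine ⟨max (5 * K ^ 2) (20 * K ^ 2 * S.amp z₀ g / ε), fun l hl w hw x hx => ?_⟩
  have l1 : 5 * K ^ 2 ≤ l := (le_max_left _ _).trans hl
  have l2 : 20 * K ^ 2 * S.amp z₀ g / ε ≤ l := (le_max_right _ _).trans hl
  have l0 : 0 < l := by nlinarith
  have hA := S.amp_le z₀ g hw
  obtain ⟨-, a3, -⟩ := hw
  simp only [UpperHalfPlane.coe_im] at a3
  have w1 : 0 < w.2 := by linarith
  have w0 : 0 < (pt w).im := by rwa [pt_im]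
  have r1 : K / l ≤ 1 / 2 := by rw [div_le_iff₀ l0]; nlinarith
  have r0 : 0 < K / l := by positivity
  have v1 : ‖(z₀.im / l * x : ℂ)‖ ≤ K / l * w.2 := by
    rw [norm_mul, norm_div, Complex.norm_real, Complex.norm_real, Real.norm_of_nonneg y0.le,
      Real.norm_of_nonneg l0.le, div_mul_eq_mul_div, div_mul_eq_mul_div]
    gcongr ?_ / _
    nlinarith [le_abs_self R, abs_nonneg R, mul_le_mul_of_nonneg_left hx y0.le]
  have w2 : 0 < (pt w + z₀.im / l * x).im := by
    rw [Complex.add_im, pt_im]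
    nlinarith [neg_abs_le (z₀.im / l * x : ℂ).im, Complex.abs_im_le_norm (z₀.im / l * x : ℂ)]
  set z := UpperHalfPlane.ofComplex (pt w)
  set z' := UpperHalfPlane.ofComplex (pt w + z₀.im / l * x)
  have e1 : (z' : ℂ) - z = z₀.im / l * x := by rw [coe_of w0, coe_of w2]; ring
  have e2 : z.im = w.2 := by rw [← UpperHalfPlane.coe_im, coe_of w0, pt_im]
  have h1 := taylor S z z' g (ρ := K / l) (by rwa [e1, e2]) r1
  rw [e1, e2] at h1
  have h2 : |dot (S.dir z g) (z₀.im / l * x) / w.2| ≤ K / l := by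
    rw [abs_div, abs_of_pos w1, div_le_iff₀ w1]
    exact (abs_dot _ _).trans (by rwa [S.dir_norm, one_mul])
  have h3 : dot (S.dir z g) (z₀.im / w.2 * x) = l * (dot (S.dir z g) (z₀.im / l * x) / w.2) := by
    simp only [dot_eq, ← Complex.ofReal_div, Complex.re_ofReal_mul, Complex.im_ofReal_mul]
    field_simp
  rw [h3]
  set D := dot (S.dir z g) (z₀.im / l * x) / w.2
  obtain ⟨E, hE⟩ : ∃ E, log (S.ht g z') = log (S.ht g z) + D + E := ⟨_, (add_sub_cancel _ _).symm⟩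
  rw [show log (S.ht g z') - log (S.ht g z) - D = E by linarith] at h1
  have h4 : S.amp z g = exp (log (S.ht g z) / 2) := by
    rw [SchottkyData.amp, exp_half, exp_log (S.ht_pos g z)]
  have h5 : ‖(((D + E) / 2 : ℝ) + Complex.I * (l * E : ℝ) : ℂ)‖ ≤ 5 * K ^ 2 / l := by
    refine (norm_add_le _ _).trans ?_
    rw [norm_mul, Complex.norm_I, one_mul, Complex.norm_real, Complex.norm_real, Real.norm_eq_abs,
      Real.norm_eq_abs, abs_div, abs_two, abs_mul, abs_of_pos l0]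
    have t1 : l * |E| ≤ 3 * (K ^ 2 / l) :=
      (mul_le_mul_of_nonneg_left h1 l0.le).trans_eq (by field_simp)
    have t2 : K / l ≤ K ^ 2 / l := by gcongr; nlinarith
    rw [mul_div_assoc]
    nlinarith [abs_add_le D E]
  have h6 := Complex.norm_exp_sub_one_le (h5.trans ((div_le_one l0).2 l1))
  rw [Complex.cpow_def_of_ne_zero (Complex.ofReal_ne_zero.2 (S.ht_pos g z').ne'),
    ← Complex.ofReal_log (S.ht_pos g z').le, hE,
    show ((log (S.ht g z) + D + E : ℝ) : ℂ) * (1 / 2 + l * Complex.I) =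
      (log (S.ht g z) / 2 : ℝ) + Complex.I * (l * log (S.ht g z) + l * D : ℝ) +
        (((D + E) / 2 : ℝ) + Complex.I * (l * E : ℝ)) by push_cast; ring,
    Complex.exp_add, Complex.exp_add, ← Complex.ofReal_exp, ← h4, ← mul_sub_one, norm_mul, norm_mul,
    Complex.norm_exp_I_mul_ofReal, mul_one, Complex.norm_real,
    Real.norm_of_nonneg (h4 ▸ (exp_pos _).le)]
  calc _ ≤ 2 * S.amp z₀ g * (2 * (5 * K ^ 2 / l)) :=
        mul_le_mul hA (h6.trans (by linarith)) (norm_nonneg _) (by positivity)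
    _ = 20 * K ^ 2 * S.amp z₀ g / l := by ring
    _ ≤ ε := by rwa [div_le_iff₀ l0, mul_comm ε, ← div_le_iff₀ hε]

theorem SchottkyData.cont_amp (g : FreeGroup α) : ContinuousOn
    (fun w => S.amp (UpperHalfPlane.ofComplex (pt w)) g) {w | 0 < w.2} := by
  have w0 : ∀ w ∈ {w : ℝ × ℝ | 0 < w.2}, 0 < (pt w).im := fun w hw => by rwa [pt_im]
  refine ContinuousOn.congr (f := fun w => √(w.2 / ‖(S.M g 1 0 * pt w - S.M g 0 0 : ℂ)‖ ^ 2))
    (ContinuousOn.sqrt (ContinuousOn.div (by fun_prop) (by unfold pt; fun_prop) fun w hw => ?_))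
    fun w hw => ?_
  · have := den_ne S (UpperHalfPlane.ofComplex (pt w)) g
    rw [coe_of (w0 w hw)] at this
    positivity
  · simp only [SchottkyData.amp]
    rw [ht_den, ← UpperHalfPlane.coe_im, coe_of (w0 w hw), pt_im]

theorem SchottkyData.cont_dir (g : FreeGroup α) : ContinuousOn
    (fun w => S.dir (UpperHalfPlane.ofComplex (pt w)) g) {w | 0 < w.2} := by
  have w0 : ∀ w ∈ {w : ℝ × ℝ | 0 < w.2}, 0 < (pt w).im := fun w hw => by rwa [pt_im]
  refine ContinuousOn.congr (f := fun w => Complex.I * (S.M g 1 0 * pt w - S.M g 0 0) /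
    (S.M g 1 0 * conj (pt w) - S.M g 0 0))
    (ContinuousOn.div (by unfold pt; fun_prop) (by unfold pt; fun_prop) fun w hw e => ?_)
    fun w hw => ?_
  · refine den_ne S (UpperHalfPlane.ofComplex (pt w)) g ?_
    simpa [coe_of (w0 w hw)] using congrArg conj e
  · simp only [SchottkyData.dir]
    rw [coe_of (w0 w hw)]

end Pool.Agent.Lib.MP_e1e19a_an
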