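import Pool.Agent.Lib.MP_e1e19a_an.N.C1
import Pool.Agent.Lib.MP_e1e19a_an.N.C2a

/-!
The closed nodal curve appears near a positive proportion of the points.
-/

namespace Pool.Agent.Lib.MP_e1e19a_an

open Real MeasureTheory Set
open scoped MatrixGroups ComplexConjugate UpperHalfPlane

namespace C2b

theorem bump (t : ℝ) {κ : ℝ} (hκ : 0 < κ) : ∃ th : ℝ → ℝ, Continuous th ∧
    Function.Periodic th (2 * π) ∧ (∀ θ, 0 ≤ th θ) ∧ (∀ θ, th θ ≤ 1) ∧
    (∀ θ : ℝ, th θ ≠ 0 → ‖Complex.exp (Complex.I * θ) - Complex.exp (Complex.I * t)‖ ≤ κ) ∧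
    0 < ∫ θ in (0 : ℝ)..2 * π, th θ := by
  have per : Function.Periodic (fun θ : ℝ =>
      max 0 (1 - ‖Complex.exp (Complex.I * θ) - Complex.exp (Complex.I * t)‖ / κ)) (2 * π) := by
    intro θ
    have : Complex.exp (Complex.I * (θ + 2 * π : ℝ)) = Complex.exp (Complex.I * θ) := by
      rw [← Complex.exp_periodic (Complex.I * θ)]
      congr 1
      push_cast
      ring
    simp only [this]
  refine ⟨_, by fun_prop, per, fun θ => le_max_left _ _, fun θ => max_le zero_le_one ?_,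
    fun θ h => ?_, ?_⟩
  · have := div_nonneg (norm_nonneg (Complex.exp (Complex.I * θ) - Complex.exp (Complex.I * t)))
      hκ.le
    linarith
  · by_contra hc
    refine h (max_eq_left ?_)
    have := (one_le_div hκ).2 (not_le.1 hc).le
    linarith
  · have := per.intervalIntegral_add_eq 0 t
    rw [zero_add] at this
    rw [this]
    exact intervalIntegral.integral_pos (by linarith [pi_pos]) (by fun_prop)
      (fun x _ => le_max_left _ _) ⟨t, ⟨le_rfl, by linarith [pi_pos]⟩, by simp⟩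

theorem cheb {U : Set (ℝ × ℝ)} (hU : IsCompact U) {Θ Q : ℝ × ℝ → ℝ} (hΘ : ContinuousOn Θ U)
    (hQ : ContinuousOn Q U) (h0 : ∀ w ∈ U, 0 ≤ Θ w) (h1 : ∀ w ∈ U, Θ w ≤ 1)
    (h2 : ∀ w ∈ U, 0 ≤ Q w) {a : ℝ} (ha : 0 < a) :
    ENNReal.ofReal ((∫ w in U, Θ w) - (∫ w in U, Θ w * Q w) / a) ≤
      volume {w ∈ U | Θ w ≠ 0 ∧ Q w < a} := by
  set G := {w ∈ U | Θ w ≠ 0 ∧ Q w < a}
  have fin : volume G ≠ ⊤ := ((measure_mono fun w hw => hw.1).trans_lt hU.measure_lt_top).ne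
  have mG := measurableSet_toMeasurable volume G
  have i1 := hΘ.integrableOn_compact (μ := volume) hU
  have i2 : IntegrableOn (fun w => Θ w * Q w) U := (hΘ.mul hQ).integrableOn_compact hU
  have i3 : IntegrableOn ((toMeasurable volume G).indicator fun _ => (1 : ℝ)) U :=
    (integrableOn_const hU.measure_lt_top.ne).indicator mG
  refine ENNReal.ofReal_le_of_le_toReal ?_
  rw [← integral_div, ← integral_sub i1 (i2.div_const a)]
  refine (setIntegral_mono_on (i1.sub (i2.div_const a)) i3 hU.measurableSet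
    fun w hw => ?_).trans ?_
  · have h3 := div_nonneg (mul_nonneg (h0 w hw) (h2 w hw)) ha.le
    by_cases hG : w ∈ G
    · rw [indicator_of_mem (subset_toMeasurable _ _ hG)]
      have := h1 w hw
      simp only [Pi.sub_apply]
      linarith
    · refine le_trans ?_ (indicator_nonneg (fun _ _ => zero_le_one) w)
      simp only [Pi.sub_apply]
      by_cases h : Θ w = 0
      · simp [h]
      · have : a ≤ Q w := not_lt.1 fun h' => hG ⟨hw, h, h'⟩
        rw [sub_nonpos, le_div_iff₀ ha]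
        exact mul_le_mul_of_nonneg_left this (h0 w hw)
  · rw [integral_indicator mG, setIntegral_const, smul_eq_mul, mul_one, Measure.real,
      ← measure_toMeasurable G]
    exact ENNReal.toReal_mono (by rwa [measure_toMeasurable]) (Measure.restrict_apply_le _ _)

theorem second {ι : Type} [DecidableEq ι] (M : Finset ι) {U : Set (ℝ × ℝ)} (hU : IsCompact U)
    {Θ : ℝ × ℝ → ℝ} {F : ι → ι → ℝ × ℝ → ℂ} (hΘ : ContinuousOn Θ U)
    (hF : ∀ i j, ContinuousOn (F i j) U) (B : ι → ℝ) (hd : ∀ i ∈ M, ∀ w ∈ U, ‖F i i w‖ ≤ B i)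
    (h0 : ∀ w ∈ U, 0 ≤ Θ w) {ε : ℝ} (hε : 0 ≤ ε)
    (ho : ∀ i ∈ M, ∀ j ∈ M, i ≠ j → ‖∫ w in U, Θ w * F i j w‖ ≤ ε) :
    ∫ w in U, Θ w * (∑ i ∈ M, ∑ j ∈ M, F i j w).re ≤
      (∑ i ∈ M, B i) * (∫ w in U, Θ w) + M.card ^ 2 * ε := by
  have i1 := hΘ.integrableOn_compact (μ := volume) hU
  have i2 : ∀ i j, IntegrableOn (fun w => (Θ w : ℂ) * F i j w) U := fun i j =>
    ((Complex.continuous_ofReal.comp_continuousOn hΘ).mul (hF i j)).integrableOn_compact hU
  have i3 : ∀ i j, IntegrableOn (fun w => ((Θ w : ℂ) * F i j w).re) U := fun i j => (i2 i j).re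
  have e : ∀ w, Θ w * (∑ i ∈ M, ∑ j ∈ M, F i j w).re =
      ∑ i ∈ M, ∑ j ∈ M, ((Θ w : ℂ) * F i j w).re := fun w => by
    simp only [Complex.re_sum, Finset.mul_sum, Complex.re_ofReal_mul]
  simp only [e]
  rw [integral_finsetSum _ fun i _ => integrable_finsetSum _ fun j _ => i3 i j]
  have h : ∀ i ∈ M, ∫ w in U, ∑ j ∈ M, ((Θ w : ℂ) * F i j w).re ≤
      B i * (∫ w in U, Θ w) + M.card * ε := fun i hi => by
    rw [integral_finsetSum _ fun j _ => i3 i j]
    have : ∀ j ∈ M, ∫ w in U, ((Θ w : ℂ) * F i j w).re ≤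
        (if i = j then B i * ∫ w in U, Θ w else 0) + ε := fun j hj => by
      split_ifs with h
      · subst h
        refine le_trans ?_ (le_add_of_nonneg_right hε)
        rw [← integral_const_mul]
        refine setIntegral_mono_on (i3 i i) (i1.const_mul _) hU.measurableSet fun w hw => ?_
        rw [Complex.re_ofReal_mul, mul_comm]
        exact mul_le_mul_of_nonneg_right ((Complex.re_le_norm _).trans (hd i hi w hw)) (h0 w hw)
      · have := integral_re (i2 i j)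
        simp only [RCLike.re_to_complex] at this
        rw [this, zero_add]
        exact (Complex.re_le_norm _).trans (ho i hi j hj h)
    refine (Finset.sum_le_sum this).trans (le_of_eq ?_)
    rw [Finset.sum_add_distrib, Finset.sum_ite_eq, if_pos hi, Finset.sum_const, nsmul_eq_mul]
  refine (Finset.sum_le_sum h).trans (le_of_eq ?_)
  rw [Finset.sum_add_distrib, Finset.sum_const, nsmul_eq_mul, Finset.sum_mul]
  ring

theorem one {a a₀ ψ t κ R : ℝ} {k k₀ x s : ℂ} (hs : conj s = s) (ha : 0 ≤ a₀) (hx : ‖x‖ ≤ R)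
    (h : ‖Complex.exp (Complex.I * ψ) - Complex.exp (Complex.I * t)‖ ≤ κ) :
    |(a * Complex.exp (Complex.I * ψ) * Complex.exp (Complex.I * dot k (s * x))).re -
      a₀ * cos (dot k₀ x + t)| ≤ |a - a₀| + a₀ * ‖s * k - k₀‖ * R + a₀ * κ := by
  have n1 : ∀ u : ℝ, ‖Complex.exp (Complex.I * u)‖ = 1 := fun u => Complex.norm_exp_I_mul_ofReal u
  have e1 : a₀ * cos (dot k₀ x + t) =
      (a₀ * Complex.exp (Complex.I * t) * Complex.exp (Complex.I * dot k₀ x)).re := by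
    rw [mul_assoc, ← Complex.exp_add, Complex.re_ofReal_mul, ← mul_add, mul_comm Complex.I,
      ← Complex.ofReal_add, Complex.exp_ofReal_mul_I_re, add_comm]
  have e2 : |dot k (s * x) - dot k₀ x| ≤ ‖s * k - k₀‖ * R := by
    have : dot k (s * x) - dot k₀ x = (conj (s * k - k₀) * x).re := by
      rw [dot, dot, ← Complex.sub_re, map_sub, map_mul, hs]
      congr 1
      ring
    rw [this]
    refine (Complex.abs_re_le_norm _).trans ?_
    rw [norm_mul, Complex.norm_conj]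
    exact mul_le_mul_of_nonneg_left hx (norm_nonneg _)
  have e3 : ‖Complex.exp (Complex.I * dot k (s * x)) - Complex.exp (Complex.I * dot k₀ x)‖ ≤
      ‖s * k - k₀‖ * R := by
    have : Complex.exp (Complex.I * dot k (s * x)) - Complex.exp (Complex.I * dot k₀ x) =
        Complex.exp (Complex.I * dot k₀ x) *
          (Complex.exp (Complex.I * (dot k (s * x) - dot k₀ x : ℝ)) - 1) := by
      rw [mul_sub, ← Complex.exp_add, mul_one]
      congr 2
      push_cast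
      ring
    rw [this, norm_mul, n1, one_mul]
    exact Real.norm_exp_I_mul_ofReal_sub_one_le.trans e2
  rw [e1, ← Complex.sub_re]
  refine (Complex.abs_re_le_norm _).trans ?_
  have e4 : ∀ A B C D : ℂ, a * A * B - a₀ * C * D =
      (a - a₀ : ℝ) * A * B + a₀ * C * (B - D) + a₀ * (A - C) * B := fun A B C D => by
    push_cast
    ring
  rw [e4]
  refine norm_add₃_le.trans ?_
  simp only [norm_mul, n1, mul_one, Complex.norm_real, Real.norm_eq_abs, abs_of_nonneg ha]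
  have := mul_le_mul_of_nonneg_left e3 ha
  have := mul_le_mul_of_nonneg_left h ha
  linarith

theorem close {ι : Type} [DecidableEq ι] {T₀ T₁ : Finset ι} (h : T₀ ⊆ T₁) {a a₀ ψ t : ι → ℝ}
    {k k₀ u : ι → ℂ} {E x s : ℂ} {b κ R δ ε : ℝ} (hs : conj s = s) (ha : ∀ i, 0 ≤ a₀ i)
    (hx : ‖x‖ ≤ R) (hκ : ∀ i ∈ T₀,
      ‖Complex.exp (Complex.I * (ψ i + b : ℝ)) - Complex.exp (Complex.I * t i)‖ ≤ κ)
    (h1 : ‖E - ∑ i ∈ T₁, u i‖ ≤ δ)
    (h2 : ∀ i ∈ T₁, ‖u i - a i * Complex.exp (Complex.I * (ψ i + dot (k i) (s * x) : ℝ))‖ ≤ ε)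
    (h3 : T₁.card * ε ≤ δ)
    (h4 : ‖∑ i ∈ T₁ \ T₀, a i * Complex.exp (Complex.I * (ψ i + b : ℝ)) *
      Complex.exp (Complex.I * dot (k i) (s * x))‖ ≤ δ)
    (h5 : ∑ i ∈ T₀, (|a i - a₀ i| + a₀ i * ‖s * k i - k₀ i‖ * R) ≤ δ)
    (h6 : (∑ i ∈ T₀, a₀ i) * κ ≤ δ) :
    |(Complex.exp (Complex.I * b) * E).re - wave a₀ k₀ t T₀ x| ≤ 5 * δ := by
  have n1 : ‖Complex.exp (Complex.I * b)‖ = 1 := Complex.norm_exp_I_mul_ofReal b
  set c := fun i => a i * Complex.exp (Complex.I * (ψ i + b : ℝ)) *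
    Complex.exp (Complex.I * dot (k i) (s * x)) with hc
  have e1 : ∀ i, c i = Complex.exp (Complex.I * b) *
      (a i * Complex.exp (Complex.I * (ψ i + dot (k i) (s * x) : ℝ))) := fun i => by
    rw [hc, mul_left_comm, ← Complex.exp_add]
    simp only
    rw [mul_assoc, ← Complex.exp_add]
    congr 2
    push_cast
    ring
  have e2 : Complex.exp (Complex.I * b) * E - ∑ i ∈ T₀, c i = Complex.exp (Complex.I * b) *
      ((E - ∑ i ∈ T₁, u i) + ∑ i ∈ T₁, (u i - a i * Complex.exp (Complex.I *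
        (ψ i + dot (k i) (s * x) : ℝ)))) + ∑ i ∈ T₁ \ T₀, c i := by
    rw [Finset.sum_sdiff_eq_sub h, Finset.sum_sub_distrib, Finset.sum_congr rfl fun i _ => e1 i,
      Finset.sum_congr (s₂ := T₁) rfl fun i _ => e1 i, ← Finset.mul_sum, ← Finset.mul_sum]
    ring
  have e3 : ‖Complex.exp (Complex.I * b) * E - ∑ i ∈ T₀, c i‖ ≤ 3 * δ := by
    rw [e2]
    refine (norm_add_le _ _).trans ?_
    rw [norm_mul, n1, one_mul]
    have := norm_add_le (E - ∑ i ∈ T₁, u i) (∑ i ∈ T₁, (u i - a i * Complex.exp (Complex.I *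
        (ψ i + dot (k i) (s * x) : ℝ))))
    have h7 := (norm_sum_le _ _).trans ((Finset.sum_le_sum h2).trans_eq (Finset.sum_const ε))
    rw [nsmul_eq_mul] at h7
    linarith
  have e4 : |(∑ i ∈ T₀, c i).re - wave a₀ k₀ t T₀ x| ≤ 2 * δ := by
    rw [wave, Complex.re_sum, ← Finset.sum_sub_distrib]
    refine (Finset.abs_sum_le_sum_abs _ _).trans ((Finset.sum_le_sum fun i hi =>
      one hs (ha i) hx (hκ i hi)).trans ?_)
    rw [Finset.sum_add_distrib, ← Finset.sum_mul]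
    linarith
  have e5 := (Complex.abs_re_le_norm _).trans e3
  rw [Complex.sub_re] at e5
  have := abs_sub_le (Complex.exp (Complex.I * b) * E).re (∑ i ∈ T₀, c i).re (wave a₀ k₀ t T₀ x)
  linarith

theorem pos {z : ℍ} {ρ : ℝ} (hρ : ρ ≤ z.im / 4) {w : ℝ × ℝ} (hw : w ∈ Sq z ρ) :
    3 / 4 * z.im ≤ w.2 ∧ 0 < w.2 := by
  have h1 : z.im - ρ ≤ w.2 := hw.2.1
  have := z.im_pos
  constructor <;> linarith

theorem vol (z : ℂ) {ρ : ℝ} (hρ : 0 < ρ) : 0 < volume.real (Sq z ρ) := by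
  refine ENNReal.toReal_pos ?_ (isCompact_Icc.prod isCompact_Icc).measure_lt_top.ne
  rw [Sq, Measure.volume_eq_prod, Measure.prod_prod, Real.volume_Icc, Real.volume_Icc]
  exact mul_ne_zero (ENNReal.ofReal_pos.2 (by linarith)).ne' (ENNReal.ofReal_pos.2 (by linarith)).ne'

variable {α : Type} [Fintype α] [DecidableEq α] [Inhabited α] (S : SchottkyData α)

theorem near (z₀ : ℍ) (T : Finset (FreeGroup α)) (R : ℝ) {δ ρ₁ : ℝ} (hδ : 0 < δ) (h₁ : 0 < ρ₁) :
    ∃ ρ ∈ Ioc 0 ρ₁, ρ ≤ z₀.im / 4 ∧ ∀ w ∈ Sq z₀ ρ,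
      ∑ g ∈ T, (|S.amp (UpperHalfPlane.ofComplex (pt w)) g - S.amp z₀ g| + S.amp z₀ g *
        ‖(z₀.im : ℂ) / w.2 * S.dir (UpperHalfPlane.ofComplex (pt w)) g - S.dir z₀ g‖ * R) ≤ δ := by
  have y0 := z₀.im_pos
  have nh : {w : ℝ × ℝ | 0 < w.2} ∈ nhds (z₀.re, z₀.im) :=
    (isOpen_lt continuous_const continuous_snd).mem_nhds y0
  have c : ContinuousAt (fun w : ℝ × ℝ =>
      ∑ g ∈ T, (|S.amp (UpperHalfPlane.ofComplex (pt w)) g - S.amp z₀ g| + S.amp z₀ g *
        ‖(z₀.im : ℂ) / w.2 * S.dir (UpperHalfPlane.ofComplex (pt w)) g - S.dir z₀ g‖ * R))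
      (z₀.re, z₀.im) := by
    refine tendsto_finsetSum _ fun g _ => ?_
    have h1 := (S.cont_amp g).continuousAt nh
    have h2 := (S.cont_dir g).continuousAt nh
    have h3 : ContinuousAt (fun w : ℝ × ℝ => (z₀.im : ℂ) / w.2) (z₀.re, z₀.im) :=
      continuousAt_const.div (by fun_prop) (Complex.ofReal_ne_zero.2 y0.ne')
    exact (h1.sub continuousAt_const).abs.add ((continuousAt_const.mul
      ((h3.mul h2).sub continuousAt_const).norm).mul continuousAt_const)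
  have e : UpperHalfPlane.ofComplex (pt (z₀.re, z₀.im)) = z₀ := by
    rw [show pt (z₀.re, z₀.im) = z₀ from Complex.re_add_im (z₀ : ℂ), UpperHalfPlane.ofComplex_apply]
  obtain ⟨ε, ε0, hε⟩ := Metric.eventually_nhds_iff.1 (c.eventually_lt (g := fun _ => δ)
    continuousAt_const (by simpa [e, div_self (Complex.ofReal_ne_zero.2 y0.ne')] using hδ))
  refine ⟨min (min ρ₁ (z₀.im / 4)) (ε / 2), ⟨by positivity, (min_le_left _ _).trans
    (min_le_left _ _)⟩, (min_le_left _ _).trans (min_le_right _ _), fun w hw => (hε ?_).le⟩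
  have := min_le_right (min ρ₁ (z₀.im / 4)) (ε / 2)
  obtain ⟨⟨a1, a2⟩, a3, a4⟩ := hw
  simp only [UpperHalfPlane.coe_re, UpperHalfPlane.coe_im] at a1 a2 a3 a4
  rw [Prod.dist_eq, max_lt_iff, Real.dist_eq, Real.dist_eq, abs_lt, abs_lt]
  refine ⟨⟨?_, ?_⟩, ?_, ?_⟩ <;> simp only <;> linarith

theorem equi' {T : Finset (FreeGroup α)} (h1 : 1 ∈ T) {z : ℂ} {ρ : ℝ} (hρ : ρ < z.im)
    (A : ℝ × ℝ → ℂ) (hA : ContinuousOn A (Sq z ρ)) (θ : FreeGroup α → ℝ → ℂ)
    (hθ : ∀ i, Continuous (θ i)) (per : ∀ i, Function.Periodic (θ i) (2 * π)) {ε : ℝ}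
    (hε : 0 < ε) : ∀ᶠ l : ℝ in Filter.atTop, ∀ b : ℝ, ‖(∫ w in Sq z ρ, A w *
      ∏ i ∈ T, θ i (l * log (S.ht i (UpperHalfPlane.ofComplex (pt w))) + b)) -
      (∫ w in Sq z ρ, A w) * ∏ i ∈ T, ((∫ t in (0 : ℝ)..2 * π, θ i t) / (2 * π))‖ ≤ ε := by
  have e : ∀ w : ℝ × ℝ, 0 < w.2 → (UpperHalfPlane.ofComplex (pt w)).re = w.1 ∧
      (UpperHalfPlane.ofComplex (pt w)).im = w.2 := fun w hw => by
    rw [UpperHalfPlane.ofComplex_apply_of_im_pos (by simpa [pt] using hw)]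
    simp [pt]
  obtain ⟨-, -, B, -, -, -, -, -, hB⟩ := S.geo
  have := Filter.eventually_atTop.2 (equi (ι := T) ⟨1, h1⟩ (fun i => S.p i) (fun i => log (S.τ i))
    (fun i j hi hj h => ?_) (fun i w => log (S.ht i (UpperHalfPlane.ofComplex (pt w))))
    (fun w hw => by rw [S.ht_one, (e w hw).2]) (fun i hi w hw => ?_) hρ A hA (fun i => θ i)
    (fun i => hθ i) (fun i => per i) hε)
  · simpa only [Finset.prod_coe_sort T fun i => (∫ t in (0 : ℝ)..2 * π, θ i t) / (2 * π),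
      fun l b w => Finset.prod_coe_sort T fun i =>
        θ i (l * log (S.ht i (UpperHalfPlane.ofComplex (pt w))) + b)] using this
  · by_contra hc
    have hi' : (i : FreeGroup α) ≠ 1 := fun e => hi (Subtype.ext e)
    have := hB i j hi' (fun e => hj (Subtype.ext e)) fun e => hc (Subtype.ext e)
    rw [h, sub_self, abs_zero, mul_zero] at this
    exact (S.τ_pos hi').not_ge this
  · have hi' : (i : FreeGroup α) ≠ 1 := fun e => hi (Subtype.ext e)
    have := S.τ_pos hi'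
    rw [S.ht_eq hi', (e w hw).1, (e w hw).2, log_div (by positivity) (by positivity),
      log_mul this.ne' hw.ne']

theorem mass (z₀ : ℍ) {ρ : ℝ} (ρ0 : 0 < ρ) (hρ : ρ ≤ z₀.im / 4) {T₀ T₁ : Finset (FreeGroup α)}
    (h0 : T₀ ⊆ T₁) (h1 : 1 ∈ T₁) (th : FreeGroup α → ℝ → ℝ) (tc : ∀ g, Continuous (th g))
    (tp : ∀ g, Function.Periodic (th g) (2 * π)) (t0 : ∀ g θ, 0 ≤ th g θ) (t1 : ∀ g θ, th g θ ≤ 1)
    {p : ℝ} (hp : p = ∏ g ∈ T₀, (∫ θ in (0 : ℝ)..2 * π, th g θ) / (2 * π)) (p0 : 0 < p)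
    {β : ℂ → ℂ → ℂ} {C a : ℝ} (C0 : 0 < C) (a0 : 0 < a)
    (bc : ContinuousOn (fun x : ℂ × ℂ => β x.1 x.2) (Metric.closedBall 0 1 ×ˢ Metric.closedBall 0 1))
    (bd : ∀ k, ‖k‖ ≤ 1 → ‖β k k‖ ≤ C) (hs : ∑ g ∈ T₁ \ T₀, S.amp z₀ g ^ 2 ≤ a / (16 * C))
    (Q : ℝ → ℝ → ℝ × ℝ → ℝ) (hQ : ∀ l b w, Q l b w = (∑ i ∈ T₁ \ T₀, ∑ j ∈ T₁ \ T₀,
      S.amp (UpperHalfPlane.ofComplex (pt w)) i * Complex.exp (Complex.I *
        (l * log (S.ht i (UpperHalfPlane.ofComplex (pt w))) + b : ℝ)) *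
      conj (S.amp (UpperHalfPlane.ofComplex (pt w)) j * Complex.exp (Complex.I *
        (l * log (S.ht j (UpperHalfPlane.ofComplex (pt w))) + b : ℝ))) *
      β (S.dir (UpperHalfPlane.ofComplex (pt w)) i) (S.dir (UpperHalfPlane.ofComplex (pt w)) j)).re)
    (Q0 : ∀ l b w, 0 ≤ Q l b w) : ∀ᶠ l : ℝ in Filter.atTop, ∀ b : ℝ,
      ENNReal.ofReal (p * volume.real (Sq z₀ ρ) / 2) ≤ volume {w ∈ Sq z₀ ρ |
        ∏ g ∈ T₀, th g (l * log (S.ht g (UpperHalfPlane.ofComplex (pt w))) + b) ≠ 0 ∧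
          Q l b w < a} := by
  have y0 := z₀.im_pos
  have m0 := vol (z₀ : ℂ) ρ0
  set m := volume.real (Sq (z₀ : ℂ) ρ) with hm
  have hU : IsCompact (Sq (z₀ : ℂ) ρ) := isCompact_Icc.prod isCompact_Icc
  have sub : Sq (z₀ : ℂ) ρ ⊆ {w | 0 < w.2} := fun w hw => (pos hρ hw).2
  have sub' : Sq (z₀ : ℂ) ρ ⊆ Sq z₀ (z₀.im / 4) :=
    prod_mono (Icc_subset_Icc (by linarith) (by linarith)) (Icc_subset_Icc (by linarith) (by linarith))
  have lt : ρ < (z₀ : ℂ).im := by rw [UpperHalfPlane.coe_im]; linarith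
  have ca := fun g => (S.cont_amp g).mono sub
  have cd := fun g => (S.cont_dir g).mono sub
  have cb : ∀ i j, ContinuousOn (fun w => β (S.dir (UpperHalfPlane.ofComplex (pt w)) i)
      (S.dir (UpperHalfPlane.ofComplex (pt w)) j)) (Sq (z₀ : ℂ) ρ) := fun i j =>
    bc.comp ((cd i).prodMk (cd j)) fun w _ => ⟨mem_closedBall_zero_iff.2 (S.dir_norm _ _).le,
      mem_closedBall_zero_iff.2 (S.dir_norm _ _).le⟩
  have cψ : ∀ (l b : ℝ) g, ContinuousOn
      (fun w => l * log (S.ht g (UpperHalfPlane.ofComplex (pt w))) + b) (Sq (z₀ : ℂ) ρ) := by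
    intro l b g
    refine (continuousOn_const.mul (ContinuousOn.log (((ca g).pow 2).congr fun w _ => ?_)
      fun w _ => (S.ht_pos _ _).ne')).add continuousOn_const
    exact (sq_sqrt (S.ht_pos _ _).le).symm
  obtain ⟨θ, hθ⟩ : ∃ θ : FreeGroup α → ℝ → ℂ, ∀ g t, θ g t = if g ∈ T₀ then (th g t : ℂ) else 1 :=
    ⟨_, fun _ _ => rfl⟩
  have θc : ∀ g, Continuous (θ g) := fun g => by
    rw [funext (hθ g)]
    split_ifs
    · exact Complex.continuous_ofReal.comp (tc g)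
    · exact continuous_const
  have θp : ∀ g, Function.Periodic (θ g) (2 * π) := fun g t => by rw [hθ, hθ, tp g t]
  have θe : ∀ ψ : FreeGroup α → ℝ, ∏ g ∈ T₁, θ g (ψ g) = (∏ g ∈ T₀, th g (ψ g) : ℝ) := fun ψ => by
    simp only [hθ]
    rw [Finset.prod_ite_mem, Finset.inter_eq_right.2 h0, Complex.ofReal_prod]
  have θm : ∏ g ∈ T₁, (∫ t in (0 : ℝ)..2 * π, θ g t) / (2 * π) = p := by
    rw [hp, Complex.ofReal_prod, ← Finset.inter_eq_right.2 h0, ← Finset.prod_ite_mem]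
    refine Finset.prod_congr rfl fun g _ => ?_
    simp only [hθ]
    split_ifs
    · rw [intervalIntegral.integral_ofReal]
      push_cast
      rfl
    · simp [pi_ne_zero]
  obtain ⟨N, hN⟩ : ∃ N : ℝ, N = (T₁ \ T₀).card := ⟨_, rfl⟩
  have N0 : 0 ≤ N := hN ▸ Nat.cast_nonneg _
  have ε0 : 0 < p * m * a / (8 * (N ^ 2 + 1)) := by positivity
  have ep : ∀ s : ℂ, s * (2 * π : ℝ) = 2 * π * Complex.I ∨ s * (2 * π : ℝ) = -(2 * π * Complex.I) →
      Function.Periodic (fun t : ℝ => Complex.exp (s * t)) (2 * π) := fun s h t => by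
    simp only
    rw [Complex.ofReal_add, mul_add, Complex.exp_add]
    rcases h with h | h <;> rw [h] <;> simp [Complex.exp_neg]
  have H2 : ∀ᶠ l : ℝ in Filter.atTop, ∀ i ∈ T₁ \ T₀, ∀ j ∈ T₁ \ T₀, i ≠ j → ∀ b : ℝ,
      ‖∫ w in Sq (z₀ : ℂ) ρ,
        (∏ g ∈ T₀, th g (l * log (S.ht g (UpperHalfPlane.ofComplex (pt w))) + b) : ℝ) *
        (S.amp (UpperHalfPlane.ofComplex (pt w)) i * Complex.exp (Complex.I *
          (l * log (S.ht i (UpperHalfPlane.ofComplex (pt w))) + b : ℝ)) *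
        conj (S.amp (UpperHalfPlane.ofComplex (pt w)) j * Complex.exp (Complex.I *
          (l * log (S.ht j (UpperHalfPlane.ofComplex (pt w))) + b : ℝ))) *
        β (S.dir (UpperHalfPlane.ofComplex (pt w)) i)
          (S.dir (UpperHalfPlane.ofComplex (pt w)) j))‖ ≤ p * m * a / (8 * (N ^ 2 + 1)) := by
    refine (Filter.eventually_all_finset _).2 fun i hi => (Filter.eventually_all_finset _).2
      fun j hj => ?_
    by_cases hij : i = j
    · exact .of_forall fun l h => absurd hij h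
    obtain ⟨i1, i0⟩ := Finset.mem_sdiff.1 hi
    filter_upwards [equi' S h1 lt (fun w => S.amp (UpperHalfPlane.ofComplex (pt w)) i *
      S.amp (UpperHalfPlane.ofComplex (pt w)) j * β (S.dir (UpperHalfPlane.ofComplex (pt w)) i)
        (S.dir (UpperHalfPlane.ofComplex (pt w)) j))
      (((Complex.continuous_ofReal.comp_continuousOn (ca i)).mul
        (Complex.continuous_ofReal.comp_continuousOn (ca j))).mul (cb i j))
      (fun g t => θ g t * (if i = g then Complex.exp (Complex.I * t) else 1) *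
        (if j = g then Complex.exp (-Complex.I * t) else 1))
      (fun g => ((θc g).mul (by split_ifs <;> fun_prop)).mul (by split_ifs <;> fun_prop))
      (fun g t => by
        have e1 := ep Complex.I (Or.inl (by push_cast; ring)) t
        have e2 := ep (-Complex.I) (Or.inr (by push_cast; ring)) t
        simp only at e1 e2 ⊢
        rw [θp g t, e1, e2]) ε0] with l hl _ b
    have := hl b
    rw [Finset.prod_eq_zero i1, mul_zero, sub_zero] at this
    · refine le_trans (le_of_eq ?_) this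
      congr 2
      funext w
      rw [Finset.prod_mul_distrib, Finset.prod_mul_distrib, θe, Finset.prod_ite_eq,
        Finset.prod_ite_eq, if_pos i1, if_pos (Finset.mem_sdiff.1 hj).1, map_mul,
        Complex.conj_ofReal, ← Complex.exp_conj, map_mul, Complex.conj_ofReal, Complex.conj_I]
      ring
    · simp only [hθ, if_neg i0, if_neg (Ne.symm hij), if_true, one_mul, mul_one]
      have e1 := ep Complex.I (Or.inl (by push_cast; ring)) 0
      simp only [zero_add] at e1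
      rw [integral_exp_mul_complex Complex.I_ne_zero, e1]
      simp
  filter_upwards [H2, equi' S h1 lt (fun _ => 1) continuousOn_const θ θc θp
    (show 0 < p * m / 6 by positivity)] with l h2 h3 b
  have cΘ : ContinuousOn (fun w => ∏ g ∈ T₀,
      th g (l * log (S.ht g (UpperHalfPlane.ofComplex (pt w))) + b)) (Sq (z₀ : ℂ) ρ) :=
    continuousOn_finsetProd _ fun g _ => (tc g).comp_continuousOn (cψ l b g)
  have cc : ∀ g, ContinuousOn (fun w => S.amp (UpperHalfPlane.ofComplex (pt w)) g *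
      Complex.exp (Complex.I * (l * log (S.ht g (UpperHalfPlane.ofComplex (pt w))) + b : ℝ)))
      (Sq (z₀ : ℂ) ρ) := fun g => (Complex.continuous_ofReal.comp_continuousOn (ca g)).mul
    (continuousOn_const.mul (Complex.continuous_ofReal.comp_continuousOn (cψ l b g))).cexp
  have cF := fun i j => ((cc i).mul (Complex.continuous_conj.comp_continuousOn (cc j))).mul (cb i j)
  have Θ0 : ∀ w ∈ Sq (z₀ : ℂ) ρ, 0 ≤ ∏ g ∈ T₀,
      th g (l * log (S.ht g (UpperHalfPlane.ofComplex (pt w))) + b) :=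
    fun w _ => Finset.prod_nonneg fun g _ => t0 _ _
  have h4 := second (T₁ \ T₀) hU cΘ cF (fun g => 4 * C * S.amp z₀ g ^ 2) (fun i _ w hw => by
    have b1 := S.amp_le z₀ i (sub' hw)
    have b2 := bd _ (S.dir_norm (UpperHalfPlane.ofComplex (pt w)) i).le
    have b3 : 0 ≤ S.amp (UpperHalfPlane.ofComplex (pt w)) i := sqrt_nonneg _
    simp only [Pi.mul_apply, Function.comp_apply, norm_mul, Complex.norm_conj,
      Complex.norm_exp_I_mul_ofReal, mul_one, Complex.norm_real, Real.norm_of_nonneg b3]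
    refine (mul_le_mul (mul_self_le_mul_self b3 b1) b2 (norm_nonneg _) (mul_self_nonneg _)).trans
      (le_of_eq ?_)
    ring) Θ0 ε0.le fun i hi j hj h => h2 i hi j hj h b
  have h5 := h3 b
  simp only [one_mul, θe, θm] at h5
  rw [integral_complex_ofReal, setIntegral_const, ← hm, Complex.real_smul, mul_one, ← Complex.ofReal_mul,
    ← Complex.ofReal_sub, Complex.norm_real, Real.norm_eq_abs, abs_le] at h5
  refine le_trans (ENNReal.ofReal_le_ofReal ?_) (cheb hU cΘ (Q := Q l b) ?_ Θ0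
    (fun w _ => Finset.prod_le_one (fun g _ => t0 _ _) fun g _ => t1 _ _) (fun w _ => Q0 l b w) a0)
  · simp only [hQ]
    simp only [Pi.mul_apply, Function.comp_apply] at h4
    rw [← Finset.mul_sum, ← hN] at h4
    have h6 : 4 * C * ∑ g ∈ T₁ \ T₀, S.amp z₀ g ^ 2 ≤ a / 4 := by
      rw [le_div_iff₀ (by positivity)] at hs
      linarith
    have h7 : N ^ 2 * (p * m * a / (8 * (N ^ 2 + 1))) ≤ p * m * a / 8 := by
      rw [mul_div_assoc', div_le_div_iff₀ (by positivity) (by positivity)]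
      have : 0 < p * m * a := by positivity
      nlinarith
    have h8 := mul_pos p0 m0
    have h9 := mul_le_mul_of_nonneg_right h6 (setIntegral_nonneg (μ := volume) hU.measurableSet Θ0)
    rw [le_sub_comm, div_le_iff₀ a0]
    have h10 := mul_le_mul_of_nonneg_right h5.1 a0.le
    have h11 := mul_pos h8 a0
    linarith
  · rw [funext (hQ l b)]
    exact Complex.continuous_re.comp_continuousOn
      (continuousOn_finsetSum _ fun i _ => continuousOn_finsetSum _ fun j _ => cF i j)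

end C2b

variable {α : Type} [Fintype α] [DecidableEq α] [Inhabited α] (S : SchottkyData α)

theorem SchottkyData.good_set (z₀ : ℍ) (hB : BP (S.amp z₀) (S.dir z₀)) (E : ℝ → ℍ → ℂ)
    (hT : ∀ (R ε ϑ : ℝ), 0 < ε → 0 < ϑ → ∀ T₀, ∃ T₁ ⊇ T₀, ∃ l₁ : ℝ, ∀ l ≥ l₁,
      volume {w ∈ Sq z₀ (z₀.im / 4) | ∃ v : ℂ, ‖v‖ ≤ R ∧
        ε < ‖E l (UpperHalfPlane.ofComplex (pt w + v / l)) -
          S.blk T₁ (1 / 2 + l * Complex.I) (UpperHalfPlane.ofComplex (pt w + v / l))‖}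
        ≤ ENNReal.ofReal ϑ) :
    ∃ (D : Set ℂ) (x₀ : ℂ), IsOpen D ∧ Bornology.IsBounded D ∧ x₀ ∈ D ∧ ∀ ρ₁ > 0,
      ∃ ρ ∈ Ioc 0 ρ₁, ∃ c > 0, ∃ l₁ : ℝ, ∀ l ≥ l₁, ∀ C : ℂ, C ≠ 0 → ENNReal.ofReal c ≤
        volume {w ∈ Sq z₀ ρ |
          0 < (C * E l (UpperHalfPlane.ofComplex (pt w + z₀.im / l * x₀))).re ∧ ∀ x ∈ frontier D,
            (C * E l (UpperHalfPlane.ofComplex (pt w + z₀.im / l * x))).re < 0} := by
  obtain ⟨D, x₀, η, d1, d2, d3, η0, H⟩ := hB
  refine ⟨D, x₀, d1, d2, d3, fun ρ₁ h₁ => ?_⟩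
  have y0 := z₀.im_pos
  obtain ⟨R, R0, hR⟩ := d2.closure.exists_pos_norm_le
  obtain ⟨β, C, C0, bc, bd, bs⟩ := sup_planar (2 * R)
  obtain ⟨T₀, t, w1, w2, w3⟩ := H ((η / 8) ^ 2 / (16 * C)) (by positivity)
  have a0 : ∀ g, 0 ≤ S.amp z₀ g := fun g => sqrt_nonneg _
  have A0 : 0 ≤ ∑ g ∈ T₀, S.amp z₀ g := Finset.sum_nonneg fun g _ => a0 g
  have κ0 : 0 < η / 8 / (∑ g ∈ T₀, S.amp z₀ g + 1) := by positivity
  choose th tc tp t0 t1 tk ti using fun g => C2b.bump (t g) κ0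
  obtain ⟨p, hp⟩ : ∃ p, p = ∏ g ∈ T₀, (∫ θ in (0 : ℝ)..2 * π, th g θ) / (2 * π) := ⟨_, rfl⟩
  have p0 : 0 < p := hp ▸ Finset.prod_pos fun g _ => div_pos (ti g) two_pi_pos
  obtain ⟨ρ, hρ, hρ', hn⟩ := C2b.near S z₀ T₀ R (show 0 < η / 8 by positivity) h₁
  have m0 := C2b.vol (z₀ : ℂ) hρ.1
  have c0 : 0 < p * volume.real (Sq (z₀ : ℂ) ρ) / 4 := by positivity
  obtain ⟨T₁, h01, l₁, hl₁⟩ := hT (z₀.im * R) (η / 8) _ (by positivity) c0 (insert 1 T₀)
  have h0 : T₀ ⊆ T₁ := (Finset.subset_insert _ _).trans h01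
  have ε0 : 0 < η / 8 / (T₁.card + 1) := by positivity
  have sub' : Sq (z₀ : ℂ) ρ ⊆ Sq z₀ (z₀.im / 4) :=
    prod_mono (Icc_subset_Icc (by linarith) (by linarith)) (Icc_subset_Icc (by linarith) (by linarith))
  refine ⟨ρ, hρ, _, c0, Filter.eventually_atTop.1 ?_⟩
  filter_upwards [C2b.mass S z₀ hρ.1 hρ' h0 (h01 (Finset.mem_insert_self _ _)) th tc tp t0 t1 hp p0
    C0 (show 0 < (η / 8) ^ 2 by positivity) bc bd (w3 _ Finset.sdiff_disjoint) _ (fun _ _ _ => rfl)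
    fun l b w => (sq_nonneg _).trans (bs _ _ _ _ (fun g => (S.dir_norm _ g).le) 0
      (by rw [norm_zero]; positivity)), (Filter.eventually_all_finset T₁).2 fun g _ =>
      Filter.eventually_atTop.2 (S.linearise z₀ g R ε0), Filter.eventually_ge_atTop l₁]
    with l h2 h3 h4 c hc
  refine ENNReal.le_of_add_le_add_right ENNReal.ofReal_ne_top (le_trans ?_ ((h2 c.arg).trans
    ((measure_mono fun w hw => ?_).trans ((measure_union_le _ _).trans
      (add_le_add le_rfl (hl₁ l h4))))))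
  · rw [← ENNReal.ofReal_add c0.le c0.le]
    exact ENNReal.ofReal_le_ofReal (le_of_eq (by ring))
  obtain ⟨hw, k1, k2⟩ := hw
  refine or_iff_not_imp_right.2 fun k3 => ⟨hw, ?_⟩
  obtain ⟨y1, y2⟩ := C2b.pos hρ' hw
  have key : ∀ x : ℂ, ‖x‖ ≤ R → |(Complex.exp (Complex.I * c.arg) *
      E l (UpperHalfPlane.ofComplex (pt w + z₀.im / l * x))).re -
      wave (S.amp z₀) (S.dir z₀) t T₀ x| ≤ 5 * (η / 8) := fun x hx => by
    refine C2b.close h0 (s := (z₀.im : ℂ) / w.2) (by simp) a0 hx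
      (fun g hg => tk g _ (Finset.prod_ne_zero_iff.1 k1 g hg)) (not_lt.1 fun h => k3
        ⟨sub' hw, z₀.im * x, ?_, ?_⟩) (fun g hg => h3 g hg w (sub' hw) x hx) ?_ ?_ (hn w hw) ?_
    · rw [norm_mul, Complex.norm_real, Real.norm_of_nonneg y0.le]
      exact mul_le_mul_of_nonneg_left hx y0.le
    · rwa [mul_div_right_comm]
    · rw [mul_div_assoc', div_le_iff₀ (by positivity)]
      linarith
    · refine abs_le_of_sq_le_sq' ((bs _ _ _ _ (fun g => (S.dir_norm _ g).le) _ ?_).trans k2.le)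
        (by positivity) |>.2
      rw [norm_mul, norm_div, Complex.norm_real, Complex.norm_real, Real.norm_of_nonneg y0.le,
        Real.norm_of_nonneg y2.le]
      exact mul_le_mul ((div_le_iff₀ y2).2 (by linarith)) hx (norm_nonneg _) zero_le_two
    · rw [mul_div_assoc', div_le_iff₀ (by positivity)]
      linarith
  have e : ∀ u : ℂ, (c * u).re = ‖c‖ * (Complex.exp (Complex.I * c.arg) * u).re := fun u => by
    rw [← Complex.re_ofReal_mul, ← mul_assoc, mul_comm Complex.I, Complex.norm_mul_exp_arg_mul_I]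
  have n0 := norm_pos_iff.2 hc
  refine ⟨?_, fun x hx => ?_⟩
  · have := (abs_le.1 (key x₀ (hR _ (subset_closure d3)))).1
    rw [e]
    exact mul_pos n0 (by linarith)
  · have := (abs_le.1 (key x (hR _ (frontier_subset_closure hx)))).2
    have := w2 x hx
    rw [e]
    exact mul_neg_of_pos_of_neg n0 (by linarith)

end Pool.Agent.Lib.MP_e1e19a_an
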