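import Pool.Agent.Lib.MP_e1e19a_an.N.Core
import Pool.Agent.Lib.MP_e1e19a_an.H26Quot

/-!
From good points to nodal domains on the quotient.
-/

namespace Pool.Agent.Lib.MP_e1e19a_an

open Real MeasureTheory Set
open scoped MatrixGroups ComplexConjugate UpperHalfPlane

namespace C3

theorem sep_step (G : Set (ℝ × ℝ)) {c δ : ℝ} (hδ : 0 < δ) (hG : ENNReal.ofReal c ≤ volume G)
    (n : ℕ) : ∃ P : Finset (ℝ × ℝ), (↑P : Set (ℝ × ℝ)) ⊆ G ∧
      (∀ p ∈ P, ∀ q ∈ P, p ≠ q → δ < dist p q) ∧ (P.card = n ∨ c ≤ P.card * (2 * δ) ^ 2) := by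
  classical
  induction n with
  | zero => exact ⟨∅, by simp, by simp, Or.inl rfl⟩
  | succ n ih =>
    obtain ⟨P, h1, h2, h3⟩ := ih
    rcases h3 with h3 | h3
    · by_cases hc : G ⊆ ⋃ p ∈ P, Metric.closedBall p δ
      · refine ⟨P, h1, h2, Or.inr ?_⟩
        have e : ∀ p : ℝ × ℝ, volume (Metric.closedBall p δ) = ENNReal.ofReal ((2 * δ) ^ 2) := by
          intro p
          rw [← closedBall_prod_same, Measure.volume_eq_prod, Measure.prod_prod,
            Real.volume_closedBall, Real.volume_closedBall, ← ENNReal.ofReal_mul (by positivity), sq]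
        have := hG.trans ((measure_mono hc).trans (measure_biUnion_finset_le P _))
        simp only [e, Finset.sum_const, nsmul_eq_mul] at this
        rw [← ENNReal.ofReal_natCast, ← ENNReal.ofReal_mul (by positivity)] at this
        exact (ENNReal.ofReal_le_ofReal_iff (by positivity)).1 this
      · obtain ⟨w, hw, hw'⟩ := not_subset.1 hc
        simp only [mem_iUnion, Metric.mem_closedBall, not_exists, not_le] at hw'
        have hn : w ∉ P := fun h => by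
          have := hw' w h
          rw [dist_self] at this
          exact absurd this (not_lt.2 hδ.le)
        refine ⟨insert w P, ?_, ?_, Or.inl (by rw [Finset.card_insert_of_notMem hn, h3])⟩
        · rw [Finset.coe_insert]
          exact insert_subset hw h1
        · intro p hp q hq hpq
          rcases Finset.mem_insert.1 hp with rfl | hp' <;>
            rcases Finset.mem_insert.1 hq with rfl | hq'
          · exact absurd rfl hpq
          · exact hw' q hq'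
          · rw [dist_comm]; exact hw' p hp'
          · exact h2 p hp' q hq' hpq
    · exact ⟨P, h1, h2, Or.inr h3⟩

theorem sep (G : Set (ℝ × ℝ)) {c δ : ℝ} (hδ : 0 < δ) (hG : ENNReal.ofReal c ≤ volume G) :
    ∃ P : Finset (ℝ × ℝ), (↑P : Set (ℝ × ℝ)) ⊆ G ∧
      (∀ p ∈ P, ∀ q ∈ P, p ≠ q → δ < dist p q) ∧ c ≤ P.card * (2 * δ) ^ 2 := by
  obtain ⟨n, hn⟩ := exists_nat_ge (c / (2 * δ) ^ 2)
  obtain ⟨P, h1, h2, h3⟩ := sep_step G hδ hG n
  refine ⟨P, h1, h2, ?_⟩
  rcases h3 with h3 | h3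
  · rw [h3]
    exact (div_le_iff₀ (by positivity)).1 hn
  · exact h3

theorem quot (Γ : Subgroup SL(2, ℝ)) [ProperlyDiscontinuousSMul Γ ℍ]
    (free : ∀ (γ : Γ) (z : ℍ), γ • z = z → γ = 1) (z : ℍ)
    {V W : Set ℍ} (inj : ∀ γ : Γ, ((γ • ·) '' V ∩ V).Nonempty → γ • z = z)
    (G : ℍ → ℝ) (cG : Continuous G) (hG : ∀ (γ : Γ) (z : ℍ), G (γ • z) = G z)
    {ι : Type} (P : Finset ι) (U : ι → Set ℍ) (p : ι → ℍ)
    (h2 : ∀ m ∈ P, IsOpen (U m) ∧ closure (U m) ⊆ W ∩ (V ∩ Metric.closedBall z 1) ∧ p m ∈ U m ∧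
      0 < G (p m) ∧ ∀ q ∈ closure (U m), q ∉ U m → G q < 0)
    (h3 : ∀ m ∈ P, ∀ m' ∈ P, ∀ w, w ∈ U m → w ∈ U m' → m = m') :
    ∃ 𝒟 : Finset (Set (Surf Γ)), 𝒟.card = P.card ∧ ∀ D' ∈ 𝒟, IsNodalDomain Γ G D' ∧
        IsCompact (closure D') ∧ closure D' ⊆ proj Γ '' W := by
  classical
  have iG : ∀ a b : ℍ, MulAction.orbitRel Γ ℍ a b → G a = G b := by
    rintro _ b ⟨g, rfl⟩
    exact hG g b
  have eN : proj Γ '' {z | G z = 0} = {q | Quotient.lift G iG q = 0} := by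
    ext ⟨a⟩
    exact ⟨fun ⟨b, h, e⟩ => (iG _ _ (Quotient.exact e)).symm.trans h, fun h => ⟨a, h, rfl⟩⟩
  have cK : ∀ m ∈ P, IsCompact (proj Γ '' closure (U m)) := fun m hm =>
    ((isCompact_closedBall z 1).of_isClosed_subset isClosed_closure
      fun w hw => ((h2 m hm).2.1 hw).2.2).image continuous_quot_mk
  have cl : ∀ m ∈ P, closure (proj Γ '' U m) ⊆ proj Γ '' closure (U m) := fun m hm =>
    closure_minimal (image_mono subset_closure) (cK m hm).isClosed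
  have sub : ∀ m ∈ P, connectedComponentIn {q | Quotient.lift G iG q = 0}ᶜ (proj Γ (p m))
      ⊆ proj Γ '' U m := fun m hm => comp_subset _ (cG.quotient_lift iG) _
    (isOpenMap_quotient_mk'_mul _ (h2 m hm).1) _ (mem_image_of_mem _ (h2 m hm).2.2.1)
    (h2 m hm).2.2.2.1
    fun q hq hq' => by
      obtain ⟨w, hw, rfl⟩ := cl m hm hq
      exact (h2 m hm).2.2.2.2 w hw fun h => hq' (mem_image_of_mem _ h)
  refine ⟨P.image fun m => connectedComponentIn {q | Quotient.lift G iG q = 0}ᶜ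
    (proj Γ (p m)), ?_, fun D hD => ?_⟩
  · refine Finset.card_image_of_injOn fun m hm m' hm' e => ?_
    obtain ⟨w, hw, e'⟩ := sub m' hm' (e.le (mem_connectedComponentIn (h2 m hm).2.2.2.1.ne'))
    obtain ⟨g, hg⟩ := Quotient.exact e'
    have a1 := ((h2 m hm).2.1 (subset_closure (h2 m hm).2.2.1)).2.1
    have a2 := ((h2 m' hm').2.1 (subset_closure hw)).2.1
    have := free g z (inj g ⟨w, ⟨p m, a1, hg⟩, a2⟩)
    simp only [this, one_smul] at hg
    exact h3 m hm m' hm' w (hg ▸ (h2 m hm).2.2.1) hw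
  · obtain ⟨m, hm, rfl⟩ := Finset.mem_image.1 hD
    have := (closure_mono (sub m hm)).trans (cl m hm)
    exact ⟨⟨proj Γ (p m), eN ▸ (h2 m hm).2.2.2.1.ne', by rw [eN]⟩,
      (cK m hm).of_isClosed_subset isClosed_closure this,
      this.trans (image_mono fun w hw => ((h2 m hm).2.1 hw).1)⟩

theorem near {z : ℂ} {ρ : ℝ} {w : ℝ × ℝ} (hw : w ∈ Sq z ρ) : ‖pt w - z‖ ≤ 2 * ρ := by
  obtain ⟨⟨a1, a2⟩, a3, a4⟩ := hw
  refine (Complex.norm_le_abs_re_add_abs_im _).trans ?_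
  have e1 : (pt w - z).re = w.1 - z.re := by simp [pt]
  have e2 : (pt w - z).im = w.2 - z.im := by simp [pt]
  rw [e1, e2]
  have := abs_le.2 (⟨by linarith, by linarith⟩ : -ρ ≤ w.1 - z.re ∧ w.1 - z.re ≤ ρ)
  have := abs_le.2 (⟨by linarith, by linarith⟩ : -ρ ≤ w.2 - z.im ∧ w.2 - z.im ≤ ρ)
  linarith

theorem dist_le (w w' : ℝ × ℝ) : dist w w' ≤ ‖pt w - pt w'‖ := by
  have e1 : (pt w - pt w').re = w.1 - w'.1 := by simp [pt]
  have e2 : (pt w - pt w').im = w.2 - w'.2 := by simp [pt]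
  rw [Prod.dist_eq, Real.dist_eq, Real.dist_eq, ← e1, ← e2]
  exact max_le (Complex.abs_re_le_norm _) (Complex.abs_im_le_norm _)

theorem radius (z : ℍ) {V : Set ℍ} (hV : V ∈ nhds z) :
    ∃ r > 0, r < z.im ∧ ∀ q : ℍ, ‖(q : ℂ) - z‖ ≤ r → q ∈ V := by
  rw [UpperHalfPlane.isOpenEmbedding_coe.isInducing.nhds_eq_comap, Filter.mem_comap] at hV
  obtain ⟨T, hT, hs⟩ := hV
  obtain ⟨ε, ε0, hε⟩ := Metric.mem_nhds_iff.1 hT
  have := z.im_pos
  refine ⟨min ε z.im / 2, by positivity, ?_, fun q hq => hs (hε ?_)⟩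
  · have := min_le_right ε z.im
    linarith
  · have := min_le_left ε z.im
    rw [Metric.mem_ball, dist_eq_norm]
    linarith

end C3

theorem count_domains (Γ : Subgroup SL(2, ℝ)) [ProperlyDiscontinuousSMul Γ ℍ]
    (free : ∀ (γ : Γ) (z : ℍ), γ • z = z → γ = 1) (z₀ : ℍ) {W : Set ℍ} (hW : W ∈ nhds z₀)
    {D : Set ℂ} {x₀ : ℂ} (h1 : IsOpen D) (h2 : Bornology.IsBounded D) (h3 : x₀ ∈ D) :
    ∃ ρ₁ > 0, ∀ ρ ∈ Ioc 0 ρ₁, ∀ c > 0, ∃ c' > 0, ∃ l₁ : ℝ, ∀ l ≥ l₁, ∀ F : ℍ → ℝ, Continuous F →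
      (∀ (γ : Γ) (z : ℍ), F (γ • z) = F z) → ENNReal.ofReal c ≤ volume {w ∈ Sq z₀ ρ |
        0 < F (UpperHalfPlane.ofComplex (pt w + z₀.im / l * x₀)) ∧ ∀ x ∈ frontier D,
          F (UpperHalfPlane.ofComplex (pt w + z₀.im / l * x)) < 0} →
      ∃ 𝒟 : Finset (Set (Surf Γ)), c' * l ^ 2 ≤ 𝒟.card ∧ ∀ D' ∈ 𝒟, IsNodalDomain Γ F D' ∧
        IsCompact (closure D') ∧ closure D' ⊆ proj Γ '' W := by
  obtain ⟨V, hV, inj⟩ := ProperlyDiscontinuousSMul.exists_nhds_image_smul_eq_self Γ z₀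
  obtain ⟨r, r0, ry, hr⟩ := C3.radius z₀
    (Filter.inter_mem hW (Filter.inter_mem hV (Metric.closedBall_mem_nhds z₀ one_pos)))
  obtain ⟨R, R0, hR⟩ := h2.closure.exists_pos_norm_le
  have y0 := z₀.im_pos
  refine ⟨r / 4, by positivity, fun ρ hρ c c0 => ⟨c / (4 * z₀.im * R) ^ 2, by positivity,
    2 * z₀.im * R / r, fun l hl F cF iF hvol => ?_⟩⟩
  have l0 : 0 < l := lt_of_lt_of_le (by positivity) hl
  obtain ⟨t, ht⟩ : ∃ t : ℝ, t = z₀.im / l := ⟨_, rfl⟩
  have t0 : 0 < t := ht ▸ div_pos y0 l0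
  have tc : (t : ℂ) ≠ 0 := Complex.ofReal_ne_zero.2 t0.ne'
  have et : (z₀.im : ℂ) / l = t := by rw [ht]; push_cast; rfl
  have tR : t * R ≤ r / 2 := by
    rw [ht, div_mul_eq_mul_div, div_le_iff₀ l0]
    have := (div_le_iff₀ r0).1 hl
    linarith
  rw [et] at hvol
  obtain ⟨P, p1, p2, p3⟩ := C3.sep _ (δ := 2 * (t * R)) (by positivity) hvol
  have nx : ∀ x ∈ closure D, ‖(t : ℂ) * x‖ ≤ t * R := fun x hx => by
    rw [norm_mul, Complex.norm_real, Real.norm_of_nonneg t0.le]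
    exact mul_le_mul_of_nonneg_left (hR x hx) t0.le
  have cl : ∀ w ∈ P, ∀ x ∈ closure D, ‖pt w + t * x - z₀‖ ≤ r := fun w hw x hx => by
    have a := C3.near (p1 hw).1
    have b := nx x hx
    have := norm_add_le (pt w - z₀) (t * x)
    rw [add_sub_right_comm]
    linarith [hρ.2]
  have pos : ∀ w ∈ P, ∀ x ∈ closure D, 0 < (pt w + t * x).im := fun w hw x hx => by
    have a := (abs_le.1 ((Complex.abs_im_le_norm _).trans (cl w hw x hx))).1
    rw [Complex.sub_im, UpperHalfPlane.coe_im] at a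
    linarith
  have cont : ∀ w : ℝ × ℝ, Continuous fun q : ℍ => ((q : ℂ) - pt w) / t := fun w =>
    (UpperHalfPlane.continuous_coe.sub continuous_const).div_const _
  have back : ∀ (w : ℝ × ℝ) (q : ℂ), pt w + t * ((q - pt w) / t) = q := fun w q => by
    field_simp
    ring
  obtain ⟨𝒟, d1, d2⟩ := C3.quot Γ free z₀ (W := W) inj F cF iF P
    (fun w => (fun q : ℍ => ((q : ℂ) - pt w) / t) ⁻¹' D)
    (fun w => UpperHalfPlane.ofComplex (pt w + t * x₀)) (fun w hw => by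
      have sub := (cont w).closure_preimage_subset D
      refine ⟨h1.preimage (cont w), fun q hq => hr q ?_, ?_, (p1 hw).2.1, fun q hq hq' => ?_⟩
      · have := cl w hw _ (sub hq)
        rwa [back] at this
      · rw [mem_preimage, UpperHalfPlane.ofComplex_apply_of_im_pos
          (pos w hw x₀ (subset_closure h3))]
        simpa [tc] using h3
      · have := (p1 hw).2.2 (((q : ℂ) - pt w) / t) (by rw [h1.frontier_eq]; exact ⟨sub hq, hq'⟩)
        rwa [back, UpperHalfPlane.ofComplex_apply] at this)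
    (fun w hw w' hw' q a b => by
      by_contra hne
      have c1 := nx _ (subset_closure a)
      have c2 := nx _ (subset_closure b)
      have c3 := p2 w hw w' hw' hne
      have c4 := C3.dist_le w w'
      have e : pt w - pt w' = t * (((q : ℂ) - pt w') / t) - t * (((q : ℂ) - pt w) / t) := by
        field_simp
        ring
      have := norm_sub_le (t * (((q : ℂ) - pt w') / t)) (t * (((q : ℂ) - pt w) / t))
      rw [← e] at this
      linarith)
  refine ⟨𝒟, ?_, d2⟩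
  rw [d1, div_mul_eq_mul_div, div_le_iff₀ (by positivity)]
  have e : (2 * (2 * (t * R))) ^ 2 * l ^ 2 = (4 * z₀.im * R) ^ 2 := by
    rw [ht]
    field_simp
    ring
  rw [← e, ← mul_assoc]
  exact mul_le_mul_of_nonneg_right p3 (by positivity)

end Pool.Agent.Lib.MP_e1e19a_an
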