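import Pool.Agent.Lib.MP_e1e19a_an.N.Defs

/-!
Working definitions for the proof of the lower bound on compact nodal domains.
-/

namespace Pool.Agent.Lib.MP_e1e19a_an

open Real MeasureTheory Set
open scoped MatrixGroups ComplexConjugate UpperHalfPlane

noncomputable section

/-! ### Schottky groups -/

section Schottky

variable {α : Type} [DecidableEq α]

/-- the matrix of a word -/
def SchottkyData.M (S : SchottkyData α) : FreeGroup α →* SL(2, ℝ) := FreeGroup.lift S.gen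

/-- the image of `∞` under a word -/
def SchottkyData.p (S : SchottkyData α) (g : FreeGroup α) : ℝ := S.M g 0 0 / S.M g 1 0

/-- the size of a word (`0` for the empty word) -/
def SchottkyData.τ (S : SchottkyData α) (g : FreeGroup α) : ℝ := (S.M g 1 0 ^ 2)⁻¹

/-- first letter of a reduced word -/
def hd [Inhabited α] (g : FreeGroup α) : α × Bool := g.toWord.headI

/-- parity of a word -/
def par (g : FreeGroup α) : Bool := decide (FreeGroup.lift (fun _ : α => (-1 : ℤˣ)) g = 1)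

/-- accumulation points of the points `p g` -/
def SchottkyData.Lam (S : SchottkyData α) : Set ℝ :=
  {ξ | ∀ ε > 0, ∃ g, g ≠ 1 ∧ S.τ g ≤ ε ∧ |S.p g - ξ| ≤ ε}

/-- `Z` is the set of words whose size drops below `t` for the first time, `Sf` the set of
nonempty words all of whose proper prefixes have size above `t`. -/
structure SchottkyData.Part [Inhabited α] (S : SchottkyData α) (c₀ t : ℝ)
    (Z Sf : Finset (FreeGroup α)) : Prop where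
  sub : Z ⊆ Sf
  ne : ∀ b ∈ Sf, b ≠ 1
  low : ∀ b ∈ Sf, c₀ * t ≤ S.τ b
  up : ∀ w ∈ Z, S.τ w ≤ t
  mem : ∀ b ∈ Sf, S.τ b ≤ t → b ∈ Z
  dec : ∀ g, g ≠ 1 → g ∉ Sf → ∃ w ∈ Z, ∃ h, h ≠ 1 ∧ hd h ≠ hd w⁻¹ ∧ g = w * h
  uniq : ∀ w ∈ Z, ∀ w' ∈ Z, ∀ h h', h ≠ 1 → h' ≠ 1 → hd h ≠ hd w⁻¹ → hd h' ≠ hd w'⁻¹ →
    w * h = w' * h' → w = w'
  notin : ∀ w ∈ Z, ∀ h, h ≠ 1 → hd h ≠ hd w⁻¹ → w * h ∉ Sf

/-- all reduced products `w * b` with `w ∈ Z`, `b ∈ T` -/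
def step [Inhabited α] (Z T : Finset (FreeGroup α)) : Finset (FreeGroup α) :=
  ((Z ×ˢ T).filter fun x => hd x.2 ≠ hd x.1⁻¹).image fun x => x.1 * x.2

/-- the blocks `Z ^ n * T` -/
def blocks [Inhabited α] (Z T : Finset (FreeGroup α)) (n : ℕ) : Finset (FreeGroup α) :=
  (step Z)^[n] T

/-- the height of the translate of a point -/
def SchottkyData.ht (S : SchottkyData α) (g : FreeGroup α) (z : ℍ) : ℝ := (S.M g⁻¹ • z).im

/-- a block of the Eisenstein series -/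
def SchottkyData.blk (S : SchottkyData α) (W : Finset (FreeGroup α)) (s : ℂ) (z : ℍ) : ℂ :=
  ∑ g ∈ W, ((S.ht g z : ℝ) : ℂ) ^ s

/-- the Eisenstein series summed by blocks, at the scale `η / l` -/
def SchottkyData.Eat [Inhabited α] (S : SchottkyData α) (Z Sf : ℝ → Finset (FreeGroup α))
    (η l : ℝ) (s : ℂ) (z : ℍ) : ℂ :=
  ((z.im : ℝ) : ℂ) ^ s + ∑' n, S.blk (blocks (Z (η / l)) (Sf (η / l)) n) s z

/-- amplitude of a wave at `z` -/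
def SchottkyData.amp (S : SchottkyData α) (z : ℍ) (g : FreeGroup α) : ℝ := √(S.ht g z)

/-- direction of a wave at `z` -/
def SchottkyData.dir (S : SchottkyData α) (z : ℍ) (g : FreeGroup α) : ℂ :=
  Complex.I * (S.M g 1 0 * z - S.M g 0 0) / (S.M g 1 0 * conj (z : ℂ) - S.M g 0 0)

/-- direction at `z` of the wave with pole `ξ` -/
def kd (z : ℂ) (ξ : ℝ) : ℂ := Complex.I * (z - ξ) / (conj z - ξ)

end Schottky

/-! ### Porous sets and multipliers -/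

/-- every interval of length `ℓ ∈ [a, b]` contains an interval of length `ν ℓ` that misses `X` -/
def Porous (X : Set ℝ) (ν a b : ℝ) : Prop :=
  ∀ x ℓ, a ≤ ℓ → ℓ ≤ b → ∃ y, x ≤ y ∧ y + ν * ℓ ≤ x + ℓ ∧ ∀ t ∈ X, t ∉ Icc y (y + ν * ℓ)

/-- the harmonic weight at height one -/
def pot {ι : Type} [Fintype ι] (w c r : ι → ℝ) (x : ℝ) : ℝ :=
  ∑ i, w i * (r i ^ 2 * (r i + 1) / ((r i + 1) ^ 2 + (x - c i) ^ 2))

/-- Fourier transform of `exp y` times a trigonometric polynomial, cut off to `[-b, b]` -/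
def mult (b : ℝ) (K : Finset ℤ) (A : ℤ → ℂ) (ξ : ℝ) : ℂ :=
  ∫ y in (-b)..b, (exp y : ℂ) * (∑ k ∈ K, A k * Complex.exp (Complex.I * (π * k * y / b))) *
    Complex.exp (-(Complex.I * (ξ * y)))

/-- a trigonometric polynomial of period `N` -/
def trig (N : ℝ) (T : Finset ℤ) (a : ℤ → ℂ) (x : ℝ) : ℂ :=
  ∑ n ∈ T, a n * Complex.exp (Complex.I * (2 * π * n / N * x))

/-! ### The transfer operator -/

/-- the kernel `((x - q) ^ 2) ^ (-s)` -/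
def ek (s : ℂ) (q : ℝ) (x : ℂ) : ℂ := Complex.exp (-s * Complex.log ((x - q) ^ 2))

/-- the kernel `(u - x) ^ (-s) (v - x) ^ (-s)` -/
def fk (s u v x : ℂ) : ℂ := Complex.exp (-s * (Complex.log (u - x) + Complex.log (v - x)))

/-- a complex neighbourhood of a real interval -/
def Box (a b δ : ℝ) : Set ℂ := {x | a - δ < x.re ∧ x.re < b + δ ∧ |x.im| < δ}

/-- the points of a family are pairwise `d` apart -/
def Sep {ι : Type} (q : ι → ℝ) (d : ℝ) : Prop := ∀ i j, i ≠ j → d ≤ |q i - q j|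

section Transfer

variable {α : Type} [DecidableEq α] [Inhabited α]

/-- the transfer operator of the partition `Z` -/
def SchottkyData.L (S : SchottkyData α) (Z : Finset (FreeGroup α)) (s : ℂ)
    (u : α × Bool → ℂ → ℂ) (j : α × Bool) (x : ℂ) : ℂ :=
  ∑ w ∈ Z with hd w⁻¹ ≠ j, Complex.exp (s * (log (S.τ w) : ℝ)) * ek s (S.p w⁻¹) x *
    u (hd w) (S.p w - S.τ w / (x - S.p w⁻¹))

/-- evaluation at infinity -/
def SchottkyData.ev (S : SchottkyData α) (T : Finset (FreeGroup α)) (s : ℂ)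
    (u : α × Bool → ℂ → ℂ) : ℂ :=
  ∑ b ∈ T, Complex.exp (s * (log (S.τ b) : ℝ)) * u (hd b) (S.p b)

/-- `u` is holomorphic near the points `p w`, `w ∈ Z`, with norm at most `A` -/
def SchottkyData.Good (S : SchottkyData α) (Z : Finset (FreeGroup α)) (h : ℝ)
    (u : α × Bool → ℂ → ℂ) (A : ℝ) : Prop :=
  (∀ w ∈ Z, DifferentiableOn ℂ (u (hd w)) (Metric.ball (S.p w : ℂ) (2 * h))) ∧
    ∀ x : FreeGroup α → ℂ, (∀ w ∈ Z, ‖x w - S.p w‖ ≤ h) →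
      h * ∑ w ∈ Z, ‖u (hd w) (x w)‖ ^ 2 ≤ A ^ 2

/-- the transfer operator at scale `η h` is a contraction -/
def SchottkyData.Contr (S : SchottkyData α) (c₀ η h₀ C₁ : ℝ) : Prop :=
  ∀ h ∈ Ioc 0 h₀, ∀ Z Sf, S.Part c₀ (η * h) Z Sf → ∀ s : ℂ, 0 ≤ s.re → s.re ≤ 3 →
    |s.im - 1 / h| ≤ 1 → (∀ w ∈ Z, S.τ w ^ s.re ≤ 2 * √(S.τ w)) → ∀ u A, 0 ≤ A →
    S.Good Z h u A → S.Good Z h (S.L Z s u) (A / 2) ∧
      h * ∑ b ∈ Sf, ‖S.L Z s u (hd b) (S.p b)‖ ^ 2 ≤ C₁ * A ^ 2 ∧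
      ∀ b ∈ Sf, h * ‖S.L Z s u (hd b) (S.p b)‖ ^ 2 ≤ C₁ * (∑ w ∈ Z, S.τ w) * A ^ 2

end Transfer

/-- a point of the plane -/
def pt (w : ℝ × ℝ) : ℂ := w.1 + w.2 * Complex.I

/-- a square of half-side `ρ` around `z` -/
def Sq (z : ℂ) (ρ : ℝ) : Set (ℝ × ℝ) := Icc (z.re - ρ) (z.re + ρ) ×ˢ Icc (z.im - ρ) (z.im + ρ)

/-! ### Plane waves -/

/-- the Euclidean scalar product -/
def dot (k x : ℂ) : ℝ := (conj k * x).re

section Waves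

variable {ι : Type}

/-- a finite sum of plane waves -/
def wave (a : ι → ℝ) (k : ι → ℂ) (t : ι → ℝ) (T : Finset ι) (x : ℂ) : ℝ :=
  ∑ i ∈ T, a i * cos (dot (k i) x + t i)

/-- finitely many waves have a closed nodal curve with a margin that beats the other waves -/
def BP (a : ι → ℝ) (k : ι → ℂ) : Prop :=
  ∃ (D : Set ℂ) (x₀ : ℂ) (η : ℝ), IsOpen D ∧ Bornology.IsBounded D ∧ x₀ ∈ D ∧ 0 < η ∧
    ∀ ϑ > 0, ∃ (T : Finset ι) (t : ι → ℝ), η ≤ wave a k t T x₀ ∧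
      (∀ x ∈ frontier D, wave a k t T x ≤ -η) ∧
      ∀ T' : Finset ι, Disjoint T' T → ∑ i ∈ T', a i ^ 2 ≤ ϑ

/-- an infinite sum of plane waves -/
def Wv (a : ι → ℝ) (k : ι → ℂ) (t : ι → ℝ) (x : ℂ) : ℝ := ∑' i, a i * cos (dot (k i) x + t i)

/-- its gradient -/
def Gr (a : ι → ℝ) (k : ι → ℂ) (t : ι → ℝ) (x : ℂ) : ℂ :=
  ∑' i, ((-(a i * sin (dot (k i) x + t i)) : ℝ) : ℂ) * k i

/-- its traceless Hessian, up to the factor `-1/2` -/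
def Hs (a : ι → ℝ) (k : ι → ℂ) (t : ι → ℝ) (x : ℂ) : ℂ :=
  ∑' i, ((a i * cos (dot (k i) x + t i) : ℝ) : ℂ) * k i ^ 2

/-- positive summable amplitudes and unit directions -/
structure Fam (a : ι → ℝ) (k : ι → ℂ) : Prop where
  pos : ∀ i, 0 < a i
  sum : Summable a
  unit : ∀ i, ‖k i‖ = 1

/-- waves of both parities at every scale near every direction of `K` -/
def Dense' (a : ι → ℝ) (k : ι → ℂ) (χ : ι → Bool) (K : Set ℂ) : Prop :=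
  ∃ c > 0, ∃ C > 0, ∀ τ ∈ Ioc (0 : ℝ) 1, ∀ κ ∈ K, ∀ b : Bool, ∃ i, χ i = b ∧ c * √τ ≤ a i ∧
    a i ≤ C * √τ ∧ ‖k i - κ‖ ≤ C * τ

/-- the amplitudes near every direction of `K` are not summable -/
def Div (a : ι → ℝ) (k : ι → ℂ) (K : Set ℂ) : Prop :=
  ∀ κ ∈ K, ∀ β > 0, ¬Summable fun i => if ‖k i - κ‖ ≤ β then a i else 0

/-- finite Rajchman property of a set of directions -/
def Raj (K : Set ℂ) : Prop :=
  ∀ (m : ℕ), ∀ η > 0, ∃ D : ℝ, ∀ n ≤ m, ∀ x : Fin n → ℂ, (∀ j, D ≤ ‖x j‖) →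
    ∃ v ∈ convexHull ℝ ((fun (κ : ℂ) (j : Fin n) => Complex.exp (Complex.I * dot κ (x j))) '' K),
      ∀ j, ‖v j‖ ≤ η

/-- almost exact copies of a finite pattern at every place and every small scale -/
def NA (Λ : Set ℝ) : Prop :=
  ∀ M : ℕ, ∃ φ : Fin M → ℝ, Function.Injective φ ∧ ∀ κ > 0, ∃ Q > 0, ∀ ξ ∈ Λ,
    ∀ ρ ∈ Ioc (0 : ℝ) 1, ∀ σ ∈ Ioc 0 (ρ / Q), ∃ y₀ : ℝ, |y₀ - ξ| ≤ ρ ∧ ∃ y : Fin M → ℝ, ∀ i,
      y i ∈ Λ ∧ |y i - ξ| ≤ ρ ∧ |y i - y₀ - σ * φ i| ≤ κ * σ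

/-- a critical point near the origin whose value changes sign when one phase moves -/
def LB [DecidableEq ι] (a : ι → ℝ) (k : ι → ℂ) : Prop :=
  ∃ (T : Finset ι) (g : ι) (t₀ : ι → ℝ) (θ₀ θ₁ κ v₀ : ℝ), g ∈ T ∧ θ₀ ≤ θ₁ ∧ θ₁ ≤ θ₀ + π ∧
    0 < κ ∧ κ ≤ 1 ∧ 0 < v₀ ∧ ∀ t : ι → ℝ, (∀ i ∈ T, i ≠ g → |t i - t₀ i| ≤ κ) →
      ∃ v : ℝ → ℝ, (∀ θ ∈ Icc θ₀ θ₁, ∃ c : ℂ, ‖c‖ ≤ 1 / 4 ∧
        Gr a k (Function.update t g θ) c = 0 ∧ Wv a k (Function.update t g θ) c = v θ) ∧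
        (∀ θ ∈ Icc θ₀ θ₁, ∀ θ' ∈ Icc θ₀ θ₁, |v θ - v θ'| ≤ a g * |θ - θ'|) ∧
        v₀ ≤ v θ₀ ∧ v θ₁ ≤ -v₀

/-- independent uniform phases -/
def unif (σ : Type) [Fintype σ] : Measure (σ → ℝ) :=
  Measure.pi fun _ => (ENNReal.ofReal (2 * π))⁻¹ • volume.restrict (Ico 0 (2 * π))

/-- random phases on `T`, fixed phases elsewhere -/
def mix [DecidableEq ι] (T : Finset ι) (t : ι → ℝ) (ω : T → ℝ) (i : ι) : ℝ :=
  if h : i ∈ T then ω ⟨i, h⟩ else t i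

end Waves

/-- a robust closed nodal curve -/
def Barrier (F : ℂ → ℝ) : Prop :=
  ∃ (D : Set ℂ) (x₀ : ℂ), IsOpen D ∧ Bornology.IsBounded D ∧ x₀ ∈ D ∧ 0 < F x₀ ∧
    ∀ x ∈ frontier D, F x < 0

/-- Taylor estimates of a solution of the Helmholtz equation -/
structure Jet (A : ℝ) (F : ℂ → ℝ) (G H : ℂ → ℂ) : Prop where
  one : 1 ≤ A
  bF : ∀ x, |F x| ≤ A
  bG : ∀ x, ‖G x‖ ≤ A
  bH : ∀ x, ‖H x‖ ≤ A
  tF : ∀ x v, |F (x + v) - F x - dot (G x) v + (F x * ‖v‖ ^ 2 + (H x * conj v ^ 2).re) / 4|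
    ≤ A * ‖v‖ ^ 3
  tG : ∀ x v, ‖G (x + v) - G x + (F x * v + H x * conj v) / 2‖ ≤ A * ‖v‖ ^ 2
  tH : ∀ x v, ‖H (x + v) - H x‖ ≤ A * ‖v‖

/-- the ascending direction of a saddle with traceless Hessian `w` -/
def fr (w : ℂ) : ℂ := Complex.I * Complex.exp (Complex.I * (w.arg / 2 : ℝ))

/-- the rectangle around a saddle -/
def rect (c e : ℂ) (r : ℝ) : Set ℂ :=
  {x | |dot e (x - c)| < r ∧ |dot (Complex.I * e) (x - c)| < r / 2}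

/-- a nondegenerate critical point of small height -/
def Sad (F : ℂ → ℝ) (G H : ℂ → ℂ) (κ d : ℝ) (c : ℂ) : Prop := G c = 0 ∧ |F c| ≤ κ ∧ d ≤ ‖H c‖

/-- the component of `x` in the superlevel set -/
def comp (F : ℂ → ℝ) (ε : ℝ) (x : ℂ) : Set ℂ := connectedComponentIn {y | ε < F y} x

/-- `W` is one of the two components of the superlevel set at the saddle `c` -/
def Adj (F : ℂ → ℝ) (H : ℂ → ℂ) (ε r : ℝ) (W : Set ℂ) (c : ℂ) : Prop :=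
  W = comp F ε (c + r * fr (H c)) ∨ W = comp F ε (c - r * fr (H c))

/-- a closed unit square of the grid -/
def cell (j : ℤ × ℤ) : Set ℂ := {x | j.1 ≤ x.re ∧ x.re ≤ j.1 + 1 ∧ j.2 ≤ x.im ∧ x.im ≤ j.2 + 1}

/-- the three kinds of bad points -/
def Bad (F : ℂ → ℝ) (G H : ℂ → ℂ) (κ g d r₁ D τ : ℝ) (x : ℂ) : Prop :=
  (|F x| ≤ κ ∧ ‖G x‖ ≤ g ∧ ‖H x‖ ≤ 2 * d) ∨
    (G x = 0 ∧ |F x| ≤ κ ∧ ∃ x', G x' = 0 ∧ |F x'| ≤ κ ∧ r₁ ≤ ‖x - x'‖ ∧ ‖x - x'‖ ≤ D) ∨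
    (G x = 0 ∧ -τ ≤ F x ∧ F x ≤ 0)

/-- at most `C₀` components of the superlevel set meet a unit segment parallel to an axis -/
def FewComp (F : ℂ → ℝ) (ε : ℝ) (C₀ : ℕ) : Prop :=
  ∀ x : ℂ, ∀ e ∈ ({1, Complex.I} : Set ℂ), ∀ 𝒲 : Finset (Set ℂ),
    (∀ W ∈ 𝒲, ∃ s ∈ Icc (0 : ℝ) 1, ε < F (x + s * e) ∧ W = comp F ε (x + s * e)) → 𝒲.card ≤ C₀

end

end Pool.Agent.Lib.MP_e1e19a_an
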