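import Pool.Agent.Lib.MP_e1e19a_an.H26Defs

/-!
Schottky groups, given by generators and pairwise disjoint discs centred on the real line.
-/

namespace Pool.Agent.Lib.MP_e1e19a_an

open UpperHalfPlane
open scoped MatrixGroups

/-- Schottky data: matrices `gen i` and closed discs `D (i, true)`, `D (i, false)` with real centres
`c` and radii `ρ`, pairwise disjoint, such that `gen i` maps the exterior of `D (i, false)` onto the
interior of `D (i, true)`. The point `∞` lies outside all discs. -/
structure SchottkyData (α : Type) where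
  gen : α → SL(2, ℝ)
  c : α × Bool → ℝ
  ρ : α × Bool → ℝ
  pos : ∀ j, 0 < ρ j
  disj : ∀ i j, i ≠ j → ρ i + ρ j < |c i - c j|
  maps : ∀ (i : α) (z : ℍ), ‖((gen i • z : ℍ) : ℂ) - c (i, true)‖ < ρ (i, true) ↔
    ρ (i, false) < ‖(z : ℂ) - c (i, false)‖

/-- The Schottky group generated by the matrices `gen i`. -/
def SchottkyData.group {α : Type} (S : SchottkyData α) : Subgroup SL(2, ℝ) :=
  Subgroup.closure (Set.range S.gen)

end Pool.Agent.Lib.MP_e1e19a_an
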