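import Pool.Agent.Lib.MP_e1e19a_an.N.F1a

/-!
An explicit multiplier: the sine function with finitely many zeros moved.
-/

namespace Pool.Agent.Lib.MP_e1e19a_an

open Real MeasureTheory Set
open scoped MatrixGroups ComplexConjugate UpperHalfPlane

namespace F1

/-- the logarithm of the distance from `x + i` to `u` -/
noncomputable def lg (x u : ℝ) : ℝ := log ((x - u) ^ 2 + 1) / 2

lemma norm_eq (x u : ℝ) : ‖((x : ℂ) + Complex.I) - u‖ = exp (lg x u) := by
  have h : (0 : ℝ) < (x - u) ^ 2 + 1 := by positivity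
  rw [lg, Real.exp_half, Real.exp_log h, Complex.norm_eq_sqrt_sq_add_sq]
  simp

lemma ne_node (x u : ℝ) : ((x : ℂ) + Complex.I) ≠ u := by
  intro h
  have := congrArg Complex.im h
  simp at this

/-- the sign `(-1) ^ k` -/
noncomputable def sg (k : ℤ) : ℂ := Complex.exp (Complex.I * (π * k))

lemma sg_sq (k : ℤ) : sg k * sg k = 1 := by
  rw [sg, ← Complex.exp_add, ← Complex.exp_int_mul_two_pi_mul_I k]
  congr 1
  ring

lemma sg_neg (k : ℤ) : Complex.exp (-(Complex.I * (π * k))) = sg k := by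
  rw [Complex.exp_neg]
  exact inv_eq_of_mul_eq_one_right (sg_sq k)

lemma sg_norm (k : ℤ) : ‖sg k‖ = 1 := by
  rw [sg, Complex.norm_exp]
  simp

/-- twice the sine function -/
noncomputable def sn (b x : ℝ) : ℂ :=
  (Complex.exp (-(Complex.I * (b * (x + Complex.I)))) -
    Complex.exp (Complex.I * (b * (x + Complex.I)))) * Complex.I

lemma sn_le (b x : ℝ) : ‖sn b x‖ ≤ exp b + exp (-b) := by
  rw [sn, norm_mul, Complex.norm_I, mul_one]
  refine (norm_sub_le _ _).trans (le_of_eq ?_)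
  rw [Complex.norm_exp, Complex.norm_exp]
  simp

lemma le_sn (b x : ℝ) : exp b - exp (-b) ≤ ‖sn b x‖ := by
  rw [sn, norm_mul, Complex.norm_I, mul_one]
  refine le_trans (le_of_eq ?_) (norm_sub_norm_le _ _)
  rw [Complex.norm_exp, Complex.norm_exp]
  simp

lemma integral_one {b : ℝ} (hb : b ≠ 0) (k : ℤ) (x : ℝ) :
    ∫ y in (-b)..b, (exp y : ℂ) * Complex.exp (Complex.I * (π * k * y / b)) *
      Complex.exp (-(Complex.I * (x * y))) =
      sg k * sn b x * (((x : ℂ) + Complex.I) - (π * k / b : ℝ))⁻¹ := by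
  have hb' : (b : ℂ) ≠ 0 := by exact_mod_cast hb
  have hne : ((x : ℂ) + Complex.I) - (π * k / b : ℝ) ≠ 0 := sub_ne_zero.2 (ne_node x _)
  set c : ℂ := -(Complex.I * (((x : ℂ) + Complex.I) - (π * k / b : ℝ))) with hc
  have hc0 : c ≠ 0 := neg_ne_zero.2 (mul_ne_zero Complex.I_ne_zero hne)
  have e : ∀ y : ℝ, (exp y : ℂ) * Complex.exp (Complex.I * (π * k * y / b)) *
      Complex.exp (-(Complex.I * (x * y))) = Complex.exp (c * y) := by
    intro y
    rw [Complex.ofReal_exp, ← Complex.exp_add, ← Complex.exp_add, hc]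
    congr 1
    push_cast
    linear_combination (y : ℂ) * Complex.I_mul_I
  simp_rw [e]
  rw [integral_exp_mul_complex hc0]
  have e1 : Complex.exp (c * b) =
      sg k * Complex.exp (-(Complex.I * (b * (x + Complex.I)))) := by
    rw [sg, ← Complex.exp_add, hc]
    congr 1
    push_cast
    field_simp
    ring
  have e2 : Complex.exp (c * ((-b : ℝ) : ℂ)) =
      sg k * Complex.exp (Complex.I * (b * (x + Complex.I))) := by
    rw [← sg_neg, ← Complex.exp_add, hc]
    congr 1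
    push_cast
    field_simp
    ring
  rw [e1, e2, sn, div_eq_iff hc0, hc]
  set d := ((x : ℂ) + Complex.I) - (π * k / b : ℝ)
  have : d⁻¹ * d = 1 := inv_mul_cancel₀ hne
  set E1 := Complex.exp (-(Complex.I * (b * (x + Complex.I))))
  set E2 := Complex.exp (Complex.I * (b * (x + Complex.I)))
  linear_combination (sg k * (E1 - E2) * (d⁻¹ * d)) * Complex.I_mul_I - (sg k * (E1 - E2)) * this

lemma mult_eq {b : ℝ} (hb : b ≠ 0) (K : Finset ℤ) (A : ℤ → ℂ) (x : ℝ) :
    mult b K A x =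
      sn b x * ∑ k ∈ K, A k * sg k * (((x : ℂ) + Complex.I) - (π * k / b : ℝ))⁻¹ := by
  have e : ∀ y : ℝ, (exp y : ℂ) * (∑ k ∈ K, A k * Complex.exp (Complex.I * (π * k * y / b))) *
      Complex.exp (-(Complex.I * (x * y))) = ∑ k ∈ K, A k * ((exp y : ℂ) *
        Complex.exp (Complex.I * (π * k * y / b)) * Complex.exp (-(Complex.I * (x * y)))) := by
    intro y
    rw [Finset.mul_sum, Finset.sum_mul]
    refine Finset.sum_congr rfl fun k _ => by ring
  rw [mult]
  simp_rw [e]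
  rw [intervalIntegral.integral_finsetSum, Finset.mul_sum]
  · refine Finset.sum_congr rfl fun k _ => ?_
    rw [intervalIntegral.integral_const_mul, integral_one hb]
    ring
  · intro k _
    exact Continuous.intervalIntegrable (by fun_prop) _ _

/-- Lagrange interpolation -/
lemma lagrange (K K' : Finset ℤ) (h : K'.card < K.card) (s t : ℤ → ℂ) (hs : Set.InjOn s K)
    (z : ℂ) (hz : ∀ k ∈ K, z ≠ s k) :
    ∑ k ∈ K, (∏ j ∈ K.erase k, (s k - s j)⁻¹) * (∏ j ∈ K', (s k - t j)) * (z - s k)⁻¹ =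
      (∏ j ∈ K', (z - t j)) * (∏ j ∈ K, (z - s j))⁻¹ := by
  have hd : (Lagrange.nodal K' t).degree < K.card := by
    rw [Lagrange.degree_nodal]
    exact_mod_cast h
  have h1 := Lagrange.eq_interpolate hs hd
  have h2 := Lagrange.eval_interpolate_not_at_node (fun i => (Lagrange.nodal K' t).eval (s i)) hz
  rw [← h1] at h2
  simp only [Lagrange.eval_nodal, Lagrange.nodalWeight] at h2
  have h0 : ∏ j ∈ K, (z - s j) ≠ 0 := Finset.prod_ne_zero_iff.2 fun j hj => sub_ne_zero.2 (hz j hj)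
  rw [h2, mul_comm (∏ i ∈ K, (z - s i)), mul_assoc, mul_inv_cancel₀ h0, mul_one]
  refine Finset.sum_congr rfl fun k _ => by ring

/-- the sum of the inverse squares -/
noncomputable def D₀ : ℝ := ∑' n : ℤ, 1 / (n : ℝ) ^ 2

lemma sum_le (K : Finset ℤ) (k : ℤ) : ∑ j ∈ K, 1 / ((k : ℝ) - j) ^ 2 ≤ D₀ := by
  have hs : Summable fun n : ℤ => 1 / (n : ℝ) ^ 2 := Real.summable_one_div_int_pow.2 (by norm_num)
  have h := hs.sum_le_tsum (K.image fun j => k - j) fun n _ => by positivity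
  rw [Finset.sum_image fun a _ b _ hab => sub_right_injective hab] at h
  simpa [D₀] using h

lemma abs_le_lg (x u : ℝ) : |x - u| ≤ exp (lg x u) := by
  have h : (0 : ℝ) < (x - u) ^ 2 + 1 := by positivity
  rw [lg, Real.exp_half, Real.exp_log h]
  exact Real.abs_le_sqrt (by linarith)

lemma inv_le_lg {x u d : ℝ} (hd : d ≠ 0) (h : d ^ 2 ≤ (x - u) ^ 2) :
    |x - u|⁻¹ ≤ exp (1 / d ^ 2 - lg x u) := by
  have hd2 : 0 < d ^ 2 := by positivity
  have hx2 : 0 < (x - u) ^ 2 := lt_of_lt_of_le hd2 h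
  have hx : 0 < |x - u| := abs_pos.2 fun h0 => by simp [h0] at hx2
  have h1 : (0 : ℝ) < (x - u) ^ 2 + 1 := by positivity
  rw [← Real.exp_log (inv_pos.2 hx), Real.exp_le_exp, Real.log_inv, lg]
  have e : log ((x - u) ^ 2) = 2 * log |x - u| := by
    rw [Real.log_abs, Real.log_pow]
    norm_num
  have h2 := Real.log_le_sub_one_of_pos (div_pos h1 hx2)
  rw [Real.log_div h1.ne' hx2.ne', e] at h2
  have h3 : ((x - u) ^ 2 + 1) / (x - u) ^ 2 - 1 = 1 / (x - u) ^ 2 := by
    rw [add_div, div_self hx2.ne']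
    ring
  have h4 : 1 / (x - u) ^ 2 ≤ 1 / d ^ 2 := one_div_le_one_div_of_le hd2 h
  have h5 : 0 ≤ 1 / d ^ 2 := by positivity
  linarith

lemma lg_up {x t T : ℝ} (h : |t| ≤ T) :
    lg 0 t - lg x t ≤ (log 2 + 2 * log (1 + T ^ 2) - log (1 + x ^ 2)) / 2 := by
  have hT : t ^ 2 ≤ T ^ 2 := sq_le_sq' (by linarith [neg_abs_le t]) (le_trans (le_abs_self t) h)
  have h1 : log (t ^ 2 + 1) ≤ log (1 + T ^ 2) := Real.log_le_log (by positivity) (by linarith)
  have h2 : log (1 + x ^ 2) ≤ log (2 * (((x - t) ^ 2 + 1) * (t ^ 2 + 1))) :=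
    Real.log_le_log (by positivity) (by nlinarith [sq_nonneg (x - 2 * t), sq_nonneg ((x - t) * t)])
  rw [Real.log_mul (by norm_num) (by positivity), Real.log_mul (by positivity) (by positivity)] at h2
  simp only [lg, zero_sub, even_two, Even.neg_pow]
  linarith

lemma lg_low {x : ℝ} (t : ℝ) (h : |x| ≤ 1) : lg x t - lg 0 t ≤ log 4 / 2 := by
  have hx : x ^ 2 ≤ 1 := by
    rw [← sq_abs]
    nlinarith [abs_nonneg x]
  have h2 : log ((x - t) ^ 2 + 1) ≤ log (4 * (t ^ 2 + 1)) :=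
    Real.log_le_log (by positivity) (by nlinarith [sq_nonneg (x + t), sq_nonneg t])
  rw [Real.log_mul (by norm_num) (by positivity)] at h2
  simp only [lg, zero_sub, even_two, Even.neg_pow]
  linarith

end F1

open F1 in
theorem mult_exists {b : ℝ} (hb : b ∈ Ioc (0 : ℝ) 1) : ∃ C > 0, ∀ (ι : Type) [Fintype ι]
    (w c r : ι → ℝ), (∀ i, 1 ≤ r i) →
    (∀ x, ∑ i, |w i| * (r i ^ 2 / (r i ^ 2 + (x - c i) ^ 2)) ≤ b / 2) →
    ∑ i, w i * (r i ^ 2 * c i / (r i ^ 2 + c i ^ 2)) = 0 → ∃ (K : Finset ℤ) (A : ℤ → ℂ),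
      (∀ k, ‖A k‖ ≤ C * exp (pot w c r 0 - pot w c r (π * k / b)) / (1 + k ^ 2)) ∧
      (∀ x, ‖mult b K A x‖ ≤ C * exp (pot w c r 0 - pot w c r x) / (1 + x ^ 2)) ∧
      ∀ x, |x| ≤ 1 → exp (pot w c r 0 - pot w c r x) ≤ C * ‖mult b K A x‖ := by
  obtain ⟨hb0, hb1⟩ := hb
  set T : ℝ := 2 * π * 42 / b with hT
  set c₁ : ℝ := 41 * log 2 + 42 * log (1 + T ^ 2) with hc₁
  have hm : 0 < exp b - exp (-b) := sub_pos.2 (Real.exp_lt_exp.2 (by linarith))
  set C₁ : ℝ := exp D₀ * exp c₁ with hC₁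
  set C₂ : ℝ := (exp b + exp (-b)) * exp c₁ with hC₂
  set C₃ : ℝ := exp (41 * log 4) / (exp b - exp (-b)) with hC₃
  have p₁ : 0 < C₁ := by positivity
  have p₂ : 0 < C₂ := by positivity
  have p₃ : 0 < C₃ := by positivity
  refine ⟨C₁ + C₂ + C₃, by positivity, fun ι _ w c r h1 h2 h3 => ?_⟩
  obtain ⟨N, hN, t, ht, hP⟩ := zeros_exist ⟨hb0, hb1⟩ ι w c r h1 h2 h3 42
  set K : Finset ℤ := Finset.Icc (-N : ℤ) N with hK
  set R : Finset ℤ := Finset.Icc (1 : ℤ) 42 with hR
  have hRK : R ⊆ K := Finset.Icc_subset_Icc (by omega) (by omega)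
  have hRc : R.card = 42 := by simp [hR]
  set s : ℤ → ℝ := fun k => π * k / b with hs
  set L : ℝ → ℝ := fun x => ∑ j ∈ K \ R, lg x (t j) - ∑ j ∈ K, lg x (s j) with hL
  have hPL : ∀ x, |L x - L 0 + ∑ j ∈ R, (lg x (t j) - lg 0 (t j)) + pot w c r x - pot w c r 0|
      ≤ 20 * log (2 + 2 * x ^ 2) := by
    intro x
    have e : L x - L 0 + ∑ j ∈ R, (lg x (t j) - lg 0 (t j)) =
        ∑ k ∈ K, (log ((x - t k) ^ 2 + 1) - log (t k ^ 2 + 1) -
          log ((x - π * k / b) ^ 2 + 1) + log ((π * k / b) ^ 2 + 1)) / 2 := by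
      have e1 : ∀ y, ∑ j ∈ K \ R, lg y (t j) = ∑ j ∈ K, lg y (t j) - ∑ j ∈ R, lg y (t j) :=
        fun y => eq_sub_of_add_eq (Finset.sum_sdiff hRK)
      have e2 : ∑ k ∈ K, (log ((x - t k) ^ 2 + 1) - log (t k ^ 2 + 1) -
          log ((x - π * k / b) ^ 2 + 1) + log ((π * k / b) ^ 2 + 1)) / 2 =
          ∑ k ∈ K, (lg x (t k) - lg 0 (t k) - lg x (s k) + lg 0 (s k)) := by
        refine Finset.sum_congr rfl fun k _ => ?_
        simp only [lg, zero_sub, even_two, Even.neg_pow, hs]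
        ring
      rw [e2]
      simp only [hL, e1, Finset.sum_sub_distrib, Finset.sum_add_distrib]
      ring
    rw [e]
    exact hP x
  have hlog : ∀ x : ℝ, log (2 + 2 * x ^ 2) = log 2 + log (1 + x ^ 2) := by
    intro x
    rw [← Real.log_mul (by norm_num) (by positivity)]
    congr 1
    ring
  have hup : ∀ x, exp (L x - L 0) ≤
      exp c₁ * exp (pot w c r 0 - pot w c r x) / (1 + x ^ 2) := by
    intro x
    have h4 := (abs_le.1 (hPL x)).2
    have h5 : ∑ j ∈ R, (lg 0 (t j) - lg x (t j)) ≤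
        ∑ _j ∈ R, (log 2 + 2 * log (1 + T ^ 2) - log (1 + x ^ 2)) / 2 := by
      refine Finset.sum_le_sum fun j hj => lg_up ((ht j).trans ?_)
      have hj' := Finset.mem_Icc.1 hj
      have : |(j : ℝ)| ≤ 42 := by
        rw [abs_le]
        constructor
        · exact_mod_cast (by omega : (-42 : ℤ) ≤ j)
        · exact_mod_cast hj'.2
      rw [hT]
      gcongr
    rw [Finset.sum_const, hRc, nsmul_eq_mul] at h5
    rw [hlog] at h4
    have h6 : ∑ j ∈ R, (lg 0 (t j) - lg x (t j)) = -∑ j ∈ R, (lg x (t j) - lg 0 (t j)) := by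
      rw [← Finset.sum_neg_distrib]
      exact Finset.sum_congr rfl fun j _ => by ring
    have hx : (0 : ℝ) < 1 + x ^ 2 := by positivity
    rw [← Real.exp_add, ← Real.exp_log hx, ← Real.exp_sub, Real.exp_le_exp]
    push_cast at h5
    linarith
  have hlow : ∀ x, |x| ≤ 1 →
      exp (pot w c r 0 - pot w c r x) ≤ exp (41 * log 4) * exp (L x - L 0) := by
    intro x hx
    have h4 := (abs_le.1 (hPL x)).1
    have h5 : ∑ j ∈ R, (lg x (t j) - lg 0 (t j)) ≤ ∑ _j ∈ R, log 4 / 2 :=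
      Finset.sum_le_sum fun j _ => lg_low _ hx
    rw [Finset.sum_const, hRc, nsmul_eq_mul] at h5
    have hx2 : x ^ 2 ≤ 1 := by
      rw [← sq_abs]
      nlinarith [abs_nonneg x]
    have h6 : log (2 + 2 * x ^ 2) ≤ log 4 := Real.log_le_log (by positivity) (by linarith)
    rw [← Real.exp_add, Real.exp_le_exp]
    push_cast at h5
    linarith
  have hsinj : Set.InjOn (fun k => (s k : ℂ)) K := by
    intro i _ j _ hij
    have h4 : s i = s j := Complex.ofReal_injective hij
    simp only [hs] at h4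
    have h5 : (i : ℝ) = j := by
      field_simp at h4
      exact h4
    exact_mod_cast h5
  have hcard : (K \ R).card < K.card := by
    have := Finset.card_sdiff_add_card_eq_card hRK
    omega
  set a : ℤ → ℂ := fun k => (∏ j ∈ K.erase k, ((s k : ℂ) - s j)⁻¹) *
    ∏ j ∈ K \ R, ((s k : ℂ) - t j) with ha
  have hM : ∀ x, ‖mult b K (fun k => if k ∈ K then sg k * a k * (exp (-L 0) : ℝ) else 0) x‖ =
      ‖sn b x‖ * exp (L x - L 0) := by
    intro x
    rw [mult_eq hb0.ne', norm_mul]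
    congr 1
    have e : ∑ k ∈ K, (if k ∈ K then sg k * a k * (exp (-L 0) : ℝ) else 0) * sg k *
        (((x : ℂ) + Complex.I) - (π * k / b : ℝ))⁻¹ =
        (∑ k ∈ K, a k * (((x : ℂ) + Complex.I) - s k)⁻¹) * (exp (-L 0) : ℝ) := by
      rw [Finset.sum_mul]
      refine Finset.sum_congr rfl fun k hk => ?_
      rw [if_pos hk]
      linear_combination (a k * (exp (-L 0) : ℝ) * (((x : ℂ) + Complex.I) - s k)⁻¹) * sg_sq k
    rw [e, lagrange K (K \ R) hcard (fun k => (s k : ℂ)) (fun k => (t k : ℂ)) hsinj _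
      fun k _ => ne_node x _]
    rw [norm_mul, norm_mul, norm_inv, norm_prod, norm_prod, Complex.norm_real,
      Real.norm_of_nonneg (exp_pos _).le]
    simp only [norm_eq]
    rw [← Real.exp_sum, ← Real.exp_sum, ← Real.exp_neg, ← Real.exp_add, ← Real.exp_add]
    rfl
  have hA : ∀ k ∈ K, ‖a k‖ ≤ exp D₀ * exp (L (s k)) := by
    intro k hk
    have h4 : ‖∏ j ∈ K \ R, ((s k : ℂ) - t j)‖ ≤ exp (∑ j ∈ K \ R, lg (s k) (t j)) := by
      rw [norm_prod, Real.exp_sum]
      refine Finset.prod_le_prod (fun _ _ => norm_nonneg _) fun j _ => ?_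
      rw [← Complex.ofReal_sub, Complex.norm_real, Real.norm_eq_abs]
      exact abs_le_lg _ _
    have h5 : ‖∏ j ∈ K.erase k, ((s k : ℂ) - s j)⁻¹‖ ≤
        exp (∑ j ∈ K.erase k, (1 / ((k : ℝ) - j) ^ 2 - lg (s k) (s j))) := by
      rw [norm_prod, Real.exp_sum]
      refine Finset.prod_le_prod (fun _ _ => norm_nonneg _) fun j hj => ?_
      rw [norm_inv, ← Complex.ofReal_sub, Complex.norm_real, Real.norm_eq_abs]
      have hjk : (k : ℝ) - j ≠ 0 :=
        sub_ne_zero.2 (by exact_mod_cast (Finset.ne_of_mem_erase hj).symm)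
      refine inv_le_lg hjk ?_
      have e : s k - s j = π / b * ((k : ℝ) - j) := by
        simp only [hs]
        ring
      have h6 : 1 ≤ π / b := by
        rw [le_div_iff₀ hb0]
        linarith [Real.pi_gt_three]
      rw [e, mul_pow]
      exact le_mul_of_one_le_left (sq_nonneg _) (one_le_pow₀ h6)
    have h6 : ∑ j ∈ K.erase k, lg (s k) (s j) = ∑ j ∈ K, lg (s k) (s j) :=
      Finset.sum_erase _ (by simp [lg])
    rw [Finset.sum_sub_distrib, h6] at h5
    have h7 := sum_le (K.erase k) k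
    calc ‖a k‖ ≤ exp (∑ j ∈ K.erase k, 1 / ((k : ℝ) - j) ^ 2 - ∑ j ∈ K, lg (s k) (s j)) *
          exp (∑ j ∈ K \ R, lg (s k) (t j)) := by
          rw [ha, norm_mul]
          exact mul_le_mul h5 h4 (norm_nonneg _) (exp_pos _).le
      _ ≤ exp D₀ * exp (L (s k)) := by
          rw [← Real.exp_add, ← Real.exp_add, Real.exp_le_exp]
          simp only [hL]
          linarith
  refine ⟨K, fun k => if k ∈ K then sg k * a k * (exp (-L 0) : ℝ) else 0, fun k => ?_,
    fun x => ?_, fun x hx => ?_⟩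
  · by_cases hk : k ∈ K
    · simp only [if_pos hk]
      rw [norm_mul, norm_mul, sg_norm, one_mul, Complex.norm_real,
        Real.norm_of_nonneg (exp_pos _).le]
      have h6 : 1 ≤ π / b := by
        rw [le_div_iff₀ hb0]
        linarith [Real.pi_gt_three]
      have h7 : (k : ℝ) ^ 2 ≤ s k ^ 2 := by
        have e : s k = π / b * k := by
          simp only [hs]
          ring
        rw [e, mul_pow]
        exact le_mul_of_one_le_left (sq_nonneg _) (one_le_pow₀ h6)
      calc ‖a k‖ * exp (-L 0) ≤ exp D₀ * exp (L (s k)) * exp (-L 0) := by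
            gcongr
            exact hA k hk
        _ = exp D₀ * exp (L (s k) - L 0) := by rw [mul_assoc, ← Real.exp_add, sub_eq_add_neg]
        _ ≤ exp D₀ * (exp c₁ * exp (pot w c r 0 - pot w c r (s k)) / (1 + s k ^ 2)) := by
            gcongr
            exact hup _
        _ = C₁ * exp (pot w c r 0 - pot w c r (s k)) / (1 + s k ^ 2) := by
            rw [hC₁]
            ring
        _ ≤ _ := by
            gcongr
            linarith
    · simp only [if_neg hk, norm_zero]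
      positivity
  · rw [hM]
    calc ‖sn b x‖ * exp (L x - L 0)
        ≤ (exp b + exp (-b)) * (exp c₁ * exp (pot w c r 0 - pot w c r x) / (1 + x ^ 2)) :=
          mul_le_mul (sn_le b x) (hup x) (exp_pos _).le (by positivity)
      _ = C₂ * exp (pot w c r 0 - pot w c r x) / (1 + x ^ 2) := by
          rw [hC₂]
          ring
      _ ≤ _ := by
          gcongr
          linarith
  · rw [hM]
    calc exp (pot w c r 0 - pot w c r x) ≤ exp (41 * log 4) * exp (L x - L 0) := hlow x hx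
      _ = C₃ * ((exp b - exp (-b)) * exp (L x - L 0)) := by
          rw [hC₃]
          field_simp
      _ ≤ _ := by
          gcongr
          · linarith
          · exact le_sn b x

end Pool.Agent.Lib.MP_e1e19a_an
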