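import Pool.Agent.Lib.MP_e1e19a_an.N.Core

/-!
Zeros placed along the conjugate of a harmonic weight.
-/

namespace Pool.Agent.Lib.MP_e1e19a_an

open Real MeasureTheory Set
open scoped MatrixGroups ComplexConjugate UpperHalfPlane

namespace F1a

open Filter Topology

/-- conjugate Poisson kernel -/
noncomputable def Q (c r t : ℝ) : ℝ := (t - c) / ((t - c) ^ 2 + r ^ 2)

lemma den_pos {r : ℝ} (hr : 1 ≤ r) (u : ℝ) : 0 < u ^ 2 + r ^ 2 := by positivity

lemma Q_cont (c : ℝ) {r : ℝ} (hr : 1 ≤ r) : Continuous (Q c r) := by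
  unfold Q
  exact Continuous.div (by fun_prop) (by fun_prop) fun t => (den_pos hr _).ne'

lemma Q_deriv (c : ℝ) {r : ℝ} (hr : 1 ≤ r) (t : ℝ) :
    HasDerivAt (Q c r) ((r ^ 2 - (t - c) ^ 2) / ((t - c) ^ 2 + r ^ 2) ^ 2) t := by
  have h1 : HasDerivAt (fun t : ℝ => t - c) 1 t := (hasDerivAt_id t).sub_const c
  have h2 : HasDerivAt (fun t : ℝ => (t - c) ^ 2 + r ^ 2) (2 * (t - c)) t := by
    have := (h1.pow 2).add_const (r ^ 2)
    simpa using this
  have := h1.div h2 (den_pos hr _).ne'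
  refine HasDerivAt.congr_deriv this ?_
  ring

lemma sq_tend (c : ℝ) {l : Filter ℝ} (hl : Tendsto (fun t : ℝ => |t - c|) l atTop) {r : ℝ} :
    Tendsto (fun t : ℝ => ((t - c) ^ 2 + r ^ 2)⁻¹) l (𝓝 0) := by
  apply Tendsto.inv_tendsto_atTop
  apply tendsto_atTop_add_const_right
  have := (tendsto_pow_atTop (α := ℝ) (n := 2) (by norm_num)).comp hl
  refine this.congr fun t => ?_
  simp [sq_abs]

lemma Q_tend (c : ℝ) {l : Filter ℝ} (hl : Tendsto (fun t : ℝ => |t - c|) l atTop) {r : ℝ}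
    (hr : 1 ≤ r) : Tendsto (Q c r) l (𝓝 0) := by
  refine squeeze_zero_norm' ?_ hl.inv_tendsto_atTop
  filter_upwards [hl.eventually_gt_atTop 0] with t ht
  have hd := den_pos hr (t - c)
  simp only [Q, Real.norm_eq_abs, abs_div, abs_of_pos hd, Pi.inv_apply]
  rw [div_le_iff₀ hd, ← div_eq_inv_mul, le_div_iff₀ ht, ← sq, sq_abs]
  nlinarith [sq_nonneg r]

lemma abs_top (c : ℝ) : Tendsto (fun t : ℝ => |t - c|) atTop atTop :=
  tendsto_abs_atTop_atTop.comp (tendsto_atTop_add_const_right _ (-c) tendsto_id)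

lemma abs_bot (c : ℝ) : Tendsto (fun t : ℝ => |t - c|) atBot atTop :=
  tendsto_abs_atBot_atTop.comp (tendsto_atBot_add_const_right _ (-c) tendsto_id)

/-- half the logarithm of the squared distance -/
noncomputable def Lg (c r t : ℝ) : ℝ := log ((t - c) ^ 2 + r ^ 2) / 2

lemma Lg_deriv (c : ℝ) {r : ℝ} (hr : 1 ≤ r) (t : ℝ) : HasDerivAt (Lg c r) (Q c r t) t := by
  have h1 : HasDerivAt (fun t : ℝ => t - c) 1 t := (hasDerivAt_id t).sub_const c
  have h2 : HasDerivAt (fun t : ℝ => (t - c) ^ 2 + r ^ 2) (2 * (t - c)) t := by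
    have := (h1.pow 2).add_const (r ^ 2)
    simpa using this
  have := (h2.log (den_pos hr _).ne').div_const 2
  refine HasDerivAt.congr_deriv this ?_
  unfold Q
  ring

lemma Lg_tend (c x : ℝ) {l : Filter ℝ} (hl : Tendsto (fun t : ℝ => |t - c|) l atTop) {r : ℝ}
    (hr : 1 ≤ r) : Tendsto (fun t => Lg x 1 t - Lg c r t) l (𝓝 0) := by
  have h1 : Tendsto (fun t => 1 + 2 * (c - x) * Q c r t +
      ((c - x) ^ 2 + 1 - r ^ 2) * ((t - c) ^ 2 + r ^ 2)⁻¹) l (𝓝 1) := by
    have := (((Q_tend c hl hr).const_mul (2 * (c - x))).const_add 1).add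
      ((sq_tend c hl (r := r)).const_mul ((c - x) ^ 2 + 1 - r ^ 2))
    simpa using this
  have h2 := (h1.log one_ne_zero).div_const 2
  rw [log_one, zero_div] at h2
  refine h2.congr fun t => ?_
  have hd := den_pos hr (t - c)
  have hd1 := den_pos le_rfl (t - x)
  unfold Lg
  rw [← sub_div, ← log_div hd1.ne' hd.ne']
  congr 2
  unfold Q
  field_simp
  ring

lemma at_deriv (c : ℝ) {r : ℝ} (hr : 1 ≤ r) (t : ℝ) :
    HasDerivAt (fun t => arctan ((t - c) / r)) (r / ((t - c) ^ 2 + r ^ 2)) t := by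
  have h1 : HasDerivAt (fun t : ℝ => (t - c) / r) (1 / r) t :=
    ((hasDerivAt_id t).sub_const c).div_const r
  have := h1.arctan
  refine HasDerivAt.congr_deriv this ?_
  have : r ≠ 0 := by positivity
  have hd := den_pos hr (t - c)
  field_simp
  ring

lemma at_top (c : ℝ) {r : ℝ} (hr : 1 ≤ r) :
    Tendsto (fun t => arctan ((t - c) / r)) atTop (𝓝 (π / 2)) :=
  (tendsto_arctan_atTop.mono_right nhdsWithin_le_nhds).comp
    ((tendsto_atTop_add_const_right _ (-c) tendsto_id).atTop_div_const (by positivity))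

lemma at_bot (c : ℝ) {r : ℝ} (hr : 1 ≤ r) :
    Tendsto (fun t => arctan ((t - c) / r)) atBot (𝓝 (-(π / 2))) :=
  (tendsto_arctan_atBot.mono_right nhdsWithin_le_nhds).comp
    ((tendsto_atBot_add_const_right _ (-c) tendsto_id).atBot_div_const (by positivity))

lemma anti (c x : ℝ) {r : ℝ} (hr : 1 ≤ r) : ∃ (F : ℝ → ℝ) (a a' : ℝ),
    (∀ t, HasDerivAt F (Q x 1 t * Q c r t) t) ∧ Tendsto F atTop (𝓝 a) ∧ Tendsto F atBot (𝓝 a') ∧
      a - a' = π * ((r + 1) / ((r + 1) ^ 2 + (x - c) ^ 2)) := by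
  by_cases h : (x - c) ^ 2 + (r - 1) ^ 2 = 0
  · have hx : x = c := by nlinarith [sq_nonneg (x - c), sq_nonneg (r - 1)]
    have h1 : r = 1 := by nlinarith [sq_nonneg (x - c), sq_nonneg (r - 1)]
    subst hx h1
    refine ⟨fun t => (arctan ((t - x) / 1) - Q x 1 t) / 2, (π / 2 - 0) / 2, (-(π / 2) - 0) / 2,
      fun t => ?_, ((at_top x le_rfl).sub (Q_tend x (abs_top x) le_rfl)).div_const 2,
      ((at_bot x le_rfl).sub (Q_tend x (abs_bot x) le_rfl)).div_const 2, by ring⟩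
    have := ((at_deriv x le_rfl t).sub (Q_deriv x le_rfl t)).div_const 2
    refine HasDerivAt.congr_deriv this ?_
    have hd := den_pos le_rfl (t - x)
    unfold Q
    field_simp
    ring
  · set D1 := (r + 1) ^ 2 + (x - c) ^ 2 with hD1
    set D2 := (x - c) ^ 2 + (r - 1) ^ 2 with hD2
    have hD : D1 ≠ 0 := by positivity
    set α := (x - c) / (2 * D1) + (x - c) / (2 * D2) with hα
    set β := (r + 1) / (2 * D1) - (r - 1) / (2 * D2) with hβ
    set γ := (r + 1) / (2 * D1) + (r - 1) / (2 * D2) with hγ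
    refine ⟨fun t => α * (Lg x 1 t - Lg c r t) + β * arctan ((t - x) / 1) +
      γ * arctan ((t - c) / r), α * 0 + β * (π / 2) + γ * (π / 2),
      α * 0 + β * (-(π / 2)) + γ * (-(π / 2)), fun t => ?_,
      (((Lg_tend c x (abs_top c) hr).const_mul α).add ((at_top x le_rfl).const_mul β)).add
        ((at_top c hr).const_mul γ),
      (((Lg_tend c x (abs_bot c) hr).const_mul α).add ((at_bot x le_rfl).const_mul β)).add
        ((at_bot c hr).const_mul γ), ?_⟩
    · have := (((((Lg_deriv x le_rfl t).sub (Lg_deriv c hr t)).const_mul α).add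
        ((at_deriv x le_rfl t).const_mul β)).add ((at_deriv c hr t).const_mul γ))
      refine HasDerivAt.congr_deriv this ?_
      have hd := den_pos le_rfl (t - x)
      have hd' := den_pos hr (t - c)
      rw [hα, hβ, hγ]
      unfold Q
      field_simp
      rw [hD1, hD2]
      ring
    · rw [hβ, hγ]
      field_simp
      ring

lemma wt {κ θ : ℝ → ℝ} (hκ : Continuous κ) (hθ : Continuous θ) {A B M : ℝ} (hAB : A ≤ B)
    (h : ∀ t ∈ Icc A B, |θ t| ≤ M) : |∫ t in A..B, κ t * θ t| ≤ M * ∫ t in A..B, |κ t| := by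
  calc _ ≤ ∫ t in A..B, |κ t * θ t| := intervalIntegral.abs_integral_le_integral_abs hAB
    _ ≤ ∫ t in A..B, M * |κ t| := by
      apply intervalIntegral.integral_mono_on hAB ((hκ.fun_mul hθ).abs.intervalIntegrable _ _)
        ((continuous_const.fun_mul hκ.abs).intervalIntegrable _ _)
      intro t ht
      rw [abs_mul, mul_comm]
      exact mul_le_mul_of_nonneg_right (h t ht) (abs_nonneg _)
    _ = _ := intervalIntegral.integral_const_mul _ _

lemma wt2 {κ θ : ℝ → ℝ} (hκ : Continuous κ) (hθ : Continuous θ) {V : ℝ}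
    (hV : ∀ A B, A ≤ B → ∫ t in A..B, |κ t| ≤ V) {A B M : ℝ} (hM : 0 ≤ M)
    (h : ∀ t ∈ uIcc A B, |θ t| ≤ M) : |∫ t in A..B, κ t * θ t| ≤ M * V := by
  rcases le_total A B with hAB | hAB
  · rw [uIcc_of_le hAB] at h
    exact (wt hκ hθ hAB h).trans (mul_le_mul_of_nonneg_left (hV _ _ hAB) hM)
  · rw [uIcc_of_ge hAB] at h
    rw [intervalIntegral.integral_symm, abs_neg]
    exact (wt hκ hθ hAB h).trans (mul_le_mul_of_nonneg_left (hV _ _ hAB) hM)

lemma tele (f : ℤ → ℝ) (N : ℕ) :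
    ∑ k ∈ Finset.Icc (-N : ℤ) N, (f (k + 1) - f k) = f (N + 1) - f (-N) := by
  induction N with
  | zero => simp
  | succ N ih =>
    have : Finset.Icc (-((N + 1 : ℕ) : ℤ)) ((N + 1 : ℕ) : ℤ) =
        insert (-((N : ℤ) + 1)) (insert ((N : ℤ) + 1) (Finset.Icc (-N : ℤ) N)) := by
      ext k
      simp only [Finset.mem_Icc, Finset.mem_insert]
      push_cast
      omega
    rw [this, Finset.sum_insert, Finset.sum_insert, ih]
    · push_cast
      have e : -((N : ℤ) + 1) + 1 = -N := by ring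
      rw [e]
      ring
    · simp only [Finset.mem_Icc]
      omega
    · simp only [Finset.mem_Icc, Finset.mem_insert]
      omega

/-- the difference of the boundary terms is an integral -/
lemma bdry {Λ κ ψ : ℝ → ℝ} (hΛ : ∀ t, HasDerivAt Λ (κ t) t) (hκ : Continuous κ)
    (hψ : Continuous ψ) (m A B : ℝ) :
    (m * Λ B - ∫ t in (0 : ℝ)..B, κ t * ψ t) - (m * Λ A - ∫ t in (0 : ℝ)..A, κ t * ψ t) =
      ∫ t in A..B, κ t * (m - ψ t) := by
  have h1 : ∫ t in A..B, κ t = Λ B - Λ A :=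
    intervalIntegral.integral_eq_sub_of_hasDerivAt (fun t _ => hΛ t) (hκ.intervalIntegrable _ _)
  have h2 := intervalIntegral.integral_interval_sub_left
    ((hκ.fun_mul hψ).intervalIntegrable (μ := volume) 0 B) ((hκ.fun_mul hψ).intervalIntegrable 0 A)
  have h3 : ∫ t in A..B, κ t * (m - ψ t) = m * (∫ t in A..B, κ t) - ∫ t in A..B, κ t * ψ t := by
    rw [← intervalIntegral.integral_const_mul, ← intervalIntegral.integral_sub
      ((continuous_const.fun_mul hκ).intervalIntegrable _ _) ((hκ.fun_mul hψ).intervalIntegrable _ _)]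
    congr 1
    ext t
    ring
  rw [h3, h1, ← h2]
  ring

lemma sum_cmp {Λ κ ψ : ℝ → ℝ} (hΛ : ∀ t, HasDerivAt Λ (κ t) t) (hκ : Continuous κ)
    (hψ : Continuous ψ) (hm : StrictMono ψ) (τ : ℤ → ℝ) (hτ : ∀ k, ψ (τ k) = π * k) {V : ℝ}
    (hV : ∀ A B, A ≤ B → ∫ t in A..B, |κ t| ≤ V) (N : ℕ) :
    |π * ∑ k ∈ Finset.Icc (-N : ℤ) N, Λ (τ k) -
      ((π * (N + 1) * Λ (τ (N + 1)) - ∫ t in (0 : ℝ)..τ (N + 1), κ t * ψ t) -
        (π * (-N) * Λ (τ (-N)) - ∫ t in (0 : ℝ)..τ (-N), κ t * ψ t))| ≤ π * V := by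
  have hmono : ∀ j k : ℤ, j ≤ k → τ j ≤ τ k := fun j k h => by
    rw [← hm.le_iff_le, hτ, hτ]
    exact mul_le_mul_of_nonneg_left (by exact_mod_cast h) pi_pos.le
  set f : ℤ → ℝ := fun k => π * k * Λ (τ k) - ∫ t in (0 : ℝ)..τ k, κ t * ψ t with hf
  set g : ℤ → ℝ := fun k => π * ∫ t in (0 : ℝ)..τ k, |κ t| with hg
  have hgd : ∀ j k : ℤ, g k - g j = π * ∫ t in τ j..τ k, |κ t| := fun j k => by
    simp only [hg]
    rw [← mul_sub, intervalIntegral.integral_interval_sub_left (hκ.abs.intervalIntegrable _ _)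
      (hκ.abs.intervalIntegrable _ _)]
  have key : ∀ k : ℤ, |π * Λ (τ k) - (f (k + 1) - f k)| ≤ g (k + 1) - g k := fun k => by
    have h1 := bdry hΛ hκ hψ (π * (k + 1)) (τ k) (τ (k + 1))
    have h2 : π * Λ (τ k) - (f (k + 1) - f k) =
        -∫ t in τ k..τ (k + 1), κ t * (π * (k + 1) - ψ t) := by
      rw [← h1]
      simp only [hf]
      push_cast
      ring
    rw [h2, abs_neg, hgd]
    apply wt hκ (continuous_const.fun_sub hψ) (hmono _ _ (by omega))
    intro t ht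
    have a1 := hm.monotone ht.1
    have a2 := hm.monotone ht.2
    rw [hτ] at a1 a2
    push_cast at a2
    rw [abs_le]
    constructor <;> nlinarith [pi_pos]
  have e1 := tele f N
  have e2 := tele g N
  have e3 : f (N + 1) - f (-N) =
      (π * (N + 1) * Λ (τ (N + 1)) - ∫ t in (0 : ℝ)..τ (N + 1), κ t * ψ t) -
        (π * (-N) * Λ (τ (-N)) - ∫ t in (0 : ℝ)..τ (-N), κ t * ψ t) := by
    simp only [hf]
    push_cast
    ring
  rw [← e3, ← e1, Finset.mul_sum, ← Finset.sum_sub_distrib]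
  refine (Finset.abs_sum_le_sum_abs _ _).trans ((Finset.sum_le_sum fun k _ => key k).trans ?_)
  rw [e2, hgd]
  exact mul_le_mul_of_nonneg_left (hV _ _ (hmono _ _ (by omega))) pi_pos.le

/-- the logarithmic kernel -/
noncomputable def La (x t : ℝ) : ℝ := Lg x 1 t - Lg 0 1 t

/-- its derivative -/
noncomputable def ka (x t : ℝ) : ℝ := Q x 1 t - Q 0 1 t

lemma La_deriv (x t : ℝ) : HasDerivAt (La x) (ka x t) t :=
  (Lg_deriv x le_rfl t).sub (Lg_deriv 0 le_rfl t)

lemma ka_cont (x : ℝ) : Continuous (ka x) := (Q_cont x le_rfl).fun_sub (Q_cont 0 le_rfl)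

lemma La_le (x t : ℝ) : |La x t| ≤ log (2 + 2 * x ^ 2) / 2 := by
  have h1 := den_pos le_rfl (t - x)
  have h2 := den_pos le_rfl (t - 0)
  have h3 : (0 : ℝ) < 2 + 2 * x ^ 2 := by positivity
  have a1 : log ((t - x) ^ 2 + 1 ^ 2) ≤ log (2 + 2 * x ^ 2) + log ((t - 0) ^ 2 + 1 ^ 2) := by
    rw [← log_mul h3.ne' h2.ne']
    apply log_le_log h1
    nlinarith [sq_nonneg (t + x), sq_nonneg (t * x)]
  have a2 : log ((t - 0) ^ 2 + 1 ^ 2) ≤ log (2 + 2 * x ^ 2) + log ((t - x) ^ 2 + 1 ^ 2) := by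
    rw [← log_mul h3.ne' h1.ne']
    apply log_le_log h2
    nlinarith [sq_nonneg (t - 2 * x), sq_nonneg ((t - x) * x)]
  have key : ∀ A B L : ℝ, A ≤ L + B → B ≤ L + A → |A / 2 - B / 2| ≤ L / 2 := fun A B L u v => by
    rw [abs_le]
    constructor <;> linarith
  exact key _ _ _ a1 a2

lemma ka_eq (x t : ℝ) :
    ka x t = x * ((t ^ 2 - x * t - 1) / (((t - x) ^ 2 + 1 ^ 2) * ((t - 0) ^ 2 + 1 ^ 2))) := by
  have h1 := den_pos le_rfl (t - x)
  have h2 := den_pos le_rfl (t - 0)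
  unfold ka Q
  field_simp
  ring

lemma piece (x : ℝ) {A B : ℝ} (hAB : A ≤ B)
    (h : (∀ t ∈ Ioo A B, 0 ≤ t ^ 2 - x * t - 1) ∨ ∀ t ∈ Ioo A B, t ^ 2 - x * t - 1 ≤ 0) :
    ∫ t in A..B, |ka x t| ≤ log (2 + 2 * x ^ 2) := by
  have h1 : ∫ t in A..B, ka x t = La x B - La x A :=
    intervalIntegral.integral_eq_sub_of_hasDerivAt (fun t _ => La_deriv x t)
      ((ka_cont x).intervalIntegrable _ _)
  have hs : (∀ t ∈ Ioo A B, 0 ≤ ka x t) ∨ ∀ t ∈ Ioo A B, ka x t ≤ 0 := by
    have hp : ∀ t : ℝ, 0 < ((t - x) ^ 2 + 1 ^ 2) * ((t - 0) ^ 2 + 1 ^ 2) := fun t =>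
      mul_pos (den_pos le_rfl _) (den_pos le_rfl _)
    rcases h with h | h <;> rcases le_total 0 x with hx | hx
    · exact Or.inl fun t ht => by
        rw [ka_eq]; exact mul_nonneg hx (div_nonneg (h t ht) (hp t).le)
    · exact Or.inr fun t ht => by
        rw [ka_eq]; exact mul_nonpos_of_nonpos_of_nonneg hx (div_nonneg (h t ht) (hp t).le)
    · exact Or.inr fun t ht => by
        rw [ka_eq]
        exact mul_nonpos_of_nonneg_of_nonpos hx (div_nonpos_of_nonpos_of_nonneg (h t ht) (hp t).le)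
    · exact Or.inl fun t ht => by
        rw [ka_eq]
        exact mul_nonneg_of_nonpos_of_nonpos hx (div_nonpos_of_nonpos_of_nonneg (h t ht) (hp t).le)
  have a1 := abs_le.1 (La_le x A)
  have a2 := abs_le.1 (La_le x B)
  rcases hs with hs | hs
  · have : ∫ t in A..B, |ka x t| = ∫ t in A..B, ka x t := by
      rw [intervalIntegral.integral_of_le hAB, intervalIntegral.integral_of_le hAB,
        integral_Ioc_eq_integral_Ioo, integral_Ioc_eq_integral_Ioo]
      exact setIntegral_congr_fun measurableSet_Ioo fun t ht => abs_of_nonneg (hs t ht)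
    rw [this, h1]
    linarith [a1.1, a2.2]
  · have : ∫ t in A..B, |ka x t| = -∫ t in A..B, ka x t := by
      rw [← intervalIntegral.integral_neg, intervalIntegral.integral_of_le hAB,
        intervalIntegral.integral_of_le hAB, integral_Ioc_eq_integral_Ioo,
        integral_Ioc_eq_integral_Ioo]
      exact setIntegral_congr_fun measurableSet_Ioo fun t ht => abs_of_nonpos (hs t ht)
    rw [this, h1]
    linarith [a1.2, a2.1]

lemma var_le (x A B : ℝ) (hAB : A ≤ B) : ∫ t in A..B, |ka x t| ≤ 3 * log (2 + 2 * x ^ 2) := by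
  set s := √(x ^ 2 + 4) with hs
  have hs0 : 0 ≤ s := sqrt_nonneg _
  have hs2 : s ^ 2 = x ^ 2 + 4 := sq_sqrt (by positivity)
  set p := (x - s) / 2 with hp
  set q := (x + s) / 2 with hq
  have hpq : p ≤ q := by rw [hp, hq]; linarith
  have hf : ∀ t : ℝ, t ^ 2 - x * t - 1 = (t - p) * (t - q) := fun t => by
    rw [hp, hq]; nlinarith
  set u := max A (min p B) with hu
  set v := max A (min q B) with hv
  have h1 : A ≤ u := le_max_left _ _
  have h2 : u ≤ v := max_le_max le_rfl (min_le_min hpq le_rfl)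
  have h3 : v ≤ B := max_le hAB (min_le_right _ _)
  have hi : ∀ a b : ℝ, IntervalIntegrable (fun t => |ka x t|) volume a b := fun a b =>
    (ka_cont x).abs.intervalIntegrable _ _
  rw [← intervalIntegral.integral_add_adjacent_intervals (hi A v) (hi v B),
    ← intervalIntegral.integral_add_adjacent_intervals (hi A u) (hi u v)]
  have a1 := piece x h1 (Or.inl fun t ht => by
    have : t ≤ p := by
      rcases lt_max_iff.1 ht.2 with h | h
      · exact absurd ht.1 (not_lt.2 h.le)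
      · exact (lt_min_iff.1 h).1.le
    rw [hf]
    exact mul_nonneg_of_nonpos_of_nonpos (by linarith) (by linarith))
  have a2 := piece x h2 (Or.inr fun t ht => by
    have b1 : t < q ∧ t < B := by
      rcases lt_max_iff.1 ht.2 with h | h
      · exact absurd (h1.trans_lt ht.1) (not_lt.2 h.le)
      · exact lt_min_iff.1 h
    have b2 : p ≤ t := by
      rcases min_lt_iff.1 (max_lt_iff.1 ht.1).2 with h | h
      · exact h.le
      · exact absurd b1.2 (not_lt.2 h.le)
    rw [hf]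
    exact mul_nonpos_of_nonneg_of_nonpos (by linarith) (by linarith [b1.1]))
  have a3 := piece x h3 (Or.inl fun t ht => by
    have : q ≤ t := by
      rcases min_lt_iff.1 (max_lt_iff.1 ht.1).2 with h | h
      · exact h.le
      · exact absurd ht.2 (not_lt.2 h.le)
    rw [hf]
    exact mul_nonneg (by linarith) (by linarith))
  linarith

section Om

variable {ι : Type} [Fintype ι] (w c r : ι → ℝ)

/-- the conjugate function -/
noncomputable def om (t : ℝ) : ℝ := ∑ i, w i * r i ^ 2 * Q (c i) (r i) t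

variable {r} (h1 : ∀ i, 1 ≤ r i)
include h1

lemma om_cont : Continuous (om w c r) :=
  continuous_finsetSum _ fun i _ => continuous_const.fun_mul (Q_cont _ (h1 i))

lemma om_tend {l : Filter ℝ} (hl : ∀ c : ℝ, Tendsto (fun t : ℝ => |t - c|) l atTop) :
    Tendsto (om w c r) l (𝓝 0) := by
  have := tendsto_finsetSum (Finset.univ : Finset ι) fun i _ =>
    (Q_tend (c i) (hl _) (h1 i)).const_mul (w i * r i ^ 2)
  simp only [mul_zero, Finset.sum_const_zero] at this
  exact this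

lemma om_slope {b : ℝ}
    (h2 : ∀ x, ∑ i, |w i| * (r i ^ 2 / (r i ^ 2 + (x - c i) ^ 2)) ≤ b / 2) :
    Monotone fun t => b / 2 * t + om w c r t := by
  have hd : ∀ t, HasDerivAt (fun t => b / 2 * t + om w c r t) (b / 2 * 1 + ∑ i, w i * r i ^ 2 *
      ((r i ^ 2 - (t - c i) ^ 2) / ((t - c i) ^ 2 + r i ^ 2) ^ 2)) t := fun t =>
    ((hasDerivAt_id t).const_mul (b / 2)).add
      (HasDerivAt.fun_sum fun i _ => (Q_deriv (c i) (h1 i) t).const_mul _)
  apply monotone_of_deriv_nonneg (fun t => (hd t).differentiableAt)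
  intro t
  rw [(hd t).deriv]
  have : -∑ i, |w i| * (r i ^ 2 / (r i ^ 2 + (t - c i) ^ 2)) ≤ ∑ i, w i * r i ^ 2 *
      ((r i ^ 2 - (t - c i) ^ 2) / ((t - c i) ^ 2 + r i ^ 2) ^ 2) := by
    rw [← Finset.sum_neg_distrib]
    refine Finset.sum_le_sum fun i _ => ?_
    have hp := den_pos (h1 i) (t - c i)
    refine (neg_le_neg ?_).trans (neg_abs_le _)
    rw [abs_mul, abs_mul, mul_assoc]
    refine mul_le_mul_of_nonneg_left ?_ (abs_nonneg _)
    rw [abs_of_nonneg (sq_nonneg _), abs_div, abs_of_pos (pow_pos hp 2), add_comm (r i ^ 2),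
      div_eq_mul_inv (r i ^ 2)]
    refine mul_le_mul_of_nonneg_left ?_ (sq_nonneg _)
    rw [div_le_iff₀ (pow_pos hp 2), sq ((t - c i) ^ 2 + r i ^ 2), ← mul_assoc,
      inv_mul_cancel₀ hp.ne', one_mul, abs_le]
    constructor <;> nlinarith [sq_nonneg (r i), sq_nonneg (t - c i)]
  linarith [h2 t]

lemma om_int (x : ℝ) {A B V : ℝ} (hV : ∀ A B, A ≤ B → ∫ t in A..B, |ka x t| ≤ V)
    (hA : ∀ t, t ≤ A → |om w c r t| ≤ π) (hB : ∀ t, B ≤ t → |om w c r t| ≤ π) :
    |(∫ t in A..B, ka x t * om w c r t) - π * (pot w c r x - pot w c r 0)| ≤ 2 * (π * V) := by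
  choose F a a' hF ha ha' he using fun i => anti (c i) x (h1 i)
  choose F0 a0 a0' hF0 ha0 ha0' he0 using fun i => anti (c i) 0 (h1 i)
  set G : ℝ → ℝ := fun t => ∑ i, w i * r i ^ 2 * (F i t - F0 i t) with hG
  have hd : ∀ t, HasDerivAt G (ka x t * om w c r t) t := fun t => by
    have := HasDerivAt.fun_sum (u := Finset.univ) fun i _ =>
      ((hF i t).sub (hF0 i t)).const_mul (w i * r i ^ 2)
    refine HasDerivAt.congr_deriv this ?_
    unfold om ka
    rw [Finset.mul_sum]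
    exact Finset.sum_congr rfl fun i _ => by ring
  have hi : ∀ a b, ∫ t in a..b, ka x t * om w c r t = G b - G a := fun a b =>
    intervalIntegral.integral_eq_sub_of_hasDerivAt (fun t _ => hd t)
      (((ka_cont x).fun_mul (om_cont w c h1)).intervalIntegrable _ _)
  have t1 : Tendsto G atTop (𝓝 (∑ i, w i * r i ^ 2 * (a i - a0 i))) :=
    tendsto_finsetSum _ fun i _ => ((ha i).sub (ha0 i)).const_mul _
  have t2 : Tendsto G atBot (𝓝 (∑ i, w i * r i ^ 2 * (a' i - a0' i))) :=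
    tendsto_finsetSum _ fun i _ => ((ha' i).sub (ha0' i)).const_mul _
  have e : π * (pot w c r x - pot w c r 0) =
      ∑ i, w i * r i ^ 2 * (a i - a0 i) - ∑ i, w i * r i ^ 2 * (a' i - a0' i) := by
    unfold pot
    rw [← Finset.sum_sub_distrib, ← Finset.sum_sub_distrib, Finset.mul_sum]
    refine Finset.sum_congr rfl fun i _ => ?_
    have e1 := he i
    have e2 := he0 i
    have : w i * r i ^ 2 * (a i - a0 i) - w i * r i ^ 2 * (a' i - a0' i) =
        w i * r i ^ 2 * ((a i - a' i) - (a0 i - a0' i)) := by ring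
    rw [this, e1, e2]
    ring
  have b1 : |∑ i, w i * r i ^ 2 * (a i - a0 i) - G B| ≤ π * V := by
    refine le_of_tendsto (t1.sub_const (G B)).abs ?_
    filter_upwards [eventually_ge_atTop B] with S hS
    rw [← hi]
    refine wt2 (ka_cont x) (om_cont w c h1) hV pi_pos.le fun t ht => hB t ?_
    rw [uIcc_of_le hS] at ht
    exact ht.1
  have b2 : |∑ i, w i * r i ^ 2 * (a' i - a0' i) - G A| ≤ π * V := by
    refine le_of_tendsto (t2.sub_const (G A)).abs ?_
    filter_upwards [eventually_le_atBot A] with S hS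
    rw [← hi]
    refine wt2 (ka_cont x) (om_cont w c h1) hV pi_pos.le fun t ht => hA t ?_
    rw [uIcc_of_ge hS] at ht
    exact ht.2
  rw [hi, e]
  rw [abs_le] at b1 b2 ⊢
  constructor <;> linarith [b1.1, b1.2, b2.1, b2.2]

end Om

end F1a

open F1a Filter Topology in
theorem zeros_exist {b : ℝ} (hb : b ∈ Ioc (0 : ℝ) 1) (ι : Type) [Fintype ι] (w c r : ι → ℝ)
    (h1 : ∀ i, 1 ≤ r i) (h2 : ∀ x, ∑ i, |w i| * (r i ^ 2 / (r i ^ 2 + (x - c i) ^ 2)) ≤ b / 2)
    (h3 : ∑ i, w i * (r i ^ 2 * c i / (r i ^ 2 + c i ^ 2)) = 0) (n : ℕ) :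
    ∃ N : ℕ, n ≤ N ∧ ∃ t : ℤ → ℝ, (∀ k, |t k| ≤ 2 * π * |(k : ℝ)| / b) ∧ ∀ x : ℝ,
      |∑ k ∈ Finset.Icc (-N : ℤ) N, (log ((x - t k) ^ 2 + 1) - log (t k ^ 2 + 1) -
        log ((x - π * k / b) ^ 2 + 1) + log ((π * k / b) ^ 2 + 1)) / 2 +
        pot w c r x - pot w c r 0| ≤ 20 * log (2 + 2 * x ^ 2) := by
  have hb0 : 0 < b := hb.1
  set ω := om w c r with hω
  have hωc : Continuous ω := om_cont w c h1
  have hω0 : ω 0 = 0 := by
    rw [hω, om, ← neg_eq_zero, ← Finset.sum_neg_distrib]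
    refine Eq.trans (Finset.sum_congr rfl fun i _ => ?_) h3
    unfold Q
    rw [show (0 - c i) ^ 2 + r i ^ 2 = r i ^ 2 + c i ^ 2 by ring]
    ring
  set φ : ℝ → ℝ := fun t => b * t + ω t with hφ
  have hφc : Continuous φ := (continuous_const.fun_mul continuous_id).fun_add hωc
  have hsl : ∀ s t, s ≤ t → b / 2 * (t - s) ≤ φ t - φ s := fun s t h => by
    have := om_slope w c h1 h2 h
    simp only [hφ]
    simp only [← hω] at this
    linarith
  have hφm : StrictMono φ := fun s t h => by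
    have := hsl s t h.le
    have : 0 < b / 2 * (t - s) := mul_pos (by linarith) (by linarith)
    linarith
  have hφ0 : φ 0 = 0 := by simp [hφ, hω0]
  have habs : ∀ t, b / 2 * |t| ≤ |φ t| := fun t => by
    rcases le_total 0 t with h | h
    · have := hsl 0 t h
      rw [abs_of_nonneg h]
      linarith [le_abs_self (φ t)]
    · have := hsl t 0 h
      rw [abs_of_nonpos h]
      linarith [neg_abs_le (φ t)]
  have hsurj : ∀ y, ∃ t, φ t = y := fun y => by
    have hM : 0 ≤ 2 * |y| / b := by positivity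
    have e : b / 2 * (2 * |y| / b) = |y| := by field_simp
    have a1 := hsl 0 _ hM
    have a2 := hsl (-(2 * |y| / b)) 0 (by linarith)
    have := intermediate_value_Icc (a := -(2 * |y| / b)) (b := 2 * |y| / b) (by linarith)
      hφc.continuousOn
    have hy : y ∈ Icc (φ (-(2 * |y| / b))) (φ (2 * |y| / b)) :=
      ⟨by linarith [neg_abs_le y], by linarith [le_abs_self y]⟩
    obtain ⟨t, -, ht⟩ := this hy
    exact ⟨t, ht⟩
  choose τ hτ using fun k : ℤ => hsurj (π * k)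
  obtain ⟨T1, hT1⟩ := eventually_atTop.1
    ((om_tend w c h1 abs_top).abs.eventually (ge_mem_nhds (by simpa using pi_pos) :
      ∀ᶠ y in 𝓝 |(0 : ℝ)|, y ≤ π))
  obtain ⟨T2, hT2⟩ := eventually_atBot.1
    ((om_tend w c h1 abs_bot).abs.eventually (ge_mem_nhds (by simpa using pi_pos) :
      ∀ᶠ y in 𝓝 |(0 : ℝ)|, y ≤ π))
  obtain ⟨N, hN⟩ := exists_nat_ge (max (n : ℝ) (max |φ T1| |φ T2|))
  have hN0 : (0 : ℝ) ≤ N := Nat.cast_nonneg N
  have hN1 : |φ T1| ≤ N := (le_max_left _ _).trans ((le_max_right _ _).trans hN)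
  have hN2 : |φ T2| ≤ N := (le_max_right _ _).trans ((le_max_right _ _).trans hN)
  have hB : T1 ≤ τ (N + 1) := by
    rw [← hφm.le_iff_le, hτ]
    push_cast
    nlinarith [le_abs_self (φ T1), pi_gt_three]
  have hA : τ (-N) ≤ T2 := by
    rw [← hφm.le_iff_le, hτ]
    push_cast
    nlinarith [neg_abs_le (φ T2), pi_gt_three]
  refine ⟨N, by exact_mod_cast (le_max_left _ _).trans hN, τ, fun k => ?_, fun x => ?_⟩
  · have := habs (τ k)
    rw [hτ, abs_mul, abs_of_pos pi_pos] at this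
    rw [le_div_iff₀ hb0]
    linarith
  set V := 3 * log (2 + 2 * x ^ 2) with hV
  have hVl := var_le x
  have hlog : 0 ≤ log (2 + 2 * x ^ 2) := log_nonneg (by nlinarith [sq_nonneg x])
  have hψc : Continuous fun t : ℝ => b * t := continuous_const.fun_mul continuous_id
  have s1 := sum_cmp (La_deriv x) (ka_cont x) hφc hφm τ hτ hVl N
  have s2 := sum_cmp (La_deriv x) (ka_cont x) hψc (fun s t h => mul_lt_mul_of_pos_left h hb0)
    (fun k : ℤ => π * k / b) (fun k => by field_simp) hVl N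
  have s3 := om_int w c h1 x hVl (A := τ (-N)) (B := τ (N + 1))
    (fun t ht => hT2 t (ht.trans hA)) (fun t ht => hT1 t (hB.trans ht))
  have shift : ∀ k : ℤ, |ω (τ k)| ≤ π →
      |(π * k * La x (τ k) - ∫ t in (0 : ℝ)..τ k, ka x t * (b * t)) -
        (π * k * La x (π * k / b) - ∫ t in (0 : ℝ)..π * k / b, ka x t * (b * t))| ≤ π * V := by
    intro k hk
    rw [bdry (La_deriv x) (ka_cont x) hψc]
    refine wt2 (ka_cont x) (continuous_const.fun_sub hψc) hVl pi_pos.le fun t ht => ?_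
    have e1 : b * τ k + ω (τ k) = π * k := hτ k
    have e2 : b * (π * k / b) = π * k := by field_simp
    rw [abs_le] at hk ⊢
    rcases mem_uIcc.1 ht with h | h
    · have a1 := mul_le_mul_of_nonneg_left h.1 hb0.le
      have a2 := mul_le_mul_of_nonneg_left h.2 hb0.le
      constructor <;> linarith [hk.1, hk.2]
    · have a1 := mul_le_mul_of_nonneg_left h.1 hb0.le
      have a2 := mul_le_mul_of_nonneg_left h.2 hb0.le
      constructor <;> linarith [hk.1, hk.2]
  have s4 := shift (N + 1) (hT1 _ hB)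
  have s5 := shift (-N) (hT2 _ hA)
  have spl : ∀ y, ∫ t in (0 : ℝ)..y, ka x t * φ t =
      (∫ t in (0 : ℝ)..y, ka x t * (b * t)) + ∫ t in (0 : ℝ)..y, ka x t * ω t := fun y => by
    rw [← intervalIntegral.integral_add (((ka_cont x).fun_mul hψc).intervalIntegrable _ _)
      (((ka_cont x).fun_mul hωc).intervalIntegrable _ _)]
    congr 1
    ext t
    simp only [hφ]
    ring
  have s6 := intervalIntegral.integral_interval_sub_left
    (((ka_cont x).fun_mul hωc).intervalIntegrable (μ := volume) 0 (τ (N + 1)))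
    (((ka_cont x).fun_mul hωc).intervalIntegrable 0 (τ (-N)))
  rw [spl, spl] at s1
  have e : ∑ k ∈ Finset.Icc (-N : ℤ) N, (log ((x - τ k) ^ 2 + 1) - log (τ k ^ 2 + 1) -
      log ((x - π * k / b) ^ 2 + 1) + log ((π * k / b) ^ 2 + 1)) / 2 =
      ∑ k ∈ Finset.Icc (-N : ℤ) N, La x (τ k) - ∑ k ∈ Finset.Icc (-N : ℤ) N, La x (π * k / b) := by
    rw [← Finset.sum_sub_distrib]
    refine Finset.sum_congr rfl fun k _ => ?_
    unfold La Lg
    rw [show (τ k - x) ^ 2 + 1 ^ 2 = (x - τ k) ^ 2 + 1 by ring,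
      show (τ k - 0) ^ 2 + 1 ^ 2 = τ k ^ 2 + 1 by ring,
      show (π * k / b - x) ^ 2 + 1 ^ 2 = (x - π * k / b) ^ 2 + 1 by ring,
      show (π * k / b - 0) ^ 2 + 1 ^ 2 = (π * k / b) ^ 2 + 1 by ring]
    ring
  rw [e]
  push_cast at s2 s4 s5
  simp only [← hω] at s3
  refine le_of_mul_le_mul_left ?_ pi_pos
  rw [← abs_of_pos pi_pos, ← abs_mul, abs_of_pos pi_pos]
  rw [abs_le] at s1 s2 s3 s4 s5 ⊢
  have hpl : 0 ≤ π * log (2 + 2 * x ^ 2) := mul_nonneg pi_pos.le hlog
  have hpv : π * V = 3 * (π * log (2 + 2 * x ^ 2)) := by rw [hV]; ring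
  constructor <;> linarith [s1.1, s1.2, s2.1, s2.2, s3.1, s3.2, s4.1, s4.2, s5.1, s5.2]

end Pool.Agent.Lib.MP_e1e19a_an
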