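import Pool.Agent.Lib.MP_e1e19a_an.N.Core

/-!
A harmonic weight adapted to a porous set.
-/

namespace Pool.Agent.Lib.MP_e1e19a_an

open Real MeasureTheory Set
open scoped MatrixGroups ComplexConjugate UpperHalfPlane

namespace F2

/-- porosity at all scales above `L₁` -/
def Por (Y : Set ℝ) (ν L₁ : ℝ) : Prop :=
  ∀ x ℓ, L₁ ≤ ℓ → ∃ y, x ≤ y ∧ y + ν * ℓ ≤ x + ℓ ∧ ∀ t ∈ Y, t ∉ Icc y (y + ν * ℓ)

lemma Por.neg {Y : Set ℝ} {ν L₁ : ℝ} (h : Por Y ν L₁) : Por (-Y) ν L₁ := fun x ℓ hl => by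
  obtain ⟨y, h1, h2, h3⟩ := h (-x - ℓ) ℓ hl
  refine ⟨-y - ν * ℓ, by linarith, by linarith, fun t ht hI => h3 (-t) ht ⟨?_, ?_⟩⟩
  · linarith [hI.2]
  · linarith [hI.1]

lemma exists_cell {x s t : ℝ} (n : ℕ) (h1 : x ≤ t) (h2 : t ≤ x + (n + 1 : ℕ) * s) :
    ∃ q < n + 1, x + q * s ≤ t ∧ t ≤ x + (q + 1) * s := by
  induction n with
  | zero => exact ⟨0, one_pos, by simpa using h1, by simpa using h2⟩
  | succ n ih =>
    by_cases h : t ≤ x + (n + 1 : ℕ) * s
    · obtain ⟨q, hq, h3⟩ := ih h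
      exact ⟨q, by omega, h3⟩
    · exact ⟨n + 1, by omega, (not_le.1 h).le, by exact_mod_cast h2⟩

/-- few grid cells meet a porous set -/
lemma cover {Y : Set ℝ} {ν L₁ r : ℝ} {n : ℕ} (h : Por Y ν L₁) (hn : 2 ≤ ν * (n + 1 : ℕ))
    (hr : 0 < r) (hL : L₁ ≤ r) (j : ℕ) : ∀ x : ℝ, ∃ T : Finset ℕ, (∀ i ∈ T, i < (n + 1) ^ j) ∧
      T.card ≤ n ^ j ∧ ∀ t ∈ Y, x ≤ t → t ≤ x + ((n + 1) ^ j : ℕ) * r →
        ∃ i ∈ T, x + i * r ≤ t ∧ t ≤ x + (i + 1) * r := by
  induction j with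
  | zero =>
    exact fun x => ⟨{0}, by simp, by simp, fun t _ h1 h2 => ⟨0, by simp, by simpa using h1,
      by simpa using h2⟩⟩
  | succ j ih =>
    intro x
    choose T hT1 hT2 hT3 using ih
    set N : ℕ := (n + 1) ^ j with hN
    have hN1 : (1 : ℝ) ≤ N := by exact_mod_cast Nat.one_le_pow _ _ n.succ_pos
    have hs : 0 < (N : ℝ) * r := by positivity
    have hn1 : (1 : ℝ) ≤ (n + 1 : ℕ) := by exact_mod_cast n.succ_pos
    obtain ⟨y, y1, y2, y3⟩ := h x ((n + 1 : ℕ) * (N * r)) (by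
      have : r ≤ N * r := le_mul_of_one_le_left hr.le hN1
      have : N * r ≤ (n + 1 : ℕ) * (N * r) := le_mul_of_one_le_left hs.le hn1
      linarith)
    have h2 : 2 * (N * r) ≤ ν * ((n + 1 : ℕ) * (N * r)) := by
      rw [← mul_assoc ν]
      exact mul_le_mul_of_nonneg_right hn hs.le
    set q₀ : ℕ := ⌈(y - x) / (N * r)⌉₊ with hq
    have q1 : y - x ≤ q₀ * (N * r) := (div_le_iff₀ hs).1 (Nat.le_ceil _)
    have q2 : q₀ * (N * r) < y - x + N * r := by
      have := Nat.ceil_lt_add_one (div_nonneg (sub_nonneg.2 y1) hs.le)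
      rw [div_add_one hs.ne', lt_div_iff₀ hs] at this
      exact this
    have q3 : q₀ < n + 1 := by
      have : (q₀ : ℝ) * (N * r) < (n + 1 : ℕ) * (N * r) := by linarith
      exact_mod_cast lt_of_mul_lt_mul_right this hs.le
    refine ⟨((Finset.range (n + 1)).erase q₀).biUnion fun q =>
      (T (x + q * (N * r))).image fun i => q * N + i, ?_, ?_, ?_⟩
    · intro i hi
      simp only [Finset.mem_biUnion, Finset.mem_erase, Finset.mem_range, Finset.mem_image] at hi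
      obtain ⟨q, ⟨-, hq'⟩, i', hi', rfl⟩ := hi
      have := hT1 _ _ hi'
      rw [pow_succ, ← hN]
      nlinarith
    · refine (Finset.card_biUnion_le_card_mul _ _ (n ^ j) fun q _ =>
        Finset.card_image_le.trans (hT2 _)).trans ?_
      rw [Finset.card_erase_of_mem (Finset.mem_range.2 q3), Finset.card_range, pow_succ,
        Nat.add_sub_cancel, mul_comm]
    · intro t ht t1 t2
      obtain ⟨q, hq', t3, t4⟩ := exists_cell (s := N * r) n t1 (by
        rw [pow_succ, ← hN] at t2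
        push_cast at t2 ⊢
        linarith)
      have hne : q ≠ q₀ := by
        rintro rfl
        exact y3 t ht ⟨by linarith, by linarith⟩
      obtain ⟨i, hi, t5, t6⟩ := hT3 (x + q * (N * r)) t ht t3 (by linarith)
      refine ⟨q * N + i, ?_, ?_, ?_⟩
      · simp only [Finset.mem_biUnion, Finset.mem_erase, Finset.mem_range, Finset.mem_image]
        exact ⟨q, ⟨hne, hq'⟩, i, hi, rfl⟩
      · push_cast
        linarith
      · push_cast
        linarith

/-- the choice of the number of cells at each dyadic scale -/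
lemma scales {n : ℕ} (hn : 1 ≤ n) : ∃ a ∈ Ioo (0 : ℝ) 1, ∃ S > 0, ∃ j : ℕ → ℕ,
    (∀ k : ℕ, 1 ≤ k → (((n + 1) ^ j k : ℕ) : ℝ) ≤ (k : ℝ) ^ a) ∧
    ∀ K : Finset ℕ, (∀ k ∈ K, 1 ≤ k) →
      ∑ k ∈ K, ((n ^ j k : ℕ) : ℝ) / (((n + 1) ^ j k : ℕ) : ℝ) ^ 2 ≤ S := by
  have n1 : (1 : ℝ) ≤ n := by exact_mod_cast hn
  set M : ℝ := n + 2 with hM
  have hM1 : 1 < M := by linarith
  have hM0 : 0 < M := by linarith
  have lM : 0 < log M := log_pos hM1
  set θ : ℝ := n / (n + 1) ^ 2 with hθ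
  have θ0 : 0 < θ := by positivity
  set s : ℝ := -log θ / log M with hs
  have hs1 : 1 < s := by
    rw [hs, lt_div_iff₀ lM, one_mul, ← log_inv]
    refine log_lt_log hM0 ?_
    rw [hθ, inv_div, lt_div_iff₀ (by linarith), hM]
    nlinarith
  have hθs : θ = M ^ (-s) := by
    rw [rpow_def_of_pos hM0, hs, show log M * -(-log θ / log M) = log θ by field_simp, exp_log θ0]
  have hsum : Summable fun k : ℕ => M ^ s * (k : ℝ) ^ (-s) :=
    (summable_nat_rpow.2 (by linarith)).mul_left _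
  refine ⟨log (n + 1) / log M, ⟨div_pos (log_pos (by linarith)) lM,
    (div_lt_one lM).2 (log_lt_log (by linarith) (by linarith))⟩,
    ∑' k : ℕ, M ^ s * (k : ℝ) ^ (-s) + 1, ?_, fun k => Nat.log (n + 2) k, ?_, ?_⟩
  · have : 0 ≤ ∑' k : ℕ, M ^ s * (k : ℝ) ^ (-s) := tsum_nonneg fun k => by positivity
    linarith
  · intro k hk
    have h1 : M ^ Nat.log (n + 2) k ≤ k := by
      have := Nat.pow_log_le_self (n + 2) (show k ≠ 0 by omega)
      rw [hM]
      exact_mod_cast this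
    have h2 : M ^ (log (n + 1) / log M) = n + 1 := by
      rw [rpow_def_of_pos hM0, show log M * (log (n + 1) / log M) = log (n + 1) by field_simp,
        exp_log (by linarith)]
    push_cast
    rw [← h2, ← rpow_natCast, ← rpow_mul hM0.le, mul_comm, rpow_mul hM0.le, rpow_natCast, h2]
    exact rpow_le_rpow (by positivity) h1 (div_pos (log_pos (by linarith)) lM).le
  · intro K hK
    refine le_trans ?_ (le_add_of_nonneg_right zero_le_one)
    refine le_trans (Finset.sum_le_sum fun k hk => ?_)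
      (hsum.sum_le_tsum K fun k _ => by positivity)
    have hk1 : (0 : ℝ) < k := by exact_mod_cast hK k hk
    have h1 : (k : ℝ) / M ≤ M ^ Nat.log (n + 2) k := by
      have := Nat.lt_pow_succ_log_self (show 1 < n + 2 by omega) k
      rw [div_le_iff₀ hM0, ← pow_succ, hM]
      exact_mod_cast this.le
    calc ((n ^ Nat.log (n + 2) k : ℕ) : ℝ) / (((n + 1) ^ Nat.log (n + 2) k : ℕ) : ℝ) ^ 2
        = θ ^ Nat.log (n + 2) k := by
          rw [hθ, div_pow, ← pow_mul ((n : ℝ) + 1), mul_comm 2, pow_mul]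
          push_cast
          rfl
      _ = (M ^ Nat.log (n + 2) k) ^ (-s) := by
          rw [hθs, ← rpow_natCast, ← rpow_mul hM0.le, mul_comm, rpow_mul hM0.le, rpow_natCast]
      _ ≤ ((k : ℝ) / M) ^ (-s) := rpow_le_rpow_of_nonpos (by positivity) h1 (by linarith)
      _ = M ^ s * (k : ℝ) ^ (-s) := by
          rw [div_rpow hk1.le hM0.le, rpow_neg hM0.le, div_inv_eq_mul, mul_comm]

lemma tele (v : ℝ) : 1 / (1 + v ^ 2) ≤ 4 * ((v + 1) / (1 + |v + 1|) - v / (1 + |v|)) := by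
  rcases le_total 0 v with h | h
  · rw [abs_of_nonneg h, abs_of_nonneg (by linarith), div_sub_div _ _ (by positivity)
      (by positivity), ← mul_div_assoc, div_le_div_iff₀ (by positivity) (by positivity)]
    nlinarith [sq_nonneg (v - 1)]
  rcases le_total 0 (v + 1) with h' | h'
  · rw [abs_of_nonpos h, abs_of_nonneg h', div_sub_div _ _ (by linarith) (by linarith),
      ← mul_div_assoc, div_le_div_iff₀ (by positivity) (mul_pos (by linarith) (by linarith))]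
    nlinarith [mul_nonneg h' (neg_nonneg.2 h), sq_nonneg v,
      mul_nonneg (sq_nonneg v) (mul_nonneg h' (neg_nonneg.2 h))]
  · rw [abs_of_nonpos h, abs_of_nonpos h', div_sub_div _ _ (by linarith) (by linarith),
      ← mul_div_assoc, div_le_div_iff₀ (by positivity) (mul_pos (by linarith) (by linarith))]
    nlinarith [sq_nonneg (v + 1)]

lemma grid_sum (T : Finset ℕ) (u : ℝ) : ∑ i ∈ T, 1 / (1 + ((i : ℝ) - u) ^ 2) ≤ 8 := by
  obtain ⟨N, hN⟩ := T.exists_nat_subset_range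
  have hb : ∀ v : ℝ, |v / (1 + |v|)| ≤ 1 := fun v => by
    rw [abs_div, abs_of_pos (show 0 < 1 + |v| by positivity), div_le_one (by positivity)]
    linarith
  calc ∑ i ∈ T, 1 / (1 + ((i : ℝ) - u) ^ 2) ≤ ∑ i ∈ Finset.range N, 1 / (1 + ((i : ℝ) - u) ^ 2) :=
        Finset.sum_le_sum_of_subset_of_nonneg hN fun _ _ _ => by positivity
    _ ≤ ∑ i ∈ Finset.range N, 4 * ((((i + 1 : ℕ) : ℝ) - u) / (1 + |((i + 1 : ℕ) : ℝ) - u|) -
          ((i : ℝ) - u) / (1 + |(i : ℝ) - u|)) := Finset.sum_le_sum fun i _ => by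
        have := tele ((i : ℝ) - u)
        rwa [show (i : ℝ) - u + 1 = ((i + 1 : ℕ) : ℝ) - u by push_cast; ring] at this
    _ ≤ 8 := by
        rw [← Finset.mul_sum, Finset.sum_range_sub fun i : ℕ => ((i : ℝ) - u) / (1 + |(i : ℝ) - u|)]
        linarith [abs_le.1 (hb ((N : ℝ) - u)), abs_le.1 (hb (((0 : ℕ) : ℝ) - u))]

/-- the Poisson kernel at height one -/
noncomputable def P (r c x : ℝ) : ℝ := r ^ 2 * (r + 1) / ((r + 1) ^ 2 + (x - c) ^ 2)

/-- the majorant of its derivative -/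
noncomputable def Q (r c x : ℝ) : ℝ := r ^ 2 / (r ^ 2 + (x - c) ^ 2)

lemma P_nonneg {r : ℝ} (hr : 1 ≤ r) (c x : ℝ) : 0 ≤ P r c x := by unfold P; positivity

lemma Q_nonneg (r c x : ℝ) : 0 ≤ Q r c x := by unfold Q; positivity

lemma Q_le_one (r c x : ℝ) : Q r c x ≤ 1 :=
  div_le_one_of_le₀ (le_add_of_nonneg_right (sq_nonneg _)) (by positivity)

lemma P_lip {r x : ℝ} (hr : 1 ≤ r) (c : ℝ) (hx : |x| ≤ 1) :
    |P r c x - P r c 0| ≤ (Q r c x + Q r c 0) / 2 := by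
  have hA : 0 < (r + 1) ^ 2 + (x - c) ^ 2 := by positivity
  have hB : 0 < (r + 1) ^ 2 + (0 - c) ^ 2 := by positivity
  have e : P r c x - P r c 0 = r ^ 2 * ((r + 1) * (x * ((c - x) + c))) /
      (((r + 1) ^ 2 + (x - c) ^ 2) * ((r + 1) ^ 2 + (0 - c) ^ 2)) := by
    unfold P
    field_simp
    ring
  have h1 : |(r + 1) * (x * ((c - x) + c))| ≤
      (((r + 1) ^ 2 + (x - c) ^ 2) + ((r + 1) ^ 2 + (0 - c) ^ 2)) / 2 := by
    rw [abs_mul, abs_mul, abs_of_pos (show 0 < r + 1 by linarith)]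
    have h2 : |x| * |c - x + c| ≤ |c - x| + |c| :=
      (mul_le_of_le_one_left (abs_nonneg _) hx).trans (abs_add_le _ _)
    have h3 := mul_le_mul_of_nonneg_left h2 (show 0 ≤ r + 1 by linarith)
    nlinarith [sq_nonneg (r + 1 - |c - x|), sq_nonneg (r + 1 - |c|), sq_abs (c - x), sq_abs c]
  have h4 : ∀ y : ℝ, r ^ 2 / ((r + 1) ^ 2 + (y - c) ^ 2) ≤ Q r c y := fun y =>
    div_le_div_of_nonneg_left (sq_nonneg _) (by positivity) (by nlinarith)
  rw [e, abs_div, abs_mul, abs_of_nonneg (sq_nonneg r), abs_of_pos (mul_pos hA hB)]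
  calc _ ≤ r ^ 2 * ((((r + 1) ^ 2 + (x - c) ^ 2) + ((r + 1) ^ 2 + (0 - c) ^ 2)) / 2) /
        (((r + 1) ^ 2 + (x - c) ^ 2) * ((r + 1) ^ 2 + (0 - c) ^ 2)) := by gcongr
    _ = (r ^ 2 / ((r + 1) ^ 2 + (x - c) ^ 2) + r ^ 2 / ((r + 1) ^ 2 + (0 - c) ^ 2)) / 2 := by
        field_simp
        ring
    _ ≤ _ := by linarith [h4 x, h4 0]

lemma P_pair {r c x : ℝ} (hr : 1 ≤ r) (h : (r + 1) ^ 2 + x ^ 2 ≤ 3 * c ^ 2) :
    P r c 0 + P r (-c) 0 ≤ P r c x + P r (-c) x := by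
  have hA : 0 < (r + 1) ^ 2 + (x - c) ^ 2 := by positivity
  have hB : 0 < (r + 1) ^ 2 + (x + c) ^ 2 := by positivity
  have hC : 0 < (r + 1) ^ 2 + c ^ 2 := by positivity
  have e : P r c x + P r (-c) x - (P r c 0 + P r (-c) 0) =
      2 * (r ^ 2 * (r + 1)) * (x ^ 2 * (3 * c ^ 2 - ((r + 1) ^ 2 + x ^ 2))) /
      (((r + 1) ^ 2 + (x - c) ^ 2) * ((r + 1) ^ 2 + (x + c) ^ 2) * ((r + 1) ^ 2 + c ^ 2)) := by
    unfold P
    simp only [sub_neg_eq_add, zero_sub, zero_add, neg_sq]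
    field_simp
    ring
  have := sub_nonneg.2 h
  rw [← sub_nonneg, e]
  positivity

lemma P_zero {r c R : ℝ} (hr : 1 ≤ r) (hR : 0 < R) (hc : R ≤ |c|) :
    P r c 0 ≤ 2 * r ^ 3 / R ^ 2 := by
  have : R ^ 2 ≤ c ^ 2 := by rw [← sq_abs c]; gcongr
  unfold P
  refine div_le_div₀ (by positivity) (by nlinarith) (by positivity) (by nlinarith)

lemma P_own {r c x : ℝ} (hr : 1 ≤ r) (h : |x - c| ≤ r) : r / 4 ≤ P r c x := by
  have : (x - c) ^ 2 ≤ r ^ 2 := by rw [← sq_abs]; gcongr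
  unfold P
  rw [div_le_div_iff₀ (by norm_num) (by positivity)]
  nlinarith [mul_le_mul_of_nonneg_left this (show 0 ≤ r by linarith),
    mul_nonneg (show 0 ≤ r by linarith) (show 0 ≤ r ^ 2 - 1 by nlinarith),
    mul_nonneg (show 0 ≤ r by linarith) (show 0 ≤ r - 1 by linarith)]

lemma P_gain {R : ℝ} (hR : 1 ≤ R) (x : ℝ) : P R 0 x ≤ P R 0 0 := by
  unfold P
  exact div_le_div_of_nonneg_left (by positivity) (by positivity) (by nlinarith [sq_nonneg x])

lemma P_gain' {R x : ℝ} (hR : 1 ≤ R) (hx : R / 2 ≤ |x|) : P R 0 x + R / 34 ≤ P R 0 0 := by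
  have h1 : (R / 2) ^ 2 ≤ x ^ 2 := by rw [← sq_abs x]; gcongr
  have e : P R 0 0 - P R 0 x = R ^ 2 / (R + 1) * (x ^ 2 / ((R + 1) ^ 2 + x ^ 2)) := by
    unfold P
    simp only [sub_zero]
    field_simp
    ring
  have h2 : R / 2 ≤ R ^ 2 / (R + 1) := by
    rw [div_le_div_iff₀ (by norm_num) (by positivity)]
    nlinarith
  have h3 : 1 / 17 ≤ x ^ 2 / ((R + 1) ^ 2 + x ^ 2) := by
    rw [div_le_div_iff₀ (by norm_num) (by positivity)]
    nlinarith
  have := mul_le_mul h2 h3 (by norm_num) (by positivity)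
  linarith

/-- the contribution of one dyadic scale -/
noncomputable def G (T : Finset ℕ) (R r α x : ℝ) : ℝ :=
  ∑ i ∈ T, (P r (R + i * r) x + P r (-(R + i * r)) x) - α * P R 0 x

lemma scale_pot {T : Finset ℕ} {R r N m α : ℝ} (hR : 2 ≤ R) (hN : 1 ≤ N) (hr : 1 ≤ r)
    (e : R = N * r) (hm : T.card ≤ m) (hα : α = 136 * m / N ^ 3) (x : ℝ) :
    G T R r α 0 ≤ G T R r α x ∧ ∀ i ∈ T, R + i * r ≤ |x| → |x| ≤ R + (i + 1) * r →
      G T R r α 0 + r / 4 ≤ G T R r α x := by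
  have m0 : 0 ≤ m := (Nat.cast_nonneg _).trans hm
  have α0 : 0 ≤ α := by rw [hα]; positivity
  have rR : r ≤ R := by nlinarith
  have hc : ∀ i : ℕ, R ≤ R + i * r := fun i => le_add_of_nonneg_right (by positivity)
  have far : R / 2 ≤ |x| → G T R r α 0 +
      ∑ i ∈ T, (P r (R + i * r) x + P r (-(R + i * r)) x) ≤ G T R r α x := fun hx => by
    have h1 := P_gain' (by linarith) hx
    have h2 : ∑ i ∈ T, (P r (R + i * r) 0 + P r (-(R + i * r)) 0) ≤
        T.card • (4 * r ^ 3 / R ^ 2) := Finset.sum_le_card_nsmul _ _ _ fun i _ => by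
      have h3 := P_zero (c := R + i * r) hr (by linarith) ((hc i).trans (le_abs_self _))
      have h4 := P_zero (c := -(R + i * r)) hr (by linarith)
        ((hc i).trans ((le_abs_self _).trans (abs_neg _).ge))
      rw [show 4 * r ^ 3 / R ^ 2 = 2 * r ^ 3 / R ^ 2 + 2 * r ^ 3 / R ^ 2 by ring]
      linarith
    have h5 : m * (4 * r ^ 3 / R ^ 2) = α * (R / 34) := by
      rw [hα, e]
      field_simp
      ring
    have h6 : T.card • (4 * r ^ 3 / R ^ 2) ≤ m * (4 * r ^ 3 / R ^ 2) := by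
      rw [nsmul_eq_mul]
      exact mul_le_mul_of_nonneg_right hm (by positivity)
    have h7 := mul_le_mul_of_nonneg_left h1 α0
    unfold G
    linarith
  have nn : ∀ i ∈ T, 0 ≤ P r (R + i * r) x + P r (-(R + i * r)) x := fun i _ =>
    add_nonneg (P_nonneg hr _ _) (P_nonneg hr _ _)
  refine ⟨?_, fun i hi h1 h2 => ?_⟩
  · rcases le_total (R / 2) |x| with hx | hx
    · linarith [far hx, Finset.sum_nonneg nn]
    · have h1 := mul_le_mul_of_nonneg_left (P_gain (show 1 ≤ R by linarith) x) α0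
      have h2 : x ^ 2 ≤ (R / 2) ^ 2 := by rw [← sq_abs x]; gcongr
      have h3 : ∑ i ∈ T, (P r (R + i * r) 0 + P r (-(R + i * r)) 0) ≤
          ∑ i ∈ T, (P r (R + i * r) x + P r (-(R + i * r)) x) :=
        Finset.sum_le_sum fun i _ => P_pair hr (by
          have h4 : R ^ 2 ≤ (R + i * r) ^ 2 := by gcongr; exact hc i
          have h5 : (r + 1) ^ 2 ≤ (3 / 2 * R) ^ 2 := by gcongr; linarith
          nlinarith)
      unfold G
      linarith
  · have h3 := far (by linarith [hc i])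
    have h4 := Finset.single_le_sum nn hi
    have h5 : r / 4 ≤ P r (R + i * r) x + P r (-(R + i * r)) x := by
      rcases le_total 0 x with hx | hx
      · rw [abs_of_nonneg hx] at h1 h2
        have := P_own (c := R + i * r) (x := x) hr (abs_le.2 ⟨by linarith, by linarith⟩)
        linarith [P_nonneg hr (-(R + i * r)) x]
      · rw [abs_of_nonpos hx] at h1 h2
        have := P_own (c := -(R + i * r)) (x := x) hr (abs_le.2 ⟨by linarith, by linarith⟩)
        linarith [P_nonneg hr (R + i * r) x]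
    linarith

lemma Q_grid (T : Finset ℕ) {r : ℝ} (hr : 1 ≤ r) (R x : ℝ) :
    ∑ i ∈ T, Q r (R + i * r) x ≤ 8 := by
  refine le_trans (le_of_eq (Finset.sum_congr rfl fun i _ => ?_)) (grid_sum T ((x - R) / r))
  unfold Q
  field_simp
  ring

lemma Q_far {r c x R N : ℝ} (hN : 1 ≤ N) (hr : 1 ≤ r) (e : R = N * r) (h : R / 4 ≤ |x - c|) :
    Q r c x ≤ 16 / N ^ 2 := by
  have h0 : 0 ≤ R := by rw [e]; positivity
  have h1 : (R / 4) ^ 2 ≤ (x - c) ^ 2 := by rw [← sq_abs (x - c)]; gcongr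
  unfold Q
  rw [div_le_div_iff₀ (by positivity) (by positivity)]
  rw [e] at h1
  nlinarith [sq_nonneg r]

lemma scale_Q {T : Finset ℕ} {R r N m α : ℝ} (hN : 1 ≤ N) (hr : 1 ≤ r)
    (e : R = N * r) (hT : ∀ i ∈ T, (i : ℝ) ≤ N) (hm : T.card ≤ m) (hα : α = 136 * m / N ^ 3)
    (x : ℝ) : ∑ i ∈ T, (Q r (R + i * r) x + Q r (-(R + i * r)) x) + α * Q R 0 x ≤
      112 * (2 * R / (2 * R + |x|) - R / (R + |x|)) + 168 * (m / N ^ 2) := by
  have m0 : 0 ≤ m := (Nat.cast_nonneg _).trans hm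
  have α0 : 0 ≤ α := by rw [hα]; positivity
  have R0 : 0 < R := by rw [e]; positivity
  have x0 := abs_nonneg x
  have h1 : α * Q R 0 x ≤ 136 * (m / N ^ 2) := by
    refine (mul_le_of_le_one_right α0 (Q_le_one _ _ _)).trans ?_
    rw [hα, mul_div_assoc]
    gcongr
    norm_num
  have h2 : 2 * R / (2 * R + |x|) - R / (R + |x|) = R * |x| / ((2 * R + |x|) * (R + |x|)) := by
    field_simp
    ring
  have h3 : 0 ≤ m / N ^ 2 := by positivity
  rw [h2]
  by_cases hx : 3 / 4 * R ≤ |x| ∧ |x| ≤ 9 / 4 * R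
  · have h4 : 1 / 7 ≤ R * |x| / ((2 * R + |x|) * (R + |x|)) := by
      rw [div_le_div_iff₀ (by norm_num) (by positivity)]
      nlinarith [mul_nonneg (sub_nonneg.2 hx.1) (sub_nonneg.2 hx.2), mul_pos R0 R0]
    have h5 := Q_grid T hr R x
    have h6 := Q_grid T hr R (-x)
    have h7 : ∑ i ∈ T, Q r (-(R + i * r)) x = ∑ i ∈ T, Q r (R + i * r) (-x) :=
      Finset.sum_congr rfl fun i _ => by unfold Q; ring
    rw [Finset.sum_add_distrib, h7]
    linarith
  · have h4 : 0 ≤ R * |x| / ((2 * R + |x|) * (R + |x|)) := by positivity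
    have h5 : ∑ i ∈ T, (Q r (R + i * r) x + Q r (-(R + i * r)) x) ≤ T.card • (32 / N ^ 2) :=
      Finset.sum_le_card_nsmul _ _ _ fun i hi => by
        have h6 : 0 ≤ i * r := by positivity
        have h7 : i * r ≤ R := e ▸ mul_le_mul_of_nonneg_right (hT i hi) (by linarith)
        have h8 : ∀ c, |c| = R + i * r → R / 4 ≤ |x - c| := fun c hc => by
          have h9 := abs_abs_sub_abs_le_abs_sub x c
          rw [hc] at h9
          rcases not_and_or.1 hx with h | h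
          · linarith [neg_abs_le (|x| - (R + i * r))]
          · linarith [le_abs_self (|x| - (R + i * r))]
        have h9 := Q_far hN hr e (h8 (R + i * r) (abs_of_nonneg (by linarith)))
        have h10 := Q_far hN hr e (h8 (-(R + i * r)) (by rw [abs_neg, abs_of_nonneg (by linarith)]))
        rw [show 32 / N ^ 2 = 16 / N ^ 2 + 16 / N ^ 2 by ring]
        linarith
    have h6 : T.card • (32 / N ^ 2) ≤ 32 * (m / N ^ 2) := by
      rw [nsmul_eq_mul, show 32 * (m / N ^ 2) = m * (32 / N ^ 2) by ring]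
      exact mul_le_mul_of_nonneg_right hm (by positivity)
    linarith

/-- all terms as one finite family -/
lemma pack (K : Finset ℕ) (T : ℕ → Finset ℕ) (μ : ℝ) (r α R : ℕ → ℝ) (hr : ∀ k ∈ K, 1 ≤ r k)
    (hR : ∀ k ∈ K, 1 ≤ R k) : ∃ (ι : Type) (_ : Fintype ι) (w c ρ : ι → ℝ), (∀ i, 1 ≤ ρ i) ∧
      ∀ F : ℝ → ℝ → ℝ → ℝ, ∑ i, F (w i) (c i) (ρ i) = ∑ k ∈ K, (∑ i ∈ T k,
        (F μ (R k + i * r k) (r k) + F μ (-(R k + i * r k)) (r k)) + F (-(μ * α k)) 0 (R k)) := by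
  refine ⟨(K.sigma T ⊕ K.sigma T) ⊕ K, inferInstance,
    Sum.elim (fun _ => μ) fun k => -(μ * α k),
    Sum.elim (Sum.elim (fun x => R x.1.1 + x.1.2 * r x.1.1) fun x => -(R x.1.1 + x.1.2 * r x.1.1))
      fun _ => 0,
    Sum.elim (Sum.elim (fun x => r x.1.1) fun x => r x.1.1) fun k => R k, ?_, fun F => ?_⟩
  · rintro ((x | x) | k)
    exacts [hr _ (Finset.mem_sigma.1 x.2).1, hr _ (Finset.mem_sigma.1 x.2).1, hR _ k.2]
  · simp only [Fintype.sum_sum_type, Sum.elim_inl, Sum.elim_inr, Finset.sum_add_distrib]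
    rw [Finset.sum_coe_sort (K.sigma T) fun x => F μ (R x.1 + x.2 * r x.1) (r x.1),
      Finset.sum_coe_sort (K.sigma T) fun x => F μ (-(R x.1 + x.2 * r x.1)) (r x.1),
      Finset.sum_coe_sort K fun k => F (-(μ * α k)) 0 (R k), Finset.sum_sigma, Finset.sum_sigma]

lemma sq_le_two_pow (k : ℕ) (hk : 4 ≤ k) : k ^ 2 ≤ 2 ^ k := by
  induction k, hk using Nat.le_induction with
  | base => norm_num
  | succ k hk ih => rw [pow_succ 2]; nlinarith

end F2

open F2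

theorem weight_exists {ν b : ℝ} (hν : 0 < ν) (hb : 0 < b) (L₀ : ℝ) : ∃ a ∈ Ioo (0 : ℝ) 1,
    ∃ c₀ > 0, ∃ C : ℝ, ∀ Y : Set ℝ, Bornology.IsBounded Y → (∀ β, Porous Y ν L₀ β) →
    ∃ (ι : Type) (_ : Fintype ι) (w c r : ι → ℝ), (∀ i, 1 ≤ r i) ∧
      (∀ x, ∑ i, |w i| * (r i ^ 2 / (r i ^ 2 + (x - c i) ^ 2)) ≤ b / 2) ∧
      ∑ i, w i * (r i ^ 2 * c i / (r i ^ 2 + c i ^ 2)) = 0 ∧
      (∀ x, pot w c r 0 ≤ pot w c r x) ∧ (∀ x, |x| ≤ 1 → pot w c r x ≤ pot w c r 0 + C) ∧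
      ∀ x ∈ Y, pot w c r 0 + c₀ * |x| / log (2 + |x|) ^ a - C ≤ pot w c r x := by
  obtain ⟨n, hn, hνn⟩ : ∃ n : ℕ, 1 ≤ n ∧ 2 ≤ ν * (n + 1 : ℕ) := by
    refine ⟨⌈2 / ν⌉₊ + 1, by omega, ?_⟩
    have := (div_le_iff₀ hν).1 (Nat.le_ceil (2 / ν))
    push_cast
    nlinarith
  obtain ⟨a, ha, S, hS, j, hj, hsum⟩ := scales hn
  set μ : ℝ := b / 2 / (112 + 336 * S) with hμ
  have μ0 : 0 < μ := by positivity
  set k₀ : ℕ := ⌈L₀⌉₊ + 4 with hk₀
  refine ⟨a, ha, μ / 16, by positivity, b / 2 + μ / 8 * 2 ^ k₀, fun Y hY hP => ?_⟩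
  have hpor : Por Y ν (max L₀ 1) := fun x ℓ hl => hP ℓ x ℓ ((le_max_left _ _).trans hl) le_rfl
  obtain ⟨k₁, hk₁⟩ : ∃ k₁ : ℕ, ∀ x ∈ Y, |x| < 2 ^ k₁ := by
    obtain ⟨B, hB⟩ := hY.exists_norm_le
    obtain ⟨k₁, h⟩ := pow_unbounded_of_one_lt B (one_lt_two (α := ℝ))
    exact ⟨k₁, fun x hx => (hB x hx).trans_lt h⟩
  set N : ℕ → ℝ := fun k => (((n + 1) ^ j k : ℕ) : ℝ) with hN
  have N1 : ∀ k, 1 ≤ N k := fun k => by
    simp only [hN]
    exact_mod_cast Nat.one_le_pow _ _ n.succ_pos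
  set r : ℕ → ℝ := fun k => 2 ^ k / N k with hr
  have er : ∀ k, (2 : ℝ) ^ k = N k * r k := fun k => by
    have := N1 k
    simp only [hr]
    field_simp
  have r0 : ∀ k, 0 < r k := fun k => div_pos (by positivity) (by linarith [N1 k])
  have rL : ∀ k, k₀ ≤ k → max L₀ 1 ≤ r k := fun k hk => by
    have h1 : (1 : ℝ) ≤ k := by exact_mod_cast (by omega : 1 ≤ k)
    have h2 : N k ≤ k := (hj k (by omega)).trans (rpow_le_self_of_one_le h1 ha.2.le)
    have h3 : (k : ℝ) ^ 2 ≤ 2 ^ k := by exact_mod_cast sq_le_two_pow k (by omega)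
    have h4 : L₀ ≤ k := (Nat.le_ceil L₀).trans (by exact_mod_cast (by omega : ⌈L₀⌉₊ ≤ k))
    refine (max_le h4 h1).trans ?_
    simp only [hr]
    rw [le_div_iff₀ (by linarith [N1 k])]
    nlinarith
  have hT : ∀ k, ∃ T : Finset ℕ, k₀ ≤ k → (∀ i ∈ T, (i : ℝ) ≤ N k) ∧
      (T.card : ℝ) ≤ 2 * (n ^ j k : ℕ) ∧ ∀ t ∈ Y, 2 ^ k ≤ |t| → |t| ≤ 2 ^ (k + 1) →
        ∃ i ∈ T, 2 ^ k + i * r k ≤ |t| ∧ |t| ≤ 2 ^ k + (i + 1) * r k := fun k => by
    by_cases hk : k₀ ≤ k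
    swap
    · exact ⟨∅, fun h => absurd h hk⟩
    obtain ⟨T₁, a1, a2, a3⟩ := cover hpor hνn (r0 k) (rL k hk) (j k) (2 ^ k)
    obtain ⟨T₂, b1, b2, b3⟩ := cover hpor.neg hνn (r0 k) (rL k hk) (j k) (2 ^ k)
    refine ⟨T₁ ∪ T₂, fun _ => ⟨fun i hi => ?_, ?_, fun t ht t1 t2 => ?_⟩⟩
    · simp only [hN]
      rcases Finset.mem_union.1 hi with h | h
      exacts [by exact_mod_cast (a1 i h).le, by exact_mod_cast (b1 i h).le]
    · have := Finset.card_union_le T₁ T₂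
      exact_mod_cast (by omega : (T₁ ∪ T₂).card ≤ 2 * n ^ j k)
    · have t3 : |t| ≤ 2 ^ k + N k * r k := by rw [← er]; rw [pow_succ] at t2; linarith
      rcases le_total 0 t with h | h
      · rw [abs_of_nonneg h] at t1 t3 ⊢
        obtain ⟨i, hi, h'⟩ := a3 t ht t1 t3
        exact ⟨i, Finset.mem_union_left _ hi, h'⟩
      · rw [abs_of_nonpos h] at t1 t3 ⊢
        obtain ⟨i, hi, h'⟩ := b3 (-t) (by simpa using ht) t1 t3
        exact ⟨i, Finset.mem_union_right _ hi, h'⟩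
  choose T hT using hT
  set K : Finset ℕ := Finset.Ico k₀ k₁ with hK
  have hK0 : ∀ k ∈ K, k₀ ≤ k := fun k hk => (Finset.mem_Ico.1 hk).1
  have r1 : ∀ k ∈ K, 1 ≤ r k := fun k hk => (le_max_right _ _).trans (rL k (hK0 k hk))
  have R2 : ∀ k ∈ K, (2 : ℝ) ≤ 2 ^ k := fun k hk =>
    le_self_pow₀ one_le_two (by have := hK0 k hk; omega)
  set α : ℕ → ℝ := fun k => 136 * (2 * (n ^ j k : ℕ)) / N k ^ 3 with hα
  have α0 : ∀ k, 0 ≤ α k := fun k => by have := N1 k; simp only [hα]; positivity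
  obtain ⟨ι, _, w, c, ρ, hρ, hF⟩ := pack K T μ r α (fun k => 2 ^ k) r1
    fun k hk => by linarith [R2 k hk]
  have hpot : ∀ x, pot w c ρ x = μ * ∑ k ∈ K, G (T k) (2 ^ k) (r k) (α k) x := fun x => by
    rw [Finset.mul_sum]
    refine (hF fun w c r => w * P r c x).trans (Finset.sum_congr rfl fun k _ => ?_)
    simp only [G, mul_sub, Finset.mul_sum, mul_add]
    ring
  have hG := fun k (hk : k ∈ K) x => scale_pot (T := T k) (α := α k) (R2 k hk) (N1 k) (r1 k hk)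
    (er k) (hT k (hK0 k hk)).2.1 rfl x
  have hQ : ∀ x, ∑ i, |w i| * Q (ρ i) (c i) x ≤ b / 2 := fun x => by
    have x0 := abs_nonneg x
    have h1 : ∑ k ∈ K, (2 * (2 : ℝ) ^ k / (2 * 2 ^ k + |x|) - 2 ^ k / (2 ^ k + |x|)) ≤ 1 := by
      refine (Finset.sum_le_sum_of_subset_of_nonneg (t := Finset.range k₁)
        (fun k hk => Finset.mem_range.2 (Finset.mem_Ico.1 hk).2) fun k _ _ => ?_).trans ?_
      · rw [sub_nonneg, div_le_div_iff₀ (by positivity) (by positivity)]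
        nlinarith [mul_nonneg x0 (show (0 : ℝ) ≤ 2 ^ k by positivity)]
      · simp only [← pow_succ']
        rw [Finset.sum_range_sub fun k : ℕ => (2 : ℝ) ^ k / (2 ^ k + |x|)]
        have h2 : (2 : ℝ) ^ k₁ / (2 ^ k₁ + |x|) ≤ 1 :=
          div_le_one_of_le₀ (by linarith) (by positivity)
        have h3 : 0 ≤ (2 : ℝ) ^ 0 / (2 ^ 0 + |x|) := by positivity
        linarith
    have h2 := hsum K fun k hk => by have := hK0 k hk; omega
    rw [hF fun w c r => |w| * Q r c x]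
    calc _ ≤ ∑ k ∈ K, μ * (112 * (2 * (2 : ℝ) ^ k / (2 * 2 ^ k + |x|) - 2 ^ k / (2 ^ k + |x|)) +
          336 * ((n ^ j k : ℕ) / N k ^ 2)) := Finset.sum_le_sum fun k hk => by
          have h3 := scale_Q (T := T k) (α := α k) (N1 k) (r1 k hk) (er k) (hT k (hK0 k hk)).1
            (hT k (hK0 k hk)).2.1 rfl x
          rw [abs_neg, abs_of_pos μ0, abs_of_nonneg (mul_nonneg μ0.le (α0 k))]
          simp only [← mul_add, ← Finset.mul_sum, mul_assoc μ]
          refine mul_le_mul_of_nonneg_left (h3.trans (le_of_eq ?_)) μ0.le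
          ring
      _ ≤ μ * (112 + 336 * S) := by
          rw [← Finset.mul_sum, Finset.sum_add_distrib, ← Finset.mul_sum, ← Finset.mul_sum]
          exact mul_le_mul_of_nonneg_left (by linarith) μ0.le
      _ = b / 2 := by rw [hμ]; field_simp
  have hmin : ∀ x, pot w c ρ 0 ≤ pot w c ρ x := fun x => by
    rw [hpot, hpot]
    exact mul_le_mul_of_nonneg_left (Finset.sum_le_sum fun k hk => (hG k hk x).1) μ0.le
  have C0 : 0 ≤ μ / 8 * 2 ^ k₀ := by positivity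
  refine ⟨ι, inferInstance, w, c, ρ, hρ, hQ, ?_, hmin, fun x hx => ?_, fun x hx => ?_⟩
  · rw [hF fun w c r => w * (r ^ 2 * c / (r ^ 2 + c ^ 2))]
    refine Finset.sum_eq_zero fun k _ => ?_
    rw [Finset.sum_eq_zero fun i _ => by rw [neg_sq]; ring]
    simp
  · have h1 : pot w c ρ x - pot w c ρ 0 ≤
        ∑ i, (|w i| * Q (ρ i) (c i) x + |w i| * Q (ρ i) (c i) 0) / 2 := by
      unfold pot
      rw [← Finset.sum_sub_distrib]
      refine Finset.sum_le_sum fun i _ => ?_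
      have h2 := mul_le_mul_of_nonneg_left (P_lip (hρ i) (c i) hx) (abs_nonneg (w i))
      rw [← abs_mul] at h2
      have h3 := (le_abs_self _).trans h2
      unfold P at h3
      linarith
    rw [← Finset.sum_div, Finset.sum_add_distrib] at h1
    linarith [hQ x, hQ 0]
  · have x0 := abs_nonneg x
    have l1 : 1 / 2 ≤ log (2 + |x|) :=
      le_trans (by linarith [log_two_gt_d9]) (log_le_log two_pos (by linarith))
    have l0 : 0 < log (2 + |x|) ^ a := rpow_pos_of_pos (by linarith) _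
    by_cases h : |x| < 2 ^ k₀
    · have l2 : 1 / 2 ≤ log (2 + |x|) ^ a :=
        le_trans (self_le_rpow_of_le_one (by norm_num) (by norm_num) ha.2.le)
          (rpow_le_rpow (by norm_num) l1 ha.1.le)
      have l3 : μ / 16 * |x| / log (2 + |x|) ^ a ≤ μ / 8 * 2 ^ k₀ := by
        rw [div_le_iff₀ l0]
        have := mul_le_mul_of_nonneg_left l2 C0
        nlinarith
      linarith [hmin x]
    · have x1 : 1 ≤ |x| := (one_le_pow₀ one_le_two).trans (not_lt.1 h)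
      obtain ⟨k, k1, k2⟩ := exists_nat_pow_near x1 one_lt_two
      have hk : k ∈ K := Finset.mem_Ico.2
        ⟨Nat.lt_succ_iff.1 ((pow_lt_pow_iff_right₀ one_lt_two).1 ((not_lt.1 h).trans_lt k2)),
          (pow_lt_pow_iff_right₀ one_lt_two).1 (k1.trans_lt (hk₁ x hx))⟩
      obtain ⟨i, hi, i1, i2⟩ := (hT k (hK0 k hk)).2.2 x hx k1 k2.le
      have h1 : ∑ k' ∈ K, G (T k') (2 ^ k') (r k') (α k') 0 + r k / 4 ≤
          ∑ k' ∈ K, G (T k') (2 ^ k') (r k') (α k') x := by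
        have h2 := Finset.single_le_sum (f := fun k' => G (T k') (2 ^ k') (r k') (α k') x -
          G (T k') (2 ^ k') (r k') (α k') 0) (fun k' hk' => sub_nonneg.2 (hG k' hk' x).1) hk
        rw [Finset.sum_sub_distrib] at h2
        linarith [(hG k hk x).2 i hi i1 i2]
      have h2 : (k : ℝ) ≤ 2 * log (2 + |x|) := by
        have h3 : log (2 ^ k) ≤ log (2 + |x|) := log_le_log (by positivity) (by linarith)
        rw [log_pow] at h3
        nlinarith [log_two_gt_d9, (Nat.cast_nonneg k : (0 : ℝ) ≤ k)]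
      have h3 : N k ≤ 2 * log (2 + |x|) ^ a := by
        refine (hj k (by have := hK0 k hk; omega)).trans
          ((rpow_le_rpow (Nat.cast_nonneg k) h2 ha.1.le).trans ?_)
        rw [mul_rpow zero_le_two (by linarith)]
        exact mul_le_mul_of_nonneg_right (rpow_le_self_of_one_le one_le_two ha.2.le) l0.le
      have h4 : μ / 16 * |x| / log (2 + |x|) ^ a ≤ μ * (r k / 4) := by
        rw [div_le_iff₀ l0]
        rw [pow_succ, er k] at k2
        have h5 := mul_le_mul_of_nonneg_right h3 (r0 k).le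
        have h6 : |x| ≤ 4 * (r k * log (2 + |x|) ^ a) := by linarith
        nlinarith [mul_le_mul_of_nonneg_left h6 μ0.le]
      have h5 := mul_le_mul_of_nonneg_left h1 μ0.le
      rw [hpot, hpot]
      linarith

end Pool.Agent.Lib.MP_e1e19a_an
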