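import Pool.Agent.Lib.MP_e1e19a_an.N.Core

/-!
Propagation of smallness along the axis of a strip; sampling.
-/

namespace Pool.Agent.Lib.MP_e1e19a_an

open Real MeasureTheory Set
open scoped MatrixGroups ComplexConjugate UpperHalfPlane

namespace F3

lemma cosh_half_ge : 9 / 8 ≤ Real.cosh (1 / 2) := by
  rw [Real.cosh_eq]
  have h1 : 1 + (1 / 2 : ℝ) + (1 / 2) ^ 2 / 2 + (1 / 2) ^ 3 / 6 ≤ Real.exp (1 / 2) := by
    have := Real.sum_le_exp_of_nonneg (x := 1 / 2) (by norm_num) 4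
    simp only [Finset.sum_range_succ, Finset.sum_range_zero, Nat.factorial] at this
    norm_num at this ⊢
    linarith
  have h2 : Real.exp (1 / 2) * Real.exp (-(1 / 2)) = 1 := by rw [← Real.exp_add]; simp
  have h3 : 0 < Real.exp (-(1 / 2)) := Real.exp_pos _
  have h4 : 0 < Real.exp (1 / 2) := Real.exp_pos _
  nlinarith

lemma cosh_half_le : Real.cosh (1 / 2) ≤ 3 := by
  rw [Real.cosh_eq]
  have h1 : Real.exp (1 / 2) ≤ Real.exp 1 := Real.exp_le_exp.2 (by norm_num)
  have h2 : Real.exp (-(1 / 2)) ≤ Real.exp 1 := Real.exp_le_exp.2 (by norm_num)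
  have := Real.exp_one_lt_d9
  linarith

lemma sinh_le {s : ℝ} (h0 : 0 ≤ s) (h1 : s ≤ 1) : |Real.sinh s| ≤ 2 := by
  rw [abs_of_nonneg (Real.sinh_nonneg_iff.2 h0), Real.sinh_eq]
  have h2 : Real.exp s ≤ Real.exp 1 := Real.exp_le_exp.2 h1
  have h3 : 0 < Real.exp (-s) := Real.exp_pos _
  have := Real.exp_one_lt_d9
  linarith

lemma cosh_im (z : ℂ) : (Complex.cosh z).im = Real.sinh z.re * Real.sin z.im := by
  conv_lhs => rw [← Complex.re_add_im z, Complex.cosh_add, Complex.cosh_mul_I, Complex.sinh_mul_I]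
  simp [← Complex.ofReal_cosh, ← Complex.ofReal_sinh, ← Complex.ofReal_cos, ← Complex.ofReal_sin]

lemma step {Φ : ℂ → ℂ} (hΦ : Differentiable ℂ Φ) {r m M c e : ℝ} (he : |e| = r / 2)
    (h1 : ∀ z : ℂ, |z.im| ≤ r → ‖Φ z‖ ≤ M) (h2 : ∀ x : ℝ, |x - c| ≤ r / 2 → ‖Φ x‖ ≤ m) :
    ‖Φ ((c + e * Real.cosh (1 / 2) : ℝ) : ℂ)‖ ≤ m ^ (1 / 2 : ℝ) * M ^ (1 / 2 : ℝ) := by
  set g : ℂ → ℂ := fun z => Φ (c + e * Complex.cosh z) with hg
  have hgd : Differentiable ℂ g := hΦ.comp (by fun_prop)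
  have hb : ∀ z ∈ Complex.HadamardThreeLines.verticalClosedStrip 0 1, ‖g z‖ ≤ M := by
    intro z hz
    apply h1
    have hz' : 0 ≤ z.re ∧ z.re ≤ 1 := hz
    simp only [Complex.add_im, Complex.ofReal_im, Complex.mul_im, Complex.ofReal_re, zero_mul,
      add_zero, zero_add, cosh_im]
    rw [abs_mul, abs_mul, he]
    have a1 := sinh_le hz'.1 hz'.2
    have a2 := Real.abs_sin_le_one z.im
    have a3 : 0 ≤ r / 2 := he ▸ abs_nonneg e
    have a4 : |Real.sinh z.re| * |Real.sin z.im| ≤ 2 * 1 :=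
      mul_le_mul a1 a2 (abs_nonneg _) (by norm_num)
    nlinarith
  have key := Complex.HadamardThreeLines.norm_le_interp_of_mem_verticalClosedStrip₀₁' g
    (z := ((1 / 2 : ℝ) : ℂ)) (a := m) (b := M)
    (by constructor <;> simp <;> norm_num) hgd.diffContOnCl
    ⟨M, by rintro _ ⟨z, hz, rfl⟩; exact hb z hz⟩
    (by
      intro z hz
      have hz' : z.re = 0 := hz
      have hc : Complex.cosh z = (Real.cos z.im : ℝ) := by
        conv_lhs => rw [← Complex.re_add_im z, hz']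
        simp [Complex.cosh_mul_I]
      have := h2 (c + e * Real.cos z.im) (by
        rw [add_sub_cancel_left, abs_mul, he]
        have a2 := Real.abs_cos_le_one z.im
        have a3 : 0 ≤ r / 2 := he ▸ abs_nonneg e
        nlinarith)
      simpa [hg, hc] using this)
    (by
      intro z hz
      have hz' : z.re = 1 := hz
      exact hb z ⟨by simp [hz'], by simp [hz']⟩)
  have e1 : g ((1 / 2 : ℝ) : ℂ) = Φ ((c + e * Real.cosh (1 / 2) : ℝ) : ℂ) := by
    simp only [hg, Complex.ofReal_add, Complex.ofReal_mul, Complex.ofReal_cosh]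
  rw [e1, Complex.ofReal_re] at key
  norm_num at key ⊢
  exact key

lemma prop_aux {Φ : ℂ → ℂ} (hΦ : Differentiable ℂ Φ) {r m M : ℝ} (hr : 0 < r) (hm : 0 ≤ m)
    (hmM : m ≤ M) (hM : 0 < M) (h1 : ∀ z : ℂ, |z.im| ≤ r → ‖Φ z‖ ≤ M)
    (h2 : ∀ x : ℝ, |x| ≤ r → ‖Φ x‖ ≤ m) (n : ℕ) :
    ∀ x : ℝ, |x| ≤ r + n * r / 16 →
      ‖Φ x‖ ≤ m ^ ((1 / 2 : ℝ) ^ n) * M ^ (1 - (1 / 2 : ℝ) ^ n) := by
  induction n with
  | zero => intro x hx; simpa using h2 x (by simpa using hx)
  | succ n ih =>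
    intro x hx
    set m' := m ^ ((1 / 2 : ℝ) ^ n) * M ^ (1 - (1 / 2 : ℝ) ^ n) with hm'
    have hm'0 : 0 ≤ m' := by positivity
    have hE : m ^ ((1 / 2 : ℝ) ^ (n + 1)) * M ^ (1 - (1 / 2 : ℝ) ^ (n + 1)) =
        m' ^ (1 / 2 : ℝ) * M ^ (1 / 2 : ℝ) := by
      rw [hm', Real.mul_rpow (by positivity) (by positivity), ← Real.rpow_mul hm,
        ← Real.rpow_mul hM.le, mul_assoc, ← Real.rpow_add hM]
      congr 2
      ring
    rw [hE]
    have hc1 := cosh_half_ge
    have hc2 := cosh_half_le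
    have hn : (0 : ℝ) ≤ n * r / 16 := by positivity
    push_cast at hx
    by_cases hx' : |x| ≤ r + n * r / 16
    · have a1 : ‖Φ x‖ ≤ m' := ih x hx'
      have a2 : ‖Φ x‖ ≤ M := h1 x (by simp [hr.le])
      calc ‖Φ x‖ = ‖Φ x‖ ^ (1 / 2 : ℝ) * ‖Φ x‖ ^ (1 / 2 : ℝ) := by
            rw [← Real.rpow_add' (norm_nonneg _) (by norm_num)]; norm_num
        _ ≤ _ := by gcongr
    · push Not at hx'
      rcases le_total 0 x with h0 | h0
      · rw [abs_of_nonneg h0] at hx hx'
        have := step hΦ (r := r) (m := m') (M := M) (c := x - r / 2 * Real.cosh (1 / 2))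
          (e := r / 2) (abs_of_pos (by linarith)) h1 (by
            intro y hy
            apply ih
            rw [abs_le] at hy ⊢
            constructor <;> nlinarith)
        simpa using this
      · rw [abs_of_nonpos h0] at hx hx'
        have := step hΦ (r := r) (m := m') (M := M) (c := x + r / 2 * Real.cosh (1 / 2))
          (e := -(r / 2)) (by rw [abs_neg]; exact abs_of_pos (by linarith)) h1 (by
            intro y hy
            apply ih
            rw [abs_le] at hy ⊢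
            constructor <;> nlinarith)
        simpa using this

open scoped ENNReal

lemma circ {F : ℂ → ℂ} {x : ℂ} {h r : ℝ} (hF : DifferentiableOn ℂ F (Metric.ball x h))
    (hr : 0 < r) (hrh : r < h) :
    ENNReal.ofReal (2 * π) * ‖F x‖ₑ ≤
      ∫⁻ θ in Ioo (-π) π, ‖F (x + Complex.polarCoord.symm (r, θ))‖ₑ := by
  have hd : DiffContOnCl ℂ F (Metric.ball x |r|) := by
    apply DifferentiableOn.diffContOnCl
    rw [abs_of_pos hr, closure_ball _ hr.ne']
    exact hF.mono (Metric.closedBall_subset_ball hrh)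
  have h1 := hd.circleAverage
  rw [Real.circleAverage_eq_integral_add (-π),
    intervalIntegral.integral_comp_add_right (fun θ => F (circleMap x r θ))] at h1
  have h2 : (∫ θ in (-π)..π, F (circleMap x r θ)) = (2 * π : ℝ) • F x := by
    rw [← h1, smul_smul, mul_inv_cancel₀ (by positivity), one_smul]
    congr 1 <;> ring
  rw [intervalIntegral.integral_of_le (by linarith [Real.pi_pos]), integral_Ioc_eq_integral_Ioo]
    at h2
  have h3 := enorm_integral_le_lintegral_enorm (μ := volume.restrict (Ioo (-π) π))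
    (fun θ => F (circleMap x r θ))
  rw [h2, enorm_smul, Real.enorm_eq_ofReal (by positivity)] at h3
  refine h3.trans (le_of_eq ?_)
  congr 1
  ext θ
  congr 2
  rw [Complex.polarCoord_symm_apply, circleMap, Complex.exp_mul_I]
  simp

lemma mean_ball {F : ℂ → ℂ} (hm : Measurable F) {x : ℂ} {h : ℝ} (hh : 0 < h)
    (hF : DifferentiableOn ℂ F (Metric.ball x h)) :
    ENNReal.ofReal (h ^ 2) * ‖F x‖ₑ ≤ ∫⁻ z in Metric.ball x h, ‖F z‖ₑ := by
  set G : ℂ → ℝ≥0∞ := (Metric.ball x h).indicator fun z => ‖F z‖ₑ with hG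
  have hGm : Measurable G := hm.enorm.indicator Metric.isOpen_ball.measurableSet
  rw [← lintegral_indicator Metric.isOpen_ball.measurableSet, ← hG,
    ← lintegral_add_left_eq_self G x, ← Complex.lintegral_comp_polarCoord_symm]
  have hsub : Ioo (h / 2) h ×ˢ Ioo (-π) π ⊆ polarCoord.target := by
    rw [polarCoord_target]
    exact prod_mono (fun r hr => lt_trans (by linarith) hr.1) subset_rfl
  refine le_trans ?_ (lintegral_mono_set hsub)
  have hpm : Measurable fun p : ℝ × ℝ => Complex.polarCoord.symm p := by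
    have : (fun p : ℝ × ℝ => Complex.polarCoord.symm p) =
        fun p => (p.1 : ℂ) * (Real.cos p.2 + Real.sin p.2 * Complex.I) := by
      ext p; exact Complex.polarCoord_symm_apply p
    rw [this]
    exact Continuous.measurable (by fun_prop)
  rw [Measure.volume_eq_prod, ← Measure.prod_restrict, lintegral_prod]
  swap
  · apply Measurable.aemeasurable
    simp only [smul_eq_mul]
    exact (ENNReal.measurable_ofReal.comp measurable_fst).mul
      (hGm.comp (hpm.const_add x))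
  have hin : ∀ r ∈ Ioo (h / 2) h, ENNReal.ofReal (h / 2) * (ENNReal.ofReal (2 * π) * ‖F x‖ₑ) ≤
      ∫⁻ θ in Ioo (-π) π, ENNReal.ofReal (r, θ).1 • G (x + Complex.polarCoord.symm (r, θ)) := by
    intro r hr
    have hr0 : 0 < r := lt_trans (by linarith) hr.1
    simp only [smul_eq_mul]
    rw [lintegral_const_mul' _ _ ENNReal.ofReal_ne_top]
    refine mul_le_mul' (ENNReal.ofReal_le_ofReal hr.1.le) ((circ hF hr0 hr.2).trans (le_of_eq ?_))
    congr 1
    ext θ
    rw [hG, indicator_of_mem]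
    rw [mem_ball_iff_norm, add_sub_cancel_left, Complex.norm_polarCoord_symm, abs_of_pos hr0]
    exact hr.2
  refine le_trans ?_ (setLIntegral_mono' measurableSet_Ioo hin)
  rw [setLIntegral_const, Real.volume_Ioo, mul_comm _ (ENNReal.ofReal (h - h / 2)), ← mul_assoc,
    ← mul_assoc, ← ENNReal.ofReal_mul (by linarith), ← ENNReal.ofReal_mul (by nlinarith)]
  refine mul_le_mul' (ENNReal.ofReal_le_ofReal ?_) le_rfl
  have := Real.pi_gt_three
  nlinarith [mul_pos hh hh]

lemma count {ι : Type} (s : Finset ι) (p : ι → ℝ) {d : ℝ} (hd : 0 < d) (hp : Sep p d)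
    (α L : ℝ) (hL : 0 ≤ L) (hs : ∀ i ∈ s, α ≤ p i ∧ p i ≤ α + L) : (s.card : ℝ) ≤ L / d + 1 := by
  have h1 : s.card ≤ (Finset.range (⌊L / d⌋₊ + 1)).card := by
    apply Finset.card_le_card_of_injOn (fun i => ⌊(p i - α) / d⌋₊)
    · intro i hi
      have := hs i hi
      simp only [Finset.coe_range, mem_Iio]
      exact Nat.lt_succ_of_le (Nat.floor_le_floor (by gcongr; linarith))
    · intro i hi j hj hij
      by_contra hne
      have a := hp i j hne
      have a1 : 0 ≤ (p i - α) / d := div_nonneg (by linarith [(hs i hi).1]) hd.le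
      have a2 : 0 ≤ (p j - α) / d := div_nonneg (by linarith [(hs j hj).1]) hd.le
      have b1 := Nat.floor_le a1
      have b2 := Nat.floor_le a2
      have c1 := Nat.lt_floor_add_one ((p i - α) / d)
      have c2 := Nat.lt_floor_add_one ((p j - α) / d)
      simp only at hij
      rw [hij] at b1 c1
      have e1 : (p i - α) / d - (p j - α) / d < 1 := by linarith
      have e2 : (p j - α) / d - (p i - α) / d < 1 := by linarith
      rw [← sub_div, div_lt_one hd] at e1 e2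
      have : |p i - p j| < d := abs_lt.2 ⟨by linarith, by linarith⟩
      linarith
  rw [Finset.card_range] at h1
  have h2 : (s.card : ℝ) ≤ ⌊L / d⌋₊ + 1 := by exact_mod_cast h1
  have h3 := Nat.floor_le (div_nonneg hL hd.le)
  linarith

lemma strip_int {G : ℂ → ℝ≥0∞} (hG : Measurable G) {T : Set ℝ} (hT : MeasurableSet T) (c : ℝ)
    (Q : ℝ≥0∞) (hQ : ∀ t ∈ Icc (-c) c, ∫⁻ y in T, G (y + t * Complex.I) ≤ Q) :
    ∫⁻ z in {z : ℂ | z.re ∈ T ∧ z.im ∈ Icc (-c) c}, G z ≤ Q * ENNReal.ofReal (2 * c) := by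
  have h1 := (Complex.volume_preserving_equiv_real_prod.symm).setLIntegral_comp_preimage_emb
    Complex.measurableEquivRealProd.symm.measurableEmbedding G
    {z : ℂ | z.re ∈ T ∧ z.im ∈ Icc (-c) c}
  rw [← h1]
  have h2 : Complex.measurableEquivRealProd.symm ⁻¹' {z : ℂ | z.re ∈ T ∧ z.im ∈ Icc (-c) c} =
      T ×ˢ Icc (-c) c := by
    ext q; simp
  rw [h2, Measure.volume_eq_prod, ← Measure.prod_restrict, lintegral_prod_symm]
  swap
  · exact (hG.comp Complex.measurableEquivRealProd.symm.measurable).aemeasurable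
  refine (setLIntegral_mono' (g := fun _ => Q) measurableSet_Icc fun t ht => ?_).trans ?_
  · refine le_trans (le_of_eq ?_) (hQ t ht)
    congr 1
    ext y
    congr 1
    apply Complex.ext <;> simp
  · rw [setLIntegral_const, Real.volume_Icc]
    apply le_of_eq
    congr 2
    ring

lemma isOpen_box (a b δ : ℝ) : IsOpen (Box a b δ) := by
  unfold Box
  simp only [ofPred_and]
  refine (isOpen_lt (by fun_prop) (by fun_prop)).inter
    ((isOpen_lt (by fun_prop) (by fun_prop)).inter (isOpen_lt (by fun_prop) (by fun_prop)))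

end F3

theorem propagate {Φ : ℂ → ℂ} (hΦ : Differentiable ℂ Φ) {r m M : ℝ} (hr : 0 < r) (hm : 0 ≤ m)
    (hmM : m ≤ M) (h1 : ∀ z : ℂ, |z.im| ≤ r → ‖Φ z‖ ≤ M) (h2 : ∀ x : ℝ, |x| ≤ r → ‖Φ x‖ ≤ m)
    (n : ℕ) (x : ℝ) (hx : |x| ≤ n * r / 16) :
    ‖Φ x‖ ≤ m ^ ((1 / 2 : ℝ) ^ n) * M ^ (1 - (1 / 2 : ℝ) ^ n) := by
  rcases (hm.trans hmM).eq_or_lt with hM | hM
  · have a : ‖Φ x‖ ≤ M := h1 x (by simp [hr.le])
    have b : 0 ≤ m ^ ((1 / 2 : ℝ) ^ n) * M ^ (1 - (1 / 2 : ℝ) ^ n) :=
      mul_nonneg (Real.rpow_nonneg hm _) (Real.rpow_nonneg hM.le _)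
    linarith
  · exact F3.prop_aux hΦ hr hm hmM hM h1 h2 n x (by linarith)

open scoped ENNReal in
theorem sampling : ∃ C > 0, ∀ h > 0, ∀ ϱ ∈ Ioc (0 : ℝ) 1, ∀ a b δ : ℝ, 4 * h ≤ δ →
    ∀ f : ℂ → ℂ, DifferentiableOn ℂ f (Box a b δ) → ∀ X ⊆ Icc a b, ∀ (ι : Type) [Fintype ι]
    (p : ι → ℝ) (x : ι → ℂ), (∀ i, p i ∈ X) → Sep p (ϱ * h) → (∀ i, ‖x i - p i‖ ≤ h) →
    ∀ Q : ℝ, (∀ t ∈ Icc (-2 : ℝ) 2,
      ∫ y in Metric.thickening (3 * h) X, ‖f (y + h * t * Complex.I)‖ ^ 2 ≤ Q) →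
    h * ∑ i, ‖f (x i)‖ ^ 2 ≤ C / ϱ * Q := by
  classical
  refine ⟨20, by norm_num, ?_⟩
  intro h hh ϱ hϱ a b δ hδ f hf X hX ι _ p x hp hsep hx Q hQ
  have hQ0 : 0 ≤ Q := le_trans (integral_nonneg fun y => by positivity) (hQ 0 (by norm_num))
  set T := Metric.thickening (3 * h) X with hT
  have hTm : MeasurableSet T := Metric.isOpen_thickening.measurableSet
  have hTI : T ⊆ Icc (a - 3 * h) (b + 3 * h) := by
    intro y hy
    obtain ⟨z, hz, hyz⟩ := Metric.mem_thickening_iff.1 hy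
    have := hX hz
    rw [Real.dist_eq, abs_lt] at hyz
    exact ⟨by linarith [this.1], by linarith [this.2]⟩
  set F : ℂ → ℂ := (Box a b δ).piecewise (fun z => f z ^ 2) 0 with hF
  have hBo := F3.isOpen_box a b δ
  have hFm : Measurable F :=
    ContinuousOn.measurable_piecewise (hf.continuousOn.pow 2) continuousOn_const hBo.measurableSet
  have hFe : ∀ z ∈ Box a b δ, F z = f z ^ 2 := fun z hz => piecewise_eq_of_mem _ _ _ hz
  set Ω : Set ℂ := {z : ℂ | z.re ∈ T ∧ z.im ∈ Icc (-(2 * h)) (2 * h)} with hΩ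
  have hΩm : MeasurableSet Ω :=
    (Complex.measurable_re hTm).inter (Complex.measurable_im measurableSet_Icc)
  have hΩB : ∀ z ∈ Ω, z ∈ Box a b δ := by
    intro z hz
    have a1 := hTI hz.1
    have a2 := hz.2
    exact ⟨by linarith [a1.1], by linarith [a1.2], abs_lt.2 ⟨by linarith [a2.1], by linarith [a2.2]⟩⟩
  have hnear : ∀ i, ∀ z ∈ Metric.ball (x i) h, |z.re - p i| < 2 * h ∧ |z.im| < 2 * h := by
    intro i z hz
    have a1 : ‖z - p i‖ < 2 * h := by
      have := norm_sub_le_norm_sub_add_norm_sub z (x i) (p i)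
      rw [mem_ball_iff_norm] at hz
      linarith [hx i]
    have a2 := Complex.abs_re_le_norm (z - p i)
    have a3 := Complex.abs_im_le_norm (z - p i)
    simp only [Complex.sub_re, Complex.ofReal_re, Complex.sub_im, Complex.ofReal_im, sub_zero]
      at a2 a3
    exact ⟨by linarith, by linarith⟩
  have hball : ∀ i, Metric.ball (x i) h ⊆ Ω := by
    intro i z hz
    obtain ⟨a1, a2⟩ := hnear i z hz
    refine ⟨Metric.mem_thickening_iff.2 ⟨p i, hp i, ?_⟩, abs_le.1 a2.le⟩
    rw [Real.dist_eq]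
    linarith
  have h1 : ∀ i, ENNReal.ofReal (h ^ 2 * ‖f (x i)‖ ^ 2) ≤
      ∫⁻ z, (Metric.ball (x i) h).indicator (fun z => ‖F z‖ₑ) z := by
    intro i
    rw [lintegral_indicator Metric.isOpen_ball.measurableSet]
    refine le_trans (le_of_eq ?_) (F3.mean_ball hFm hh ?_)
    · rw [hFe _ (hΩB _ (hball i (Metric.mem_ball_self hh))), ENNReal.ofReal_mul (by positivity),
        ← ofReal_norm, norm_pow]
    · exact ((hf.pow 2).mono fun z hz => hΩB z (hball i hz)).congr fun z hz =>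
        hFe z (hΩB z (hball i hz))
  have h2 : ∀ z, ∑ i, (Metric.ball (x i) h).indicator (fun z => ‖F z‖ₑ) z ≤
      ENNReal.ofReal (5 / ϱ) * Ω.indicator (fun z => ‖F z‖ₑ) z := by
    intro z
    simp only [indicator_apply]
    rw [← Finset.sum_filter, Finset.sum_const, nsmul_eq_mul]
    by_cases hz : z ∈ Ω
    · rw [if_pos hz]
      refine mul_le_mul' ?_ le_rfl
      rw [← ENNReal.ofReal_natCast]
      apply ENNReal.ofReal_le_ofReal
      have := F3.count (Finset.univ.filter fun i => z ∈ Metric.ball (x i) h) p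
        (mul_pos hϱ.1 hh) hsep (z.re - 2 * h) (4 * h) (by positivity) (by
          intro i hi
          have a1 := abs_lt.1 (hnear i z (Finset.mem_filter.1 hi).2).1
          exact ⟨by linarith [a1.2], by linarith [a1.1]⟩)
      refine this.trans ?_
      have e1 : 4 * h / (ϱ * h) = 4 / ϱ := by field_simp
      have e2 : 1 ≤ 1 / ϱ := by rw [le_div_iff₀ hϱ.1]; linarith [hϱ.2]
      have e3 : 5 / ϱ = 4 / ϱ + 1 / ϱ := by ring
      linarith
    · rw [Finset.filter_false_of_mem fun i _ hi => hz (hball i hi)]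
      simp
  have h3 : ∫⁻ z in Ω, ‖F z‖ₑ ≤ ENNReal.ofReal Q * ENNReal.ofReal (2 * (2 * h)) := by
    apply F3.strip_int hFm.enorm hTm
    intro t ht
    have hB : ∀ y ∈ Icc (a - 3 * h) (b + 3 * h), (y : ℂ) + t * Complex.I ∈ Box a b δ := by
      intro y hy
      refine ⟨?_, ?_, ?_⟩
      · simp; linarith [hy.1]
      · simp; linarith [hy.2]
      · simp; exact abs_lt.2 ⟨by linarith [ht.1], by linarith [ht.2]⟩
    have hc : ContinuousOn (fun y : ℝ => ‖f (y + t * Complex.I)‖ ^ 2)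
        (Icc (a - 3 * h) (b + 3 * h)) :=
      ((hf.continuousOn.comp (by fun_prop) hB).norm).pow 2
    have hi : IntegrableOn (fun y : ℝ => ‖f (y + t * Complex.I)‖ ^ 2) T :=
      (hc.integrableOn_Icc).mono_set hTI
    have hq := hQ (t / h) ⟨by rw [le_div_iff₀ hh]; linarith [ht.1],
      by rw [div_le_iff₀ hh]; linarith [ht.2]⟩
    have e : (h : ℂ) * ((t / h : ℝ) : ℂ) = t := by
      rw [← Complex.ofReal_mul, mul_div_cancel₀ _ hh.ne']
    rw [e] at hq
    refine le_trans (le_of_eq ?_) (ENNReal.ofReal_le_ofReal hq)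
    rw [ofReal_integral_eq_lintegral_ofReal hi (Filter.Eventually.of_forall fun y => by positivity)]
    refine setLIntegral_congr_fun hTm fun y hy => ?_
    rw [hFe _ (hB y (hTI hy)), ← ofReal_norm, norm_pow]
  have h4 : ENNReal.ofReal (∑ i, h ^ 2 * ‖f (x i)‖ ^ 2) ≤
      ENNReal.ofReal (5 / ϱ * (Q * (2 * (2 * h)))) := by
    rw [ENNReal.ofReal_sum_of_nonneg fun i _ => by positivity]
    refine (Finset.sum_le_sum fun i _ => h1 i).trans ?_
    rw [← lintegral_finsetSum _ fun i _ =>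
      hFm.enorm.indicator Metric.isOpen_ball.measurableSet]
    refine (lintegral_mono h2).trans ?_
    rw [lintegral_const_mul' _ _ ENNReal.ofReal_ne_top, lintegral_indicator hΩm,
      ENNReal.ofReal_mul (div_nonneg (by norm_num) hϱ.1.le), ENNReal.ofReal_mul hQ0]
    exact mul_le_mul' le_rfl h3
  have hϱ0 := hϱ.1
  rw [ENNReal.ofReal_le_ofReal_iff (by positivity), ← Finset.mul_sum] at h4
  have e : 5 / ϱ * (Q * (2 * (2 * h))) = h * (20 / ϱ * Q) := by ring
  rw [e, pow_two, mul_assoc] at h4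
  exact le_of_mul_le_mul_left h4 hh

end Pool.Agent.Lib.MP_e1e19a_an
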