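import Pool.Agent.Lib.MP_e1e19a_an.N.F4x

/-!
Unique continuation for trigonometric polynomials with porous spectrum.
-/

namespace Pool.Agent.Lib.MP_e1e19a_an

open Real MeasureTheory Set
open scoped MatrixGroups ComplexConjugate UpperHalfPlane

namespace F4

theorem energy {C₀ B : ℝ} (hsum : ∀ (y : ℝ) (L : Finset ℤ), ∑ l ∈ L, 1 / (1 + (y - l) ^ 2) ≤ C₀)
    {N : ℕ} (hN : 1 ≤ N) (T : Finset ℤ) (a : ℤ → ℂ) (L : Finset ℤ) (c : ℤ → ℤ → ℂ) (z : ℂ)
    {α β : ℕ → ℝ} (h : ∀ j < N, j ≤ α j ∧ α j ≤ β j ∧ β j ≤ j + 1)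
    (hc : ∀ l : ℤ, ∀ n ∈ T, ‖c l n‖ * exp (-((2 * π * n / N - l) * z.im)) ≤
      ‖a n‖ * (B / (1 + (2 * π * n / N - l) ^ 2))) :
    ∑ i ∈ L ×ˢ Finset.range N, ∫ x in α i.2..β i.2,
      ‖es T (fun n => 2 * π * n / N - i.1) (c i.1) (x + z)‖ ^ 2 ≤
      B ^ 2 * C₀ * (N * ∑ n ∈ T, ‖a n‖ ^ 2) := by
  have hN' : (0 : ℝ) < N := by exact_mod_cast hN
  rw [Finset.sum_product]
  have h1 : ∀ l ∈ L, ∑ j ∈ Finset.range N, ∫ x in α j..β j,
      ‖es T (fun n => 2 * π * n / N - l) (c l) (x + z)‖ ^ 2 ≤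
      N * ∑ n ∈ T, ‖a n‖ ^ 2 * B ^ 2 * (1 / (1 + (2 * π * n / N - l) ^ 2)) := by
    intro l _
    refine (sum_le_int (by fun_prop) (fun x => by positivity) N h).trans ?_
    rw [es_parseval hN']
    refine mul_le_mul_of_nonneg_left (Finset.sum_le_sum (fun n hn => ?_)) hN'.le
    refine (pow_le_pow_left₀ (by positivity) (hc l n hn) 2).trans ?_
    generalize 2 * π * n / N - l = y
    have h2 : (1 / (1 + y ^ 2)) ^ 2 ≤ 1 / (1 + y ^ 2) := by
      refine pow_le_of_le_one (by positivity) ?_ two_ne_zero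
      rw [div_le_one (by positivity)]
      linarith [sq_nonneg y]
    calc _ = ‖a n‖ ^ 2 * B ^ 2 * (1 / (1 + y ^ 2)) ^ 2 := by ring
      _ ≤ _ := by gcongr
  refine (Finset.sum_le_sum h1).trans ?_
  rw [← Finset.mul_sum, Finset.sum_comm, mul_left_comm, Finset.mul_sum T (a := B ^ 2 * C₀)]
  refine mul_le_mul_of_nonneg_left (Finset.sum_le_sum (fun n _ => ?_)) hN'.le
  rw [← Finset.mul_sum]
  calc _ ≤ ‖a n‖ ^ 2 * B ^ 2 * C₀ := mul_le_mul_of_nonneg_left (hsum _ L) (by positivity)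
    _ = _ := by ring

theorem hole {μ C t : ℝ} (hμ : μ ∈ Ioc (0 : ℝ) 1) (ht : |t| ≤ μ / 8) (N : ℕ) (L : Finset ℤ)
    {u : ℤ → ℂ → ℂ} (hu : ∀ l, Continuous (u l)) {f : ℝ → ℂ} (hf : Continuous f)
    (h : ∀ x : ℝ, ∑ l ∈ L, ‖u l x‖ ^ 2 ≤
      1000 * C ^ 2 * ∫ y in (-(μ / 4))..μ / 4, ‖f (x - y)‖ ^ 2) (s : ℕ → ℝ) :
    ∑ i ∈ L ×ˢ Finset.range N, ∫ x in s i.2 + 3 * μ / 8..s i.2 + 3 * μ / 8 + μ / 4,
      ‖u i.1 (x + t)‖ ^ 2 ≤
      250 * C ^ 2 * ∑ j ∈ Finset.range N, ∫ x in s j..s j + μ, ‖f x‖ ^ 2 := by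
  obtain ⟨μ0, μ1⟩ := hμ
  obtain ⟨t0, t1⟩ := abs_le.1 ht
  rw [Finset.sum_product_right, Finset.mul_sum]
  refine Finset.sum_le_sum (fun j _ => ?_)
  have h0 : 0 ≤ ∫ x in s j..s j + μ, ‖f x‖ ^ 2 :=
    intervalIntegral.integral_nonneg (by linarith) (fun x _ => by positivity)
  simp only
  rw [← intervalIntegral.integral_finsetSum (fun l _ => Continuous.intervalIntegrable
    (by have := hu l; fun_prop) _ _)]
  refine (intervalIntegral.integral_mono_on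
    (g := fun _ => 1000 * C ^ 2 * ∫ x in s j..s j + μ, ‖f x‖ ^ 2) (by linarith)
    (Continuous.intervalIntegrable (continuous_finsetSum _ (fun l _ => by
      have := hu l; fun_prop)) _ _) (by simp) (fun x hx => ?_)).trans ?_
  · have h1 := h (x + t)
    push_cast at h1
    refine h1.trans (mul_le_mul_of_nonneg_left ?_ (by positivity))
    rw [intervalIntegral.integral_comp_sub_left (fun y => ‖f y‖ ^ 2)]
    exact intervalIntegral.integral_mono_interval (by linarith [hx.1]) (by linarith)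
      (by linarith [hx.2]) (Filter.Eventually.of_forall (fun x => by positivity))
      (Continuous.intervalIntegrable (by fun_prop) _ _)
  · rw [intervalIntegral.integral_const, smul_eq_mul]
    nlinarith [mul_nonneg (sq_nonneg C) h0]

theorem decay {a c₀ K x : ℝ} (ha : a ∈ Ioo (0 : ℝ) 1) (hc : 0 < c₀) (hK : 2 ≤ K) (hx : K ≤ x) :
    c₀ * √K / 3 ≤ c₀ * x / log (2 + x) ^ a := by
  have x0 : 0 < x := by linarith
  have h1 : 1 ≤ log (2 + x) := by
    rw [le_log_iff_exp_le (by linarith)]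
    linarith [exp_one_lt_d9]
  have h2 : log (2 + x) ^ a ≤ log (2 + x) := by
    simpa using rpow_le_rpow_of_exponent_le h1 ha.2.le
  have h3 : log (2 + x) ≤ 3 * √x := by
    have h4 := log_le_sub_one_of_pos (sqrt_pos.2 (show 0 < 2 + x by linarith))
    rw [log_sqrt (by linarith)] at h4
    have h5 : √(2 + x) ≤ 3 / 2 * √x := by
      rw [sqrt_le_iff, mul_pow, sq_sqrt x0.le]
      exact ⟨by positivity, by linarith⟩
    linarith
  have h4 : √K ≤ √x := sqrt_le_sqrt hx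
  rw [div_le_div_iff₀ (by norm_num) (rpow_pos_of_pos (by linarith) _)]
  calc c₀ * √K * log (2 + x) ^ a ≤ c₀ * √x * (3 * √x) := by
        gcongr
        exact h2.trans h3
    _ = c₀ * (√x * √x) * 3 := by ring
    _ = _ := by rw [mul_self_sqrt x0.le]

theorem growth {a c₀ K r x y : ℝ} (ha : a ∈ Ioo (0 : ℝ) 1) (hr : 0 < r)
    (h : r * log (2 + K) ^ a ≤ c₀) (hx : |x| ≤ K) (hy : |y| ≤ r) :
    -(x * y) ≤ c₀ * |x| / log (2 + |x|) ^ a := by
  have h0 := abs_nonneg x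
  have h1 : 0 < log (2 + |x|) := log_pos (by linarith)
  have h2 : log (2 + |x|) ^ a ≤ log (2 + K) ^ a :=
    rpow_le_rpow h1.le (log_le_log (by linarith) (by linarith)) ha.1.le
  rw [le_div_iff₀ (rpow_pos_of_pos h1 _)]
  have h3 : -(x * y) ≤ |x| * r := by
    refine (neg_le_abs _).trans ?_
    rw [abs_mul]
    gcongr
  calc -(x * y) * log (2 + |x|) ^ a ≤ |x| * r * log (2 + K) ^ a :=
        mul_le_mul h3 h2 (rpow_pos_of_pos h1 _).le (by positivity)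
    _ = |x| * (r * log (2 + K) ^ a) := by ring
    _ ≤ |x| * c₀ := by gcongr
    _ = _ := by ring

theorem small {θ c₀ K : ℝ} {n : ℕ} (hθ : 0 < θ) (hc : 0 < c₀)
    (h : (|log θ| + 2) * 3 / (2 * c₀) * 2 ^ n ≤ √K) :
    4 * exp (-(c₀ * √K / 3)) ^ 2 ≤ θ ^ 2 ^ n := by
  have h1 : (|log θ| + 2) * 2 ^ n ≤ 2 * (c₀ * √K / 3) := by
    rw [div_mul_eq_mul_div, div_le_iff₀ (by positivity)] at h
    linarith
  have h2 : (1 : ℝ) ≤ 2 ^ n := one_le_pow₀ (by norm_num)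
  have h3 : 4 ≤ exp 2 := by
    have := quadratic_le_exp_of_nonneg (show (0 : ℝ) ≤ 2 by norm_num)
    linarith
  have h4 : θ ^ 2 ^ n = exp (2 ^ n * log θ) := by
    conv_lhs => rw [← exp_log hθ, ← exp_nat_mul]
    push_cast
    rfl
  rw [h4, ← exp_nat_mul]
  refine (mul_le_mul_of_nonneg_right h3 (exp_pos _).le).trans ?_
  rw [← exp_add, exp_le_exp]
  push_cast
  nlinarith [neg_abs_le (log θ)]

theorem lower {C K : ℝ} (hK : 1 ≤ K) {N : ℕ} (hN : 1 ≤ N) (T : Finset ℤ) (a : ℤ → ℂ)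
    (m : ℤ → ℤ → ℂ) (h : ∀ l n : ℤ, |2 * π * n / N - l| ≤ 1 → 1 ≤ C * ‖m l n‖) :
    N * ∑ n ∈ T, ‖a n‖ ^ 2 ≤ C ^ 2 * ∑ l ∈ T.image (fun n : ℤ => ⌊2 * π * n / N⌋),
      ∫ x in (0 : ℝ)..N, ‖es T (fun n => 2 * π * n / N - l)
        (fun n => if |2 * π * n / N - l| ≤ K then a n * m l n else 0) x‖ ^ 2 := by
  have hN' : (0 : ℝ) < N := by exact_mod_cast hN
  have h1 := fun (l : ℝ) (c : ℤ → ℂ) => es_parseval hN' T l c 0
  simp only [add_zero, Complex.zero_im, mul_zero, neg_zero, exp_zero, mul_one] at h1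
  simp only [h1]
  rw [← Finset.mul_sum, Finset.sum_comm, mul_left_comm, Finset.mul_sum T (a := C ^ 2)]
  refine mul_le_mul_of_nonneg_left (Finset.sum_le_sum (fun n hn => ?_)) hN'.le
  have h2 : |2 * π * n / N - (⌊2 * π * n / N⌋ : ℤ)| ≤ 1 := by
    rw [abs_le]
    constructor <;> linarith [Int.floor_le (2 * π * n / N), Int.lt_floor_add_one (2 * π * n / N)]
  refine le_trans ?_ (mul_le_mul_of_nonneg_left (Finset.single_le_sum (f := fun l : ℤ =>
    ‖if |2 * π * n / N - l| ≤ K then a n * m l n else 0‖ ^ 2) (fun _ _ => by positivity)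
    (Finset.mem_image_of_mem _ hn)) (by positivity))
  rw [if_pos (h2.trans hK), norm_mul]
  calc ‖a n‖ ^ 2 = ‖a n‖ ^ 2 * 1 ^ 2 := by ring
    _ ≤ ‖a n‖ ^ 2 * (C * ‖m ⌊2 * π * n / N⌋ n‖) ^ 2 := by
      gcongr
      exact h _ n h2
    _ = _ := by ring

end F4

open F4 in
theorem ucont {ν μ : ℝ} (hν : 0 < ν) (hμ : μ ∈ Ioc (0 : ℝ) 1) (L₀ : ℝ) : ∃ c > 0, ∀ N : ℕ, 1 ≤ N →
    ∀ (T : Finset ℤ) (a : ℤ → ℂ), (∀ β, Porous {x | ∃ n ∈ T, x = 2 * π * n / N} ν L₀ β) →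
    ∀ s : ℕ → ℝ, (∀ j < N, j ≤ s j ∧ s j + μ ≤ j + 1) →
    c * (N * ∑ n ∈ T, ‖a n‖ ^ 2) ≤
      ∑ j ∈ Finset.range N, ∫ x in s j..s j + μ, ‖trig N T a x‖ ^ 2 := by
  obtain ⟨μ0, μ1⟩ := id hμ
  have hb : μ / 4 ∈ Ioc (0 : ℝ) 1 := ⟨by linarith, by linarith⟩
  obtain ⟨a₀, ha₀, c₀, hc₀, C, hC, hpack⟩ := pack hν hb L₀
  obtain ⟨C₀, hC₀, hsum⟩ := sum_const
  obtain ⟨P, hP1, hP2⟩ : ∃ P : ℕ, 1 ≤ P * (μ / 4) ∧ P * (μ / 4) ≤ 2 := by
    refine ⟨⌈1 / (μ / 4)⌉₊, ?_, ?_⟩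
    · rw [← div_le_iff₀ hb.1]
      exact Nat.le_ceil _
    · have h1 := (Nat.ceil_lt_add_one (show 0 ≤ 1 / (μ / 4) by positivity)).le
      have h2 := mul_le_mul_of_nonneg_right h1 hb.1.le
      rw [add_mul, one_div_mul_cancel hb.1.ne'] at h2
      linarith
  have P0 : 0 < P := Nat.pos_of_ne_zero (by rintro rfl; norm_num at hP1)
  obtain ⟨θ, hθ⟩ : ∃ θ : ℝ, θ = 1 / (2 * P * C ^ 4 * C₀) := ⟨_, rfl⟩
  have θ0 : 0 < θ := by rw [hθ]; positivity
  obtain ⟨K, hK, r, hr, n₀, r1, r2, r3, r4⟩ := choose_K ha₀ hc₀ (show 0 < μ / 8 by linarith)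
    ((|log θ| + 2) * 3 / (2 * c₀))
  refine ⟨θ ^ 2 ^ n₀ * C₀ / 1000, by positivity, fun N hN T a hpor s hs => ?_⟩
  have H0 : 0 ≤ ∑ j ∈ Finset.range N, ∫ x in s j..s j + μ, ‖trig N T a x‖ ^ 2 :=
    Finset.sum_nonneg (fun j _ =>
      intervalIntegral.integral_nonneg (by linarith) (fun x _ => by positivity))
  rcases (show 0 ≤ N * ∑ n ∈ T, ‖a n‖ ^ 2 by positivity).eq_or_lt with S0 | S0
  · rw [← S0, mul_zero]
    exact H0
  choose Kl Al b1 b2 b3 using fun l : ℤ => hpack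
    ((fun x => 1 * x + (-l : ℝ)) '' {x | ∃ n ∈ T, x = 2 * π * n / N})
    (Set.Finite.isBounded (Set.Finite.image _ ((T.finite_toSet.image
      (fun n : ℤ => 2 * π * n / N)).subset (fun x ⟨n, h1, h2⟩ => ⟨n, h1, h2.symm⟩))))
    (fun β => by simpa only [one_mul] using (hpor β).affine one_pos (-l : ℝ))
  obtain ⟨m, hm⟩ : ∃ m : ℤ → ℤ → ℂ,
    m = fun l n : ℤ => mult (μ / 4) (Kl l) (Al l) (2 * π * n / N - l) := ⟨_, rfl⟩
  have m1 : ∀ l : ℤ, ∀ n ∈ T, ‖m l n‖ ≤ C * exp (-(c₀ * |2 * π * n / N - l| /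
      log (2 + |2 * π * n / N - l|) ^ a₀)) / (1 + (2 * π * n / N - l) ^ 2) := fun l n hn => by
    rw [hm]
    exact b2 l _ ⟨_, ⟨n, hn, rfl⟩, by ring⟩
  have m2 := lower (C := C) (show 1 ≤ K by linarith) hN T a m (fun l n h => by
    rw [hm]
    exact b3 l _ h)
  generalize T.image (fun n : ℤ => ⌊2 * π * n / N⌋) = L at m2
  have m3 : ∀ x : ℝ, ∑ l ∈ L, ‖es T (fun n => 2 * π * n / N - l) (fun n => a n * m l n) x‖ ^ 2 ≤
      1000 * C ^ 2 * ∫ y in (-(μ / 4))..μ / 4, ‖trig N T a (x - y)‖ ^ 2 := fun x => by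
    have h1 := local_bessel hb L Kl Al b1 (trig_cont N T a) x
    simp only [conv_eq] at h1
    rw [hm]
    exact h1
  have hV : ∀ j < N, j ≤ s j + 3 * μ / 8 ∧ s j + 3 * μ / 8 ≤ s j + 3 * μ / 8 + μ / 4 ∧
      s j + 3 * μ / 8 + μ / 4 ≤ j + 1 := fun j hj =>
    ⟨by linarith [(hs j hj).1], by linarith, by linarith [(hs j hj).2]⟩
  obtain ⟨g, hg⟩ : ∃ g : ℤ → ℤ → ℂ,
    g = fun l n : ℤ => if |2 * π * n / N - l| ≤ K then a n * m l n else 0 := ⟨_, rfl⟩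
  obtain ⟨h, hh⟩ : ∃ h : ℤ → ℤ → ℂ,
    h = fun l n : ℤ => if |2 * π * n / N - l| ≤ K then 0 else a n * m l n := ⟨_, rfl⟩
  have q1 : ∀ z : ℂ, |z.im| ≤ r → _ := fun z hz =>
    energy (B := C) hsum hN T a L g z hV (fun l n hn => by
      rw [hg]
      simp only
      split_ifs with h1
      · rw [norm_mul, mul_assoc]
        refine mul_le_mul_of_nonneg_left ((mul_le_mul_of_nonneg_right (m1 l n hn)
          (exp_pos _).le).trans ?_) (norm_nonneg _)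
        rw [div_mul_eq_mul_div, mul_assoc, ← exp_add]
        gcongr
        refine mul_le_of_le_one_right hC.le (exp_le_one_iff.2 ?_)
        linarith [growth ha₀ hr r2 h1 hz]
      · rw [norm_zero, zero_mul]
        positivity)
  have q2 : ∀ t : ℝ, _ := fun t =>
    energy (B := C * exp (-(c₀ * √K / 3))) hsum hN T a L h t hV (fun l n hn => by
      rw [hh]
      simp only [Complex.ofReal_im, mul_zero, neg_zero, exp_zero, mul_one]
      split_ifs with h1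
      · rw [norm_zero]
        positivity
      · rw [norm_mul]
        refine mul_le_mul_of_nonneg_left ((m1 l n hn).trans ?_) (norm_nonneg _)
        exact div_le_div_of_nonneg_right (mul_le_mul_of_nonneg_left (exp_le_exp.2
          (neg_le_neg (decay ha₀ hc₀ hK (not_le.1 h1).le))) hC.le) (by positivity))
  have q3 : ∀ t : ℝ, |t| ≤ r → ∑ i ∈ L ×ˢ Finset.range N,
      ∫ x in s i.2 + 3 * μ / 8..s i.2 + 3 * μ / 8 + μ / 4,
        ‖es T (fun n => 2 * π * n / N - i.1) (g i.1) (x + t)‖ ^ 2 ≤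
      2 * (250 * C ^ 2 * ∑ j ∈ Finset.range N, ∫ x in s j..s j + μ, ‖trig N T a x‖ ^ 2) +
        2 * ((C * exp (-(c₀ * √K / 3))) ^ 2 * C₀ * (N * ∑ n ∈ T, ‖a n‖ ^ 2)) := by
    intro t ht
    have h1 := hole hμ (ht.trans r1) N L (fun l => es_cont _ _ _) (trig_cont N T a) m3 s
    refine le_trans ?_ (add_le_add (mul_le_mul_of_nonneg_left h1 two_pos.le)
      (mul_le_mul_of_nonneg_left (q2 t) two_pos.le))
    rw [Finset.mul_sum, Finset.mul_sum, ← Finset.sum_add_distrib]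
    refine Finset.sum_le_sum (fun i _ => ?_)
    rw [← intervalIntegral.integral_const_mul, ← intervalIntegral.integral_const_mul,
      ← intervalIntegral.integral_add (Continuous.intervalIntegrable (by fun_prop) _ _)
        (Continuous.intervalIntegrable (by fun_prop) _ _)]
    refine intervalIntegral.integral_mono_on (by linarith)
      (Continuous.intervalIntegrable (by fun_prop) _ _)
      (Continuous.intervalIntegrable (by fun_prop) _ _) (fun x _ => ?_)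
    have h2 : es T (fun n => 2 * π * n / N - i.1) (g i.1) (x + t) =
        es T (fun n => 2 * π * n / N - i.1) (fun n => a n * m i.1 n) (x + t) -
        es T (fun n => 2 * π * n / N - i.1) (h i.1) (x + t) := by
      unfold es
      rw [← Finset.sum_sub_distrib, hg, hh]
      refine Finset.sum_congr rfl (fun n _ => ?_)
      simp only
      split_ifs <;> ring
    rw [h2]
    refine (pow_le_pow_left₀ (norm_nonneg _) (norm_sub_le _ _) 2).trans ?_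
    nlinarith [sq_nonneg (‖es T (fun n => 2 * π * n / N - i.1) (fun n => a n * m i.1 n) (x + t)‖ -
      ‖es T (fun n => 2 * π * n / N - i.1) (h i.1) (x + t)‖)]
  have q4 : ∑ i ∈ Finset.range (2 * P), θ * (C ^ 2 * C₀ * (N * ∑ n ∈ T, ‖a n‖ ^ 2)) ≤
      ∑ i ∈ Finset.range (2 * P), ∑ k ∈ L ×ˢ Finset.range N,
        ∫ x in s k.2 + 3 * μ / 8..s k.2 + 3 * μ / 8 + μ / 4,
          ‖es T (fun n => 2 * π * n / N - k.1) (g k.1)
            (x + ((((i : ℝ) - P) * (μ / 4) : ℝ) : ℂ))‖ ^ 2 := by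
    refine le_of_mul_le_mul_left ?_ (show 0 < C ^ 2 by positivity)
    have h1 : C ^ 2 * ∑ i ∈ Finset.range (2 * P),
        θ * (C ^ 2 * C₀ * (N * ∑ n ∈ T, ‖a n‖ ^ 2)) = N * ∑ n ∈ T, ‖a n‖ ^ 2 := by
      rw [Finset.sum_const, Finset.card_range, nsmul_eq_mul, hθ]
      push_cast
      field_simp
    rw [h1]
    refine m2.trans (mul_le_mul_of_nonneg_left ?_ (by positivity))
    simp only [Finset.sum_product]
    rw [Finset.sum_comm]
    refine Finset.sum_le_sum (fun l _ => ?_)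
    have h2 := int_le_sum (F := fun x : ℝ => ‖es T (fun n => 2 * π * n / N - l) (g l) x‖ ^ 2)
      (by fun_prop) (fun x => by positivity) N P hP1 (α := fun j => s j + 3 * μ / 8)
      (fun j hj => ⟨(hV j hj).1, (hV j hj).2.1.trans (hV j hj).2.2⟩)
    simp only [Complex.ofReal_add] at h2
    rw [hg] at h2 ⊢
    exact h2
  obtain ⟨i, hi, q5⟩ := Finset.exists_le_of_sum_le (Finset.nonempty_range_iff.2 (by omega)) q4
  have hi' : (i : ℝ) ≤ 2 * P := by exact_mod_cast (Finset.mem_range.1 hi).le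
  have q6 := propQ (L ×ˢ Finset.range N) T (fun k n => 2 * π * n / N - k.1) (fun k => g k.1)
    (fun k => s k.2 + 3 * μ / 8) (fun k => s k.2 + 3 * μ / 8 + μ / 4) (fun _ _ => by linarith) hr
    (by positivity) (by positivity) q1 q3 n₀ (t₀ := ((i : ℝ) - P) * (μ / 4)) (by
      rw [abs_le]
      constructor <;> nlinarith [Nat.cast_nonneg (α := ℝ) i]) θ0 q5
  have q7 := mul_le_mul_of_nonneg_right (small θ0 hc₀ r4)
    (show 0 ≤ C ^ 2 * C₀ * (N * ∑ n ∈ T, ‖a n‖ ^ 2) by positivity)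
  refine le_of_mul_le_mul_left ?_ (show 0 < C ^ 2 by positivity)
  nlinarith

end Pool.Agent.Lib.MP_e1e19a_an
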