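import Pool.Agent.Lib.MP_e1e19a_an.N.Core

/-!
A local Bessel inequality.
-/

namespace Pool.Agent.Lib.MP_e1e19a_an

open Real MeasureTheory Set
open scoped MatrixGroups ComplexConjugate UpperHalfPlane

namespace F4a

theorem orth {N : ℝ} (hN : 0 < N) (k : ℤ) (x : ℝ) :
    ∫ y in x..x + N, Complex.exp (Complex.I * (2 * π * k / N * y)) = if k = 0 then (N : ℂ) else 0 := by
  split_ifs with hk
  · subst hk; simp
  · have hN' : (N : ℂ) ≠ 0 := by exact_mod_cast hN.ne'
    have hk' : (k : ℂ) ≠ 0 := by exact_mod_cast hk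
    have hpi : (π : ℂ) ≠ 0 := by exact_mod_cast Real.pi_ne_zero
    have hc : Complex.I * (2 * π * k / N) ≠ 0 := by
      apply mul_ne_zero Complex.I_ne_zero
      exact div_ne_zero (mul_ne_zero (mul_ne_zero two_ne_zero hpi) hk') hN'
    have e1 : ∀ y : ℝ, Complex.exp (Complex.I * (2 * π * k / N * y)) =
        Complex.exp (Complex.I * (2 * π * k / N) * y) := fun y => by rw [mul_assoc Complex.I]
    simp only [e1]
    rw [integral_exp_mul_complex hc]
    have e2 : Complex.I * (2 * π * k / N) * ((x + N : ℝ) : ℂ) =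
        Complex.I * (2 * π * k / N) * x + k * (2 * π * Complex.I) := by
      push_cast; field_simp
    rw [e2, Complex.exp_add, Complex.exp_int_mul_two_pi_mul_I]
    simp

theorem sq_eq (N : ℝ) (T : Finset ℤ) (a : ℤ → ℂ) (y : ℝ) :
    ((‖trig N T a y‖ ^ 2 : ℝ) : ℂ) = ∑ n ∈ T, ∑ m ∈ T, a n * conj (a m) *
      Complex.exp (Complex.I * (2 * π * ((n - m : ℤ) : ℂ) / N * y)) := by
  rw [← Complex.normSq_eq_norm_sq, ← Complex.mul_conj, trig, map_sum, Finset.sum_mul_sum]
  refine Finset.sum_congr rfl fun n _ => Finset.sum_congr rfl fun m _ => ?_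
  rw [map_mul, ← Complex.exp_conj, mul_mul_mul_comm, ← Complex.exp_add]
  congr 2
  simp only [map_mul, map_div₀, Complex.conj_I, Complex.conj_ofReal, map_intCast, map_ofNat]
  push_cast
  ring

theorem sum_inv_le (K : Finset ℤ) : ∑ k ∈ K, 1 / (1 + (k : ℝ) ^ 2) ≤ 4 := by
  have key : ∀ n : ℕ, ∑ k ∈ Finset.Icc (-(n : ℤ)) n, 1 / (1 + (k : ℝ) ^ 2) ≤ 4 - 3 / ((n : ℝ) + 1) := by
    intro n
    induction n with
    | zero => norm_num
    | succ n ih =>
      have e : Finset.Icc (-((n + 1 : ℕ) : ℤ)) ((n + 1 : ℕ) : ℤ) =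
          insert ((n : ℤ) + 1) (insert (-((n : ℤ) + 1)) (Finset.Icc (-(n : ℤ)) n)) := by
        ext k; simp only [Finset.mem_Icc, Finset.mem_insert]; push_cast; omega
      rw [e, Finset.sum_insert, Finset.sum_insert]
      · push_cast
        have h0 : (0 : ℝ) ≤ n := Nat.cast_nonneg n
        have h1 : 1 / (1 + ((n : ℝ) + 1) ^ 2) + 1 / (1 + (-((n : ℝ) + 1)) ^ 2) ≤
            3 / ((n : ℝ) + 1) - 3 / ((n : ℝ) + 1 + 1) := by
          rw [neg_sq, ← add_div, div_sub_div _ _ (by positivity) (by positivity),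
            div_le_div_iff₀ (by positivity) (by positivity)]
          nlinarith [mul_nonneg h0 h0]
        linarith
      · simp only [Finset.mem_Icc]; omega
      · simp only [Finset.mem_Icc, Finset.mem_insert]; omega
  obtain ⟨n, hn⟩ : ∃ n : ℕ, K ⊆ Finset.Icc (-(n : ℤ)) n := by
    refine ⟨K.sup Int.natAbs, fun k hk => ?_⟩
    have := Finset.le_sup (f := Int.natAbs) hk
    simp only [Finset.mem_Icc]; omega
  calc _ ≤ ∑ k ∈ Finset.Icc (-(n : ℤ)) n, 1 / (1 + (k : ℝ) ^ 2) :=
        Finset.sum_le_sum_of_subset_of_nonneg hn fun k _ _ => by positivity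
    _ ≤ 4 - 3 / ((n : ℝ) + 1) := key n
    _ ≤ 4 := by have : (0 : ℝ) ≤ 3 / ((n : ℝ) + 1) := by positivity
                linarith

theorem trig_cont (N : ℝ) (T : Finset ℤ) (a : ℤ → ℂ) : Continuous (trig N T a) := by
  unfold trig
  fun_prop

end F4a

theorem trig_parseval {N : ℝ} (hN : 0 < N) (T : Finset ℤ) (a : ℤ → ℂ) (x : ℝ) :
    ∫ y in x..x + N, ‖trig N T a y‖ ^ 2 = N * ∑ n ∈ T, ‖a n‖ ^ 2 := by
  apply Complex.ofReal_injective
  rw [← intervalIntegral.integral_ofReal]
  simp only [F4a.sq_eq]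
  rw [intervalIntegral.integral_finsetSum]
  · push_cast
    rw [Finset.mul_sum]
    refine Finset.sum_congr rfl fun n hn => ?_
    rw [intervalIntegral.integral_finsetSum]
    · have : ∀ m ∈ T, ∫ y in x..x + N, a n * conj (a m) *
          Complex.exp (Complex.I * (2 * π * ((n : ℂ) - m) / N * y)) =
          if n = m then a n * conj (a m) * N else 0 := by
        intro m _
        rw [intervalIntegral.integral_const_mul]
        have := F4a.orth hN (n - m) x
        push_cast at this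
        rw [this]
        by_cases h : n = m
        · simp [h]
        · rw [if_neg (sub_ne_zero.2 h), if_neg h, mul_zero]
      rw [Finset.sum_congr rfl this, Finset.sum_ite_eq, if_pos hn, Complex.mul_conj,
        Complex.normSq_eq_norm_sq]
      push_cast; ring
    · intro m _
      apply Continuous.intervalIntegrable
      fun_prop
  · intro n _
    apply Continuous.intervalIntegrable
    fun_prop

namespace F4a

theorem bessel {b : ℝ} (hb : b ∈ Ioc (0 : ℝ) 1) (L : Finset ℤ) {h : ℝ → ℂ} (hh : Continuous h) :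
    ∑ l ∈ L, ‖∫ y in (-b)..b, Complex.exp (Complex.I * (l * y)) * h y‖ ^ 2 ≤
      2 * π * ∫ y in (-b)..b, ‖h y‖ ^ 2 := by
  set c : ℤ → ℂ := fun l => ∫ y in (-b)..b, Complex.exp (Complex.I * (l * y)) * h y with hc
  set S : ℝ := ∑ l ∈ L, ‖c l‖ ^ 2 with hS
  set Q : ℝ → ℂ := trig (2 * π) L (fun l => conj (c l)) with hQ
  have hpi := Real.pi_pos
  have hpi3 := Real.pi_gt_three
  have hQc : Continuous Q := trig_cont _ _ _
  have hbb : -b ≤ b := by linarith [hb.1]
  have hQe : ∀ y : ℝ, Q y = ∑ l ∈ L, conj (c l) * Complex.exp (Complex.I * (l * y)) := by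
    intro y
    rw [hQ, trig]
    refine Finset.sum_congr rfl fun l _ => ?_
    have hpi' : (π : ℂ) ≠ 0 := by exact_mod_cast Real.pi_ne_zero
    congr 2
    push_cast
    field_simp
  have h1 : (S : ℂ) = ∫ y in (-b)..b, Q y * h y := by
    simp only [hQe, Finset.sum_mul]
    rw [intervalIntegral.integral_finsetSum, hS]
    · push_cast
      refine Finset.sum_congr rfl fun l _ => ?_
      simp only [mul_assoc]
      rw [intervalIntegral.integral_const_mul]
      change _ = conj (c l) * c l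
      rw [mul_comm, Complex.mul_conj, Complex.normSq_eq_norm_sq]
      push_cast; rfl
    · intro l _
      apply Continuous.intervalIntegrable
      fun_prop
  have hS0 : 0 ≤ S := Finset.sum_nonneg fun l _ => by positivity
  have h2 : ∫ y in (-b)..b, ‖Q y‖ ^ 2 ≤ 2 * π * S := by
    have hp := trig_parseval (N := 2 * π) (by positivity) L (fun l => conj (c l)) (-π)
    simp only [Complex.norm_conj] at hp
    rw [← hS, ← hQ] at hp
    rw [← hp]
    apply intervalIntegral.integral_mono_interval (by linarith [hb.2]) hbb (by linarith [hb.2])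
    · exact Filter.Eventually.of_forall fun y => by positivity
    · apply Continuous.intervalIntegrable; fun_prop
  have h3 : S ≤ ∫ y in (-b)..b, (π * ‖h y‖ ^ 2 + (4 * π)⁻¹ * ‖Q y‖ ^ 2) := by
    calc S = ‖(S : ℂ)‖ := by rw [Complex.norm_real, Real.norm_of_nonneg hS0]
      _ ≤ ∫ y in (-b)..b, ‖Q y * h y‖ := by
          rw [h1]; exact intervalIntegral.norm_integral_le_integral_norm hbb
      _ ≤ _ := by
          apply intervalIntegral.integral_mono_on hbb
          · apply Continuous.intervalIntegrable; fun_prop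
          · apply Continuous.intervalIntegrable; fun_prop
          · intro y _
            rw [norm_mul]
            have e : π * ‖h y‖ ^ 2 + (4 * π)⁻¹ * ‖Q y‖ ^ 2 - ‖Q y‖ * ‖h y‖ =
                (4 * π)⁻¹ * (‖Q y‖ - 2 * π * ‖h y‖) ^ 2 := by
              field_simp; ring
            have : 0 ≤ (4 * π)⁻¹ * (‖Q y‖ - 2 * π * ‖h y‖) ^ 2 := by positivity
            linarith
  rw [intervalIntegral.integral_add, intervalIntegral.integral_const_mul,
    intervalIntegral.integral_const_mul] at h3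
  · have h4 : (4 * π)⁻¹ * ∫ y in (-b)..b, ‖Q y‖ ^ 2 ≤ (4 * π)⁻¹ * (2 * π * S) :=
      mul_le_mul_of_nonneg_left h2 (by positivity)
    have h5 : (4 * π)⁻¹ * (2 * π * S) = S / 2 := by field_simp; ring
    linarith
  · apply Continuous.intervalIntegrable; fun_prop
  · apply Continuous.intervalIntegrable; fun_prop

theorem cs (K : Finset ℤ) (A c : ℤ → ℂ) {C : ℝ} (hA : ∀ k, ‖A k‖ ≤ C / (1 + k ^ 2)) :
    ‖∑ k ∈ K, A k * c k‖ ^ 2 ≤ 4 * C ^ 2 * ∑ k ∈ K, 1 / (1 + (k : ℝ) ^ 2) * ‖c k‖ ^ 2 := by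
  have hC : 0 ≤ C := by
    have := (norm_nonneg _).trans (hA 0)
    simpa using this
  have h1 : ‖∑ k ∈ K, A k * c k‖ ≤ C * ∑ k ∈ K, 1 / (1 + (k : ℝ) ^ 2) * ‖c k‖ := by
    rw [Finset.mul_sum]
    refine (norm_sum_le _ _).trans (Finset.sum_le_sum fun k _ => ?_)
    rw [norm_mul, ← mul_assoc, mul_one_div]
    exact mul_le_mul_of_nonneg_right (hA k) (norm_nonneg _)
  have h2 : (∑ k ∈ K, 1 / (1 + (k : ℝ) ^ 2) * ‖c k‖) ^ 2 ≤
      (∑ k ∈ K, 1 / (1 + (k : ℝ) ^ 2)) * ∑ k ∈ K, 1 / (1 + (k : ℝ) ^ 2) * ‖c k‖ ^ 2 := by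
    apply Finset.sum_sq_le_sum_mul_sum_of_sq_le_mul
    · intro k _; positivity
    · intro k _; positivity
    · intro k _; exact le_of_eq (by ring)
  have h3 : 0 ≤ ∑ k ∈ K, 1 / (1 + (k : ℝ) ^ 2) * ‖c k‖ ^ 2 :=
    Finset.sum_nonneg fun k _ => by positivity
  calc _ ≤ (C * ∑ k ∈ K, 1 / (1 + (k : ℝ) ^ 2) * ‖c k‖) ^ 2 :=
        pow_le_pow_left₀ (norm_nonneg _) h1 2
    _ = C ^ 2 * (∑ k ∈ K, 1 / (1 + (k : ℝ) ^ 2) * ‖c k‖) ^ 2 := by ring
    _ ≤ C ^ 2 * (4 * ∑ k ∈ K, 1 / (1 + (k : ℝ) ^ 2) * ‖c k‖ ^ 2) :=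
        mul_le_mul_of_nonneg_left (h2.trans (mul_le_mul_of_nonneg_right (sum_inv_le K) h3))
          (by positivity)
    _ = _ := by ring

end F4a

theorem local_bessel {b C : ℝ} (hb : b ∈ Ioc (0 : ℝ) 1) (L : Finset ℤ) (K : ℤ → Finset ℤ)
    (A : ℤ → ℤ → ℂ) (hA : ∀ l k, ‖A l k‖ ≤ C / (1 + k ^ 2)) {f : ℝ → ℂ} (hf : Continuous f)
    (x : ℝ) : ∑ l ∈ L, ‖∫ y in (-b)..b, Complex.exp (Complex.I * (l * y)) * ((exp y : ℂ) *
      ∑ k ∈ K l, A l k * Complex.exp (Complex.I * (π * k * y / b))) * f (x - y)‖ ^ 2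
      ≤ 1000 * C ^ 2 * ∫ y in (-b)..b, ‖f (x - y)‖ ^ 2 := by
  classical
  set h : ℤ → ℝ → ℂ := fun k y =>
    (exp y : ℂ) * Complex.exp (Complex.I * (π * k * y / b)) * f (x - y) with hh
  have hhc : ∀ k, Continuous (h k) := fun k => by
    simp only [hh]; fun_prop
  set c : ℤ → ℤ → ℂ := fun l k => ∫ y in (-b)..b, Complex.exp (Complex.I * (l * y)) * h k y with hc
  set F : ℝ := ∫ y in (-b)..b, ‖f (x - y)‖ ^ 2 with hF
  have hbb : -b ≤ b := by linarith [hb.1]
  have hF0 : 0 ≤ F := intervalIntegral.integral_nonneg hbb fun y _ => by positivity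
  have h1 : ∀ l : ℤ, ∫ y in (-b)..b, Complex.exp (Complex.I * (l * y)) * ((exp y : ℂ) *
      ∑ k ∈ K l, A l k * Complex.exp (Complex.I * (π * k * y / b))) * f (x - y) =
      ∑ k ∈ K l, A l k * c l k := by
    intro l
    simp only [hc, ← intervalIntegral.integral_const_mul]
    rw [← intervalIntegral.integral_finsetSum]
    · refine intervalIntegral.integral_congr fun y _ => ?_
      simp only [hh, Finset.mul_sum, Finset.sum_mul]
      exact Finset.sum_congr rfl fun k _ => by ring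
    · intro k _
      apply Continuous.intervalIntegrable
      have := hhc k
      fun_prop
  have h2 : ∀ k : ℤ, ∑ l ∈ L, ‖c l k‖ ^ 2 ≤ 62 * F := by
    intro k
    refine (F4a.bessel hb L (hhc k)).trans ?_
    have h3 : ∫ y in (-b)..b, ‖h k y‖ ^ 2 ≤ 8 * F := by
      rw [hF, ← intervalIntegral.integral_const_mul]
      apply intervalIntegral.integral_mono_on hbb
      · apply Continuous.intervalIntegrable
        have := hhc k
        fun_prop
      · apply Continuous.intervalIntegrable; fun_prop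
      · intro y hy
        have e1 : ‖Complex.exp (Complex.I * (π * k * y / b))‖ = 1 := by
          have : Complex.I * (π * k * y / b) = ((π * k * y / b : ℝ) : ℂ) * Complex.I := by
            push_cast; ring
          rw [this, Complex.norm_exp_ofReal_mul_I]
        have e2 : exp y ≤ 2.72 := by
          have := Real.exp_one_lt_d9
          have h1 : exp y ≤ exp 1 := Real.exp_le_exp.2 (hy.2.trans hb.2)
          linarith
        have e3 := Real.exp_pos y
        simp only [hh, norm_mul, e1, Complex.norm_real, Real.norm_of_nonneg e3.le, mul_one, mul_pow]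
        apply mul_le_mul_of_nonneg_right _ (by positivity)
        nlinarith
    have := Real.pi_lt_d2
    have hpi := Real.pi_pos
    calc _ ≤ 2 * π * (8 * F) := mul_le_mul_of_nonneg_left h3 (by positivity)
      _ ≤ _ := by nlinarith
  simp only [h1]
  set KK : Finset ℤ := L.biUnion K with hKK
  calc _ ≤ ∑ l ∈ L, 4 * C ^ 2 * ∑ k ∈ KK, 1 / (1 + (k : ℝ) ^ 2) * ‖c l k‖ ^ 2 := by
        refine Finset.sum_le_sum fun l hl => (F4a.cs (K l) (A l) (c l) (hA l)).trans ?_
        apply mul_le_mul_of_nonneg_left _ (by positivity)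
        exact Finset.sum_le_sum_of_subset_of_nonneg (Finset.subset_biUnion_of_mem K hl)
          fun k _ _ => by positivity
    _ = 4 * C ^ 2 * ∑ k ∈ KK, 1 / (1 + (k : ℝ) ^ 2) * ∑ l ∈ L, ‖c l k‖ ^ 2 := by
        rw [← Finset.mul_sum, Finset.sum_comm]
        simp only [Finset.mul_sum]
    _ ≤ 4 * C ^ 2 * ∑ k ∈ KK, 1 / (1 + (k : ℝ) ^ 2) * (62 * F) := by
        apply mul_le_mul_of_nonneg_left _ (by positivity)
        exact Finset.sum_le_sum fun k _ => mul_le_mul_of_nonneg_left (h2 k) (by positivity)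
    _ ≤ 4 * C ^ 2 * (4 * (62 * F)) := by
        rw [← Finset.sum_mul]
        apply mul_le_mul_of_nonneg_left _ (by positivity)
        exact mul_le_mul_of_nonneg_right (F4a.sum_inv_le KK) (by positivity)
    _ ≤ _ := by nlinarith [mul_nonneg (sq_nonneg C) hF0]

theorem Porous.mono {X Y : Set ℝ} {ν ν' a a' b b' : ℝ} (h : Porous X ν a b) (h1 : Y ⊆ X)
    (h2 : 0 ≤ ν') (h3 : ν' ≤ ν) (h4 : a ≤ a') (h5 : b' ≤ b) (h6 : 0 ≤ a') :
    Porous Y ν' a' b' := by
  intro x l hl1 hl2
  obtain ⟨y, hy1, hy2, hy3⟩ := h x l (h4.trans hl1) (hl2.trans h5)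
  have hl : ν' * l ≤ ν * l := mul_le_mul_of_nonneg_right h3 (h6.trans hl1)
  exact ⟨y, hy1, by linarith, fun t ht hm => hy3 t (h1 ht) ⟨hm.1, by linarith [hm.2]⟩⟩

theorem Porous.affine {X : Set ℝ} {ν a b u : ℝ} (h : Porous X ν a b) (hu : 0 < u) (v : ℝ) :
    Porous ((fun x => u * x + v) '' X) ν (u * a) (u * b) := by
  intro x l hl1 hl2
  obtain ⟨y, hy1, hy2, hy3⟩ := h ((x - v) / u) (l / u)
    (by rw [le_div_iff₀ hu]; linarith) (by rw [div_le_iff₀ hu]; linarith)
  have e1 : u * ((x - v) / u) = x - v := by field_simp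
  have e2 : u * (l / u) = l := by field_simp
  have e3 : u * (ν * (l / u)) = ν * l := by field_simp
  refine ⟨u * y + v, ?_, ?_, ?_⟩
  · have := mul_le_mul_of_nonneg_left hy1 hu.le
    linarith
  · have := mul_le_mul_of_nonneg_left hy2 hu.le
    rw [mul_add, mul_add] at this
    linarith
  · rintro _ ⟨t, ht, rfl⟩ hm
    refine hy3 t ht ⟨?_, ?_⟩
    · have := hm.1
      exact le_of_mul_le_mul_left (by simp only at this; linarith) hu
    · have := hm.2
      refine le_of_mul_le_mul_left ?_ hu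
      rw [mul_add, e3]
      simp only at this; linarith

theorem Porous.thicken {X : Set ℝ} {ν a b d : ℝ} (h : Porous X ν a b) (hν : 0 < ν) (hd : 0 ≤ d) :
    Porous {y | ∃ x ∈ X, |y - x| ≤ d} (ν / 2) (max a (4 * d / ν)) b := by
  intro x l hl1 hl2
  obtain ⟨y, hy1, hy2, hy3⟩ := h x l ((le_max_left _ _).trans hl1) hl2
  have h4 : 4 * d ≤ l * ν := (div_le_iff₀ hν).1 ((le_max_right _ _).trans hl1)
  refine ⟨y + ν * l / 4, by nlinarith, by nlinarith, ?_⟩
  rintro t ⟨s, hs, hts⟩ hm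
  rw [abs_le] at hts
  exact hy3 s hs ⟨by nlinarith [hm.1], by nlinarith [hm.2]⟩

end Pool.Agent.Lib.MP_e1e19a_an
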