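import Pool.Agent.Lib.MP_e1e19a_an.N.F1
import Pool.Agent.Lib.MP_e1e19a_an.N.F2
import Pool.Agent.Lib.MP_e1e19a_an.N.F3
import Pool.Agent.Lib.MP_e1e19a_an.N.F4a

/-!
Auxiliary facts for unique continuation: exponential sums, propagation of a square sum,
covering of a period, and the choice of the constants.
-/

namespace Pool.Agent.Lib.MP_e1e19a_an

open Real MeasureTheory Set
open scoped MatrixGroups ComplexConjugate UpperHalfPlane

namespace F4

/-- an exponential sum -/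
noncomputable def es (T : Finset ℤ) (ξ : ℤ → ℝ) (c : ℤ → ℂ) (z : ℂ) : ℂ :=
  ∑ n ∈ T, c n * Complex.exp (Complex.I * (ξ n * z))

@[fun_prop]
theorem es_cont (T : Finset ℤ) (ξ : ℤ → ℝ) (c : ℤ → ℂ) : Continuous (es T ξ c) := by
  unfold es
  fun_prop

theorem trig_cont (N : ℝ) (T : Finset ℤ) (a : ℤ → ℂ) : Continuous (trig N T a) := by
  unfold trig
  fun_prop

theorem pair_diff (T : Finset ℤ) (ξ : ℤ → ℝ) (c : ℤ → ℂ) {v : ℝ → ℂ} (hv : Continuous v)
    (α β : ℝ) : Differentiable ℂ fun z : ℂ => ∫ x in α..β, es T ξ c (x + z) * v x := by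
  have : (fun z : ℂ => ∫ x in α..β, es T ξ c (x + z) * v x) = fun z : ℂ => ∑ n ∈ T,
      Complex.exp (Complex.I * (ξ n * z)) *
        ∫ x in α..β, c n * Complex.exp (Complex.I * (ξ n * x)) * v x := by
    funext z
    simp only [← intervalIntegral.integral_const_mul]
    rw [← intervalIntegral.integral_finsetSum (fun n _ => Continuous.intervalIntegrable
      (by fun_prop) _ _)]
    refine intervalIntegral.integral_congr (fun x _ => ?_)
    unfold es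
    simp only [Finset.sum_mul]
    refine Finset.sum_congr rfl (fun n _ => ?_)
    rw [mul_add, mul_add, Complex.exp_add]
    ring
  rw [this]
  fun_prop

theorem pair_le {u v : ℝ → ℂ} (hu : Continuous u) (hv : Continuous v) {α β t : ℝ} (h : α ≤ β)
    (ht : 0 < t) : ‖∫ x in α..β, u x * conj (v x)‖ ≤
      (t * (∫ x in α..β, ‖u x‖ ^ 2) + t⁻¹ * ∫ x in α..β, ‖v x‖ ^ 2) / 2 := by
  rw [← intervalIntegral.integral_const_mul, ← intervalIntegral.integral_const_mul,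
    ← intervalIntegral.integral_add (Continuous.intervalIntegrable (by fun_prop) _ _)
      (Continuous.intervalIntegrable (by fun_prop) _ _), ← intervalIntegral.integral_div]
  refine intervalIntegral.norm_integral_le_of_norm_le h (Filter.Eventually.of_forall
    (fun x _ => ?_)) (Continuous.intervalIntegrable (by fun_prop) _ _)
  rw [norm_mul, Complex.norm_conj]
  have h1 : 0 ≤ t⁻¹ * (t * ‖u x‖ - ‖v x‖) ^ 2 := by positivity
  have h2 : t⁻¹ * (t * ‖u x‖ - ‖v x‖) ^ 2 =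
      t * ‖u x‖ ^ 2 + t⁻¹ * ‖v x‖ ^ 2 - 2 * (‖u x‖ * ‖v x‖) := by
    field_simp
    ring
  linarith

theorem propQ' {ι : Type} (s : Finset ι) (T : Finset ℤ) (ξ : ι → ℤ → ℝ) (c : ι → ℤ → ℂ)
    (α β : ι → ℝ) (hαβ : ∀ i ∈ s, α i ≤ β i) {r u U : ℝ} (hr : 0 < r) (hu : 0 < u) (hU : u ≤ U)
    (h1 : ∀ z : ℂ, |z.im| ≤ r →
      ∑ i ∈ s, ∫ x in α i..β i, ‖es T (ξ i) (c i) (x + z)‖ ^ 2 ≤ U ^ 2)
    (h2 : ∀ t : ℝ, |t| ≤ r → ∑ i ∈ s, ∫ x in α i..β i, ‖es T (ξ i) (c i) (x + t)‖ ^ 2 ≤ u ^ 2)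
    (n : ℕ) {t₀ : ℝ} (ht₀ : |t₀| ≤ n * r / 16) {θ : ℝ} (hθ : 0 < θ)
    (h3 : θ * U ^ 2 ≤ ∑ i ∈ s, ∫ x in α i..β i, ‖es T (ξ i) (c i) (x + t₀)‖ ^ 2) :
    θ ^ 2 ^ n * U ^ 2 ≤ u ^ 2 := by
  have hU0 : 0 < U := hu.trans_le hU
  obtain ⟨A, hA0, hA⟩ : ∃ A : ℝ, 0 < A ∧
      ∑ i ∈ s, ∫ x in α i..β i, ‖es T (ξ i) (c i) (x + t₀)‖ ^ 2 = A ^ 2 :=
    ⟨√_, sqrt_pos.2 (lt_of_lt_of_le (by positivity) h3),
      (sq_sqrt (le_trans (by positivity) h3)).symm⟩
  obtain ⟨Φ, hΦ⟩ : ∃ Φ : ℂ → ℂ, Φ = fun z => (∑ i ∈ s, ∫ x in α i..β i,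
      es T (ξ i) (c i) (x + z) * conj (es T (ξ i) (c i) (x + t₀))) / A := ⟨_, rfl⟩
  have hd : Differentiable ℂ Φ := by
    rw [hΦ]
    refine Differentiable.div_const (Differentiable.fun_sum (fun i _ => pair_diff _ _ _ ?_ _ _)) _
    fun_prop
  have hb : ∀ (z : ℂ) (P : ℝ), 0 < P →
      ∑ i ∈ s, ∫ x in α i..β i, ‖es T (ξ i) (c i) (x + z)‖ ^ 2 ≤ P ^ 2 → ‖Φ z‖ ≤ P := by
    intro z P hP h
    rw [hΦ, norm_div, Complex.norm_real, Real.norm_of_nonneg hA0.le, div_le_iff₀ hA0]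
    refine (norm_sum_le _ _).trans ((Finset.sum_le_sum (fun i hi => pair_le (t := A / P)
      (by fun_prop) (by fun_prop) (hαβ i hi) (by positivity))).trans ?_)
    rw [← Finset.sum_div, Finset.sum_add_distrib, ← Finset.mul_sum, ← Finset.mul_sum, hA]
    have h4 := mul_le_mul_of_nonneg_left h (show 0 ≤ A / P by positivity)
    have h5 : A / P * P ^ 2 + (A / P)⁻¹ * A ^ 2 = 2 * (P * A) := by
      field_simp
      ring
    linarith
  have h0 : ‖Φ t₀‖ = A := by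
    have : ∑ i ∈ s, ∫ x in α i..β i,
        es T (ξ i) (c i) (x + t₀) * conj (es T (ξ i) (c i) (x + t₀)) = ((A ^ 2 : ℝ) : ℂ) := by
      rw [← hA, Complex.ofReal_sum]
      refine Finset.sum_congr rfl (fun i _ => ?_)
      rw [← intervalIntegral.integral_ofReal]
      refine intervalIntegral.integral_congr (fun x _ => ?_)
      simp only [Complex.mul_conj']
      push_cast
      rfl
    rw [hΦ]
    simp only [this]
    rw [← Complex.ofReal_div, Complex.norm_real, Real.norm_of_nonneg (by positivity)]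
    field_simp
  have h4 := propagate hd hr hu.le hU (fun z hz => hb z U hU0 (h1 z hz))
    (fun t ht => hb t u hu (h2 t ht)) n t₀ ht₀
  rw [h0] at h4
  rw [hA] at h3
  have h5 : u ^ ((1 / 2 : ℝ) ^ n) * U ^ (1 - (1 / 2 : ℝ) ^ n) =
      U * (u / U) ^ ((1 / 2 : ℝ) ^ n) := by
    rw [div_rpow hu.le hU0.le, rpow_sub hU0, rpow_one]
    ring
  rw [h5] at h4
  have h6 : θ ≤ ((u / U) ^ ((1 / 2 : ℝ) ^ n)) ^ 2 := by
    have h7 := h3.trans (pow_le_pow_left₀ hA0.le h4 2)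
    rw [mul_pow, mul_comm (U ^ 2)] at h7
    exact le_of_mul_le_mul_right h7 (by positivity)
  have h7 : (((u / U) ^ ((1 / 2 : ℝ) ^ n)) ^ 2) ^ 2 ^ n = (u / U) ^ 2 := by
    rw [← pow_mul, mul_comm, pow_mul]
    congr 1
    rw [← rpow_natCast, ← rpow_mul (by positivity)]
    push_cast
    rw [← mul_pow]
    simp
  have h8 := pow_le_pow_left₀ hθ.le h6 (2 ^ n)
  rwa [h7, div_pow, le_div_iff₀ (by positivity)] at h8

theorem propQ {ι : Type} (s : Finset ι) (T : Finset ℤ) (ξ : ι → ℤ → ℝ) (c : ι → ℤ → ℂ)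
    (α β : ι → ℝ) (hαβ : ∀ i ∈ s, α i ≤ β i) {r m M : ℝ} (hr : 0 < r) (hm : 0 < m) (hM : 0 < M)
    (h1 : ∀ z : ℂ, |z.im| ≤ r → ∑ i ∈ s, ∫ x in α i..β i, ‖es T (ξ i) (c i) (x + z)‖ ^ 2 ≤ M)
    (h2 : ∀ t : ℝ, |t| ≤ r → ∑ i ∈ s, ∫ x in α i..β i, ‖es T (ξ i) (c i) (x + t)‖ ^ 2 ≤ m)
    (n : ℕ) {t₀ : ℝ} (ht₀ : |t₀| ≤ n * r / 16) {θ : ℝ} (hθ : 0 < θ)
    (h3 : θ * M ≤ ∑ i ∈ s, ∫ x in α i..β i, ‖es T (ξ i) (c i) (x + t₀)‖ ^ 2) :
    θ ^ 2 ^ n * M ≤ m := by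
  have h4 := propQ' s T ξ c α β hαβ (u := √(min m M)) (U := √M) hr (sqrt_pos.2 (lt_min hm hM))
    (sqrt_le_sqrt (min_le_right _ _)) (fun z hz => by rw [sq_sqrt hM.le]; exact h1 z hz)
    (fun t ht => by
      rw [sq_sqrt (lt_min hm hM).le]
      exact le_min (h2 t ht) (h1 t (by simpa using hr.le))) n ht₀ hθ (by rwa [sq_sqrt hM.le])
  rw [sq_sqrt hM.le, sq_sqrt (lt_min hm hM).le] at h4
  exact h4.trans (min_le_left _ _)

theorem es_parseval {N : ℝ} (hN : 0 < N) (T : Finset ℤ) (l : ℝ) (c : ℤ → ℂ) (z : ℂ) :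
    ∫ x in (0 : ℝ)..N, ‖es T (fun n => 2 * π * n / N - l) c (x + z)‖ ^ 2 =
      N * ∑ n ∈ T, (‖c n‖ * exp (-((2 * π * n / N - l) * z.im))) ^ 2 := by
  have h1 := trig_parseval hN T
    (fun n => c n * Complex.exp (Complex.I * ((2 * π * n / N - l : ℝ) * z))) 0
  rw [zero_add] at h1
  have h2 : ∀ n : ℤ, ‖c n * Complex.exp (Complex.I * ((2 * π * n / N - l : ℝ) * z))‖ =
      ‖c n‖ * exp (-((2 * π * n / N - l) * z.im)) := by
    intro n
    rw [norm_mul, Complex.norm_exp]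
    generalize 2 * π * n / N - l = y
    simp
  simp only [h2] at h1
  rw [← h1]
  refine intervalIntegral.integral_congr (fun x _ => ?_)
  have h3 : es T (fun n => 2 * π * n / N - l) c (x + z) = Complex.exp (((-(l * x) : ℝ) : ℂ) *
      Complex.I) * trig N T
        (fun n => c n * Complex.exp (Complex.I * ((2 * π * n / N - l : ℝ) * z))) x := by
    unfold es trig
    rw [Finset.mul_sum]
    refine Finset.sum_congr rfl (fun n _ => ?_)
    rw [mul_left_comm, mul_assoc, mul_left_comm (Complex.exp _), ← Complex.exp_add,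
      ← Complex.exp_add]
    congr 2
    push_cast
    ring
  simp only [h3, norm_mul, Complex.norm_exp_ofReal_mul_I, one_mul]

theorem sum_le_int {F : ℝ → ℝ} (hF : Continuous F) (h0 : ∀ x, 0 ≤ F x) (N : ℕ) {α β : ℕ → ℝ}
    (h : ∀ j < N, j ≤ α j ∧ α j ≤ β j ∧ β j ≤ j + 1) :
    ∑ j ∈ Finset.range N, ∫ x in α j..β j, F x ≤ ∫ x in (0 : ℝ)..N, F x := by
  have h1 := intervalIntegral.sum_integral_adjacent_intervals (a := fun k : ℕ => (k : ℝ)) (n := N)
    (μ := volume) (f := F) (fun k _ => hF.intervalIntegrable _ _)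
  simp only [Nat.cast_zero] at h1
  rw [← h1]
  refine Finset.sum_le_sum (fun j hj => ?_)
  obtain ⟨h2, h3, h4⟩ := h j (Finset.mem_range.1 hj)
  exact intervalIntegral.integral_mono_interval h2 h3 (by push_cast; exact h4)
    (Filter.Eventually.of_forall h0) (hF.intervalIntegrable _ _)

theorem int_le_sum {F : ℝ → ℝ} (hF : Continuous F) (h0 : ∀ x, 0 ≤ F x) (N P : ℕ) {d : ℝ}
    (hd : 1 ≤ P * d) {α : ℕ → ℝ} (h : ∀ j < N, j ≤ α j ∧ α j ≤ j + 1) :
    ∫ x in (0 : ℝ)..N, F x ≤ ∑ i ∈ Finset.range (2 * P), ∑ j ∈ Finset.range N,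
      ∫ x in α j..α j + d, F (x + (i - P) * d) := by
  have h1 := intervalIntegral.sum_integral_adjacent_intervals (a := fun k : ℕ => (k : ℝ)) (n := N)
    (μ := volume) (f := F) (fun k _ => hF.intervalIntegrable _ _)
  simp only [Nat.cast_zero] at h1
  rw [← h1, Finset.sum_comm]
  refine Finset.sum_le_sum (fun j hj => ?_)
  obtain ⟨h2, h3⟩ := h j (Finset.mem_range.1 hj)
  have h4 := intervalIntegral.sum_integral_adjacent_intervals
    (a := fun i : ℕ => α j + ((i : ℝ) - P) * d) (n := 2 * P)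
    (μ := volume) (f := F) (fun k _ => hF.intervalIntegrable _ _)
  have h5 : ∀ i : ℕ, ∫ x in α j..α j + d, F (x + (i - P) * d) =
      ∫ x in α j + ((i : ℝ) - P) * d..α j + (((i + 1 : ℕ) : ℝ) - P) * d, F x := by
    intro i
    rw [intervalIntegral.integral_comp_add_right]
    congr 1
    push_cast
    ring
  simp only [h5]
  rw [h4]
  refine intervalIntegral.integral_mono_interval ?_ ?_ ?_
    (Filter.Eventually.of_forall h0) (hF.intervalIntegrable _ _) <;> push_cast <;> linarith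

theorem conv_eq (b : ℝ) (K : Finset ℤ) (A : ℤ → ℂ) (N : ℝ) (T : Finset ℤ) (a : ℤ → ℂ) (l : ℤ)
    (x : ℝ) : ‖∫ y in (-b)..b, Complex.exp (Complex.I * (l * y)) * ((exp y : ℂ) *
      ∑ k ∈ K, A k * Complex.exp (Complex.I * (π * k * y / b))) * trig N T a (x - y)‖ =
      ‖es T (fun n => 2 * π * n / N - l) (fun n => a n * mult b K A (2 * π * n / N - l)) x‖ := by
  have h1 : ∫ y in (-b)..b, Complex.exp (Complex.I * (l * y)) * ((exp y : ℂ) *
      ∑ k ∈ K, A k * Complex.exp (Complex.I * (π * k * y / b))) * trig N T a (x - y) =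
      Complex.exp (((l * x : ℝ) : ℂ) * Complex.I) *
      es T (fun n => 2 * π * n / N - l) (fun n => a n * mult b K A (2 * π * n / N - l)) x := by
    unfold es trig mult
    simp only [Finset.mul_sum T]
    rw [intervalIntegral.integral_finsetSum (fun n _ => Continuous.intervalIntegrable
      (by fun_prop) _ _)]
    refine Finset.sum_congr rfl (fun n _ => ?_)
    rw [← intervalIntegral.integral_const_mul, ← intervalIntegral.integral_mul_const,
      ← intervalIntegral.integral_const_mul]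
    refine intervalIntegral.integral_congr (fun y _ => ?_)
    have h2 : Complex.exp (Complex.I * (l * y)) *
        Complex.exp (Complex.I * (2 * π * n / N * ((x - y : ℝ) : ℂ))) =
        Complex.exp (((l * x : ℝ) : ℂ) * Complex.I) *
        Complex.exp (-(Complex.I * (((2 * π * n / N - l : ℝ) : ℂ) * y))) *
        Complex.exp (Complex.I * (((2 * π * n / N - l : ℝ) : ℂ) * x)) := by
      rw [← Complex.exp_add, ← Complex.exp_add, ← Complex.exp_add]
      congr 1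
      push_cast
      ring
    linear_combination (a n * (exp y : ℂ) *
      ∑ k ∈ K, A k * Complex.exp (Complex.I * (π * k * y / b))) * h2
  rw [h1, norm_mul, Complex.norm_exp_ofReal_mul_I, one_mul]

theorem sum_const : ∃ C₀ > 0, ∀ (y : ℝ) (L : Finset ℤ), ∑ l ∈ L, 1 / (1 + (y - l) ^ 2) ≤ C₀ := by
  have hs : Summable fun k : ℤ => 1 / (1 + (k : ℝ) ^ 2) := by
    have h1 : Summable fun k : ℤ => 1 / (k : ℝ) ^ 2 + if k = 0 then 1 else 0 :=
      (summable_one_div_int_pow.2 one_lt_two).add (hasSum_ite_eq (0 : ℤ) (1 : ℝ)).summable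
    refine Summable.of_nonneg_of_le (fun k => by positivity) (fun k => ?_) h1
    split_ifs with hk
    · simp [hk]
    · have : (0 : ℝ) < (k : ℝ) ^ 2 := by positivity
      rw [add_zero]
      exact one_div_le_one_div_of_le this (by linarith)
  have h0 : 0 ≤ ∑' k : ℤ, 1 / (1 + (k : ℝ) ^ 2) := tsum_nonneg (fun k => by positivity)
  refine ⟨3 * ∑' k : ℤ, 1 / (1 + (k : ℝ) ^ 2) + 1, by linarith, fun y L => ?_⟩
  have h1 := hs.sum_le_tsum (L.image (fun l => l - ⌊y⌋)) (fun k _ => by positivity)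
  rw [Finset.sum_image (fun l _ l' _ h => by simpa using h)] at h1
  have h2 : ∑ l ∈ L, 1 / (1 + (y - l) ^ 2) ≤ ∑ l ∈ L, 3 * (1 / (1 + ((l - ⌊y⌋ : ℤ) : ℝ) ^ 2)) := by
    refine Finset.sum_le_sum (fun l _ => ?_)
    rw [mul_one_div, div_le_div_iff₀ (by positivity) (by positivity)]
    have h3 := Int.floor_le y
    have h4 := Int.lt_floor_add_one y
    push_cast
    nlinarith [sq_nonneg (y - l + (y - ⌊y⌋)), mul_nonneg (sub_nonneg.2 h3) (sub_nonneg.2 h4.le)]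
  rw [← Finset.mul_sum] at h2
  linarith

theorem choose_K {a c₀ ρ : ℝ} (ha : a ∈ Ioo (0 : ℝ) 1) (hc : 0 < c₀) (hρ : 0 < ρ) (D : ℝ) :
    ∃ K : ℝ, 2 ≤ K ∧ ∃ r > 0, ∃ n : ℕ, r ≤ ρ ∧ r * log (2 + K) ^ a ≤ c₀ ∧ 32 ≤ n * r ∧
      D * 2 ^ n ≤ √K := by
  have h1 := (tendsto_rpow_neg_atTop (sub_pos.2 ha.2)).eventually
    (ge_mem_nhds (show 0 < c₀ / 256 by positivity))
  obtain ⟨t, h2, h3, h4, h5⟩ := (h1.and ((Filter.eventually_ge_atTop 2).and
    ((Filter.eventually_ge_atTop (8 * (1 + 32 / ρ))).and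
      (Filter.eventually_ge_atTop (8 * D))))).exists
  have t0 : 0 < t := by linarith
  have e1 : 4 ≤ exp t := by
    have := quadratic_le_exp_of_nonneg t0.le
    nlinarith
  have ta : 0 < t ^ a := rpow_pos_of_pos t0 _
  have h6 : t ^ a ≤ c₀ / 256 * t := by
    have : t ^ a = t ^ (-(1 - a)) * t := by
      rw [← rpow_add_one t0.ne']
      congr 1
      ring
    rw [this]
    gcongr
  have r0 : 0 < min ρ (c₀ / t ^ a) := lt_min hρ (by positivity)
  refine ⟨exp t - 2, by linarith, min ρ (c₀ / t ^ a), r0, ⌈32 / min ρ (c₀ / t ^ a)⌉₊,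
    min_le_left _ _, ?_, ?_, ?_⟩
  · rw [add_sub_cancel, log_exp, ← le_div_iff₀ ta]
    exact min_le_right _ _
  · rw [← div_le_iff₀ r0]
    exact Nat.le_ceil _
  · have h7 : (⌈32 / min ρ (c₀ / t ^ a)⌉₊ : ℝ) ≤ t / 4 := by
      have h8 := (Nat.ceil_lt_add_one (show 0 ≤ 32 / min ρ (c₀ / t ^ a) by positivity)).le
      have h9 : 32 / (c₀ / t ^ a) ≤ t / 8 := by
        rw [div_div_eq_mul_div, div_le_iff₀ hc]
        linarith
      have h10 : 0 ≤ 32 / ρ := by positivity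
      have h11 : 0 ≤ 32 / (c₀ / t ^ a) := by positivity
      rcases min_choice ρ (c₀ / t ^ a) with h | h <;> rw [h] at h8 ⊢ <;> linarith
    generalize ⌈32 / min ρ (c₀ / t ^ a)⌉₊ = n at h7
    have h8 : (2 : ℝ) ^ n ≤ exp (t / 4) := by
      have h9 := pow_le_pow_left₀ (by norm_num : (0 : ℝ) ≤ 2)
        (show 2 ≤ exp 1 by linarith [add_one_le_exp 1]) n
      rw [← exp_nat_mul, mul_one] at h9
      exact h9.trans (exp_le_exp.2 h7)
    have h9 : D ≤ exp (t / 4) / 2 := by linarith [add_one_le_exp (t / 4)]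
    have h10 : exp (t / 4) ^ 4 = exp t := by
      rw [← exp_nat_mul]
      congr 1
      push_cast
      ring
    refine le_trans (mul_le_mul h9 h8 (by positivity) (by positivity)) (le_sqrt_of_sq_le ?_)
    nlinarith

theorem pack {ν b : ℝ} (hν : 0 < ν) (hb : b ∈ Ioc (0 : ℝ) 1) (L₀ : ℝ) : ∃ a ∈ Ioo (0 : ℝ) 1,
    ∃ c₀ > 0, ∃ C > 0, ∀ Y : Set ℝ, Bornology.IsBounded Y → (∀ β, Porous Y ν L₀ β) →
    ∃ (K : Finset ℤ) (A : ℤ → ℂ), (∀ k, ‖A k‖ ≤ C / (1 + k ^ 2)) ∧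
      (∀ x ∈ Y, ‖mult b K A x‖ ≤ C * exp (-(c₀ * |x| / log (2 + |x|) ^ a)) / (1 + x ^ 2)) ∧
      ∀ x, |x| ≤ 1 → 1 ≤ C * ‖mult b K A x‖ := by
  obtain ⟨a, ha, c₀, hc, C₂, h1⟩ := weight_exists hν hb.1 L₀
  obtain ⟨C₁, hC, h2⟩ := mult_exists hb
  have e1 : 1 ≤ exp |C₂| := one_le_exp (abs_nonneg _)
  refine ⟨a, ha, c₀, hc, C₁ * exp |C₂|, by positivity, fun Y hY hP => ?_⟩
  obtain ⟨ι, _, w, c, r, a1, a2, a3, a4, a5, a6⟩ := h1 Y hY hP
  obtain ⟨K, A, b1, b2, b3⟩ := h2 ι w c r a1 a2 a3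
  refine ⟨K, A, fun k => (b1 k).trans ?_, fun x hx => (b2 x).trans ?_, fun x hx => ?_⟩
  · gcongr
    linarith [a4 (π * k / b), abs_nonneg C₂]
  · rw [mul_assoc, ← exp_add]
    gcongr
    linarith [a6 x hx, le_abs_self C₂]
  · have h3 : 1 ≤ exp |C₂| * exp (pot w c r 0 - pot w c r x) := by
      rw [← exp_add]
      exact one_le_exp (by linarith [a5 x hx, le_abs_self C₂])
    calc 1 ≤ _ := h3
      _ ≤ exp |C₂| * (C₁ * ‖mult b K A x‖) := by gcongr; exact b3 x hx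
      _ = _ := by ring

end F4

end Pool.Agent.Lib.MP_e1e19a_an
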