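import Pool.Agent.Lib.MP_e1e19a_an.N.F4

/-!
Iteration over a fixed number of scales.
-/

namespace Pool.Agent.Lib.MP_e1e19a_an

open Real MeasureTheory Set
open scoped MatrixGroups ComplexConjugate UpperHalfPlane

namespace F5a

/-- a character of period `N` -/
noncomputable def ex (N : ℝ) (n : ℤ) (x : ℝ) : ℂ := Complex.exp (Complex.I * (2 * π * n / N * x))

/-- trigonometric polynomials with frequencies in `S` -/
noncomputable def V (N : ℝ) (S : Set ℤ) : Submodule ℂ (ℝ → ℂ) := Submodule.span ℂ (ex N '' S)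

theorem ex_add (N : ℝ) (n m : ℤ) : ex N n * ex N m = ex N (n + m) := by
  funext x
  simp only [ex, Pi.mul_apply, ← Complex.exp_add]
  congr 1
  push_cast
  ring

theorem ex_sub (N : ℝ) (n : ℤ) (x y : ℝ) : ex N n (x - y) = ex N n (-y) * ex N n x := by
  simp only [ex, ← Complex.exp_add]
  congr 1
  push_cast
  ring

theorem ex_cont (N : ℝ) (n : ℤ) : Continuous (ex N n) := by
  unfold ex
  fun_prop

theorem ex_conj (N : ℝ) (n : ℤ) (x : ℝ) : conj (ex N n x) = ex N (-n) x := by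
  simp only [ex, ← Complex.exp_conj, map_mul, map_div₀, Complex.conj_I, Complex.conj_ofReal,
    map_intCast, map_ofNat]
  congr 1
  push_cast
  ring

theorem trig_eq (N : ℝ) (T : Finset ℤ) (a : ℤ → ℂ) : trig N T a = ∑ n ∈ T, a n • ex N n := by
  funext x
  simp [trig, ex, Finset.sum_apply]

theorem trig_mem (N : ℝ) (T : Finset ℤ) (a : ℤ → ℂ) {S : Set ℤ} (h : ∀ n ∈ T, n ∈ S) :
    trig N T a ∈ V N S := by
  rw [trig_eq]
  exact Submodule.sum_mem _ fun n hn =>
    Submodule.smul_mem _ _ (Submodule.subset_span ⟨n, h n hn, rfl⟩)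

theorem exists_trig {N : ℝ} {S : Set ℤ} {f : ℝ → ℂ} (h : f ∈ V N S) :
    ∃ (T : Finset ℤ) (a : ℤ → ℂ), (∀ n ∈ T, n ∈ S) ∧ f = trig N T a := by
  obtain ⟨l, hl, rfl⟩ := (Finsupp.mem_span_image_iff_linearCombination ℂ).1 h
  refine ⟨l.support, l, fun n hn => (Finsupp.mem_supported ℂ l).1 hl hn, ?_⟩
  rw [trig_eq, Finsupp.linearCombination_apply, Finsupp.sum]

theorem cont {N : ℝ} {S : Set ℤ} {f : ℝ → ℂ} (h : f ∈ V N S) : Continuous f := by
  obtain ⟨T, a, -, rfl⟩ := exists_trig h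
  unfold trig
  fun_prop

theorem mul_mem {N : ℝ} {S S' S'' : Set ℤ} {f g : ℝ → ℂ} (hf : f ∈ V N S) (hg : g ∈ V N S')
    (h : ∀ n ∈ S, ∀ m ∈ S', n + m ∈ S'') : f * g ∈ V N S'' := by
  obtain ⟨T, a, hT, rfl⟩ := exists_trig hf
  obtain ⟨T', a', hT', rfl⟩ := exists_trig hg
  rw [trig_eq, trig_eq, Finset.sum_mul_sum]
  refine Submodule.sum_mem _ fun n hn => Submodule.sum_mem _ fun m hm => ?_
  rw [smul_mul_smul_comm, ex_add]
  exact Submodule.smul_mem _ _ (Submodule.subset_span ⟨_, h n (hT n hn) m (hT' m hm), rfl⟩)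

theorem conv_mem {N : ℝ} {S : Set ℤ} {f : ℝ → ℂ} (hf : f ∈ V N S) {H : Set ℝ}
    (hH : H ⊆ Icc 0 N) : (fun x => ∫ y in H, f (x - y)) ∈ V N S := by
  obtain ⟨T, a, hT, rfl⟩ := exists_trig hf
  have : (fun x => ∫ y in H, trig N T a (x - y)) =
      trig N T fun n => a n * ∫ y in H, ex N n (-y) := by
    funext x
    have e : ∀ y, trig N T a (x - y) = ∑ n ∈ T, a n * ex N n x * ex N n (-y) := fun y => by
      rw [trig_eq, Finset.sum_apply]
      refine Finset.sum_congr rfl fun n _ => ?_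
      rw [Pi.smul_apply, ex_sub, smul_eq_mul]
      ring
    simp_rw [e]
    rw [integral_finsetSum, trig_eq, Finset.sum_apply]
    · refine Finset.sum_congr rfl fun n _ => ?_
      rw [integral_const_mul, Pi.smul_apply, smul_eq_mul]
      ring
    · intro n _
      have : Continuous fun y : ℝ => a n * ex N n x * ex N n (-y) :=
        continuous_const.mul ((ex_cont N n).comp continuous_neg)
      exact this.integrableOn_Icc.mono_set hH
  rw [this]
  exact trig_mem _ _ _ hT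

/-- the Dirichlet sum -/
noncomputable def Dk (N : ℝ) (n : ℕ) : ℝ → ℂ := trig N (Finset.Ico 0 n) fun _ => 1

/-- the Fejer kernel -/
noncomputable def Fk (N : ℝ) (n : ℕ) (x : ℝ) : ℝ := ‖Dk N n x‖ ^ 2 / (n * N)

theorem Fk_nonneg {N : ℝ} (hN : 0 < N) (n : ℕ) (x : ℝ) : 0 ≤ Fk N n x := by
  unfold Fk
  positivity

theorem Fk_cont (N : ℝ) (n : ℕ) : Continuous (Fk N n) := by
  have : Continuous (Dk N n) := cont (trig_mem N _ _ (S := univ) fun _ _ => trivial)
  unfold Fk
  fun_prop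

theorem Fk_mem (N : ℝ) (n : ℕ) : (fun x => (Fk N n x : ℂ)) ∈ V N (Icc (-n : ℤ) n) := by
  have h1 : Dk N n ∈ V N (Icc (0 : ℤ) n) := trig_mem _ _ _ fun k hk => by
    rw [Finset.mem_Ico] at hk
    exact ⟨hk.1, hk.2.le⟩
  have h2 : (fun x => conj (Dk N n x)) ∈ V N (Icc (-n : ℤ) 0) := by
    have : (fun x => conj (Dk N n x)) = ∑ k ∈ Finset.Ico (0 : ℤ) n, ex N (-k) := by
      funext x
      rw [Dk, trig_eq, Finset.sum_apply, Finset.sum_apply, map_sum]
      exact Finset.sum_congr rfl fun k _ => by rw [one_smul, ex_conj]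
    rw [this]
    refine Submodule.sum_mem _ fun k hk => Submodule.subset_span ⟨-k, ?_, rfl⟩
    rw [Finset.mem_Ico] at hk
    exact ⟨by omega, by omega⟩
  have h3 := Submodule.smul_mem _ (((n : ℂ) * N)⁻¹) (mul_mem h1 h2 (S'' := Icc (-n : ℤ) n)
    fun a ha b hb => ⟨by linarith [ha.1, hb.1], by linarith [ha.2, hb.2]⟩)
  convert h3 using 1
  funext x
  simp only [Fk, Pi.smul_apply, Pi.mul_apply, smul_eq_mul, Complex.mul_conj']
  push_cast
  ring

theorem Fk_int {N : ℝ} (hN : 0 < N) {n : ℕ} (hn : 0 < n) (x : ℝ) :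
    ∫ y in x..x + N, Fk N n y = 1 := by
  unfold Fk Dk
  rw [intervalIntegral.integral_div, trig_parseval hN]
  have : (0 : ℝ) < n := by exact_mod_cast hn
  simp only [norm_one, one_pow, Finset.sum_const, Int.card_Ico, sub_zero, Int.toNat_natCast,
    nsmul_eq_mul, mul_one]
  field_simp

theorem Fk_le {N : ℝ} (hN : 0 < N) {n : ℕ} (hn : 0 < n) {x : ℝ} (h0 : x ≠ 0) (hx : |x| ≤ N / 2) :
    Fk N n x ≤ N / (4 * n) * (x ^ 2)⁻¹ := by
  have hn' : (0 : ℝ) < n := by exact_mod_cast hn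
  have hg : Dk N n x * (ex N 1 x - 1) = ex N n x - 1 := by
    have e : ∀ k : ℕ, ex N k x = ex N 1 x ^ k := fun k => by
      simp only [ex, ← Complex.exp_nat_mul]
      congr 1
      push_cast
      ring
    have : Dk N n x = ∑ k ∈ Finset.range n, ex N 1 x ^ k := by
      rw [Dk, trig_eq, Finset.sum_apply]
      have : Finset.Ico (0 : ℤ) n = (Finset.range n).image (Nat.cast : ℕ → ℤ) := by
        ext k
        simp only [Finset.mem_Ico, Finset.mem_image, Finset.mem_range]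
        exact ⟨fun h => ⟨k.toNat, by omega, by omega⟩, by rintro ⟨j, hj, rfl⟩; omega⟩
      rw [this, Finset.sum_image fun _ _ _ _ h => Nat.cast_injective h]
      exact Finset.sum_congr rfl fun k _ => by rw [one_smul, e]
    rw [this, geom_sum_mul, e]
  have h1 : ‖ex N n x - 1‖ ≤ 2 := by
    refine (norm_sub_le _ _).trans ?_
    have : ‖ex N n x‖ = 1 := by
      have : ex N n x = Complex.exp (Complex.I * ((2 * π * n / N * x : ℝ) : ℂ)) := by
        unfold ex
        push_cast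
        rfl
      rw [this, Complex.norm_exp_I_mul_ofReal]
    rw [this, norm_one]
    norm_num
  have h2 : 4 * |x| / N ≤ ‖ex N 1 x - 1‖ := by
    have : ex N 1 x = Complex.exp (Complex.I * ((2 * π / N * x : ℝ) : ℂ)) := by
      unfold ex
      push_cast
      congr 2
      ring
    rw [this, Complex.norm_exp_I_mul_ofReal_sub_one, Real.norm_eq_abs, abs_mul, abs_two]
    have h3 : |2 * π / N * x / 2| ≤ π / 2 := by
      rw [show 2 * π / N * x / 2 = π / N * x by ring, abs_mul, abs_of_pos (by positivity),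
        div_mul_eq_mul_div, div_le_iff₀ hN]
      nlinarith [pi_pos]
    have h4 := Real.mul_abs_le_abs_sin h3
    have h5 : 2 / π * |2 * π / N * x / 2| = 2 * |x| / N := by
      rw [show 2 * π / N * x / 2 = π / N * x by ring, abs_mul, abs_of_pos (by positivity)]
      field_simp
    rw [h5] at h4
    calc 4 * |x| / N = 2 * (2 * |x| / N) := by ring
      _ ≤ _ := by linarith
  have hx0 : 0 < |x| := abs_pos.2 h0
  have h6 : ‖Dk N n x‖ * (4 * |x| / N) ≤ 2 :=
    calc _ ≤ ‖Dk N n x‖ * ‖ex N 1 x - 1‖ := by gcongr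
      _ ≤ 2 := by rw [← norm_mul, hg]; exact h1
  have h7 : ‖Dk N n x‖ ≤ N / (2 * |x|) := by
    rw [le_div_iff₀ (by positivity)]
    rw [← mul_div_assoc, div_le_iff₀ hN] at h6
    linarith
  calc Fk N n x ≤ (N / (2 * |x|)) ^ 2 / (n * N) := by unfold Fk; gcongr
    _ = _ := by rw [div_pow, mul_pow, sq_abs]; field_simp; norm_num

theorem Fk_mass {N δ : ℝ} (hN : 0 < N) {n : ℕ} (hn : 0 < n) (hδ : 0 < δ) (hδN : δ ≤ N / 2) :
    1 - N / (2 * n * δ) ≤ ∫ y in (-δ)..δ, Fk N n y := by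
  have hn' : (0 : ℝ) < n := by exact_mod_cast hn
  have hi : ∀ a b, IntervalIntegrable (Fk N n) volume a b :=
    fun a b => (Fk_cont N n).intervalIntegrable a b
  have h1 := Fk_int hN hn (-(N / 2))
  rw [show -(N / 2) + N = N / 2 by ring,
    ← intervalIntegral.integral_add_adjacent_intervals (hi _ (-δ)) (hi _ _),
    ← intervalIntegral.integral_add_adjacent_intervals (hi (-δ) δ) (hi _ _)] at h1
  have key : ∀ a b : ℝ, a ≤ b → (∀ x ∈ Icc a b, x ≠ 0 ∧ |x| ≤ N / 2) →
      ∫ y in a..b, Fk N n y ≤ N / (4 * n) * (a⁻¹ - b⁻¹) := by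
    intro a b hab h
    have hc : ContinuousOn (fun x : ℝ => N / (4 * n) * (x ^ 2)⁻¹) (uIcc a b) := by
      rw [uIcc_of_le hab]
      exact continuousOn_const.mul ((continuousOn_id.pow 2).inv₀ fun x hx =>
        pow_ne_zero 2 (h x hx).1)
    have h2 : ∫ y in a..b, N / (4 * n) * (y ^ 2)⁻¹ =
        N / (4 * n) * (-b⁻¹) - N / (4 * n) * (-a⁻¹) := by
      refine intervalIntegral.integral_eq_sub_of_hasDerivAt
        (f := fun y : ℝ => N / (4 * n) * (-y⁻¹)) (fun x hx => ?_) hc.intervalIntegrable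
      rw [uIcc_of_le hab] at hx
      have := ((hasDerivAt_inv (h x hx).1).neg).const_mul (N / (4 * n))
      rwa [neg_neg] at this
    calc _ ≤ ∫ y in a..b, N / (4 * n) * (y ^ 2)⁻¹ :=
          intervalIntegral.integral_mono_on hab (hi _ _) hc.intervalIntegrable
            fun x hx => Fk_le hN hn (h x hx).1 (h x hx).2
      _ = _ := by rw [h2]; ring
  have k1 := key (-(N / 2)) (-δ) (by linarith) fun x hx =>
    ⟨by linarith [hx.2] |> (fun h : x < 0 => h.ne), abs_le.2 ⟨hx.1, by linarith [hx.2]⟩⟩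
  have k2 := key δ (N / 2) hδN fun x hx =>
    ⟨by linarith [hx.1] |> (fun h : 0 < x => h.ne'), abs_le.2 ⟨by linarith [hx.1], hx.2⟩⟩
  have e : N / (2 * n * δ) = 2 * (N / (4 * n) * δ⁻¹) := by field_simp; norm_num
  have p1 : 0 ≤ N / (4 * n) * (N / 2)⁻¹ := by positivity
  rw [inv_neg, inv_neg] at k1
  rw [e]
  nlinarith

/-- the multiplier attached to a set `H` -/
theorem exists_mult {N δ : ℝ} (hN : 0 < N) {n : ℕ} (hn : 0 < n) (hδ : 0 < δ) (hδN : δ ≤ N / 2)
    {H : Set ℝ} (hH : H ⊆ Icc 0 N) :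
    ∃ Ψ : ℝ → ℝ, (fun x => (Ψ x : ℂ)) ∈ V N (Icc (-n : ℤ) n) ∧ (∀ x, 0 ≤ Ψ x ∧ Ψ x ≤ 1) ∧
      (∀ x, Icc (x - δ) (x + δ) ⊆ H → Ψ x ≤ N / (2 * n * δ)) ∧
      ∀ x, Icc (x - δ) (x + δ) ⊆ Icc 0 N → Disjoint H (Icc (x - δ) (x + δ)) →
        1 - N / (2 * n * δ) ≤ Ψ x := by
  have hi : ∀ x, IntegrableOn (fun y => Fk N n (x - y)) (Icc 0 N) := fun x =>
    ((Fk_cont N n).comp (continuous_const.sub continuous_id)).integrableOn_Icc
  have mono : ∀ x, ∀ A B : Set ℝ, A ⊆ B → B ⊆ Icc 0 N →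
      ∫ y in A, Fk N n (x - y) ≤ ∫ y in B, Fk N n (x - y) := fun x A B h1 h2 =>
    setIntegral_mono_set ((hi x).mono_set h2)
      (Filter.Eventually.of_forall fun y => Fk_nonneg hN n _) h1.eventuallyLE
  have tot : ∀ x, ∫ y in Icc 0 N, Fk N n (x - y) = 1 := fun x => by
    rw [integral_Icc_eq_integral_Ioc, ← intervalIntegral.integral_of_le hN.le,
      intervalIntegral.integral_comp_sub_left, ← Fk_int hN hn (x - N)]
    congr 1
    ring
  have loc : ∀ x, 1 - N / (2 * n * δ) ≤ ∫ y in Icc (x - δ) (x + δ), Fk N n (x - y) := fun x => by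
    rw [integral_Icc_eq_integral_Ioc, ← intervalIntegral.integral_of_le (by linarith),
      intervalIntegral.integral_comp_sub_left, show x - (x + δ) = -δ by ring,
      show x - (x - δ) = δ by ring]
    exact Fk_mass hN hn hδ hδN
  refine ⟨fun x => 1 - ∫ y in H, Fk N n (x - y), ?_, fun x => ⟨?_, ?_⟩, fun x hx => ?_,
    fun x h1 h2 => ?_⟩
  · have h0 : ex N 0 ∈ V N (Icc (-n : ℤ) n) :=
      Submodule.subset_span ⟨0, ⟨by omega, by omega⟩, rfl⟩
    convert Submodule.sub_mem _ h0 (conv_mem (Fk_mem N n) hH) using 1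
    funext x
    simp only [Pi.sub_apply, ex, integral_complex_ofReal]
    simp
  · linarith [mono x H _ hH subset_rfl, tot x]
  · have : 0 ≤ ∫ y in H, Fk N n (x - y) := integral_nonneg fun y => Fk_nonneg hN n _
    linarith
  · linarith [mono x _ _ hx hH, loc x]
  · have := mono x _ _ (union_subset hH h1) subset_rfl
    rw [setIntegral_union h2 measurableSet_Icc ((hi x).mono_set hH) ((hi x).mono_set h1)] at this
    linarith [tot x, loc x]

/-- one scale `1 / P` -/
theorem step {ν c θ : ℝ} (hν : 0 < ν) (hν1 : ν ≤ 1) (hθ : θ ≤ 1 / 2) {N P n : ℕ}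
    (hN : 1 ≤ N) (hP : 1 ≤ P) (hn : 0 < n) (hθn : N / (2 * n * (ν / P / 8)) ≤ θ) {X : Set ℝ}
    (hX : X ⊆ Icc (1 : ℝ) (N - 1))
    (hpor : ∀ x : ℝ, ∃ y, x ≤ y ∧ y + ν * (1 / P) ≤ x + 1 / P ∧
      ∀ t ∈ X, t ∉ Icc y (y + ν * (1 / P)))
    {f : ℝ → ℂ} (hf : Continuous f)
    (hu : ∀ s : ℕ → ℝ, (∀ j < N * P, j ≤ s j ∧ s j + ν / 4 ≤ j + 1) →
      c * (P * ∫ x in (0 : ℝ)..N, ‖f x‖ ^ 2) ≤
        ∑ j ∈ Finset.range (N * P), ∫ x in s j..s j + ν / 4, ‖f (1 / P * x)‖ ^ 2) :
    ∃ Ψ : ℝ → ℝ, (fun x => (Ψ x : ℂ)) ∈ V N (Icc (-n : ℤ) n) ∧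
      ∫ x in (0 : ℝ)..N, ‖Ψ x * f x‖ ^ 2 ≤ (1 - c / 2) * ∫ x in (0 : ℝ)..N, ‖f x‖ ^ 2 ∧
      ∀ x, (∃ t ∈ X, |x - t| < ν / P / 8) → 1 - θ ≤ Ψ x := by
  have hN' : (1 : ℝ) ≤ N := by exact_mod_cast hN
  have hP' : (1 : ℝ) ≤ P := by exact_mod_cast hP
  have hP0 : (0 : ℝ) < P := by linarith
  set l : ℝ := 1 / P with hl
  have hl0 : 0 < l := by positivity
  have hl1 : l ≤ 1 := by rw [hl, div_le_one hP0]; exact hP'
  have hPl : P * l = 1 := by rw [hl]; field_simp
  set δ : ℝ := ν / P / 8 with hδ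
  have hδl : ν * l = 8 * δ := by rw [hδ, hl]; ring
  have hδ0 : 0 < δ := by positivity
  have hδ1 : 8 * δ ≤ l := by rw [← hδl]; nlinarith
  choose y hy1 hy2 hy3 using fun i : ℕ => hpor (i * l)
  simp only [hδl] at hy2 hy3
  let H : Set ℝ := ⋃ i ∈ Finset.range (N * P), Icc (y i + 2 * δ) (y i + 6 * δ)
  have hH : H ⊆ Icc 0 N := by
    intro x hx
    simp only [H, mem_iUnion, Finset.mem_range] at hx
    obtain ⟨i, hi, h1, h2⟩ := hx
    have h3 : (i : ℝ) + 1 ≤ N * P := by exact_mod_cast hi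
    have h4 : 0 ≤ (i : ℝ) * l := by positivity
    have h5 : ((i : ℝ) + 1) * l ≤ N * P * l := by gcongr
    rw [mul_assoc, hPl] at h5
    constructor <;> nlinarith [hy1 i, hy2 i]
  obtain ⟨Ψ, m1, m2, m3, m4⟩ := exists_mult (N := N) (δ := δ) (by linarith) hn hδ0 (by linarith)
    (H := H) hH
  have hΨ : Continuous Ψ := Complex.continuous_re.comp (cont m1)
  refine ⟨Ψ, m1, ?_, ?_⟩
  · set g : ℝ → ℝ := fun x => ‖f x‖ ^ 2 - ‖Ψ x * f x‖ ^ 2 with hg
    have ge : ∀ x, g x = (1 - Ψ x ^ 2) * ‖f x‖ ^ 2 := fun x => by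
      simp only [hg, norm_mul, Complex.norm_real, Real.norm_eq_abs, mul_pow, sq_abs]
      ring
    have gc : Continuous g := by rw [funext ge]; fun_prop
    have g0 : ∀ x, 0 ≤ g x := fun x => by
      rw [ge]
      exact mul_nonneg (by nlinarith [m2 x]) (by positivity)
    have fc : Continuous fun x => ‖f x‖ ^ 2 := by fun_prop
    have h1 := hu (fun j => P * (y j + 3 * δ)) fun j _ => by
      have e : (j : ℝ) = P * (j * l) := by rw [mul_comm (j : ℝ), ← mul_assoc, hPl, one_mul]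
      have e2 : ν = P * (8 * δ) := by rw [← hδl, mul_left_comm, hPl, mul_one]
      constructor
      · nlinarith [hy1 j]
      · nlinarith [hy2 j]
    have h2 : ∀ j ∈ Finset.range (N * P),
        ∫ x in P * (y j + 3 * δ)..P * (y j + 3 * δ) + ν / 4, ‖f (l * x)‖ ^ 2 ≤
          P * (2 * ∫ x in (j : ℝ) * l..((j + 1 : ℕ) : ℝ) * l, g x) := by
      intro j hj
      rw [intervalIntegral.integral_comp_mul_left (fun x => ‖f x‖ ^ 2) hl0.ne', smul_eq_mul,
        show l⁻¹ = P by rw [hl, one_div, inv_inv],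
        show l * (P * (y j + 3 * δ)) = y j + 3 * δ by rw [← mul_assoc, mul_comm l, hPl, one_mul],
        show l * (P * (y j + 3 * δ) + ν / 4) = y j + 5 * δ by
          rw [mul_add, ← mul_assoc, mul_comm l, hPl]; linarith]
      gcongr
      calc ∫ x in y j + 3 * δ..y j + 5 * δ, ‖f x‖ ^ 2
          ≤ ∫ x in y j + 3 * δ..y j + 5 * δ, 2 * g x := by
            refine intervalIntegral.integral_mono_on (by linarith) (fc.intervalIntegrable _ _)
              ((continuous_const.mul gc).intervalIntegrable _ _) fun x hx => ?_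
            have h3 := m3 x fun t ht => mem_iUnion₂.2
              ⟨j, hj, by linarith [ht.1, hx.1], by linarith [ht.2, hx.2]⟩
            have h4 : Ψ x ^ 2 ≤ 1 / 4 := by nlinarith [m2 x]
            rw [ge]
            nlinarith [sq_nonneg ‖f x‖]
        _ = 2 * ∫ x in y j + 3 * δ..y j + 5 * δ, g x := intervalIntegral.integral_const_mul _ _
        _ ≤ _ := by
            gcongr
            push_cast
            exact intervalIntegral.integral_mono_interval (by linarith [hy1 j]) (by linarith)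
              (by nlinarith [hy2 j]) (Filter.Eventually.of_forall g0) (gc.intervalIntegrable _ _)
    have h3 := h1.trans (Finset.sum_le_sum h2)
    rw [← Finset.mul_sum, ← Finset.mul_sum, intervalIntegral.sum_integral_adjacent_intervals
      (a := fun j : ℕ => (j : ℝ) * l) fun k _ => gc.intervalIntegrable _ _] at h3
    simp only [Nat.cast_zero, zero_mul, Nat.cast_mul, mul_assoc, hPl, mul_one] at h3
    have h4 : ∫ x in (0 : ℝ)..N, g x =
        (∫ x in (0 : ℝ)..N, ‖f x‖ ^ 2) - ∫ x in (0 : ℝ)..N, ‖Ψ x * f x‖ ^ 2 :=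
      intervalIntegral.integral_sub (fc.intervalIntegrable _ _)
        (Continuous.intervalIntegrable (by fun_prop) _ _)
    rw [h4, mul_left_comm] at h3
    have h5 := le_of_mul_le_mul_left h3 hP0
    linarith
  · rintro x ⟨t, ht, hx⟩
    rw [abs_lt] at hx
    have h1 := hX ht
    refine le_trans (by linarith) (m4 x (fun z hz => ⟨by linarith [hz.1, h1.1], by
      linarith [hz.2, h1.2]⟩) (Set.disjoint_left.2 fun z hz hz' => ?_))
    simp only [H, mem_iUnion] at hz
    obtain ⟨i, -, h2, h3⟩ := hz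
    exact hy3 i t ht ⟨by linarith [hz'.2], by linarith [hz'.1]⟩

end F5a

open F5a in
theorem fup_periodic {ν ε : ℝ} (hν : 0 < ν) (hε : 0 < ε) (L₀ : ℝ) : ∃ ε₀ ∈ Ioc (0 : ℝ) 1,
    ∀ N : ℕ, 1 ≤ N → ∀ X ⊆ Icc (1 : ℝ) (N - 1), Porous X ν ε₀ 1 → ∀ (T : Finset ℤ) (a : ℤ → ℂ),
    (∀ β, Porous {x | ∃ n ∈ T, x = 2 * π * n / N} ν L₀ β) →
    ∫ x in Metric.thickening ε₀ X, ‖trig N T a x‖ ^ 2 ≤ ε * (N * ∑ n ∈ T, ‖a n‖ ^ 2) := by
  obtain ⟨ν', hν'0, hν'1, hν'⟩ : ∃ ν' : ℝ, 0 < ν' ∧ ν' ≤ 1 ∧ ν' ≤ ν :=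
    ⟨min ν 1, lt_min hν one_pos, min_le_right _ _, min_le_left _ _⟩
  obtain ⟨c0, hc0, hu⟩ := ucont (ν := ν / 2) (μ := ν' / 4) (by positivity)
    ⟨by positivity, by linarith⟩ (max (max L₀ 0) (4 * (4 * π) / ν))
  obtain ⟨c, hc, hc1, hcc⟩ : ∃ c : ℝ, 0 < c ∧ c ≤ 1 ∧ c ≤ c0 :=
    ⟨min c0 1, lt_min hc0 one_pos, min_le_right _ _, min_le_left _ _⟩
  obtain ⟨m, hm⟩ := exists_pow_lt_of_lt_one (x := ε / 4) (y := 1 - c / 2) (by positivity)
    (by linarith)
  obtain ⟨M, hM⟩ := exists_nat_ge (8 * (m + 1) / ν' + 2)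
  have hM2 : (2 : ℝ) ≤ M := le_trans (le_add_of_nonneg_left (by positivity)) hM
  have hM2' : 2 ≤ M := by exact_mod_cast hM2
  have hM0 : (0 : ℝ) < M := by linarith
  set θ : ℝ := 1 / (2 * (m + 1)) with hθ
  have hθ0 : 0 < θ := by positivity
  have hθm : (m + 1) * θ = 1 / 2 := by rw [hθ]; field_simp
  have hθ1 : θ ≤ 1 / 2 := by nlinarith [Nat.cast_nonneg (α := ℝ) m]
  have hθM : 4 / (ν' * M) ≤ θ := by
    have : 8 * (m + 1) / ν' ≤ M := by linarith
    rw [div_le_iff₀ hν'0] at this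
    rw [hθ, div_le_div_iff₀ (by positivity) (by positivity)]
    linarith
  have hMm : ∀ j : ℕ, (1 : ℝ) ≤ M ^ j := fun j => one_le_pow₀ (by linarith)
  refine ⟨ν' / M ^ m / 8, ⟨by positivity, ?_⟩, fun N hN X hX hp T a hY => ?_⟩
  · have : ν' / M ^ m ≤ 1 := by rw [div_le_one (by positivity)]; linarith [hMm m]
    linarith
  have hN' : (1 : ℝ) ≤ N := by exact_mod_cast hN
  have hN0 : (0 : ℝ) < N := by linarith
  have key : ∀ j, j ≤ m → ∃ g ∈ V N {n | ∃ t ∈ T, |n - t| ≤ 2 * N * M ^ j},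
      ∫ x in (0 : ℝ)..N, ‖g x‖ ^ 2 ≤ (1 - c / 2) ^ j * (N * ∑ n ∈ T, ‖a n‖ ^ 2) ∧
      ∀ x ∈ Metric.thickening (ν' / M ^ m / 8) X, (1 - θ) ^ j * ‖trig N T a x‖ ≤ ‖g x‖ := by
    intro j
    induction j with
    | zero =>
      intro _
      refine ⟨trig N T a, trig_mem _ _ _ fun n hn => ⟨n, hn, by simp⟩, ?_, fun x _ => by simp⟩
      have := trig_parseval hN0 T a 0
      rw [zero_add] at this
      rw [this, pow_zero, one_mul]
    | succ j ih =>
      intro hj
      obtain ⟨g, hg, e1, e2⟩ := ih (by omega)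
      obtain ⟨T', a', hT', rfl⟩ := exists_trig hg
      have hle : ν' / M ^ m / 8 ≤ ν' / M ^ j / 8 := by
        gcongr
        · linarith
        · omega
      obtain ⟨Ψ, p1, p2, p3⟩ := F5a.step (ν := ν') (c := c) (θ := θ) hν'0 hν'1 hθ1 (N := N)
        (P := M ^ j) (n := N * M ^ (j + 1)) hN (Nat.one_le_pow _ _ (by omega)) (by positivity)
        (by
          refine le_trans (le_of_eq ?_) hθM
          push_cast
          field_simp
          ring) hX
        (fun x => (hp.mono subset_rfl hν'0.le hν' le_rfl le_rfl (by positivity)) x _ (by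
            push_cast
            refine hle.trans ?_
            rw [div_div, div_le_div_iff₀ (by positivity) (by positivity)]
            nlinarith [hMm j])
          (by push_cast; rw [div_le_one (by positivity)]; exact hMm j))
        (cont hg) (fun s hs => by
          have h1 := hu (N * M ^ j) (Nat.mul_pos hN (by positivity)) T' a' (fun β => by
            have h2 := (((hY (M ^ j * β)).mono subset_rfl hν.le le_rfl (le_max_left L₀ 0) le_rfl
              (le_max_right _ _)).affine (u := 1 / M ^ j) (by positivity) 0).thicken hν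
              (d := 4 * π) (by positivity)
            refine h2.mono ?_ (by positivity) le_rfl (max_le_max ?_ le_rfl) (le_of_eq ?_)
              (le_trans (le_max_right _ _) (le_max_left _ _))
            · rintro _ ⟨n, hn, rfl⟩
              obtain ⟨t, ht, h3⟩ := hT' n hn
              refine ⟨_, ⟨_, ⟨t, ht, rfl⟩, rfl⟩, ?_⟩
              have h4 : |(n : ℝ) - t| ≤ 2 * N * M ^ j := by exact_mod_cast h3
              have : 2 * π * (n : ℝ) / ((N * M ^ j : ℕ) : ℝ) - (1 / M ^ j * (2 * π * t / N) + 0) =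
                  2 * π / (N * M ^ j) * (n - t) := by
                push_cast
                field_simp
                ring
              rw [this, abs_mul, abs_of_pos (by positivity), div_mul_eq_mul_div,
                div_le_iff₀ (by positivity)]
              nlinarith [pi_pos]
            · rw [one_div, inv_mul_le_iff₀ (by positivity)]
              nlinarith [hMm j, le_max_right L₀ 0]
            · field_simp) s hs
          have h5 := trig_parseval hN0 T' a' 0
          rw [zero_add] at h5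
          have h6 : ∀ x : ℝ, trig N T' a' (1 / ((M ^ j : ℕ) : ℝ) * x) =
              trig ((N * M ^ j : ℕ) : ℝ) T' a' x := fun x => by
            unfold trig
            refine Finset.sum_congr rfl fun n _ => ?_
            congr 3
            push_cast
            ring
          simp only [h5, h6]
          refine le_trans ?_ h1
          have : 0 ≤ ∑ n ∈ T', ‖a' n‖ ^ 2 := by positivity
          push_cast
          calc _ = c * (N * M ^ j * ∑ n ∈ T', ‖a' n‖ ^ 2) := by ring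
            _ ≤ _ := by gcongr)
      refine ⟨(fun x => (Ψ x : ℂ)) * trig N T' a', mul_mem p1 hg ?_, ?_, fun x hx => ?_⟩
      · rintro k hk n ⟨t, ht, h⟩
        refine ⟨t, ht, ?_⟩
        have h1 : (2 : ℤ) ≤ M := by exact_mod_cast hM2'
        have h2 : (0 : ℤ) ≤ N * M ^ j := by positivity
        have h3 := hk.1
        have h4 := hk.2
        push_cast at h3 h4
        rw [pow_succ] at *
        rw [abs_le] at *
        constructor <;> nlinarith [h.1, h.2]
      · refine p2.trans ?_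
        rw [pow_succ', mul_assoc]
        gcongr
        linarith
      · obtain ⟨t, ht, h⟩ := Metric.mem_thickening_iff.1 hx
        have h1 := p3 x ⟨t, ht, by push_cast; rw [← Real.dist_eq]; linarith⟩
        rw [Pi.mul_apply, norm_mul, Complex.norm_real, Real.norm_eq_abs,
          abs_of_nonneg (by linarith), pow_succ', mul_assoc]
        have : 0 ≤ (1 - θ) ^ j * ‖trig N T a x‖ :=
          mul_nonneg (pow_nonneg (by linarith) _) (norm_nonneg _)
        exact mul_le_mul h1 (e2 x hx) this (by linarith)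
  obtain ⟨g, hg, e1, e2⟩ := key m le_rfl
  have hb : 1 / 2 ≤ (1 - θ) ^ m := by
    have := one_add_mul_le_pow (a := -θ) (by linarith) m
    rw [← sub_eq_add_neg] at this
    nlinarith
  have hsub : Metric.thickening (ν' / M ^ m / 8) X ⊆ Icc 0 N := by
    intro x hx
    obtain ⟨t, ht, h⟩ := Metric.mem_thickening_iff.1 hx
    have : ν' / M ^ m ≤ 1 := by rw [div_le_one (by positivity)]; linarith [hMm m]
    rw [Real.dist_eq, abs_lt] at h
    have h1 := hX ht
    exact ⟨by linarith [h1.1], by linarith [h1.2]⟩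
  have gc := cont hg
  have fc : Continuous (trig N T a) := cont (trig_mem N T a (S := univ) fun _ _ => trivial)
  have i1 : IntegrableOn (fun x => 4 * ‖g x‖ ^ 2) (Icc 0 N) :=
    Continuous.integrableOn_Icc (by fun_prop)
  have i2 : IntegrableOn (fun x => ‖trig N T a x‖ ^ 2) (Icc 0 N) :=
    Continuous.integrableOn_Icc (by fun_prop)
  have hE : 0 ≤ N * ∑ n ∈ T, ‖a n‖ ^ 2 := by positivity
  calc _ ≤ ∫ x in Metric.thickening (ν' / M ^ m / 8) X, 4 * ‖g x‖ ^ 2 := by
        refine setIntegral_mono_on (i2.mono_set hsub) (i1.mono_set hsub)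
          Metric.isOpen_thickening.measurableSet fun x hx => ?_
        have h1 := e2 x hx
        have h2 : ‖trig N T a x‖ ≤ 2 * ‖g x‖ := by nlinarith [norm_nonneg (trig N T a x)]
        nlinarith [norm_nonneg (trig N T a x)]
    _ ≤ ∫ x in Icc (0 : ℝ) N, 4 * ‖g x‖ ^ 2 :=
        setIntegral_mono_set i1 (Filter.Eventually.of_forall fun x => by positivity)
          hsub.eventuallyLE
    _ = 4 * ∫ x in (0 : ℝ)..N, ‖g x‖ ^ 2 := by
        rw [integral_const_mul, integral_Icc_eq_integral_Ioc,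
          intervalIntegral.integral_of_le hN0.le]
    _ ≤ _ := by nlinarith

end Pool.Agent.Lib.MP_e1e19a_an
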