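import Pool.Agent.Lib.MP_e1e19a_an.N.F5a

/-!
The fractal uncertainty principle for exponential sums.
-/

namespace Pool.Agent.Lib.MP_e1e19a_an

open Real MeasureTheory Set
open scoped MatrixGroups ComplexConjugate UpperHalfPlane

namespace F5b

/-- the Dirichlet kernel is large near the origin -/
theorem dir_lower (m : ℕ) {θ : ℝ} (h0 : 0 ≤ θ) (h1 : m * θ ≤ 1) :
    (m : ℝ) / 2 ≤ ‖∑ k ∈ Finset.range m, Complex.exp (Complex.I * ((k * θ : ℝ) : ℂ))‖ := by
  refine le_trans ?_ (Complex.re_le_norm _)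
  rw [Complex.re_sum]
  have h : ∀ k ∈ Finset.range m,
      (1 / 2 : ℝ) ≤ (Complex.exp (Complex.I * ((k * θ : ℝ) : ℂ))).re := by
    intro k hk
    rw [mul_comm, Complex.exp_ofReal_mul_I_re]
    have hk' : (k : ℝ) ≤ m := by exact_mod_cast (Finset.mem_range.1 hk).le
    have h2 : 0 ≤ (k : ℝ) * θ := by positivity
    have h3 : (k : ℝ) * θ ≤ 1 := le_trans (mul_le_mul_of_nonneg_right hk' h0) h1
    have h4 := Real.one_sub_sq_div_two_le_cos (x := k * θ)
    nlinarith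
  have := Finset.sum_le_sum h
  simp only [Finset.sum_const, Finset.card_range, nsmul_eq_mul] at this
  linarith

/-- the product of a lattice exponential sum and the Dirichlet kernel is a trigonometric
polynomial -/
theorem prod_eq_trig {ι : Type} [Fintype ι] (N : ℝ) (m : ℕ) (n : ι → ℤ) (c : ι → ℂ) (x : ℝ) :
    (∑ i, c i * Complex.exp (Complex.I * ((2 * π * n i / N : ℝ) * x))) *
      ∑ k ∈ Finset.range m, Complex.exp (Complex.I * ((k * (2 * π * x / N) : ℝ) : ℂ)) =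
    trig N (((Finset.univ : Finset ι) ×ˢ Finset.range m).image fun p => n p.1 + p.2)
      (fun l => ∑ p ∈ ((Finset.univ : Finset ι) ×ˢ Finset.range m).filter
        (fun p => n p.1 + p.2 = l), c p.1) x := by
  unfold trig
  rw [Finset.sum_mul_sum, ← Finset.sum_product']
  rw [← Finset.sum_fiberwise_of_maps_to (g := fun p : ι × ℕ => n p.1 + (p.2 : ℤ))
    (t := ((Finset.univ : Finset ι) ×ˢ Finset.range m).image fun p => n p.1 + p.2)
    (fun p hp => Finset.mem_image_of_mem _ hp)]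
  refine Finset.sum_congr rfl fun l _ => ?_
  rw [Finset.sum_mul]
  refine Finset.sum_congr rfl fun p hp => ?_
  have h := (Finset.mem_filter.1 hp).2
  rw [mul_assoc, ← Complex.exp_add, ← h]
  congr 2
  push_cast
  ring

/-- the coefficients of the product -/
theorem coef_le {ι : Type} [Fintype ι] (m : ℕ) (n : ι → ℤ) (c : ι → ℂ) {N₀ : ℝ}
    (h : ∀ l : ℤ, ((Finset.univ.filter fun i => n i ≤ l ∧ l < n i + m).card : ℝ) ≤ N₀) :
    ∑ l ∈ ((Finset.univ : Finset ι) ×ˢ Finset.range m).image (fun p => n p.1 + p.2),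
      ‖∑ p ∈ ((Finset.univ : Finset ι) ×ˢ Finset.range m).filter
        (fun p => n p.1 + p.2 = l), c p.1‖ ^ 2 ≤ N₀ * (m * ∑ i, ‖c i‖ ^ 2) := by
  have h1 : ∀ l : ℤ, ‖∑ p ∈ ((Finset.univ : Finset ι) ×ˢ Finset.range m).filter
        (fun p => n p.1 + p.2 = l), c p.1‖ ^ 2 ≤
      N₀ * ∑ p ∈ ((Finset.univ : Finset ι) ×ˢ Finset.range m).filter
        (fun p => n p.1 + p.2 = l), ‖c p.1‖ ^ 2 := by
    intro l
    set s := ((Finset.univ : Finset ι) ×ˢ Finset.range m).filter (fun p => n p.1 + p.2 = l)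
      with hs
    have h2 : ‖∑ p ∈ s, c p.1‖ ≤ ∑ p ∈ s, ‖c p.1‖ := norm_sum_le _ _
    have h3 : (∑ p ∈ s, ‖c p.1‖) ^ 2 ≤ s.card * ∑ p ∈ s, ‖c p.1‖ ^ 2 :=
      sq_sum_le_card_mul_sum_sq
    have h4 : s.card ≤ (Finset.univ.filter fun i => n i ≤ l ∧ l < n i + m).card := by
      refine Finset.card_le_card_of_injOn (fun p => p.1) ?_ ?_
      · intro p hp
        have hp' := Finset.mem_filter.1 (Finset.mem_coe.1 hp)
        have h5 : p.2 < m := Finset.mem_range.1 (Finset.mem_product.1 hp'.1).2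
        have h6 := hp'.2
        simp only [Finset.coe_filter, Finset.mem_univ, true_and, mem_ofPred_eq]
        omega
      · intro p hp q hq hpq
        have h5 := (Finset.mem_filter.1 (Finset.mem_coe.1 hp)).2
        have h6 := (Finset.mem_filter.1 (Finset.mem_coe.1 hq)).2
        simp only at hpq
        rw [hpq] at h5
        exact Prod.ext hpq (by omega)
    have h5 : (s.card : ℝ) ≤ N₀ := le_trans (by exact_mod_cast h4) (h l)
    have h6 : 0 ≤ ∑ p ∈ s, ‖c p.1‖ ^ 2 := Finset.sum_nonneg fun _ _ => by positivity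
    calc ‖∑ p ∈ s, c p.1‖ ^ 2 ≤ (∑ p ∈ s, ‖c p.1‖) ^ 2 := by gcongr
      _ ≤ s.card * ∑ p ∈ s, ‖c p.1‖ ^ 2 := h3
      _ ≤ _ := by gcongr
  refine le_trans (Finset.sum_le_sum fun l _ => h1 l) ?_
  rw [← Finset.mul_sum, Finset.sum_fiberwise_of_maps_to (g := fun p : ι × ℕ => n p.1 + (p.2 : ℤ))
    (fun p hp => Finset.mem_image_of_mem _ hp), Finset.sum_product]
  simp [Finset.mul_sum]

theorem trig_cont (N : ℝ) (T : Finset ℤ) (a : ℤ → ℂ) : Continuous (trig N T a) := by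
  unfold trig
  fun_prop

/-- the estimate for frequencies on a lattice -/
theorem lattice {ι : Type} [Fintype ι] {Q m : ℕ} (hm : 1 ≤ m) (hQ : 1 ≤ Q) {R ε N₀ : ℝ}
    (hR : 7 * R ≤ Q) {S : Set ℝ} (hS : MeasurableSet S) (hSR : S ⊆ Icc 0 R) (n : ι → ℤ)
    (c : ι → ℂ) (hε : 0 ≤ ε)
    (h : ∀ l : ℤ, ((Finset.univ.filter fun i => n i ≤ l ∧ l < n i + m).card : ℝ) ≤ N₀)
    (hf : ∀ a : ℤ → ℂ, ∫ x in S, ‖trig (m * Q : ℕ)
      (((Finset.univ : Finset ι) ×ˢ Finset.range m).image fun p => n p.1 + p.2) a x‖ ^ 2 ≤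
      ε * ((m * Q : ℕ) * ∑ l ∈ ((Finset.univ : Finset ι) ×ˢ Finset.range m).image
        (fun p => n p.1 + p.2), ‖a l‖ ^ 2)) :
    ∫ x in S, ‖∑ i, c i * Complex.exp (Complex.I * ((2 * π * n i / (m * Q : ℕ) : ℝ) * x))‖ ^ 2
      ≤ 4 * Q * ε * N₀ * ∑ i, ‖c i‖ ^ 2 := by
  have hm0 : (0 : ℝ) < m := by exact_mod_cast hm
  have hQ0 : (0 : ℝ) < Q := by exact_mod_cast hQ
  set T := ((Finset.univ : Finset ι) ×ˢ Finset.range m).image fun p => n p.1 + p.2 with hT
  set a : ℤ → ℂ := fun l => ∑ p ∈ ((Finset.univ : Finset ι) ×ˢ Finset.range m).filter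
        (fun p => n p.1 + p.2 = l), c p.1 with ha
  have h1 := hf a
  have h2 : ∑ l ∈ T, ‖a l‖ ^ 2 ≤ N₀ * (m * ∑ i, ‖c i‖ ^ 2) := coef_le m n c h
  have hint : ∀ f : ℝ → ℝ, Continuous f → IntegrableOn f S := fun f hf =>
    (hf.continuousOn.integrableOn_compact isCompact_Icc).mono_set hSR
  have h3 : ∫ x in S, ‖∑ i, c i *
        Complex.exp (Complex.I * ((2 * π * n i / (m * Q : ℕ) : ℝ) * x))‖ ^ 2
      ≤ ∫ x in S, 4 / (m : ℝ) ^ 2 * ‖trig (m * Q : ℕ) T a x‖ ^ 2 := by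
    refine setIntegral_mono_on (hint _ (by fun_prop))
      (hint _ (continuous_const.mul ((trig_cont _ _ _).norm.pow 2))) hS fun x hx => ?_
    have hx0 := (hSR hx).1
    have hx1 := (hSR hx).2
    rw [hT, ha, ← prod_eq_trig, norm_mul, mul_pow]
    have h4 : (m : ℝ) * (2 * π * x / (m * Q : ℕ)) ≤ 1 := by
      have : (m : ℝ) * (2 * π * x / (m * Q : ℕ)) = 2 * π * x / Q := by
        push_cast
        field_simp
      rw [this, div_le_one hQ0]
      nlinarith [pi_lt_d2, pi_pos]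
    have h5 := dir_lower m (θ := 2 * π * x / (m * Q : ℕ)) (by positivity) h4
    set W := ‖∑ k ∈ Finset.range m,
      Complex.exp (Complex.I * ((k * (2 * π * x / (m * Q : ℕ)) : ℝ) : ℂ))‖
    set F := ‖∑ i, c i * Complex.exp (Complex.I * ((2 * π * n i / (m * Q : ℕ) : ℝ) * x))‖
    have h6 : ((m : ℝ) / 2) ^ 2 ≤ W ^ 2 := by gcongr
    have h7 : F ^ 2 = 4 / (m : ℝ) ^ 2 * (F ^ 2 * ((m : ℝ) / 2) ^ 2) := by
      field_simp
      ring
    calc F ^ 2 = _ := h7
      _ ≤ _ := by gcongr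
  rw [integral_const_mul] at h3
  refine h3.trans ?_
  calc 4 / (m : ℝ) ^ 2 * ∫ x in S, ‖trig (m * Q : ℕ) T a x‖ ^ 2
      ≤ 4 / (m : ℝ) ^ 2 * (ε * ((m * Q : ℕ) * (N₀ * (m * ∑ i, ‖c i‖ ^ 2)))) := by
        refine mul_le_mul_of_nonneg_left (h1.trans ?_) (by positivity)
        gcongr
    _ = _ := by
        push_cast
        field_simp

/-- continuity in the frequencies -/
theorem cont_freq {ι : Type} [Fintype ι] {S : Set ℝ} {R : ℝ} (hSR : S ⊆ Icc 0 R) (c : ι → ℂ) :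
    Continuous fun y : ι → ℝ =>
      ∫ x in S, ‖∑ i, c i * Complex.exp (Complex.I * (y i * x))‖ ^ 2 := by
  have hfin : IsFiniteMeasure (volume.restrict S) :=
    ⟨by
      rw [Measure.restrict_apply_univ]
      exact lt_of_le_of_lt (measure_mono hSR) measure_Icc_lt_top⟩
  refine continuous_of_dominated (bound := fun _ => (∑ i, ‖c i‖) ^ 2) (fun y => ?_)
    (fun y => Filter.Eventually.of_forall fun x => ?_) (integrable_const _)
    (Filter.Eventually.of_forall fun x => by fun_prop)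
  · exact Continuous.aestronglyMeasurable (by fun_prop)
  · rw [Real.norm_eq_abs, abs_of_nonneg (by positivity)]
    gcongr
    refine (norm_sum_le _ _).trans (le_of_eq (Finset.sum_congr rfl fun i _ => ?_))
    have : Complex.I * ((y i : ℂ) * x) = ((y i * x : ℝ) : ℂ) * Complex.I := by
      push_cast
      ring
    rw [norm_mul, this, Complex.norm_exp_ofReal_mul_I, mul_one]

theorem round_tendsto {Q : ℕ} (hQ : 1 ≤ Q) (t : ℝ) :
    Filter.Tendsto (fun m : ℕ => 2 * π * (⌊t * (m * Q : ℕ) / (2 * π)⌋ : ℤ) / (m * Q : ℕ))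
      Filter.atTop (nhds t) := by
  have hQ0 : (1 : ℝ) ≤ Q := by exact_mod_cast hQ
  have h1 : Filter.Tendsto (fun m : ℕ => t - 2 * π / (m : ℝ)) Filter.atTop (nhds (t - 0)) :=
    tendsto_const_nhds.sub (tendsto_const_div_atTop_nhds_zero_nat _)
  rw [sub_zero] at h1
  refine tendsto_of_tendsto_of_tendsto_of_le_of_le' h1 tendsto_const_nhds ?_ ?_
  · filter_upwards [Filter.eventually_ge_atTop 1] with m hm
    have hm0 : (1 : ℝ) ≤ m := by exact_mod_cast hm
    have hN : (0 : ℝ) < (m * Q : ℕ) := by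
      push_cast
      positivity
    have h2 := Int.lt_floor_add_one (t * (m * Q : ℕ) / (2 * π))
    rw [div_lt_iff₀ (by positivity)] at h2
    rw [le_div_iff₀ hN]
    have h3 : 2 * π / (m : ℝ) * (m * Q : ℕ) = 2 * π * Q := by
      push_cast
      field_simp
    rw [sub_mul, h3]
    nlinarith [pi_pos]
  · filter_upwards [Filter.eventually_ge_atTop 1] with m hm
    have hm0 : (1 : ℝ) ≤ m := by exact_mod_cast hm
    have hN : (0 : ℝ) < (m * Q : ℕ) := by
      push_cast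
      positivity
    have h2 := Int.floor_le (t * (m * Q : ℕ) / (2 * π))
    rw [le_div_iff₀ (by positivity)] at h2
    rw [div_le_iff₀ hN]
    linarith

/-- the statement for sets inside `[1, R - 1]` -/
theorem fup_pos {ν ε : ℝ} (hν : 0 < ν) (hε : 0 < ε) (L₀ R : ℝ) : ∃ ε₀ ∈ Ioc (0 : ℝ) 1,
    ∀ X ⊆ Icc 1 (R - 1), Porous X ν ε₀ 1 → ∀ (ι : Type) [Fintype ι] (y : ι → ℝ) (c : ι → ℂ)
    (N₀ : ℝ), (∀ β, Porous (range y) ν L₀ β) →
    (∀ t : ℝ, (Finset.univ.filter fun i => t ≤ y i ∧ y i ≤ t + 1).card ≤ N₀) →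
    ∫ v in Metric.thickening ε₀ X, ‖∑ i, c i * Complex.exp (Complex.I * (y i * v))‖ ^ 2
      ≤ ε * N₀ * ∑ i, ‖c i‖ ^ 2 := by
  obtain ⟨Q, hQ7, hQR⟩ : ∃ Q : ℕ, 7 ≤ Q ∧ 7 * |R| ≤ Q :=
    ⟨max 7 ⌈7 * |R|⌉₊, le_max_left _ _,
      (Nat.le_ceil _).trans (by exact_mod_cast le_max_right _ _)⟩
  have hQ : 1 ≤ Q := by omega
  have hQ0 : (7 : ℝ) ≤ Q := by exact_mod_cast hQ7
  obtain ⟨ε₀, hε₀, H⟩ := fup_periodic (ν := ν / 2) (ε := ε / (4 * Q)) (by positivity)
    (by positivity) (max L₀ (4 * 1 / ν))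
  refine ⟨ε₀, hε₀, fun X hX hP ι _ y c N₀ hy hN₀ => ?_⟩
  have hSR : Metric.thickening ε₀ X ⊆ Icc 0 R := by
    intro v hv
    obtain ⟨z, hz, hd⟩ := Metric.mem_thickening_iff.1 hv
    rw [Real.dist_eq, abs_lt] at hd
    have h1 := hX hz
    exact ⟨by linarith [h1.1, hε₀.2, hd.1], by linarith [h1.2, hε₀.2, hd.2]⟩
  have hlim := ((cont_freq hSR c).tendsto y).comp
    (tendsto_pi_nhds.2 fun i => round_tendsto hQ (y i))
  refine le_of_tendsto hlim ?_
  filter_upwards [Filter.eventually_ge_atTop 1] with m hm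
  have hm0 : (1 : ℝ) ≤ m := by exact_mod_cast hm
  have hN : (0 : ℝ) < (m * Q : ℕ) := by
    push_cast
    positivity
  have hNm : 2 * π * m ≤ ((m * Q : ℕ) : ℝ) := by
    push_cast
    nlinarith [pi_lt_d2, pi_pos]
  set n : ι → ℤ := fun i => ⌊y i * (m * Q : ℕ) / (2 * π)⌋ with hn
  have hlo : ∀ i, 2 * π * n i ≤ y i * (m * Q : ℕ) := fun i => by
    have h2 := Int.floor_le (y i * (m * Q : ℕ) / (2 * π))
    rw [le_div_iff₀ (by positivity)] at h2
    linarith
  have hup : ∀ i, y i * (m * Q : ℕ) < 2 * π * (n i + 1) := fun i => by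
    have h2 := Int.lt_floor_add_one (y i * (m * Q : ℕ) / (2 * π))
    rw [div_lt_iff₀ (by positivity)] at h2
    linarith
  have key := lattice (ι := ι) hm hQ (R := R) (ε := ε / (4 * Q)) (N₀ := N₀)
    (le_trans (by linarith [le_abs_self R]) hQR) Metric.isOpen_thickening.measurableSet hSR n c
    (by positivity) ?_ ?_
  · have h1 : 4 * (Q : ℝ) * (ε / (4 * Q)) = ε := by field_simp
    rw [h1] at key
    exact key
  · intro l
    refine le_trans ?_ (hN₀ (2 * π * (l - m + 1) / (m * Q : ℕ)))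
    refine Nat.cast_le.2 (Finset.card_le_card fun i hi => ?_)
    obtain ⟨h1, h2⟩ := (Finset.mem_filter.1 hi).2
    have h3 : ((n i : ℤ) : ℝ) ≤ l := by exact_mod_cast h1
    have h4 : (l : ℝ) + 1 ≤ n i + m := by exact_mod_cast h2
    refine Finset.mem_filter.2 ⟨Finset.mem_univ _, ?_, ?_⟩
    · rw [div_le_iff₀ hN]
      nlinarith [hlo i, pi_pos]
    · rw [div_add_one hN.ne', le_div_iff₀ hN]
      nlinarith [hup i, pi_pos]
  · intro a
    refine H (m * Q) (Nat.one_le_iff_ne_zero.2 (by positivity)) X (fun x hx => ?_)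
      (hP.mono subset_rfl (by positivity) (by linarith) le_rfl le_rfl hε₀.1.le) _ a fun β => ?_
    · refine ⟨(hX hx).1, (hX hx).2.trans ?_⟩
      have h1 : R ≤ Q := by linarith [le_abs_self R, abs_nonneg R]
      push_cast
      nlinarith
    · refine ((hy β).thicken hν zero_le_one).mono ?_ (by positivity) le_rfl le_rfl le_rfl
        (le_max_of_le_right (by positivity))
      rintro x ⟨l, hl, rfl⟩
      obtain ⟨p, hp, rfl⟩ := Finset.mem_image.1 hl
      have h1 : p.2 < m := Finset.mem_range.1 (Finset.mem_product.1 hp).2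
      have h2 : (p.2 : ℝ) + 1 ≤ m := by exact_mod_cast h1
      have h3 : (0 : ℝ) ≤ p.2 := by positivity
      refine ⟨y p.1, mem_range_self _, abs_le.2 ⟨?_, ?_⟩⟩
      · rw [le_sub_iff_add_le, le_div_iff₀ hN]
        push_cast at hNm ⊢
        have := hup p.1
        push_cast at this
        nlinarith [pi_pos]
      · rw [sub_le_iff_le_add, div_le_iff₀ hN]
        push_cast at hNm ⊢
        have := hlo p.1
        push_cast at this
        nlinarith [pi_pos]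

end F5b

theorem fup {ν ε : ℝ} (hν : 0 < ν) (hε : 0 < ε) (L₀ B : ℝ) : ∃ ε₀ ∈ Ioc (0 : ℝ) 1,
    ∀ X ⊆ Icc (-B) B, Porous X ν ε₀ 1 → ∀ (ι : Type) [Fintype ι] (y : ι → ℝ) (c : ι → ℂ)
    (N₀ : ℝ), (∀ β, Porous (range y) ν L₀ β) →
    (∀ t : ℝ, (Finset.univ.filter fun i => t ≤ y i ∧ y i ≤ t + 1).card ≤ N₀) →
    ∫ v in Metric.thickening ε₀ X, ‖∑ i, c i * Complex.exp (Complex.I * (y i * v))‖ ^ 2
      ≤ ε * N₀ * ∑ i, ‖c i‖ ^ 2 := by
  obtain ⟨ε₀, hε₀, H⟩ := F5b.fup_pos hν hε L₀ (2 * B + 2)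
  refine ⟨ε₀, hε₀, fun X hX hP ι _ y c N₀ hy hN₀ => ?_⟩
  have hP' := hP.affine one_pos (B + 1)
  rw [one_mul, one_mul] at hP'
  have key := H ((fun x => 1 * x + (B + 1)) '' X) (by
      rintro _ ⟨x, hx, rfl⟩
      have h1 := hX hx
      exact ⟨by linarith [h1.1], by linarith [h1.2]⟩) hP' ι y
    (fun i => c i * Complex.exp (Complex.I * ((-(y i * (B + 1)) : ℝ) : ℂ))) N₀ hy hN₀
  have h1 : ∀ i, ‖c i * Complex.exp (Complex.I * ((-(y i * (B + 1)) : ℝ) : ℂ))‖ = ‖c i‖ := by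
    intro i
    rw [norm_mul, mul_comm Complex.I, Complex.norm_exp_ofReal_mul_I, mul_one]
  simp only [h1] at key
  refine le_trans (le_of_eq (Eq.symm ?_)) key
  rw [← (measurePreserving_add_right volume (B + 1)).setIntegral_preimage_emb
    (measurableEmbedding_addRight (B + 1))]
  have h2 : (fun x => x + (B + 1)) ⁻¹' Metric.thickening ε₀ ((fun x => 1 * x + (B + 1)) '' X) =
      Metric.thickening ε₀ X := by
    ext v
    simp only [mem_preimage, Metric.mem_thickening_iff, mem_image, exists_exists_and_eq_and,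
      one_mul, dist_add_right]
  rw [h2]
  refine setIntegral_congr_fun Metric.isOpen_thickening.measurableSet fun v _ => ?_
  congr 2
  refine Finset.sum_congr rfl fun i _ => ?_
  rw [mul_assoc, ← Complex.exp_add]
  congr 2
  push_cast
  ring

end Pool.Agent.Lib.MP_e1e19a_an
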