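import Pool.Agent.Lib.MP_e1e19a_an.N.S3

/-!
Points of the convex hull; the action on the upper half-plane.
-/

namespace Pool.Agent.Lib.MP_e1e19a_an

open Real MeasureTheory Set
open scoped MatrixGroups ComplexConjugate UpperHalfPlane

set_option linter.unusedSectionVars false

variable {α : Type} [Fintype α] [DecidableEq α] [Inhabited α] (S : SchottkyData α)

namespace S5

theorem re_lt (z : ℍ) : z.re ^ 2 < ‖(z : ℂ)‖ ^ 2 := by
  rw [norm_sq_eq]; exact lt_add_of_pos_right _ (pow_pos z.im_pos 2)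

/-- Klein coordinates -/
noncomputable def klein : ℍ ≃ₜ {v : ℝ × ℝ // v.1 ^ 2 < v.2} where
  toFun z := ⟨(z.re, ‖(z : ℂ)‖ ^ 2), re_lt z⟩
  invFun v := ⟨⟨v.1.1, √(v.1.2 - v.1.1 ^ 2)⟩, sqrt_pos.2 (sub_pos.2 v.2)⟩
  left_inv z := by
    refine UpperHalfPlane.ext (Complex.ext rfl ?_)
    simp only [norm_sq_eq, add_sub_cancel_left]
    exact sqrt_sq z.im_pos.le
  right_inv v := by
    refine Subtype.ext (Prod.ext rfl ?_)
    have := sq_sqrt (sub_pos.2 v.2).le
    simp only [Complex.sq_norm, Complex.normSq_mk]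
    linarith
  continuous_toFun := Continuous.subtype_mk (f := fun z : ℍ => (z.re, ‖(z : ℂ)‖ ^ 2)) (by fun_prop) re_lt
  continuous_invFun := Continuous.upperHalfPlaneMk (Complex.equivRealProdCLM.symm.continuous.comp
    (f := fun v : {v : ℝ × ℝ // v.1 ^ 2 < v.2} => (v.1.1, √(v.1.2 - v.1.1 ^ 2))) (by fun_prop)) _

theorem preconn (Λ : Set ℝ) : IsPreconnected (interior (hull Λ)) := by
  have op : IsOpen {v : ℝ × ℝ | v.1 ^ 2 < v.2} := isOpen_lt (by fun_prop) (by fun_prop)
  have em := op.isOpenEmbedding_subtypeVal.comp klein.isOpenEmbedding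
  let K : Set (ℝ × ℝ) := {v | ∀ A B C : ℝ, (∀ r ∈ Λ, 0 ≤ A * r ^ 2 + B * r + C) →
    0 ≤ A * v.2 + B * v.1 + C}
  have cK : Convex ℝ K := fun v hv w hw a b ha hb hab A B C H => by
    have h1 := mul_nonneg ha (hv A B C H)
    have h2 := mul_nonneg hb (hw A B C H)
    simp only [Prod.fst_add, Prod.snd_add, Prod.smul_fst, Prod.smul_snd, smul_eq_mul]
    linear_combination h1 + h2 + C * hab
  have cP : Convex ℝ {v : ℝ × ℝ | v.1 ^ 2 < v.2} := fun v hv w hw a b ha hb hab => by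
    have h1 : 0 < v.2 - v.1 ^ 2 := sub_pos.2 hv
    have h2 : 0 < w.2 - w.1 ^ 2 := sub_pos.2 hw
    have h3 := mul_nonneg (mul_nonneg ha hb) (sq_nonneg (v.1 - w.1))
    obtain rfl : b = 1 - a := by linarith
    simp only [mem_ofPred_eq, Prod.fst_add, Prod.snd_add, Prod.smul_fst, Prod.smul_snd, smul_eq_mul]
    rcases ha.eq_or_lt with rfl | ha'
    · linarith
    · nlinarith [mul_pos ha' h1, mul_nonneg hb h2.le]
  have e : interior (hull Λ) = _ :=
    (em.isOpenMap.preimage_interior_eq_interior_preimage em.continuous K).symm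
  rw [e, ← em.isInducing.isPreconnected_image, image_preimage_eq_inter_range, range_comp,
    klein.surjective.range_eq, image_univ, Subtype.range_coe]
  exact (cK.interior.inter cP).isPreconnected

theorem orbit_bd : ∃ R, ∀ w ∈ orbitI S.group, ‖w‖ ≤ R := by
  obtain ⟨-, -, B, B1, -, -, b1, b2, -⟩ := S.geo
  obtain ⟨e, he⟩ := S.equiv
  refine ⟨B + 4 * B ^ 2, ?_⟩
  rintro _ ⟨γ, rfl⟩
  obtain ⟨g, rfl⟩ := e.surjective γ
  simp only [Subgroup.smul_def, he]
  by_cases g1 : g = 1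
  · simp only [g1, map_one, one_smul, UpperHalfPlane.coe_I, Complex.norm_I]
    nlinarith
  rw [S3.smul_eq S g1]
  have a : 1 ≤ ‖((UpperHalfPlane.I : ℍ) : ℂ) - S.p g⁻¹‖ := by
    simpa using Complex.abs_im_le_norm (((UpperHalfPlane.I : ℍ) : ℂ) - S.p g⁻¹)
  refine (norm_sub_le _ _).trans (add_le_add ?_ ?_)
  · rw [Complex.norm_real]
    exact b1 g g1
  · rw [norm_div, Complex.norm_real, Real.norm_of_nonneg (S.τ_pos g1).le]
    exact (div_le_self (S.τ_pos g1).le a).trans (b2 g)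

theorem par_inv (u : FreeGroup α) (j : α × Bool) : par ((S3.lt j)⁻¹ * u) = !par u := by
  have e : FreeGroup.lift (fun _ : α => (-1 : ℤˣ)) (S3.lt j) = -1 := by
    obtain ⟨i, _ | _⟩ := j <;> simp [S3.lt, FreeGroup.lift_mk]
  unfold par
  rw [map_mul, map_inv, e]
  rcases Int.units_eq_one_or (FreeGroup.lift (fun _ : α => (-1 : ℤˣ)) u) with h | h <;>
    simp [h]

theorem cont_amp (g : FreeGroup α) : Continuous fun z => S.amp z g := by
  unfold SchottkyData.amp SchottkyData.ht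
  fun_prop

theorem cont_dir (g : FreeGroup α) : Continuous fun z => S.dir z g := by
  by_cases g1 : g = 1
  · simp only [g1, S.dir_one]
    exact continuous_const
  · simp only [S.dir_eq g1, kd]
    exact Continuous.div (by fun_prop) (by fun_prop) fun z => kd_den z _

end S5

open S5

theorem SchottkyData.int_ne [Nontrivial α] : (interior (hull (limitSet S.group))).Nonempty := by
  obtain ⟨a, ha, r, hr, b, hb, h1, h2⟩ : ∃ a ∈ S.Lam, ∃ r ∈ S.Lam, ∃ b ∈ S.Lam, a < r ∧ r < b := by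
    obtain ⟨T, hT, h3⟩ := S.Lam_inf.exists_subset_card_eq 3
    let f := T.orderEmbOfFin h3
    exact ⟨f 0, hT (T.orderEmbOfFin_mem h3 0), f 1, hT (T.orderEmbOfFin_mem h3 1), f 2,
      hT (T.orderEmbOfFin_mem h3 2), f.strictMono (by decide), f.strictMono (by decide)⟩
  have y0 : 0 < (r - a) * (b - r) / 2 := half_pos (mul_pos (sub_pos.2 h1) (sub_pos.2 h2))
  refine ⟨⟨⟨r, √((r - a) * (b - r) / 2)⟩, sqrt_pos.2 y0⟩, mem_interior.2
    ⟨{z : ℍ | 0 < (z.re - r) * (z.re - b) + z.im ^ 2 ∧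
    (z.re - a) * (z.re - b) + z.im ^ 2 < 0 ∧ 0 < (z.re - a) * (z.re - r) + z.im ^ 2},
    fun z hz => tri_mem (S.Lam_sub ha) (S.Lam_sub hr) (S.Lam_sub hb) h1 h2 z hz.1 hz.2.1 hz.2.2,
    (isOpen_lt (by fun_prop) (by fun_prop)).and ((isOpen_lt (by fun_prop) (by fun_prop)).and
      (isOpen_lt (by fun_prop) (by fun_prop))), ?_⟩⟩
  change 0 < (r - r) * (r - b) + √((r - a) * (b - r) / 2) ^ 2 ∧
    (r - a) * (r - b) + √((r - a) * (b - r) / 2) ^ 2 < 0 ∧
    0 < (r - a) * (r - r) + √((r - a) * (b - r) / 2) ^ 2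
  rw [sq_sqrt y0.le]
  exact ⟨by linarith, by linarith, by linarith⟩

theorem SchottkyData.summ_indep {z : ℍ} (h : Summable (S.amp z)) (z' : ℍ) :
    Summable (S.amp z') :=
  (h.mul_left _).of_nonneg_of_le (fun _ => sqrt_nonneg _) fun g => amp_le (S.M g⁻¹) z z'

theorem SchottkyData.zero_point [Nontrivial α] (h : Summable (S.amp UpperHalfPlane.I)) :
    ∃ z ∈ interior (hull (limitSet S.group)),
      ∑' g, (if par g then S.amp z g else -S.amp z g) = 0 := by
  obtain ⟨R, hR⟩ := orbit_bd S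
  obtain ⟨e, he⟩ := S.equiv
  obtain ⟨z, hz⟩ := S.int_ne
  let s : ℍ → ℝ := fun z => ∑' g, (if par g then S.amp z g else -S.amp z g)
  have cs : Continuous s := by
    have := cont_wave (fun g => S.M g⁻¹) h (fun g _ => if par g then 0 else π)
      fun _ => continuous_const
    convert this using 4 with z g
    unfold SchottkyData.amp SchottkyData.ht
    split_ifs <;> simp
  let a : FreeGroup α := S3.lt (default, true)
  have hz' : S.M a • z ∈ interior (hull (limitSet S.group)) :=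
    (isOpenMap_smul (S.M a)).mapsTo_interior (fun w hw => by
      have := hull_smul hR (e a) hw
      rwa [Subgroup.smul_def, he] at this) hz
  have neg : s (S.M a • z) = -s z := by
    simp only [s]
    rw [← tsum_neg, ← (Equiv.mulLeft a⁻¹).tsum_eq fun g =>
      -(if par g then S.amp z g else -S.amp z g)]
    refine tsum_congr fun g => ?_
    have e1 : S.amp (S.M a • z) g = S.amp z (a⁻¹ * g) := by
      rw [SchottkyData.amp, S.ht_smul]; rfl
    rw [e1, Equiv.coe_mulLeft, par_inv]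
    cases par g <;> simp
  have iv := fun x y hx hy => (preconn (limitSet S.group)).intermediate_value (a := x) (b := y)
    hx hy cs.continuousOn
  rcases le_total (s z) 0 with h0 | h0
  · exact iv _ _ hz hz' ⟨h0, by linarith⟩
  · exact iv _ _ hz' hz ⟨by linarith, h0⟩

theorem SchottkyData.perturb {U : Set ℍ} (hU : IsOpen U) {z₀ : ℍ} (hz : z₀ ∈ U)
    (h : Summable (S.amp z₀)) {δ : ℝ} (hδ : 0 < δ) : ∃ z ∈ U,
      ∑' g, (|S.amp z g - S.amp z₀ g| + S.amp z₀ g * ‖S.dir z g - S.dir z₀ g‖) ≤ δ ∧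
        ∀ g, g ≠ 1 → S.dir z g ≠ S.dir z 1 ∧ S.dir z g ≠ -S.dir z 1 := by
  let f : ℍ → ℝ := fun z =>
    ∑' g, (|S.amp z g - S.amp z₀ g| + S.amp z₀ g * ‖S.dir z g - S.dir z₀ g‖)
  have cf : ContinuousAt f z₀ := by
    refine (continuousOn_tsum (s := Metric.ball z₀ 1) (fun g => Continuous.continuousOn ?_)
      (h.mul_left (exp 1 + 1)) fun g w hw => ?_).continuousAt (Metric.ball_mem_nhds _ one_pos)
    · have := cont_amp S g
      have := cont_dir S g
      fun_prop
    · have a0 : 0 ≤ S.amp z₀ g := sqrt_nonneg _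
      have a1 : |S.amp w g - S.amp z₀ g| ≤ (exp (dist w z₀) - 1) * S.amp z₀ g :=
        amp_close (S.M g⁻¹) z₀ w
      have a2 : exp (dist w z₀) ≤ exp 1 := exp_le_exp.2 (le_of_lt hw)
      have a3 : ‖S.dir w g - S.dir z₀ g‖ ≤ 2 := by
        linarith [norm_sub_le (S.dir w g) (S.dir z₀ g), S.dir_norm w g, S.dir_norm z₀ g]
      rw [Real.norm_of_nonneg (by positivity)]
      nlinarith
  have f0 : f z₀ < δ := by simpa [f] using hδ
  have c : Continuous fun t : ℝ => t +ᵥ z₀ := by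
    refine UpperHalfPlane.isEmbedding_coe.continuous_iff.2 ?_
    simp only [Function.comp_def, UpperHalfPlane.coe_vadd]
    fun_prop
  have ev : ∀ᶠ t : ℝ in nhds 0, t +ᵥ z₀ ∈ U ∧ f (t +ᵥ z₀) < δ :=
    (c.tendsto' 0 z₀ (zero_vadd _ _)).eventually
      ((show ∀ᶠ w in nhds z₀, w ∈ U from hU.mem_nhds hz).and (cf.eventually_lt continuousAt_const f0))
  obtain ⟨t, t1, t2, t3⟩ := (countable_range fun g => S.p g - z₀.re).dense_compl ℝ
    |>.inter_nhds_nonempty ev
  refine ⟨_, t2, t3.le, fun g g1 => ?_⟩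
  have y0 := z₀.im_pos
  rw [S.dir_eq g1, S.dir_one, kd, Ne, Ne, div_eq_iff (kd_den _ _), div_eq_iff (kd_den _ _),
    neg_mul, ← mul_neg, mul_right_inj' Complex.I_ne_zero, mul_right_inj' Complex.I_ne_zero]
  refine ⟨fun e => ?_, fun e => t1 ⟨g, ?_⟩⟩
  · have := congrArg Complex.im e
    simp at this
    linarith
  · have := congrArg Complex.re e
    simp at this
    simp only
    linarith

theorem SchottkyData.proper : ProperlyDiscontinuousSMul S.group ℍ := by
  refine ⟨fun {K L} hK hL => ?_⟩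
  obtain ⟨e, he⟩ := S.equiv
  have low : ∀ {K : Set ℍ}, IsCompact K → ∃ m > 0, ∀ z ∈ K, m ≤ z.im := fun {K} hK => by
    rcases K.eq_empty_or_nonempty with rfl | hn
    · exact ⟨1, one_pos, by simp⟩
    · obtain ⟨z, -, hz⟩ := hK.exists_isMinOn hn UpperHalfPlane.continuous_im.continuousOn
      exact ⟨_, z.im_pos, hz⟩
  obtain ⟨m, m0, hm⟩ := low hK
  obtain ⟨n, n0, hn⟩ := low hL
  have fin := Filter.eventually_cofinite.1 (S.τ_summable.tendsto_cofinite_zero.eventually
    (gt_mem_nhds (mul_pos n0 m0)))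
  refine ((fin.insert 1).image e).subset ?_
  rintro γ ⟨_, ⟨z, hz, rfl⟩, hw⟩
  obtain ⟨g, rfl⟩ := e.surjective γ
  refine ⟨g, ?_, rfl⟩
  by_cases g1 : g = 1
  · exact Or.inl g1
  refine Or.inr (not_lt.2 ?_)
  have a := S.ht_le (inv_ne_one.2 g1) z
  have b := hn _ hw
  simp only [Subgroup.smul_def, he] at b
  rw [SchottkyData.ht, inv_inv, S.τ_inv, le_div_iff₀ z.im_pos] at a
  exact (mul_le_mul b (hm z hz) m0.le (UpperHalfPlane.im_pos _).le).trans a

theorem SchottkyData.free (γ : S.group) (z : ℍ) (h : γ • z = z) : γ = 1 := by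
  have := S.proper
  obtain ⟨e, he⟩ := S.equiv
  obtain ⟨g, rfl⟩ := e.surjective γ
  by_contra hg
  have g1 : g ≠ 1 := fun e1 => hg (Subtype.ext (by simp [he, e1]))
  have inj := injective_pow_iff_not_isOfFinOrder.2 (not_isOfFinOrder_of_isMulTorsionFree g1)
  refine infinite_of_injective_forall_mem (e.injective.comp inj) (fun n => ?_)
    (ProperlyDiscontinuousSMul.finite_stabilizer' S.group z)
  rw [Subgroup.smul_def, he] at h
  simp only [Function.comp, mem_ofPred_eq, Subgroup.smul_def, he, map_pow]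
  exact MulAction.mem_stabilizer_iff.1 (Subgroup.pow_mem _ (MulAction.mem_stabilizer_iff.2 h) n)

end Pool.Agent.Lib.MP_e1e19a_an
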