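import Pool.Agent.Lib.MP_e1e19a_an.N.T2x

/-!
The kernel on a cluster of poles is close to an exponential in the variable `2 / (x - q₀)`.
-/

namespace Pool.Agent.Lib.MP_e1e19a_an

open Real MeasureTheory Set
open scoped ComplexConjugate

namespace T2

lemma mob_bounds {A B δ D q₀ : ℝ} (hδ : 0 < δ)
    (hq : ∀ x ∈ Icc A B, δ ≤ |x - q₀| ∧ |x - q₀| ≤ D) {x x' : ℝ} (hx : x ∈ Icc A B)
    (hx' : x' ∈ Icc A B) (h : x ≤ x') :
    2 * (x' - x) / D ^ 2 ≤ 2 / (x - q₀) - 2 / (x' - q₀) ∧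
      2 / (x - q₀) - 2 / (x' - q₀) ≤ 2 * (x' - x) / δ ^ 2 := by
  have hn : q₀ ∉ Icc A B := fun hm => by
    have := (hq q₀ hm).1
    simp at this
    linarith
  have hP : (x - q₀) * (x' - q₀) = |x - q₀| * |x' - q₀| := by
    rw [← abs_mul, abs_of_nonneg]
    rcases lt_or_ge q₀ A with h1 | h1
    · exact mul_nonneg (by linarith [hx.1]) (by linarith [hx'.1])
    · have h2 : B < q₀ := lt_of_not_ge fun h2 => hn ⟨h1, h2⟩
      exact mul_nonneg_of_nonpos_of_nonpos (by linarith [hx.2]) (by linarith [hx'.2])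
  have a1 := hq x hx
  have a2 := hq x' hx'
  have n1 : x - q₀ ≠ 0 := abs_pos.1 (hδ.trans_le a1.1)
  have n2 : x' - q₀ ≠ 0 := abs_pos.1 (hδ.trans_le a2.1)
  have e : 2 / (x - q₀) - 2 / (x' - q₀) = 2 * (x' - x) / ((x - q₀) * (x' - q₀)) := by
    field_simp
    ring
  have l1 : δ ^ 2 ≤ |x - q₀| * |x' - q₀| := by
    rw [sq]
    exact mul_le_mul a1.1 a2.1 hδ.le (abs_nonneg _)
  have l2 : |x - q₀| * |x' - q₀| ≤ D ^ 2 := by
    rw [sq]
    exact mul_le_mul a1.2 a2.2 (abs_nonneg _) ((abs_nonneg _).trans a1.2)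
  have hd : 0 ≤ 2 * (x' - x) := by linarith
  have hδ2 : 0 < δ ^ 2 := by positivity
  rw [e, hP]
  exact ⟨div_le_div_of_nonneg_left hd (hδ2.trans_le l1) l2, div_le_div_of_nonneg_left hd hδ2 l1⟩

lemma porous_img {X : Set ℝ} {a b δ D ν ν' lo ε₀ q₀ : ℝ} (hδ : δ ∈ Ioc (0 : ℝ) 1) (hν : 0 < ν)
    (hX : X ⊆ Icc a b) (hP : Porous X ν lo 1)
    (hq : ∀ x ∈ Icc (a - δ) (b + δ), δ ≤ |x - q₀| ∧ |x - q₀| ≤ D) (hlo : lo ≤ δ ^ 2 / 6 * ε₀)
    (hε : 0 < ε₀) (h1 : ν' ≤ 1 / 3) (h2 : ν' ≤ ν * δ ^ 2 / (3 * D ^ 2)) :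
    Porous ((fun x => 2 / (x - q₀)) '' X) ν' ε₀ 1 := by
  intro u ℓ hl hl1
  have hℓ : 0 < ℓ := hε.trans_le hl
  have hδ0 := hδ.1
  have hδ2 : 0 < δ ^ 2 := by positivity
  have hδ3 : δ ^ 2 ≤ δ := by nlinarith [hδ.2]
  have hn := mul_le_mul_of_nonneg_right h1 hℓ.le
  have hXI : ∀ x ∈ X, x ∈ Icc (a - δ) (b + δ) := fun x hx =>
    ⟨by linarith [(hX hx).1], by linarith [(hX hx).2]⟩
  by_cases hm : ∃ x₀ ∈ X, u + ℓ / 3 ≤ 2 / (x₀ - q₀) ∧ 2 / (x₀ - q₀) ≤ u + 2 * ℓ / 3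
  · obtain ⟨x₀, hx₀, m1, m2⟩ := hm
    have k1 : δ ^ 2 / 6 * ℓ ≤ δ := by nlinarith
    obtain ⟨y₀, b1, b2, b3⟩ := hP x₀ (δ ^ 2 / 6 * ℓ)
      (hlo.trans (mul_le_mul_of_nonneg_left hl (by positivity))) (k1.trans hδ.2)
    have hpos : 0 < ν * (δ ^ 2 / 6 * ℓ) := by positivity
    set y₁ := y₀ + ν * (δ ^ 2 / 6 * ℓ) with hy₁
    have i0 := hXI x₀ hx₀
    have i1 : y₀ ∈ Icc (a - δ) (b + δ) := ⟨by linarith [i0.1], by linarith [(hX hx₀).2]⟩
    have i2 : y₁ ∈ Icc (a - δ) (b + δ) := ⟨by linarith [i0.1], by linarith [(hX hx₀).2]⟩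
    have hD : 0 < D := hδ0.trans_le ((hq x₀ i0).1.trans (hq x₀ i0).2)
    have c1 := (mob_bounds hδ0 hq i0 i2 (by linarith)).2
    have c2 := (mob_bounds hδ0 hq i1 i2 (by linarith)).1
    have c3 := (mob_bounds hδ0 hq i0 i1 b1).1
    have c4 : 2 * (y₁ - x₀) / δ ^ 2 ≤ ℓ / 3 := by
      rw [div_le_iff₀ hδ2]
      linarith
    have c5 : ν' * ℓ ≤ 2 * (y₁ - y₀) / D ^ 2 := by
      refine (mul_le_mul_of_nonneg_right h2 hℓ.le).trans_eq ?_
      rw [hy₁]
      field_simp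
      ring
    have c6 : 0 ≤ 2 * (y₀ - x₀) / D ^ 2 := div_nonneg (by linarith) (by positivity)
    refine ⟨2 / (y₁ - q₀), by linarith, by linarith, ?_⟩
    rintro _ ⟨t, ht, rfl⟩ hm
    have it := hXI t ht
    refine b3 t ht ⟨le_of_not_gt fun hlt => ?_, le_of_not_gt fun hlt => ?_⟩
    · have d1 := (mob_bounds hδ0 hq it i1 hlt.le).1
      have d2 : 0 < 2 * (y₀ - t) / D ^ 2 := div_pos (by linarith) (by positivity)
      have := hm.2
      simp only at this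
      linarith
    · have d1 := (mob_bounds hδ0 hq i2 it hlt.le).1
      have d2 : 0 < 2 * (t - y₁) / D ^ 2 := div_pos (by linarith) (by positivity)
      have := hm.1
      simp only at this
      linarith
  · refine ⟨u + ℓ / 3, by linarith, by linarith, ?_⟩
    rintro _ ⟨t, ht, rfl⟩ h
    exact hm ⟨t, ht, h.1, by linarith [h.2]⟩

lemma thick_sub {X : Set ℝ} {a b δ r : ℝ} (hX : X ⊆ Icc a b) (hr : r ≤ δ) :
    Metric.thickening r X ⊆ Icc (a - δ) (b + δ) := by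
  intro x hx
  obtain ⟨y, hy, hd⟩ := Metric.mem_thickening_iff.1 hx
  rw [Real.dist_eq, abs_lt] at hd
  exact ⟨by linarith [(hX hy).1], by linarith [(hX hy).2]⟩

lemma mob_cont {A B δ D q₀ : ℝ} (hδ : 0 < δ)
    (hq : ∀ x ∈ Icc A B, δ ≤ |x - q₀| ∧ |x - q₀| ≤ D) :
    ContinuousOn (fun x : ℝ => 2 / (x - q₀)) (Icc A B) :=
  continuousOn_const.div (by fun_prop) fun x hx => abs_pos.1 (hδ.trans_le (hq x hx).1)

lemma change_var {X : Set ℝ} {a b δ D r ε₀ q₀ : ℝ} (hδ : 0 < δ) (hD : 0 < D) (hX : X ⊆ Icc a b)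
    (hq : ∀ x ∈ Icc (a - δ) (b + δ), δ ≤ |x - q₀| ∧ |x - q₀| ≤ D) (hr : r ≤ δ)
    (hε : 2 * r ≤ ε₀ * δ ^ 2) {G : ℝ → ℝ} (hG : Continuous G) (hG0 : ∀ v, 0 ≤ G v) :
    ∫ x in Metric.thickening r X, G (2 / (x - q₀)) ≤
      D ^ 2 / 2 * ∫ v in Metric.thickening ε₀ ((fun x => 2 / (x - q₀)) '' X), G v := by
  have hS := thick_sub hX hr
  have hm : MeasurableSet (Metric.thickening r X) := Metric.isOpen_thickening.measurableSet
  have hne : ∀ x ∈ Icc (a - δ) (b + δ), x - q₀ ≠ 0 := fun x hx =>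
    abs_pos.1 (hδ.trans_le (hq x hx).1)
  have hXI : ∀ x ∈ X, x ∈ Icc (a - δ) (b + δ) := fun x hx =>
    ⟨by linarith [(hX hx).1], by linarith [(hX hx).2]⟩
  have hder : ∀ x ∈ Metric.thickening r X, HasDerivWithinAt (fun x : ℝ => 2 / (x - q₀))
      (-2 / (x - q₀) ^ 2) (Metric.thickening r X) x := fun x hx => by
    have h := ((hasDerivAt_const x (2 : ℝ)).fun_div ((hasDerivAt_id' x).sub_const q₀)
      (hne x (hS hx))).hasDerivWithinAt (s := Metric.thickening r X)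
    refine h.congr_deriv ?_
    simp
  have hinj : InjOn (fun x : ℝ => 2 / (x - q₀)) (Metric.thickening r X) := fun x hx y hy h => by
    have h' : 2 / (x - q₀) = 2 / (y - q₀) := h
    rw [div_eq_div_iff (hne x (hS hx)) (hne y (hS hy))] at h'
    linarith
  have h1 := integral_image_eq_integral_abs_deriv_smul hm hder hinj G
  have hsub : (fun x : ℝ => 2 / (x - q₀)) '' Metric.thickening r X ⊆
      Metric.thickening ε₀ ((fun x => 2 / (x - q₀)) '' X) := by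
    rintro _ ⟨x, hx, rfl⟩
    obtain ⟨y, hy, hd⟩ := Metric.mem_thickening_iff.1 hx
    refine Metric.mem_thickening_iff.2 ⟨_, mem_image_of_mem _ hy, ?_⟩
    rw [Real.dist_eq, abs_lt] at hd ⊢
    have hδ2 : 0 < δ ^ 2 := by positivity
    have hD2 : 0 < D ^ 2 := by positivity
    have hε0 : 0 < ε₀ := by
      by_contra hc
      have := mul_nonpos_of_nonpos_of_nonneg (not_lt.1 hc) hδ2.le
      linarith [hd.1, hd.2]
    rcases le_total x y with h | h
    · obtain ⟨c1, c2⟩ := mob_bounds hδ hq (hS hx) (hXI y hy) h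
      have c3 : 0 ≤ 2 * (y - x) / D ^ 2 := div_nonneg (by linarith) hD2.le
      have c4 : 2 * (y - x) / δ ^ 2 < ε₀ := by
        rw [div_lt_iff₀ hδ2]
        linarith [hd.1]
      constructor <;> simp only <;> linarith
    · obtain ⟨c1, c2⟩ := mob_bounds hδ hq (hXI y hy) (hS hx) h
      have c3 : 0 ≤ 2 * (x - y) / D ^ 2 := div_nonneg (by linarith) hD2.le
      have c4 : 2 * (x - y) / δ ^ 2 < ε₀ := by
        rw [div_lt_iff₀ hδ2]
        linarith [hd.2]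
      constructor <;> simp only <;> linarith
  have hbd : Bornology.IsBounded (Metric.thickening ε₀ ((fun x => 2 / (x - q₀)) '' X)) := by
    refine Bornology.IsBounded.thickening ?_
    exact ((isCompact_Icc.image_of_continuousOn (mob_cont hδ hq)).isBounded).subset
      (image_mono fun x hx => hXI x hx)
  have hint : IntegrableOn G (Metric.thickening ε₀ ((fun x => 2 / (x - q₀)) '' X)) :=
    (hG.continuousOn.integrableOn_compact hbd.isCompact_closure).mono_set subset_closure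
  have h2 : ∫ v in (fun x : ℝ => 2 / (x - q₀)) '' Metric.thickening r X, G v ≤
      ∫ v in Metric.thickening ε₀ ((fun x => 2 / (x - q₀)) '' X), G v :=
    setIntegral_mono_set hint (Filter.Eventually.of_forall hG0) hsub.eventuallyLE
  have hc1 : ContinuousOn (fun x => G (2 / (x - q₀))) (Icc (a - δ) (b + δ)) :=
    hG.comp_continuousOn (mob_cont hδ hq)
  have hc2 : ContinuousOn (fun x => |-2 / (x - q₀) ^ 2| • G (2 / (x - q₀)))
      (Icc (a - δ) (b + δ)) :=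
    (continuousOn_const.div (by fun_prop) fun x hx => pow_ne_zero 2 (hne x hx)).abs.smul hc1
  refine le_trans ?_ (mul_le_mul_of_nonneg_left (h1.symm.le.trans h2) (by positivity))
  rw [← integral_const_mul]
  refine setIntegral_mono_on (hc1.integrableOn_Icc.mono_set hS)
    ((continuousOn_const.mul hc2).integrableOn_Icc.mono_set hS) hm fun x hx => ?_
  have a1 := hq x (hS hx)
  have hp : 0 < (x - q₀) ^ 2 := by
    have := hne x (hS hx)
    positivity
  have a2 : (x - q₀) ^ 2 ≤ D ^ 2 := by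
    rw [← sq_abs]
    exact pow_le_pow_left₀ (abs_nonneg _) a1.2 2
  have a3 : 1 ≤ D ^ 2 / 2 * |-2 / (x - q₀) ^ 2| := by
    rw [abs_div, abs_of_pos hp]
    have : D ^ 2 / 2 * (|(-2 : ℝ)| / (x - q₀) ^ 2) = D ^ 2 / (x - q₀) ^ 2 := by
      rw [abs_neg, abs_two]
      field_simp
    rw [this]
    exact (one_le_div hp).2 a2
  rw [smul_eq_mul, ← mul_assoc]
  exact le_mul_of_one_le_left (hG0 _) a3

lemma log_mul_pos {x y : ℂ} (hx : 0 < x.re) (hy : 0 < y.re) :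
    Complex.log (x * y) = Complex.log x + Complex.log y := by
  have h1 := abs_lt.1 (Complex.abs_arg_lt_pi_div_two_iff.2 (Or.inl hx))
  have h2 := abs_lt.1 (Complex.abs_arg_lt_pi_div_two_iff.2 (Or.inl hy))
  refine Complex.log_mul (fun h => by simp [h] at hx) (fun h => by simp [h] at hy)
    ⟨by linarith [h1.1, h2.1], by linarith [h1.2, h2.2]⟩

lemma ek_factor (s : ℂ) {q q₀ : ℝ} {z u : ℂ} (hw : |(z - q₀).im| < |(z - q₀).re|)
    (hu : ‖u‖ ≤ 1 / 4) (e : z - q = (z - q₀) * (1 - u)) :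
    ek s q z = ek s q₀ z * Complex.exp (-2 * s * Complex.log (1 - u)) := by
  have a1 := abs_le.1 ((Complex.abs_re_le_norm u).trans hu)
  have a2 := abs_le.1 ((Complex.abs_im_le_norm u).trans hu)
  have b1 : 0 < (1 - u).re := by
    simp only [Complex.sub_re, Complex.one_re]
    linarith [a1.2]
  have b2 : 0 < ((1 - u) * (1 - u)).re := by
    simp only [Complex.mul_re, Complex.sub_re, Complex.one_re, Complex.sub_im, Complex.one_im]
    nlinarith [a1.1, a1.2, a2.1, a2.2]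
  have b3 : 0 < ((z - q₀) ^ 2).re := by
    rw [sq, Complex.mul_re]
    have := sq_lt_sq.2 hw
    nlinarith
  have e2 : (z - q) ^ 2 = (z - q₀) ^ 2 * ((1 - u) * (1 - u)) := by
    rw [e]
    ring
  unfold ek
  rw [e2, log_mul_pos b3 b2, log_mul_pos b1 b1, ← Complex.exp_add]
  congr 1
  ring

lemma ek_approx {δ T h t x q q₀ : ℝ} {s : ℂ} (hδ : δ ∈ Ioc (0 : ℝ) 1) (hT : 1 ≤ T) (hh : 0 < h)
    (hs0 : 0 ≤ s.re) (hs3 : s.re ≤ 3) (hs : |s.im - 1 / h| ≤ 1) (ht : |t| ≤ 2)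
    (hx : δ ≤ |x - q₀|) (hq : |q - q₀| ≤ T * h) (hsm : 22 * T ^ 2 * h ≤ δ ^ 2) :
    ‖ek s q (x + h * t * Complex.I) - ek s q₀ (x + h * t * Complex.I) *
      Complex.exp (Complex.I * (((q - q₀) / h : ℝ) * ((2 / (x - q₀) : ℝ) : ℂ)))‖ ≤
      ‖ek s q₀ (x + h * t * Complex.I)‖ * (44 * T ^ 2 * h / δ ^ 2) := by
  have hδ0 := hδ.1
  have hδ1 := hδ.2
  have hδ2 : 0 < δ ^ 2 := by positivity
  have hδ3 : δ ^ 2 ≤ δ := by nlinarith
  have hT2 : T ≤ T ^ 2 := by nlinarith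
  have hTh : T * h ≤ T ^ 2 * h := mul_le_mul_of_nonneg_right hT2 hh.le
  have hh1 : h ≤ T * h := le_mul_of_one_le_left hh.le hT
  set z : ℂ := x + h * t * Complex.I with hz
  set w : ℂ := z - q₀ with hw
  have wre : w.re = x - q₀ := by simp [hw, hz]
  have wim : w.im = h * t := by simp [hw, hz]
  have hwn : δ ≤ ‖w‖ := hx.trans (wre ▸ Complex.abs_re_le_norm w)
  have hw0 : w ≠ 0 := norm_pos_iff.1 (hδ0.trans_le hwn)
  have hx0 : x - q₀ ≠ 0 := abs_pos.1 (hδ0.trans_le hx)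
  have hx0' : ((x - q₀ : ℝ) : ℂ) ≠ 0 := Complex.ofReal_ne_zero.2 hx0
  have hht : |h * t| ≤ 2 * h := by
    rw [abs_mul, abs_of_pos hh]
    nlinarith
  set u : ℂ := ((q - q₀ : ℝ) : ℂ) / w with hu
  have hun : ‖u‖ ≤ T * h / δ := by
    rw [hu, norm_div, Complex.norm_real, Real.norm_eq_abs]
    exact div_le_div₀ (by positivity) hq hδ0 hwn
  have hv : T * h / δ ≤ 1 / 4 := by
    rw [div_le_iff₀ hδ0]
    linarith
  have hu4 : ‖u‖ ≤ 1 / 4 := hun.trans hv
  have hfac := ek_factor s (q := q) (q₀ := q₀) (z := z) (u := u)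
    (by rw [← hw, wre, wim]; linarith) hu4 (by
      rw [← hw, hu, mul_sub, mul_one, mul_div_cancel₀ _ hw0, hw]
      push_cast
      ring)
  set ρ : ℂ := Complex.log (1 - u) + u with hρ
  have hρn : ‖ρ‖ ≤ (T * h / δ) ^ 2 := by
    have h1 := Complex.norm_log_one_add_sub_self_le (z := -u) (by rw [norm_neg]; linarith)
    rw [norm_neg, sub_neg_eq_add, ← sub_eq_add_neg] at h1
    refine h1.trans ?_
    have h2 : (1 - ‖u‖)⁻¹ ≤ 2 := by
      rw [inv_le_comm₀ (by linarith) (by norm_num)]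
      linarith
    have h3 : ‖u‖ ^ 2 ≤ (T * h / δ) ^ 2 := pow_le_pow_left₀ (norm_nonneg _) hun 2
    have h4 := mul_le_mul h3 h2 (inv_nonneg.2 (by linarith)) (by positivity)
    linarith
  set s' : ℂ := s - Complex.I / h with hs'
  have hs'n : ‖s'‖ ≤ 4 := by
    refine (Complex.norm_le_abs_re_add_abs_im s').trans ?_
    have r1 : s'.re = s.re := by simp [hs']
    have r2 : s'.im = s.im - 1 / h := by simp [hs']
    rw [r1, r2, abs_of_nonneg hs0]
    linarith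
  have hsn : ‖s‖ ≤ 5 / h := by
    have : s = s' + Complex.I / h := by simp [hs']
    rw [this]
    refine (norm_add_le _ _).trans ?_
    rw [norm_div, Complex.norm_I, Complex.norm_real, Real.norm_of_nonneg hh.le]
    have h4 : 4 ≤ 4 / h := by
      rw [le_div_iff₀ hh]
      linarith
    have : 5 / h = 4 / h + 1 / h := by ring
    linarith
  set Y : ℂ := Complex.I * (((q - q₀) / h : ℝ) * ((2 / (x - q₀) : ℝ) : ℂ)) with hY
  set E : ℂ := -2 * s * Complex.log (1 - u) - Y with hE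
  have hh' : (h : ℂ) ≠ 0 := Complex.ofReal_ne_zero.2 hh.ne'
  have hEeq : E = 2 * s' * u - 2 * s * ρ + 2 * t * u / ((x - q₀ : ℝ) : ℂ) := by
    have hwx : w = ((x - q₀ : ℝ) : ℂ) + h * t * Complex.I := by
      rw [hw, hz]
      push_cast
      ring
    have hd : ((q - q₀ : ℝ) : ℂ) = u * (((x - q₀ : ℝ) : ℂ) + h * t * Complex.I) := by
      rw [← hwx, hu, div_mul_cancel₀ _ hw0]
    rw [hE, hY, hρ, hs', Complex.ofReal_div, Complex.ofReal_div, hd]
    have hI : Complex.I * Complex.I = -1 := Complex.I_mul_I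
    field_simp
    push_cast
    linear_combination (-2 * u * h * t) * hI
  have hEn : ‖E‖ ≤ 22 * T ^ 2 * h / δ ^ 2 := by
    have n1 : ‖2 * s' * u‖ ≤ 8 * (T * h / δ) := by
      rw [norm_mul, norm_mul, Complex.norm_two]
      have := mul_le_mul hs'n hun (norm_nonneg _) (by norm_num)
      linarith
    have n2 : ‖2 * s * ρ‖ ≤ 10 * T ^ 2 * h / δ ^ 2 := by
      rw [norm_mul, norm_mul, Complex.norm_two]
      have h1 := mul_le_mul hsn hρn (norm_nonneg _) (by positivity)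
      have h2 : 5 / h * (T * h / δ) ^ 2 = 5 * T ^ 2 * h / δ ^ 2 := by field_simp
      have h3 : 10 * T ^ 2 * h / δ ^ 2 = 2 * (5 * T ^ 2 * h / δ ^ 2) := by ring
      rw [h2] at h1
      rw [h3, mul_assoc]
      linarith
    have n3 : ‖2 * t * u / ((x - q₀ : ℝ) : ℂ)‖ ≤ 4 * (T * h / δ) / δ := by
      rw [norm_div, norm_mul, norm_mul, Complex.norm_two, Complex.norm_real, Complex.norm_real,
        Real.norm_eq_abs, Real.norm_eq_abs]
      refine div_le_div₀ (by positivity) ?_ hδ0 hx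
      have := mul_le_mul ht hun (norm_nonneg _) (by norm_num)
      linarith
    have n4 : T * h / δ ≤ T ^ 2 * h / δ ^ 2 := div_le_div₀ (by positivity) hTh hδ2 hδ3
    have n5 : 4 * (T * h / δ) / δ ≤ 4 * (T ^ 2 * h / δ ^ 2) := by
      have : 4 * (T * h / δ) / δ = 4 * (T * h / δ ^ 2) := by field_simp
      rw [this]
      exact mul_le_mul_of_nonneg_left (div_le_div_of_nonneg_right hTh hδ2.le) (by norm_num)
    have n6 : 22 * T ^ 2 * h / δ ^ 2 =
        8 * (T ^ 2 * h / δ ^ 2) + 10 * T ^ 2 * h / δ ^ 2 + 4 * (T ^ 2 * h / δ ^ 2) := by ring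
    rw [hEeq, n6]
    refine (norm_add_le _ _).trans (add_le_add ((norm_sub_le _ _).trans ?_) (n3.trans n5))
    linarith
  have hE1 : ‖E‖ ≤ 1 := hEn.trans ((div_le_one hδ2).2 hsm)
  have hYn : ‖Complex.exp Y‖ = 1 := by
    rw [hY, ← Complex.ofReal_mul, mul_comm, Complex.norm_exp_ofReal_mul_I]
  have e3 : ek s q z - ek s q₀ z * Complex.exp Y =
      ek s q₀ z * (Complex.exp Y * (Complex.exp E - 1)) := by
    rw [hfac, mul_sub (Complex.exp Y), ← Complex.exp_add, hE, add_sub_cancel]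
    ring
  rw [e3, norm_mul, norm_mul, hYn, one_mul]
  refine mul_le_mul_of_nonneg_left ((Complex.norm_exp_sub_one_le hE1).trans ?_) (norm_nonneg _)
  have : 44 * T ^ 2 * h / δ ^ 2 = 2 * (22 * T ^ 2 * h / δ ^ 2) := by ring
  linarith

end T2

end Pool.Agent.Lib.MP_e1e19a_an
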