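import Pool.Agent.Lib.MP_e1e19a_an.N.T1b
import Pool.Agent.Lib.MP_e1e19a_an.N.F5b
import Pool.Agent.Lib.MP_e1e19a_an.N.T2y

/-!
The large sieve with a fractal gain.
-/

namespace Pool.Agent.Lib.MP_e1e19a_an

open Real MeasureTheory Set
open scoped MatrixGroups ComplexConjugate UpperHalfPlane

namespace T2

lemma dist_out {a b δ q : ℝ} (hab : a ≤ b) (hδ : 0 < δ) (hq : ∀ x ∈ Icc a b, 2 * δ ≤ |x - q|) :
    ∀ x ∈ Icc (a - δ) (b + δ), δ ≤ |x - q| := by
  intro x hx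
  have key : ∀ y ∈ Icc a b, |y - x| ≤ δ → δ ≤ |x - q| := fun y hy h => by
    have h1 := hq y hy
    have h2 := abs_sub_le y x q
    linarith
  rcases le_total x a with h | h
  · exact key a (left_mem_Icc.2 hab) (abs_le.2 ⟨by linarith, by linarith [hx.1]⟩)
  · rcases le_total x b with h' | h'
    · exact key x ⟨h, h'⟩ (by simpa using hδ.le)
    · exact key b (right_mem_Icc.2 hab) (abs_le.2 ⟨by linarith [hx.2], by linarith⟩)

lemma im_le {h t : ℝ} (hh : 0 < h) (ht : |t| ≤ 2) (x : ℝ) :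
    |((x : ℂ) + h * t * Complex.I).im| ≤ 2 * h := by
  have : ((x : ℂ) + h * t * Complex.I).im = h * t := by simp
  rw [this, abs_mul, abs_of_pos hh]
  nlinarith

lemma ek_cont (s : ℂ) {I : Set ℝ} {δ h t q : ℝ} (hh : 0 < h) (hhδ : 2 * h < δ) (ht : |t| ≤ 2)
    (hq : ∀ x ∈ I, δ ≤ |x - q|) :
    ContinuousOn (fun x : ℝ => ek s q (x + h * t * Complex.I)) I := by
  intro x hx
  have h1 : DifferentiableAt ℂ (ek s q) (x + h * t * Complex.I) := by
    refine ek_diff s q ((im_le hh ht x).trans_lt (hhδ.trans_le ?_))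
    simpa using hq x hx
  have h2 : Continuous fun x : ℝ => (x : ℂ) + h * t * Complex.I := by fun_prop
  exact (ContinuousAt.comp (f := fun x : ℝ => (x : ℂ) + h * t * Complex.I) h1.continuousAt
    h2.continuousAt).continuousWithinAt

lemma cluster {δ T h t a b D r ε₀ Ce M Nc q₀ : ℝ} {s : ℂ} {X : Set ℝ} {κ : Type} [Fintype κ]
    {q : κ → ℝ} (c : κ → ℂ) (hδ : δ ∈ Ioc (0 : ℝ) 1) (hT : 1 ≤ T) (hh : 0 < h)
    (hs0 : 0 ≤ s.re) (hs3 : s.re ≤ 3) (hs : |s.im - 1 / h| ≤ 1) (ht : |t| ≤ 2) (hab : a ≤ b)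
    (hX : X ⊆ Icc a b) (hD : 0 < D)
    (hq₀ : ∀ x ∈ Icc (a - δ) (b + δ), δ ≤ |x - q₀| ∧ |x - q₀| ≤ D)
    (hq : ∀ i, |q i - q₀| ≤ T * h) (hsm : 22 * T ^ 2 * h ≤ δ ^ 2)
    (hcont : ∀ i, ContinuousOn (fun x : ℝ => ek s (q i) (x + h * t * Complex.I))
      (Icc (a - δ) (b + δ)))
    (hCe : ∀ x ∈ Icc (a - δ) (b + δ), ‖ek s q₀ (x + h * t * Complex.I)‖ ≤ Ce) (hr : r ≤ δ)
    (hε : 2 * r ≤ ε₀ * δ ^ 2) (hcard : (Fintype.card κ : ℝ) ≤ Nc)
    (hM : ∫ v in Metric.thickening ε₀ ((fun x => 2 / (x - q₀)) '' X),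
      ‖∑ i, c i * Complex.exp (Complex.I * (((q i - q₀) / h : ℝ) * v))‖ ^ 2
        ≤ M * ∑ i, ‖c i‖ ^ 2) :
    ∫ x in Metric.thickening r X, ‖∑ i, c i * ek s (q i) (x + h * t * Complex.I)‖ ^ 2 ≤
      (Ce ^ 2 * D ^ 2 * M + 2 * (Ce * (44 * T ^ 2 * h / δ ^ 2)) ^ 2 * Nc * (b - a + 2 * δ)) *
        ∑ i, ‖c i‖ ^ 2 := by
  have hδ0 := hδ.1
  set η := 44 * T ^ 2 * h / δ ^ 2 with hη
  have hη0 : 0 ≤ η := by positivity
  set G : ℝ → ℝ := fun v =>
    ‖∑ i, c i * Complex.exp (Complex.I * (((q i - q₀) / h : ℝ) * v))‖ ^ 2 with hG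
  have hGc : Continuous G := by
    simp only [hG]
    fun_prop
  have hG0 : ∀ v, 0 ≤ G v := fun v => by positivity
  set σ := ∑ i, ‖c i‖ ^ 2 with hσ
  have hσ0 : 0 ≤ σ := Finset.sum_nonneg fun i _ => by positivity
  have hN0 : 0 ≤ Nc := (Nat.cast_nonneg _).trans hcard
  have hS := thick_sub hX hr
  have hm : MeasurableSet (Metric.thickening r X) := Metric.isOpen_thickening.measurableSet
  have hpt : ∀ x ∈ Icc (a - δ) (b + δ),
      ‖∑ i, c i * ek s (q i) (x + h * t * Complex.I)‖ ^ 2 ≤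
        2 * Ce ^ 2 * G (2 / (x - q₀)) + 2 * (Ce * η) ^ 2 * Nc * σ := by
    intro x hx
    have hCe0 : 0 ≤ Ce := (norm_nonneg _).trans (hCe x hx)
    set e₀ := ek s q₀ (x + h * t * Complex.I) with he₀
    set P : ℂ := ∑ i, c i * Complex.exp (Complex.I * (((q i - q₀) / h : ℝ) *
      ((2 / (x - q₀) : ℝ) : ℂ))) with hP
    set R : ℂ := ∑ i, c i * (ek s (q i) (x + h * t * Complex.I) - e₀ *
      Complex.exp (Complex.I * (((q i - q₀) / h : ℝ) * ((2 / (x - q₀) : ℝ) : ℂ)))) with hR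
    have e1 : ∑ i, c i * ek s (q i) (x + h * t * Complex.I) = e₀ * P + R := by
      rw [hP, hR, Finset.mul_sum, ← Finset.sum_add_distrib]
      exact Finset.sum_congr rfl fun i _ => by ring
    have n1 : ‖e₀ * P‖ ≤ Ce * ‖P‖ := by
      rw [norm_mul]
      exact mul_le_mul_of_nonneg_right (hCe x hx) (norm_nonneg _)
    have n2 : ‖R‖ ≤ Ce * η * ∑ i, ‖c i‖ := by
      rw [Finset.mul_sum]
      refine (norm_sum_le _ _).trans (Finset.sum_le_sum fun i _ => ?_)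
      rw [norm_mul, mul_comm]
      refine mul_le_mul_of_nonneg_right ?_ (norm_nonneg _)
      exact (ek_approx hδ hT hh hs0 hs3 hs ht (hq₀ x hx).1 (hq i) hsm).trans
        (mul_le_mul_of_nonneg_right (hCe x hx) hη0)
    have n3 : (∑ i, ‖c i‖) ^ 2 ≤ Nc * σ :=
      sq_sum_le_card_mul_sum_sq.trans (mul_le_mul_of_nonneg_right hcard hσ0)
    have n4 : ‖R‖ ^ 2 ≤ (Ce * η) ^ 2 * (Nc * σ) := by
      refine (pow_le_pow_left₀ (norm_nonneg _) n2 2).trans ?_
      rw [mul_pow]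
      exact mul_le_mul_of_nonneg_left n3 (by positivity)
    have n5 : ‖e₀ * P‖ ^ 2 ≤ Ce ^ 2 * ‖P‖ ^ 2 := by
      rw [← mul_pow]
      exact pow_le_pow_left₀ (norm_nonneg _) n1 2
    have n6 : ‖e₀ * P + R‖ ^ 2 ≤ (‖e₀ * P‖ + ‖R‖) ^ 2 :=
      pow_le_pow_left₀ (norm_nonneg _) (norm_add_le _ _) 2
    have n7 : G (2 / (x - q₀)) = ‖P‖ ^ 2 := rfl
    rw [e1, n7]
    nlinarith only [n4, n5, n6, sq_nonneg (‖e₀ * P‖ - ‖R‖)]
  have hc1 : ContinuousOn (fun x => G (2 / (x - q₀))) (Icc (a - δ) (b + δ)) :=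
    hGc.comp_continuousOn (mob_cont hδ0 hq₀)
  have i1 : IntegrableOn (fun x => 2 * Ce ^ 2 * G (2 / (x - q₀))) (Metric.thickening r X) :=
    (continuousOn_const.mul hc1).integrableOn_Icc.mono_set hS
  have i2 : IntegrableOn (fun _ : ℝ => 2 * (Ce * η) ^ 2 * Nc * σ) (Metric.thickening r X) :=
    continuousOn_const.integrableOn_Icc.mono_set hS
  have h1 := setIntegral_mono_on ((cont_sq Finset.univ c hcont).integrableOn_Icc.mono_set hS)
    (i1.add i2) hm fun x hx => hpt x (hS hx)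
  refine h1.trans ?_
  simp only [Pi.add_apply]
  rw [integral_add i1 i2, integral_const_mul, setIntegral_const, smul_eq_mul]
  have h2 := (change_var hδ0 hD hX hq₀ hr hε hGc hG0).trans
    (mul_le_mul_of_nonneg_left hM (by positivity))
  have h3 : volume.real (Metric.thickening r X) ≤ b - a + 2 * δ := by
    refine (measureReal_mono hS measure_Icc_lt_top.ne).trans_eq ?_
    rw [Real.volume_real_Icc_of_le (by linarith)]
    ring
  have h4 := mul_le_mul_of_nonneg_left h2 (by positivity : 0 ≤ 2 * Ce ^ 2)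
  have h5 := mul_le_mul_of_nonneg_right h3 (by positivity : 0 ≤ 2 * (Ce * η) ^ 2 * Nc * σ)
  linarith only [h4, h5]

theorem half {δ ν Cp ε : ℝ} (hδ : δ ∈ Ioc (0 : ℝ) 1) (hν : 0 < ν) (hC : 0 < Cp)
    (hε : 0 < ε) (B : ℝ) : ∃ T, 1 ≤ T ∧ ∃ h₀ > 0, ∀ h ∈ Ioc 0 h₀, ∀ ϱ ∈ Ioc (0 : ℝ) 1, ∀ s : ℂ,
    0 ≤ s.re → s.re ≤ 3 → |s.im - 1 / h| ≤ 1 → ∀ t : ℝ, |t| ≤ 2 → ∀ a b : ℝ, -B ≤ a → a ≤ b →
    b ≤ B → ∀ X ⊆ Icc a b, Porous X ν (Cp * h) 1 → ∀ (ι : Type) [Fintype ι] (q : ι → ℝ),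
    (∀ i, |q i| ≤ B) → (∀ i, ∀ x ∈ Icc a b, 2 * δ ≤ |x - q i|) → Sep q (ϱ * h) →
    Porous (range q) ν (Cp * h) 1 → ∀ (c : ι → ℂ) (J : ι → ℤ),
    (∀ i j, J i = J j → |q i - q j| ≤ T * h) →
    (∀ i j, J i ≠ J j → c i ≠ 0 → c j ≠ 0 → T * h ≤ |q i - q j|) →
    ∫ x in Metric.thickening (3 * h) X, ‖∑ i, c i * ek s (q i) (x + h * t * Complex.I)‖ ^ 2
      ≤ ε / ϱ * ∑ i, ‖c i‖ ^ 2 := by
  have hδ0 := hδ.1
  have hδ1 := hδ.2
  have hδ2 : 0 < δ ^ 2 := by positivity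
  have hδ3 : δ ^ 2 ≤ δ := by nlinarith
  set D := 2 * |B| + 1 with hD
  have hD0 : 0 < D := by positivity
  obtain ⟨Ck, hCk, hk⟩ := kernel_bound (δ := δ / 2) ⟨by linarith, by linarith⟩ (|B| + 1)
  obtain ⟨Ce, hCe, he⟩ := ek_bound hδ D
  obtain ⟨Cs, hCs, hsch⟩ := schur
  set ν' := min (min ν (1 / 4)) (ν * δ ^ 2 / (3 * D ^ 2)) with hν'
  have hν'0 : 0 < ν' := lt_min (lt_min hν (by norm_num)) (by positivity)
  have hν'1 : ν' ≤ ν := (min_le_left _ _).trans (min_le_left _ _)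
  have hν'2 : ν' ≤ 1 / 4 := (min_le_left _ _).trans (min_le_right _ _)
  have hν'3 : ν' ≤ ν * δ ^ 2 / (3 * D ^ 2) := min_le_right _ _
  set ε' := ε / (3 * 648 * Ce ^ 2 * D ^ 2) with hε'
  obtain ⟨ε₀, hε₀, hf⟩ := fup hν'0 (show 0 < ε' by positivity) Cp (2 / δ)
  have hε₀0 := hε₀.1
  set e := δ ^ 2 * ε₀ / 6 with he'
  have he0 : 0 < e := by positivity
  have he1 : 3 * e ≤ δ := by
    have := mul_le_mul_of_nonneg_left hε₀.2 hδ2.le
    linarith
  set Kc := ((2 * |B| + 2) / e + 2) / e ^ 4 with hKc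
  have hKc0 : 0 < Kc := by positivity
  set T := max 1 (3 * (Kc * Ck * Cs) / ε) with hT
  have hT1 : 1 ≤ T := le_max_left _ _
  have hT0 : 0 < T := by linarith
  have hT2 : 3 * (Kc * Ck * Cs) / ε ≤ T := le_max_right _ _
  set W := 324 * (2 * (Ce * (44 * T ^ 2 / δ ^ 2)) ^ 2 * (3 * T) * (2 * |B| + 2)) with hW
  have hW0 : 0 < W := by positivity
  refine ⟨T, hT1, min (min (δ / 16) (e / 3)) (min (δ ^ 2 / (22 * T ^ 2))
    (min (e / Cp) (ε / (3 * W)))), by positivity, ?_⟩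
  intro h hh ϱ hϱ s hs0 hs3 hs t ht a b ha hab hb X hX hPX ι _ q hqB hq hsep hPq c J hJ1 hJ2
  classical
  have hh0 := hh.1
  have hϱ0 := hϱ.1
  have l1 : h ≤ δ / 16 := hh.2.trans ((min_le_left _ _).trans (min_le_left _ _))
  have l2 : h ≤ e / 3 := hh.2.trans ((min_le_left _ _).trans (min_le_right _ _))
  have l3 : 22 * T ^ 2 * h ≤ δ ^ 2 := by
    have := hh.2.trans ((min_le_right _ _).trans (min_le_left _ _))
    rw [le_div_iff₀ (by positivity)] at this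
    linarith
  have l4 : Cp * h ≤ δ ^ 2 / 6 * ε₀ := by
    have := hh.2.trans ((min_le_right _ _).trans ((min_le_right _ _).trans (min_le_left _ _)))
    rw [le_div_iff₀ hC] at this
    linarith
  have l5 : W * h ≤ ε / 3 := by
    have := hh.2.trans ((min_le_right _ _).trans ((min_le_right _ _).trans (min_le_right _ _)))
    rw [le_div_iff₀ (by positivity)] at this
    linarith
  have l6 : 8 * T ≤ 1 / h := by
    rw [le_div_iff₀ hh0]
    have : T * h ≤ T ^ 2 * h := mul_le_mul_of_nonneg_right (by nlinarith only [hT1]) hh0.le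
    have : 0 ≤ T ^ 2 * h := by positivity
    linarith
  have hB := le_abs_self B
  have hout : ∀ i, ∀ x ∈ Icc (a - δ) (b + δ), δ ≤ |x - q i| ∧ |x - q i| ≤ D := fun i x hx => by
    refine ⟨dist_out hab hδ0 (hq i) x hx, ?_⟩
    have := abs_le.1 (hqB i)
    exact abs_le.2 ⟨by linarith [hx.1], by linarith [hx.2]⟩
  have hcont : ∀ i, ContinuousOn (fun x : ℝ => ek s (q i) (x + h * t * Complex.I))
      (Icc (a - δ) (b + δ)) := fun i => ek_cont s hh0 (by linarith) ht fun x hx => (hout i x hx).1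
  have main := clusters J c (g := fun i (x : ℝ) => ek s (q i) (x + h * t * Complex.I)) he0
    (show a - δ ≤ b + δ by linarith) hcont (S := Metric.thickening (3 * h) X)
    (S' := Metric.thickening (3 * e) X) Metric.isOpen_thickening.measurableSet
    Metric.isOpen_thickening.measurableSet (thick_sub hX he1) (fun x hx y hy => by
      obtain ⟨z, hz, hd⟩ := Metric.mem_thickening_iff.1 hx
      refine Metric.mem_thickening_iff.2 ⟨z, hz, ?_⟩
      rw [Real.dist_eq] at hd ⊢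
      have := abs_sub_le y x z
      linarith)
    (k := fun i j => Ck / (1 + |q i - q j| / h) ^ 2) (fun i j => by positivity)
    (fun α β h1 h2 h3 i j => by
      have := hk h ⟨hh0, by linarith⟩ s hs0 hs3 hs t ht α β (by linarith) h2 (by linarith)
        (q i) (q j) ((hqB i).trans (by linarith)) ((hqB j).trans (by linarith))
        (fun x hx => by linarith [(hout i x ⟨h1.trans hx.1, hx.2.trans h3⟩).1])
        (fun x hx => by linarith [(hout j x ⟨h1.trans hx.1, hx.2.trans h3⟩).1])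
        (fun _ => 1) (fun _ => 1) (differentiableOn_const _) (differentiableOn_const _)
        (fun _ _ => norm_one.le) (fun _ _ => norm_one.le)
      simpa only [one_mul] using this)
  set σ := ∑ i, ‖c i‖ ^ 2 with hσ
  have hσ0 : 0 ≤ σ := Finset.sum_nonneg fun i _ => by positivity
  set Q := Ce ^ 2 * D ^ 2 * (ε' * (2 / ϱ)) + 2 * (Ce * (44 * T ^ 2 * h / δ ^ 2)) ^ 2 *
    (3 * T / ϱ) * (b - a + 2 * δ) with hQ
  have hcl : ∀ m ∈ Finset.univ.image J, ∫ x in Metric.thickening (3 * e) X,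
      ‖∑ i with J i = m, c i * ek s (q i) (x + h * t * Complex.I)‖ ^ 2 ≤
        Q * ∑ i with J i = m, ‖c i‖ ^ 2 := by
    intro m hm
    obtain ⟨i₀, -, hi₀⟩ := Finset.mem_image.1 hm
    have hsub : ∀ {M : Type} [AddCommMonoid M] (f : ι → M),
        ∑ i with J i = m, f i = ∑ i : {i // J i = m}, f i := fun f =>
      Finset.sum_subtype _ (fun i => by simp) f
    simp only [hsub]
    set y : {i // J i = m} → ℝ := fun i => (q i - q i₀) / h with hy
    have hyT : ∀ i, |y i| ≤ T := fun i => by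
      simp only [hy]
      rw [abs_div, abs_of_pos hh0, div_le_iff₀ hh0]
      exact hJ1 _ _ (i.2.trans hi₀.symm)
    have hys : Sep y ϱ := fun i j hij => by
      have := hsep i j fun h => hij (Subtype.ext h)
      simp only [hy]
      rw [← sub_div, sub_sub_sub_cancel_right, abs_div, abs_of_pos hh0, le_div_iff₀ hh0]
      exact this
    have hone : 1 ≤ 1 / ϱ := by
      rw [le_div_iff₀ hϱ0]
      linarith [hϱ.2]
    have hcard : (Fintype.card {i // J i = m} : ℝ) ≤ 3 * T / ϱ := by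
      have h1 := card_sep hϱ0 (show 0 ≤ 2 * T by linarith) hys (-T)
      rw [Finset.filter_true_of_mem fun i _ =>
        ⟨(abs_le.1 (hyT i)).1, by linarith [(abs_le.1 (hyT i)).2]⟩, Finset.card_univ] at h1
      have h2 : 1 / ϱ ≤ T / ϱ := div_le_div_of_nonneg_right hT1 hϱ0.le
      have h3 : 3 * T / ϱ = 2 * T / ϱ + T / ϱ := by ring
      linarith
    have hPy : Porous (range y) ν Cp (1 / h) := by
      have h1 := hPq.affine (show 0 < 1 / h by positivity) (-(q i₀ / h))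
      have h2 : 1 / h * (Cp * h) = Cp := by field_simp
      rw [h2, mul_one] at h1
      refine h1.mono ?_ hν.le le_rfl le_rfl le_rfl hC.le
      rintro _ ⟨i, rfl⟩
      refine ⟨q i, mem_range_self _, ?_⟩
      simp only [hy]
      ring
    refine cluster (q := fun i : {i // J i = m} => q i) (fun i => c i) hδ hT1 hh0 hs0 hs3 hs ht
      hab hX hD0 (hout i₀) (fun i => hJ1 _ _ (i.2.trans hi₀.symm)) l3 (fun i => hcont i)
      (fun x hx => he h ⟨hh0, by linarith⟩ s hs0 hs3 hs _ _ (by simpa using (hout i₀ x hx).1)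
        (by simpa using (hout i₀ x hx).2) (im_le hh0 ht x)) he1 (ε₀ := ε₀) (by linarith) hcard ?_
    refine hf _ ?_ (porous_img hδ hν hX hPX (hout i₀) l4 hε₀0 (by linarith) hν'3) _ y _ (2 / ϱ)
      (porous_all hPy (by rintro _ ⟨i, rfl⟩; exact hyT i) l6 hT0 hν'1 hν'2 hC.le) fun u => ?_
    · rintro _ ⟨x, hx, rfl⟩
      have h1 := (hout i₀ x ⟨by linarith [(hX hx).1], by linarith [(hX hx).2]⟩).1
      refine abs_le.1 ?_
      rw [abs_div, abs_two]
      exact div_le_div_of_nonneg_left (by norm_num) hδ0 h1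
    · have h1 := card_sep hϱ0 zero_le_one hys u
      have h3 : 2 / ϱ = 1 / ϱ + 1 / ϱ := by ring
      linarith
  have h1 := Finset.sum_le_sum hcl
  rw [← Finset.mul_sum, Finset.sum_fiberwise_of_maps_to
    (fun i hi => Finset.mem_image_of_mem J hi)] at h1
  have h2 : (∑ i, ∑ j, if J i = J j then 0 else
      ‖c i‖ * ‖c j‖ * (Ck / (1 + |q i - q j| / h) ^ 2)) ≤ Ck * (Cs / (ϱ * (1 + T)) * σ) := by
    refine le_trans ?_ (mul_le_mul_of_nonneg_left (hsch ι q h ϱ T hh0 hϱ hT0.le hsep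
      (fun i => ‖c i‖) fun i => norm_nonneg _) hCk.le)
    rw [Finset.mul_sum]
    refine Finset.sum_le_sum fun i _ => ?_
    rw [Finset.mul_sum]
    refine Finset.sum_le_sum fun j _ => ?_
    by_cases hij : J i = J j
    · rw [if_pos hij]
      split_ifs <;> positivity
    · rw [if_neg hij]
      by_cases hi : c i = 0
      · simp [hi]
      · by_cases hj : c j = 0
        · simp [hj]
        · rw [if_pos (hJ2 i j hij hi hj)]
          exact le_of_eq (by ring)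
  have h3 : ((b + δ - (a - δ)) / e + 2) / e ^ 4 ≤ Kc := by
    refine div_le_div_of_nonneg_right ?_ (by positivity)
    have : (b + δ - (a - δ)) / e ≤ (2 * |B| + 2) / e :=
      div_le_div_of_nonneg_right (by linarith) he0.le
    linarith
  have hF0 : 0 ≤ ∑ i, ∑ j, if J i = J j then 0 else
      ‖c i‖ * ‖c j‖ * (Ck / (1 + |q i - q j| / h) ^ 2) :=
    Finset.sum_nonneg fun i _ => Finset.sum_nonneg fun j _ => by split_ifs <;> positivity
  have h4 := mul_le_mul h3 h2 hF0 hKc0.le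
  have k1 : 324 * (Ce ^ 2 * D ^ 2 * (ε' * (2 / ϱ))) = ε / 3 / ϱ := by
    rw [hε']
    field_simp
    norm_num
  have k2 : 324 * (2 * (Ce * (44 * T ^ 2 * h / δ ^ 2)) ^ 2 * (3 * T / ϱ) * (b - a + 2 * δ)) ≤
      ε / 3 / ϱ := by
    have a1 : b - a + 2 * δ ≤ 2 * |B| + 2 := by linarith
    have a2 := mul_le_mul_of_nonneg_left a1
      (by positivity : 0 ≤ 324 * (2 * (Ce * (44 * T ^ 2 * h / δ ^ 2)) ^ 2 * (3 * T / ϱ)))
    have a3 : 324 * (2 * (Ce * (44 * T ^ 2 * h / δ ^ 2)) ^ 2 * (3 * T / ϱ)) * (2 * |B| + 2) =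
        W * h * h / ϱ := by
      rw [hW]
      ring
    have a4 : W * h * h ≤ ε / 3 := (mul_le_of_le_one_right (by positivity) (by linarith)).trans l5
    have a5 := div_le_div_of_nonneg_right a4 hϱ0.le
    linarith
  have k3 : Kc * (Ck * (Cs / (ϱ * (1 + T)))) ≤ ε / 3 / ϱ := by
    have a1 : Kc * (Ck * (Cs / (ϱ * (1 + T)))) = Kc * Ck * Cs / (1 + T) / ϱ := by field_simp
    rw [a1]
    refine div_le_div_of_nonneg_right ?_ hϱ0.le
    rw [div_le_iff₀ hε] at hT2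
    rw [div_le_iff₀ (by linarith only [hT0])]
    linarith only [hT2, hε]
  have k4 : 324 * Q + Kc * (Ck * (Cs / (ϱ * (1 + T)))) ≤ ε / ϱ := by
    have : ε / ϱ = ε / 3 / ϱ + ε / 3 / ϱ + ε / 3 / ϱ := by ring
    rw [hQ, mul_add, k1, this]
    linarith
  have k5 := mul_le_mul_of_nonneg_right k4 hσ0
  refine main.trans (le_trans ?_ k5)
  have e1 : Kc * (Ck * (Cs / (ϱ * (1 + T)) * σ)) = Kc * (Ck * (Cs / (ϱ * (1 + T)))) * σ := by ring
  rw [add_mul, ← e1]
  linarith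

end T2

theorem frac_sieve {δ ν Cp ε : ℝ} (hδ : δ ∈ Ioc (0 : ℝ) 1) (hν : 0 < ν) (hC : 0 < Cp)
    (hε : 0 < ε) (B : ℝ) : ∃ h₀ > 0, ∀ h ∈ Ioc 0 h₀, ∀ ϱ ∈ Ioc (0 : ℝ) 1, ∀ s : ℂ, 0 ≤ s.re →
    s.re ≤ 3 → |s.im - 1 / h| ≤ 1 → ∀ t : ℝ, |t| ≤ 2 → ∀ a b : ℝ, -B ≤ a → a ≤ b → b ≤ B →
    ∀ X ⊆ Icc a b, Porous X ν (Cp * h) 1 → ∀ (ι : Type) [Fintype ι] (q : ι → ℝ),
    (∀ i, |q i| ≤ B) → (∀ i, ∀ x ∈ Icc a b, 2 * δ ≤ |x - q i|) → Sep q (ϱ * h) →
    Porous (range q) ν (Cp * h) 1 → ∀ c : ι → ℂ,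
    ∫ x in Metric.thickening (3 * h) X, ‖∑ i, c i * ek s (q i) (x + h * t * Complex.I)‖ ^ 2
      ≤ ε / ϱ * ∑ i, ‖c i‖ ^ 2 := by
  have hδ0 := hδ.1
  obtain ⟨T, hT, h₀, hh₀, H⟩ := T2.half hδ hν hC (half_pos hε) B
  refine ⟨min h₀ (δ / 16), by positivity, ?_⟩
  intro h hh ϱ hϱ s hs0 hs3 hs t ht a b ha hab hb X hX hPX ι _ q hqB hq hsep hPq c
  have hh0 := hh.1
  have l1 : h ≤ δ / 16 := hh.2.trans (min_le_right _ _)
  have hTh : 0 < T * h := by positivity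
  set J : ι → ℤ := fun i => ⌊q i / (T * h)⌋ with hJ
  have hJ1 : ∀ i j, J i = J j → |q i - q j| ≤ T * h := fun i j hij => by
    have := Int.abs_sub_lt_one_of_floor_eq_floor hij
    rw [← sub_div, abs_div, abs_of_pos hTh, div_lt_one hTh] at this
    exact this.le
  have hJ3 : ∀ i j, J i + 2 ≤ J j → T * h ≤ q j - q i := fun i j hij => by
    have h1 : (J i : ℝ) + 2 ≤ J j := by exact_mod_cast hij
    have h2 : (J j : ℝ) * (T * h) ≤ q j := (le_div_iff₀ hTh).1 (Int.floor_le _)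
    have h3 : q i < (J i + 1 : ℝ) * (T * h) := (div_lt_iff₀ hTh).1 (Int.lt_floor_add_one _)
    linarith only [h2, h3, mul_le_mul_of_nonneg_right h1 hTh.le]
  have hJ2 : ∀ i j, J i ≠ J j → J i % 2 = J j % 2 → T * h ≤ |q i - q j| := fun i j hij hp => by
    rcases lt_or_gt_of_ne hij with h1 | h1
    · rw [abs_sub_comm]
      exact (hJ3 i j (by omega)).trans (le_abs_self _)
    · exact (hJ3 j i (by omega)).trans (le_abs_self _)
  set c₀ : ι → ℂ := fun i => if J i % 2 = 0 then c i else 0 with hc₀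
  set c₁ : ι → ℂ := fun i => if J i % 2 = 0 then 0 else c i with hc₁
  have H' := H h ⟨hh0, hh.2.trans (min_le_left _ _)⟩ ϱ hϱ s hs0 hs3 hs t ht a b ha hab hb X hX hPX
    ι q hqB hq hsep hPq
  have H₀ := H' c₀ J hJ1 fun i j hij hi hj => hJ2 i j hij (by
    have a1 : J i % 2 = 0 := by
      by_contra h1
      exact hi (if_neg h1)
    have a2 : J j % 2 = 0 := by
      by_contra h1
      exact hj (if_neg h1)
    omega)
  have H₁ := H' c₁ J hJ1 fun i j hij hi hj => hJ2 i j hij (by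
    have a1 : ¬ J i % 2 = 0 := fun h1 => hi (if_pos h1)
    have a2 : ¬ J j % 2 = 0 := fun h1 => hj (if_pos h1)
    omega)
  have hcont : ∀ i, ContinuousOn (fun x : ℝ => ek s (q i) (x + h * t * Complex.I))
      (Icc (a - δ) (b + δ)) := fun i =>
    T2.ek_cont s hh0 (by linarith) ht (T2.dist_out hab hδ0 (hq i))
  have hS : Metric.thickening (3 * h) X ⊆ Icc (a - δ) (b + δ) := T2.thick_sub hX (by linarith)
  have hint : ∀ d : ι → ℂ, IntegrableOn
      (fun x : ℝ => ‖∑ i, d i * ek s (q i) (x + h * t * Complex.I)‖ ^ 2)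
      (Metric.thickening (3 * h) X) := fun d =>
    (T2.cont_sq Finset.univ d hcont).integrableOn_Icc.mono_set hS
  have hsum : ∑ i, ‖c₀ i‖ ^ 2 + ∑ i, ‖c₁ i‖ ^ 2 = ∑ i, ‖c i‖ ^ 2 := by
    rw [← Finset.sum_add_distrib]
    refine Finset.sum_congr rfl fun i _ => ?_
    simp only [hc₀, hc₁]
    split_ifs <;> simp
  have h1 : ∫ x in Metric.thickening (3 * h) X,
      ‖∑ i, c i * ek s (q i) (x + h * t * Complex.I)‖ ^ 2 ≤ ∫ x in Metric.thickening (3 * h) X,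
      (2 * ‖∑ i, c₀ i * ek s (q i) (x + h * t * Complex.I)‖ ^ 2 +
        2 * ‖∑ i, c₁ i * ek s (q i) (x + h * t * Complex.I)‖ ^ 2) := by
    refine integral_mono (hint c) (((hint c₀).const_mul 2).add ((hint c₁).const_mul 2))
      fun x => ?_
    have e1 : ∑ i, c i * ek s (q i) (x + h * t * Complex.I) =
        ∑ i, c₀ i * ek s (q i) (x + h * t * Complex.I) +
          ∑ i, c₁ i * ek s (q i) (x + h * t * Complex.I) := by
      rw [← Finset.sum_add_distrib]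
      refine Finset.sum_congr rfl fun i _ => ?_
      simp only [hc₀, hc₁]
      split_ifs <;> simp
    simp only
    rw [e1]
    have n1 := pow_le_pow_left₀ (norm_nonneg _) (norm_add_le
      (∑ i, c₀ i * ek s (q i) (x + h * t * Complex.I))
      (∑ i, c₁ i * ek s (q i) (x + h * t * Complex.I))) 2
    nlinarith only [n1, sq_nonneg (‖∑ i, c₀ i * ek s (q i) (x + h * t * Complex.I)‖ -
      ‖∑ i, c₁ i * ek s (q i) (x + h * t * Complex.I)‖)]
  rw [integral_add ((hint c₀).const_mul 2) ((hint c₁).const_mul 2), integral_const_mul,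
    integral_const_mul] at h1
  have e2 : ε / ϱ * ∑ i, ‖c i‖ ^ 2 =
      2 * (ε / 2 / ϱ * ∑ i, ‖c₀ i‖ ^ 2) + 2 * (ε / 2 / ϱ * ∑ i, ‖c₁ i‖ ^ 2) := by
    rw [← hsum]
    ring
  linarith

end Pool.Agent.Lib.MP_e1e19a_an
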