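import Pool.Agent.Lib.MP_e1e19a_an.N.S2
import Pool.Agent.Lib.MP_e1e19a_an.N.T2
import Pool.Agent.Lib.MP_e1e19a_an.N.F3

/-!
The transfer operator is a contraction.
-/

namespace Pool.Agent.Lib.MP_e1e19a_an

open Real MeasureTheory Set
open scoped MatrixGroups ComplexConjugate UpperHalfPlane

namespace T4

theorem box {a b δ q : ℝ} (hab : a ≤ b) (hq : ∀ x ∈ Icc a b, 2 * δ ≤ |x - q|) {x : ℂ}
    (hx : x ∈ Box a b δ) : δ < |x.re - q| := by
  obtain ⟨h1, h2, h3⟩ := hx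
  have hδ : 0 < δ := (abs_nonneg _).trans_lt h3
  have key : ∀ y ∈ Icc a b, |x.re - y| < δ → δ < |x.re - q| := fun y hy h => by
    have := hq y hy
    have t : |y - q| ≤ |x.re - y| + |x.re - q| := by
      rw [show y - q = (x.re - q) - (x.re - y) by ring, add_comm]
      exact abs_sub _ _
    linarith
  rcases le_total x.re a with h | h
  · exact key a ⟨le_rfl, hab⟩ (abs_lt.2 ⟨by linarith, by linarith⟩)
  · rcases le_total x.re b with h' | h'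
    · exact key x.re ⟨h, h'⟩ (by simpa using hδ)
    · exact key b ⟨hab, le_rfl⟩ (abs_lt.2 ⟨by linarith, by linarith⟩)

theorem schwarz {f : ℂ → ℂ} {c y : ℂ} {h M κ : ℝ} (h0 : 0 < h)
    (hf : DifferentiableOn ℂ f (Metric.ball c (2 * h)))
    (hM : ∀ z ∈ Metric.closedBall c h, ‖f z‖ ≤ M) (hκ : κ < 1) (hy : ‖y - c‖ ≤ κ * h) :
    ‖f y - f c‖ ≤ 2 * M * κ := by
  have hc := hM c (Metric.mem_closedBall_self h0.le)
  have M0 : 0 ≤ M := (norm_nonneg _).trans hc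
  have := Complex.dist_le_div_mul_dist_of_mapsTo_ball (f := f) (c := c) (R₁ := h) (R₂ := 2 * M)
    (z := y) (hf.mono (Metric.ball_subset_ball (by linarith))) (fun z hz => by
      rw [Metric.mem_closedBall, dist_eq_norm]
      have := hM z (Metric.ball_subset_closedBall hz)
      linarith [norm_sub_le (f z) (f c)])
    (by rw [Metric.mem_ball, dist_eq_norm]; nlinarith)
  rw [dist_eq_norm, dist_eq_norm] at this
  calc _ ≤ 2 * M / h * ‖y - c‖ := this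
    _ ≤ 2 * M / h * (κ * h) := by gcongr
    _ = _ := by field_simp

theorem porous_mono {X Y : Set ℝ} {ν a b : ℝ} (h : Porous Y ν a b) (hXY : X ⊆ Y) :
    Porous X ν a b := fun x l h1 h2 => by
  obtain ⟨y, a1, a2, a3⟩ := h x l h1 h2
  exact ⟨y, a1, a2, fun t ht => a3 t (hXY ht)⟩

theorem norm_e {τ : ℝ} (hτ : 0 < τ) {s : ℂ} (h : τ ^ s.re ≤ 2 * √τ) :
    ‖Complex.exp (s * (log τ : ℝ))‖ ^ 2 ≤ 4 * τ := by
  have e : ‖Complex.exp (s * (log τ : ℝ))‖ = τ ^ s.re := by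
    rw [Complex.norm_exp, rpow_def_of_pos hτ]
    congr 1
    simp [mul_comm]
  rw [e]
  calc (τ ^ s.re) ^ 2 ≤ (2 * √τ) ^ 2 := by gcongr
    _ = 4 * τ := by rw [mul_pow, sq_sqrt hτ.le]; norm_num

theorem ball_box {a b δ h p : ℝ} (hp : p ∈ Icc a b) (hh : 2 * h ≤ δ) :
    Metric.ball (p : ℂ) (2 * h) ⊆ Box a b δ := fun x hx => by
  rw [Metric.mem_ball, dist_eq_norm] at hx
  have h1 := (Complex.abs_re_le_norm (x - p)).trans_lt hx
  have h2 := (Complex.abs_im_le_norm (x - p)).trans_lt hx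
  simp only [Complex.sub_re, Complex.ofReal_re, Complex.sub_im, Complex.ofReal_im, sub_zero]
    at h1 h2
  obtain ⟨h3, h4⟩ := abs_lt.1 h1
  exact ⟨by linarith [hp.1], by linarith [hp.2], by linarith⟩

theorem sum_fib {β γ : Type} [Fintype γ] [DecidableEq γ] (Z : Finset β) (g : β → γ)
    (f : β → ℝ) {h K : ℝ} (H : ∀ j, h * ∑ b ∈ Z with g b = j, f b ≤ K) :
    h * ∑ b ∈ Z, f b ≤ Fintype.card γ * K := by
  rw [← Finset.sum_fiberwise Z g f, Finset.mul_sum]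
  calc _ ≤ ∑ _j : γ, K := Finset.sum_le_sum fun j _ => H j
    _ = _ := by simp

end T4

open T4

variable {α : Type} [Fintype α] [DecidableEq α] [Inhabited α] (S : SchottkyData α)

theorem SchottkyData.contraction {c₀ : ℝ} (hc : c₀ ∈ Ioc (0 : ℝ) 1) : ∃ η ∈ Ioc (0 : ℝ) 1,
    ∃ h₀ ∈ Ioc (0 : ℝ) 1, ∃ C₁ > 0, S.Contr c₀ η h₀ C₁ := by
  obtain ⟨c0, c1⟩ := hc
  obtain ⟨γ, ⟨γ0, γ1⟩, B, B1, hγ, hB, hpB, -, sep⟩ := S.geo
  obtain ⟨ν, ν0, Cp, Cp0, hpor⟩ := S.porous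
  obtain ⟨δ, rfl⟩ : ∃ δ, γ = 2 * δ := ⟨γ / 2, by ring⟩
  have δ0 : 0 < δ := by linarith
  have δ1 : δ ≤ 1 := by linarith
  obtain ⟨Cs, Cs0, hs⟩ := sampling
  obtain ⟨Cl, Cl0, hl⟩ := large_sieve ⟨δ0, δ1⟩ B
  obtain ⟨Ce, Ce0, he⟩ := ek_bound ⟨δ0, δ1⟩ (2 * B)
  obtain ⟨J, hJ⟩ : ∃ J : ℝ, J = (Fintype.card (α × Bool) : ℝ) := ⟨_, rfl⟩
  have J0 : 0 < J := by rw [hJ]; exact_mod_cast Fintype.card_pos
  obtain ⟨K, hK⟩ : ∃ K, K = J * 8 * B ^ 2 * Cs / c₀ ^ 2 := ⟨_, rfl⟩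
  have K0 : 0 < K := by rw [hK]; positivity
  obtain ⟨η, η0, η1, η2⟩ : ∃ η, 0 < η ∧ η ≤ δ / 2 ∧ η ≤ δ ^ 2 / (128 * K * Cl) :=
    ⟨min (δ / 2) (δ ^ 2 / (128 * K * Cl)), by positivity, min_le_left _ _, min_le_right _ _⟩
  obtain ⟨ε, hε⟩ : ∃ ε, ε = η / (32 * K) := ⟨_, rfl⟩
  have ε0 : 0 < ε := by rw [hε]; positivity
  obtain ⟨hf, hf0, hfr⟩ := frac_sieve (ν := ν) (Cp := Cp * η) ⟨δ0, δ1⟩ ν0 (by positivity) ε0 B
  obtain ⟨ϱ, hϱ⟩ : ∃ ϱ, ϱ = c₀ * η / (2 * B) := ⟨_, rfl⟩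
  have ϱ0 : 0 < ϱ := by rw [hϱ]; positivity
  have ϱ1 : ϱ ≤ 1 := by
    rw [hϱ, div_le_one (by positivity)]
    linarith only [mul_le_one₀ c1 η0.le (η1.trans (by linarith only [δ1])), B1]
  refine ⟨η, ⟨η0, by linarith⟩, min (δ / 16) hf, ⟨by positivity, (min_le_left _ _).trans
    (by linarith)⟩, J * (Cs / ϱ * (Cl / ϱ * (4 * η))) + 4 * Ce ^ 2, by positivity, ?_⟩
  rintro h ⟨h0, hh⟩ Z Sf hP s s0 s3 si hτ u A A0 ⟨hu, huA⟩
  have h16 : h ≤ δ / 16 := hh.trans (min_le_left _ _)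
  have hhf : h ≤ hf := hh.trans (min_le_right _ _)
  have Zne : ∀ w ∈ Z, w ≠ 1 := fun w hw => hP.ne w (hP.sub hw)
  -- maximisers
  have hmax : ∀ w ∈ Z, ∃ x ∈ Metric.closedBall (S.p w : ℂ) h,
      ∀ z ∈ Metric.closedBall (S.p w : ℂ) h, ‖u (hd w) z‖ ≤ ‖u (hd w) x‖ := fun w hw => by
    obtain ⟨x, hx, hm⟩ := (isCompact_closedBall (S.p w : ℂ) h).exists_isMaxOn
      (Metric.nonempty_closedBall.2 h0.le) (((hu w hw).continuousOn.mono
        (Metric.closedBall_subset_ball (by linarith))).norm)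
    exact ⟨x, hx, fun z hz => hm hz⟩
  choose! xm hxm hM using hmax
  set M : FreeGroup α → ℝ := fun w => ‖u (hd w) (xm w)‖ with hMdef
  have hMA : h * ∑ w ∈ Z, M w ^ 2 ≤ A ^ 2 := huA xm fun w hw => by
    have := hxm w hw
    rwa [Metric.mem_closedBall, dist_eq_norm] at this
  have hMA' : ∀ T ⊆ Z, h * ∑ w ∈ T, M w ^ 2 ≤ A ^ 2 := fun T hT =>
    le_trans (by gcongr) hMA
  set e : FreeGroup α → ℂ := fun w => Complex.exp (s * (log (S.τ w) : ℝ)) with hedef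
  have hen : ∀ w ∈ Z, ‖e w‖ ^ 2 ≤ 4 * S.τ w := fun w hw => norm_e (S.τ_pos (Zne w hw)) (hτ w hw)
  have hen' : ∀ w ∈ Z, ‖e w‖ ^ 2 ≤ 4 * (η * h) := fun w hw =>
    (hen w hw).trans (by have := hP.up w hw; linarith)
  set y : FreeGroup α → ℂ → ℂ := fun w x => S.p w - S.τ w / (x - S.p w⁻¹) with hydef
  set T : α × Bool → Finset (FreeGroup α) := fun j => Z.filter fun w => hd w⁻¹ ≠ j with hT
  have TZ : ∀ j, T j ⊆ Z := fun j => Finset.filter_subset _ _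
  -- geometry
  have hab : ∀ j, -B ≤ S.c j - S.ρ j ∧ S.c j - S.ρ j ≤ S.c j + S.ρ j ∧ S.c j + S.ρ j ≤ B := by
    intro j
    have := hB j
    have := S.pos j
    have := neg_abs_le (S.c j)
    have := le_abs_self (S.c j)
    exact ⟨by linarith, by linarith, by linarith⟩
  have hpI : ∀ g, g ≠ 1 → S.p g ∈ Icc (S.c (hd g) - S.ρ (hd g)) (S.c (hd g) + S.ρ (hd g)) := by
    intro g hg
    obtain ⟨a1, a2⟩ := abs_le.1 (S.p_mem hg)
    exact ⟨by linarith, by linarith⟩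
  have hfar : ∀ j, ∀ w ∈ T j, ∀ x ∈ Icc (S.c j - S.ρ j) (S.c j + S.ρ j),
      2 * δ ≤ |x - S.p w⁻¹| := by
    intro j w hw x hx
    obtain ⟨hw1, hw2⟩ := Finset.mem_filter.1 hw
    exact hγ j (hd w⁻¹) (Ne.symm hw2) x _ (abs_le.2 ⟨by linarith [hx.1], by linarith [hx.2]⟩)
      (S.p_mem (inv_ne_one.2 (Zne w hw1)))
  have hbox : ∀ j, ∀ w ∈ T j, ∀ x ∈ Box (S.c j - S.ρ j) (S.c j + S.ρ j) δ,
      δ < |x.re - S.p w⁻¹| := fun j w hw x hx => box (hab j).2.1 (hfar j w hw) hx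
  have hnorm : ∀ j, ∀ w ∈ T j, ∀ x ∈ Box (S.c j - S.ρ j) (S.c j + S.ρ j) δ,
      δ < ‖x - S.p w⁻¹‖ := fun j w hw x hx => by
    have := Complex.abs_re_le_norm (x - S.p w⁻¹)
    simp only [Complex.sub_re, Complex.ofReal_re] at this
    exact (hbox j w hw x hx).trans_le this
  have ηδ : η / δ ≤ 1 / 2 := by rw [div_le_iff₀ δ0]; linarith
  have hy : ∀ j, ∀ w ∈ T j, ∀ x ∈ Box (S.c j - S.ρ j) (S.c j + S.ρ j) δ,
      ‖y w x - S.p w‖ ≤ η / δ * h := fun j w hw x hx => by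
    have a1 := hnorm j w hw x hx
    have a2 := hP.up w (TZ j hw)
    have a3 := S.τ_pos (Zne w (TZ j hw))
    simp only [hydef, sub_sub_cancel_left, norm_neg, norm_div, Complex.norm_real,
      Real.norm_eq_abs, abs_of_pos a3]
    calc S.τ w / ‖x - S.p w⁻¹‖ ≤ η * h / δ := by gcongr
      _ = _ := by ring
  have hy' : ∀ j, ∀ w ∈ T j, ∀ x ∈ Box (S.c j - S.ρ j) (S.c j + S.ρ j) δ,
      y w x ∈ Metric.closedBall (S.p w : ℂ) h := fun j w hw x hx => by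
    rw [Metric.mem_closedBall, dist_eq_norm]
    linarith only [hy j w hw x hx, mul_le_mul_of_nonneg_right ηδ h0.le, h0]
  have hek : ∀ j, ∀ w ∈ T j, DifferentiableOn ℂ (ek s (S.p w⁻¹))
      (Box (S.c j - S.ρ j) (S.c j + S.ρ j) δ) := fun j w hw x hx =>
    (ek_diff s _ (hx.2.2.trans (hbox j w hw x hx))).differentiableWithinAt
  have huy : ∀ j, ∀ w ∈ T j, DifferentiableOn ℂ (fun x => u (hd w) (y w x))
      (Box (S.c j - S.ρ j) (S.c j + S.ρ j) δ) := fun j w hw => by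
    refine (hu w (TZ j hw)).comp (f := y w) (fun x hx => ?_) fun x hx =>
      Metric.closedBall_subset_ball (by linarith) (hy' j w hw x hx)
    have : x - (S.p w⁻¹ : ℂ) ≠ 0 := norm_pos_iff.1 (δ0.trans (hnorm j w hw x hx))
    refine DifferentiableAt.differentiableWithinAt ?_
    simp only [hydef]
    fun_prop (disch := assumption)
  have hsepS : ∀ b ∈ Sf, ∀ b' ∈ Sf, b ≠ b' → ϱ * h ≤ |S.p b - S.p b'| := fun b hb b' hb' hne => by
    have a1 := sep b b' (hP.ne b hb) (hP.ne b' hb') hne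
    have a2 := hP.low b hb
    rw [hϱ, div_mul_eq_mul_div, div_le_iff₀ (by positivity)]
    linarith only [a1, a2]
  have hsepq : ∀ j, Sep (fun w : T j => S.p w.1⁻¹) (ϱ * h) := fun j w w' hne => by
    have hw := TZ j w.2
    have hw' := TZ j w'.2
    have a1 := sep w.1⁻¹ w'.1⁻¹ (inv_ne_one.2 (Zne _ hw)) (inv_ne_one.2 (Zne _ hw'))
      fun e => hne (Subtype.ext (inv_injective e))
    have a2 := hP.low _ (hP.sub hw)
    rw [S.τ_inv] at a1
    rw [hϱ, div_mul_eq_mul_div, div_le_iff₀ (by positivity)]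
    linarith only [a1, a2]
  have hqB : ∀ j (w : T j), |S.p w.1⁻¹| ≤ B := fun j w =>
    hpB _ (inv_ne_one.2 (Zne _ (TZ j w.2)))
  -- sampling
  have samp : ∀ j (f : ℂ → ℂ), DifferentiableOn ℂ f (Box (S.c j - S.ρ j) (S.c j + S.ρ j) δ) →
      ∀ X ⊆ Icc (S.c j - S.ρ j) (S.c j + S.ρ j), ∀ P ⊆ Sf, (∀ b ∈ P, S.p b ∈ X) →
      ∀ x : FreeGroup α → ℂ, (∀ b ∈ P, ‖x b - S.p b‖ ≤ h) → ∀ Q : ℝ, (∀ t ∈ Icc (-2 : ℝ) 2,
        ∫ v in Metric.thickening (3 * h) X, ‖f (v + h * t * Complex.I)‖ ^ 2 ≤ Q) →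
      h * ∑ b ∈ P, ‖f (x b)‖ ^ 2 ≤ Cs / ϱ * Q := by
    intro j f hf X hX P hPS hPX x hx Q hQ
    have := hs h h0 ϱ ⟨ϱ0, ϱ1⟩ _ _ δ (by linarith) f hf X hX P (fun b => S.p b.1)
      (fun b => x b.1) (fun b => hPX b.1 b.2)
      (fun b b' hne => hsepS _ (hPS b.2) _ (hPS b'.2) fun e => hne (Subtype.ext e))
      (fun b => hx b.1 b.2) Q hQ
    rwa [Finset.sum_coe_sort P fun b => ‖f (x b)‖ ^ 2] at this
  have sieve : ∀ j (G : FreeGroup α → ℂ → ℂ) (m : FreeGroup α → ℝ),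
      (∀ w ∈ T j, DifferentiableOn ℂ (G w) (Box (S.c j - S.ρ j) (S.c j + S.ρ j) δ)) →
      (∀ w ∈ T j, ∀ x ∈ Box (S.c j - S.ρ j) (S.c j + S.ρ j) δ, ‖G w x‖ ≤ m w) →
      ∀ P ⊆ Sf, (∀ b ∈ P, hd b = j) → ∀ x : FreeGroup α → ℂ, (∀ b ∈ P, ‖x b - S.p b‖ ≤ h) →
      h * ∑ b ∈ P, ‖∑ w ∈ T j, G w (x b) * ek s (S.p w⁻¹) (x b)‖ ^ 2 ≤
        Cs / ϱ * (Cl / ϱ * ∑ w ∈ T j, m w ^ 2) := by
    intro j G m hG hm P hPS hPj x hx
    refine samp j (fun x => ∑ w ∈ T j, G w x * ek s (S.p w⁻¹) x)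
      (DifferentiableOn.fun_sum fun w hw => (hG w hw).mul (hek j w hw)) _ Subset.rfl P hPS
      (fun b hb => hPj b hb ▸ hpI b (hP.ne b (hPS hb))) x hx _ fun t ht => ?_
    have := hl h ⟨h0, h16⟩ ϱ ⟨ϱ0, ϱ1⟩ s s0 s3 si t (abs_le.2 ht) _ _ (hab j).1 (hab j).2.1
      (hab j).2.2 _ Subset.rfl (T j) (fun w => S.p w.1⁻¹) (hqB j) (fun w => hfar j w.1 w.2)
      (hsepq j) (fun w => G w.1) (fun w => hG w.1 w.2) (fun w => m w.1) fun w => hm w.1 w.2
    rw [Finset.sum_coe_sort (T j) fun w => m w ^ 2] at this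
    have e1 : ∀ v : ℂ, ∑ w : T j, G w.1 v * ek s (S.p w.1⁻¹) v =
        ∑ w ∈ T j, G w v * ek s (S.p w⁻¹) v := fun v =>
      Finset.sum_coe_sort (T j) fun w => G w v * ek s (S.p w⁻¹) v
    simp only [e1] at this
    exact this
  have frac : ∀ j (c : FreeGroup α → ℂ), ∀ P ⊆ Z, (∀ b ∈ P, hd b = j) →
      ∀ x : FreeGroup α → ℂ, (∀ b ∈ P, ‖x b - S.p b‖ ≤ h) →
      h * ∑ b ∈ P, ‖∑ w ∈ T j, c w * ek s (S.p w⁻¹) (x b)‖ ^ 2 ≤
        Cs / ϱ * (ε / ϱ * ∑ w ∈ T j, ‖c w‖ ^ 2) := by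
    intro j c P hPZ hPj x hx
    have hX : S.p '' (P : Set (FreeGroup α)) ⊆ Icc (S.c j - S.ρ j) (S.c j + S.ρ j) := by
      rintro _ ⟨b, hb, rfl⟩
      exact hPj b hb ▸ hpI b (Zne b (hPZ hb))
    have hpo := hpor (η * h) (by positivity)
    rw [← mul_assoc] at hpo
    refine samp j (fun x => ∑ w ∈ T j, c w * ek s (S.p w⁻¹) x)
      (DifferentiableOn.fun_sum fun w hw => (hek j w hw).const_mul _) _ hX P
      (hPZ.trans hP.sub) (fun b hb => ⟨b, hb, rfl⟩) x hx _ fun t ht => ?_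
    have := hfr h ⟨h0, hhf⟩ ϱ ⟨ϱ0, ϱ1⟩ s s0 s3 si t (abs_le.2 ht) _ _ (hab j).1 (hab j).2.1
      (hab j).2.2 _ hX (porous_mono hpo (by
        rintro _ ⟨b, hb, rfl⟩
        exact ⟨b, Zne b (hPZ hb), hP.up b (hPZ hb), rfl⟩))
      (T j) (fun w => S.p w.1⁻¹) (hqB j) (fun w => hfar j w.1 w.2) (hsepq j)
      (porous_mono hpo (by
        rintro _ ⟨w, rfl⟩
        exact ⟨w.1⁻¹, inv_ne_one.2 (Zne _ (TZ j w.2)), by
          rw [S.τ_inv]; exact hP.up _ (TZ j w.2), rfl⟩)) fun w => c w.1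
    rw [Finset.sum_coe_sort (T j) fun w => ‖c w‖ ^ 2] at this
    have e1 : ∀ v : ℂ, ∑ w : T j, c w.1 * ek s (S.p w.1⁻¹) v =
        ∑ w ∈ T j, c w * ek s (S.p w⁻¹) v := fun v =>
      Finset.sum_coe_sort (T j) fun w => c w * ek s (S.p w⁻¹) v
    simp only [e1] at this
    exact this
  clear samp hs hl hfr hpor hsepS hsepq hγ sep
  have hL : ∀ j x, S.L Z s u j x = ∑ w ∈ T j, e w * u (hd w) (y w x) * ek s (S.p w⁻¹) x := by
    intro j x
    refine Finset.sum_congr rfl fun w _ => ?_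
    simp only [hedef, hydef]
    ring
  have hsum : ∀ j (κ : ℝ), ∑ w ∈ T j, (‖e w‖ * (M w * κ)) ^ 2 ≤ 4 * η * κ ^ 2 * A ^ 2 := by
    intro j κ
    calc _ ≤ ∑ w ∈ T j, 4 * (η * h) * (M w * κ) ^ 2 := Finset.sum_le_sum fun w hw => by
          rw [mul_pow]
          gcongr
          exact hen' w (TZ j hw)
      _ = 4 * η * κ ^ 2 * (h * ∑ w ∈ T j, M w ^ 2) := by
          rw [Finset.mul_sum, Finset.mul_sum]
          exact Finset.sum_congr rfl fun w _ => by ring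
      _ ≤ _ := by gcongr; exact hMA' _ (TZ j)
  refine ⟨⟨fun b hb => ?_, fun x hx => ?_⟩, ?_, fun b hb => ?_⟩
  · have : S.L Z s u (hd b) = fun x =>
        ∑ w ∈ T (hd b), e w * u (hd w) (y w x) * ek s (S.p w⁻¹) x := funext (hL (hd b))
    rw [this]
    exact (DifferentiableOn.fun_sum fun w hw =>
      ((huy _ w hw).const_mul _).mul (hek _ w hw)).mono (ball_box (hpI b (Zne b hb)) (by linarith))
  · have key : ∀ j, h * ∑ b ∈ Z with hd b = j, ‖S.L Z s u (hd b) (x b)‖ ^ 2 ≤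
        2 * (Cs / ϱ * (ε / ϱ * (4 * η * 1 ^ 2 * A ^ 2))) +
          2 * (Cs / ϱ * (Cl / ϱ * (4 * η * (2 * (η / δ)) ^ 2 * A ^ 2))) := by
      intro j
      have P1 : ∀ b ∈ Z.filter fun b => hd b = j, hd b = j := fun b hb => (Finset.mem_filter.1 hb).2
      have P2 : ∀ b ∈ Z.filter fun b => hd b = j, ‖x b - S.p b‖ ≤ h := fun b hb =>
        hx b (Finset.mem_filter.1 hb).1
      have a1 := frac j (fun w => e w * u (hd w) (S.p w)) _ (Finset.filter_subset _ _) P1 x P2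
      have a2 := sieve j (fun w x => e w * (u (hd w) (y w x) - u (hd w) (S.p w)))
        (fun w => ‖e w‖ * (M w * (2 * (η / δ))))
        (fun w hw => ((huy j w hw).sub_const _).const_mul _) (fun w hw x hx => by
          rw [norm_mul]
          gcongr
          have := schwarz h0 (hu w (TZ j hw)) (hM w (TZ j hw)) (κ := η / δ) (by linarith)
            (hy j w hw x hx)
          linarith) _ ((Finset.filter_subset _ _).trans hP.sub) P1 x P2
      have b1 : ∑ w ∈ T j, ‖e w * u (hd w) (S.p w)‖ ^ 2 ≤ 4 * η * 1 ^ 2 * A ^ 2 := by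
        refine le_trans (Finset.sum_le_sum fun w hw => ?_) (hsum j 1)
        rw [norm_mul, mul_one]
        gcongr
        exact hM w (TZ j hw) _ (Metric.mem_closedBall_self h0.le)
      have b2 := hsum j (2 * (η / δ))
      calc _ ≤ h * ∑ b ∈ Z with hd b = j,
            (2 * ‖∑ w ∈ T j, e w * u (hd w) (S.p w) * ek s (S.p w⁻¹) (x b)‖ ^ 2 +
              2 * ‖∑ w ∈ T j, e w * (u (hd w) (y w (x b)) - u (hd w) (S.p w)) *
                ek s (S.p w⁻¹) (x b)‖ ^ 2) := by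
            gcongr with b hb
            rw [P1 b hb, hL]
            have e1 : ∑ w ∈ T j, e w * u (hd w) (y w (x b)) * ek s (S.p w⁻¹) (x b) =
                ∑ w ∈ T j, e w * u (hd w) (S.p w) * ek s (S.p w⁻¹) (x b) +
                ∑ w ∈ T j, e w * (u (hd w) (y w (x b)) - u (hd w) (S.p w)) *
                  ek s (S.p w⁻¹) (x b) := by
              rw [← Finset.sum_add_distrib]
              exact Finset.sum_congr rfl fun w _ => by ring
            rw [e1]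
            generalize ∑ w ∈ T j, e w * u (hd w) (S.p w) * ek s (S.p w⁻¹) (x b) = U
            generalize ∑ w ∈ T j, e w * (u (hd w) (y w (x b)) - u (hd w) (S.p w)) *
              ek s (S.p w⁻¹) (x b) = V
            calc ‖U + V‖ ^ 2 ≤ (‖U‖ + ‖V‖) ^ 2 := by gcongr; exact norm_add_le _ _
              _ ≤ _ := by linarith only [sq_nonneg (‖U‖ - ‖V‖)]
        _ = 2 * (h * ∑ b ∈ Z with hd b = j,
              ‖∑ w ∈ T j, e w * u (hd w) (S.p w) * ek s (S.p w⁻¹) (x b)‖ ^ 2) +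
            2 * (h * ∑ b ∈ Z with hd b = j,
              ‖∑ w ∈ T j, e w * (u (hd w) (y w (x b)) - u (hd w) (S.p w)) *
                ek s (S.p w⁻¹) (x b)‖ ^ 2) := by
            rw [Finset.sum_add_distrib, ← Finset.mul_sum, ← Finset.mul_sum]
            ring
        _ ≤ _ := by
            have k1 : 0 ≤ Cs / ϱ := div_nonneg Cs0.le ϱ0.le
            exact add_le_add (mul_le_mul_of_nonneg_left (a1.trans (mul_le_mul_of_nonneg_left
              (mul_le_mul_of_nonneg_left b1 (div_nonneg ε0.le ϱ0.le)) k1)) zero_le_two)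
              (mul_le_mul_of_nonneg_left (a2.trans (mul_le_mul_of_nonneg_left
              (mul_le_mul_of_nonneg_left b2 (div_nonneg Cl0.le ϱ0.le)) k1)) zero_le_two)
    refine (sum_fib Z hd _ key).trans ?_
    have e1 : J * (2 * (Cs / ϱ * (ε / ϱ * (4 * η * 1 ^ 2 * A ^ 2))) +
          2 * (Cs / ϱ * (Cl / ϱ * (4 * η * (2 * (η / δ)) ^ 2 * A ^ 2)))) =
        (1 / 8 + 16 * K * Cl * η / δ ^ 2) * A ^ 2 := by
      rw [hϱ, hε, hK]
      field_simp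
      ring
    have e2 : 16 * K * Cl * η / δ ^ 2 ≤ 1 / 8 := by
      rw [le_div_iff₀ (by positivity)] at η2
      rw [div_le_iff₀ (by positivity)]
      linarith
    rw [← hJ, e1]
    linarith only [mul_le_mul_of_nonneg_right e2 (sq_nonneg A)]
  · have key : ∀ j, h * ∑ b ∈ Sf with hd b = j, ‖S.L Z s u (hd b) (S.p b)‖ ^ 2 ≤
        Cs / ϱ * (Cl / ϱ * (4 * η * 1 ^ 2 * A ^ 2)) := by
      intro j
      have P1 : ∀ b ∈ Sf.filter fun b => hd b = j, hd b = j := fun b hb =>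
        (Finset.mem_filter.1 hb).2
      have a2 := sieve j (fun w x => e w * u (hd w) (y w x)) (fun w => ‖e w‖ * (M w * 1))
        (fun w hw => (huy j w hw).const_mul _) (fun w hw x hx => by
          rw [norm_mul, mul_one]
          gcongr
          exact hM w (TZ j hw) _ (hy' j w hw x hx)) _ (Finset.filter_subset _ _) P1
          (fun b => S.p b) fun b _ => by simpa using h0.le
      calc _ = h * ∑ b ∈ Sf with hd b = j,
            ‖∑ w ∈ T j, e w * u (hd w) (y w (S.p b)) * ek s (S.p w⁻¹) (S.p b)‖ ^ 2 := by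
            congr 1
            exact Finset.sum_congr rfl fun b hb => by rw [P1 b hb, hL]
        _ ≤ _ := a2.trans (by gcongr; exact hsum j 1)
    refine (sum_fib Sf hd _ key).trans ?_
    rw [← hJ]
    have : 0 ≤ 4 * Ce ^ 2 * A ^ 2 := by positivity
    linarith only [this]
  · have hb1 := hP.ne b hb
    have hbI := hpI b hb1
    have hbB : (S.p b : ℂ) ∈ Box (S.c (hd b) - S.ρ (hd b)) (S.c (hd b) + S.ρ (hd b)) δ :=
      ball_box (h := h) hbI (by linarith) (Metric.mem_ball_self (by linarith))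
    have a1 : ‖S.L Z s u (hd b) (S.p b)‖ ≤ ∑ w ∈ T (hd b), Ce * ‖e w‖ * M w := by
      rw [hL]
      refine (norm_sum_le _ _).trans (Finset.sum_le_sum fun w hw => ?_)
      have b1 := hM w (TZ _ hw) _ (hy' _ w hw _ hbB)
      have b2 : ‖ek s (S.p w⁻¹) (S.p b)‖ ≤ Ce := by
        refine he h ⟨h0, by linarith⟩ s s0 s3 si _ _ (hbox _ w hw _ hbB).le ?_ (by simp; linarith)
        have c1 := hpB b hb1
        have c2 := hpB _ (inv_ne_one.2 (Zne w (TZ _ hw)))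
        have := abs_sub (S.p b) (S.p w⁻¹)
        simp only [Complex.ofReal_re]
        linarith
      rw [norm_mul, norm_mul]
      calc _ ≤ ‖e w‖ * M w * Ce := by gcongr
        _ = _ := by ring
    have a2 := Finset.sum_mul_sq_le_sq_mul_sq (T (hd b)) (fun w => Ce * ‖e w‖) M
    have a3 : ∑ w ∈ T (hd b), (Ce * ‖e w‖) ^ 2 ≤ 4 * Ce ^ 2 * ∑ w ∈ Z, S.τ w := by
      calc _ ≤ ∑ w ∈ T (hd b), 4 * Ce ^ 2 * S.τ w := Finset.sum_le_sum fun w hw => by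
            have := hen w (TZ _ hw)
            rw [mul_pow]
            linarith only [mul_le_mul_of_nonneg_left this (sq_nonneg Ce)]
        _ = 4 * Ce ^ 2 * ∑ w ∈ T (hd b), S.τ w := by rw [Finset.mul_sum]
        _ ≤ _ := mul_le_mul_of_nonneg_left (Finset.sum_le_sum_of_subset_of_nonneg (TZ _)
            fun w hw _ => (S.τ_pos (Zne w hw)).le) (by positivity)
    have τ0 : 0 ≤ ∑ w ∈ Z, S.τ w := Finset.sum_nonneg fun w hw => (S.τ_pos (Zne w hw)).le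
    calc h * ‖S.L Z s u (hd b) (S.p b)‖ ^ 2 ≤ h * (∑ w ∈ T (hd b), Ce * ‖e w‖ * M w) ^ 2 := by
          gcongr
      _ ≤ h * ((4 * Ce ^ 2 * ∑ w ∈ Z, S.τ w) * ∑ w ∈ T (hd b), M w ^ 2) := by
          gcongr
          exact a2.trans (by gcongr)
      _ = (4 * Ce ^ 2 * ∑ w ∈ Z, S.τ w) * (h * ∑ w ∈ T (hd b), M w ^ 2) := by ring
      _ ≤ (4 * Ce ^ 2 * ∑ w ∈ Z, S.τ w) * A ^ 2 := by gcongr; exact hMA' _ (TZ _)
      _ ≤ _ := by
          gcongr
          have : 0 ≤ J * (Cs / ϱ * (Cl / ϱ * (4 * η))) := by positivity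
          linarith

end Pool.Agent.Lib.MP_e1e19a_an
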