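import Pool.Agent.Lib.MP_e1e19a_an.N.S2

/-!
Analytic continuation of the Eisenstein series.
-/

namespace Pool.Agent.Lib.MP_e1e19a_an

open Real MeasureTheory Set
open scoped MatrixGroups ComplexConjugate UpperHalfPlane

variable {α : Type} [Fintype α] [DecidableEq α] [Inhabited α] (S : SchottkyData α)

namespace T5b

omit [Fintype α] [DecidableEq α] [Inhabited α] in
theorem ident {f g : ℂ → ℂ} {σ a b : ℝ} (hσ : σ < 1 / 2)
    (hf : DifferentiableOn ℂ f {s | σ < s.re ∧ s.re < 3 ∧ a < s.im ∧ s.im < b})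
    (hg : DifferentiableOn ℂ g {s | σ < s.re ∧ s.re < 3 ∧ a < s.im ∧ s.im < b})
    (e : ∀ s : ℂ, 1 < s.re → f s = g s) {s : ℂ} (h1 : σ < s.re) (h2 : s.re < 3) (h3 : a < s.im)
    (h4 : s.im < b) : f s = g s := by
  have ho : IsOpen {s : ℂ | σ < s.re ∧ s.re < 3 ∧ a < s.im ∧ s.im < b} :=
    (isOpen_lt continuous_const Complex.continuous_re).inter
      ((isOpen_lt Complex.continuous_re continuous_const).inter
        ((isOpen_lt continuous_const Complex.continuous_im).inter
          (isOpen_lt Complex.continuous_im continuous_const)))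
  have hc : Convex ℝ {s : ℂ | σ < s.re ∧ s.re < 3 ∧ a < s.im ∧ s.im < b} :=
    (convex_halfSpace_re_gt σ).inter ((convex_halfSpace_re_lt 3).inter
      ((convex_halfSpace_im_gt a).inter (convex_halfSpace_im_lt b)))
  refine (hf.analyticOnNhd ho).eqOn_of_preconnected_of_eventuallyEq (hg.analyticOnNhd ho)
    hc.isPreconnected (z₀ := ⟨2, s.im⟩) ⟨by simp; linarith, by norm_num, h3, h4⟩ ?_
    ⟨h1, h2, h3, h4⟩
  filter_upwards [(isOpen_lt continuous_const Complex.continuous_re).mem_nhds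
    (show (1 : ℝ) < (⟨2, s.im⟩ : ℂ).re by norm_num)] with x hx using e x hx

theorem ht_summable (z : ℍ) : Summable fun g => S.ht g z :=
  (S.amp_sq_summable z).congr fun g => sq_sqrt (S.ht_pos g z).le

theorem rpow_summable (z : ℍ) {σ : ℝ} (hσ : 1 ≤ σ) : Summable fun g => S.ht g z ^ σ := by
  refine (ht_summable S z).of_norm_bounded_eventually ?_
  filter_upwards [(ht_summable S z).tendsto_cofinite_zero.eventually (gt_mem_nhds one_pos)]
    with g hg
  rw [Real.norm_of_nonneg (rpow_nonneg (S.ht_pos g z).le _)]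
  simpa using rpow_le_rpow_of_exponent_ge (S.ht_pos g z) hg.le hσ

theorem cpow_summable (z : ℍ) {s : ℂ} (hs : 1 < s.re) :
    Summable fun g => ((S.ht g z : ℝ) : ℂ) ^ s :=
  (rpow_summable S z hs.le).of_norm_bounded fun g =>
    (Complex.norm_cpow_eq_rpow_re_of_pos (S.ht_pos g z) s).le

omit [Fintype α] [DecidableEq α] [Inhabited α] in
theorem cpow_diff {x : ℝ} (hx : 0 < x) : Differentiable ℂ fun s : ℂ => (x : ℂ) ^ s :=
  differentiable_id.const_cpow (Or.inl (Complex.ofReal_ne_zero.2 hx.ne'))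

theorem series_analytic (z : ℍ) {s : ℂ} (hs : 1 < s.re) :
    AnalyticAt ℂ (fun s : ℂ => ∑' g, ((S.ht g z : ℝ) : ℂ) ^ s) s := by
  have ho : IsOpen {x : ℂ | 1 < x.re ∧ x.re < s.re + 1} :=
    (isOpen_lt continuous_const Complex.continuous_re).inter
      (isOpen_lt Complex.continuous_re continuous_const)
  refine (Complex.differentiableOn_tsum_of_summable_norm
    ((ht_summable S z).add (rpow_summable S z (σ := s.re + 1) (by linarith)))
    (fun g => (cpow_diff (S.ht_pos g z)).differentiableOn) ho fun g x hx => ?_).analyticAt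
      (ho.mem_nhds ⟨hs, by linarith⟩)
  have h0 := S.ht_pos g z
  rw [Complex.norm_cpow_eq_rpow_re_of_pos h0]
  rcases le_total (S.ht g z) 1 with h | h
  · have := rpow_le_rpow_of_exponent_ge h0 h hx.1.le
    rw [rpow_one] at this
    exact this.trans (le_add_of_nonneg_right (rpow_nonneg h0.le _))
  · exact (rpow_le_rpow_of_exponent_le h hx.2.le).trans (le_add_of_nonneg_left h0.le)

theorem series_eq {c₀ t : ℝ} {Z Sf : Finset (FreeGroup α)} (h : S.Part c₀ t Z Sf) (z : ℍ) {s : ℂ}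
    (hs : 1 < s.re) : ((z.im : ℝ) : ℂ) ^ s + ∑' n, S.blk (blocks Z Sf n) s z =
      ∑' g, ((S.ht g z : ℝ) : ℂ) ^ s := by
  classical
  let lev : FreeGroup α → ℕ := fun g =>
    if hg : g = 1 then 0 else (S.blocks_unique h hg).exists.choose + 1
  have e0 : lev ⁻¹' {0} = {1} := by
    ext g
    by_cases hg : g = 1 <;> simp [lev, hg]
  have e1 : ∀ n, lev ⁻¹' {n + 1} = (blocks Z Sf n : Set (FreeGroup α)) := fun n => by
    ext g
    by_cases hg : g = 1
    · simpa [lev, hg] using fun e => S.blocks_ne h n 1 e rfl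
    · have h1 := (S.blocks_unique h hg).exists.choose_spec
      simp only [lev, mem_preimage, dif_neg hg, mem_singleton_iff, add_left_inj, Finset.mem_coe]
      exact ⟨fun e => e ▸ h1, fun e => (S.blocks_unique h hg).unique h1 e⟩
  have H := (cpow_summable S z hs).hasSum.tsum_fiberwise lev
  rw [← H.tsum_eq, H.summable.tsum_eq_zero_add, e0, tsum_singleton 1
    fun g => ((S.ht g z : ℝ) : ℂ) ^ s, S.ht_one]
  congr 1
  refine tsum_congr fun n => ?_
  rw [e1, Finset.tsum_subtype' _ fun g => ((S.ht g z : ℝ) : ℂ) ^ s, SchottkyData.blk]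

theorem eat_diff {η l σ C a b : ℝ} (Z Sf : ℝ → Finset (FreeGroup α)) (z : ℍ)
    (ha : l - 1 ≤ a) (hb : b ≤ l + 1)
    (h : ∀ n, ∀ s : ℂ, σ < s.re → s.re < 3 → |s.im - l| < 1 →
      ‖S.blk (blocks (Z (η / l)) (Sf (η / l)) n) s z‖ ≤ C / 2 ^ n) :
    DifferentiableOn ℂ (fun s => S.Eat Z Sf η l s z)
      {s | σ < s.re ∧ s.re < 3 ∧ a < s.im ∧ s.im < b} := by
  have ho : IsOpen {s : ℂ | σ < s.re ∧ s.re < 3 ∧ a < s.im ∧ s.im < b} :=
    (isOpen_lt continuous_const Complex.continuous_re).inter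
      ((isOpen_lt Complex.continuous_re continuous_const).inter
        ((isOpen_lt continuous_const Complex.continuous_im).inter
          (isOpen_lt Complex.continuous_im continuous_const)))
  refine (cpow_diff z.im_pos).differentiableOn.add
    (Complex.differentiableOn_tsum_of_summable_norm (u := fun n : ℕ => C / 2 ^ n) ?_
      (fun n => ?_) ho fun n s hs => h n s hs.1 hs.2.1 ?_)
  · simpa [div_eq_mul_inv] using summable_geometric_two.mul_left C
  · exact (Differentiable.fun_sum fun g _ => cpow_diff (S.ht_pos g z)).differentiableOn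
  · rw [abs_lt]
    constructor <;> linarith [hs.2.2.1, hs.2.2.2]

omit [Fintype α] [DecidableEq α] [Inhabited α] in
theorem blk_cont (W : Finset (FreeGroup α)) (s : ℂ) : Continuous (S.blk W s) := by
  refine continuous_finsetSum _ fun g _ => ?_
  refine (Complex.continuous_ofReal.comp
    (UpperHalfPlane.continuous_im.comp (continuous_const_smul (S.M g⁻¹)))).cpow continuous_const
      fun z => Or.inl ?_
  exact UpperHalfPlane.im_pos _

end T5b

open T5b

theorem SchottkyData.contin {c₀ η l₀ : ℝ} (Z Sf : ℝ → Finset (FreeGroup α))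
    (hP : ∀ l ≥ l₀, S.Part c₀ (η / l) (Z (η / l)) (Sf (η / l)))
    (hD : ∀ l₁ : ℝ, ∃ σ₀ < (1 / 2 : ℝ), ∀ l ∈ Icc l₀ l₁, ∀ K : Set ℍ, IsCompact K → ∃ C : ℝ,
      ∀ n, ∀ z ∈ K, ∀ s : ℂ, σ₀ < s.re → s.re < 3 → |s.im - l| < 1 →
        ‖S.blk (blocks (Z (η / l)) (Sf (η / l)) n) s z‖ ≤ C / 2 ^ n) :
    (∀ z, AnalyticOnNhd ℂ (fun s => S.Eat Z Sf η s.im s z)
      {s | 1 / 2 ≤ s.re ∧ l₀ + 1 ≤ s.im}) ∧
    (∀ s : ℂ, 1 < s.re → l₀ + 1 ≤ s.im → ∀ z,
      HasSum (fun g => ((S.ht g z : ℝ) : ℂ) ^ s) (S.Eat Z Sf η s.im s z)) ∧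
    ∀ l ≥ l₀ + 1, Continuous (S.Eat Z Sf η l (1 / 2 + l * Complex.I)) ∧
      ∀ g z, S.Eat Z Sf η l (1 / 2 + l * Complex.I) (S.M g • z)
        = S.Eat Z Sf η l (1 / 2 + l * Complex.I) z := by
  have hser : ∀ l ≥ l₀, ∀ s : ℂ, 1 < s.re → ∀ z,
      S.Eat Z Sf η l s z = ∑' g, ((S.ht g z : ℝ) : ℂ) ^ s :=
    fun l hl s hs z => series_eq S (hP l hl) z hs
  refine ⟨fun z s₀ hs₀ => ?_, fun s hs hl z => ?_, fun l hl => ?_⟩
  · have n1 : ∀ᶠ s in nhds s₀, s₀.im - 1 < s.im :=
      (isOpen_lt continuous_const Complex.continuous_im).mem_nhds (by simp)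
    have n2 : ∀ᶠ s in nhds s₀, s.im < s₀.im + 1 :=
      (isOpen_lt Complex.continuous_im continuous_const).mem_nhds (by simp)
    rcases lt_or_ge 1 s₀.re with h | h
    · refine (series_analytic S z h).congr ?_
      filter_upwards [n1, (isOpen_lt continuous_const Complex.continuous_re).mem_nhds h]
        with s h1 h2
      exact (hser _ (by linarith [hs₀.2]) s h2 z).symm
    · obtain ⟨σ, hσ, H⟩ := hD (s₀.im + 1)
      have n3 : ∀ᶠ s in nhds s₀, σ < s.re :=
        (isOpen_lt continuous_const Complex.continuous_re).mem_nhds (hσ.trans_le hs₀.1)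
      have n4 : ∀ᶠ s in nhds s₀, s.re < 3 :=
        (isOpen_lt Complex.continuous_re continuous_const).mem_nhds
          (show s₀.re < 3 by linarith)
      obtain ⟨C, hC⟩ := H s₀.im ⟨by linarith [hs₀.2], by linarith⟩ {z} isCompact_singleton
      refine ((eat_diff S Z Sf z le_rfl le_rfl fun n => hC n z rfl).analyticAt ?_).congr ?_
      · filter_upwards [n1, n2, n3, n4] with s h1 h2 h3 h4 using ⟨h3, h4, h1, h2⟩
      · filter_upwards [n1, n2, n3, n4] with s h1 h2 h3 h4
        have hl : l₀ ≤ s.im := by linarith [hs₀.2]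
        obtain ⟨C', hC'⟩ := H s.im ⟨hl, h2.le⟩ {z} isCompact_singleton
        exact ident (a := max (s₀.im - 1) (s.im - 1)) (b := min (s₀.im + 1) (s.im + 1)) hσ
          (eat_diff S Z Sf z (le_max_left _ _) (min_le_left _ _) fun n => hC n z rfl)
          (eat_diff S Z Sf z (le_max_right _ _) (min_le_right _ _) fun n => hC' n z rfl)
          (fun x hx => (hser _ (by linarith [hs₀.2]) x hx z).trans (hser _ hl x hx z).symm)
          h3 h4 (max_lt h1 (by simp)) (lt_min h2 (by simp))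
  · rw [hser _ (by linarith) s hs z]
    exact (cpow_summable S z hs).hasSum
  · obtain ⟨σ, hσ, H⟩ := hD l
    have H' := H l ⟨by linarith, le_rfl⟩
    have r1 : (1 / 2 + l * Complex.I : ℂ).re = 1 / 2 := by simp
    have r2 : (1 / 2 + l * Complex.I : ℂ).im = l := by simp
    refine ⟨continuous_iff_continuousAt.2 fun z => ?_, fun g z => ?_⟩
    · obtain ⟨K, hK, hz⟩ := exists_compact_mem_nhds z
      obtain ⟨C, hC⟩ := H' K hK
      refine ContinuousAt.add (f := fun z : ℍ => ((z.im : ℝ) : ℂ) ^ (1 / 2 + l * Complex.I : ℂ))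
        ((Complex.continuous_ofReal.comp UpperHalfPlane.continuous_im).cpow continuous_const
          fun z => Or.inl (UpperHalfPlane.im_pos _)).continuousAt
        ((continuousOn_tsum (u := fun n : ℕ => C / 2 ^ n) (fun n => (blk_cont S _ _).continuousOn)
          ?_ fun n x hx => hC n x hx _ ?_ ?_ ?_).continuousAt hz)
      · simpa [div_eq_mul_inv] using summable_geometric_two.mul_left C
      · rwa [r1]
      · rw [r1]; norm_num
      · rw [r2]; simp
    · obtain ⟨C, hC⟩ := H' {S.M g • z} isCompact_singleton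
      obtain ⟨C', hC'⟩ := H' {z} isCompact_singleton
      refine ident (f := fun s => S.Eat Z Sf η l s (S.M g • z)) (g := fun s => S.Eat Z Sf η l s z)
        hσ (eat_diff S Z Sf _ le_rfl le_rfl fun n => hC n _ rfl)
        (eat_diff S Z Sf _ le_rfl le_rfl fun n => hC' n _ rfl) (fun x hx => ?_)
        (by rwa [r1]) (by rw [r1]; norm_num) (by rw [r2]; simp) (by rw [r2]; simp)
      rw [hser _ (by linarith) x hx, hser _ (by linarith) x hx]
      simp only [S.ht_smul]
      exact (Equiv.mulLeft g⁻¹).tsum_eq fun g => ((S.ht g z : ℝ) : ℂ) ^ x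

end Pool.Agent.Lib.MP_e1e19a_an
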