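import Pool.Agent.Lib.MP_e1e19a_an.N.T1b

/-!
The large sieve for Poisson kernels.
-/

namespace Pool.Agent.Lib.MP_e1e19a_an

open Real MeasureTheory Set
open scoped MatrixGroups ComplexConjugate UpperHalfPlane

namespace T3

variable {a b c d : ℝ}

lemma intOn {Φ : ℝ × ℝ → ℂ} (hc : ContinuousOn Φ (Icc a b ×ˢ Icc c d)) :
    IntegrableOn Φ (Icc a b ×ˢ Icc c d) volume :=
  hc.integrableOn_compact (isCompact_Icc.prod isCompact_Icc)

lemma zeroY (hcd : c ≤ d) {Φ Φ' : ℝ × ℝ → ℂ} (hc : ContinuousOn Φ' (Icc a b ×ˢ Icc c d))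
    (hd : ∀ w ∈ Icc a b ×ˢ Icc c d, HasDerivAt (fun y => Φ (w.1, y)) (Φ' w) w.2)
    (h0 : ∀ x, Φ (x, c) = 0) (h1 : ∀ x, Φ (x, d) = 0) :
    ∫ w in Icc a b ×ˢ Icc c d, Φ' w = 0 := by
  have hi := intOn hc
  rw [Measure.volume_eq_prod] at hi ⊢
  rw [setIntegral_prod _ hi]
  refine setIntegral_eq_zero_of_forall_eq_zero fun x hx => ?_
  rw [integral_Icc_eq_integral_Ioc, ← intervalIntegral.integral_of_le hcd,
    intervalIntegral.integral_eq_sub_of_hasDerivAt (f := fun y => Φ (x, y))]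
  · simp [h0, h1]
  · intro y hy
    rw [uIcc_of_le hcd] at hy
    exact hd (x, y) ⟨hx, hy⟩
  · apply ContinuousOn.intervalIntegrable
    rw [uIcc_of_le hcd]
    exact hc.comp (by fun_prop) (fun y hy => ⟨hx, hy⟩)

lemma zeroX (hab : a ≤ b) {Φ Φ' : ℝ × ℝ → ℂ} (hc : ContinuousOn Φ' (Icc a b ×ˢ Icc c d))
    (hd : ∀ w ∈ Icc a b ×ˢ Icc c d, HasDerivAt (fun x => Φ (x, w.2)) (Φ' w) w.1)
    (h0 : ∀ y, Φ (a, y) = 0) (h1 : ∀ y, Φ (b, y) = 0) :
    ∫ w in Icc a b ×ˢ Icc c d, Φ' w = 0 := by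
  rw [Measure.volume_eq_prod, ← setIntegral_prod_swap, ← Measure.volume_eq_prod]
  exact zeroY hab (Φ := fun w => Φ w.swap) (Φ' := fun w => Φ' w.swap)
    (hc.comp continuous_swap.continuousOn fun w hw => ⟨hw.2, hw.1⟩)
    (fun w hw => hd w.swap ⟨hw.2, hw.1⟩) h0 h1

lemma cont_pt : Continuous pt := by unfold pt; fun_prop

lemma contF {S : Set (ℝ × ℝ)} {F : ℂ → ℂ} (hF : ∀ w ∈ S, AnalyticAt ℂ F (pt w)) :
    ContinuousOn (fun w => F (pt w)) S := fun w hw =>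
  ((hF w hw).continuousAt.comp cont_pt.continuousAt).continuousWithinAt

lemma contH {S : Set (ℝ × ℝ)} {F : ℂ → ℂ} (hF : ∀ w ∈ S, AnalyticAt ℂ F (conj (pt w))) :
    ContinuousOn (fun w => F (conj (pt w))) S := fun w hw =>
  (ContinuousAt.comp (f := fun w => conj (pt w)) (hF w hw).continuousAt
    (Complex.continuous_conj.comp cont_pt).continuousAt).continuousWithinAt

lemma ptX (w : ℝ × ℝ) : HasDerivAt (fun x : ℝ => pt (x, w.2)) 1 w.1 := by
  simpa [pt] using (Complex.ofRealCLM.hasDerivAt (x := w.1)).add_const ((w.2 : ℂ) * Complex.I)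

lemma ptY (w : ℝ × ℝ) : HasDerivAt (fun y : ℝ => pt (w.1, y)) Complex.I w.2 := by
  simpa [pt] using
    ((Complex.ofRealCLM.hasDerivAt (x := w.2)).mul_const Complex.I).const_add (w.1 : ℂ)

lemma conj_pt (w : ℝ × ℝ) : conj (pt w) = w.1 - w.2 * Complex.I := by
  simp [pt, sub_eq_add_neg]

lemma cptX (w : ℝ × ℝ) : HasDerivAt (fun x : ℝ => conj (pt (x, w.2))) 1 w.1 := by
  simpa [conj_pt] using
    (Complex.ofRealCLM.hasDerivAt (x := w.1)).sub_const ((w.2 : ℂ) * Complex.I)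

lemma cptY (w : ℝ × ℝ) : HasDerivAt (fun y : ℝ => conj (pt (w.1, y))) (-Complex.I) w.2 := by
  simpa [conj_pt] using
    ((Complex.ofRealCLM.hasDerivAt (x := w.2)).mul_const Complex.I).const_sub (w.1 : ℂ)

lemma dcomp {F : ℂ → ℂ} {g : ℝ → ℂ} {g' z : ℂ} {x : ℝ} (hF : AnalyticAt ℂ F z)
    (hg : HasDerivAt g g' x) (e : g x = z) : HasDerivAt (fun t => F (g t)) (deriv F z * g') x := by
  subst e
  exact hF.differentiableAt.hasDerivAt.comp x hg

/-- One integration by parts. -/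
lemma step (hab : a ≤ b) (hcd : c ≤ d) {u u' v v' : ℝ → ℂ} (hu : ∀ x, HasDerivAt u (u' x) x)
    (hu' : Continuous u') (hv : ∀ x, HasDerivAt v (v' x) x) (hv' : Continuous v')
    (ua : u a = 0) (ub : u b = 0) (vc : v c = 0) (vd : v d = 0) {G H Θ T : ℂ → ℂ}
    (hG : ∀ w ∈ Icc a b ×ˢ Icc c d, AnalyticAt ℂ G (pt w))
    (hH : ∀ w ∈ Icc a b ×ˢ Icc c d, AnalyticAt ℂ H (conj (pt w)))
    (hΘ : ∀ w ∈ Icc a b ×ˢ Icc c d, AnalyticAt ℂ Θ (pt w))
    (hT : ∀ w ∈ Icc a b ×ˢ Icc c d, AnalyticAt ℂ T (pt w))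
    (he : ∀ w ∈ Icc a b ×ˢ Icc c d, deriv G (pt w) * Θ (pt w) = G (pt w)) :
    ∫ w in Icc a b ×ˢ Icc c d, u w.1 * v w.2 * T (pt w) * (G (pt w) * H (conj (pt w))) =
      ∫ w in Icc a b ×ˢ Icc c d, (-(1 / 2) * (u' w.1 * v w.2 * (T (pt w) * Θ (pt w))) +
        Complex.I / 2 * (u w.1 * v' w.2 * (T (pt w) * Θ (pt w))) - u w.1 * v w.2 *
          (deriv T (pt w) * Θ (pt w) + T (pt w) * deriv Θ (pt w))) *
        (G (pt w) * H (conj (pt w))) := by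
  have cu : Continuous u := continuous_iff_continuousAt.2 fun x => (hu x).continuousAt
  have cv : Continuous v := continuous_iff_continuousAt.2 fun x => (hv x).continuousAt
  have c1 : ContinuousOn (fun w : ℝ × ℝ => u w.1) (Icc a b ×ˢ Icc c d) := by fun_prop
  have c2 : ContinuousOn (fun w : ℝ × ℝ => u' w.1) (Icc a b ×ˢ Icc c d) := by fun_prop
  have c3 : ContinuousOn (fun w : ℝ × ℝ => v w.2) (Icc a b ×ˢ Icc c d) := by fun_prop
  have c4 : ContinuousOn (fun w : ℝ × ℝ => v' w.2) (Icc a b ×ˢ Icc c d) := by fun_prop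
  let F : ℂ → ℂ := fun z => T z * Θ z * G z
  have hF : ∀ w ∈ Icc a b ×ˢ Icc c d, AnalyticAt ℂ F (pt w) := fun w hw =>
    ((hT w hw).mul (hΘ w hw)).mul (hG w hw)
  have dF : ∀ w ∈ Icc a b ×ˢ Icc c d, deriv F (pt w) =
      (deriv T (pt w) * Θ (pt w) + T (pt w) * deriv Θ (pt w)) * G (pt w) + T (pt w) * G (pt w) := by
    intro w hw
    have := (((hT w hw).differentiableAt.hasDerivAt.mul (hΘ w hw).differentiableAt.hasDerivAt).mul
      (hG w hw).differentiableAt.hasDerivAt).deriv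
    refine this.trans ?_
    simp only [Pi.mul_apply]
    linear_combination T (pt w) * he w hw
  have cF := contF hF
  have cF' := contF fun w hw => (hF w hw).deriv
  have cH := contH hH
  have cH' := contH fun w hw => (hH w hw).deriv
  have cG := contF hG
  have cΘ := contF hΘ
  have cT := contF hT
  have cΘ' := contF fun w hw => (hΘ w hw).deriv
  have cT' := contF fun w hw => (hT w hw).deriv
  let Φ : ℝ × ℝ → ℂ := fun w => u w.1 * v w.2 * (F (pt w) * H (conj (pt w)))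
  let ΦX : ℝ × ℝ → ℂ := fun w => u' w.1 * v w.2 * (F (pt w) * H (conj (pt w))) +
    u w.1 * v w.2 * (deriv F (pt w) * 1 * H (conj (pt w)) + F (pt w) * (deriv H (conj (pt w)) * 1))
  let ΦY : ℝ × ℝ → ℂ := fun w => u w.1 * v' w.2 * (F (pt w) * H (conj (pt w))) +
    u w.1 * v w.2 * (deriv F (pt w) * Complex.I * H (conj (pt w)) +
      F (pt w) * (deriv H (conj (pt w)) * -Complex.I))
  have cX : ContinuousOn ΦX (Icc a b ×ˢ Icc c d) :=
    ((c2.mul c3).mul (cF.mul cH)).add ((c1.mul c3).mul (((cF'.mul continuousOn_const).mul cH).add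
      (cF.mul (cH'.mul continuousOn_const))))
  have cY : ContinuousOn ΦY (Icc a b ×ˢ Icc c d) :=
    ((c1.mul c4).mul (cF.mul cH)).add ((c1.mul c3).mul (((cF'.mul continuousOn_const).mul cH).add
      (cF.mul (cH'.mul continuousOn_const))))
  have hX := zeroX hab (Φ := Φ) cX (fun w hw => ((hu w.1).mul_const (v w.2)).mul
    ((dcomp (hF w hw) (ptX w) rfl).mul (dcomp (hH w hw) (cptX w) rfl))) (fun y => by simp [Φ, ua])
    (fun y => by simp [Φ, ub])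
  have hY := zeroY hcd (Φ := Φ) cY (fun w hw => ((hv w.2).const_mul (u w.1)).mul
    ((dcomp (hF w hw) (ptY w) rfl).mul (dcomp (hH w hw) (cptY w) rfl))) (fun y => by simp [Φ, vc])
    (fun y => by simp [Φ, vd])
  have iR := intOn ((((continuousOn_const (c := (-(1 / 2) : ℂ))).mul
    ((c2.mul c3).mul (cT.mul cΘ))).add ((continuousOn_const (c := Complex.I / 2)).mul
      ((c1.mul c4).mul (cT.mul cΘ)))).sub ((c1.mul c3).mul ((cT'.mul cΘ).add (cT.mul cΘ'))) |>.mul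
        (cG.mul cH))
  have iX := (intOn cX).const_mul (1 / 2)
  have iY := (intOn cY).const_mul (Complex.I / 2)
  have e := integral_add iR (iX.sub iY)
  rw [integral_sub' iX iY, integral_const_mul, integral_const_mul, hX, hY, mul_zero, mul_zero,
    sub_zero, add_zero] at e
  refine Eq.trans ?_ e
  refine setIntegral_congr_fun (measurableSet_Icc.prod measurableSet_Icc) fun w hw => ?_
  simp only [Pi.mul_apply, Pi.add_apply, Pi.sub_apply, ΦX, ΦY, dF w hw, F]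
  have hI := Complex.I_mul_I
  linear_combination (u w.1 * v w.2 / 2 * ((((deriv T (pt w) * Θ (pt w) +
    T (pt w) * deriv Θ (pt w)) * G (pt w) + T (pt w) * G (pt w))) * H (conj (pt w)) -
      T (pt w) * Θ (pt w) * G (pt w) * deriv H (conj (pt w)))) * hI

lemma bound {A P : ℝ × ℝ → ℂ} {m Cp : ℝ} (hA : ∀ w ∈ Icc a b ×ˢ Icc c d, ‖A w‖ ≤ m)
    (hP : ∀ w ∈ Icc a b ×ˢ Icc c d, ‖P w‖ ≤ Cp) :
    ‖∫ w in Icc a b ×ˢ Icc c d, A w * P w‖ ≤ m * Cp * volume.real (Icc a b ×ˢ Icc c d) :=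
  norm_setIntegral_le_of_norm_le_const (isCompact_Icc.prod isCompact_Icc).measure_lt_top
    fun w hw => by
      rw [norm_mul]
      exact mul_le_mul (hA w hw) (hP w hw) (norm_nonneg _) ((norm_nonneg _).trans (hA w hw))

lemma step_le (hab : a ≤ b) (hcd : c ≤ d) {u u' v v' : ℝ → ℂ} (hu : ∀ x, HasDerivAt u (u' x) x)
    (hu' : Continuous u') (hv : ∀ x, HasDerivAt v (v' x) x) (hv' : Continuous v')
    (ua : u a = 0) (ub : u b = 0) (vc : v c = 0) (vd : v d = 0) {G H Θ T : ℂ → ℂ}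
    (hG : ∀ w ∈ Icc a b ×ˢ Icc c d, AnalyticAt ℂ G (pt w))
    (hH : ∀ w ∈ Icc a b ×ˢ Icc c d, AnalyticAt ℂ H (conj (pt w)))
    (hΘ : ∀ w ∈ Icc a b ×ˢ Icc c d, AnalyticAt ℂ Θ (pt w))
    (hT : ∀ w ∈ Icc a b ×ˢ Icc c d, AnalyticAt ℂ T (pt w))
    (he : ∀ w ∈ Icc a b ×ˢ Icc c d, deriv G (pt w) * Θ (pt w) = G (pt w)) {W ε Cp : ℝ}
    (bu : ∀ x ∈ Icc a b, ‖u x‖ ≤ W ∧ ‖u' x‖ ≤ W) (bv : ∀ x ∈ Icc c d, ‖v x‖ ≤ W ∧ ‖v' x‖ ≤ W)
    (bΘ : ∀ w ∈ Icc a b ×ˢ Icc c d, ‖Θ (pt w)‖ ≤ ε ∧ ‖deriv Θ (pt w)‖ ≤ ε)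
    (bT : ∀ w ∈ Icc a b ×ˢ Icc c d, ‖T (pt w)‖ ≤ ε ∧ ‖deriv T (pt w)‖ ≤ ε)
    (hP : ∀ w ∈ Icc a b ×ˢ Icc c d, ‖G (pt w) * H (conj (pt w))‖ ≤ Cp) :
    ‖∫ w in Icc a b ×ˢ Icc c d, u w.1 * v w.2 * T (pt w) * (G (pt w) * H (conj (pt w)))‖ ≤
      3 * (W * W) * (ε * ε) * Cp * volume.real (Icc a b ×ˢ Icc c d) := by
  rw [step hab hcd hu hu' hv hv' ua ub vc vd hG hH hΘ hT he]
  refine bound (fun w hw => ?_) hP
  obtain ⟨h1, h2⟩ := bu _ hw.1
  obtain ⟨h3, h4⟩ := bv _ hw.2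
  obtain ⟨h5, h6⟩ := bΘ _ hw
  obtain ⟨h7, h8⟩ := bT _ hw
  have hW : 0 ≤ W := (norm_nonneg _).trans h1
  have hε : 0 ≤ ε := (norm_nonneg _).trans h5
  have m : ∀ {x y : ℂ} {s t : ℝ}, ‖x‖ ≤ s → ‖y‖ ≤ t → ‖x * y‖ ≤ s * t := fun h h' =>
    norm_mul_le_of_le h h'
  have k1 := m (show ‖(-(1 / 2) : ℂ)‖ ≤ 1 / 2 by simp) (m (m h2 h3) (m h7 h5))
  have k2 := m (show ‖(Complex.I / 2 : ℂ)‖ ≤ 1 / 2 by simp) (m (m h1 h4) (m h7 h5))
  have k3 := m (m h1 h3) (norm_add_le_of_le (m h8 h5) (m h7 h6))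
  refine (norm_sub_le_of_le (norm_add_le_of_le k1 k2) k3).trans (le_of_eq ?_)
  ring

/-- The weight. -/
def wt (a b x : ℝ) : ℂ := (x - a) ^ 2 * (b - x) ^ 2

/-- Its derivative. -/
def wt1 (a b x : ℝ) : ℂ := 2 * (x - a) * (b - x) ^ 2 - 2 * (x - a) ^ 2 * (b - x)

/-- Its second derivative. -/
def wt2 (a b x : ℝ) : ℂ := 2 * (b - x) ^ 2 - 8 * (x - a) * (b - x) + 2 * (x - a) ^ 2

lemma d_wt (a b x : ℝ) : HasDerivAt (wt a b) (wt1 a b x) x := by
  have h : HasDerivAt (fun x : ℝ => (x : ℂ)) 1 x := Complex.ofRealCLM.hasDerivAt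
  refine (((h.sub_const (a : ℂ)).pow 2).mul ((h.const_sub (b : ℂ)).pow 2)).congr_deriv ?_
  simp [wt1]; ring

lemma d_wt1 (a b x : ℝ) : HasDerivAt (wt1 a b) (wt2 a b x) x := by
  have h : HasDerivAt (fun x : ℝ => (x : ℂ)) 1 x := Complex.ofRealCLM.hasDerivAt
  refine ((((h.sub_const (a : ℂ)).const_mul 2).mul ((h.const_sub (b : ℂ)).pow 2)).sub
    ((((h.sub_const (a : ℂ)).pow 2).const_mul 2).mul (h.const_sub (b : ℂ)))).congr_deriv ?_
  simp [wt2]; ring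

lemma c_wt (a b : ℝ) : Continuous (wt a b) := by unfold wt; fun_prop

lemma c_wt1 (a b : ℝ) : Continuous (wt1 a b) := by unfold wt1; fun_prop

lemma c_wt2 (a b : ℝ) : Continuous (wt2 a b) := by unfold wt2; fun_prop

lemma wt_bdd (a b : ℝ) : ∃ W, 0 ≤ W ∧ ∀ x ∈ Icc a b, ‖wt a b x‖ ≤ W ∧ ‖wt1 a b x‖ ≤ W ∧
    ‖wt2 a b x‖ ≤ W := by
  obtain ⟨W, hW⟩ := (isCompact_Icc (a := a) (b := b)).exists_bound_of_continuousOn
    (((c_wt a b).prodMk ((c_wt1 a b).prodMk (c_wt2 a b))).continuousOn)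
  refine ⟨max W 0, le_max_right _ _, fun x hx => ?_⟩
  have h := (hW x hx).trans (le_max_left W 0)
  simpa only [Prod.norm_mk, max_le_iff] using h

/-- Two integrations by parts. -/
lemma kern (hab : a ≤ b) (hcd : c ≤ d) : ∃ C₀, 0 ≤ C₀ ∧ ∀ (G H : ℂ → ℂ) (Cp : ℝ),
    (∀ w ∈ Icc a b ×ˢ Icc c d, ‖G (pt w) * H (conj (pt w))‖ ≤ Cp) → 0 ≤ Cp →
    ‖∫ w in Icc a b ×ˢ Icc c d, wt a b w.1 * wt c d w.2 * (G (pt w) * H (conj (pt w)))‖ ≤
      C₀ * Cp ∧ ∀ (Θ : ℂ → ℂ) (ε : ℝ),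
    (∀ w ∈ Icc a b ×ˢ Icc c d, AnalyticAt ℂ G (pt w)) →
    (∀ w ∈ Icc a b ×ˢ Icc c d, AnalyticAt ℂ H (conj (pt w))) →
    (∀ w ∈ Icc a b ×ˢ Icc c d, AnalyticAt ℂ Θ (pt w)) →
    (∀ w ∈ Icc a b ×ˢ Icc c d, deriv G (pt w) * Θ (pt w) = G (pt w)) →
    (∀ w ∈ Icc a b ×ˢ Icc c d, ‖Θ (pt w)‖ ≤ ε ∧ ‖deriv Θ (pt w)‖ ≤ ε ∧
      ‖deriv (deriv Θ) (pt w)‖ ≤ ε) →
    ‖∫ w in Icc a b ×ˢ Icc c d, wt a b w.1 * wt c d w.2 * (G (pt w) * H (conj (pt w)))‖ ≤
      C₀ * Cp * ε ^ 2 := by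
  obtain ⟨W1, h1, hW1⟩ := wt_bdd a b
  obtain ⟨W2, h2, hW2⟩ := wt_bdd c d
  obtain ⟨W, hW⟩ : ∃ W, W = max W1 W2 := ⟨_, rfl⟩
  have bu : ∀ x ∈ Icc a b, ‖wt a b x‖ ≤ W ∧ ‖wt1 a b x‖ ≤ W ∧ ‖wt2 a b x‖ ≤ W := fun x hx => by
    have := le_max_left W1 W2
    obtain ⟨_, _, _⟩ := hW1 x hx
    refine ⟨?_, ?_, ?_⟩ <;> linarith
  have bv : ∀ x ∈ Icc c d, ‖wt c d x‖ ≤ W ∧ ‖wt1 c d x‖ ≤ W ∧ ‖wt2 c d x‖ ≤ W := fun x hx => by
    have := le_max_right W1 W2
    obtain ⟨_, _, _⟩ := hW2 x hx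
    refine ⟨?_, ?_, ?_⟩ <;> linarith
  have hV : 0 ≤ volume.real (Icc a b ×ˢ Icc c d) := measureReal_nonneg
  refine ⟨6 * (W * W) * volume.real (Icc a b ×ˢ Icc c d), by
    have := mul_self_nonneg W; positivity, fun G H Cp hP hCp => ⟨?_, ?_⟩⟩
  · refine (bound (m := W * W) (fun w hw => norm_mul_le_of_le (bu _ hw.1).1 (bv _ hw.2).1) hP).trans ?_
    have := mul_nonneg (mul_nonneg (mul_self_nonneg W) hCp) hV
    linarith
  intro Θ ε hG hH hΘ he bΘ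
  have hΘ' : ∀ w ∈ Icc a b ×ˢ Icc c d, AnalyticAt ℂ (deriv Θ) (pt w) := fun w hw => (hΘ w hw).deriv
  have s0 := step hab hcd (d_wt a b) (c_wt1 a b) (d_wt c d) (c_wt1 c d) (by simp [wt])
    (by simp [wt]) (by simp [wt]) (by simp [wt]) (T := fun _ => 1) hG hH hΘ
    (fun _ _ => analyticAt_const) he
  have b1 : ∀ w ∈ Icc a b ×ˢ Icc c d, ‖Θ (pt w)‖ ≤ ε ∧ ‖deriv Θ (pt w)‖ ≤ ε := fun w hw =>
    ⟨(bΘ w hw).1, (bΘ w hw).2.1⟩
  have s1 := step_le hab hcd (d_wt1 a b) (c_wt2 a b) (d_wt c d) (c_wt1 c d) (by simp [wt1])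
    (by simp [wt1]) (by simp [wt]) (by simp [wt]) hG hH hΘ hΘ he (fun x hx => (bu x hx).2)
    (fun x hx => ⟨(bv x hx).1, (bv x hx).2.1⟩) b1 b1 hP
  have s2 := step_le hab hcd (d_wt a b) (c_wt1 a b) (d_wt1 c d) (c_wt2 c d) (by simp [wt])
    (by simp [wt]) (by simp [wt1]) (by simp [wt1]) hG hH hΘ hΘ he
    (fun x hx => ⟨(bu x hx).1, (bu x hx).2.1⟩) (fun x hx => (bv x hx).2) b1 b1 hP
  have s3 := step_le hab hcd (d_wt a b) (c_wt1 a b) (d_wt c d) (c_wt1 c d) (by simp [wt])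
    (by simp [wt]) (by simp [wt]) (by simp [wt]) hG hH hΘ hΘ' he
    (fun x hx => ⟨(bu x hx).1, (bu x hx).2.1⟩) (fun x hx => ⟨(bv x hx).1, (bv x hx).2.1⟩) b1
    (fun w hw => (bΘ w hw).2) hP
  have cP := (contF hG).mul (contH hH)
  have ci : ∀ {u v : ℝ → ℂ} {T : ℂ → ℂ}, Continuous u → Continuous v →
      (∀ w ∈ Icc a b ×ˢ Icc c d, AnalyticAt ℂ T (pt w)) → Integrable
        (fun w : ℝ × ℝ => u w.1 * v w.2 * T (pt w) * (G (pt w) * H (conj (pt w))))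
        (volume.restrict (Icc a b ×ˢ Icc c d)) := fun hu hv hT =>
    intOn ((((hu.comp continuous_fst).mul (hv.comp continuous_snd)).continuousOn.mul
      (contF hT)).mul cP)
  have i1 := (ci (c_wt1 a b) (c_wt c d) hΘ).const_mul (-(1 / 2))
  have i2 := (ci (c_wt a b) (c_wt1 c d) hΘ).const_mul (Complex.I / 2)
  have i3 := ci (c_wt a b) (c_wt c d) hΘ'
  have e := integral_sub' (i1.add i2) i3
  rw [integral_add' i1 i2, integral_const_mul, integral_const_mul] at e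
  simp only [mul_one, one_mul, deriv_const', zero_mul, zero_add] at s0
  rw [s0, (integral_congr_ae (ae_of_all _ fun w => by
    simp only [Pi.add_apply, Pi.sub_apply]; ring)).trans e]
  have m : ∀ {x y : ℂ} {s t : ℝ}, ‖x‖ ≤ s → ‖y‖ ≤ t → ‖x * y‖ ≤ s * t := fun h h' =>
    norm_mul_le_of_le h h'
  refine (norm_sub_le_of_le (norm_add_le_of_le (m (show ‖(-(1 / 2) : ℂ)‖ ≤ 1 / 2 by simp) s1)
    (m (show ‖(Complex.I / 2 : ℂ)‖ ≤ 1 / 2 by simp) s2)) s3).trans (le_of_eq ?_)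
  ring

lemma log_lip {η : ℝ} (hη : 0 < η) {x y : ℂ} (hx : η ≤ x.im) (hy : η ≤ y.im) :
    ‖Complex.log x - Complex.log y‖ ≤ η⁻¹ * ‖x - y‖ :=
  (convex_halfSpace_im_ge η).norm_image_sub_le_of_norm_hasDerivWithin_le (𝕜 := ℂ)
    (f := Complex.log) (f' := fun w => w⁻¹)
    (fun w hw => (Complex.hasDerivAt_log (Or.inr (by
      have : η ≤ w.im := hw
      linarith))).hasDerivWithinAt)
    (fun w hw => by
      rw [norm_inv]
      exact inv_anti₀ hη (le_trans hw ((le_abs_self _).trans (Complex.abs_im_le_norm w)))) hy hx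

lemma log_cj {x : ℂ} (hx : x.im ≠ 0) : Complex.log (conj x) = conj (Complex.log x) :=
  Complex.log_conj x fun h => hx (Complex.arg_eq_pi_iff.1 h).2

lemma exp_le {η h r : ℝ} (hη : 0 < η) (hh : 0 < h) {x y : ℂ} (hx : η ≤ x.im) (hy : η ≤ y.im)
    (hr : ‖x - y‖ ≤ r * h) :
    ‖Complex.exp (-(1 / 2 + (1 / h : ℝ) * Complex.I) * (Complex.log x + Complex.log (conj y)))‖ ≤
      exp (η⁻¹ * r - log η) := by
  rw [Complex.norm_exp, log_cj (by linarith : y.im ≠ 0), exp_le_exp]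
  have h1 := (Complex.abs_im_le_norm _).trans ((log_lip hη hx hy).trans
    (mul_le_mul_of_nonneg_left hr (inv_pos.2 hη).le))
  have h2 : ∀ z : ℂ, η ≤ z.im → log η ≤ (Complex.log z).re := fun z hz => by
    rw [Complex.log_re]
    exact log_le_log hη (hz.trans ((le_abs_self _).trans (Complex.abs_im_le_norm z)))
  have h3 := h2 x hx
  have h4 := h2 y hy
  have h5 : 1 / h * (Complex.log x - Complex.log y).im ≤ η⁻¹ * r := by
    rw [one_div, inv_mul_le_iff₀ hh]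
    linarith [le_abs_self (Complex.log x - Complex.log y).im]
  have e : (-(1 / 2 + (1 / h : ℝ) * Complex.I) * (Complex.log x + conj (Complex.log y))).re =
      -(1 / 2) * ((Complex.log x).re + (Complex.log y).re) +
        1 / h * (Complex.log x - Complex.log y).im := by
    generalize 1 / h = l
    simp only [Complex.mul_re, Complex.neg_re, Complex.add_re, Complex.neg_im, Complex.add_im,
      Complex.mul_im, Complex.ofReal_re, Complex.ofReal_im, Complex.I_re, Complex.I_im,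
      Complex.conj_re, Complex.conj_im, Complex.sub_im, Complex.div_ofNat_re, Complex.div_ofNat_im,
      Complex.one_re, Complex.one_im]
    ring
  rw [e]
  linarith

/-- The holomorphic factor. -/
noncomputable def gg (s α β z : ℂ) : ℂ :=
  Complex.exp (-s * Complex.log (z - α) - conj s * Complex.log (z - β))

lemma gg_an (s : ℂ) {α β z : ℂ} (h1 : (z - α).im ≠ 0) (h2 : (z - β).im ≠ 0) :
    AnalyticAt ℂ (gg s α β) z :=
  ((analyticAt_const.mul ((analyticAt_id.sub analyticAt_const).clog (Or.inr h1))).sub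
    (analyticAt_const.mul ((analyticAt_id.sub analyticAt_const).clog (Or.inr h2)))).cexp

lemma gg_deriv (s : ℂ) {α β z : ℂ} (h1 : (z - α).im ≠ 0) (h2 : (z - β).im ≠ 0) :
    deriv (gg s α β) z = gg s α β z * (-s * (1 / (z - α)) - conj s * (1 / (z - β))) :=
  (((((hasDerivAt_id z).sub_const α).clog (Or.inr h1)).const_mul (-s)).sub
    ((((hasDerivAt_id z).sub_const β).clog (Or.inr h2)).const_mul (conj s))).cexp.deriv

lemma fk_mul (s z α β α' β' : ℂ) (h1 : (z - α').im ≠ 0) (h2 : (conj z - β').im ≠ 0) :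
    Complex.exp (-s * (Complex.log (z - α) + Complex.log (conj z - β))) *
      conj (Complex.exp (-s * (Complex.log (z - α') + Complex.log (conj z - β')))) =
      gg s α (conj β') z * gg s β (conj α') (conj z) := by
  rw [← Complex.exp_conj, gg, gg, ← Complex.exp_add, ← Complex.exp_add, map_mul, map_add,
    ← log_cj h1, ← log_cj h2, map_sub, map_sub, Complex.conj_conj, map_neg]
  congr 1
  ring

/-- The quotient of the holomorphic factor by its derivative. -/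
noncomputable def th (α β ν z : ℂ) : ℂ := -((z - α) * (z - β)) / (z - ν)

lemma th_d {α β ν z : ℂ} (h : z - ν ≠ 0) : HasDerivAt (th α β ν)
    (-((z - α) + (z - β)) / (z - ν) + (z - α) * (z - β) / (z - ν) ^ 2) z := by
  refine (((((hasDerivAt_id z).sub_const α).mul ((hasDerivAt_id z).sub_const β)).neg).div
    ((hasDerivAt_id z).sub_const ν) h).congr_deriv ?_
  simp only [id, Pi.neg_apply, Pi.mul_apply]
  field_simp
  ring

lemma th_dd {α β ν z : ℂ} (h : z - ν ≠ 0) : deriv (deriv (th α β ν)) z =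
    -2 / (z - ν) + 2 * ((z - α) + (z - β)) / (z - ν) ^ 2 -
      2 * ((z - α) * (z - β)) / (z - ν) ^ 3 := by
  have e : deriv (th α β ν) =ᶠ[nhds z] fun z =>
      -((z - α) + (z - β)) / (z - ν) + (z - α) * (z - β) / (z - ν) ^ 2 := by
    filter_upwards [(continuous_id.sub continuous_const).continuousAt.eventually_ne h] with y hy
    exact (th_d hy).deriv
  rw [e.deriv_eq]
  have h1 := (hasDerivAt_id z).sub_const α
  have h2 := (hasDerivAt_id z).sub_const β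
  have h3 := (hasDerivAt_id z).sub_const ν
  refine ((((h1.add h2).neg.div h3 h).add ((h1.mul h2).div (h3.pow 2)
    (pow_ne_zero 2 h))).deriv).trans ?_
  simp only [id, Pi.neg_apply, Pi.mul_apply, Pi.add_apply, Pi.pow_apply]
  field_simp
  ring

lemma th_le {α β ν z : ℂ} {M n : ℝ} (hM : 1 ≤ M) (h1 : ‖z - α‖ ≤ M) (h2 : ‖z - β‖ ≤ M)
    (hn : 1 ≤ n) (h3 : n ≤ ‖z - ν‖) : ‖th α β ν z‖ ≤ 8 * M ^ 2 / n ∧
      ‖deriv (th α β ν) z‖ ≤ 8 * M ^ 2 / n ∧ ‖deriv (deriv (th α β ν)) z‖ ≤ 8 * M ^ 2 / n := by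
  have h0 : z - ν ≠ 0 := norm_pos_iff.1 (by linarith)
  have hM2 : M ≤ M ^ 2 := by nlinarith
  have q : ∀ {x : ℂ} {t : ℝ} (k : ℕ), ‖x‖ ≤ t → ‖x / (z - ν) ^ (k + 1)‖ ≤ t / n := fun k h => by
    rw [norm_div, norm_pow]
    refine div_le_div₀ ((norm_nonneg _).trans h) h (by linarith) (h3.trans ?_)
    exact le_self_pow₀ (by linarith) (by omega)
  have q1 : ‖(z - α) * (z - β)‖ ≤ M ^ 2 := by rw [sq]; exact norm_mul_le_of_le h1 h2
  have q2 : ‖(z - α) + (z - β)‖ ≤ 2 * M ^ 2 := (norm_add_le_of_le h1 h2).trans (by linarith)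
  have q3 : ∀ {x : ℂ} {t : ℝ}, ‖x‖ ≤ t → ‖2 * x‖ ≤ 2 * t := fun h =>
    norm_mul_le_of_le (by simp) h
  have p : 0 ≤ M ^ 2 / n := by positivity
  rw [(th_d h0).deriv, th_dd h0, th, mul_div_assoc]
  refine ⟨?_, ?_, ?_⟩
  · have := q 0 ((norm_neg _).trans_le q1)
    rw [zero_add, pow_one] at this
    linarith
  · have := q 0 ((norm_neg _).trans_le q2)
    rw [zero_add, pow_one, mul_div_assoc] at this
    refine (norm_add_le_of_le this (q 1 q1)).trans (by linarith)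
  · have := q 0 (x := -2) (t := 2 * M ^ 2) (by rw [norm_neg, Complex.norm_ofNat]; linarith)
    rw [zero_add, pow_one, mul_div_assoc] at this
    have k2 := q 1 (q3 q2)
    have k3 := q 2 (q3 q1)
    rw [mul_div_assoc 2 (2 * M ^ 2), mul_div_assoc 2 (M ^ 2)] at k2
    rw [mul_div_assoc 2 (M ^ 2)] at k3
    refine (norm_sub_le_of_le (norm_add_le_of_le this k2) k3).trans (by linarith)

/-- The kernel as a function on the plane. -/
noncomputable def ee (h : ℝ) (α β : ℂ) (w : ℝ × ℝ) : ℂ :=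
  Complex.exp (-(1 / 2 + (1 / h : ℝ) * Complex.I) *
    (Complex.log (pt w - α) + Complex.log (conj (pt w) - β)))

lemma near {z₀ γ : ℂ} {B p : ℝ} {w : ℝ × ℝ} (hw : w ∈ Sq z₀ (z₀.im / 2)) (hp : |p| ≤ B)
    (hγ : ‖γ - p‖ ≤ z₀.im / 4) : z₀.im / 4 ≤ (pt w - γ).im ∧
      ‖pt w - γ‖ ≤ 1 + |z₀.re| + 3 * z₀.im + |B| := by
  obtain ⟨⟨h1, h2⟩, h3, h4⟩ := hw
  have h5 := (Complex.abs_im_le_norm _).trans hγ
  have h0 := norm_nonneg (γ - p)
  simp only [Complex.sub_im, Complex.ofReal_im, sub_zero, abs_le] at h5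
  refine ⟨by simp [pt]; linarith, ?_⟩
  have h6 : ‖pt w‖ ≤ |w.1| + |w.2| := by
    simpa [pt] using Complex.norm_le_abs_re_add_abs_im (pt w)
  have h7 : ‖pt w - γ‖ ≤ ‖pt w‖ + (‖γ - p‖ + ‖(p : ℂ)‖) :=
    norm_sub_le_of_le le_rfl (norm_le_norm_sub_add _ _)
  rw [Complex.norm_real, Real.norm_eq_abs] at h7
  have h8 : |w.1| ≤ |z₀.re| + z₀.im / 2 :=
    abs_le.2 ⟨by linarith [neg_abs_le z₀.re], by linarith [le_abs_self z₀.re]⟩
  have h9 : |w.2| ≤ 2 * z₀.im := abs_le.2 ⟨by linarith, by linarith⟩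
  linarith [le_abs_self B]

lemma cj_near {γ : ℂ} {p t : ℝ} (h : ‖γ - p‖ ≤ t) : ‖conj γ - p‖ ≤ t := by
  rwa [← Complex.norm_conj, map_sub, Complex.conj_conj, Complex.conj_ofReal]

lemma im_cj (z γ : ℂ) : (conj z - γ).im = -(z - conj γ).im := by simp; ring

lemma c_ee {z₀ α β : ℂ} {B p : ℝ} (hz : 0 < z₀.im) (h : ℝ) (hp : |p| ≤ B)
    (hα : ‖α - p‖ ≤ z₀.im / 4) (hβ : ‖β - p‖ ≤ z₀.im / 4) :
    ContinuousOn (ee h α β) (Sq z₀ (z₀.im / 2)) := by
  refine (continuousOn_const.mul (ContinuousOn.add (ContinuousOn.clog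
    (cont_pt.sub continuous_const).continuousOn fun w hw => Or.inr ?_) (ContinuousOn.clog
    ((Complex.continuous_conj.comp cont_pt).sub continuous_const).continuousOn
      fun w hw => Or.inr ?_))).cexp
  · have := (near hw hp hα).1
    change (pt w - α).im ≠ 0
    exact ne_of_gt (by linarith)
  · have := (near hw hp (cj_near hβ)).1
    change (conj (pt w) - β).im ≠ 0
    rw [im_cj]
    exact ne_of_lt (by linarith)

lemma pair {z₀ : ℂ} (hz : 0 < z₀.im) (B : ℝ) {r : ℝ} (hr : 0 ≤ r) : ∃ C > 0, ∀ h > 0,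
    r * h ≤ z₀.im / 4 → ∀ (α β α' β' : ℂ) (p p' : ℝ), |p| ≤ B → |p'| ≤ B → ‖α - p‖ ≤ r * h →
    ‖β - p‖ ≤ r * h → ‖α' - p'‖ ≤ r * h → ‖β' - p'‖ ≤ r * h →
    ‖∫ w in Sq z₀ (z₀.im / 2), wt (z₀.re - z₀.im / 2) (z₀.re + z₀.im / 2) w.1 *
      wt (z₀.im - z₀.im / 2) (z₀.im + z₀.im / 2) w.2 * (ee h α β w * conj (ee h α' β' w))‖ ≤
      C / (1 + |p - p'| / h) ^ 2 := by
  obtain ⟨C₀, hC₀, hk⟩ := kern (a := z₀.re - z₀.im / 2) (b := z₀.re + z₀.im / 2)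
    (c := z₀.im - z₀.im / 2) (d := z₀.im + z₀.im / 2) (by linarith) (by linarith)
  obtain ⟨M, hM⟩ : ∃ M, M = 1 + |z₀.re| + 3 * z₀.im + |B| := ⟨_, rfl⟩
  have hM1 : 1 ≤ M := by have := abs_nonneg z₀.re; have := abs_nonneg B; linarith
  obtain ⟨C₁, hC₁⟩ : ∃ C₁, C₁ = exp ((z₀.im / 4)⁻¹ * (2 * r) - log (z₀.im / 4)) := ⟨_, rfl⟩
  have hη : 0 < z₀.im / 4 := by linarith
  have hCp : 0 ≤ C₁ * C₁ := mul_self_nonneg _
  refine ⟨C₀ * (C₁ * C₁) * ((16 * M ^ 2) ^ 2 + (4 * r + 2 * M + 2) ^ 2) + 1, by positivity,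
    fun h hh hrh α β α' β' p p' hp hp' h1 h2 h3 h4 => ?_⟩
  obtain ⟨s, hs⟩ : ∃ s : ℂ, s = 1 / 2 + (1 / h : ℝ) * Complex.I := ⟨_, rfl⟩
  have nn : ∀ {γ : ℂ} {q : ℝ}, |q| ≤ B → ‖γ - q‖ ≤ r * h → ∀ w ∈ Sq z₀ (z₀.im / 2),
      (pt w - γ).im ≠ 0 ∧ (conj (pt w) - γ).im ≠ 0 ∧ ‖pt w - γ‖ ≤ M := fun hq hγ w hw => by
    have k1 := near hw hq (hγ.trans hrh)
    have k2 := near hw hq (cj_near (hγ.trans hrh))
    exact ⟨ne_of_gt (by linarith [k1.1]), by rw [im_cj]; exact ne_of_lt (by linarith [k2.1]),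
      hM ▸ k1.2⟩
  have e : ∀ w ∈ Sq z₀ (z₀.im / 2), ee h α β w * conj (ee h α' β' w) =
      gg s α (conj β') (pt w) * gg s β (conj α') (conj (pt w)) := fun w hw => by
    rw [hs]; exact fk_mul _ _ _ _ _ _ (nn hp' h3 w hw).1 (nn hp' h4 w hw).2.1
  have be : ∀ {α β : ℂ} {q : ℝ}, |q| ≤ B → ‖α - q‖ ≤ r * h → ‖β - q‖ ≤ r * h →
      ∀ w ∈ Sq z₀ (z₀.im / 2), ‖ee h α β w‖ ≤ C₁ := fun {α β q} hq k1 k2 w hw => by
    have := exp_le (r := 2 * r) hη hh (near hw hq (k1.trans hrh)).1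
      (near hw hq (cj_near (k2.trans hrh))).1 (by
        rw [show pt w - α - (pt w - conj β) = (conj β - q) - (α - q) by ring]
        exact (norm_sub_le_of_le (cj_near k2) k1).trans (by linarith))
    rwa [map_sub, Complex.conj_conj, ← hC₁] at this
  obtain ⟨t1, t2⟩ := hk (gg s α (conj β')) (gg s β (conj α')) (C₁ * C₁) (fun w hw => by
    rw [← e w hw]
    exact norm_mul_le_of_le (be hp h1 h2 w hw)
      ((Complex.norm_conj _).trans_le (be hp' h3 h4 w hw))) hCp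
  rw [setIntegral_congr_fun (s := Sq z₀ (z₀.im / 2)) (measurableSet_Icc.prod measurableSet_Icc)
    (g := fun w => wt (z₀.re - z₀.im / 2) (z₀.re + z₀.im / 2) w.1 *
      wt (z₀.im - z₀.im / 2) (z₀.im + z₀.im / 2) w.2 * (gg s α (conj β') (pt w) *
        gg s β (conj α') (conj (pt w)))) fun w hw => by simp only [e w hw]]
  obtain ⟨D, hD⟩ : ∃ D, D = |p - p'| / h := ⟨_, rfl⟩
  have hD0 : 0 ≤ D := by rw [hD]; positivity
  rw [← hD, le_div_iff₀ (by positivity)]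
  have hK := mul_nonneg hC₀ hCp
  by_cases hc : D ≤ 4 * r + 2 * M + 1
  · have k1 : (1 + D) ^ 2 ≤ (4 * r + 2 * M + 2) ^ 2 := pow_le_pow_left₀ (by linarith) (by linarith) 2
    have k2 := mul_le_mul t1 k1 (by positivity) hK
    have k3 := mul_nonneg hK (sq_nonneg (16 * M ^ 2))
    refine k2.trans (by linarith)
  · obtain ⟨ν, hν⟩ : ∃ ν : ℂ, ν = (α + conj β') / 2 - (1 / h : ℝ) * Complex.I * (α - conj β') :=
      ⟨_, rfl⟩
    have hn : ∀ w ∈ Sq z₀ (z₀.im / 2), (1 + D) / 2 ≤ ‖pt w - ν‖ := fun w hw => by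
      have k1 : ‖((pt w - α) + (pt w - conj β')) / 2‖ ≤ M := by
        rw [norm_div, Complex.norm_ofNat]
        linarith [norm_add_le_of_le (nn hp h1 w hw).2.2 (nn hp' (cj_near h4) w hw).2.2]
      have k2 : |p - p'| ≤ ‖α - conj β'‖ + (r * h + r * h) := by
        rw [← Real.norm_eq_abs, ← Complex.norm_real, show ((p - p' : ℝ) : ℂ) =
          (α - conj β') + ((conj β' - p') - (α - p)) by push_cast; ring]
        exact norm_add_le_of_le le_rfl (norm_sub_le_of_le (cj_near h4) h1)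
      have k3 : ‖((1 / h : ℝ) : ℂ) * Complex.I * (α - conj β')‖ = ‖α - conj β'‖ / h := by
        rw [norm_mul, norm_mul, Complex.norm_I, Complex.norm_real, Real.norm_of_nonneg
          (by positivity)]
        ring
      have k4 : D ≤ ‖α - conj β'‖ / h + 2 * r := by
        rw [hD, div_le_iff₀ hh, add_mul, div_mul_cancel₀ _ hh.ne']
        linarith
      have k5 := norm_sub_le (pt w - ν) (((pt w - α) + (pt w - conj β')) / 2)
      rw [show pt w - ν - ((pt w - α) + (pt w - conj β')) / 2 =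
        (1 / h : ℝ) * Complex.I * (α - conj β') by rw [hν]; ring, k3] at k5
      linarith
    have hn1 : 1 ≤ (1 + D) / 2 := by linarith
    have hn0 : ∀ w ∈ Sq z₀ (z₀.im / 2), pt w - ν ≠ 0 := fun w hw =>
      norm_pos_iff.1 (by linarith [hn w hw])
    have k1 := t2 (th α (conj β') ν) (8 * M ^ 2 / ((1 + D) / 2))
      (fun w hw => gg_an s (nn hp h1 w hw).1 (nn hp' (cj_near h4) w hw).1)
      (fun w hw => gg_an s (nn hp h2 w hw).2.1 (nn hp' (cj_near h3) w hw).2.1)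
      (fun w hw => (((analyticAt_id.sub analyticAt_const).mul
        (analyticAt_id.sub analyticAt_const)).neg).div (analyticAt_id.sub analyticAt_const)
          (hn0 w hw))
      (fun w hw => by
        have n1 := (nn hp h1 w hw).1
        have n2 := (nn hp' (cj_near h4) w hw).1
        have n3 : pt w - α ≠ 0 := fun e => n1 (by rw [e]; rfl)
        have n4 : pt w - conj β' ≠ 0 := fun e => n2 (by rw [e]; rfl)
        have n5 := hn0 w hw
        have n6 : pt w - ν = s * (pt w - conj β') + conj s * (pt w - α) := by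
          rw [hs, hν, map_add, map_mul, Complex.conj_ofReal, Complex.conj_I, map_div₀, map_one,
            map_ofNat]
          ring
        rw [gg_deriv s n1 n2, th]
        field_simp
        rw [n6]
        ring)
      (fun w hw => th_le hM1 (nn hp h1 w hw).2.2 (nn hp' (cj_near h4) w hw).2.2 hn1 (hn w hw))
    have k2 := mul_le_mul_of_nonneg_right k1 (sq_nonneg (1 + D))
    rw [show C₀ * (C₁ * C₁) * (8 * M ^ 2 / ((1 + D) / 2)) ^ 2 * (1 + D) ^ 2 =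
      C₀ * (C₁ * C₁) * (16 * M ^ 2) ^ 2 by field_simp; ring] at k2
    have k3 := mul_nonneg hK (sq_nonneg (4 * r + 2 * M + 2))
    refine k2.trans (by linarith)

end T3

open T3 in
theorem pois_sieve {z₀ : ℂ} (hz : 0 < z₀.im) (B R : ℝ) : ∃ C > 0, ∃ h₀ > 0, ∀ h ∈ Ioc 0 h₀,
    ∀ ϱ ∈ Ioc (0 : ℝ) 1, ∀ a b : ℂ, ‖a‖ ≤ R → ‖b‖ ≤ R → ∀ (ι : Type) [Fintype ι] (p : ι → ℝ)
    (x c : ι → ℂ), (∀ i, |p i| ≤ B) → Sep p (ϱ * h) → (∀ i, ‖x i - p i‖ ≤ h) →
    ∫ w in Sq z₀ (z₀.im / 4), ‖∑ i, c i * fk (1 / 2 + (1 / h : ℝ) * Complex.I) (pt w + h * a)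
      (conj (pt w) + h * b) (x i)‖ ^ 2 ≤ C / ϱ * ∑ i, ‖c i‖ ^ 2 := by
  obtain ⟨C₁, hC₁, h1⟩ := pair hz B (r := |R| + 1) (by positivity)
  obtain ⟨C₂, hC₂, h2⟩ := schur
  have hη : 0 < z₀.im / 4 := by linarith
  refine ⟨C₁ * C₂ / (z₀.im / 4) ^ 8, by positivity, z₀.im / 4 / (|R| + 1), by positivity,
    fun h hh ϱ hϱ a b ha hb ι _ p x c hp hs hx => ?_⟩
  have hrh : (|R| + 1) * h ≤ z₀.im / 4 := by
    rw [mul_comm]; exact (le_div_iff₀ (by positivity)).1 hh.2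
  have nr : ∀ {a : ℂ}, ‖a‖ ≤ R → ∀ i, ‖x i - h * a - p i‖ ≤ (|R| + 1) * h := fun {a} ha i => by
    rw [sub_right_comm]
    refine (norm_sub_le_of_le (hx i) (norm_mul_le_of_le (le_refl _)
      (ha.trans (le_abs_self R)))).trans (le_of_eq ?_)
    rw [Complex.norm_real, Real.norm_of_nonneg hh.1.le]
    ring
  let f : ι → ℝ × ℝ → ℂ := fun i => ee h (x i - h * a) (x i - h * b)
  have ef : ∀ i w, fk (1 / 2 + (1 / h : ℝ) * Complex.I) (pt w + h * a) (conj (pt w) + h * b)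
      (x i) = f i w := fun i w => by
    simp only [f, ee, fk, sub_sub_eq_add_sub]
  simp only [ef]
  have cf : ∀ i, ContinuousOn (f i) (Sq z₀ (z₀.im / 2)) := fun i =>
    c_ee hz h (hp i) ((nr ha i).trans hrh) ((nr hb i).trans hrh)
  let ω : ℝ × ℝ → ℝ := fun w =>
    ((w.1 - (z₀.re - z₀.im / 2)) * (z₀.re + z₀.im / 2 - w.1) *
      ((w.2 - (z₀.im - z₀.im / 2)) * (z₀.im + z₀.im / 2 - w.2))) ^ 2
  have cω : Continuous ω := by fun_prop
  have cS : ContinuousOn (fun w => ‖∑ i, c i * f i w‖ ^ 2) (Sq z₀ (z₀.im / 2)) :=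
    (continuousOn_finsetSum _ fun i _ => continuousOn_const.mul (cf i)).norm.pow 2
  have hK : ∀ ρ, IsCompact (Sq z₀ ρ) := fun ρ => isCompact_Icc.prod isCompact_Icc
  have hsub : Sq z₀ (z₀.im / 4) ⊆ Sq z₀ (z₀.im / 2) :=
    prod_mono (Icc_subset_Icc (by linarith) (by linarith))
      (Icc_subset_Icc (by linarith) (by linarith))
  have iω : IntegrableOn (fun w => ω w * ‖∑ i, c i * f i w‖ ^ 2) (Sq z₀ (z₀.im / 2)) volume :=
    (cω.continuousOn.mul cS).integrableOn_compact (hK _)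
  have s1 : (z₀.im / 4) ^ 8 * ∫ w in Sq z₀ (z₀.im / 4), ‖∑ i, c i * f i w‖ ^ 2 ≤
      ∫ w in Sq z₀ (z₀.im / 2), ω w * ‖∑ i, c i * f i w‖ ^ 2 := by
    rw [← integral_const_mul]
    refine le_trans (setIntegral_mono_on
      (((cS.mono hsub).integrableOn_compact (hK _)).const_mul _) (iω.mono_set hsub)
      (hK _).measurableSet fun w hw => mul_le_mul_of_nonneg_right ?_ (sq_nonneg _))
      (setIntegral_mono_set iω (ae_of_all _ fun w => mul_nonneg (sq_nonneg _) (sq_nonneg _))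
        hsub.eventuallyLE)
    obtain ⟨⟨k1, k2⟩, k3, k4⟩ := hw
    rw [show (z₀.im / 4) ^ 8 = (z₀.im / 4 * (z₀.im / 4) * (z₀.im / 4 * (z₀.im / 4))) ^ 2 by ring]
    refine pow_le_pow_left₀ (by positivity) ?_ 2
    have m : ∀ {x y : ℝ}, z₀.im / 4 ≤ x → z₀.im / 4 ≤ y → z₀.im / 4 * (z₀.im / 4) ≤ x * y :=
      fun h h' => mul_le_mul h h' hη.le (hη.le.trans h)
    have m1 := m (x := w.1 - (z₀.re - z₀.im / 2)) (y := z₀.re + z₀.im / 2 - w.1) (by linarith)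
      (by linarith)
    exact mul_le_mul m1 (m (by linarith) (by linarith)) (by positivity) (le_trans (by positivity) m1)
  let W : ℝ × ℝ → ℂ := fun w => wt (z₀.re - z₀.im / 2) (z₀.re + z₀.im / 2) w.1 *
    wt (z₀.im - z₀.im / 2) (z₀.im + z₀.im / 2) w.2
  have cW : Continuous W := ((c_wt _ _).comp continuous_fst).mul ((c_wt _ _).comp continuous_snd)
  have iW : ∀ i j, Integrable (fun w => c i * conj (c j) * (W w * (f i w * conj (f j w))))
      (volume.restrict (Sq z₀ (z₀.im / 2))) := fun i j =>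
    ((cW.continuousOn.mul ((cf i).mul
      (Complex.continuous_conj.comp_continuousOn (cf j)))).integrableOn_compact (hK _)).const_mul _
  have s2 : ((∫ w in Sq z₀ (z₀.im / 2), ω w * ‖∑ i, c i * f i w‖ ^ 2 : ℝ) : ℂ) =
      ∑ i, ∑ j, c i * conj (c j) * ∫ w in Sq z₀ (z₀.im / 2), W w * (f i w * conj (f j w)) := by
    simp only [← integral_const_mul]
    rw [← integral_complex_ofReal, Finset.sum_congr rfl fun i _ =>
      (integral_finsetSum _ fun j _ => iW i j).symm,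
      ← integral_finsetSum _ fun i _ => integrable_finsetSum _ fun j _ => iW i j]
    refine integral_congr_ae (ae_of_all _ fun w => ?_)
    have e1 : ((ω w : ℝ) : ℂ) = W w := by
      simp only [ω, W, wt]; push_cast; ring
    simp only
    rw [Complex.ofReal_mul, e1, Complex.ofReal_pow, ← Complex.mul_conj', map_sum, Finset.sum_mul_sum, Finset.mul_sum]
    refine Finset.sum_congr rfl fun i _ => ?_
    rw [Finset.mul_sum]
    refine Finset.sum_congr rfl fun j _ => ?_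
    rw [map_mul]
    ring
  have s3 : ∫ w in Sq z₀ (z₀.im / 2), ω w * ‖∑ i, c i * f i w‖ ^ 2 ≤
      C₁ * (C₂ / (ϱ * (1 + 0)) * ∑ i, ‖c i‖ ^ 2) := by
    refine (le_abs_self _).trans ?_
    rw [← Real.norm_eq_abs, ← Complex.norm_real, s2]
    refine le_trans ?_ (mul_le_mul_of_nonneg_left (h2 ι p h ϱ 0 hh.1 hϱ le_rfl hs (fun i => ‖c i‖)
      fun i => norm_nonneg _) hC₁.le)
    rw [Finset.mul_sum]
    refine norm_sum_le_of_le _ fun i _ => ?_
    rw [Finset.mul_sum]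
    refine norm_sum_le_of_le _ fun j _ => ?_
    rw [if_pos (by rw [zero_mul]; exact abs_nonneg _), norm_mul, norm_mul, Complex.norm_conj]
    refine (mul_le_mul_of_nonneg_left (h1 h hh.1 hrh _ _ _ _ _ _ (hp i) (hp j) (nr ha i) (nr hb i)
      (nr ha j) (nr hb j)) (by positivity)).trans (le_of_eq ?_)
    ring
  rw [show C₁ * C₂ / (z₀.im / 4) ^ 8 / ϱ * ∑ i, ‖c i‖ ^ 2 =
    C₁ * (C₂ / (ϱ * (1 + 0)) * ∑ i, ‖c i‖ ^ 2) / (z₀.im / 4) ^ 8 by ring,
    le_div_iff₀' (by positivity)]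
  exact s1.trans s3

end Pool.Agent.Lib.MP_e1e19a_an
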