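import Pool.Agent.Lib.MP_e1e19a_an.N.S2
import Pool.Agent.Lib.MP_e1e19a_an.N.T3

/-!
Mean square bounds for the tail of the Eisenstein series.
-/

namespace Pool.Agent.Lib.MP_e1e19a_an

open Real MeasureTheory Set
open scoped MatrixGroups ComplexConjugate UpperHalfPlane

namespace T6a

theorem Sq_compact (z : ℂ) (ρ : ℝ) : IsCompact (Sq z ρ) := isCompact_Icc.prod isCompact_Icc

theorem slit {z a b : ℂ} (hz : 0 < z.im) (ha : ‖a‖ ≤ z.im / 8) (hb : ‖b‖ ≤ z.im / 8) {w : ℝ × ℝ}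
    (hw : w ∈ Sq z (z.im / 4)) {x : ℂ} (hx : |x.im| ≤ z.im / 2) :
    pt w + a - x ∈ Complex.slitPlane ∧ conj (pt w) + b - x ∈ Complex.slitPlane := by
  have h1 := abs_le.1 ((Complex.abs_im_le_norm a).trans ha)
  have h2 := abs_le.1 ((Complex.abs_im_le_norm b).trans hb)
  have h3 := abs_le.1 hx
  obtain ⟨-, h4, h5⟩ := hw
  constructor
  · refine Or.inr (ne_of_gt ?_)
    simp only [pt, Complex.sub_im, Complex.add_im, Complex.ofReal_im, Complex.mul_im,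
      Complex.ofReal_re, Complex.I_im, Complex.I_re]
    linarith
  · refine Or.inr (ne_of_lt ?_)
    simp only [pt, Complex.sub_im, Complex.add_im, Complex.conj_im, Complex.ofReal_im,
      Complex.mul_im, Complex.ofReal_re, Complex.I_im, Complex.I_re]
    linarith

theorem fk_deriv (s : ℂ) {u v x : ℂ} (hu : u - x ∈ Complex.slitPlane)
    (hv : v - x ∈ Complex.slitPlane) :
    HasDerivAt (fun x => fk s u v x) (fk s u v x * (s * ((u - x)⁻¹ + (v - x)⁻¹))) x := by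
  have h1 := ((hasDerivAt_id x).const_sub u).clog hu
  have h2 := ((hasDerivAt_id x).const_sub v).clog hv
  have h3 := ((h1.add h2).const_mul (-s)).cexp
  refine h3.congr_deriv ?_
  simp only [fk, id, Pi.add_apply]
  ring

theorem pt_cont : Continuous pt := by unfold pt; fun_prop

theorem joint (s : ℂ) {z a b : ℂ} (hz : 0 < z.im) (ha : ‖a‖ ≤ z.im / 8) (hb : ‖b‖ ≤ z.im / 8) :
    ContinuousOn (fun q : ℂ × ℝ × ℝ => fk s (pt q.2 + a) (conj (pt q.2) + b) q.1)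
      ({x | |x.im| ≤ z.im / 2} ×ˢ Sq z (z.im / 4)) ∧
    ContinuousOn (fun q : ℂ × ℝ × ℝ => (pt q.2 + a - q.1)⁻¹ + (conj (pt q.2) + b - q.1)⁻¹)
      ({x | |x.im| ≤ z.im / 2} ×ˢ Sq z (z.im / 4)) := by
  have c1 : Continuous fun q : ℂ × ℝ × ℝ => pt q.2 + a - q.1 :=
    ((pt_cont.comp continuous_snd).add continuous_const).sub continuous_fst
  have c2 : Continuous fun q : ℂ × ℝ × ℝ => conj (pt q.2) + b - q.1 :=
    ((Complex.continuous_conj.comp (pt_cont.comp continuous_snd)).add continuous_const).sub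
      continuous_fst
  constructor
  · refine ContinuousOn.cexp (continuousOn_const.mul (ContinuousOn.add ?_ ?_))
    · exact c1.continuousOn.clog fun q hq => (slit hz ha hb hq.2 hq.1).1
    · exact c2.continuousOn.clog fun q hq => (slit hz ha hb hq.2 hq.1).2
  · exact (c1.continuousOn.inv₀ fun q hq =>
      Complex.slitPlane_ne_zero (slit hz ha hb hq.2 hq.1).1).add
      (c2.continuousOn.inv₀ fun q hq => Complex.slitPlane_ne_zero (slit hz ha hb hq.2 hq.1).2)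

theorem sect {F : ℂ × ℝ × ℝ → ℂ} {U : Set ℂ} {Q : Set (ℝ × ℝ)} (h : ContinuousOn F (U ×ˢ Q))
    {x : ℂ} (hx : x ∈ U) : ContinuousOn (fun w => F (x, w)) Q :=
  h.comp (Continuous.prodMk_right x).continuousOn fun _ hw => ⟨hx, hw⟩

theorem hol (s : ℂ) {z a b : ℂ} (hz : 0 < z.im) (ha : ‖a‖ ≤ z.im / 8) (hb : ‖b‖ ≤ z.im / 8)
    {φ : ℝ × ℝ → ℂ} (hφ : ContinuousOn φ (Sq z (z.im / 4))) :
    DifferentiableOn ℂ (fun x => ∫ w in Sq z (z.im / 4), φ w * fk s (pt w + a) (conj (pt w) + b) x)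
      {x | |x.im| < z.im / 2} := by
  intro x₀ hx₀
  have hQ := Sq_compact z (z.im / 4)
  obtain ⟨j1, j2⟩ := joint s hz ha hb
  have r0 : 0 < z.im / 2 - |x₀.im| := sub_pos.2 hx₀
  have sub : Metric.closedBall x₀ (z.im / 2 - |x₀.im|) ⊆ {x | |x.im| ≤ z.im / 2} := fun x hx => by
    have h1 := (Complex.abs_im_le_norm (x - x₀)).trans (mem_closedBall_iff_norm.1 hx)
    have h2 := abs_sub_abs_le_abs_sub x.im x₀.im
    rw [Complex.sub_im] at h1
    show |x.im| ≤ z.im / 2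
    linarith
  have cφ : ContinuousOn (fun q : ℂ × ℝ × ℝ => φ q.2) ({x | |x.im| ≤ z.im / 2} ×ˢ Sq z (z.im / 4)) :=
    hφ.comp continuous_snd.continuousOn fun _ hq => hq.2
  have j3 := cφ.mul j1
  have j4 := cφ.mul (j1.mul ((continuousOn_const (c := s)).mul j2))
  obtain ⟨M, hM⟩ := ((isCompact_closedBall x₀ (z.im / 2 - |x₀.im|)).prod hQ).exists_bound_of_continuousOn
    (j4.mono (prod_mono sub subset_rfl))
  have x0 : x₀ ∈ {x : ℂ | |x.im| ≤ z.im / 2} := sub (Metric.mem_closedBall_self r0.le)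
  refine (hasDerivAt_integral_of_dominated_loc_of_deriv_le (μ := volume.restrict (Sq z (z.im / 4)))
    (F := fun x w => φ w * fk s (pt w + a) (conj (pt w) + b) x)
    (F' := fun x w => φ w * (fk s (pt w + a) (conj (pt w) + b) x *
      (s * ((pt w + a - x)⁻¹ + (conj (pt w) + b - x)⁻¹)))) (bound := fun _ => M)
    (Metric.closedBall_mem_nhds x₀ r0) ?_ ((sect j3 x0).integrableOn_compact hQ)
    ((sect j4 x0).aestronglyMeasurable hQ.measurableSet) ?_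
    (continuousOn_const.integrableOn_compact hQ) ?_).2.differentiableAt.differentiableWithinAt
  · filter_upwards [Metric.closedBall_mem_nhds x₀ r0] with x hx
    exact (sect j3 (sub hx)).aestronglyMeasurable hQ.measurableSet
  · exact ae_restrict_of_forall_mem hQ.measurableSet fun w hw x hx => hM (x, w) ⟨hx, hw⟩
  · refine ae_restrict_of_forall_mem hQ.measurableSet fun w hw x hx => ?_
    obtain ⟨h1, h2⟩ := slit hz ha hb hw (sub hx)
    exact (fk_deriv s h1 h2).const_mul _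

theorem pairing {ι : Type} {Q : Set (ℝ × ℝ)} (hQ : IsCompact Q) {φ : ℝ × ℝ → ℂ}
    (hφ : ContinuousOn φ Q) (T : Finset ι) (c : ι → ℂ) {k : ι → ℝ × ℝ → ℂ}
    (hk : ∀ i ∈ T, ContinuousOn (k i) Q) :
    ∫ w in Q, φ w * ∑ i ∈ T, c i * k i w = ∑ i ∈ T, c i * ∫ w in Q, φ w * k i w := by
  simp only [Finset.mul_sum]
  rw [integral_finsetSum]
  · refine Finset.sum_congr rfl fun i _ => ?_
    rw [← integral_const_mul]
    exact integral_congr_ae (Filter.Eventually.of_forall fun w => by ring)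
  · exact fun i hi => (hφ.mul (continuousOn_const.mul (hk i hi))).integrableOn_compact hQ

theorem dual {ι : Type} [Fintype ι] {Q : Set (ℝ × ℝ)} (hQ : IsCompact Q) {Ψ : ℝ × ℝ → ℂ}
    (hΨ : ContinuousOn Ψ Q) {k : ι → ℝ × ℝ → ℂ} (hk : ∀ i, ContinuousOn (k i) Q) {D : ℝ}
    (hD : 0 < D) (H : ∀ c : ι → ℂ, ∫ w in Q, ‖∑ i, c i * k i w‖ ^ 2 ≤ D * ∑ i, ‖c i‖ ^ 2) :
    ∑ i, ‖∫ w in Q, conj (Ψ w) * k i w‖ ^ 2 ≤ D * ∫ w in Q, ‖Ψ w‖ ^ 2 := by
  set G : ι → ℂ := fun i => ∫ w in Q, conj (Ψ w) * k i w with hG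
  have cΨ : ContinuousOn (fun w => conj (Ψ w)) Q := Complex.continuous_conj.comp_continuousOn hΨ
  have cΦ : ContinuousOn (fun w => ∑ i, conj (G i) * k i w) Q :=
    continuousOn_finsetSum _ fun i _ => continuousOn_const.mul (hk i)
  have e1 := pairing hQ cΨ Finset.univ (fun i => conj (G i)) fun i _ => hk i
  have e2 : ∑ i, conj (G i) * G i = ((∑ i, ‖G i‖ ^ 2 : ℝ) : ℂ) := by
    push_cast
    exact Finset.sum_congr rfl fun i _ => Complex.conj_mul' _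
  have h1 := H fun i => conj (G i)
  simp only [Complex.norm_conj] at h1
  have h2 : ∑ i, ‖G i‖ ^ 2 ≤ ∫ w in Q, (D / 2 * ‖Ψ w‖ ^ 2 +
      1 / (2 * D) * ‖∑ i, conj (G i) * k i w‖ ^ 2) := by
    have : ‖((∑ i, ‖G i‖ ^ 2 : ℝ) : ℂ)‖ = ∑ i, ‖G i‖ ^ 2 := by
      rw [Complex.norm_real, Real.norm_of_nonneg (by positivity)]
    rw [← this, ← e2, ← e1]
    refine norm_integral_le_of_norm_le ?_ (Filter.Eventually.of_forall fun w => ?_)
    · exact ((continuousOn_const.mul (hΨ.norm.pow 2)).add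
        (continuousOn_const.mul (cΦ.norm.pow 2))).integrableOn_compact hQ
    · rw [norm_mul, Complex.norm_conj]
      generalize ‖Ψ w‖ = p
      generalize ‖∑ i, conj (G i) * k i w‖ = q
      have : D / 2 * p ^ 2 + 1 / (2 * D) * q ^ 2 - p * q = (D * p - q) ^ 2 / (2 * D) := by
        field_simp; ring
      have : 0 ≤ (D * p - q) ^ 2 / (2 * D) := by positivity
      linarith
  have i1 : IntegrableOn (fun w => D / 2 * ‖Ψ w‖ ^ 2) Q :=
    (continuousOn_const.mul (hΨ.norm.pow 2)).integrableOn_compact hQ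
  have i2 : IntegrableOn (fun w => 1 / (2 * D) * ‖∑ i, conj (G i) * k i w‖ ^ 2) Q :=
    (continuousOn_const.mul (cΦ.norm.pow 2)).integrableOn_compact hQ
  rw [integral_add i1 i2, integral_const_mul, integral_const_mul] at h2
  have h3 : 1 / (2 * D) * ∫ w in Q, ‖∑ i, conj (G i) * k i w‖ ^ 2 ≤ 1 / 2 * ∑ i, ‖G i‖ ^ 2 :=
    (mul_le_mul_of_nonneg_left h1 (by positivity)).trans_eq (by field_simp)
  linarith

theorem cs {ι : Type} (T : Finset ι) (e f : ι → ℂ) :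
    ‖∑ i ∈ T, e i * f i‖ ^ 2 ≤ (∑ i ∈ T, ‖e i‖ ^ 2) * ∑ i ∈ T, ‖f i‖ ^ 2 := by
  refine le_trans ?_ (Finset.sum_mul_sq_le_sq_mul_sq T (fun i => ‖e i‖) fun i => ‖f i‖)
  refine pow_le_pow_left₀ (norm_nonneg _) ((norm_sum_le _ _).trans_eq ?_) 2
  exact Finset.sum_congr rfl fun i _ => norm_mul _ _

theorem coef {s : ℂ} (hs : s.re = 1 / 2) {t : ℝ} (ht : 0 < t) :
    ‖Complex.exp (s * (log t : ℝ))‖ ^ 2 = t := by
  rw [Complex.norm_exp, Complex.re_mul_ofReal, hs, ← exp_nat_mul,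
    show ((2 : ℕ) : ℝ) * (1 / 2 * log t) = log t by push_cast; ring, exp_log ht]

variable {α : Type} [Fintype α] [DecidableEq α] [Inhabited α] (S : SchottkyData α)

omit [Fintype α] [DecidableEq α] [Inhabited α] in
theorem τ_nn (g : FreeGroup α) : 0 ≤ S.τ g := by unfold SchottkyData.τ; positivity

theorem blk_bound {h c₀ t C₁ D : ℝ} {Z Sf : Finset (FreeGroup α)} (P : S.Part c₀ t Z Sf) {s : ℂ}
    (hs : s.re = 1 / 2) (hh : 0 < h) (hD : 0 < D) {Q : Set (ℝ × ℝ)} (hQ : IsCompact Q)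
    {K : ℂ → ℝ × ℝ → ℂ} {U : Set ℂ} (hK : ∀ x ∈ U, ContinuousOn (K x) Q)
    (hol : ∀ φ, ContinuousOn φ Q → DifferentiableOn ℂ (fun x => ∫ w in Q, φ w * K x w) U)
    (hU : ∀ p : ℝ, Metric.ball (p : ℂ) (2 * h) ⊆ U)
    (sieve : ∀ x c : Z → ℂ, (∀ i, ‖x i - S.p i‖ ≤ h) →
      ∫ w in Q, ‖∑ i, c i * K (x i) w‖ ^ 2 ≤ D * ∑ i, ‖c i‖ ^ 2)
    (H : ∀ u A, 0 ≤ A → S.Good Z h u A → S.Good Z h (S.L Z s u) (A / 2) ∧
      h * ∑ b ∈ Sf, ‖S.L Z s u (hd b) (S.p b)‖ ^ 2 ≤ C₁ * A ^ 2 ∧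
      ∀ b ∈ Sf, h * ‖S.L Z s u (hd b) (S.p b)‖ ^ 2 ≤ C₁ * (∑ w ∈ Z, S.τ w) * A ^ 2)
    (T : Finset (FreeGroup α)) (n : ℕ) :
    ∫ w in Q, ‖S.ev (blocks Z Sf (n + 1)) s fun _ x => K x w‖ ^ 2 ≤ 2 * |C₁| * D *
      (∑ b ∈ Sf \ T, S.τ b + (∑ b ∈ T, S.τ b) * T.card * ∑ w ∈ Z, S.τ w) / 4 ^ n := by
  have pU : ∀ p : ℝ, (p : ℂ) ∈ U := fun p => hU p (Metric.mem_ball_self (by positivity))
  set Ψ : ℝ × ℝ → ℂ := fun w => S.ev (blocks Z Sf (n + 1)) s fun _ x => K x w with hΨ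
  have cΨ : ContinuousOn Ψ Q :=
    continuousOn_finsetSum _ fun b _ => continuousOn_const.mul (hK _ (pU _))
  have cΨ' : ContinuousOn (fun w => conj (Ψ w)) Q := Complex.continuous_conj.comp_continuousOn cΨ
  set I : ℝ := ∫ w in Q, ‖Ψ w‖ ^ 2 with hI
  have I0 : 0 ≤ I := integral_nonneg fun w => by positivity
  set G : ℂ → ℂ := fun x => ∫ w in Q, conj (Ψ w) * K x w with hG
  have e1 : (I : ℂ) = S.ev (blocks Z Sf (n + 1)) s fun _ => G := by
    rw [hI, ← integral_complex_ofReal, SchottkyData.ev,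
      ← pairing hQ cΨ' _ _ fun b _ => hK _ (pU _)]
    refine integral_congr_ae (Filter.Eventually.of_forall fun w => ?_)
    have := Complex.conj_mul' (Ψ w)
    push_cast
    rw [← this]
    rfl
  have good : S.Good Z h (fun _ => G) √(h * D * I) := by
    refine ⟨fun w _ => (hol _ cΨ').mono (hU _), fun x hx => ?_⟩
    rw [sq_sqrt (by positivity), mul_assoc, ← Finset.sum_coe_sort]
    refine mul_le_mul_of_nonneg_left (dual hQ cΨ (k := fun i : Z => K (x i)) (fun i => hK _ (hU (S.p i) ?_)) hD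
      fun c => sieve (fun i => x i) c fun i => hx i i.2) hh.le
    rw [mem_ball_iff_norm]
    linarith [hx i i.2]
  have iter : ∀ m, S.Good Z h ((S.L Z s)^[m] fun _ => G) (√(h * D * I) / 2 ^ m) := fun m => by
    induction m with
    | zero => simpa using good
    | succ m ih =>
      rw [Function.iterate_succ_apply', pow_succ, ← div_div]
      exact (H _ _ (by positivity) ih).1
  obtain ⟨-, h2, h3⟩ := H _ _ (by positivity) (iter n)
  rw [S.ev_blocks P, Function.iterate_succ_apply'] at e1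
  generalize S.L Z s ((S.L Z s)^[n] fun _ => G) = u at e1 h2 h3
  have a1 : (√(h * D * I) / 2 ^ n) ^ 2 = h * (D * I / 4 ^ n) := by
    rw [div_pow, sq_sqrt (by positivity), ← pow_mul, mul_comm n 2, pow_mul]
    norm_num
    ring
  rw [a1] at h2 h3
  set J : ℝ := D * I / 4 ^ n with hJ
  have J0 : 0 ≤ J := by positivity
  have z0 : 0 ≤ ∑ w ∈ Z, S.τ w := Finset.sum_nonneg fun _ _ => τ_nn S _
  have b2 : ∑ b ∈ Sf, ‖u (hd b) (S.p b)‖ ^ 2 ≤ |C₁| * J := by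
    refine le_of_mul_le_mul_left (h2.trans ?_) hh
    nlinarith [mul_le_mul_of_nonneg_right (le_abs_self C₁) (mul_nonneg hh.le J0)]
  have b3 : ∀ b ∈ Sf, ‖u (hd b) (S.p b)‖ ^ 2 ≤ |C₁| * (∑ w ∈ Z, S.τ w) * J := fun b hb => by
    refine le_of_mul_le_mul_left ((h3 b hb).trans ?_) hh
    nlinarith [mul_le_mul_of_nonneg_right (le_abs_self C₁) (mul_nonneg z0 (mul_nonneg hh.le J0))]
  have c : ∀ W ⊆ Sf, ‖S.ev W s u‖ ^ 2 ≤ (∑ b ∈ W, S.τ b) * ∑ b ∈ W, ‖u (hd b) (S.p b)‖ ^ 2 :=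
    fun W hW => (cs W _ _).trans_eq (by
      rw [Finset.sum_congr rfl fun b hb => coef hs (S.τ_pos (P.ne b (hW hb)))])
  have c1 : ‖S.ev (Sf \ T) s u‖ ^ 2 ≤ (∑ b ∈ Sf \ T, S.τ b) * (|C₁| * J) :=
    (c _ Finset.sdiff_subset).trans (mul_le_mul_of_nonneg_left
      ((Finset.sum_le_sum_of_subset_of_nonneg Finset.sdiff_subset fun _ _ _ => by positivity).trans b2)
      (Finset.sum_nonneg fun _ _ => τ_nn S _))
  have c2 : ‖S.ev (Sf ∩ T) s u‖ ^ 2 ≤
      (∑ b ∈ T, S.τ b) * (T.card * (|C₁| * (∑ w ∈ Z, S.τ w) * J)) := by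
    refine (c _ Finset.inter_subset_left).trans (mul_le_mul
      (Finset.sum_le_sum_of_subset_of_nonneg Finset.inter_subset_right fun _ _ _ => τ_nn S _) ?_
      (by positivity) (Finset.sum_nonneg fun _ _ => τ_nn S _))
    refine (Finset.sum_le_card_nsmul _ _ _ fun b hb => b3 b (Finset.mem_inter.1 hb).1).trans ?_
    rw [nsmul_eq_mul]
    exact mul_le_mul_of_nonneg_right
      (Nat.cast_le.2 (Finset.card_le_card Finset.inter_subset_right)) (by positivity)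
  have e2 : S.ev Sf s u = S.ev (Sf \ T) s u + S.ev (Sf ∩ T) s u := by
    simp only [SchottkyData.ev]
    rw [add_comm, Finset.sum_inter_add_sum_sdiff]
  have d1 : I ≤ ‖S.ev (Sf \ T) s u‖ + ‖S.ev (Sf ∩ T) s u‖ := by
    refine le_trans ?_ (norm_add_le _ _)
    rw [← e2, ← e1, Complex.norm_real, Real.norm_of_nonneg I0]
  have t0 : 0 ≤ ∑ b ∈ Sf \ T, S.τ b := Finset.sum_nonneg fun _ _ => τ_nn S _
  have t1 : 0 ≤ ∑ b ∈ T, S.τ b := Finset.sum_nonneg fun _ _ => τ_nn S _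
  rcases I0.eq_or_lt with I1 | I1
  · rw [← I1]; positivity
  refine le_of_mul_le_mul_left ?_ I1
  calc I * I ≤ 2 * ‖S.ev (Sf \ T) s u‖ ^ 2 + 2 * ‖S.ev (Sf ∩ T) s u‖ ^ 2 := by
        nlinarith [mul_self_le_mul_self I0 d1, sq_nonneg (‖S.ev (Sf \ T) s u‖ - ‖S.ev (Sf ∩ T) s u‖)]
    _ ≤ 2 * ((∑ b ∈ Sf \ T, S.τ b) * (|C₁| * J)) +
        2 * ((∑ b ∈ T, S.τ b) * (T.card * (|C₁| * (∑ w ∈ Z, S.τ w) * J))) := by linarith
    _ = _ := by rw [hJ]; ring

theorem van {ε : ℝ} (hε : 0 < ε) : ∃ F : Finset (FreeGroup α), ∀ T, Disjoint T F →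
    ∑ g ∈ T, S.τ g ≤ ε := by
  obtain ⟨F, hF⟩ := S.τ_summable.vanishing (Iic_mem_nhds hε)
  exact ⟨F, hF⟩

theorem small {ε : ℝ} (hε : 0 < ε) : ∃ t > 0, ∀ T : Finset (FreeGroup α), (∀ g ∈ T, S.τ g ≤ t) →
    ∑ g ∈ T, S.τ g ≤ ε := by
  obtain ⟨F, hF⟩ := van S (half_pos hε)
  refine ⟨ε / 2 / (F.card + 1), by positivity, fun T hT => ?_⟩
  have h1 := hF (T \ F) Finset.sdiff_disjoint
  have h2 := Finset.sum_le_card_nsmul (T ∩ F) S.τ _ fun g hg => hT g (Finset.mem_inter.1 hg).1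
  have h3 : ((T ∩ F).card : ℝ) ≤ F.card + 1 :=
    (Nat.cast_le.2 (Finset.card_le_card Finset.inter_subset_right)).trans (by linarith)
  have h4 : ((T ∩ F).card : ℝ) * (ε / 2 / (F.card + 1)) ≤ ε / 2 :=
    (mul_le_mul_of_nonneg_right h3 (by positivity)).trans_eq (by field_simp)
  rw [nsmul_eq_mul] at h2
  rw [← Finset.sum_inter_add_sum_sdiff T F]
  linarith

theorem evl (c : ℝ) {e : ℝ} (he : 0 < e) : ∀ᶠ l : ℝ in Filter.atTop, c / l ≤ e :=
  (tendsto_const_nhds.div_atTop Filter.tendsto_id).eventually (Iic_mem_nhds he)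

end T6a

variable {α : Type} [Fintype α] [DecidableEq α] [Inhabited α] (S : SchottkyData α)

theorem SchottkyData.tail_sq {c₀ η h₀ C₁ : ℝ} (hc : c₀ ∈ Ioc (0 : ℝ) 1) (hη : η ∈ Ioc (0 : ℝ) 1)
    (hh : h₀ ∈ Ioc (0 : ℝ) 1) (H : S.Contr c₀ η h₀ C₁) (Z Sf : ℝ → Finset (FreeGroup α))
    (hP : ∀ t ∈ Ioc (0 : ℝ) 1, S.Part c₀ t (Z t) (Sf t))
    (hE : ∀ g, g ≠ 1 → ∃ t₀ > 0, ∀ t ∈ Ioc 0 t₀, g ∈ Sf t) (z₀ : ℍ) (R : ℝ) {ϑ : ℝ} (hϑ : 0 < ϑ)
    (T₀ : Finset (FreeGroup α)) : ∃ T₁ ⊇ T₀, 1 ∈ T₁ ∧ ∃ l₁ > 0, ∀ l ≥ l₁,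
      T₁.erase 1 ⊆ Sf (η / l) ∧ ∀ a b : ℂ, ‖a‖ ≤ R → ‖b‖ ≤ R →
      ∫ w in Sq z₀ (z₀.im / 4), ‖S.ev (Sf (η / l) \ T₁) (1 / 2 + l * Complex.I) fun _ =>
        fk (1 / 2 + l * Complex.I) (pt w + a / l) (conj (pt w) + b / l)‖ ^ 2 ≤ ϑ ∧
      ∀ n, ∫ w in Sq z₀ (z₀.im / 4),
        ‖S.ev (blocks (Z (η / l)) (Sf (η / l)) (n + 1)) (1 / 2 + l * Complex.I) fun _ =>
          fk (1 / 2 + l * Complex.I) (pt w + a / l) (conj (pt w) + b / l)‖ ^ 2 ≤ ϑ / 4 ^ n := by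
  obtain ⟨-, -, B, B1, -, -, b1, -, sep⟩ := S.geo
  have y0 : 0 < (z₀ : ℂ).im := z₀.im_pos
  obtain ⟨C, C0, h₁, h1, sieve⟩ := pois_sieve y0 B R
  obtain ⟨c0, c1⟩ := hc
  obtain ⟨η0, η1⟩ := hη
  have ϱ0 : 0 < c₀ * η / (2 * B) := by positivity
  have ϱ1 : c₀ * η / (2 * B) ≤ 1 :=
    (div_le_one (by positivity)).2 ((mul_le_one₀ c1 η0.le η1).trans (by linarith))
  set D := C / (c₀ * η / (2 * B)) with hD
  have D0 : 0 < D := by positivity
  set ε := ϑ / (D * (4 * |C₁| + 1)) with hε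
  have ε0 : 0 < ε := by positivity
  have ε1 : D * ε * (4 * |C₁| + 1) = ϑ := by rw [hε]; field_simp
  obtain ⟨F, hF⟩ := T6a.van S ε0
  set T₁ := insert 1 (T₀ ∪ F) with hT
  have tF : ∀ W : Finset (FreeGroup α), ∑ b ∈ W \ T₁, S.τ b ≤ ε := fun W =>
    hF _ (Finset.sdiff_disjoint.mono_right
      (Finset.subset_union_right.trans (Finset.subset_insert _ _)))
  set M := (∑ b ∈ T₁, S.τ b) * T₁.card with hM
  have M0 : 0 ≤ M := mul_nonneg (Finset.sum_nonneg fun _ _ => T6a.τ_nn S _) (by positivity)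
  obtain ⟨t₀, t0, ht⟩ := T6a.small S (show 0 < ε / (M + 1) by positivity)
  have E1 : ∀ᶠ l : ℝ in Filter.atTop, ∀ g ∈ T₁.erase 1, g ∈ Sf (η / l) := by
    refine (Filter.eventually_all_finset _).2 fun g hg => ?_
    obtain ⟨t, t1, t2⟩ := hE g (Finset.ne_of_mem_erase hg)
    filter_upwards [T6a.evl η t1, Filter.eventually_gt_atTop 0] with l l1 l0
    exact t2 _ ⟨by positivity, l1⟩
  obtain ⟨l₁, hl⟩ := Filter.eventually_atTop.1 (E1.and ((T6a.evl 1 hh.1).and ((T6a.evl 1 h1).and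
    ((T6a.evl 1 (show 0 < (z₀ : ℂ).im / 4 by positivity)).and
    ((T6a.evl R (show 0 < (z₀ : ℂ).im / 8 by positivity)).and (T6a.evl η t0))))))
  refine ⟨T₁, Finset.subset_union_left.trans (Finset.subset_insert _ _), Finset.mem_insert_self _ _,
    max l₁ 1, by positivity, fun l l0 => ?_⟩
  obtain ⟨e1, e2, e3, e4, e5, e6⟩ := hl l (le_of_max_le_left l0)
  have l1 : 1 ≤ l := le_of_max_le_right l0
  have l2 : 0 < l := by linarith
  refine ⟨e1, fun a b ha hb => ?_⟩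
  have P := hP (η / l) ⟨by positivity, (div_le_one l2).2 (η1.trans l1)⟩
  have nl : ∀ v : ℂ, ‖v‖ ≤ R → ‖v / l‖ ≤ (z₀ : ℂ).im / 8 := fun v hv => by
    rw [norm_div, Complex.norm_real, Real.norm_of_nonneg l2.le]
    exact (div_le_div_of_nonneg_right hv l2.le).trans e5
  have hs : (1 / 2 + l * Complex.I : ℂ).re = 1 / 2 := by simp
  have sv : ∀ W ⊆ Sf (η / l), ∀ x c : W → ℂ, (∀ i, ‖x i - S.p i‖ ≤ 1 / l) →
      ∫ w in Sq z₀ ((z₀ : ℂ).im / 4), ‖∑ i, c i * fk (1 / 2 + l * Complex.I) (pt w + a / l)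
        (conj (pt w) + b / l) (x i)‖ ^ 2 ≤ D * ∑ i, ‖c i‖ ^ 2 := fun W hW x c hx => by
    have := sieve (1 / l) ⟨by positivity, e3⟩ _ ⟨ϱ0, ϱ1⟩ a b ha hb W (fun i => S.p i) x c
      (fun i => b1 _ (P.ne _ (hW i.2))) (fun i j hij => ?_) hx
    · have q : ∀ v : ℂ, ((1 / l : ℝ) : ℂ) * v = v / l := fun v => by push_cast; ring
      rwa [one_div_one_div, q, q] at this
    · have h2 := sep i j (P.ne _ (hW i.2)) (P.ne _ (hW j.2)) fun e => hij (Subtype.ext e)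
      have h3 := P.low _ (hW i.2)
      rw [div_mul_eq_mul_div, div_le_iff₀ (by positivity)]
      calc _ = c₀ * (η / l) := by ring
        _ ≤ _ := by linarith
  have a0 := abs_nonneg C₁
  refine ⟨?_, fun n => ?_⟩
  · have := sv _ (Finset.sdiff_subset (t := T₁)) (fun i => S.p i)
      (fun i => Complex.exp ((1 / 2 + l * Complex.I) * (log (S.τ i) : ℝ)))
      fun i => by simp [l2.le]
    simp only [SchottkyData.ev]
    simp only [← Finset.sum_coe_sort (Sf (η / l) \ T₁)]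
    refine this.trans ?_
    rw [Finset.sum_congr rfl fun (i : (Sf (η / l) \ T₁ : Finset _)) _ =>
      T6a.coef hs (S.τ_pos (P.ne i (Finset.mem_sdiff.1 i.2).1)),
      Finset.sum_coe_sort _ S.τ]
    nlinarith [mul_le_mul_of_nonneg_left (tF (Sf (η / l))) D0.le, mul_pos D0 ε0]
  · have P' : S.Part c₀ (η * (1 / l)) (Z (η / l)) (Sf (η / l)) := by rwa [mul_one_div]
    have := T6a.blk_bound S P hs (show 0 < 1 / l by positivity) D0
      (T6a.Sq_compact z₀ ((z₀ : ℂ).im / 4))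
      (K := fun x w => fk (1 / 2 + l * Complex.I) (pt w + a / l) (conj (pt w) + b / l) x)
      (U := {x | |x.im| < (z₀ : ℂ).im / 2})
      (fun x hx => T6a.sect (T6a.joint _ y0 (nl a ha) (nl b hb)).1
        (show |x.im| ≤ _ from le_of_lt hx))
      (fun φ hφ => T6a.hol _ y0 (nl a ha) (nl b hb) hφ) (fun p x hx => ?_) (sv _ P.sub)
      (H (1 / l) ⟨by positivity, e2⟩ _ _ P' _ (by rw [hs]; norm_num) (by rw [hs]; norm_num)
        (by simp) fun w _ => by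
          rw [hs, ← sqrt_eq_rpow]; linarith [sqrt_nonneg (S.τ w)]) T₁ n
    · refine this.trans (div_le_div_of_nonneg_right ?_ (by positivity))
      have h2 := ht (Z (η / l)) fun g hg => (P.up g hg).trans e6
      have h3 : M * ∑ w ∈ Z (η / l), S.τ w ≤ ε :=
        (mul_le_mul (by linarith : M ≤ M + 1) h2 (Finset.sum_nonneg fun _ _ => T6a.τ_nn S _)
          (by positivity)).trans_eq (by field_simp)
      have h4 := mul_le_mul_of_nonneg_left (add_le_add (tF (Sf (η / l))) h3)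
        (show 0 ≤ 2 * |C₁| * D by positivity)
      nlinarith [mul_pos D0 ε0]
    · have h2 := (Complex.abs_im_le_norm (x - p)).trans_lt (mem_ball_iff_norm.1 hx)
      rw [Complex.sub_im, Complex.ofReal_im, sub_zero] at h2
      show |x.im| < _
      linarith

end Pool.Agent.Lib.MP_e1e19a_an
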