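import Pool.Agent.Lib.MP_e1e19a_an.N.T5a
import Pool.Agent.Lib.MP_e1e19a_an.N.T6a

/-!
The tail of the Eisenstein series is small near most points.
-/

namespace Pool.Agent.Lib.MP_e1e19a_an

open Real MeasureTheory Set
open scoped MatrixGroups ComplexConjugate UpperHalfPlane

namespace T6b

open Metric
open scoped ENNReal

theorem cauchy {f : ℂ → ℂ} {r : ℝ} (hr : 0 < r) (hf : DifferentiableOn ℂ f (closedBall 0 (2 * r)))
    {a : ℂ} (ha : ‖a‖ ≤ r) :
    ‖f a‖ₑ ≤ ∫⁻ θ in Ioc 0 (2 * π), ‖f (circleMap 0 (2 * r) θ)‖ₑ := by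
  have h := (hf.diffContOnCl_ball subset_rfl).two_pi_i_inv_smul_circleIntegral_sub_inv_smul
    (w := a) (by rw [mem_ball_zero_iff]; linarith)
  rw [← h, circleIntegral, intervalIntegral.integral_of_le two_pi_pos.le, ← integral_smul]
  refine (enorm_integral_le_lintegral_enorm _).trans (lintegral_mono fun θ => ?_)
  have h1 : r ≤ ‖circleMap 0 (2 * r) θ - a‖ := by
    have := norm_sub_norm_le (circleMap 0 (2 * r) θ) a
    rw [norm_circleMap_zero, abs_of_pos (by positivity)] at this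
    linarith
  rw [enorm_le_iff_norm_le, norm_smul, norm_smul, norm_smul, ← mul_assoc, ← mul_assoc]
  refine mul_le_of_le_one_left (norm_nonneg _) ?_
  simp only [deriv_circleMap, norm_mul, norm_inv, Complex.norm_I, norm_circleMap_zero,
    Complex.norm_real, Complex.norm_ofNat, mul_one, Real.norm_eq_abs, abs_of_pos pi_pos,
    abs_of_pos (show 0 < 2 * r by positivity)]
  rw [← div_eq_mul_inv, div_le_one (hr.trans_le h1), ← div_eq_inv_mul, div_le_iff₀ two_pi_pos]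
  nlinarith [pi_gt_three]

theorem sup_bound {X : Type} [MeasurableSpace X] (μ : Measure X) [SFinite μ] (Ψ : X → ℂ → ℂ → ℂ)
    (hm : Measurable fun p : X × ℂ × ℂ => Ψ p.1 p.2.1 p.2.2) {r K : ℝ} (hr : 0 < r)
    (hK : ∀ a b, ‖a‖ ≤ 2 * r → ‖b‖ ≤ 2 * r → ∫⁻ w, ‖Ψ w a b‖ₑ ∂μ ≤ ENNReal.ofReal K) :
    ∃ D : X → ℝ≥0∞, Measurable D ∧ ∫⁻ w, D w ∂μ ≤ ENNReal.ofReal (K * (2 * π) ^ 2) ∧
      ∀ w, (∀ b, ‖b‖ ≤ 2 * r → DifferentiableOn ℂ (Ψ w · b) (closedBall 0 (2 * r))) →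
        (∀ a, ‖a‖ ≤ 2 * r → DifferentiableOn ℂ (Ψ w a) (closedBall 0 (2 * r))) →
        ∀ a b, ‖a‖ ≤ r → ‖b‖ ≤ r → ‖Ψ w a b‖ₑ ≤ D w := by
  have hc : ∀ θ, ‖circleMap 0 (2 * r) θ‖ ≤ 2 * r := fun θ => by
    rw [norm_circleMap_zero, abs_of_pos (by positivity)]
  have hm' : Measurable fun p : X × ℝ × ℝ =>
      ‖Ψ p.1 (circleMap 0 (2 * r) p.2.1) (circleMap 0 (2 * r) p.2.2)‖ₑ :=
    (hm.comp (measurable_fst.prodMk
      (((measurable_circleMap 0 _).comp measurable_snd.fst).prodMk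
        ((measurable_circleMap 0 _).comp measurable_snd.snd)))).enorm
  let ν : Measure ℝ := volume.restrict (Ioc 0 (2 * π))
  refine ⟨fun w => ∫⁻ t, ‖Ψ w (circleMap 0 (2 * r) t.1) (circleMap 0 (2 * r) t.2)‖ₑ ∂ν.prod ν,
    hm'.lintegral_prod_right', ?_, fun w h1 h2 a b ha hb => ?_⟩
  · rw [lintegral_lintegral_swap hm'.aemeasurable]
    refine (lintegral_mono fun t => hK _ _ (hc _) (hc _)).trans ?_
    rw [lintegral_const, ← univ_prod_univ, Measure.prod_prod, Measure.restrict_apply_univ,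
      Real.volume_Ioc, sub_zero, ← ENNReal.ofReal_mul two_pi_pos.le,
      ← ENNReal.ofReal_mul' (by positivity), sq]
  · exact ((cauchy hr (h1 b (by linarith)) ha).trans
      (lintegral_mono fun θ => cauchy hr (h2 _ (hc θ)) hb)).trans
      (lintegral_prod _ (hm'.comp (measurable_prodMk_left (x := w))).aemeasurable).ge

theorem cheb {X : Type} [MeasurableSpace X] (μ : Measure X) {D : ℕ → X → ℝ≥0∞} {K δ : ℝ}
    (hK : 0 ≤ K) (hδ : 0 < δ) (hm : ∀ n, Measurable (D n))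
    (h : ∀ n, ∫⁻ w, D n w ∂μ ≤ ENNReal.ofReal (K / 4 ^ n)) :
    μ (⋃ n, {w | ENNReal.ofReal ((δ * (2 / 3) ^ n) ^ 2) ≤ D n w}) ≤
      ENNReal.ofReal (K / δ ^ 2 * (16 / 7)) := by
  have hs := (hasSum_geometric_of_lt_one (r := (9 / 16 : ℝ)) (by norm_num)
    (by norm_num)).mul_left (K / δ ^ 2)
  rw [show (16 / 7 : ℝ) = (1 - 9 / 16)⁻¹ by norm_num, ← hs.tsum_eq,
    ENNReal.ofReal_tsum_of_nonneg (fun n => by positivity) hs.summable]
  refine (measure_iUnion_le _).trans (ENNReal.tsum_le_tsum fun n => ?_)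
  have h0 : 0 < (δ * (2 / 3) ^ n) ^ 2 := by positivity
  refine (meas_ge_le_lintegral_div (hm n).aemeasurable (ENNReal.ofReal_pos.2 h0).ne'
    ENNReal.ofReal_ne_top).trans ((ENNReal.div_le_div_right (h n) _).trans ?_)
  rw [← ENNReal.ofReal_div_of_pos h0]
  refine (congrArg ENNReal.ofReal ?_).le
  rw [show (9 / 16 : ℝ) = (4 * (2 / 3) ^ 2)⁻¹ by norm_num, inv_pow, mul_pow, mul_pow, ← pow_mul,
    ← pow_mul, mul_comm n 2]
  field_simp

variable {α : Type} [Fintype α] [DecidableEq α] [Inhabited α] (S : SchottkyData α)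

/-- the square of a block as a function of two independent shifts -/
noncomputable def Ps (W : Finset (FreeGroup α)) (l : ℝ) (w : ℝ × ℝ) (a b : ℂ) : ℂ :=
  (S.ev W (1 / 2 + l * Complex.I) fun _ =>
    fk (1 / 2 + l * Complex.I) (pt w + a / l) (conj (pt w) + b / l)) ^ 2

omit [Fintype α] in
theorem Ps_meas (W : Finset (FreeGroup α)) (l : ℝ) :
    Measurable fun p : (ℝ × ℝ) × ℂ × ℂ => Ps S W l p.1 p.2.1 p.2.2 := by
  have h1 : Measurable fun p : (ℝ × ℝ) × ℂ × ℂ => pt p.1 + p.2.1 / l :=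
    Continuous.measurable (by unfold pt; fun_prop)
  have h2 : Measurable fun p : (ℝ × ℝ) × ℂ × ℂ => conj (pt p.1) + p.2.2 / l :=
    Continuous.measurable (by unfold pt; fun_prop)
  refine (Finset.measurable_sum W fun g _ => Measurable.const_mul ?_ _).pow_const 2
  exact (((h1.sub_const _).clog.add (h2.sub_const _).clog).const_mul _).cexp

theorem im_bound {z₀ : ℂ} {w : ℝ × ℝ} (hw : w ∈ Sq z₀ (z₀.im / 4)) {l r : ℝ} (hl : 0 < l)
    (hr : r / l ≤ z₀.im / 4) {a : ℂ} (ha : ‖a‖ ≤ r) :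
    z₀.im / 2 ≤ (pt w + a / l).im ∧ (pt w + a / l).im ≤ 2 * z₀.im ∧
      (conj (pt w) + a / l).im ≤ -(z₀.im / 2) := by
  have h1 : |(a / l).im| ≤ z₀.im / 4 := (Complex.abs_im_le_norm _).trans (by
    rw [norm_div, Complex.norm_real, Real.norm_of_nonneg hl.le]
    exact (div_le_div_of_nonneg_right ha hl.le).trans hr)
  have h2 : (pt w).im = w.2 := by simp [pt]
  obtain ⟨h3, h4⟩ := hw.2
  obtain ⟨h5, h6⟩ := abs_le.1 h1
  simp only [Complex.add_im, Complex.conj_im, h2]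
  refine ⟨by linarith, by linarith, by linarith⟩

theorem slit {z₀ : ℂ} (hz : 0 < z₀.im) {w : ℝ × ℝ} (hw : w ∈ Sq z₀ (z₀.im / 4)) {l r : ℝ}
    (hl : 0 < l) (hr : r / l ≤ z₀.im / 4) {a : ℂ} (ha : ‖a‖ ≤ r) (p : ℝ) :
    pt w + a / l - p ∈ Complex.slitPlane ∧ conj (pt w) + a / l - p ∈ Complex.slitPlane := by
  obtain ⟨h1, -, h2⟩ := im_bound hw hl hr ha
  constructor <;> refine Or.inr ?_ <;> rw [Complex.sub_im, Complex.ofReal_im, sub_zero]
  exacts [ne_of_gt (by linarith), ne_of_lt (by linarith)]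

omit [Fintype α] in
theorem Ps_bound (W : Finset (FreeGroup α)) {z₀ : ℂ} (hz : 0 < z₀.im) {l r K : ℝ} (hl : 0 < l)
    (hr0 : 0 < r) (hr : 2 * r / l ≤ z₀.im / 4)
    (hK : ∀ a b : ℂ, ‖a‖ ≤ 2 * r → ‖b‖ ≤ 2 * r → ∫ w in Sq z₀ (z₀.im / 4),
      ‖S.ev W (1 / 2 + l * Complex.I) fun _ =>
        fk (1 / 2 + l * Complex.I) (pt w + a / l) (conj (pt w) + b / l)‖ ^ 2 ≤ K) :
    ∃ D : ℝ × ℝ → ℝ≥0∞, Measurable D ∧
      ∫⁻ w in Sq z₀ (z₀.im / 4), D w ≤ ENNReal.ofReal (K * (2 * π) ^ 2) ∧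
      ∀ w ∈ Sq z₀ (z₀.im / 4), ∀ a b, ‖a‖ ≤ r → ‖b‖ ≤ r → ‖Ps S W l w a b‖ₑ ≤ D w := by
  obtain ⟨D, h1, h2, h3⟩ := sup_bound (volume.restrict (Sq z₀ (z₀.im / 4))) (Ps S W l)
    (Ps_meas S W l) hr0 (K := K) fun a b ha hb => by
      have hc : ContinuousOn (fun w => Ps S W l w a b) (Sq z₀ (z₀.im / 4)) := by
        have e1 : Continuous fun w => pt w + a / l := by unfold pt; fun_prop
        have e2 : Continuous fun w => conj (pt w) + b / l := by unfold pt; fun_prop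
        refine (continuousOn_finsetSum W fun g _ => continuousOn_const.mul ?_).pow 2
        exact (continuousOn_const.mul (((e1.sub continuous_const).continuousOn.clog
          fun w hw => (slit hz hw hl hr ha _).1).add
          ((e2.sub continuous_const).continuousOn.clog
            fun w hw => (slit hz hw hl hr hb _).2))).cexp
      refine (ofReal_integral_norm_eq_lintegral_enorm
        (hc.integrableOn_compact (isCompact_Icc.prod isCompact_Icc))).ge.trans ?_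
      simp only [Ps, norm_pow]
      exact ENNReal.ofReal_le_ofReal (hK a b ha hb)
  refine ⟨D, h1, h2, fun w hw => h3 w (fun b _ => ?_) fun a _ => ?_⟩
  · refine (DifferentiableOn.fun_sum fun g _ => DifferentiableOn.const_mul ?_ _).pow 2
    exact (((DifferentiableOn.clog (by fun_prop) fun a ha =>
      (slit hz hw hl hr (mem_closedBall_zero_iff.1 ha) _).1).add_const _).const_mul _).cexp
  · refine (DifferentiableOn.fun_sum fun g _ => DifferentiableOn.const_mul ?_ _).pow 2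
    exact (((DifferentiableOn.clog (by fun_prop) fun a ha =>
      (slit hz hw hl hr (mem_closedBall_zero_iff.1 ha) _).2).const_add _).const_mul _).cexp

end T6b

open T6b

variable {α : Type} [Fintype α] [DecidableEq α] [Inhabited α] (S : SchottkyData α)

theorem SchottkyData.tail {c₀ η h₀ C₁ : ℝ} (hc : c₀ ∈ Ioc (0 : ℝ) 1) (hη : η ∈ Ioc (0 : ℝ) 1)
    (hh : h₀ ∈ Ioc (0 : ℝ) 1) (H : S.Contr c₀ η h₀ C₁) (Z Sf : ℝ → Finset (FreeGroup α))
    (hP : ∀ t ∈ Ioc (0 : ℝ) 1, S.Part c₀ t (Z t) (Sf t))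
    (hE : ∀ g, g ≠ 1 → ∃ t₀ > 0, ∀ t ∈ Ioc 0 t₀, g ∈ Sf t) (z₀ : ℍ) (R : ℝ) {ε ϑ : ℝ}
    (hε : 0 < ε) (hϑ : 0 < ϑ) (T₀ : Finset (FreeGroup α)) : ∃ T₁ ⊇ T₀, ∃ l₁ : ℝ, ∀ l ≥ l₁,
      volume {w ∈ Sq z₀ (z₀.im / 4) | ∃ v : ℂ, ‖v‖ ≤ R ∧
        ε < ‖S.Eat Z Sf η l (1 / 2 + l * Complex.I) (UpperHalfPlane.ofComplex (pt w + v / l)) -
          S.blk T₁ (1 / 2 + l * Complex.I) (UpperHalfPlane.ofComplex (pt w + v / l))‖}
        ≤ ENNReal.ofReal ϑ := by
  have y0 : 0 < (z₀ : ℂ).im := z₀.im_pos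
  obtain ⟨r, r0, hr⟩ : ∃ r > 0, R ≤ r := ⟨max R 1, by positivity, le_max_left _ _⟩
  obtain ⟨M, hM⟩ : ∃ M, M = (2 * (z₀ : ℂ).im) ^ (1 / 2 : ℝ) := ⟨_, rfl⟩
  have M0 : 0 < M := by rw [hM]; positivity
  obtain ⟨δ, hδ⟩ : ∃ δ, δ = ε / (3 * M) := ⟨_, rfl⟩
  have δ0 : 0 < δ := by rw [hδ]; positivity
  obtain ⟨T₁, h0, h1, l₁, l0, hT⟩ := S.tail_sq hc hη hh H Z Sf hP hE z₀ (2 * r)
    (ϑ := ϑ * δ ^ 2 / (10 * (2 * π) ^ 2)) (by positivity) T₀
  refine ⟨T₁, h0, max (max l₁ 1) (8 * r / (z₀ : ℂ).im), fun l hl => ?_⟩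
  obtain ⟨⟨a1, a2⟩, a3⟩ := (max_le_iff.1 hl).imp_left max_le_iff.1
  have l0 : 0 < l := by linarith
  have a4 : 2 * r / l ≤ (z₀ : ℂ).im / 4 := by
    rw [div_le_iff₀ y0] at a3
    rw [div_le_iff₀ l0]
    linarith
  have hp := hP (η / l) ⟨div_pos hη.1 l0, (div_le_one l0).2 (hη.2.trans a2)⟩
  obtain ⟨h2, h3⟩ := hT l a1
  let W : ℕ → Finset (FreeGroup α) := fun n =>
    Nat.casesOn n (Sf (η / l) \ T₁) fun n => blocks (Z (η / l)) (Sf (η / l)) (n + 1)
  have hW : ∀ n, ∀ g ∈ W n, g ≠ 1 := fun n => by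
    cases n
    exacts [fun g hg => hp.ne g (Finset.mem_sdiff.1 hg).1, S.blocks_ne hp _]
  choose D d1 d2 d3 using fun n => Ps_bound S (W n) y0 l0 r0 a4
    (K := 4 * (ϑ * δ ^ 2 / (10 * (2 * π) ^ 2)) / 4 ^ n) fun a b ha hb => by
      cases n with
      | zero =>
        refine (h3 a b ha hb).1.trans ?_
        rw [pow_zero, div_one]
        exact le_mul_of_one_le_left (by positivity) (by norm_num)
      | succ n => exact ((h3 a b ha hb).2 n).trans (le_of_eq (by rw [pow_succ (4 : ℝ) n]; field_simp))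
  have h4 := cheb (volume.restrict (Sq z₀ ((z₀ : ℂ).im / 4))) (K := 4 * (ϑ * δ ^ 2 / 10))
    (by positivity) δ0 d1 fun n => (d2 n).trans (le_of_eq (congrArg _ (by field_simp)))
  rw [Measure.restrict_apply' (s := Sq _ _) (measurableSet_Icc.prod measurableSet_Icc)] at h4
  refine ((measure_mono ?_).trans h4).trans (ENNReal.ofReal_le_ofReal ?_)
  · rintro w ⟨hw, v, hv, hv'⟩
    refine ⟨?_, hw⟩
    by_contra hn
    simp only [mem_iUnion, mem_ofPred_eq, not_exists, not_le] at hn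
    obtain ⟨b1, b2, -⟩ := im_bound hw l0 a4 (a := v) (by linarith)
    have b3 : 0 < (pt w + v / l).im := by linarith
    rw [UpperHalfPlane.ofComplex_apply_of_im_pos b3] at hv'
    set z : ℍ := ⟨pt w + v / l, b3⟩
    set s : ℂ := 1 / 2 + l * Complex.I
    have b4 : ∀ n, ‖S.blk (W n) s z‖ ≤ M * δ * (2 / 3) ^ n := fun n => by
      have e1 := (d3 n w hw v (conj v) (hv.trans hr) (by simpa using hv.trans hr)).trans_lt (hn n)
      rw [← ofReal_norm, ENNReal.ofReal_lt_ofReal_iff (by positivity), Ps, norm_pow] at e1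
      rw [S.blk_eq (hW n), norm_mul, mul_assoc,
        show conj (z : ℂ) = conj (pt w) + conj v / l by simp [z]]
      refine mul_le_mul ?_ (lt_of_pow_lt_pow_left₀ 2 (by positivity) e1).le (norm_nonneg _) M0.le
      rw [Complex.norm_cpow_eq_rpow_re_of_pos z.im_pos, hM, show s.re = 1 / 2 by simp [s]]
      exact rpow_le_rpow b3.le b2 (by norm_num)
    have b5 := (hasSum_geometric_of_lt_one (r := (2 / 3 : ℝ)) (by norm_num)
      (by norm_num)).mul_left (M * δ)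
    have b6 : Summable fun n => S.blk (W n) s z := b5.summable.of_norm_bounded b4
    have b7 : Summable fun n => S.blk (blocks (Z (η / l)) (Sf (η / l)) n) s z :=
      (summable_nat_add_iff (f := fun n => S.blk (blocks (Z (η / l)) (Sf (η / l)) n) s z) 1).1
        ((summable_nat_add_iff (f := fun n => S.blk (W n) s z) 1).2 b6)
    have b8 : Sf (η / l) \ T₁ = Sf (η / l) \ T₁.erase 1 := by
      ext g
      simp only [Finset.mem_sdiff, Finset.mem_erase]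
      exact and_congr_right fun hg => by simp [hp.ne g hg]
    have b9 : S.Eat Z Sf η l s z - S.blk T₁ s z = ∑' n, S.blk (W n) s z := by
      rw [SchottkyData.Eat, b6.tsum_eq_zero_add, b7.tsum_eq_zero_add]
      have e1 : S.blk T₁ s z = ((z.im : ℝ) : ℂ) ^ s + S.blk (T₁.erase 1) s z := by
        rw [SchottkyData.blk, ← Finset.add_sum_erase _ _ h1, S.ht_one]; rfl
      have e2 : S.blk (Sf (η / l) \ T₁) s z + S.blk (T₁.erase 1) s z = S.blk (Sf (η / l)) s z := by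
        rw [b8]; exact Finset.sum_sdiff h2
      change _ + (S.blk (Sf (η / l)) s z + _) - _ = S.blk (Sf (η / l) \ T₁) s z + _
      rw [e1, ← e2]
      simp only [W]
      ring
    have := tsum_of_norm_bounded b5 b4
    rw [← b9, hδ, show M * (ε / (3 * M)) * (1 - 2 / 3)⁻¹ = ε by field_simp; norm_num] at this
    exact absurd hv' (not_lt.2 this)
  · rw [show 4 * (ϑ * δ ^ 2 / 10) / δ ^ 2 * (16 / 7) = 32 / 35 * ϑ by field_simp; norm_num]
    linarith

end Pool.Agent.Lib.MP_e1e19a_an
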