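import Pool.Agent.Lib.MP_e1e19a_an.N.S4
import Pool.Agent.Lib.MP_e1e19a_an.N.S5
import Pool.Agent.Lib.MP_e1e19a_an.N.T4
import Pool.Agent.Lib.MP_e1e19a_an.N.T5b
import Pool.Agent.Lib.MP_e1e19a_an.N.T6b
import Pool.Agent.Lib.MP_e1e19a_an.N.C2b
import Pool.Agent.Lib.MP_e1e19a_an.N.C3
import Pool.Agent.Lib.MP_e1e19a_an.N.B1
import Pool.Agent.Lib.MP_e1e19a_an.N.A8a
import Pool.Agent.Lib.MP_e1e19a_an.N.A9
import Pool.Agent.Lib.MP_e1e19a_an.N.A11c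

/-!
Assembly.
-/

namespace Pool.Agent.Lib.MP_e1e19a_an

open Real MeasureTheory Set
open scoped MatrixGroups ComplexConjugate UpperHalfPlane

variable {α : Type} [Fintype α] [DecidableEq α] [Inhabited α] [Nontrivial α] (S : SchottkyData α)

theorem SchottkyData.bp : ∃ z ∈ interior (hull (limitSet S.group)), BP (S.amp z) (S.dir z) := by
  have pos : ∀ z g, 0 < S.amp z g := fun z g => sqrt_pos.2 (S.ht_pos g z)
  have inf : ∀ z : ℍ, (kd z '' S.Lam).Infinite := fun z => S.Lam_inf.image (kd_inj z).injOn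
  have un : ∀ z : ℍ, ∀ κ ∈ kd z '' S.Lam, ‖κ‖ = 1 := by
    rintro z _ ⟨ξ, -, rfl⟩
    exact kd_norm z ξ
  by_cases h : Summable (S.amp UpperHalfPlane.I)
  · have fam : ∀ z, Fam (S.amp z) (S.dir z) := fun z => ⟨pos z, S.summ_indep h z, S.dir_norm z⟩
    obtain ⟨z₀, hz, h0⟩ := S.zero_point h
    obtain ⟨δ, hδ, H⟩ := lb_config (fam z₀) (S.dense z₀) (inf z₀) (un z₀) h0
    obtain ⟨z, z1, z2, z3⟩ := S.perturb isOpen_interior hz (fam z₀).sum hδ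
    exact ⟨z, z1, bp_sum (fam z) (S.dense z) (inf z) (un z)
      (raj_of_na S.Lam_inf S.Lam_bdd S.na z) (H _ _ (fam z) z2) 1 z3⟩
  · obtain ⟨z, hz⟩ := S.int_ne
    exact ⟨z, hz, bp_div (pos z) (S.amp_sq_summable z) (S.dir_norm z) (inf z) (un z)
      (S.div z fun h' => h (S.summ_indep h' _))⟩

theorem SchottkyData.main : ∃ l₀ > (0 : ℝ), ∃ E : ℂ → ℍ → ℂ,
    (∀ z, AnalyticOnNhd ℂ (fun s => E s z) {s | 1 / 2 ≤ s.re ∧ l₀ ≤ s.im}) ∧
    (∀ s : ℂ, 1 < s.re → l₀ ≤ s.im → ∀ z,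
      HasSum (fun γ : S.group => (((γ • z).im : ℝ) : ℂ) ^ s) (E s z)) ∧
    ∃ c > (0 : ℝ), ∀ l ≥ l₀, ∀ C : ℂ, C ≠ 0 →
      ∃ 𝒟 : Finset (Set (Surf S.group)), c * l ^ 2 ≤ 𝒟.card ∧ ∀ D ∈ 𝒟,
        IsNodalDomain S.group (fun z => (C * E (1 / 2 + l * Complex.I) z).re) D ∧
          IsCompact (closure D) ∧
          closure D ⊆ interior (proj S.group '' hull (limitSet S.group)) := by
  obtain ⟨c₀, hc, Z, Sf, hP, hE⟩ := S.part
  obtain ⟨η, hη, h₀, hh, C₁, -, H⟩ := S.contraction hc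
  obtain ⟨l₀, l0, hD⟩ := S.decay hc hη hh H
  have hP' : ∀ l ≥ max l₀ 1, S.Part c₀ (η / l) (Z (η / l)) (Sf (η / l)) := fun l hl => by
    have h1 : 1 ≤ l := (le_max_right _ _).trans hl
    exact hP _ ⟨div_pos hη.1 (by linarith), div_le_one_of_le₀ (hη.2.trans h1) (by linarith)⟩
  obtain ⟨a1, a2, a3⟩ := S.contin Z Sf hP' fun l₁ => (hD l₁).imp fun σ₀ h => ⟨h.1, fun l hl =>
    h.2 l ⟨(le_max_left _ _).trans hl.1, hl.2⟩ _ _ (hP' l hl.1)⟩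
  obtain ⟨z₀, hz, hB⟩ := S.bp
  obtain ⟨D, x₀, d1, d2, d3, d4⟩ := S.good_set z₀ hB
    (fun l => S.Eat Z Sf η l (1 / 2 + l * Complex.I))
    fun R ε ϑ hε hϑ T₀ => S.tail hc hη hh H Z Sf hP hE z₀ R hε hϑ T₀
  have := S.proper
  obtain ⟨ρ₁, r0, h3⟩ := count_domains S.group S.free z₀ (isOpen_interior.mem_nhds hz) d1 d2 d3
  obtain ⟨ρ, hρ, c, c0, l₁, h4⟩ := d4 ρ₁ r0
  obtain ⟨c', c1, l₂, h5⟩ := h3 ρ hρ c c0
  obtain ⟨e, he⟩ := S.equiv
  have m1 : max l₀ 1 + 1 ≤ max (max l₀ 1 + 1) (max l₁ l₂) := le_max_left _ _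
  refine ⟨max (max l₀ 1 + 1) (max l₁ l₂), lt_of_lt_of_le (by positivity) m1,
    fun s z => S.Eat Z Sf η s.im s z, fun z => (a1 z).mono fun s hs => ⟨hs.1, m1.trans hs.2⟩,
    fun s h1 h2 z => ?_, c', c1, fun l hl C hC => ?_⟩
  · rw [← ((Equiv.inv _).trans e).hasSum_iff]
    convert a2 s h1 (m1.trans h2) z using 2 with g
    simp only [Function.comp, Equiv.trans_apply, Equiv.inv_apply, Subgroup.smul_def, he,
      SchottkyData.ht]
  · have e1 : (1 / 2 + l * Complex.I : ℂ).im = l := by simp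
    obtain ⟨b1, b2⟩ := a3 l (m1.trans hl)
    have l1 : l₁ ≤ l := ((le_max_left _ _).trans (le_max_right _ _)).trans hl
    have l2 : l₂ ≤ l := ((le_max_right _ _).trans (le_max_right _ _)).trans hl
    simp only [e1]
    obtain ⟨𝒟, g1, g2⟩ := h5 l l2 (fun z => (C * S.Eat Z Sf η l (1 / 2 + l * Complex.I) z).re)
      (Complex.continuous_re.comp (continuous_const.mul b1)) (fun γ z => by
        obtain ⟨g, rfl⟩ := e.surjective γ
        rw [Subgroup.smul_def, he, b2]) (h4 l l1 C hC)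
    exact ⟨𝒟, g1, fun D hD => ⟨(g2 D hD).1, (g2 D hD).2.1, (g2 D hD).2.2.trans (interior_maximal
      (Set.image_mono interior_subset) (isOpenMap_quotient_mk'_mul _ isOpen_interior))⟩⟩

end Pool.Agent.Lib.MP_e1e19a_an
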