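import Pool.Agent.Lib.MP_e1e19a_an.N.Core
import Pool.Agent.Lib.MP_e1e19a_an.H26Dim

/-!
Ping-pong, sizes and poles of the words of a Schottky group.
-/

namespace Pool.Agent.Lib.MP_e1e19a_an

open Real MeasureTheory Set
open scoped MatrixGroups ComplexConjugate UpperHalfPlane

set_option linter.unusedSectionVars false

variable {α : Type} [Fintype α] [DecidableEq α] [Inhabited α] (S : SchottkyData α)

namespace S1

theorem headI_append {L₁ L₂ : List (α × Bool)} (h : L₁ ≠ []) : (L₁ ++ L₂).headI = L₁.headI := by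
  cases L₁ with
  | nil => exact absurd rfl h
  | cons a l => rfl

theorem word_ne {g : FreeGroup α} (hg : g ≠ 1) : g.toWord ≠ [] :=
  fun e => hg (FreeGroup.toWord_eq_nil_iff.1 e)

theorem hd_inv {g : FreeGroup α} (hg : g ≠ 1) : hd g⁻¹ =
    ((g.toWord.getLast (word_ne hg)).1, !(g.toWord.getLast (word_ne hg)).2) := by
  rw [hd, FreeGroup.toWord_inv]
  obtain ⟨L, a, e⟩ : ∃ L a, g.toWord = L ++ [a] := ⟨_, _, (List.dropLast_append_getLast (word_ne hg)).symm⟩
  simp [e, FreeGroup.invRev]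

/-- inside the cone of a disc -/
def In (j : α × Bool) (x y : ℝ) : Prop := |x - S.c j * y| ≤ S.ρ j * |y|

/-- outside the cone of a disc -/
def Out (j : α × Bool) (x y : ℝ) : Prop := S.ρ j * |y| ≤ |x - S.c j * y|

theorem In.out {i j : α × Bool} (h : i ≠ j) {x y : ℝ} (H : In S i x y) : Out S j x y := by
  have h1 := S.disj i j h
  have h2 : |S.c i - S.c j| * |y| ≤ |x - S.c j * y| + |x - S.c i * y| := by
    rw [← abs_mul, show (S.c i - S.c j) * y = (x - S.c j * y) - (x - S.c i * y) by ring]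
    exact abs_sub _ _
  unfold In at H
  unfold Out
  nlinarith [abs_nonneg y]

theorem quad {P Q : ℝ} (h : ∀ y > 0, P + Q * y ^ 2 ≤ 0) : P ≤ 0 ∧ Q ≤ 0 := by
  constructor
  · have : Filter.Tendsto (fun y : ℝ => P + Q * y ^ 2) (nhdsWithin 0 (Ioi 0)) (nhds (P + Q * 0 ^ 2)) :=
      (Continuous.tendsto (by fun_prop) 0).mono_left nhdsWithin_le_nhds
    simpa using le_of_tendsto this (eventually_nhdsWithin_of_forall fun y hy => h y hy)
  · by_contra hQ
    rw [not_le] at hQ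
    have := h (√(|P| / Q + 1)) (sqrt_pos.2 (by positivity))
    rw [sq_sqrt (by positivity), mul_add, mul_div_cancel₀ _ hQ.ne'] at this
    linarith [neg_abs_le P]

theorem cone (m : SL(2, ℝ)) {i j : α × Bool}
    (h : ∀ z : ℍ, S.ρ i < ‖(z : ℂ) - S.c i‖ → ‖((m • z : ℍ) : ℂ) - S.c j‖ ≤ S.ρ j) {x y : ℝ}
    (H : Out S i x y) : In S j (m 0 0 * x + m 0 1 * y) (m 1 0 * x + m 1 1 * y) := by
  have r0 := S.pos i
  have r1 := S.pos j
  have key : ∀ u : ℝ, S.ρ i ≤ |u - S.c i| →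
      (m 0 0 * u + m 0 1 - S.c j * (m 1 0 * u + m 1 1)) ^ 2 - S.ρ j ^ 2 * (m 1 0 * u + m 1 1) ^ 2 ≤ 0 ∧
      (m 0 0 - S.c j * m 1 0) ^ 2 - S.ρ j ^ 2 * m 1 0 ^ 2 ≤ 0 := fun u hu => quad fun t ht => by
    let z : ℍ := ⟨⟨u, t⟩, ht⟩
    have e1 := coe_smul_mul m z
    have h1 := h z (by
      refine lt_of_pow_lt_pow_left₀ 2 (norm_nonneg _) ?_
      rw [Complex.sq_norm, Complex.normSq_apply]
      simp only [z, Complex.sub_re, Complex.sub_im, Complex.ofReal_re, Complex.ofReal_im]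
      nlinarith [pow_le_pow_left₀ r0.le hu 2, sq_abs (u - S.c i)])
    have h2 : ‖(m 0 0 * z + m 0 1 - S.c j * (m 1 0 * z + m 1 1) : ℂ)‖ ≤
        S.ρ j * ‖(m 1 0 * z + m 1 1 : ℂ)‖ := by
      rw [← e1, ← sub_mul, norm_mul]
      gcongr
    have h3 := pow_le_pow_left₀ (norm_nonneg _) h2 2
    rw [mul_pow, Complex.sq_norm, Complex.sq_norm, Complex.normSq_apply, Complex.normSq_apply] at h3
    simp [z] at h3
    nlinarith
  refine abs_le_of_sq_le_sq ?_ (by positivity)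
  rw [mul_pow, sq_abs]
  by_cases hy : y = 0
  · have := (key (S.c i + S.ρ i) (by simp [abs_of_pos r0])).2
    subst hy
    nlinarith [mul_le_mul_of_nonneg_right this (sq_nonneg x)]
  · have := (key (x / y) (by
      rw [show x / y - S.c i = (x - S.c i * y) / y by field_simp, abs_div,
        le_div_iff₀ (abs_pos.2 hy)]
      exact H)).1
    have h2 := mul_le_mul_of_nonneg_right this (sq_nonneg y)
    obtain ⟨u, rfl⟩ : ∃ u, x = u * y := ⟨x / y, by field_simp⟩
    rw [mul_div_cancel_right₀ _ hy] at h2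
    nlinarith

theorem letter (j : α × Bool) {x y : ℝ} (H : Out S (j.1, !j.2) x y) :
    In S j (S.M (.mk [j]) 0 0 * x + S.M (.mk [j]) 0 1 * y)
      (S.M (.mk [j]) 1 0 * x + S.M (.mk [j]) 1 1 * y) := by
  refine cone S _ (fun z hz => ?_) H
  obtain ⟨i, _ | _⟩ := j
  · have e : S.M (.mk [(i, false)]) = (S.gen i)⁻¹ := by simp [SchottkyData.M, FreeGroup.lift_mk]
    rw [e]
    by_contra h
    have := (S.maps i ((S.gen i)⁻¹ • z)).2 (not_le.1 h)
    rw [smul_inv_smul] at this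
    exact absurd hz (not_lt.2 this.le)
  · have e : S.M (.mk [(i, true)]) = S.gen i := by simp [SchottkyData.M, FreeGroup.lift_mk]
    rw [e]
    exact ((S.maps i z).2 hz).le

theorem nz (m : SL(2, ℝ)) {x y : ℝ} (h : x ≠ 0 ∨ y ≠ 0) :
    m 0 0 * x + m 0 1 * y ≠ 0 ∨ m 1 0 * x + m 1 1 * y ≠ 0 := by
  by_contra H
  rw [not_or, not_not, not_not] at H
  have d := det2 m
  rcases h with h | h
  · exact h (by linear_combination m 1 1 * H.1 - m 0 1 * H.2 - x * d)
  · exact h (by linear_combination m 0 0 * H.2 - m 1 0 * H.1 - y * d)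

theorem word (L : List (α × Bool)) (hL : FreeGroup.IsReduced L) (h0 : L ≠ []) {x y : ℝ}
    (H : Out S (hd (FreeGroup.mk L)⁻¹) x y) :
    In S L.headI (S.M (.mk L) 0 0 * x + S.M (.mk L) 0 1 * y)
      (S.M (.mk L) 1 0 * x + S.M (.mk L) 1 1 * y) := by
  induction L with
  | nil => exact absurd rfl h0
  | cons j L ih =>
    rw [hd, FreeGroup.toWord_inv, FreeGroup.toWord_mk, hL.reduce_eq] at H
    cases L with
    | nil => exact letter S j (by simpa [FreeGroup.invRev] using H)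
    | cons k L =>
      have hr := FreeGroup.isReduced_cons_cons.1 hL
      have h1 := ih hr.2 (by simp) (by
        rw [hd, FreeGroup.toWord_inv, FreeGroup.toWord_mk, hr.2.reduce_eq]
        rwa [FreeGroup.invRev_cons, headI_append (by simp [FreeGroup.invRev])] at H)
      have h2 := letter S j (h1.out S (j := (j.1, !j.2)) (by
        rintro e
        have e0 : k = (j.1, !j.2) := e
        have e1 : k.1 = j.1 := by rw [e0]
        have e2 : k.2 = !j.2 := by rw [e0]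
        have := hr.1 e1.symm
        simp [← this] at e2))
      have e : S.M (.mk (j :: k :: L)) = S.M (.mk [j]) * S.M (.mk (k :: L)) := by
        rw [← map_mul, FreeGroup.mul_mk]; rfl
      rw [e]
      simp only [Matrix.SpecialLinearGroup.coe_mul, Matrix.mul_apply, Fin.sum_univ_two]
      convert h2 using 1
      · rfl
      · ring
      · ring

theorem elem {g : FreeGroup α} (hg : g ≠ 1) {x y : ℝ} (H : Out S (hd g⁻¹) x y) :
    In S (hd g) (S.M g 0 0 * x + S.M g 0 1 * y) (S.M g 1 0 * x + S.M g 1 1 * y) := by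
  have := word S g.toWord FreeGroup.isReduced_toWord (word_ne hg) (x := x) (y := y)
  rw [FreeGroup.mk_toWord] at this
  exact this H

theorem In.ne {j : α × Bool} {x y : ℝ} (H : In S j x y) (h : x ≠ 0 ∨ y ≠ 0) : y ≠ 0 := by
  rintro rfl
  simp [In] at H h
  exact h H

theorem In.div {j : α × Bool} {x y : ℝ} (H : In S j x y) (h : y ≠ 0) :
    |x / y - S.c j| ≤ S.ρ j := by
  rw [show x / y - S.c j = (x - S.c j * y) / y by field_simp, abs_div, div_le_iff₀ (abs_pos.2 h)]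
  exact H

theorem inv_entries (g : FreeGroup α) : S.M g⁻¹ 0 0 = S.M g 1 1 ∧ S.M g⁻¹ 0 1 = -S.M g 0 1 ∧
    S.M g⁻¹ 1 0 = -S.M g 1 0 ∧ S.M g⁻¹ 1 1 = S.M g 0 0 := by
  rw [map_inv, Matrix.SpecialLinearGroup.SL2_inv_expl]
  simp

end S1

open S1

theorem compat {w h : FreeGroup α} (hw : w ≠ 1) (hh : h ≠ 1) (e : hd h ≠ hd w⁻¹) :
    (w * h).toWord = w.toWord ++ h.toWord ∧ w * h ≠ 1 ∧ hd (w * h) = hd w ∧
      hd (w * h)⁻¹ = hd h⁻¹ ∧ (w * h).norm = w.norm + h.norm := by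
  have e1 : (w * h).toWord = w.toWord ++ h.toWord := by
    rw [FreeGroup.toWord_mul]
    refine FreeGroup.IsReduced.reduce_eq ?_
    refine List.IsChain.append FreeGroup.isReduced_toWord FreeGroup.isReduced_toWord ?_
    intro a ha b hb hab
    rw [hd_inv hw] at e
    rw [List.getLast?_eq_some_getLast (word_ne hw), Option.mem_def, Option.some_inj] at ha
    obtain ⟨b', L, eb⟩ := List.exists_cons_of_ne_nil (word_ne hh)
    rw [hd, eb, ha] at e
    rw [eb] at hb
    obtain rfl : b' = b := by simpa using hb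
    by_contra hc
    exact e (Prod.ext hab.symm (by simpa using Bool.eq_not_of_ne (Ne.symm hc)))
  refine ⟨e1, fun e2 => ?_, by rw [hd, e1, headI_append (word_ne hw)]; rfl, ?_, ?_⟩
  · rw [e2] at e1
    exact word_ne hw (List.append_eq_nil_iff.1 e1.symm).1
  · rw [hd, hd, FreeGroup.toWord_inv, FreeGroup.toWord_inv, e1, FreeGroup.invRev_append,
      headI_append (by simpa [FreeGroup.invRev] using hh)]
  · rw [FreeGroup.norm, e1, List.length_append]; rfl

theorem SchottkyData.c_ne {g : FreeGroup α} (hg : g ≠ 1) : S.M g 1 0 ≠ 0 := by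
  simpa using (elem S hg (x := 1) (y := 0) (by simp [Out])).ne S (nz _ (by simp))

theorem SchottkyData.p_mem {g : FreeGroup α} (hg : g ≠ 1) :
    |S.p g - S.c (hd g)| ≤ S.ρ (hd g) := by
  simpa [SchottkyData.p] using (elem S hg (x := 1) (y := 0) (by simp [Out])).div S (by simpa using S.c_ne hg)

theorem SchottkyData.pingpong {g : FreeGroup α} (hg : g ≠ 1) {x : ℝ}
    (hx : S.ρ (hd g⁻¹) ≤ |x - S.c (hd g⁻¹)|) :
    x ≠ S.p g⁻¹ ∧ |S.p g - S.τ g / (x - S.p g⁻¹) - S.c (hd g)| ≤ S.ρ (hd g) := by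
  have h1 := elem S hg (x := x) (y := 1) (by simpa [Out] using hx)
  have h2 := h1.ne S (nz _ (by simp))
  have h3 := h1.div S h2
  have c0 := S.c_ne hg
  have e : x - S.p g⁻¹ = (S.M g 1 0 * x + S.M g 1 1 * 1) / S.M g 1 0 := by
    rw [SchottkyData.p, (inv_entries S g).1, (inv_entries S g).2.2.1]
    field_simp
    ring
  refine ⟨sub_ne_zero.1 (e ▸ div_ne_zero h2 c0), ?_⟩
  convert h3 using 3
  rw [e, SchottkyData.p, SchottkyData.τ]
  have d := det2 (S.M g)
  rw [mul_one] at h2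
  rw [mul_one, mul_one]
  field_simp
  linear_combination d

theorem SchottkyData.M_inj : Function.Injective S.M :=
  (injective_iff_map_eq_one _).2 fun g e => by
    by_contra hg
    exact S.c_ne hg (by simp [e])

theorem SchottkyData.τ_pos {g : FreeGroup α} (hg : g ≠ 1) : 0 < S.τ g :=
  inv_pos.2 (sq_pos_of_ne_zero (S.c_ne hg))

theorem SchottkyData.τ_one : S.τ 1 = 0 := by simp [SchottkyData.τ]

theorem SchottkyData.τ_inv (g : FreeGroup α) : S.τ g⁻¹ = S.τ g := by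
  rw [SchottkyData.τ, (inv_entries S g).2.2.1, neg_sq]; rfl

theorem SchottkyData.mul_formula {w h : FreeGroup α} (hw : w ≠ 1) (hh : h ≠ 1) (e : w * h ≠ 1) :
    S.p h ≠ S.p w⁻¹ ∧ S.p (w * h) = S.p w - S.τ w / (S.p h - S.p w⁻¹) ∧
      S.τ (w * h) = S.τ w * S.τ h / (S.p h - S.p w⁻¹) ^ 2 := by
  have c1 := S.c_ne hw
  have c2 := S.c_ne hh
  have c3 := S.c_ne e
  have d := det2 (S.M w)
  have e1 : S.p h - S.p w⁻¹ = S.M (w * h) 1 0 / (S.M w 1 0 * S.M h 1 0) := by
    rw [SchottkyData.p, SchottkyData.p, (inv_entries S w).1, (inv_entries S w).2.2.1, map_mul]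
    simp only [Matrix.SpecialLinearGroup.coe_mul, Matrix.mul_apply, Fin.sum_univ_two]
    field_simp
    ring
  refine ⟨sub_ne_zero.1 (e1 ▸ div_ne_zero c3 (mul_ne_zero c1 c2)), ?_, ?_⟩
  · rw [e1, SchottkyData.p, SchottkyData.p, SchottkyData.τ]
    field_simp
    simp only [map_mul, Matrix.SpecialLinearGroup.coe_mul, Matrix.mul_apply, Fin.sum_univ_two]
    linear_combination -S.M h 1 0 * d
  · rw [e1, SchottkyData.τ, SchottkyData.τ, SchottkyData.τ]
    field_simp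

theorem SchottkyData.geo : ∃ γ ∈ Ioc (0 : ℝ) 1, ∃ B ≥ (1 : ℝ),
    (∀ i j, i ≠ j → ∀ x y, |x - S.c i| ≤ S.ρ i → |y - S.c j| ≤ S.ρ j → γ ≤ |x - y|) ∧
    (∀ j, |S.c j| + S.ρ j ≤ B) ∧ (∀ g, g ≠ 1 → |S.p g| ≤ B) ∧ (∀ g, S.τ g ≤ 4 * B ^ 2) ∧
    ∀ u v, u ≠ 1 → v ≠ 1 → u ≠ v → S.τ u ≤ 2 * B * |S.p u - S.p v| := by
  obtain ⟨γ, γ0, hγ⟩ : ∃ γ > 0, ∀ x : (α × Bool) × (α × Bool), x.1 ≠ x.2 →
      γ ≤ |S.c x.1 - S.c x.2| - (S.ρ x.1 + S.ρ x.2) := by
    obtain ⟨x, hx, h⟩ := Set.exists_min_image {x : (α × Bool) × (α × Bool) | x.1 ≠ x.2}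
      (fun x => |S.c x.1 - S.c x.2| - (S.ρ x.1 + S.ρ x.2)) (Set.toFinite _)
      ⟨((default, true), (default, false)), by simp⟩
    exact ⟨_, sub_pos.2 (S.disj _ _ hx), h⟩
  obtain ⟨B, hB⟩ := (Set.finite_range fun j => |S.c j| + S.ρ j).bddAbove
  have b1 : ∀ j, |S.c j| + S.ρ j ≤ max B 1 := fun j => (hB ⟨j, rfl⟩).trans (le_max_left _ _)
  have b2 : ∀ g, g ≠ 1 → |S.p g| ≤ max B 1 := fun g hg => by
    linarith [b1 (hd g), S.p_mem hg, abs_sub_abs_le_abs_sub (S.p g) (S.c (hd g))]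
  refine ⟨min γ 1, ⟨lt_min γ0 one_pos, min_le_right _ _⟩, max B 1, le_max_right _ _,
    fun i j h x y hx hy => (min_le_left _ _).trans ?_, b1, b2, fun g => ?_, fun u v hu hv h => ?_⟩
  · have h1 := hγ (i, j) h
    have h2 : |S.c i - S.c j| ≤ |x - y| + |x - S.c i| + |y - S.c j| := by
      rw [show S.c i - S.c j = (x - y) - (x - S.c i) + (y - S.c j) by ring]
      exact (abs_add_le _ _).trans (by linarith [abs_sub (x - y) (x - S.c i)])
    simp only at h1
    linarith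
  · by_cases hg : g = 1
    · rw [hg, S.τ_one]; positivity
    obtain ⟨h1, h2⟩ := S.pingpong hg (x := S.c (hd g⁻¹) + S.ρ (hd g⁻¹))
      (by simp [abs_of_pos (S.pos _)])
    have h3 := S.p_mem hg
    have h4 := S.p_mem (inv_ne_one.2 hg)
    set x := S.c (hd g⁻¹) + S.ρ (hd g⁻¹) - S.p g⁻¹ with hx
    have x0 : x ≠ 0 := sub_ne_zero.2 h1
    have h5 : |S.τ g / x| ≤ 2 * max B 1 := by
      have := abs_sub (S.p g - S.c (hd g)) (S.p g - S.τ g / x - S.c (hd g))
      rw [show S.p g - S.c (hd g) - (S.p g - S.τ g / x - S.c (hd g)) = S.τ g / x by ring] at this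
      linarith [b1 (hd g), abs_nonneg (S.c (hd g))]
    have h6 : |x| ≤ 2 * max B 1 := by
      rw [abs_le] at h4 ⊢
      constructor <;> linarith [b1 (hd g⁻¹), abs_nonneg (S.c (hd g⁻¹)), S.pos (hd g⁻¹), h4.1, h4.2]
    rw [abs_div, div_le_iff₀ (abs_pos.2 x0), abs_of_pos (S.τ_pos hg)] at h5
    nlinarith [abs_nonneg x, le_max_right B 1]
  · have hg : u⁻¹ * v ≠ 1 := fun e => h (inv_mul_eq_one.1 e)
    obtain ⟨h1, h2, -⟩ := S.mul_formula hu hg (by simpa using hv)
    rw [mul_inv_cancel_left] at h2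
    rw [h2, sub_sub_cancel, abs_div, abs_of_pos (S.τ_pos hu), ← mul_div_assoc,
      le_div_iff₀ (abs_pos.2 (sub_ne_zero.2 h1)), mul_comm]
    refine mul_le_mul_of_nonneg_right ?_ (S.τ_pos hu).le
    linarith [abs_sub (S.p (u⁻¹ * v)) (S.p u⁻¹), b2 _ hg, b2 _ (inv_ne_one.2 hu)]

theorem SchottkyData.τ_summable : Summable S.τ := by
  obtain ⟨-, -, B, B1, -, -, h1, h2, h3⟩ := S.geo
  have t0 : ∀ g, 0 ≤ S.τ g := fun g => by unfold SchottkyData.τ; positivity
  refine summable_of_sum_le t0 (c := 2 * B * (4 * B)) fun T => ?_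
  rw [← Finset.sum_erase _ S.τ_one]
  have hd : ((T.erase 1 : Finset _) : Set (FreeGroup α)).PairwiseDisjoint
      fun g => Ioo (S.p g) (S.p g + S.τ g / (2 * B)) := fun u hu v hv h => by
    have a1 := h3 u v (Finset.ne_of_mem_erase hu) (Finset.ne_of_mem_erase hv) h
    have a2 := h3 v u (Finset.ne_of_mem_erase hv) (Finset.ne_of_mem_erase hu) h.symm
    rw [← div_le_iff₀' (by positivity)] at a1 a2
    refine Set.disjoint_left.2 fun x hx hy => ?_
    rcases le_total (S.p u) (S.p v) with e | e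
    · rw [abs_sub_comm, abs_of_nonneg (sub_nonneg.2 e)] at a1
      linarith [hx.2, hy.1]
    · rw [abs_sub_comm, abs_of_nonneg (sub_nonneg.2 e)] at a2
      linarith [hx.1, hy.2]
  have m := measureReal_biUnion_finset (μ := volume) hd (fun _ _ => measurableSet_Ioo)
    (fun _ _ => by simp)
  have m2 : volume.real (⋃ g ∈ T.erase 1, Ioo (S.p g) (S.p g + S.τ g / (2 * B)))
      ≤ volume.real (Icc (-B) (3 * B)) := measureReal_mono (iUnion₂_subset fun g hg x hx => by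
    have a1 := abs_le.1 (h1 g (Finset.ne_of_mem_erase hg))
    have a2 : S.τ g / (2 * B) ≤ 2 * B := by
      rw [div_le_iff₀ (by positivity)]; linarith [h2 g]
    exact ⟨by linarith [hx.1], by linarith [hx.2]⟩) (by simp)
  rw [m, Real.volume_real_Icc_of_le (by linarith), Finset.sum_congr rfl fun g _ =>
    Real.volume_real_Ioo_of_le (le_add_of_nonneg_right (div_nonneg (t0 g) (by positivity)))] at m2
  simp only [add_sub_cancel_left, ← Finset.sum_div] at m2
  rw [div_le_iff₀ (by positivity)] at m2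
  linarith

theorem SchottkyData.ht_eq {g : FreeGroup α} (hg : g ≠ 1) (z : ℍ) :
    S.ht g z = S.τ g * z.im / ((z.re - S.p g) ^ 2 + z.im ^ 2) := by
  have c0 := S.c_ne hg
  have y0 := z.im_pos
  rw [SchottkyData.ht, im_eq, QQ, (inv_entries S g).2.2.1, (inv_entries S g).2.2.2,
    show (-S.M g 1 0 * z.re + S.M g 0 0) ^ 2 + (-S.M g 1 0 * z.im) ^ 2 =
      S.M g 1 0 ^ 2 * ((z.re - S.p g) ^ 2 + z.im ^ 2) by
      rw [SchottkyData.p]; field_simp; ring, SchottkyData.τ]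
  field_simp

theorem SchottkyData.ht_one (z : ℍ) : S.ht 1 z = z.im := by simp [SchottkyData.ht]

theorem SchottkyData.ht_pos (g : FreeGroup α) (z : ℍ) : 0 < S.ht g z := UpperHalfPlane.im_pos _

theorem SchottkyData.ht_smul (g h : FreeGroup α) (z : ℍ) :
    S.ht g (S.M h • z) = S.ht (h⁻¹ * g) z := by
  simp [SchottkyData.ht, mul_smul]

theorem kd_den (z : ℍ) (ξ : ℝ) : conj (z : ℂ) - ξ ≠ 0 := fun e => by
  simpa [z.im_pos.ne'] using congrArg Complex.im e

theorem SchottkyData.dir_eq {g : FreeGroup α} (hg : g ≠ 1) (z : ℍ) :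
    S.dir z g = kd z (S.p g) := by
  have c0 : (S.M g 1 0 : ℂ) ≠ 0 := Complex.ofReal_ne_zero.2 (S.c_ne hg)
  have e : ∀ w : ℂ, S.M g 1 0 * w - S.M g 0 0 = S.M g 1 0 * (w - S.p g) := fun w => by
    rw [SchottkyData.p]; push_cast; field_simp
  rw [SchottkyData.dir, kd, e, e, mul_left_comm, mul_div_mul_left _ _ c0]

theorem SchottkyData.dir_one (z : ℍ) : S.dir z 1 = Complex.I := by simp [SchottkyData.dir]

theorem kd_norm (z : ℍ) (ξ : ℝ) : ‖kd z ξ‖ = 1 := by
  have e : ‖conj (z : ℂ) - ξ‖ = ‖(z : ℂ) - ξ‖ := by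
    rw [← Complex.norm_conj, map_sub, Complex.conj_conj, Complex.conj_ofReal]
  rw [kd, norm_div, norm_mul, Complex.norm_I, one_mul, ← e, div_self (norm_ne_zero_iff.2 (kd_den z ξ))]

theorem kd_sub (z : ℍ) (ξ ξ' : ℝ) : kd z ξ - kd z ξ' =
    -(2 * z.im * (ξ - ξ') : ℝ) / ((conj (z : ℂ) - ξ) * (conj (z : ℂ) - ξ')) := by
  have h1 := kd_den z ξ
  have h2 := kd_den z ξ'
  have h3 := Complex.sub_conj (z : ℂ)
  rw [kd, kd]
  field_simp
  push_cast at h3 ⊢
  simp only [UpperHalfPlane.coe_im] at h3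
  linear_combination Complex.I * (ξ - ξ') * h3 + 2 * z.im * (ξ - ξ') * Complex.I_mul_I

theorem kd_inj (z : ℍ) : Function.Injective (kd z) := fun ξ ξ' e => by
  have := kd_sub z ξ ξ'
  rw [e, sub_self, eq_comm, div_eq_zero_iff] at this
  rcases this with h | h
  · have : 2 * z.im * (ξ - ξ') = 0 := by exact_mod_cast neg_eq_zero.1 h
    exact sub_eq_zero.1 ((mul_eq_zero.1 this).resolve_left (by have := z.im_pos; positivity))
  · exact absurd h (mul_ne_zero (kd_den z ξ) (kd_den z ξ'))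

theorem kd_lip (z : ℍ) (ξ ξ' : ℝ) : ‖kd z ξ - kd z ξ'‖ ≤ 2 / z.im * |ξ - ξ'| := by
  have y0 := z.im_pos
  have h : ∀ x : ℝ, z.im ≤ ‖conj (z : ℂ) - x‖ := fun x => by
    simpa [abs_of_pos y0] using Complex.abs_im_le_norm (conj (z : ℂ) - x)
  rw [kd_sub, norm_div, norm_neg, Complex.norm_real, norm_mul, norm_mul, norm_mul, Real.norm_eq_abs,
    Real.norm_eq_abs, Real.norm_eq_abs, abs_of_pos y0, abs_two]
  calc _ ≤ 2 * z.im * |ξ - ξ'| / (z.im * z.im) := by gcongr <;> exact h _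
    _ = _ := by field_simp

theorem SchottkyData.dir_norm (z : ℍ) (g : FreeGroup α) : ‖S.dir z g‖ = 1 := by
  by_cases hg : g = 1
  · rw [hg, S.dir_one, Complex.norm_I]
  · rw [S.dir_eq hg, kd_norm]

theorem SchottkyData.ht_le {g : FreeGroup α} (hg : g ≠ 1) (z : ℍ) : S.ht g z ≤ S.τ g / z.im := by
  have y0 := z.im_pos
  rw [S.ht_eq hg, div_le_div_iff₀ (by positivity) y0]
  nlinarith [mul_nonneg (S.τ_pos hg).le (sq_nonneg (z.re - S.p g))]

theorem SchottkyData.amp_sq_summable (z : ℍ) : Summable fun g => S.amp z g ^ 2 := by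
  refine (S.τ_summable.div_const z.im).of_norm_bounded_eventually ?_
  filter_upwards [(Set.finite_singleton 1).compl_mem_cofinite] with g hg
  rw [SchottkyData.amp, sq_sqrt (S.ht_pos g z).le, Real.norm_of_nonneg (S.ht_pos g z).le]
  exact S.ht_le hg z

theorem SchottkyData.equiv : ∃ e : FreeGroup α ≃ S.group, ∀ g, (e g : SL(2, ℝ)) = S.M g :=
  ⟨((MonoidHom.ofInjective S.M_inj).trans
    (MulEquiv.subgroupCongr FreeGroup.range_lift_eq_closure)).toEquiv, fun _ => rfl⟩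

end Pool.Agent.Lib.MP_e1e19a_an
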