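import Pool.Agent.Lib.MP_e1e19a_an.N.S1

/-!
The partition of the words by size, porosity of the poles.
-/

namespace Pool.Agent.Lib.MP_e1e19a_an

open Real MeasureTheory Set
open scoped MatrixGroups ComplexConjugate UpperHalfPlane

set_option linter.unusedSectionVars false

variable {α : Type} [Fintype α] [DecidableEq α] [Inhabited α] (S : SchottkyData α)

namespace S2

/-- the first `n` letters -/
def pre (g : FreeGroup α) (n : ℕ) : FreeGroup α := .mk (g.toWord.take n)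

/-- the other letters -/
def suf (g : FreeGroup α) (n : ℕ) : FreeGroup α := .mk (g.toWord.drop n)

theorem pre_word (g : FreeGroup α) (n : ℕ) : (pre g n).toWord = g.toWord.take n := by
  rw [pre, FreeGroup.toWord_mk]
  exact FreeGroup.IsReduced.reduce_eq (List.IsChain.take FreeGroup.isReduced_toWord n)

theorem suf_word (g : FreeGroup α) (n : ℕ) : (suf g n).toWord = g.toWord.drop n := by
  rw [suf, FreeGroup.toWord_mk]
  exact FreeGroup.IsReduced.reduce_eq (List.IsChain.drop FreeGroup.isReduced_toWord n)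

theorem pre_suf (g : FreeGroup α) (n : ℕ) : pre g n * suf g n = g := by
  rw [pre, suf, FreeGroup.mul_mk, List.take_append_drop, FreeGroup.mk_toWord]

theorem pre_norm {g : FreeGroup α} {n : ℕ} (h : n ≤ g.norm) : (pre g n).norm = n := by
  rw [FreeGroup.norm, pre_word, List.length_take]
  exact min_eq_left h

theorem suf_norm (g : FreeGroup α) (n : ℕ) : (suf g n).norm = g.norm - n := by
  rw [FreeGroup.norm, suf_word, List.length_drop]; rfl

theorem pre_pre (g : FreeGroup α) {m n : ℕ} (h : m ≤ n) : pre (pre g n) m = pre g m := by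
  rw [pre, pre_word, List.take_take, min_eq_left h]; rfl

theorem split {g : FreeGroup α} {n : ℕ} (h0 : 0 < n) (h : n < g.norm) :
    pre g n ≠ 1 ∧ suf g n ≠ 1 ∧ hd (suf g n) ≠ hd (pre g n)⁻¹ := by
  have h1 : pre g n ≠ 1 := fun e => by
    have := pre_norm h.le
    rw [e, FreeGroup.norm_one] at this
    omega
  have h2 : suf g n ≠ 1 := fun e => by
    have := suf_norm g n
    rw [e, FreeGroup.norm_one] at this
    omega
  refine ⟨h1, h2, fun e => ?_⟩
  have hr : FreeGroup.IsReduced ((pre g n).toWord ++ (suf g n).toWord) := by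
    rw [pre_word, suf_word, List.take_append_drop]
    exact FreeGroup.isReduced_toWord
  obtain ⟨b, L, eb⟩ := List.exists_cons_of_ne_nil (S1.word_ne h2)
  have := (List.isChain_append.1 hr).2.2 _ (List.getLast_mem_getLast? (S1.word_ne h1)) b
    (by simp [eb])
  rw [S1.hd_inv h1, hd, eb] at e
  have e0 : b = _ := e
  have := this (by rw [e0])
  rw [e0] at this
  simp at this

theorem pre_mul {w h : FreeGroup α} (hw : w ≠ 1) (hh : h ≠ 1) (e : hd h ≠ hd w⁻¹) :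
    pre (w * h) w.norm = w ∧ 0 < w.norm ∧ w.norm < (w * h).norm ∧ h.norm < (w * h).norm := by
  obtain ⟨h1, -, -, -, h2⟩ := compat hw hh e
  have a1 : w.norm ≠ 0 := fun e => hw (FreeGroup.norm_eq_zero.1 e)
  have a2 : h.norm ≠ 0 := fun e => hh (FreeGroup.norm_eq_zero.1 e)
  refine ⟨?_, by omega, by omega, by omega⟩
  rw [pre, h1, FreeGroup.norm, List.take_left', FreeGroup.mk_toWord]
  rfl

theorem letters : ∃ m > 0, ∀ g : FreeGroup α, g.norm = 1 → m ≤ S.τ g := by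
  obtain ⟨j, -, hj⟩ := Set.exists_min_image (univ : Set (α × Bool)) (fun j => S.τ (.mk [j]))
    (Set.toFinite _) ⟨default, trivial⟩
  refine ⟨_, S.τ_pos (g := .mk [j]) fun e => ?_, fun g hg => ?_⟩
  · have := congrArg FreeGroup.toWord e
    simp at this
  · obtain ⟨i, hi⟩ := List.length_eq_one_iff.1 hg
    rw [← g.mk_toWord, hi]
    exact hj i trivial

theorem fin {t : ℝ} (ht : 0 < t) : {g | t ≤ S.τ g}.Finite := by
  have := S.τ_summable.tendsto_cofinite_zero.eventually (gt_mem_nhds ht)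
  simpa using this

theorem mem_step {Z T : Finset (FreeGroup α)} {g : FreeGroup α} :
    g ∈ step Z T ↔ ∃ w ∈ Z, ∃ b ∈ T, hd b ≠ hd w⁻¹ ∧ w * b = g := by
  simp only [step, Finset.mem_image, Finset.mem_filter, Finset.mem_product, Prod.exists]
  constructor
  · rintro ⟨w, b, ⟨⟨h1, h2⟩, h3⟩, h4⟩
    exact ⟨w, h1, b, h2, h3, h4⟩
  · rintro ⟨w, h1, b, h2, h3, h4⟩
    exact ⟨w, b, ⟨⟨h1, h2⟩, h3⟩, h4⟩

theorem blocks_succ (Z T : Finset (FreeGroup α)) (n : ℕ) :
    blocks Z T (n + 1) = step Z (blocks Z T n) := Function.iterate_succ_apply' _ _ _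

end S2

open S2

theorem SchottkyData.part : ∃ c₀ ∈ Ioc (0 : ℝ) 1, ∃ Z Sf : ℝ → Finset (FreeGroup α),
    (∀ t ∈ Ioc (0 : ℝ) 1, S.Part c₀ t (Z t) (Sf t)) ∧
      ∀ g, g ≠ 1 → ∃ t₀ > 0, ∀ t ∈ Ioc 0 t₀, g ∈ Sf t := by
  classical
  obtain ⟨-, -, B, B1, -, -, b1, -⟩ := S.geo
  obtain ⟨m, m0, hm⟩ := letters S
  let P : ℝ → FreeGroup α → Prop := fun t g => g ≠ 1 ∧ ∀ n, 0 < n → n < g.norm → t < S.τ (pre g n)
  have c0 : 0 < min 1 (m / (4 * B ^ 2)) := by positivity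
  have low : ∀ t ∈ Ioc (0 : ℝ) 1, ∀ g, P t g → min 1 (m / (4 * B ^ 2)) * t ≤ S.τ g := by
    rintro t ⟨t0, t1⟩ g ⟨g1, hg⟩
    refine (mul_le_mul_of_nonneg_right (min_le_right _ _) t0.le).trans ?_
    rw [div_mul_eq_mul_div, div_le_iff₀ (by positivity)]
    have a1 : g.norm ≠ 0 := fun e => g1 (FreeGroup.norm_eq_zero.1 e)
    by_cases h : g.norm = 1
    · have := hm g h
      nlinarith [mul_le_mul_of_nonneg_left t1 m0.le, mul_nonneg (m0.le.trans this)
        (show 0 ≤ 4 * B ^ 2 - 1 by nlinarith)]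
    · obtain ⟨s1, s2, s3⟩ := split (g := g) (n := g.norm - 1) (by omega) (by omega)
      have a2 := hg (g.norm - 1) (by omega) (by omega)
      have a3 := hm (suf g (g.norm - 1)) (by rw [suf_norm]; omega)
      obtain ⟨f1, -, f2⟩ := S.mul_formula s1 s2 (by rwa [pre_suf])
      rw [pre_suf] at f2
      have a4 := abs_le.1 (b1 _ s2)
      have a5 := abs_le.1 (b1 _ (inv_ne_one.2 s1))
      have a6 := sq_pos_of_ne_zero (sub_ne_zero.2 f1)
      rw [eq_div_iff a6.ne'] at f2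
      calc m * t ≤ S.τ (suf g (g.norm - 1)) * S.τ (pre g (g.norm - 1)) := by gcongr; linarith
        _ = _ := by rw [mul_comm, ← f2]
        _ ≤ _ := mul_le_mul_of_nonneg_left (by nlinarith) (S.τ_pos g1).le
  have hf : ∀ t, {g | 0 < t ∧ P t g}.Finite := fun t => by
    by_cases ht : 0 < t
    · refine (fin S (mul_pos c0 (lt_min ht one_pos))).subset ?_
      rintro g ⟨-, h1, h2⟩
      exact low _ ⟨lt_min ht one_pos, min_le_right _ _⟩ g
        ⟨h1, fun n a b => (min_le_left _ _).trans_lt (h2 n a b)⟩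
    · simp [ht]
  have mem : ∀ {t g}, 0 < t → (g ∈ (hf t).toFinset ↔ P t g) := fun ht => by simp [ht]
  refine ⟨_, ⟨c0, min_le_left _ _⟩, fun t => (hf t).toFinset.filter fun g => S.τ g ≤ t,
    fun t => (hf t).toFinset, fun t ht => ⟨Finset.filter_subset _ _, fun b hb => ((mem ht.1).1 hb).1,
      fun b hb => low t ht b ((mem ht.1).1 hb), fun w hw => (Finset.mem_filter.1 hw).2,
      fun b h1 h2 => Finset.mem_filter.2 ⟨h1, h2⟩, fun g g1 hg => ?_,
      fun w hw w' hw' h h' h1 h2 h3 h4 e => ?_, fun w hw h h1 h2 hb => ?_⟩, fun g g1 => ?_⟩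
  · have ex : ∃ n, 0 < n ∧ n < g.norm ∧ S.τ (pre g n) ≤ t := by
      by_contra H
      push Not at H
      exact hg ((mem ht.1).2 ⟨g1, H⟩)
    obtain ⟨n0, n1, n2⟩ := Nat.find_spec ex
    obtain ⟨s1, s2, s3⟩ := split n0 n1
    refine ⟨_, Finset.mem_filter.2 ⟨(mem ht.1).2 ⟨s1, fun k k0 k1 => ?_⟩, n2⟩, _, s2, s3,
      (pre_suf _ _).symm⟩
    rw [pre_norm n1.le] at k1
    rw [pre_pre _ k1.le]
    exact not_le.1 fun h => Nat.find_min ex k1 ⟨k0, k1.trans n1, h⟩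
  · rw [Finset.mem_filter, mem ht.1] at hw hw'
    obtain ⟨a1, a2, -⟩ := pre_mul hw.1.1 h1 h3
    obtain ⟨a3, a4, -⟩ := pre_mul hw'.1.1 h2 h4
    rcases lt_trichotomy w.norm w'.norm with l | l | l
    · have := hw'.1.2 _ a2 l
      rw [← a3, pre_pre _ l.le, ← e, a1] at this
      exact absurd hw.2 (not_le.2 this)
    · rw [← a1, e, l, a3]
    · have := hw.1.2 _ a4 l
      rw [← a1, pre_pre _ l.le, e, a3] at this
      exact absurd hw'.2 (not_le.2 this)
  · rw [Finset.mem_filter, mem ht.1] at hw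
    obtain ⟨a1, a2, a3, -⟩ := pre_mul hw.1.1 h1 h2
    have := ((mem ht.1).1 hb).2 _ a2 a3
    rw [a1] at this
    exact absurd hw.2 (not_le.2 this)
  · have : ∀ᶠ t in nhds (0 : ℝ), ∀ n ∈ Finset.Ioo 0 g.norm, t < S.τ (pre g n) :=
      (Filter.eventually_all_finset _).2 fun n hn => gt_mem_nhds (S.τ_pos
        (split (Finset.mem_Ioo.1 hn).1 (Finset.mem_Ioo.1 hn).2).1)
    obtain ⟨ε, ε0, h⟩ := Metric.eventually_nhds_iff.1 this
    refine ⟨ε / 2, by positivity, fun t ht => (mem ht.1).2 ⟨g1, fun n a b => h ?_ n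
      (Finset.mem_Ioo.2 ⟨a, b⟩)⟩⟩
    rw [Real.dist_eq, sub_zero, abs_of_pos ht.1]
    linarith [ht.2]

theorem SchottkyData.Part.near {S : SchottkyData α} {c₀ t γ : ℝ} {Z Sf : Finset (FreeGroup α)}
    (h : S.Part c₀ t Z Sf) (γ0 : 0 < γ)
    (hγ : ∀ i j, i ≠ j → ∀ x y, |x - S.c i| ≤ S.ρ i → |y - S.c j| ≤ S.ρ j → γ ≤ |x - y|)
    {v : FreeGroup α} (hv : v ≠ 1) (h1 : S.τ v ≤ t) : ∃ u ∈ Z, |S.p u - S.p v| ≤ t / γ := by
  have t0 := (S.τ_pos hv).le.trans h1
  by_cases e : v ∈ Sf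
  · exact ⟨v, h.mem v e h1, by simp; positivity⟩
  obtain ⟨w, hw, g, g1, g2, rfl⟩ := h.dec v hv e
  have w1 := h.ne w (h.sub hw)
  refine ⟨w, hw, ?_⟩
  rw [(S.mul_formula w1 g1 hv).2.1, sub_sub_cancel, abs_div, abs_of_pos (S.τ_pos w1)]
  exact div_le_div₀ t0 (h.up w hw) γ0 (hγ _ _ g2 _ _ (S.p_mem g1) (S.p_mem (inv_ne_one.2 w1)))

theorem SchottkyData.porous : ∃ ν > 0, ∃ Cp > 0, ∀ t > 0,
    Porous {x | ∃ g, g ≠ 1 ∧ S.τ g ≤ t ∧ x = S.p g} ν (Cp * t) 1 := by
  obtain ⟨γ, ⟨γ0, γ1⟩, B, B1, hγ, -, -, -, sep⟩ := S.geo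
  obtain ⟨c₀, ⟨c0, c1⟩, Z, Sf, hP, -⟩ := S.part
  obtain ⟨ν, hν⟩ : ∃ ν, ν * B = c₀ * γ / 36 := ⟨c₀ * γ / 36 / B, by field_simp⟩
  have ν0 : 0 < ν := (mul_pos_iff_of_pos_right (show 0 < B by linarith)).1 (hν ▸ by positivity)
  have ν1 : ν ≤ 1 / 36 := by nlinarith [mul_le_one₀ c1 γ0.le γ1]
  refine ⟨ν, ν0, 6 / γ, by positivity, fun t t0 x l l0 l1 => ?_⟩
  rw [div_mul_eq_mul_div, div_le_iff₀ γ0] at l0
  have l2 : 0 < l := (mul_pos_iff_of_pos_right γ0).1 (by linarith)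
  by_cases H : ∃ v, v ≠ 1 ∧ S.τ v ≤ t ∧ S.p v ∈ Icc (x + l / 3) (x + 2 * l / 3)
  · obtain ⟨v, v1, v2, v3, v4⟩ := H
    have P := hP (l * γ / 6) ⟨by positivity, by nlinarith⟩
    obtain ⟨u, hu, h⟩ := P.near γ0 hγ v1 (by linarith)
    rw [show l * γ / 6 / γ = l / 6 by field_simp, abs_le] at h
    have u1 := P.ne u (P.sub hu)
    have u2 := P.low u (P.sub hu)
    have a := mul_pos ν0 l2
    refine ⟨S.p u + ν * l, by linarith, by nlinarith, ?_⟩
    rintro _ ⟨g, g1, -, rfl⟩ ⟨g2, g3⟩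
    have := sep u g u1 g1 (by rintro rfl; linarith)
    rw [abs_sub_comm, abs_of_nonneg (by linarith)] at this
    have e : c₀ * (l * γ / 6) = 6 * (ν * B * l) := by rw [hν]; ring
    nlinarith [mul_pos a (show 0 < B by linarith)]
  · refine ⟨x + l / 3, by linarith, by nlinarith, ?_⟩
    rintro _ ⟨g, g1, g2, rfl⟩ ⟨g3, g4⟩
    exact H ⟨g, g1, g2, g3, by nlinarith⟩

theorem SchottkyData.blocks_ne {c₀ t : ℝ} {Z Sf : Finset (FreeGroup α)} (h : S.Part c₀ t Z Sf)
    (n : ℕ) : ∀ g ∈ blocks Z Sf n, g ≠ 1 := by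
  induction n with
  | zero => exact h.ne
  | succ n ih =>
    intro g hg
    obtain ⟨w, hw, b, hb, e, rfl⟩ := mem_step.1 (blocks_succ Z Sf n ▸ hg)
    exact (compat (h.ne w (h.sub hw)) (ih b hb) e).2.1

theorem SchottkyData.blocks_unique {c₀ t : ℝ} {Z Sf : Finset (FreeGroup α)}
    (h : S.Part c₀ t Z Sf) {g : FreeGroup α} (hg : g ≠ 1) : ∃! n, g ∈ blocks Z Sf n := by
  induction hn : g.norm using Nat.strong_induction_on generalizing g with
  | _ N ih =>
  by_cases e : g ∈ Sf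
  · refine ⟨0, e, fun m hm => ?_⟩
    cases m with
    | zero => rfl
    | succ m =>
      obtain ⟨w, hw, b, hb, e', rfl⟩ := mem_step.1 (blocks_succ Z Sf m ▸ hm)
      exact absurd e (h.notin w hw b (S.blocks_ne h m b hb) e')
  · obtain ⟨w, hw, b, b1, b2, rfl⟩ := h.dec g hg e
    obtain ⟨n, n1, n2⟩ := ih _ (hn ▸ (pre_mul (h.ne w (h.sub hw)) b1 b2).2.2.2) b1 rfl
    refine ⟨n + 1, (blocks_succ Z Sf n).ge (mem_step.2 ⟨w, hw, b, n1, b2, rfl⟩), fun m hm => ?_⟩
    cases m with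
    | zero => exact absurd hm e
    | succ m =>
      obtain ⟨w', hw', b', hb, e', e2⟩ := mem_step.1 (blocks_succ Z Sf m ▸ hm)
      obtain rfl := h.uniq w' hw' w hw b' b (S.blocks_ne h m b' hb) b1 e' b2 e2
      obtain rfl := mul_left_cancel e2
      rw [n2 m hb]

theorem SchottkyData.ev_step {c₀ t : ℝ} {Z Sf : Finset (FreeGroup α)} (h : S.Part c₀ t Z Sf)
    {T : Finset (FreeGroup α)} (hT : ∀ b ∈ T, b ≠ 1) (s : ℂ) (u : α × Bool → ℂ → ℂ) :
    S.ev (step Z T) s u = S.ev T s (S.L Z s u) := by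
  rw [SchottkyData.ev, step, Finset.sum_image, Finset.sum_filter, Finset.sum_product_right,
    SchottkyData.ev]
  · refine Finset.sum_congr rfl fun b hb => ?_
    rw [SchottkyData.L, Finset.mul_sum, Finset.sum_filter]
    refine Finset.sum_congr rfl fun w hw => ?_
    by_cases e : hd b = hd w⁻¹
    · simp [e]
    have w1 := h.ne w (h.sub hw)
    obtain ⟨-, c1, c2, -⟩ := compat w1 (hT b hb) e
    obtain ⟨f1, f2, f3⟩ := S.mul_formula w1 (hT b hb) c1
    have a := sq_pos_of_ne_zero (sub_ne_zero.2 f1)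
    rw [if_pos e, if_pos (Ne.symm e), c2, f2, f3, log_div (mul_pos (S.τ_pos w1)
      (S.τ_pos (hT b hb))).ne' a.ne', log_mul (S.τ_pos w1).ne' (S.τ_pos (hT b hb)).ne', ek,
      ← Complex.ofReal_sub (S.p b), ← Complex.ofReal_pow, ← Complex.ofReal_log a.le, ← mul_assoc,
      ← mul_assoc, ← Complex.exp_add, ← Complex.exp_add]
    push_cast
    congr 2
    ring
  · rintro ⟨w, b⟩ h1 ⟨w', b'⟩ h2 e
    simp only [Finset.coe_filter, Finset.mem_product, mem_ofPred_eq] at h1 h2 e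
    obtain rfl := h.uniq w h1.1.1 w' h2.1.1 b b' (hT b h1.1.2) (hT b' h2.1.2) h1.2 h2.2 e
    rw [mul_left_cancel e]

theorem SchottkyData.ev_blocks {c₀ t : ℝ} {Z Sf : Finset (FreeGroup α)} (h : S.Part c₀ t Z Sf)
    (n : ℕ) (s : ℂ) (u : α × Bool → ℂ → ℂ) :
    S.ev (blocks Z Sf n) s u = S.ev Sf s ((S.L Z s)^[n] u) := by
  induction n generalizing u with
  | zero => rfl
  | succ n ih => rw [blocks_succ, S.ev_step h (S.blocks_ne h n), ih, Function.iterate_succ_apply]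

theorem SchottkyData.blk_eq {W : Finset (FreeGroup α)} (hW : ∀ g ∈ W, g ≠ 1) (s : ℂ) (z : ℍ) :
    S.blk W s z = ((z.im : ℝ) : ℂ) ^ s * S.ev W s fun _ => fk s z (conj (z : ℂ)) := by
  rw [SchottkyData.blk, SchottkyData.ev, Finset.mul_sum]
  refine Finset.sum_congr rfl fun g hg => ?_
  have y0 := z.im_pos
  have t0 := S.τ_pos (hW g hg)
  have e1 : Complex.log (z - S.p g) + Complex.log (conj (z : ℂ) - S.p g) =
      (log ((z.re - S.p g) ^ 2 + z.im ^ 2) : ℝ) := by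
    rw [show conj (z : ℂ) - S.p g = conj ((z : ℂ) - S.p g) by simp, Complex.log_conj _ fun e => by
      simpa [y0.ne'] using (Complex.arg_eq_pi_iff.1 e).2, Complex.add_conj, Complex.log_re]
    congr 1
    rw [show (2 : ℝ) = (2 : ℕ) by norm_num, ← log_pow, Complex.sq_norm, Complex.normSq_apply]
    simp [sq]
  rw [fk, e1, Complex.cpow_def_of_ne_zero (by simpa using (S.ht_pos g z).ne'),
    Complex.cpow_def_of_ne_zero (by simpa using y0.ne'), ← Complex.ofReal_log (S.ht_pos g z).le,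
    ← Complex.ofReal_log y0.le, S.ht_eq (hW g hg), log_div (by positivity) (by positivity),
    log_mul t0.ne' y0.ne', ← Complex.exp_add, ← Complex.exp_add]
  push_cast
  congr 1
  ring

end Pool.Agent.Lib.MP_e1e19a_an
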