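import Pool.Agent.Lib.MP_e1e19a_an.N.S2
import Pool.Agent.Lib.MP_e1e19a_an.H26Core

/-!
The limit points, and waves near every limit direction.
-/

namespace Pool.Agent.Lib.MP_e1e19a_an

open Real MeasureTheory Set
open scoped MatrixGroups ComplexConjugate UpperHalfPlane

set_option linter.unusedSectionVars false

variable {α : Type} [Fintype α] [DecidableEq α] [Inhabited α] (S : SchottkyData α)

namespace S3

theorem smul_eq {g : FreeGroup α} (hg : g ≠ 1) (z : ℍ) :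
    ((S.M g • z : ℍ) : ℂ) = S.p g - S.τ g / (z - S.p g⁻¹) := by
  have c0 : (S.M g 1 0 : ℂ) ≠ 0 := Complex.ofReal_ne_zero.2 (S.c_ne hg)
  have h0 : (z : ℂ) - S.p g⁻¹ ≠ 0 := fun e => by
    simpa [z.im_pos.ne'] using congrArg Complex.im e
  have e : (S.M g 1 0 * z + S.M g 1 1 : ℂ) = S.M g 1 0 * (z - S.p g⁻¹) := by
    rw [SchottkyData.p, (S1.inv_entries S g).1, (S1.inv_entries S g).2.2.1]
    push_cast
    field_simp
    ring
  have d : (S.M g 0 0 * S.M g 1 1 - S.M g 0 1 * S.M g 1 0 : ℂ) = 1 := by exact_mod_cast det2 (S.M g)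
  refine mul_right_cancel₀ (mul_ne_zero c0 h0) ?_
  rw [← e, coe_smul_mul, e, SchottkyData.τ, SchottkyData.p]
  push_cast
  field_simp
  linear_combination S.M g 0 0 * e - d

/-- the word with one letter -/
def lt (j : α × Bool) : FreeGroup α := .mk [j]

theorem lt_word (j : α × Bool) : (lt j).toWord = [j] := by simp [lt]

theorem lt_ne (j : α × Bool) : lt j ≠ 1 := fun e => by
  simpa [lt_word] using congrArg FreeGroup.toWord e

theorem lt_hd (j : α × Bool) : hd (lt j) = j := by simp [hd, lt_word]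

theorem lt_hd_inv (j : α × Bool) : hd (lt j)⁻¹ = (j.1, !j.2) := by
  simp [hd, FreeGroup.toWord_inv, lt_word, FreeGroup.invRev]

theorem lt_norm (j : α × Bool) : (lt j).norm = 1 := by simp [FreeGroup.norm, lt_word]

theorem bar_ne (j : α × Bool) : (j.1, !j.2) ≠ j := fun e => by simpa using congrArg Prod.snd e

theorem par_lt (u : FreeGroup α) (j : α × Bool) : par (u * lt j) = !par u := by
  have e : FreeGroup.lift (fun _ : α => (-1 : ℤˣ)) (lt j) = -1 := by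
    obtain ⟨i, _ | _⟩ := j <;> simp [lt, FreeGroup.lift_mk]
  unfold par
  rw [map_mul, e]
  rcases Int.units_eq_one_or (FreeGroup.lift (fun _ : α => (-1 : ℤˣ)) u) with h | h <;>
    simp [h]

theorem bounds : ∃ c > 0, ∃ C ≥ (1 : ℝ), ∀ w h, w ≠ 1 → h ≠ 1 → hd h ≠ hd w⁻¹ →
    c * (S.τ w * S.τ h) ≤ S.τ (w * h) ∧ S.τ (w * h) ≤ C * S.τ w ∧
      |S.p (w * h) - S.p w| ≤ C * S.τ w := by
  obtain ⟨γ, ⟨γ0, γ1⟩, B, B1, hγ, -, b1, b2, -⟩ := S.geo
  have a0 : 1 ≤ 4 * B ^ 2 / γ ^ 2 := by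
    rw [le_div_iff₀ (by positivity)]; nlinarith
  refine ⟨(4 * B ^ 2)⁻¹, by positivity, 4 * B ^ 2 / γ ^ 2, a0, fun w h hw hh e => ?_⟩
  obtain ⟨-, f2, f3⟩ := S.mul_formula hw hh (compat hw hh e).2.1
  have a1 := hγ _ _ e _ _ (S.p_mem hh) (S.p_mem (inv_ne_one.2 hw))
  have a2 : |S.p h - S.p w⁻¹| ≤ 2 * B := by
    linarith [abs_sub (S.p h) (S.p w⁻¹), b1 _ hh, b1 _ (inv_ne_one.2 hw)]
  have t1 := S.τ_pos hw
  have t2 := S.τ_pos hh
  have a3 := γ0.trans_le a1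
  refine ⟨?_, ?_, ?_⟩
  · rw [f3, ← sq_abs (S.p h - _), inv_mul_eq_div]
    gcongr
    nlinarith [abs_nonneg (S.p h - S.p w⁻¹)]
  · rw [f3, ← sq_abs (S.p h - _), div_mul_eq_mul_div, mul_comm]
    gcongr
    exact b2 h
  · rw [f2, sub_sub_cancel_left, abs_neg, abs_div, abs_of_pos t1, div_mul_eq_mul_div,
      div_le_div_iff₀ a3 (by positivity)]
    nlinarith [mul_le_mul a1 (show γ ≤ 4 * B ^ 2 by nlinarith) γ0.le a3.le]

theorem amp_bounds (z : ℍ) : ∃ c > 0, ∃ C > 0, ∀ g, g ≠ 1 →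
    c * √(S.τ g) ≤ S.amp z g ∧ S.amp z g ≤ C * √(S.τ g) := by
  obtain ⟨-, -, B, B1, -, -, b1, -⟩ := S.geo
  have y0 := z.im_pos
  refine ⟨√(z.im / ((|z.re| + B) ^ 2 + z.im ^ 2)), by positivity, √(z.im⁻¹), by positivity,
    fun g hg => ⟨?_, ?_⟩⟩
  · rw [← sqrt_mul (by positivity), SchottkyData.amp, S.ht_eq hg, div_mul_eq_mul_div, mul_comm,
      ← sq_abs (z.re - _)]
    have := S.τ_pos hg
    gcongr
    linarith [abs_sub z.re (S.p g), b1 g hg]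
  · rw [← sqrt_mul (by positivity), inv_mul_eq_div]
    exact sqrt_le_sqrt (S.ht_le hg z)

theorem exists_mem (j : α × Bool) : ∃ ξ ∈ S.Lam, |ξ - S.c j| ≤ S.ρ j := by
  let g : ℕ → FreeGroup α := fun n => .mk (List.replicate (n + 1) j)
  have w : ∀ n, (g n).toWord = List.replicate (n + 1) j := fun n => by
    simp only [g, FreeGroup.toWord_mk, FreeGroup.reduce_replicate]
  have g1 : ∀ n, g n ≠ 1 := fun n e => by simpa [w] using congrArg FreeGroup.toWord e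
  have inj : Function.Injective g := fun n m e => by
    simpa [w] using congrArg (fun x => (FreeGroup.toWord x).length) e
  have hm : ∀ n, S.p (g n) ∈ Metric.closedBall (S.c j) (S.ρ j) := fun n => by
    have := S.p_mem (g1 n)
    rwa [hd, w, List.replicate_succ] at this
  obtain ⟨ξ, h1, φ, h2, h3⟩ := (isCompact_closedBall _ _).tendsto_subseq hm
  refine ⟨ξ, fun ε ε0 => ?_, h1⟩
  have h4 := ((S.τ_summable.comp_injective inj).tendsto_atTop_zero.comp h2.tendsto_atTop).eventually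
    (ge_mem_nhds ε0)
  obtain ⟨n, a, b⟩ := (h4.and (h3.eventually (Metric.closedBall_mem_nhds ξ ε0))).exists
  exact ⟨_, g1 _, a, b⟩

end S3

open S3

theorem SchottkyData.Lam_bdd : Bornology.IsBounded S.Lam := by
  obtain ⟨-, -, B, -, -, -, b1, -⟩ := S.geo
  refine (Metric.isBounded_Icc (-(B + 1)) (B + 1)).subset fun ξ h => ?_
  obtain ⟨g, g1, -, g2⟩ := h 1 one_pos
  have a := abs_le.1 (b1 g g1)
  have b := abs_le.1 g2
  exact ⟨by linarith, by linarith⟩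

theorem SchottkyData.Lam_sub : S.Lam ⊆ limitSet S.group := fun ξ h => by
  obtain ⟨e, he⟩ := S.equiv
  refine Metric.mem_closure_iff.2 fun ε ε0 => ?_
  obtain ⟨g, g1, g2, g3⟩ := h (ε / 3) (by positivity)
  refine ⟨_, ⟨e g, rfl⟩, ?_⟩
  simp only [Subgroup.smul_def, he, smul_eq S g1]
  have a : 1 ≤ ‖((UpperHalfPlane.I : ℍ) : ℂ) - S.p g⁻¹‖ := by
    simpa using Complex.abs_im_le_norm (((UpperHalfPlane.I : ℍ) : ℂ) - S.p g⁻¹)
  have b : ‖(S.τ g : ℂ) / (((UpperHalfPlane.I : ℍ) : ℂ) - S.p g⁻¹)‖ ≤ ε / 3 := by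
    rw [norm_div, Complex.norm_real, Real.norm_of_nonneg (S.τ_pos g1).le]
    exact (div_le_self (S.τ_pos g1).le a).trans g2
  have c : ‖(ξ : ℂ) - S.p g‖ ≤ ε / 3 := by
    rwa [← Complex.ofReal_sub, Complex.norm_real, Real.norm_eq_abs, abs_sub_comm]
  rw [dist_eq_norm, ← sub_add]
  linarith [norm_add_le ((ξ : ℂ) - S.p g) (S.τ g / (((UpperHalfPlane.I : ℍ) : ℂ) - S.p g⁻¹))]

theorem SchottkyData.Lam_smul {ξ : ℝ} (hξ : ξ ∈ S.Lam) {g : FreeGroup α} (hg : g ≠ 1) :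
    ξ ≠ S.p g⁻¹ ∧ S.p g - S.τ g / (ξ - S.p g⁻¹) ∈ S.Lam := by
  obtain ⟨-, -, B, B1, -, -, -, -, sep⟩ := S.geo
  have t0 := S.τ_pos hg
  obtain ⟨m, hm⟩ : ∃ m, m = S.τ g / (2 * B) := ⟨_, rfl⟩
  have m0 : 0 < m := hm ▸ by positivity
  have key : ∀ v, v ≠ 1 → S.τ v ≤ S.τ g / 2 → g * v ≠ 1 ∧ m ≤ |S.p v - S.p g⁻¹| := fun v v1 h => by
    have a : g⁻¹ ≠ v := by
      rintro rfl
      rw [S.τ_inv] at h
      linarith
    refine ⟨fun e => a (inv_eq_of_mul_eq_one_right e), ?_⟩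
    rw [hm, div_le_iff₀' (by positivity), abs_sub_comm, ← S.τ_inv]
    exact sep _ _ (inv_ne_one.2 hg) v1 a
  have far : m ≤ |ξ - S.p g⁻¹| := le_of_forall_pos_le_add fun ε ε0 => by
    obtain ⟨v, v1, v2, v3⟩ := hξ (min ε (S.τ g / 2)) (by positivity)
    have := (key v v1 (v2.trans (min_le_right _ _))).2
    have b := abs_sub_le (S.p v) ξ (S.p g⁻¹)
    linarith [min_le_left ε (S.τ g / 2)]
  have x0 : ξ - S.p g⁻¹ ≠ 0 := abs_pos.1 (m0.trans_le far)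
  refine ⟨sub_ne_zero.1 x0, fun ε ε0 => ?_⟩
  obtain ⟨v, v1, v2, v3⟩ := hξ (min (ε * m ^ 2 / S.τ g) (S.τ g / 2)) (by positivity)
  obtain ⟨k1, k2⟩ := key v v1 (v2.trans (min_le_right _ _))
  obtain ⟨f1, f2, f3⟩ := S.mul_formula hg v1 k1
  have y0 := sub_ne_zero.2 f1
  replace v2 := (le_div_iff₀ t0).1 (v2.trans (min_le_left _ _))
  replace v3 := (le_div_iff₀ t0).1 (v3.trans (min_le_left _ _))
  refine ⟨_, k1, ?_, ?_⟩
  · rw [f3, ← sq_abs, div_le_iff₀ (by positivity), mul_comm]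
    refine v2.trans ?_
    gcongr
  · rw [f2, show S.p g - S.τ g / (S.p v - S.p g⁻¹) - (S.p g - S.τ g / (ξ - S.p g⁻¹)) =
      (S.p v - ξ) * S.τ g / ((S.p v - S.p g⁻¹) * (ξ - S.p g⁻¹)) by field_simp; ring, abs_div,
      abs_mul, abs_mul, abs_of_pos t0, div_le_iff₀ (by positivity)]
    refine v3.trans ?_
    rw [sq]
    gcongr

theorem SchottkyData.Lam_near : ∃ c > 0, ∃ C > 0, ∀ t ∈ Ioc (0 : ℝ) 1, ∀ ξ ∈ S.Lam,
    ∃ u, u ≠ 1 ∧ c * t ≤ S.τ u ∧ S.τ u ≤ t ∧ |S.p u - ξ| ≤ C * t := by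
  obtain ⟨γ, ⟨γ0, -⟩, -, -, hγ, -⟩ := S.geo
  obtain ⟨c₀, ⟨c0, -⟩, Z, Sf, hP, -⟩ := S.part
  refine ⟨c₀, c0, γ⁻¹ + 1, by positivity, fun t ht ξ hξ => ?_⟩
  obtain ⟨v, v1, v2, v3⟩ := hξ t ht.1
  have P := hP t ht
  obtain ⟨u, hu, h⟩ := P.near γ0 hγ v1 v2
  refine ⟨u, P.ne u (P.sub hu), P.low u (P.sub hu), P.up u hu, (abs_sub_le _ (S.p v) _).trans ?_⟩
  rw [add_mul, inv_mul_eq_div]
  linarith

theorem SchottkyData.Lam_inf [Nontrivial α] : S.Lam.Infinite := fun hf => by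
  obtain ⟨γ, ⟨γ0, -⟩, -, -, hγ, -⟩ := S.geo
  obtain ⟨i, i', hi⟩ := exists_pair_ne α
  obtain ⟨ξ, h1, h2⟩ := exists_mem S (i', true)
  have out : ∀ j k, j ≠ k → ∀ x, |x - S.c j| ≤ S.ρ j → S.ρ k ≤ |x - S.c k| := fun j k h x hx =>
    not_lt.1 fun h' => by simpa [γ0.not_ge] using hγ j k h x x hx h'.le
  let T := {x ∈ S.Lam | S.ρ (i, false) ≤ |x - S.c (i, false)|}
  let g : FreeGroup α := lt (i, true)
  let f : ℝ → ℝ := fun x => S.p g - S.τ g / (x - S.p g⁻¹)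
  have g1 : g ≠ 1 := lt_ne _
  have pp : ∀ x ∈ T, |f x - S.c (i, true)| ≤ S.ρ (i, true) := fun x hx => by
    have := (S.pingpong g1 (x := x) (by rw [lt_hd_inv]; exact hx.2)).2
    rwa [lt_hd] at this
  have m : MapsTo f T T := fun x hx =>
    ⟨(S.Lam_smul hx.1 g1).2, out _ _ (by simp) _ (pp x hx)⟩
  have inj : InjOn f T := fun x hx y hy e => by
    have a := sub_ne_zero.2 (S.Lam_smul hx.1 g1).1
    have b := sub_ne_zero.2 (S.Lam_smul hy.1 g1).1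
    have := (div_eq_div_iff a b).1 (sub_right_injective e)
    linarith [mul_left_cancel₀ (S.τ_pos g1).ne' this]
  obtain ⟨x, hx, e⟩ := ((Finite.injOn_iff_bijOn_of_mapsTo (hf.subset (sep_subset _ _)) m).1
    inj).surjOn (show ξ ∈ T from ⟨h1, out _ _ (by simp) _ h2⟩)
  simpa [γ0.not_ge] using hγ (i, true) (i', true) (by simpa using hi) ξ ξ (e ▸ pp x hx) h2

theorem SchottkyData.dense (z : ℍ) : Dense' (S.amp z) (S.dir z) par (kd z '' S.Lam) := by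
  obtain ⟨c₁, c1, C₁, C1, near⟩ := S.Lam_near
  obtain ⟨c₂, c2, C₂, C2, bd⟩ := bounds S
  obtain ⟨c₃, c3, C₃, C3, am⟩ := amp_bounds S z
  obtain ⟨m, m0, hm⟩ := S2.letters S
  have y0 := z.im_pos
  have key : ∀ t ∈ Ioc (0 : ℝ) 1, ∀ ξ ∈ S.Lam, ∀ b, ∃ u, u ≠ 1 ∧ par u = b ∧
      min 1 (c₂ * m) * c₁ * t ≤ S.τ u ∧ S.τ u ≤ C₂ * t ∧ |S.p u - ξ| ≤ (C₁ + C₂) * t := by
    intro t ht ξ hξ b
    obtain ⟨u, u1, u2, u3, u4⟩ := near t ht ξ hξ
    have t0 := ht.1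
    have a0 := mul_pos c1 t0
    by_cases h : par u = b
    · refine ⟨u, u1, h, ?_, by nlinarith, by nlinarith⟩
      nlinarith [mul_le_mul_of_nonneg_right (min_le_left 1 (c₂ * m)) a0.le]
    · let j : α × Bool := ((hd u⁻¹).1, !(hd u⁻¹).2)
      have e : hd (lt j) ≠ hd u⁻¹ := by rw [lt_hd]; exact bar_ne _
      obtain ⟨b1, b2, b3⟩ := bd u _ u1 (lt_ne j) e
      refine ⟨u * lt j, (compat u1 (lt_ne j) e).2.1, ?_, le_trans ?_ b1, by nlinarith, ?_⟩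
      · rw [par_lt]
        revert h
        cases par u <;> cases b <;> simp
      · calc _ ≤ c₂ * m * c₁ * t := by gcongr; exact min_le_right _ _
          _ = c₂ * (c₁ * t * m) := by ring
          _ ≤ _ := by
            have := hm _ (lt_norm j)
            gcongr
            exact (S.τ_pos u1).le
      · nlinarith [abs_sub_le (S.p (u * lt j)) (S.p u) ξ]
  refine ⟨c₃ * √(min 1 (c₂ * m) * c₁), by positivity, max (C₃ * √C₂) (2 / z.im * (C₁ + C₂)),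
    lt_max_of_lt_left (by positivity), ?_⟩
  rintro t ht _ ⟨ξ, hξ, rfl⟩ b
  obtain ⟨u, u1, u2, u3, u4, u5⟩ := key t ht ξ hξ b
  have t0 := ht.1
  refine ⟨u, u2, le_trans ?_ (am u u1).1, (am u u1).2.trans ?_, ?_⟩
  · rw [mul_assoc, ← sqrt_mul (by positivity)]
    gcongr
  · refine le_trans ?_ (mul_le_mul_of_nonneg_right (le_max_left _ _) (sqrt_nonneg _))
    rw [mul_assoc, ← sqrt_mul (by positivity)]
    gcongr
  · refine le_trans ?_ (mul_le_mul_of_nonneg_right (le_max_right _ _) t0.le)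
    rw [S.dir_eq u1, mul_assoc]
    refine (kd_lip z _ _).trans ?_
    gcongr

theorem SchottkyData.div [Nontrivial α] (z : ℍ) (h : ¬Summable (S.amp z)) :
    Div (S.amp z) (S.dir z) (kd z '' S.Lam) := by
  rintro _ ⟨ξ, hξ, rfl⟩ β β0 hs
  obtain ⟨c₁, -, C₁, C1, near⟩ := S.Lam_near
  obtain ⟨c₂, c2, C₂, C2, bd⟩ := bounds S
  obtain ⟨c₃, c3, C₃, C3, am⟩ := amp_bounds S z
  obtain ⟨m, m0, hm⟩ := S2.letters S
  have y0 := z.im_pos
  obtain ⟨u, u1, -, u3, u4⟩ := near (min 1 (β * z.im / (2 * (C₁ + C₂))))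
    ⟨by positivity, min_le_left _ _⟩ ξ hξ
  have t0 := S.τ_pos u1
  have hch : ∀ j : α × Bool, ∃ e : α × Bool, e ≠ hd u⁻¹ ∧ j ≠ (e.1, !e.2) := fun j => by
    obtain ⟨i, hi⟩ := exists_ne (hd u⁻¹).1
    exact ⟨(i, j.2), fun e => hi (congrArg Prod.fst e), fun e => by simpa using congrArg Prod.snd e⟩
  choose e e1 e2 using hch
  have k1 : ∀ v, hd v ≠ hd (lt (e (hd v)))⁻¹ := fun v => lt_hd_inv (e (hd v)) ▸ e2 _
  have k2 : ∀ v, v ≠ 1 → hd (lt (e (hd v)) * v) = e (hd v) := fun v v1 => by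
    rw [(compat (lt_ne _) v1 (k1 v)).2.2.1, lt_hd]
  have k3 : ∀ v, v ≠ 1 → lt (e (hd v)) * v ≠ 1 := fun v v1 => (compat (lt_ne _) v1 (k1 v)).2.1
  have k4 : ∀ v, v ≠ 1 → u * (lt (e (hd v)) * v) ≠ 1 := fun v v1 =>
    (compat u1 (k3 v v1) ((k2 v v1).trans_ne (e1 _))).2.1
  let φ : FreeGroup α → FreeGroup α := fun v => if v = 1 then 1 else u * (lt (e (hd v)) * v)
  have inj : Function.Injective φ := fun v w H => by
    by_cases a : v = 1 <;> by_cases b : w = 1 <;> simp only [φ, a, b, if_true, if_false] at H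
    · rw [a, b]
    · exact absurd H.symm (k4 w b)
    · exact absurd H (k4 v a)
    · have H1 := mul_left_cancel H
      have H2 := congrArg hd H1
      rw [k2 v a, k2 w b] at H2
      rw [H2] at H1
      exact mul_left_cancel H1
  refine h (((hs.comp_injective inj).mul_left
    (C₃ / (c₃ * √(c₂ * (S.τ u * (c₂ * m)))))).of_norm_bounded_eventually ?_)
  filter_upwards [(Set.finite_singleton 1).compl_mem_cofinite] with v (v1 : v ≠ 1)
  obtain ⟨b1, -, b3⟩ := bd u _ u1 (k3 v v1) ((k2 v v1).trans_ne (e1 _))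
  have b4 := (bd _ v (lt_ne _) v1 (k1 v)).1
  have b5 := hm _ (lt_norm (e (hd v)))
  have t1 := S.τ_pos v1
  simp only [Function.comp, φ, if_neg v1]
  rw [if_pos, Real.norm_of_nonneg (show 0 ≤ S.amp z v from sqrt_nonneg _),
    div_mul_eq_mul_div, le_div_iff₀ (by positivity)]
  · calc _ ≤ C₃ * √(S.τ v) * (c₃ * √(c₂ * (S.τ u * (c₂ * m)))) := by gcongr; exact (am v v1).2
      _ = C₃ * (c₃ * √(c₂ * (S.τ u * (c₂ * m)) * S.τ v)) := by
        rw [sqrt_mul (by positivity) (S.τ v)]; ring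
      _ ≤ C₃ * (c₃ * √(S.τ (u * (lt (e (hd v)) * v)))) := by
        gcongr
        refine le_trans ?_ b1
        rw [mul_assoc, mul_assoc]
        gcongr
        refine le_trans ?_ b4
        rw [mul_assoc]
        gcongr
      _ ≤ _ := by gcongr; exact (am _ (k4 v v1)).1
  · rw [S.dir_eq (k4 v v1)]
    refine (kd_lip z _ _).trans ?_
    have a1 := min_le_right 1 (β * z.im / (2 * (C₁ + C₂)))
    rw [le_div_iff₀ (by positivity)] at a1
    rw [div_mul_eq_mul_div, div_le_iff₀ y0]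
    nlinarith [abs_sub_le (S.p (u * (lt (e (hd v)) * v))) (S.p u) ξ]

end Pool.Agent.Lib.MP_e1e19a_an
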