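import Pool.Agent.Lib.MP_e1e19a_an.N.S3

/-!
The lengths of a non-elementary Schottky group are not arithmetic.
-/

namespace Pool.Agent.Lib.MP_e1e19a_an

open Real MeasureTheory Set
open scoped MatrixGroups ComplexConjugate UpperHalfPlane

namespace S4

theorem log_near {z : ℝ} (hz : |z| ≤ 1 / 2) : 1 / 2 ≤ 1 + z ∧ |log (1 + z)| ≤ 2 * |z| := by
  obtain ⟨h1, h2⟩ := abs_le.1 hz
  have p : 0 < 1 + z := by linarith
  refine ⟨by linarith, abs_le.2 ⟨?_, ?_⟩⟩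
  · have h := log_le_sub_one_of_pos (inv_pos.2 p)
    rw [log_inv] at h
    have : (1 + z)⁻¹ - 1 ≤ 2 * |z| := by
      rw [inv_eq_one_div, sub_le_iff_le_add, div_le_iff₀ p]
      nlinarith [abs_nonneg z, neg_abs_le z, le_abs_self z]
    linarith
  · have h := log_le_sub_one_of_pos p
    linarith [le_abs_self z, abs_nonneg z]

theorem cover {L g : ℝ} (hL : 0 < L) (hg : g ≠ 0) : ∃ N : ℕ, ∀ n₁ : ℕ, ∃ y₀ : ℝ, ∀ y ≥ y₀,
    ∃ i k : ℕ, i ≤ N ∧ n₁ ≤ k ∧ |k * L + i * (L + g) - y| ≤ |g| := by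
  have g0 : 0 < |g| := abs_pos.2 hg
  refine ⟨⌈L / |g|⌉₊, fun n₁ => ⟨(n₁ + ⌈L / |g|⌉₊ : ℕ) * L, fun y hy => ?_⟩⟩
  have key : ∀ r, 0 ≤ r → r ≤ L → ∃ i : ℕ, i ≤ ⌈L / |g|⌉₊ ∧ |i * |g| - r| ≤ |g| := by
    intro r r0 r1
    have a := Nat.floor_le (div_nonneg r0 g0.le)
    have b := Nat.lt_floor_add_one (r / |g|)
    refine ⟨⌊r / |g|⌋₊, ?_, abs_le.2 ⟨?_, ?_⟩⟩
    · exact (Nat.floor_le_floor (by gcongr)).trans (Nat.floor_le_ceil _)
    · rw [div_lt_iff₀ g0] at b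
      linarith
    · rw [le_div_iff₀ g0] at a
      linarith
  have y0 : 0 ≤ y := le_trans (by positivity) hy
  have a := Nat.floor_le (div_nonneg y0 hL.le)
  have b := Nat.lt_floor_add_one (y / L)
  have c : n₁ + ⌈L / |g|⌉₊ ≤ ⌊y / L⌋₊ := Nat.le_floor (by rwa [le_div_iff₀ hL])
  rw [le_div_iff₀ hL] at a
  rw [div_lt_iff₀ hL] at b
  rcases hg.lt_or_gt with h | h
  · obtain ⟨i, hi, e⟩ := key ((⌊y / L⌋₊ + 1) * L - y) (by linarith) (by linarith)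
    refine ⟨i, ⌊y / L⌋₊ + 1 - i, hi, by omega, ?_⟩
    rw [Nat.cast_sub (by omega), ← abs_neg]
    convert e using 2
    rw [abs_of_neg h]
    push_cast
    ring
  · obtain ⟨i, hi, e⟩ := key (y - ⌊y / L⌋₊ * L) (by linarith) (by linarith)
    refine ⟨i, ⌊y / L⌋₊ - i, hi, by omega, ?_⟩
    rw [Nat.cast_sub (by omega)]
    convert e using 2
    rw [abs_of_pos h]
    ring

section Abstract

variable {G : Type} [Monoid G] (x₁ x₂ : G → ℝ)

/-- right multiplication by `V` keeps the cone and shifts the logarithm by about `ℓ` -/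
def St (ε ℓ η : ℝ) (V : G) : Prop :=
  ∀ g, x₁ g ≠ 0 → |x₂ g| ≤ ε * |x₁ g| → x₁ (g * V) ≠ 0 ∧ |x₂ (g * V)| ≤ ε * |x₁ (g * V)| ∧
    |log (x₁ (g * V)) - log (x₁ g) - ℓ| ≤ η

variable {x₁ x₂}

theorem St.mul {ε ℓ η ℓ' η' : ℝ} {V V' : G} (h : St x₁ x₂ ε ℓ η V) (h' : St x₁ x₂ ε ℓ' η' V') :
    St x₁ x₂ ε (ℓ + ℓ') (η + η') (V * V') := by
  intro g g0 g1
  obtain ⟨a0, a1, a2⟩ := h g g0 g1
  obtain ⟨b0, b1, b2⟩ := h' _ a0 a1
  rw [← mul_assoc]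
  refine ⟨b0, b1, ?_⟩
  rw [abs_le] at a2 b2 ⊢
  constructor <;> linarith [a2.1, a2.2, b2.1, b2.2]

theorem St.pow {ε ℓ η : ℝ} {V : G} (h : St x₁ x₂ ε ℓ η V) (i : ℕ) :
    St x₁ x₂ ε (i * ℓ) (i * η) (V ^ i) := by
  induction i with
  | zero => intro g g0 g1; simp [g0, g1]
  | succ i ih =>
    have := ih.mul h
    rw [pow_succ]
    convert this using 1 <;> push_cast <;> ring

theorem blk {U : G} {u u' v v' : ℝ} (hu : u ≠ 0) (h1 : ∀ g, x₁ (g * U) = u * x₁ g + u' * x₂ g)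
    (h2 : ∀ g, x₂ (g * U) = v * x₁ g + v' * x₂ g) {η : ℝ} (hη : 0 < η) :
    ∃ ε > 0, ∃ C > 0, ∀ g, x₁ g ≠ 0 → |x₂ g| ≤ ε * |x₁ g| → x₁ (g * U) ≠ 0 ∧
      |x₂ (g * U)| ≤ C * |x₁ (g * U)| ∧ |log (x₁ (g * U)) - log (x₁ g) - log u| ≤ η := by
  have u0 : 0 < |u| := abs_pos.2 hu
  obtain ⟨ε, e0, e1, e2⟩ : ∃ ε > 0, ε ≤ 1 ∧ |u' / u| * ε ≤ min (1 / 2) (η / 2) := by
    have m : 0 < min (1 / 2) (η / 2) := by positivity
    refine ⟨min (1 / 2) (η / 2) / (|u' / u| + 1), by positivity, ?_, ?_⟩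
    · rw [div_le_one (by positivity)]
      linarith [min_le_left (1 / 2 : ℝ) (η / 2), abs_nonneg (u' / u)]
    · rw [← mul_div_assoc, div_le_iff₀ (by positivity)]
      nlinarith
  refine ⟨ε, e0, 2 * (|v| + |v'| + 1) / |u|, by positivity, fun g g0 g1 => ?_⟩
  have x0 : 0 < |x₁ g| := abs_pos.2 g0
  have r : |u' / u * (x₂ g / x₁ g)| ≤ min (1 / 2) (η / 2) := by
    refine le_trans ?_ e2
    rw [abs_mul, abs_div (x₂ g)]
    gcongr
    rwa [div_le_iff₀ x0]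
  obtain ⟨l1, l2⟩ := log_near (r.trans (min_le_left _ _))
  have e : x₁ (g * U) = u * x₁ g * (1 + u' / u * (x₂ g / x₁ g)) := by
    rw [h1]
    field_simp
  have p : 0 < 1 + u' / u * (x₂ g / x₁ g) := by linarith
  refine ⟨e ▸ mul_ne_zero (mul_ne_zero hu g0) p.ne', ?_, ?_⟩
  · rw [e, h2, abs_mul, abs_mul, abs_of_pos p]
    have a : |x₂ g| ≤ |x₁ g| := g1.trans (mul_le_of_le_one_left x0.le e1)
    calc |v * x₁ g + v' * x₂ g| ≤ |v| * |x₁ g| + |v'| * |x₁ g| := by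
          refine (abs_add_le _ _).trans ?_
          rw [abs_mul, abs_mul]
          gcongr
      _ ≤ (|v| + |v'| + 1) * |x₁ g| := by linarith
      _ = 2 * (|v| + |v'| + 1) / |u| * (|u| * |x₁ g| * (1 / 2)) := by field_simp
      _ ≤ _ := by gcongr
  · rw [e, log_mul (mul_ne_zero hu g0) p.ne', log_mul hu g0]
    have := r.trans (min_le_right _ _)
    rw [show log u + log (x₁ g) + log (1 + u' / u * (x₂ g / x₁ g)) - log (x₁ g) - log u =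
      log (1 + u' / u * (x₂ g / x₁ g)) by ring]
    linarith

variable {a b : G} {μ β₁₁ β₁₂ β₂₁ β₂₂ : ℝ}

theorem pw (h1 : ∀ g, x₁ (g * a) = μ * x₁ g) (n : ℕ) (g : G) : x₁ (g * a ^ n) = μ ^ n * x₁ g := by
  induction n with
  | zero => simp
  | succ n ih => rw [pow_succ, ← mul_assoc, h1, ih]; ring

theorem shrink (hμ : 1 < |μ|) (h1 : ∀ g, x₁ (g * a) = μ * x₁ g)
    (h2 : ∀ g, x₂ (g * a) = μ⁻¹ * x₂ g) {C ε : ℝ} (hC : 0 < C) (hε : 0 < ε) :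
    ∃ n₀ : ℕ, ∀ n ≥ n₀, ∀ g, x₁ g ≠ 0 → |x₂ g| ≤ C * |x₁ g| → x₁ (g * a ^ n) ≠ 0 ∧
      |x₂ (g * a ^ n)| ≤ ε * |x₁ (g * a ^ n)| ∧
        log (x₁ (g * a ^ n)) = n * log μ + log (x₁ g) := by
  have m0 : μ ≠ 0 := abs_pos.1 (by linarith)
  have m1 : |μ|⁻¹ < 1 := inv_lt_one_of_one_lt₀ hμ
  obtain ⟨n₀, hn⟩ := exists_pow_lt_of_lt_one (div_pos hε hC) m1
  refine ⟨n₀, fun n hn' g g0 g1 => ?_⟩
  rw [pw h1, pw h2]
  refine ⟨mul_ne_zero (pow_ne_zero _ m0) g0, ?_, by rw [log_mul (pow_ne_zero _ m0) g0, log_pow]⟩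
  rw [abs_mul, abs_mul, abs_pow, abs_pow, abs_inv]
  have a1 : |μ|⁻¹ ^ n ≤ ε / C := (pow_le_pow_of_le_one (by positivity) m1.le hn').trans hn.le
  have a2 : 1 ≤ |μ| ^ n := one_le_pow₀ hμ.le
  calc |μ|⁻¹ ^ n * |x₂ g| ≤ ε / C * (C * |x₁ g|) := by gcongr
    _ = ε * (1 * |x₁ g|) := by field_simp
    _ ≤ _ := by gcongr

theorem core (hμ : 1 < |μ|) (h1 : ∀ g, x₁ (g * a) = μ * x₁ g) (h2 : ∀ g, x₂ (g * a) = μ⁻¹ * x₂ g)
    (h3 : ∀ g, x₁ (g * b) = β₁₁ * x₁ g + β₂₁ * x₂ g)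
    (h4 : ∀ g, x₂ (g * b) = β₁₂ * x₁ g + β₂₂ * x₂ g) (b1 : β₁₁ ≠ 0) (b2 : β₁₂ ≠ 0) (b3 : β₂₁ ≠ 0)
    (P : G → Prop) (Pa : P a) (Pb : P b) (Pm : ∀ g h, P g → P h → P (g * h)) {κ C : ℝ}
    (hκ : 0 < κ) (hC : 0 < C) : ∃ y₀ : ℝ, ∀ g, x₁ g ≠ 0 → |x₂ g| ≤ C * |x₁ g| → ∀ y ≥ y₀,
      ∃ h, P h ∧ x₁ (g * h) ≠ 0 ∧ |x₂ (g * h)| ≤ κ * |x₁ (g * h)| ∧
        |log (x₁ (g * h)) - log (x₁ g) - y| ≤ κ := by
  have m0 : μ ≠ 0 := abs_pos.1 (by linarith)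
  have L0 : 0 < log μ := by rw [← log_abs]; exact log_pos hμ
  have Pp : ∀ g h, P g → P h → ∀ n : ℕ, P (g * h ^ n) := by
    intro g h hg hh n
    induction n with
    | zero => simpa
    | succ n ih => rw [pow_succ, ← mul_assoc]; exact Pm _ _ ih hh
  set ν := μ⁻¹ ^ 2 with hν
  set t := β₂₁ * β₁₂ / β₁₁ ^ 2 with ht
  have t0 : t ≠ 0 := div_ne_zero (mul_ne_zero b3 b2) (pow_ne_zero _ b1)
  have ν0 : 0 < ν := by positivity
  have ν1 : ν < 1 := by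
    rw [hν, ← sq_abs, abs_inv]
    exact pow_lt_one₀ (by positivity) (inv_lt_one_of_one_lt₀ hμ) two_ne_zero
  have U1 : ∀ (j : ℕ) g, x₁ (g * (b * a ^ j * b)) = β₁₁ ^ 2 * μ ^ j * (1 + t * ν ^ j) * x₁ g +
      (β₁₁ * μ ^ j * β₂₁ + β₂₁ * μ⁻¹ ^ j * β₂₂) * x₂ g := by
    intro j g
    rw [← mul_assoc, ← mul_assoc, h3, pw h1, pw h2, h3, h4, ht, hν, ← pow_mul, mul_comm 2 j,
      pow_mul, inv_pow]
    field_simp
    ring
  have U2 : ∀ (j : ℕ) g, x₂ (g * (b * a ^ j * b)) =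
      (β₁₂ * μ ^ j * β₁₁ + β₂₂ * μ⁻¹ ^ j * β₁₂) * x₁ g +
        (β₁₂ * μ ^ j * β₂₁ + β₂₂ * μ⁻¹ ^ j * β₂₂) * x₂ g := by
    intro j g
    rw [← mul_assoc, ← mul_assoc, h4, pw h1, pw h2, h3, h4]
    ring
  obtain ⟨j, hj⟩ := exists_pow_lt_of_lt_one
    (show 0 < min (1 / 2) (κ / 8) / |t| by positivity) ν1
  rw [lt_div_iff₀ (abs_pos.2 t0)] at hj
  have z1 : |t * ν ^ j| ≤ min (1 / 2) (κ / 8) := by
    rw [abs_mul, abs_of_pos (pow_pos ν0 j), mul_comm]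
    exact hj.le
  have z2 : |t * ν ^ (j + 1)| ≤ min (1 / 2) (κ / 8) := by
    refine le_trans ?_ z1
    rw [abs_mul, abs_mul, abs_of_pos (pow_pos ν0 j), abs_of_pos (pow_pos ν0 _)]
    exact mul_le_mul_of_nonneg_left (pow_le_pow_of_le_one ν0.le ν1.le (by omega)) (abs_nonneg _)
  obtain ⟨p1, l1⟩ := log_near (z1.trans (min_le_left _ _))
  obtain ⟨p2, l2⟩ := log_near (z2.trans (min_le_left _ _))
  have q1 : 0 < 1 + t * ν ^ j := by linarith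
  have q2 : 0 < 1 + t * ν ^ (j + 1) := by linarith
  set γ := log (1 + t * ν ^ (j + 1)) - log (1 + t * ν ^ j) with hγ
  have γ0 : γ ≠ 0 := by
    intro e
    have := log_injOn_pos q2 q1 (sub_eq_zero.1 e)
    have : t * ν ^ j * (ν - 1) = 0 := by rw [pow_succ] at this; linarith
    exact mul_ne_zero (mul_ne_zero t0 (pow_pos ν0 j).ne') (by linarith) this
  have γ1 : |γ| ≤ κ / 2 := by
    have := z1.trans (min_le_right _ _)
    have := z2.trans (min_le_right _ _)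
    exact (abs_sub _ _).trans (by linarith)
  obtain ⟨N, hN⟩ := cover L0 γ0
  have u0 : ∀ (j : ℕ), 0 < 1 + t * ν ^ j → β₁₁ ^ 2 * μ ^ j * (1 + t * ν ^ j) ≠ 0 := fun j h =>
    mul_ne_zero (mul_ne_zero (pow_ne_zero _ b1) (pow_ne_zero _ m0)) h.ne'
  have η0 : 0 < κ / 2 / (N + 1) := by positivity
  obtain ⟨ε₁, e1, C₁, c1, H1⟩ := blk (u0 j q1) (U1 j) (U2 j) η0
  obtain ⟨ε₂, e2, C₂, c2, H2⟩ := blk (u0 (j + 1) q2) (U1 (j + 1)) (U2 (j + 1)) η0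
  set ε := min κ (min ε₁ ε₂) with hε
  have ε0 : 0 < ε := by positivity
  obtain ⟨n₁, hn₁⟩ := shrink hμ h1 h2 c1 ε0
  obtain ⟨n₂, hn₂⟩ := shrink hμ h1 h2 c2 ε0
  obtain ⟨n₃, hn₃⟩ := shrink hμ h1 h2 hC ε0
  set ℓ := (n₁ + n₂ : ℕ) * log μ + log (β₁₁ ^ 2 * μ ^ j * (1 + t * ν ^ j)) with hℓ
  have S1 : St x₁ x₂ ε ℓ (κ / 2 / (N + 1)) (b * a ^ j * b * a ^ (n₁ + n₂)) := by
    intro g g0 g1
    obtain ⟨a0, a1, a2⟩ := H1 g g0 (g1.trans (by
      gcongr; exact (min_le_right _ _).trans (min_le_left _ _)))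
    obtain ⟨d0, d1, d2⟩ := hn₁ (n₁ + n₂) (by omega) _ a0 a1
    rw [← mul_assoc]
    refine ⟨d0, d1, ?_⟩
    convert a2 using 2
    rw [d2, hℓ]
    ring
  have S2 : St x₁ x₂ ε (ℓ + (log μ + γ)) (κ / 2 / (N + 1))
      (b * a ^ (j + 1) * b * a ^ (n₁ + n₂)) := by
    intro g g0 g1
    obtain ⟨a0, a1, a2⟩ := H2 g g0 (g1.trans (by
      gcongr; exact (min_le_right _ _).trans (min_le_right _ _)))
    obtain ⟨d0, d1, d2⟩ := hn₂ (n₁ + n₂) (by omega) _ a0 a1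
    rw [← mul_assoc]
    refine ⟨d0, d1, ?_⟩
    convert a2 using 2
    rw [d2, hℓ, hγ, log_mul (mul_ne_zero (pow_ne_zero _ b1) (pow_ne_zero _ m0)) q1.ne',
      log_mul (mul_ne_zero (pow_ne_zero _ b1) (pow_ne_zero _ m0)) q2.ne',
      log_mul (pow_ne_zero _ b1) (pow_ne_zero _ m0), log_mul (pow_ne_zero _ b1) (pow_ne_zero _ m0),
      log_pow μ, log_pow μ]
    push_cast
    ring
  obtain ⟨y₀, hy₀⟩ := hN (n₃ + 1)
  refine ⟨y₀ + N * ℓ, fun g g0 g1 y hy => ?_⟩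
  obtain ⟨i, k, hi, hk, e⟩ := hy₀ (y - N * ℓ) (by linarith)
  obtain ⟨d0, d1, d2⟩ := hn₃ k (by omega) g g0 g1
  obtain ⟨f0, f1, f2⟩ := ((S2.pow i).mul (S1.pow (N - i))) _ d0 d1
  have PV : ∀ j : ℕ, P (b * a ^ j * b * a ^ (n₁ + n₂)) := fun j =>
    Pp _ _ (Pm _ _ (Pp _ _ Pb Pa j) Pb) Pa _
  refine ⟨a ^ k * ((b * a ^ (j + 1) * b * a ^ (n₁ + n₂)) ^ i *
    (b * a ^ j * b * a ^ (n₁ + n₂)) ^ (N - i)), ?_, ?_⟩
  · obtain ⟨k, rfl⟩ : ∃ k', k = k' + 1 := ⟨k - 1, by omega⟩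
    rw [← mul_assoc, pow_succ']
    exact Pp _ _ (Pp _ _ (Pp _ _ Pa Pa k) (PV _) i) (PV _) _
  · rw [← mul_assoc]
    refine ⟨f0, f1.trans (by gcongr; exact min_le_left _ _), ?_⟩
    rw [d2, Nat.cast_sub hi] at f2
    have s : (i : ℝ) * (κ / 2 / (N + 1)) + (N - i) * (κ / 2 / (N + 1)) ≤ κ / 2 := by
      rw [← add_mul, add_sub_cancel, ← mul_div_assoc, div_le_iff₀ (by positivity)]
      nlinarith
    rw [abs_le] at f2 e ⊢
    constructor <;> linarith [f2.1, f2.2, e.1, e.2]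

end Abstract

end S4

variable {α : Type} [Fintype α] [DecidableEq α] [Inhabited α] (S : SchottkyData α)

set_option linter.unusedSectionVars false

namespace S4

open S1

/-- positive at both ends -/
def Ps (h : FreeGroup α) : Prop := h ≠ 1 ∧ (hd h).2 = true ∧ (hd h⁻¹).2 = false

theorem hd_of (i : α) : hd (FreeGroup.of i) = (i, true) := by
  rw [hd, FreeGroup.toWord_of]
  rfl

theorem hd_of_inv (i : α) : hd (FreeGroup.of i)⁻¹ = (i, false) := by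
  rw [hd, FreeGroup.toWord_inv, FreeGroup.toWord_of]
  rfl

theorem Ps_of (i : α) : Ps (FreeGroup.of i) :=
  ⟨FreeGroup.of_ne_one i, by rw [hd_of], by rw [hd_of_inv]⟩

theorem Ps.ne {g h : FreeGroup α} (hg : Ps g) (hh : Ps h) : hd h ≠ hd g⁻¹ := fun e => by
  have := hh.2.1
  rw [e, hg.2.2] at this
  cases this

theorem Ps.mul {g h : FreeGroup α} (hg : Ps g) (hh : Ps h) : Ps (g * h) := by
  obtain ⟨-, a, b, c, -⟩ := compat hg.1 hh.1 (hg.ne hh)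
  exact ⟨a, b ▸ hg.2.1, c ▸ hh.2.2⟩

theorem out_of {i j : α × Bool} (h : i ≠ j) {x : ℝ} (hx : |x - S.c i| ≤ S.ρ i) :
    S.ρ j ≤ |x - S.c j| := by
  simpa [Out] using In.out S h (x := x) (y := 1) (by simpa [In] using hx)

theorem fixed {g : FreeGroup α} (hg : g ≠ 1) (e : hd g ≠ hd g⁻¹) :
    ∃ x, |x - S.c (hd g)| ≤ S.ρ (hd g) ∧
      S.M g 0 0 * x + S.M g 0 1 = x * (S.M g 1 0 * x + S.M g 1 1) := by
  have mem : ∀ x, x ∈ Icc (S.c (hd g) - S.ρ (hd g)) (S.c (hd g) + S.ρ (hd g)) ↔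
      |x - S.c (hd g)| ≤ S.ρ (hd g) := fun x => by
    rw [abs_le, mem_Icc]
    constructor <;> rintro ⟨a, b⟩ <;> constructor <;> linarith
  have h1 : ∀ x, |x - S.c (hd g)| ≤ S.ρ (hd g) → In S (hd g) (S.M g 0 0 * x + S.M g 0 1 * 1)
      (S.M g 1 0 * x + S.M g 1 1 * 1) := fun x hx =>
    elem S hg (by simpa [Out] using out_of S e hx)
  have h2 : ∀ x, |x - S.c (hd g)| ≤ S.ρ (hd g) → S.M g 1 0 * x + S.M g 1 1 * 1 ≠ 0 :=
    fun x hx => (h1 x hx).ne S (nz _ (by simp))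
  obtain ⟨x, hx, e⟩ := exists_mem_Icc_isFixedPt_of_mapsTo
    (f := fun x => (S.M g 0 0 * x + S.M g 0 1 * 1) / (S.M g 1 0 * x + S.M g 1 1 * 1))
    (ContinuousOn.div (by fun_prop) (by fun_prop) fun x hx => h2 x ((mem x).1 hx))
    (by linarith [S.pos (hd g)])
    fun x hx => (mem _).2 ((h1 x ((mem x).1 hx)).div S (h2 x ((mem x).1 hx)))
  have := (div_eq_iff (h2 x ((mem x).1 hx))).1 e
  exact ⟨x, (mem x).1 hx, by simpa using this⟩

/-- the bottom row of a word paired with the vector `(x, 1)` -/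
noncomputable def X (x : ℝ) (g : FreeGroup α) : ℝ := S.M g 1 0 * x + S.M g 1 1

theorem X_mul (x : ℝ) (g h : FreeGroup α) : X S x (g * h) =
    S.M g 1 0 * (S.M h 0 0 * x + S.M h 0 1) + S.M g 1 1 * (S.M h 1 0 * x + S.M h 1 1) := by
  simp only [X, map_mul, Matrix.SpecialLinearGroup.coe_mul, Matrix.mul_apply, Fin.sum_univ_two]
  ring

theorem X_eq {g : FreeGroup α} (hg : g ≠ 1) (x : ℝ) : X S x g = S.M g 1 0 * (x - S.p g⁻¹) := by
  have := S.c_ne hg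
  rw [X, SchottkyData.p, (inv_entries S g).1, (inv_entries S g).2.2.1]
  field_simp
  ring

theorem eigen {i i' : α} (hi : i ≠ i') : ∃ u v μ β₁₁ β₁₂ β₂₁ β₂₂ : ℝ,
    |u - S.c (i, true)| ≤ S.ρ (i, true) ∧ |v - S.c (i, false)| ≤ S.ρ (i, false) ∧ 1 < |μ| ∧
    (∀ g, X S u (g * .of i) = μ * X S u g) ∧ (∀ g, X S v (g * .of i) = μ⁻¹ * X S v g) ∧
    (∀ g, X S u (g * .of i') = β₁₁ * X S u g + β₂₁ * X S v g) ∧
    (∀ g, X S v (g * .of i') = β₁₂ * X S u g + β₂₂ * X S v g) ∧ β₁₁ ≠ 0 ∧ β₁₂ ≠ 0 ∧ β₂₁ ≠ 0 := by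
  obtain ⟨γ, ⟨γ0, -⟩, B, -, hγ, -⟩ := S.geo
  obtain ⟨u, hu, eu⟩ := fixed S (FreeGroup.of_ne_one i) (by simp [hd_of, hd_of_inv])
  obtain ⟨v, hv, ev⟩ := fixed S (inv_ne_one.2 (FreeGroup.of_ne_one i))
    (by simp [hd_of, hd_of_inv])
  rw [hd_of] at hu
  rw [hd_of_inv] at hv
  obtain ⟨i1, i2, i3, i4⟩ := inv_entries S (.of i)
  rw [i1, i2, i3, i4] at ev
  have uv : u - v ≠ 0 := abs_pos.1 (γ0.trans_le (hγ _ _ (by simp) _ _ hu hv))
  have d := det2 (S.M (.of i))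
  have h1 : ∀ g, X S u (g * .of i) = (S.M (.of i) 1 0 * u + S.M (.of i) 1 1) * X S u g := by
    intro g
    rw [X_mul, eu, X]
    ring
  have vi : S.M (.of i) 1 0 * (u + v) = S.M (.of i) 0 0 - S.M (.of i) 1 1 := by
    apply mul_left_cancel₀ uv
    linear_combination -eu - ev
  have mm : (S.M (.of i) 1 0 * u + S.M (.of i) 1 1) * (S.M (.of i) 1 0 * v + S.M (.of i) 1 1)
      = 1 := by
    linear_combination (S.M (.of i) 1 0 * u + S.M (.of i) 1 1) * vi + S.M (.of i) 1 0 * eu + d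
  have hb : ∀ x j, j.1 = i → |x - S.c j| ≤ S.ρ j → ∀ y k, k.1 = i → |y - S.c k| ≤ S.ρ k →
      S.M (.of i') 0 0 * x + S.M (.of i') 0 1 - y * (S.M (.of i') 1 0 * x + S.M (.of i') 1 1)
        ≠ 0 := by
    intro x j hj hx y k hk hy e
    have a1 := elem S (FreeGroup.of_ne_one i') (x := x) (y := 1) (by
      simpa [Out] using out_of S (i := j) (j := hd (FreeGroup.of i')⁻¹) (by
        rw [hd_of_inv]; rintro rfl; exact hi hj.symm) hx)
    have a2 := a1.ne S (nz _ (by simp))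
    have a3 := a1.div S a2
    rw [mul_one, mul_one] at a3
    rw [mul_one] at a2
    rw [sub_eq_zero.1 e, mul_div_cancel_right₀ _ a2, hd_of] at a3
    have := hγ k (i', true) (by rintro rfl; exact hi hk.symm) y y hy a3
    rw [sub_self, abs_zero] at this
    linarith
  refine ⟨u, v, _, (S.M (.of i') 0 0 * u + S.M (.of i') 0 1 -
      v * (S.M (.of i') 1 0 * u + S.M (.of i') 1 1)) / (u - v),
    (S.M (.of i') 0 0 * v + S.M (.of i') 0 1 -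
      v * (S.M (.of i') 1 0 * v + S.M (.of i') 1 1)) / (u - v),
    -(S.M (.of i') 0 0 * u + S.M (.of i') 0 1 -
      u * (S.M (.of i') 1 0 * u + S.M (.of i') 1 1)) / (u - v),
    -(S.M (.of i') 0 0 * v + S.M (.of i') 0 1 -
      u * (S.M (.of i') 1 0 * v + S.M (.of i') 1 1)) / (u - v), hu, hv, ?_, h1, fun g => ?_,
    fun g => ?_, fun g => ?_, div_ne_zero (hb u _ rfl hu v _ rfl hv) uv,
    div_ne_zero (hb v _ rfl hv v _ rfl hv) uv,
    div_ne_zero (neg_ne_zero.2 (hb u _ rfl hu u _ rfl hu)) uv⟩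
  · have hf := S2.fin S (show 0 < γ ^ 2 / 2 by positivity)
    have inj : Function.Injective fun n : ℕ => (FreeGroup.of i : FreeGroup α) ^ (n + 1) := by
      intro m n e
      have := congrArg FreeGroup.norm e
      simpa [FreeGroup.norm_of_pow] using this
    obtain ⟨n, hn⟩ : ∃ n : ℕ, ¬ γ ^ 2 / 2 ≤ S.τ (.of i ^ (n + 1)) := by
      by_contra H
      push Not at H
      exact (Set.infinite_range_of_injective inj) (hf.subset (by rintro _ ⟨n, rfl⟩; exact H n))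
    have P : ∀ n : ℕ, Ps ((FreeGroup.of i : FreeGroup α) ^ (n + 1)) := by
      intro n
      induction n with
      | zero => simpa using Ps_of i
      | succ n ih => rw [pow_succ]; exact ih.mul (Ps_of i)
    have e := pw h1 (n + 1) 1
    rw [one_mul, X_eq S (P n).1, show X S u 1 = 1 by simp [X], mul_one] at e
    have a1 := hγ _ _ (fun e => by
      have := (P n).2.2
      rw [← e] at this
      cases this) _ _ hu (S.p_mem (inv_ne_one.2 (P n).1))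
    have a2 := sq_pos_of_ne_zero (S.c_ne (P n).1)
    rw [not_le, SchottkyData.τ, inv_lt_iff_one_lt_mul₀ a2] at hn
    by_contra H
    have a3 : |S.M (.of i) 1 0 * u + S.M (.of i) 1 1| ^ (n + 1) ≤ 1 :=
      pow_le_one₀ (abs_nonneg _) (not_lt.1 H)
    rw [← abs_pow, ← e, ← sq_le_one_iff_abs_le_one, mul_pow] at a3
    have a4 : γ ^ 2 ≤ (u - S.p (.of i ^ (n + 1))⁻¹) ^ 2 := by
      rw [← sq_abs (u - _)]
      gcongr
    nlinarith [mul_le_mul_of_nonneg_left a4 a2.le]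
  · rw [← eq_inv_of_mul_eq_one_right mm, X_mul, X]
    linear_combination -S.M g 1 0 * ev
  · rw [X_mul, X, X]
    field_simp
    ring
  · rw [X_mul, X, X]
    field_simp
    ring

end S4

open S4 S1

theorem SchottkyData.tune [Nontrivial α] : ∃ q : ℝ, ∀ κ > 0, ∃ Q > 0, ∀ w, w ≠ 1 →
    ∀ σ ∈ Ioc 0 (S.τ w / Q), ∃ h, h ≠ 1 ∧ hd h ≠ hd w⁻¹ ∧ |S.p (w * h)⁻¹ - q| ≤ κ ∧
      |S.τ (w * h) - σ| ≤ κ * σ := by
  obtain ⟨i, i', hi⟩ := exists_pair_ne α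
  obtain ⟨u, v, μ, β₁₁, β₁₂, β₂₁, β₂₂, hu, hv, hμ, h1, h2, h3, h4, b1, b2, b3⟩ := eigen S hi
  obtain ⟨γ, ⟨γ0, -⟩, B, B1, hγ, hB, hp, -⟩ := S.geo
  obtain ⟨m, m0, hm⟩ := S2.letters S
  have uv : 0 < |u - v| := γ0.trans_le (hγ _ _ (by simp) _ _ hu hv)
  have bd : ∀ x j, |x - S.c j| ≤ S.ρ j → ∀ g, g ≠ 1 → |x - S.p g| ≤ 2 * B := by
    intro x j hx g hg
    have := hB j
    have := hp g hg
    have := abs_sub_le x (S.c j) 0
    have := abs_sub x (S.p g)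
    simp only [sub_zero] at *
    linarith
  refine ⟨v, fun κ κ0 => ?_⟩
  obtain ⟨κ₁, k0, k1, k2, k3⟩ : ∃ κ₁ > 0, κ₁ ≤ 1 / 6 ∧ κ₁ ≤ κ / 12 ∧ κ₁ ≤ κ / (2 * |u - v|) :=
    ⟨min (1 / 6) (min (κ / 12) (κ / (2 * |u - v|))), by positivity, min_le_left _ _,
      (min_le_right _ _).trans (min_le_left _ _), (min_le_right _ _).trans (min_le_right _ _)⟩
  obtain ⟨y₀, hy⟩ := S4.core hμ h1 h2 h3 h4 b1 b2 b3 Ps (Ps_of i) (Ps_of i') (fun _ _ => Ps.mul) k0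
    (show 0 < 2 * B / γ by positivity)
  refine ⟨16 * B ^ 4 / (m * exp (2 * log (u - v) - 2 * y₀)), by positivity, fun w w1 σ hσ => ?_⟩
  obtain ⟨j, hj⟩ : ∃ j : α, hd (FreeGroup.of j) ≠ hd w⁻¹ := by
    by_cases e : hd (FreeGroup.of i) = hd w⁻¹
    · refine ⟨i', fun e' => hi ?_⟩
      rw [← e, hd_of, hd_of] at e'
      exact (Prod.mk.inj e').1.symm
    · exact ⟨i, e⟩
  obtain ⟨-, g1, -, g2, -⟩ := compat w1 (Ps_of j).1 hj
  have c0 := abs_pos.2 (S.c_ne g1)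
  have a1 : γ ≤ |u - S.p (w * .of j)⁻¹| :=
    hγ _ _ (by rw [g2, hd_of_inv]; simp) _ _ hu (S.p_mem (inv_ne_one.2 g1))
  have a2 := bd u _ hu _ (inv_ne_one.2 g1)
  have a3 := bd v _ hv _ (inv_ne_one.2 g1)
  have x0 : X S u (w * .of j) ≠ 0 := by
    rw [X_eq S g1]
    exact mul_ne_zero (S.c_ne g1) (abs_pos.1 (γ0.trans_le a1))
  have t0 := S.τ_pos w1
  have a4 : X S u (w * .of j) ^ 2 * σ ≤ exp (2 * log (u - v) - 2 * y₀) := by
    obtain ⟨f1, -, f2⟩ := S.mul_formula w1 (Ps_of j).1 g1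
    have f3 := hm (.of j) (FreeGroup.norm_of j)
    have f4 := bd _ _ (S.p_mem (Ps_of j).1) _ (inv_ne_one.2 w1)
    have f5 := sq_pos_of_ne_zero (sub_ne_zero.2 f1)
    have f6 : S.M (w * .of j) 1 0 ^ 2 =
        (S.p (.of j) - S.p w⁻¹) ^ 2 / (S.τ w * S.τ (.of j)) := by
      rw [← inv_div, ← f2, SchottkyData.τ, inv_inv]
    rw [X_eq S g1, mul_pow, f6, ← sq_abs (u - _), ← sq_abs (S.p _ - _)]
    calc _ ≤ (2 * B) ^ 2 / (S.τ w * m) * (2 * B) ^ 2 *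
          (S.τ w / (16 * B ^ 4 / (m * exp (2 * log (u - v) - 2 * y₀)))) := by
          gcongr
          · exact hσ.1.le
          · exact hσ.2
      _ = _ := by field_simp; ring
  obtain ⟨h, Ph, x1, r, e⟩ := hy (w * .of j) x0 (by
    rw [X_eq S g1, X_eq S g1, abs_mul, abs_mul, div_mul_eq_mul_div, le_div_iff₀ γ0]
    calc _ ≤ |S.M (w * .of j) 1 0| * (2 * B) * |u - S.p (w * .of j)⁻¹| := by gcongr
      _ = _ := by ring) (-log σ / 2 + log (u - v) - log (X S u (w * .of j))) (by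
    have := log_le_log (mul_pos (sq_pos_of_ne_zero x0) hσ.1) a4
    rw [log_exp, log_mul (pow_ne_zero _ x0) hσ.1.ne', log_pow] at this
    push_cast at this
    linarith)
  obtain ⟨-, s1, s2, -⟩ := compat (Ps_of j).1 Ph.1 ((Ps_of j).ne Ph)
  obtain ⟨-, G1, -⟩ := compat w1 s1 (s2 ▸ hj)
  rw [mul_assoc] at x1 r e
  refine ⟨.of j * h, s1, s2 ▸ hj, ?_⟩
  generalize w * (.of j * h) = G at G1 x1 r e
  have X0 := abs_pos.2 x1
  have z : |-(X S v G / X S u G)| ≤ κ₁ := by rwa [abs_neg, abs_div, div_le_iff₀ X0]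
  obtain ⟨l1, l2⟩ := log_near (z.trans (by linarith))
  have p : 0 < 1 + -(X S v G / X S u G) := by linarith
  have ec : S.M G 1 0 * (u - v) = X S u G * (1 + -(X S v G / X S u G)) := by
    field_simp
    simp only [X]
    ring
  have cG := S.c_ne G1
  constructor
  · have f1 : |S.M G 1 0| * |u - v| = |X S u G| * (1 + -(X S v G / X S u G)) := by
      rw [← abs_mul, ec, abs_mul, abs_of_pos p]
    rw [X_eq S G1 v, abs_mul, abs_sub_comm] at r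
    rw [le_div_iff₀ (by positivity)] at k3
    have f2 : |X S u G| ≤ 2 * (|S.M G 1 0| * |u - v|) := by nlinarith
    refine le_of_mul_le_mul_left (r.trans ?_) (abs_pos.2 cG)
    calc κ₁ * |X S u G| ≤ κ₁ * (2 * (|S.M G 1 0| * |u - v|)) := by gcongr
      _ = |S.M G 1 0| * (κ₁ * (2 * |u - v|)) := by ring
      _ ≤ _ := by gcongr
  · have f1 := congrArg log ec
    rw [log_mul cG (abs_pos.1 uv), log_mul x1 p.ne'] at f1
    have f2 : log (S.τ G) = -2 * log (S.M G 1 0) := by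
      rw [SchottkyData.τ, log_inv, log_pow]
      push_cast
      ring
    have f3 : |log (S.τ G) - log σ| ≤ 6 * κ₁ := by
      rw [abs_le] at e l2 ⊢
      constructor <;> linarith [e.1, e.2, l2.1, l2.2]
    have f4 := abs_exp_sub_one_le (f3.trans (by linarith))
    rw [exp_sub, exp_log (S.τ_pos G1), exp_log hσ.1, div_sub_one hσ.1.ne', abs_div,
      abs_of_pos hσ.1, div_le_iff₀ hσ.1] at f4
    exact f4.trans (mul_le_mul_of_nonneg_right (by linarith) hσ.1.le)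

theorem SchottkyData.na [Nontrivial α] : NA S.Lam := by
  intro M
  obtain ⟨q, hq⟩ := S.tune
  obtain ⟨γ, ⟨γ0, γ1⟩, B, -, hγ, -⟩ := S.geo
  obtain ⟨c, c0, C, C0, hC⟩ := S.Lam_near
  have inf : (S.Lam \ {q}).Infinite := S.Lam_inf.sdiff (Set.finite_singleton q)
  set z : Fin M → ℝ := fun i => (inf.natEmbedding _ i : ℝ) with hz
  have z1 : ∀ i, z i ∈ S.Lam := fun i => (inf.natEmbedding _ i).2.1
  have z2 : ∀ i, z i - q ≠ 0 := fun i => sub_ne_zero.2 (inf.natEmbedding _ i).2.2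
  obtain ⟨d, d0, hd'⟩ : ∃ d > 0, ∀ i, d ≤ |z i - q| := by
    have : ∀ᶠ d in nhds (0 : ℝ), ∀ i, d < |z i - q| :=
      Filter.eventually_all.2 fun i => gt_mem_nhds (abs_pos.2 (z2 i))
    obtain ⟨ε, ε0, h⟩ := Metric.eventually_nhds_iff.1 this
    refine ⟨ε / 2, by positivity, fun i => (h ?_ i).le⟩
    rw [Real.dist_eq, sub_zero, abs_of_pos (by positivity)]
    linarith
  refine ⟨fun i => -1 / (z i - q), fun i j e => ?_, fun κ κ0 => ?_⟩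
  · have := z2 i
    have := z2 j
    simp only at e
    field_simp at e
    exact Fin.ext ((inf.natEmbedding _).injective (Subtype.ext (by
      change z i = z j
      linarith)))
  obtain ⟨κ₁, k0, k1, k2, k3⟩ : ∃ κ₁ > 0, κ₁ ≤ 1 ∧ κ₁ ≤ d / 2 ∧ κ₁ ≤ κ / (2 / d ^ 2 + 2 / d) :=
    ⟨min 1 (min (d / 2) (κ / (2 / d ^ 2 + 2 / d))), by positivity, min_le_left _ _,
      (min_le_right _ _).trans (min_le_left _ _), (min_le_right _ _).trans (min_le_right _ _)⟩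
  obtain ⟨Q, Q0, hQ⟩ := hq κ₁ k0
  have E1 : 1 ≤ C + 1 / γ := by
    have : 1 ≤ 1 / γ := by rwa [le_div_iff₀ γ0, one_mul]
    linarith
  refine ⟨8 / d + 2 * (C + 1 / γ) * Q / c, by positivity, fun ξ hξ ρ hρ σ hσ => ?_⟩
  have ρ0 := hρ.1
  have σ0 := hσ.1
  obtain ⟨w, w1, w2, w3, w4⟩ := hC (ρ / (2 * (C + 1 / γ))) ⟨by positivity, by
    rw [div_le_one (by positivity)]
    linarith [hρ.2]⟩ ξ hξ
  have s1 : σ ≤ ρ / (8 / d) := hσ.2.trans (by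
    gcongr
    exact le_add_of_nonneg_right (by positivity))
  have s2 : σ ≤ ρ / (2 * (C + 1 / γ) * Q / c) := hσ.2.trans (by
    gcongr
    exact le_add_of_nonneg_left (by positivity))
  obtain ⟨h, h1, h2, h3, h4⟩ := hQ w w1 σ ⟨σ0, s2.trans (by
    calc ρ / (2 * (C + 1 / γ) * Q / c) = c * (ρ / (2 * (C + 1 / γ))) / Q := by field_simp
      _ ≤ _ := by gcongr)⟩
  obtain ⟨-, G1, -⟩ := compat w1 h1 h2
  have y0 : |S.p (w * h) - ξ| ≤ ρ / 2 := by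
    have a1 : |S.p (w * h) - S.p w| ≤ ρ / (2 * (C + 1 / γ)) / γ := by
      rw [(S.mul_formula w1 h1 G1).2.1, sub_sub_cancel_left, abs_neg, abs_div,
        abs_of_pos (S.τ_pos w1)]
      exact div_le_div₀ (by positivity) w3 γ0
        (hγ _ _ h2 _ _ (S.p_mem h1) (S.p_mem (inv_ne_one.2 w1)))
    calc _ ≤ ρ / (2 * (C + 1 / γ)) / γ + C * (ρ / (2 * (C + 1 / γ))) :=
          (abs_sub_le _ (S.p w) _).trans (add_le_add a1 w4)
      _ = ρ / 2 := by field_simp; ring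
  generalize w * h = G at G1 h3 h4 y0
  have t0 := S.τ_pos G1
  have far : ∀ i, d / 2 ≤ |z i - S.p G⁻¹| := fun i => by
    have := hd' i
    have := abs_sub_le (z i) (S.p G⁻¹) q
    linarith
  refine ⟨S.p G, by linarith, fun i => S.p G - S.τ G / (z i - S.p G⁻¹), fun i =>
    ⟨(S.Lam_smul (z1 i) G1).2, ?_, ?_⟩⟩
  · have a1 : S.τ G ≤ 2 * σ := by nlinarith [(abs_le.1 h4).2]
    have a2 : |S.τ G / (z i - S.p G⁻¹)| ≤ ρ / 2 := by
      rw [abs_div, abs_of_pos t0]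
      calc _ ≤ 2 * (ρ / (8 / d)) / (d / 2) := by
            gcongr
            · linarith
            · exact far i
        _ = ρ / 2 := by field_simp; ring
    rw [sub_right_comm]
    exact (abs_sub _ _).trans (by linarith)
  · have n1 := z2 i
    have n2 : z i - S.p G⁻¹ ≠ 0 := abs_pos.1 (lt_of_lt_of_le (by positivity) (far i))
    have e : S.p G - S.τ G / (z i - S.p G⁻¹) - S.p G - σ * (-1 / (z i - q)) =
        -(σ * (S.p G⁻¹ - q) / ((z i - q) * (z i - S.p G⁻¹)) +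
          (S.τ G - σ) / (z i - S.p G⁻¹)) := by
      field_simp
      ring
    rw [e, abs_neg]
    rw [le_div_iff₀ (by positivity)] at k3
    refine (abs_add_le _ _).trans ?_
    rw [abs_div, abs_div, abs_mul, abs_mul, abs_of_pos σ0]
    calc _ ≤ σ * κ₁ / (d * (d / 2)) + κ₁ * σ / (d / 2) := by
          gcongr
          · exact hd' i
          · exact far i
          · exact far i
      _ = κ₁ * (2 / d ^ 2 + 2 / d) * σ := by field_simp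
      _ ≤ _ := by gcongr

end Pool.Agent.Lib.MP_e1e19a_an
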