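import Pool.Agent.Lib.MP_e1e19a_an.N.Core

/-!
The kernel bound.
-/

namespace Pool.Agent.Lib.MP_e1e19a_an

open Real MeasureTheory Set
open scoped MatrixGroups ComplexConjugate UpperHalfPlane

namespace T1

lemma isOpen_box (a b d : ℝ) : IsOpen (Box a b d) :=
  (isOpen_lt continuous_const Complex.continuous_re).inter
    ((isOpen_lt Complex.continuous_re continuous_const).inter
      (isOpen_lt Complex.continuous_im.abs continuous_const))

lemma mem_box_of {a b d d' r : ℝ} {z w : ℂ} (hz : z ∈ Box a b d) (hw : ‖w - z‖ ≤ r)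
    (h : d + r ≤ d') : w ∈ Box a b d' := by
  obtain ⟨h1, h2, h3⟩ := hz
  have h4 := abs_le.1 ((Complex.abs_re_le_norm (w - z)).trans hw)
  have h5 := abs_le.1 ((Complex.abs_im_le_norm (w - z)).trans hw)
  have h6 := abs_lt.1 h3
  simp only [Complex.sub_re, Complex.sub_im] at h4 h5
  exact ⟨by linarith [h4.1], by linarith [h4.2], abs_lt.2 ⟨by linarith [h5.1], by linarith [h5.2]⟩⟩

lemma real_mem_box {a b d x : ℝ} (hd : 0 < d) (hx : x ∈ Icc a b) : (x : ℂ) ∈ Box a b d :=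
  ⟨by simp; linarith [hx.1], by simp; linarith [hx.2], by simpa using hd⟩

lemma cauchy {a b d d' r C : ℝ} {f : ℂ → ℂ} (hr : 0 < r) (h : d + r ≤ d')
    (hf : DifferentiableOn ℂ f (Box a b d')) (hC : ∀ z ∈ Box a b d', ‖f z‖ ≤ C) {z : ℂ}
    (hz : z ∈ Box a b d) : ‖deriv f z‖ ≤ C / r := by
  have hs : Metric.closedBall z r ⊆ Box a b d' := fun w hw =>
    mem_box_of hz (mem_closedBall_iff_norm.1 hw) h
  exact Complex.norm_deriv_le_of_forall_mem_sphere_norm_le hr (hf.diffContOnCl_ball hs)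
    fun w hw => hC w (hs (Metric.sphere_subset_closedBall hw))

/-- two integrations by parts -/
lemma ibp {a b r M ε K : ℝ} (hab : a ≤ b) (hr : 0 < r) {F Θ G : ℂ → ℂ}
    (hF : DifferentiableOn ℂ F (Box a b (3 * r))) (hΘ : DifferentiableOn ℂ Θ (Box a b (3 * r)))
    (hG : ∀ x ∈ Icc a b, DifferentiableAt ℂ G x) (hGΘ : ∀ x ∈ Icc a b, deriv G x * Θ x = G x)
    (hM : ∀ z ∈ Box a b (3 * r), ‖(z - a) ^ 2 * (b - z) ^ 2 * F z‖ ≤ M)
    (hε : ∀ z ∈ Box a b (3 * r), ‖Θ z‖ ≤ ε) (hK : ∀ x ∈ Icc a b, ‖G x‖ ≤ K) :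
    ‖∫ x in a..b, ((x : ℂ) - a) ^ 2 * (b - x) ^ 2 * F x * G x‖ ≤
      M * ε / r * ε / r * K * (b - a) := by
  set u₁ : ℂ → ℂ := fun z => (z - a) ^ 2 * (b - z) ^ 2 * F z * Θ z with hu₁
  set u₂ : ℂ → ℂ := fun z => deriv u₁ z * Θ z with hu₂
  have hU := isOpen_box a b (3 * r)
  have d1 : DifferentiableOn ℂ u₁ (Box a b (3 * r)) := by fun_prop
  have d2 : DifferentiableOn ℂ u₂ (Box a b (3 * r)) := (d1.deriv hU).mul hΘ
  have hx : ∀ x ∈ Icc a b, (x : ℂ) ∈ Box a b (3 * r) := fun x hx => real_mem_box (by linarith) hx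
  have sub : Box a b (2 * r) ⊆ Box a b (3 * r) := fun z hz =>
    mem_box_of (r := 0) hz (by simp) (by linarith)
  have hM0 : 0 ≤ M := (norm_nonneg _).trans (hM a (hx a ⟨le_rfl, hab⟩))
  have hε0 : 0 ≤ ε := (norm_nonneg _).trans (hε a (hx a ⟨le_rfl, hab⟩))
  have b1 : ∀ z ∈ Box a b (2 * r), ‖u₂ z‖ ≤ M * ε / r * ε := fun z hz => by
    rw [hu₂, norm_mul]
    refine mul_le_mul (cauchy hr (by linarith) d1 (fun w hw => ?_) hz) (hε z (sub hz))
      (norm_nonneg _) (by positivity)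
    rw [hu₁, norm_mul]
    exact mul_le_mul (hM w hw) (hε w hw) (norm_nonneg _) hM0
  have b2 : ∀ x ∈ Icc a b, ‖deriv u₂ x‖ ≤ M * ε / r * ε / r := fun x hx =>
    cauchy hr (by linarith) (d2.mono sub) b1 (real_mem_box hr hx)
  have cR : ∀ f : ℂ → ℂ, (∀ x ∈ Icc a b, DifferentiableAt ℂ f x) →
      IntervalIntegrable (fun x : ℝ => f x) volume a b := fun f hf => by
    refine ContinuousOn.intervalIntegrable ?_
    rw [uIcc_of_le hab]
    exact fun x hx => ((hf x hx).continuousAt.comp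
      Complex.continuous_ofReal.continuousAt).continuousWithinAt
  have at_ : ∀ {f : ℂ → ℂ}, DifferentiableOn ℂ f (Box a b (3 * r)) → ∀ x ∈ Icc a b,
      DifferentiableAt ℂ f x := fun hf x h => hf.differentiableAt (hU.mem_nhds (hx x h))
  have i1 := cR (fun z => (z - a) ^ 2 * (b - z) ^ 2 * F z * G z) fun x h => by
    have := at_ hF x h
    have := hG x h
    fun_prop
  have i2 := cR (fun z => deriv u₂ z * G z) fun x h => (at_ (d2.deriv hU) x h).mul (hG x h)
  have ftc := intervalIntegral.integral_eq_sub_of_hasDerivAt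
    (f := fun x : ℝ => u₁ x * G x - u₂ x * G x)
    (f' := fun x : ℝ => ((x : ℂ) - a) ^ 2 * (b - x) ^ 2 * F x * G x - deriv u₂ x * G x)
    (a := a) (b := b) (fun x h => by
      rw [uIcc_of_le hab] at h
      have h1 := (((at_ d1 x h).hasDerivAt.mul (hG x h).hasDerivAt).sub
        ((at_ d2 x h).hasDerivAt.mul (hG x h).hasDerivAt)).comp_ofReal
      refine h1.congr_deriv ?_
      have e1 : u₁ x = (x - a) ^ 2 * (b - x) ^ 2 * F x * Θ x := rfl
      have e2 : u₂ x = deriv u₁ x * Θ x := rfl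
      rw [e1, e2]
      linear_combination (((x : ℂ) - a) ^ 2 * (b - x) ^ 2 * F x - deriv u₁ x) * hGΘ x h)
    (i1.sub i2)
  have ea : deriv u₁ a = 0 := by
    have h1 : DifferentiableAt ℂ (fun z : ℂ => (b - z) ^ 2 * F z * Θ z) a := by
      have := at_ hF a ⟨le_rfl, hab⟩
      have := at_ hΘ a ⟨le_rfl, hab⟩
      fun_prop
    have h2 := (((hasDerivAt_id (a : ℂ)).sub_const (a : ℂ)).pow 2).mul h1.hasDerivAt
    have e : u₁ = ((fun x : ℂ => id x - a) ^ 2) * fun z : ℂ => (b - z) ^ 2 * F z * Θ z := by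
      funext z; simp [hu₁]; ring
    rw [e, h2.deriv]; simp
  have eb : deriv u₁ b = 0 := by
    have h1 : DifferentiableAt ℂ (fun z : ℂ => (z - a) ^ 2 * F z * Θ z) b := by
      have := at_ hF b ⟨hab, le_rfl⟩
      have := at_ hΘ b ⟨hab, le_rfl⟩
      fun_prop
    have h2 := (((hasDerivAt_id (b : ℂ)).sub_const (b : ℂ)).pow 2).mul h1.hasDerivAt
    have e : u₁ = ((fun x : ℂ => id x - b) ^ 2) * fun z : ℂ => (z - a) ^ 2 * F z * Θ z := by
      funext z; simp [hu₁]; ring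
    rw [e, h2.deriv]; simp
  rw [intervalIntegral.integral_sub i1 i2] at ftc
  simp only [hu₂, ea, eb] at ftc
  simp only [hu₁, sub_self, ne_eq, OfNat.ofNat_ne_zero, not_false_eq_true, zero_pow, mul_zero,
    zero_mul] at ftc
  rw [sub_eq_zero.1 ftc]
  have := intervalIntegral.norm_integral_le_of_norm_le_const (a := a) (b := b)
    (C := M * ε / r * ε / r * K) (f := fun x : ℝ => deriv u₂ x * G x) fun x h => by
      rw [uIoc_of_le hab] at h
      rw [norm_mul]
      exact mul_le_mul (b2 x ⟨h.1.le, h.2⟩) (hK x ⟨h.1.le, h.2⟩) (norm_nonneg _) (by positivity)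
  rwa [abs_of_nonneg (sub_nonneg.2 hab)] at this

lemma sq_re_pos {q : ℝ} {x : ℂ} (hx : |x.im| < |x.re - q|) : 0 < ((x - q) ^ 2).re := by
  have := sq_lt_sq.2 hx
  simp [sq] at this ⊢
  linarith

lemma ek_deriv (s : ℂ) (q : ℝ) {x : ℂ} (hx : |x.im| < |x.re - q|) :
    HasDerivAt (ek s q) (ek s q x * (-s * (2 / (x - q)))) x := by
  have h0 : x - q ≠ 0 := fun e => by simpa [e] using sq_re_pos hx
  have h1 := ((((hasDerivAt_id x).sub_const (q : ℂ)).pow 2).clog
    (Or.inl (sq_re_pos hx))).const_mul (-s) |>.cexp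
  refine h1.congr_deriv ?_
  simp only [ek, Pi.pow_apply, id]
  congr 2
  field_simp
  simp [mul_comm]

lemma ek_conj (s : ℂ) (q : ℝ) {x : ℂ} (hx : |x.im| < |x.re - q|) :
    conj (ek s q x) = ek (conj s) q (conj x) := by
  have h1 : Complex.arg ((x - q) ^ 2) ≠ π := fun e =>
    (Complex.arg_eq_pi_iff.1 e).1.not_gt (sq_re_pos hx)
  have h2 : (conj x - q) ^ 2 = conj ((x - q) ^ 2) := by simp
  rw [ek, ek, h2, Complex.log_conj _ h1, ← Complex.exp_conj]
  simp

lemma ek_le {δ h : ℝ} (hδ : δ ∈ Ioc (0 : ℝ) 1) (hh : h ∈ Ioc 0 (δ / 8)) {s : ℂ} (h0 : 0 ≤ s.re)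
    (h3 : s.re ≤ 3) (hs : |s.im - 1 / h| ≤ 1) {q : ℝ} {x : ℂ} (hq : δ ≤ |x.re - q|)
    (hx : |x.im| ≤ 2 * h) : ‖ek s q x‖ ≤ exp (-6 * log δ + 4 * π / δ) := by
  obtain ⟨d0, d1⟩ := hδ
  obtain ⟨e0, e1⟩ := hh
  have hlt : |x.im| < |x.re - q| := by linarith
  have hn : δ ≤ ‖x - q‖ := hq.trans (by simpa using Complex.abs_re_le_norm (x - q))
  have hn0 : 0 < ‖x - q‖ := d0.trans_le hn
  rw [ek, Complex.norm_exp, exp_le_exp]
  set w := (x - q) ^ 2 with hw
  have a1 : 2 * log δ ≤ log ‖w‖ := by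
    rw [hw, norm_pow, log_pow]
    have := log_le_log d0 hn
    push_cast
    linarith
  have a2 : log δ ≤ 0 := log_nonpos d0.le d1
  have a3 : |w.arg| ≤ 2 * π * h / δ := by
    have b1 := mul_abs_le_abs_sin (Complex.abs_arg_le_pi_div_two_iff.2 (sq_re_pos hlt).le)
    rw [Complex.sin_arg, ← hw] at b1
    have b2 : |w.im / ‖w‖| ≤ 4 * h / δ := by
      have c1 : w.im = 2 * (x.re - q) * x.im := by simp [hw, sq]; ring
      have c2 : |x.re - q| ≤ ‖x - q‖ := by simpa using Complex.abs_re_le_norm (x - q)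
      rw [abs_div, abs_norm, c1, hw, norm_pow, abs_mul, abs_mul, abs_two,
        div_le_div_iff₀ (by positivity) d0]
      have c3 : |x.re - q| * |x.im| ≤ ‖x - q‖ * (2 * h) :=
        mul_le_mul c2 hx (abs_nonneg _) hn0.le
      have c4 : ‖x - q‖ * h * δ ≤ ‖x - q‖ * h * ‖x - q‖ :=
        mul_le_mul_of_nonneg_left hn (by positivity)
      nlinarith
    have b3 : |w.arg| = π / 2 * (2 / π * |w.arg|) := by field_simp
    rw [b3, show 2 * π * h / δ = π / 2 * (4 * h / δ) by ring]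
    exact mul_le_mul_of_nonneg_left (b1.trans b2) (by positivity)
  have a4 : |s.im| ≤ 2 / h := by
    have := abs_le.1 hs
    have h1 : 1 ≤ 1 / h := by rw [le_div_iff₀ e0]; linarith
    rw [show 2 / h = 1 / h + 1 / h by ring]
    exact abs_le.2 ⟨by linarith, by linarith⟩
  have a5 : s.im * w.arg ≤ 4 * π / δ := by
    refine (le_abs_self _).trans ?_
    rw [abs_mul, show 4 * π / δ = 2 / h * (2 * π * h / δ) by field_simp; norm_num]
    exact mul_le_mul a4 a3 (abs_nonneg _) (by positivity)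
  simp only [Complex.mul_re, Complex.neg_re, Complex.neg_im, Complex.log_re, Complex.log_im]
  nlinarith

end T1

open T1 in
theorem kernel_bound {δ : ℝ} (hδ : δ ∈ Ioc (0 : ℝ) 1) (B : ℝ) : ∃ C > 0, ∀ h ∈ Ioc 0 (δ / 8),
    ∀ s : ℂ, 0 ≤ s.re → s.re ≤ 3 → |s.im - 1 / h| ≤ 1 → ∀ t : ℝ, |t| ≤ 2 → ∀ a b : ℝ, -B ≤ a →
    a ≤ b → b ≤ B → ∀ q q' : ℝ, |q| ≤ B → |q'| ≤ B → (∀ x ∈ Icc a b, 2 * δ ≤ |x - q|) →
    (∀ x ∈ Icc a b, 2 * δ ≤ |x - q'|) → ∀ A A' : ℂ → ℂ, DifferentiableOn ℂ A (Box a b δ) →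
    DifferentiableOn ℂ A' (Box a b δ) → (∀ x ∈ Box a b δ, ‖A x‖ ≤ 1) →
    (∀ x ∈ Box a b δ, ‖A' x‖ ≤ 1) →
    ‖∫ x in a..b, (((x - a) ^ 2 * (b - x) ^ 2 : ℝ) : ℂ) *
      (A (x + h * t * Complex.I) * ek s q (x + h * t * Complex.I)) *
      conj (A' (x + h * t * Complex.I) * ek s q' (x + h * t * Complex.I))‖
      ≤ C / (1 + |q - q'| / h) ^ 2 := by
  obtain ⟨K, hK⟩ : ∃ K, K = exp (-6 * log δ + 4 * π / δ) := ⟨_, rfl⟩
  obtain ⟨R, hR⟩ : ∃ R, R = 2 * |B| + 2 := ⟨_, rfl⟩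
  have K0 : 0 < K := hK ▸ exp_pos _
  have R0 : 0 < R := by rw [hR]; positivity
  have d0 := hδ.1
  have d1 := hδ.2
  refine ⟨169 * (R ^ 5 * K ^ 2) + 4 * (4 * R ^ 9 * K ^ 2 * 64 / δ ^ 2), by positivity, ?_⟩
  intro h hh s s0 s3 hs t ht a b ha hab hb q q' hq hq' hxq hxq' A A' dA dA' bA bA'
  have e0 := hh.1
  have e1 := hh.2
  have hB : B ≤ |B| := le_abs_self B
  obtain ⟨y, hy⟩ : ∃ y : ℝ, y = h * t := ⟨_, rfl⟩
  have ey : (h : ℂ) * t = y := by rw [hy]; push_cast; rfl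
  have y2 : |y| ≤ 2 * h := by rw [hy, abs_mul, abs_of_pos e0]; nlinarith
  have y3 := abs_le.1 y2
  simp only [ey]
  set F : ℂ → ℂ := fun z => A (z + y * Complex.I) * conj (A' (conj z + y * Complex.I)) with hF
  set G : ℂ → ℂ := fun z => ek s q (z + y * Complex.I) * ek (conj s) q' (z - y * Complex.I) with hG
  have l1 : ∀ x ∈ Icc a b, |((x : ℂ) + y * Complex.I).im| < |((x : ℂ) + y * Complex.I).re - q| :=
    fun x hx => by have := hxq x hx; simp; linarith
  have l2 : ∀ x ∈ Icc a b, |((x : ℂ) + y * Complex.I).im| < |((x : ℂ) + y * Complex.I).re - q'| :=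
    fun x hx => by have := hxq' x hx; simp; linarith
  have l3 : ∀ x ∈ Icc a b, |((x : ℂ) - y * Complex.I).im| < |((x : ℂ) - y * Complex.I).re - q'| :=
    fun x hx => by have := hxq' x hx; simp; linarith
  have cj : ∀ x ∈ Icc a b, ek (conj s) q' (x - y * Complex.I) =
      conj (ek s q' (x + y * Complex.I)) := fun x hx => by
    rw [ek_conj s q' (l2 x hx)]; simp [sub_eq_add_neg]
  have eI : (∫ x in a..b, (((x - a) ^ 2 * (b - x) ^ 2 : ℝ) : ℂ) *
      (A (x + y * Complex.I) * ek s q (x + y * Complex.I)) *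
      conj (A' (x + y * Complex.I) * ek s q' (x + y * Complex.I))) =
      ∫ x in a..b, ((x : ℂ) - a) ^ 2 * (b - x) ^ 2 * F x * G x := by
    refine intervalIntegral.integral_congr fun x hx => ?_
    rw [uIcc_of_le hab] at hx
    simp only [hF, hG, cj x hx, map_mul, Complex.conj_ofReal]
    push_cast
    ring
  rw [eI]
  have bG : ∀ x ∈ Icc a b, ‖G x‖ ≤ K ^ 2 := fun x hx => by
    rw [hG]
    simp only [cj x hx, norm_mul, Complex.norm_conj, sq]
    have c1 := hxq x hx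
    have c2 := hxq' x hx
    exact mul_le_mul (hK ▸ ek_le hδ hh s0 s3 hs (by simp; linarith) (by simpa using y2))
      (hK ▸ ek_le hδ hh s0 s3 hs (by simp; linarith) (by simpa using y2)) (norm_nonneg _) K0.le
  have m1 : ∀ z ∈ Box a b (3 * (δ / 8)), z + y * Complex.I ∈ Box a b δ := fun z hz =>
    mem_box_of hz (r := 2 * h) (by simpa using y2) (by linarith)
  have m2 : ∀ z ∈ Box a b (3 * (δ / 8)), conj z + y * Complex.I ∈ Box a b δ := fun z hz =>
    m1 _ ⟨by simpa using hz.1, by simpa using hz.2.1, by simpa using hz.2.2⟩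
  have nb : ∀ z ∈ Box a b δ, ∀ c : ℝ, |c| ≤ |B| → ‖z - c‖ ≤ R := fun z hz c hc => by
    have c1 := abs_le.1 hc
    have c2 : |(z - c).re| ≤ 2 * |B| + 1 := by
      have := hz.1
      have := hz.2.1
      simp only [Complex.sub_re, Complex.ofReal_re]
      exact abs_le.2 ⟨by linarith, by linarith⟩
    have c3 : |(z - c).im| ≤ 1 := by simpa using hz.2.2.le.trans d1
    have := Complex.norm_le_abs_re_add_abs_im (z - c)
    linarith
  have bF : ∀ z ∈ Box a b (3 * (δ / 8)), ‖(z - a) ^ 2 * (b - z) ^ 2 * F z‖ ≤ R ^ 4 := fun z hz => by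
    have hz' : z ∈ Box a b δ := mem_box_of (r := 0) hz (by simp) (by linarith)
    have c1 := nb z hz' a (abs_le.2 ⟨by linarith, by linarith⟩)
    have c2 := nb z hz' b (abs_le.2 ⟨by linarith, by linarith⟩)
    rw [norm_sub_rev] at c2
    have c3 : ‖F z‖ ≤ 1 := by
      rw [hF]
      simp only [norm_mul, Complex.norm_conj]
      exact mul_le_one₀ (bA _ (m1 z hz)) (norm_nonneg _) (bA' _ (m2 z hz))
    rw [norm_mul, norm_mul, norm_pow, norm_pow, show R ^ 4 = R ^ 2 * R ^ 2 * 1 by ring]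
    gcongr
  have ba : b - a ≤ R := by linarith
  obtain ⟨D, hD⟩ : ∃ D, D = |q - q'| / h := ⟨_, rfl⟩
  have D0 : 0 ≤ D := by rw [hD]; positivity
  rw [← hD, le_div_iff₀ (by positivity)]
  rcases le_total D 12 with hD12 | hD12
  · have := intervalIntegral.norm_integral_le_of_norm_le_const (a := a) (b := b)
      (C := R ^ 4 * K ^ 2) (f := fun x : ℝ => ((x : ℂ) - a) ^ 2 * (b - x) ^ 2 * F x * G x)
      fun x hx => by
        rw [uIoc_of_le hab] at hx
        rw [norm_mul]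
        exact mul_le_mul (bF x (real_mem_box (by positivity) ⟨hx.1.le, hx.2⟩))
          (bG x ⟨hx.1.le, hx.2⟩) (norm_nonneg _) (by positivity)
    rw [abs_of_nonneg (sub_nonneg.2 hab)] at this
    refine le_trans ?_ (le_add_of_nonneg_right (by positivity))
    calc _ ≤ R ^ 4 * K ^ 2 * R * 13 ^ 2 := by
          gcongr
          · exact this.trans (by gcongr)
          · linarith
      _ = _ := by ring
  · have D1 : 0 < D := by linarith
    set N : ℂ → ℂ := fun z => s * (z - y * Complex.I - q') + conj s * (z + y * Complex.I - q)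
      with hN
    have bN : ∀ z ∈ Box a b (3 * (δ / 8)), D / 4 ≤ ‖N z‖ := fun z hz => by
      refine le_trans ?_ (Complex.abs_im_le_norm _)
      have c1 : (N z).im = s.im * (q - q') + 2 * s.re * z.im := by simp [hN]; ring
      have c2 : 1 / (2 * h) ≤ s.im := by
        have c3 := (abs_le.1 hs).1
        have c4 : 1 ≤ 1 / (2 * h) := by rw [le_div_iff₀ (by positivity)]; linarith
        have c5 : 1 / h = 1 / (2 * h) + 1 / (2 * h) := by field_simp; norm_num
        linarith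
      have c6 : D / 2 ≤ |s.im * (q - q')| := by
        rw [abs_mul, hD, show |q - q'| / h / 2 = 1 / (2 * h) * |q - q'| by field_simp]
        exact mul_le_mul_of_nonneg_right (c2.trans (le_abs_self _)) (abs_nonneg _)
      have c7 : |2 * s.re * z.im| ≤ 3 := by
        rw [abs_mul, abs_of_nonneg (by positivity)]
        have := hz.2.2
        nlinarith [abs_nonneg z.im]
      have := abs_add_le (s.im * (q - q') + 2 * s.re * z.im) (-(2 * s.re * z.im))
      rw [abs_neg, add_neg_cancel_right] at this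
      rw [c1]
      linarith
    have N0 : ∀ z ∈ Box a b (3 * (δ / 8)), N z ≠ 0 := fun z hz =>
      norm_pos_iff.1 (lt_of_lt_of_le (by positivity) (bN z hz))
    have key := ibp (M := R ^ 4) (ε := 2 * R ^ 2 / D) (K := K ^ 2) (r := δ / 8) (F := F) (G := G)
      (Θ := fun z => -((z + y * Complex.I - q) * (z - y * Complex.I - q')) / (2 * N z)) hab
      (by positivity) ?_ ?_ ?_ ?_ bF ?_ bG
    · refine le_trans ?_ (le_add_of_nonneg_left (by positivity))
      calc _ ≤ R ^ 4 * (2 * R ^ 2 / D) / (δ / 8) * (2 * R ^ 2 / D) / (δ / 8) * K ^ 2 * R *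
            (2 * D) ^ 2 := by
            gcongr
            · exact key.trans (by gcongr)
            · linarith
        _ = _ := by field_simp; norm_num
    · refine DifferentiableOn.mul (dA.comp (by fun_prop) m1) fun z hz => ?_
      have c1 : DifferentiableAt ℂ (fun w => A' (w + y * Complex.I)) (conj z) :=
        (dA'.differentiableAt ((isOpen_box _ _ _).mem_nhds (m2 z hz))).comp (conj z) (by fun_prop)
      have c2 := c1.conj_conj
      rw [Complex.conj_conj] at c2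
      exact c2.differentiableWithinAt
    · refine DifferentiableOn.div (by fun_prop) (by rw [hN]; fun_prop) fun z hz => ?_
      exact mul_ne_zero two_ne_zero (N0 z hz)
    · intro x hx
      exact (((ek_deriv s q (l1 x hx)).comp_add_const (x : ℂ) _).mul
        ((ek_deriv (conj s) q' (l3 x hx)).comp_sub_const (x : ℂ) _)).differentiableAt
    · intro x hx
      have c1 := ((ek_deriv s q (l1 x hx)).comp_add_const (x : ℂ) _).mul
        ((ek_deriv (conj s) q' (l3 x hx)).comp_sub_const (x : ℂ) _)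
      have c2 : (x : ℂ) + y * Complex.I - q ≠ 0 := fun e => by simpa [e] using sq_re_pos (l1 x hx)
      have c3 : (x : ℂ) - y * Complex.I - q' ≠ 0 := fun e => by simpa [e] using sq_re_pos (l3 x hx)
      have c4 := N0 x (real_mem_box (by positivity) hx)
      rw [show deriv G x = _ from c1.deriv]
      have c5 : N x = s * (x - y * Complex.I - q') + conj s * (x + y * Complex.I - q) := rfl
      simp only [hG]
      generalize N x = n at c4 c5 ⊢
      generalize (x : ℂ) + y * Complex.I - q = u at c2 c5 ⊢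
      generalize (x : ℂ) - y * Complex.I - q' = v at c3 c5 ⊢
      field_simp
      rw [c5]
      ring
    · intro z hz
      have c1 := nb _ (m1 z hz) q (hq.trans hB)
      have c2 : ‖z - y * Complex.I - q'‖ ≤ R := by
        have := nb _ (m2 z hz) q' (hq'.trans hB)
        rw [← Complex.norm_conj] at this
        simpa [sub_eq_add_neg] using this
      have c3 := bN z hz
      rw [norm_div, norm_neg, norm_mul, norm_mul, Complex.norm_two,
        show 2 * R ^ 2 / D = R * R / (2 * (D / 4)) by field_simp; norm_num]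
      gcongr

theorem ek_bound {δ : ℝ} (hδ : δ ∈ Ioc (0 : ℝ) 1) (B : ℝ) : ∃ C > 0, ∀ h ∈ Ioc 0 (δ / 8),
    ∀ s : ℂ, 0 ≤ s.re → s.re ≤ 3 → |s.im - 1 / h| ≤ 1 → ∀ (q : ℝ) (x : ℂ), δ ≤ |x.re - q| →
    |x.re - q| ≤ B → |x.im| ≤ 2 * h → ‖ek s q x‖ ≤ C :=
  ⟨_, exp_pos _, fun _ hh _ h0 h3 hs _ _ hq _ hx => T1.ek_le hδ hh h0 h3 hs hq hx⟩

theorem ek_diff (s : ℂ) (q : ℝ) {x : ℂ} (hx : |x.im| < |x.re - q|) :
    DifferentiableAt ℂ (ek s q) x := (T1.ek_deriv s q hx).differentiableAt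

end Pool.Agent.Lib.MP_e1e19a_an
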