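import Pool.Agent.Lib.MP_e1e19a_an.N.T1

/-!
Schur test and large sieve.
-/

namespace Pool.Agent.Lib.MP_e1e19a_an

open Real MeasureTheory Set
open scoped MatrixGroups ComplexConjugate UpperHalfPlane

namespace T1b

lemma tele {a ϱ : ℝ} (ha : 1 ≤ a) (h0 : 0 < ϱ) (h1 : ϱ ≤ 1) (N : ℕ) :
    ∑ m ∈ Finset.range N, 1 / (a + ϱ * m) ^ 2 ≤ 2 / ϱ * (1 / a - 1 / (a + ϱ * N)) := by
  induction N with
  | zero => simp
  | succ N ih =>
    rw [Finset.sum_range_succ]
    have hN : (0 : ℝ) ≤ ϱ * N := by positivity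
    have h2 : 0 < a + ϱ * N := by linarith
    have h3 : 1 / (a + ϱ * N) ^ 2 ≤ 2 / ϱ * (1 / (a + ϱ * N) - 1 / (a + ϱ * N + ϱ)) := by
      have e : 2 / ϱ * (1 / (a + ϱ * N) - 1 / (a + ϱ * N + ϱ)) =
          2 / ((a + ϱ * N) * (a + ϱ * N + ϱ)) := by
        field_simp
        ring
      rw [e, div_le_div_iff₀ (by positivity) (by positivity)]
      nlinarith
    push_cast
    rw [show a + ϱ * (N + 1) = a + ϱ * N + ϱ by ring]
    linarith

lemma one_side {ι : Type} [Fintype ι] {u : ι → ℝ} {ϱ T : ℝ} (h0 : 0 < ϱ) (h1 : ϱ ≤ 1) (hT : 0 ≤ T)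
    (hs : Sep u ϱ) : ∑ j, (if T ≤ u j then 1 / (1 + u j) ^ 2 else 0) ≤ 2 / (ϱ * (1 + T)) := by
  classical
  rw [← Finset.sum_filter]
  set S := Finset.univ.filter fun j => T ≤ u j with hS
  let m : ι → ℕ := fun j => ⌊(u j - T) / ϱ⌋₊
  have hm : ∀ j ∈ S, ϱ * m j ≤ u j - T ∧ u j - T < ϱ * m j + ϱ := by
    intro j hj
    have h2 : T ≤ u j := (Finset.mem_filter.1 hj).2
    have h3 := Nat.floor_le (a := (u j - T) / ϱ) (div_nonneg (by linarith) h0.le)
    have h4 := Nat.lt_floor_add_one ((u j - T) / ϱ)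
    rw [le_div_iff₀ h0] at h3
    rw [div_lt_iff₀ h0] at h4
    exact ⟨by linarith, by linarith⟩
  have hinj : Set.InjOn m S := by
    intro i hi j hj e
    by_contra hne
    have h2 := hs i j hne
    obtain ⟨h3, h4⟩ := hm i hi
    obtain ⟨h5, h6⟩ := hm j hj
    rw [e] at h3 h4
    exact absurd (abs_lt.2 ⟨by linarith, by linarith⟩) (not_lt.2 h2)
  obtain ⟨N, hN⟩ : ∃ N, S.image m ⊆ Finset.range N := Finset.exists_nat_subset_range _
  calc ∑ j ∈ S, 1 / (1 + u j) ^ 2 ≤ ∑ j ∈ S, 1 / (1 + T + ϱ * m j) ^ 2 := by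
        refine Finset.sum_le_sum fun j hj => ?_
        have h2 := (hm j hj).1
        have h3 : 0 < 1 + T + ϱ * m j := by positivity
        exact one_div_le_one_div_of_le (by positivity) (pow_le_pow_left₀ h3.le (by linarith) 2)
    _ = ∑ k ∈ S.image m, 1 / (1 + T + ϱ * k) ^ 2 :=
        (Finset.sum_image (f := fun k : ℕ => 1 / (1 + T + ϱ * k) ^ 2) hinj).symm
    _ ≤ ∑ k ∈ Finset.range N, 1 / (1 + T + ϱ * k) ^ 2 :=
        Finset.sum_le_sum_of_subset_of_nonneg hN fun _ _ _ => by positivity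
    _ ≤ 2 / ϱ * (1 / (1 + T) - 1 / (1 + T + ϱ * N)) := tele (by linarith) h0 h1 N
    _ ≤ 2 / ϱ * (1 / (1 + T)) := by
        have : 0 ≤ 1 / (1 + T + ϱ * N) := by positivity
        exact mul_le_mul_of_nonneg_left (by linarith) (by positivity)
    _ = 2 / (ϱ * (1 + T)) := by field_simp

lemma row {ι : Type} [Fintype ι] {q : ι → ℝ} {h ϱ T : ℝ} (hh : 0 < h) (h0 : 0 < ϱ) (h1 : ϱ ≤ 1)
    (hT : 0 ≤ T) (hs : Sep q (ϱ * h)) (x : ℝ) :
    ∑ j, (if T * h ≤ |x - q j| then 1 / (1 + |x - q j| / h) ^ 2 else 0) ≤ 4 / (ϱ * (1 + T)) := by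
  have s1 : Sep (fun j => (x - q j) / h) ϱ := fun i j hij => by
    have := hs j i hij.symm
    rw [← sub_div, abs_div, abs_of_pos hh, le_div_iff₀ hh, show x - q i - (x - q j) = q j - q i by
      ring]
    exact this
  have s2 : Sep (fun j => (q j - x) / h) ϱ := fun i j hij => by
    have := hs i j hij
    rw [← sub_div, abs_div, abs_of_pos hh, le_div_iff₀ hh, show q i - x - (q j - x) = q i - q j by
      ring]
    exact this
  have b1 := one_side h0 h1 hT s1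
  have b2 := one_side h0 h1 hT s2
  rw [show 4 / (ϱ * (1 + T)) = 2 / (ϱ * (1 + T)) + 2 / (ϱ * (1 + T)) by ring]
  refine le_trans ?_ (add_le_add b1 b2)
  rw [← Finset.sum_add_distrib]
  refine Finset.sum_le_sum fun j _ => ?_
  have p1 : (0 : ℝ) ≤ if T ≤ (x - q j) / h then 1 / (1 + (x - q j) / h) ^ 2 else 0 := by
    split_ifs <;> positivity
  have p2 : (0 : ℝ) ≤ if T ≤ (q j - x) / h then 1 / (1 + (q j - x) / h) ^ 2 else 0 := by
    split_ifs <;> positivity
  by_cases hc : T * h ≤ |x - q j|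
  · rw [if_pos hc]
    rcases le_total 0 (x - q j) with e | e
    · rw [abs_of_nonneg e] at hc ⊢
      rw [if_pos ((le_div_iff₀ hh).2 hc)]
      linarith
    · rw [abs_of_nonpos e, neg_sub] at hc ⊢
      rw [if_pos ((le_div_iff₀ hh).2 hc)]
      linarith
  · rw [if_neg hc]
    linarith

end T1b

theorem schur : ∃ C > 0, ∀ (ι : Type) [Fintype ι] (q : ι → ℝ) (h ϱ T : ℝ), 0 < h →
    ϱ ∈ Ioc (0 : ℝ) 1 → 0 ≤ T → Sep q (ϱ * h) → ∀ c : ι → ℝ, (∀ i, 0 ≤ c i) →
    ∑ i, ∑ j, (if T * h ≤ |q i - q j| then c i * c j / (1 + |q i - q j| / h) ^ 2 else 0)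
      ≤ C / (ϱ * (1 + T)) * ∑ i, c i ^ 2 := by
  refine ⟨4, by norm_num, fun ι _ q h ϱ T hh hϱ hT hs c _ => ?_⟩
  let K : ι → ι → ℝ := fun i j => if T * h ≤ |q i - q j| then 1 / (1 + |q i - q j| / h) ^ 2 else 0
  have hK : ∀ i j, 0 ≤ K i j := fun i j => by
    simp only [K]
    split_ifs <;> positivity
  have hsym : ∀ i j, K i j = K j i := fun i j => by simp only [K, abs_sub_comm (q i) (q j)]
  have hrow : ∀ i, ∑ j, K i j ≤ 4 / (ϱ * (1 + T)) := fun i => T1b.row hh hϱ.1 hϱ.2 hT hs (q i)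
  calc ∑ i, ∑ j, (if T * h ≤ |q i - q j| then c i * c j / (1 + |q i - q j| / h) ^ 2 else 0)
      = ∑ i, ∑ j, K i j * (c i * c j) := by
        refine Finset.sum_congr rfl fun i _ => Finset.sum_congr rfl fun j _ => ?_
        simp only [K]
        split_ifs <;> ring
    _ ≤ ∑ i, ∑ j, (K i j * (c i ^ 2 / 2) + K j i * (c j ^ 2 / 2)) := by
        refine Finset.sum_le_sum fun i _ => Finset.sum_le_sum fun j _ => ?_
        rw [← hsym i j, ← mul_add]
        exact mul_le_mul_of_nonneg_left (by nlinarith [sq_nonneg (c i - c j)]) (hK i j)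
    _ = ∑ i, (∑ j, K i j) * c i ^ 2 := by
        simp only [Finset.sum_add_distrib]
        rw [Finset.sum_comm (f := fun i j => K j i * (c j ^ 2 / 2)), ← Finset.sum_add_distrib]
        refine Finset.sum_congr rfl fun i _ => ?_
        rw [← Finset.sum_mul]
        ring
    _ ≤ ∑ i, 4 / (ϱ * (1 + T)) * c i ^ 2 :=
        Finset.sum_le_sum fun i _ => mul_le_mul_of_nonneg_right (hrow i) (sq_nonneg _)
    _ = 4 / (ϱ * (1 + T)) * ∑ i, c i ^ 2 := by rw [Finset.mul_sum]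

namespace T1b

lemma expand {ι : Type} [Fintype ι] {a b : ℝ} (hab : a ≤ b) {w : ℝ → ℝ} (hw : Continuous w)
    {f : ι → ℝ → ℂ} (hf : ∀ i, ContinuousOn (f i) (Icc a b)) :
    ∫ x in a..b, w x * ‖∑ i, f i x‖ ^ 2 ≤
      ∑ i, ∑ j, ‖∫ x in a..b, (w x : ℂ) * f i x * conj (f j x)‖ := by
  have hint : ∀ i j, IntervalIntegrable (fun x => (w x : ℂ) * f i x * conj (f j x)) volume a b := by
    intro i j
    refine ContinuousOn.intervalIntegrable_of_Icc hab ?_
    exact ((Complex.continuous_ofReal.comp hw).continuousOn.mul (hf i)).mul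
      (Complex.continuous_conj.comp_continuousOn (hf j))
  have e : ((∫ x in a..b, w x * ‖∑ i, f i x‖ ^ 2 : ℝ) : ℂ) =
      ∑ i, ∑ j, ∫ x in a..b, (w x : ℂ) * f i x * conj (f j x) := by
    rw [← intervalIntegral.integral_ofReal]
    have e1 : ∀ i, ∑ j, ∫ x in a..b, (w x : ℂ) * f i x * conj (f j x) =
        ∫ x in a..b, ∑ j, (w x : ℂ) * f i x * conj (f j x) := fun i =>
      (intervalIntegral.integral_finsetSum fun j _ => hint i j).symm
    simp only [e1]
    rw [← intervalIntegral.integral_finsetSum fun i _ => by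
      have := IntervalIntegrable.sum Finset.univ fun j _ => hint i j
      rwa [Finset.sum_fn] at this]
    refine intervalIntegral.integral_congr fun x _ => ?_
    rw [Complex.ofReal_mul, Complex.ofReal_pow, ← Complex.mul_conj', map_sum, Finset.sum_mul_sum,
      Finset.mul_sum]
    refine Finset.sum_congr rfl fun i _ => ?_
    rw [Finset.mul_sum]
    exact Finset.sum_congr rfl fun j _ => by ring
  refine (le_abs_self _).trans ?_
  rw [← Real.norm_eq_abs, ← Complex.norm_real, e]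
  exact (norm_sum_le _ _).trans (Finset.sum_le_sum fun i _ => norm_sum_le _ _)

lemma weight {a b κ : ℝ} (hab : a ≤ b) (hκ : 0 < κ) {g : ℝ → ℝ} (hg : ContinuousOn g (Icc a b))
    (h0 : ∀ x, 0 ≤ g x) {U : Set ℝ} (hU : MeasurableSet U)
    (hs : ∀ x ∈ U, κ ≤ x - a ∧ κ ≤ b - x) :
    ∫ x in U, g x ≤ (κ ^ 4)⁻¹ * ∫ x in a..b, (x - a) ^ 2 * (b - x) ^ 2 * g x := by
  have hsub : U ⊆ Ioc a b := fun x hx => ⟨by linarith [(hs x hx).1], by linarith [(hs x hx).2]⟩
  have hw : ContinuousOn (fun x => (κ ^ 4)⁻¹ * ((x - a) ^ 2 * (b - x) ^ 2 * g x)) (Icc a b) :=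
    continuousOn_const.mul ((by fun_prop : Continuous fun x : ℝ =>
      (x - a) ^ 2 * (b - x) ^ 2).continuousOn.mul hg)
  have i1 : IntegrableOn g (Ioc a b) := hg.integrableOn_Icc.mono_set Ioc_subset_Icc_self
  have i2 := hw.integrableOn_Icc.mono_set (Ioc_subset_Icc_self (a := a) (b := b)) (μ := volume)
  rw [← intervalIntegral.integral_const_mul, intervalIntegral.integral_of_le hab]
  refine le_trans (setIntegral_mono_on (i1.mono_set hsub) (i2.mono_set hsub) hU fun x hx => ?_)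
    (setIntegral_mono_set i2 (Filter.Eventually.of_forall fun x => ?_) hsub.eventuallyLE)
  · obtain ⟨h1, h2⟩ := hs x hx
    have h3 : κ ^ 4 ≤ (x - a) ^ 2 * (b - x) ^ 2 := by
      rw [show κ ^ 4 = κ ^ 2 * κ ^ 2 by ring]
      exact mul_le_mul (pow_le_pow_left₀ hκ.le h1 2) (pow_le_pow_left₀ hκ.le h2 2)
        (by positivity) (by positivity)
    rw [inv_mul_eq_div, le_div_iff₀ (by positivity), mul_comm]
    exact mul_le_mul_of_nonneg_right h3 (h0 x)
  · have := h0 x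
    positivity

end T1b

theorem large_sieve {δ : ℝ} (hδ : δ ∈ Ioc (0 : ℝ) 1) (B : ℝ) : ∃ C > 0, ∀ h ∈ Ioc 0 (δ / 16),
    ∀ ϱ ∈ Ioc (0 : ℝ) 1, ∀ s : ℂ, 0 ≤ s.re → s.re ≤ 3 → |s.im - 1 / h| ≤ 1 → ∀ t : ℝ, |t| ≤ 2 →
    ∀ a b : ℝ, -B ≤ a → a ≤ b → b ≤ B → ∀ X ⊆ Icc a b, ∀ (ι : Type) [Fintype ι] (q : ι → ℝ),
    (∀ i, |q i| ≤ B) → (∀ i, ∀ x ∈ Icc a b, 2 * δ ≤ |x - q i|) → Sep q (ϱ * h) →
    ∀ A : ι → ℂ → ℂ, (∀ i, DifferentiableOn ℂ (A i) (Box a b δ)) →
    ∀ c : ι → ℝ, (∀ i, ∀ x ∈ Box a b δ, ‖A i x‖ ≤ c i) →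
    ∫ x in Metric.thickening (3 * h) X,
      ‖∑ i, A i (x + h * t * Complex.I) * ek s (q i) (x + h * t * Complex.I)‖ ^ 2
      ≤ C / ϱ * ∑ i, c i ^ 2 := by
  obtain ⟨hδ0, hδ1⟩ := hδ
  obtain ⟨C₁, hC₁, hK⟩ := kernel_bound (δ := δ / 2) ⟨by linarith, by linarith⟩ (B + 1)
  obtain ⟨C₂, hC₂, hS⟩ := schur
  refine ⟨((δ / 4) ^ 4)⁻¹ * C₁ * C₂, by positivity, ?_⟩
  intro h hh ϱ hϱ s hs0 hs3 hs t ht a b ha hab hb X hX ι _ q hq hfar hsep A hA c hc
  obtain ⟨hh0, hh1⟩ := hh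
  have hab' : a - δ / 2 ≤ b + δ / 2 := by linarith
  have hbox : Box (a - δ / 2) (b + δ / 2) (δ / 2) ⊆ Box a b δ := fun z hz =>
    ⟨by linarith [hz.1], by linarith [hz.2.1], by linarith [hz.2.2]⟩
  have hfar' : ∀ i, ∀ x ∈ Icc (a - δ / 2) (b + δ / 2), 2 * (δ / 2) ≤ |x - q i| := by
    intro i x hx
    obtain ⟨y, hy, hxy⟩ : ∃ y ∈ Icc a b, |y - x| ≤ δ / 2 := by
      rcases le_total x a with h1 | h1
      · exact ⟨a, ⟨le_rfl, hab⟩, abs_le.2 ⟨by linarith, by linarith [hx.1]⟩⟩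
      rcases le_total x b with h2 | h2
      · exact ⟨x, ⟨h1, h2⟩, by rw [sub_self, abs_zero]; linarith⟩
      · exact ⟨b, ⟨hab, le_rfl⟩, abs_le.2 ⟨by linarith [hx.2], by linarith⟩⟩
    have h1 := hfar i y hy
    have h2 := abs_sub_le y x (q i)
    linarith
  have him : |h * t| ≤ δ / 8 := by
    rw [abs_mul, abs_of_pos hh0]
    nlinarith [abs_nonneg t]
  have hre : ∀ x : ℝ, ((x : ℂ) + h * t * Complex.I).re = x := fun x => by simp
  have him' : ∀ x : ℝ, ((x : ℂ) + h * t * Complex.I).im = h * t := fun x => by simp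
  have hmem : ∀ x ∈ Icc (a - δ / 2) (b + δ / 2), (x : ℂ) + h * t * Complex.I ∈ Box a b δ := by
    intro x hx
    refine ⟨?_, ?_, ?_⟩
    · rw [hre]; linarith [hx.1]
    · rw [hre]; linarith [hx.2]
    · rw [him']; linarith
  have hc0 : ∀ i, 0 ≤ c i := fun i =>
    (norm_nonneg _).trans (hc i _ (hmem a ⟨by linarith, by linarith⟩))
  have hline : Continuous fun x : ℝ => (x : ℂ) + h * t * Complex.I := by fun_prop
  let f : ι → ℝ → ℂ := fun i x =>
    A i (x + h * t * Complex.I) * ek s (q i) (x + h * t * Complex.I)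
  have hf : ∀ i, ContinuousOn (f i) (Icc (a - δ / 2) (b + δ / 2)) := by
    intro i
    refine ((hA i).continuousOn.comp hline.continuousOn hmem).mul fun x hx => ?_
    have h1 : DifferentiableAt ℂ (ek s (q i)) (x + h * t * Complex.I) := by
      refine ek_diff s (q i) ?_
      rw [hre, him']
      linarith [hfar' i x hx]
    exact (ContinuousAt.comp (f := fun x : ℝ => (x : ℂ) + h * t * Complex.I) h1.continuousAt
      hline.continuousAt).continuousWithinAt
  have hn : ∀ i, ∀ z ∈ Box a b δ, ‖A i z / c i‖ ≤ 1 := fun i z hz => by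
    rw [norm_div, Complex.norm_real, Real.norm_of_nonneg (hc0 i)]
    exact div_le_one_of_le₀ (hc i z hz) (hc0 i)
  have hmul : ∀ i, ∀ z ∈ Box a b δ, A i z = c i * (A i z / c i) := fun i z hz => by
    by_cases h0 : c i = 0
    · have := hc i z hz
      rw [h0, norm_le_zero_iff] at this
      simp [this]
    · rw [mul_div_cancel₀ _ (Complex.ofReal_ne_zero.2 h0)]
  have hpair : ∀ i j, ‖∫ x in (a - δ / 2)..(b + δ / 2),
      (((x - (a - δ / 2)) ^ 2 * (b + δ / 2 - x) ^ 2 : ℝ) : ℂ) * f i x * conj (f j x)‖ ≤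
        C₁ * (c i * c j / (1 + |q i - q j| / h) ^ 2) := by
    intro i j
    have k := hK h ⟨hh0, by linarith⟩ s hs0 hs3 hs t ht (a - δ / 2) (b + δ / 2) (by linarith) hab'
      (by linarith) (q i) (q j) (by linarith [hq i]) (by linarith [hq j]) (hfar' i) (hfar' j)
      (fun z => A i z / c i) (fun z => A j z / c j) (((hA i).mono hbox).div_const _)
      (((hA j).mono hbox).div_const _) (fun z hz => hn i z (hbox hz)) (fun z hz => hn j z (hbox hz))
    have k2 := mul_le_mul_of_nonneg_left k (mul_nonneg (hc0 i) (hc0 j))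
    rw [← Real.norm_of_nonneg (mul_nonneg (hc0 i) (hc0 j)), ← Complex.norm_real, ← norm_mul,
      ← intervalIntegral.integral_const_mul, Complex.norm_real,
      Real.norm_of_nonneg (mul_nonneg (hc0 i) (hc0 j))] at k2
    refine le_trans (le_of_eq ?_) (k2.trans (le_of_eq (by ring)))
    congr 1
    refine intervalIntegral.integral_congr fun x hx => ?_
    rw [uIcc_of_le hab'] at hx
    simp only [f]
    conv_lhs => rw [hmul i _ (hmem x hx), hmul j _ (hmem x hx)]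
    simp only [map_mul, Complex.conj_ofReal, Complex.ofReal_mul]
    ring
  have h1 := T1b.weight hab' (κ := δ / 4) (by linarith) (g := fun x => ‖∑ i, f i x‖ ^ 2)
    ((continuousOn_finsetSum _ fun i _ => hf i).norm.pow 2) (fun x => by positivity)
    (U := Metric.thickening (3 * h) X) Metric.isOpen_thickening.measurableSet (by
      intro x hx
      obtain ⟨y, hy, hxy⟩ := Metric.mem_thickening_iff.1 hx
      obtain ⟨h1, h2⟩ := hX hy
      rw [Real.dist_eq, abs_lt] at hxy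
      exact ⟨by linarith [hxy.1], by linarith [hxy.2]⟩)
  have h2 := T1b.expand hab' (w := fun x => (x - (a - δ / 2)) ^ 2 * (b + δ / 2 - x) ^ 2)
    (by fun_prop) hf
  have h3 := hS ι q h ϱ 0 hh0 hϱ le_rfl hsep c hc0
  simp only [zero_mul, abs_nonneg, if_true, add_zero, mul_one] at h3
  have h4 : ∑ i, ∑ j, ‖∫ x in (a - δ / 2)..(b + δ / 2),
      (((x - (a - δ / 2)) ^ 2 * (b + δ / 2 - x) ^ 2 : ℝ) : ℂ) * f i x * conj (f j x)‖ ≤
        C₁ * (C₂ / ϱ * ∑ i, c i ^ 2) := by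
    refine le_trans (Finset.sum_le_sum fun i _ => Finset.sum_le_sum fun j _ => hpair i j) ?_
    simp only [← Finset.mul_sum]
    exact mul_le_mul_of_nonneg_left h3 hC₁.le
  refine h1.trans ((mul_le_mul_of_nonneg_left (h2.trans h4) (by positivity)).trans (le_of_eq ?_))
  ring

end Pool.Agent.Lib.MP_e1e19a_an
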