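import Pool.Agent.Lib.MP_e1e19a_an.N.Core

/-!
Covering by weights and splitting into clusters.
-/

namespace Pool.Agent.Lib.MP_e1e19a_an

open Real MeasureTheory Set
open scoped ComplexConjugate

namespace T2

lemma normSq_sum {ι : Type} (s : Finset ι) (z : ι → ℂ) :
    ‖∑ i ∈ s, z i‖ ^ 2 = ∑ i ∈ s, ∑ j ∈ s, (z i * conj (z j)).re := by
  have h : ((‖∑ i ∈ s, z i‖ ^ 2 : ℝ) : ℂ) = ∑ i ∈ s, ∑ j ∈ s, z i * conj (z j) := by
    rw [← Finset.sum_mul_sum, ← map_sum, Complex.mul_conj']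
    push_cast
    rfl
  have h2 := congrArg Complex.re h
  rw [Complex.ofReal_re, Complex.re_sum] at h2
  rw [h2]
  exact Finset.sum_congr rfl fun i _ => Complex.re_sum _ _

lemma normSq_split {ι : Type} [Fintype ι] (J : ι → ℤ) (z : ι → ℂ) :
    ‖∑ i, z i‖ ^ 2 = ∑ m ∈ Finset.univ.image J, ‖∑ i with J i = m, z i‖ ^ 2 +
      ∑ i, ∑ j, if J i = J j then 0 else (z i * conj (z j)).re := by
  have h1 : ∑ m ∈ Finset.univ.image J, ‖∑ i with J i = m, z i‖ ^ 2 =
      ∑ i, ∑ j, if J i = J j then (z i * conj (z j)).re else 0 := by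
    rw [← Finset.sum_fiberwise_of_maps_to (s := Finset.univ) (t := Finset.univ.image J) (g := J)
      (fun i hi => Finset.mem_image_of_mem J hi)]
    refine Finset.sum_congr rfl fun m _ => ?_
    rw [normSq_sum]
    refine Finset.sum_congr rfl fun i hi => ?_
    rw [Finset.sum_filter]
    refine Finset.sum_congr rfl fun j _ => ?_
    rw [(Finset.mem_filter.1 hi).2]
    simp only [eq_comm]
  rw [h1, normSq_sum, ← Finset.sum_add_distrib]
  refine Finset.sum_congr rfl fun i _ => ?_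
  rw [← Finset.sum_add_distrib]
  refine Finset.sum_congr rfl fun j _ => ?_
  split_ifs <;> simp

lemma cont_sq {ι : Type} (s : Finset ι) (c : ι → ℂ) {g : ι → ℝ → ℂ} {I : Set ℝ}
    (hg : ∀ i, ContinuousOn (g i) I) : ContinuousOn (fun x => ‖∑ i ∈ s, c i * g i x‖ ^ 2) I :=
  (continuousOn_finsetSum s fun i _ => continuousOn_const.mul (hg i)).norm.pow 2

lemma expand {ι : Type} [Fintype ι] (J : ι → ℤ) (c : ι → ℂ) {g : ι → ℝ → ℂ} {α β : ℝ}
    (hαβ : α ≤ β) (hg : ∀ i, ContinuousOn (g i) (Icc α β)) {w : ℝ → ℝ} (hw : Continuous w)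
    {k : ι → ι → ℝ} (hk : ∀ i j, ‖∫ x in α..β, (w x : ℂ) * g i x * conj (g j x)‖ ≤ k i j) :
    ∫ x in α..β, w x * ‖∑ i, c i * g i x‖ ^ 2 ≤
      ∑ m ∈ Finset.univ.image J, (∫ x in α..β, w x * ‖∑ i with J i = m, c i * g i x‖ ^ 2) +
        ∑ i, ∑ j, if J i = J j then 0 else ‖c i‖ * ‖c j‖ * k i j := by
  have hI : uIcc α β = Icc α β := uIcc_of_le hαβ
  have hK : ∀ i j, ContinuousOn (fun x => (w x : ℂ) * g i x * conj (g j x)) (Icc α β) :=
    fun i j => ((Complex.continuous_ofReal.comp hw).continuousOn.mul (hg i)).mul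
      (Complex.continuous_conj.comp_continuousOn (hg j))
  set P : ι → ι → ℝ → ℝ := fun i j x => if J i = J j then 0 else
    (c i * conj (c j) * ((w x : ℂ) * g i x * conj (g j x))).re with hP
  have hPc : ∀ i j, ContinuousOn (P i j) (Icc α β) := fun i j => by
    by_cases h : J i = J j
    · simp only [hP, h, if_true]
      exact continuousOn_const
    · simp only [hP, h, if_false]
      exact Complex.continuous_re.comp_continuousOn (continuousOn_const.mul (hK i j))
  have e : ∀ x, w x * ‖∑ i, c i * g i x‖ ^ 2 =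
      ∑ m ∈ Finset.univ.image J, w x * ‖∑ i with J i = m, c i * g i x‖ ^ 2 +
        ∑ i, ∑ j, P i j x := fun x => by
    rw [normSq_split J, mul_add, Finset.mul_sum, Finset.mul_sum]
    congr 1
    refine Finset.sum_congr rfl fun i _ => ?_
    rw [Finset.mul_sum]
    refine Finset.sum_congr rfl fun j _ => ?_
    simp only [hP]
    split_ifs
    · simp
    · rw [← Complex.re_ofReal_mul, map_mul]
      congr 1
      ring
  have i1 : ∀ m, IntervalIntegrable (fun x => w x * ‖∑ i with J i = m, c i * g i x‖ ^ 2)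
      volume α β := fun m =>
    ContinuousOn.intervalIntegrable (hI ▸ hw.continuousOn.mul (cont_sq _ c hg))
  have i2 : ∀ i j, IntervalIntegrable (P i j) volume α β := fun i j =>
    ContinuousOn.intervalIntegrable (hI ▸ hPc i j)
  have i3 : ∀ i, IntervalIntegrable (fun x => ∑ j, P i j x) volume α β := fun i =>
    ContinuousOn.intervalIntegrable (hI ▸ continuousOn_finsetSum _ fun j _ => hPc i j)
  simp only [e]
  rw [intervalIntegral.integral_add
    (ContinuousOn.intervalIntegrable (hI ▸ continuousOn_finsetSum _ fun m _ =>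
      hw.continuousOn.mul (cont_sq _ c hg)))
    (ContinuousOn.intervalIntegrable (hI ▸ continuousOn_finsetSum _ fun i _ =>
      continuousOn_finsetSum _ fun j _ => hPc i j)),
    intervalIntegral.integral_finsetSum fun m _ => i1 m,
    intervalIntegral.integral_finsetSum fun i _ => i3 i]
  refine add_le_add le_rfl (Finset.sum_le_sum fun i _ => ?_)
  rw [intervalIntegral.integral_finsetSum fun j _ => i2 i j]
  refine Finset.sum_le_sum fun j _ => ?_
  by_cases h : J i = J j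
  · simp [hP, h]
  · simp only [hP, h, if_false]
    have hint : IntervalIntegrable
        (fun x => c i * conj (c j) * ((w x : ℂ) * g i x * conj (g j x))) volume α β :=
      ContinuousOn.intervalIntegrable (hI ▸ continuousOn_const.mul (hK i j))
    have h1 := Complex.reCLM.intervalIntegral_comp_comm hint
    simp only [Complex.reCLM_apply] at h1
    rw [h1, intervalIntegral.integral_const_mul]
    refine (Complex.re_le_norm _).trans ?_
    rw [norm_mul, norm_mul, Complex.norm_conj]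
    exact mul_le_mul_of_nonneg_left (hk i j) (by positivity)

/-- the weight on a tripled cell -/
noncomputable def wt (e : ℝ) (n : ℤ) (x : ℝ) : ℝ := (x - (n - 1) * e) ^ 2 * ((n + 2) * e - x) ^ 2

lemma wt_cont (e : ℝ) (n : ℤ) : Continuous (wt e n) := by
  unfold wt
  fun_prop

lemma cell_le {e : ℝ} (he : 0 < e) (n : ℤ) : ((n : ℝ) - 1) * e ≤ (n + 2) * e := by nlinarith

lemma wt_integrable {e A B : ℝ} {n : ℤ} (hn : Icc (((n : ℝ) - 1) * e) ((n + 2) * e) ⊆ Icc A B)
    {f : ℝ → ℝ} (hf : ContinuousOn f (Icc A B)) :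
    Integrable ((Ioc (((n : ℝ) - 1) * e) ((n + 2) * e)).indicator fun x => wt e n x * f x) := by
  rw [integrable_indicator_iff measurableSet_Ioc]
  exact (((wt_cont e n).continuousOn.mul (hf.mono hn)).integrableOn_Icc).mono_set
    Ioc_subset_Icc_self

lemma cover_low {e A B : ℝ} (he : 0 < e) {S : Set ℝ} (hS : MeasurableSet S) (hSI : S ⊆ Icc A B)
    (N : Finset ℤ) (hN : ∀ x ∈ S, ⌊x / e⌋ ∈ N)
    (hNI : ∀ n ∈ N, Icc (((n : ℝ) - 1) * e) ((n + 2) * e) ⊆ Icc A B) {f : ℝ → ℝ}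
    (hf : ContinuousOn f (Icc A B)) (hf0 : ∀ x, 0 ≤ f x) :
    e ^ 4 * ∫ x in S, f x ≤ ∑ n ∈ N, ∫ x in ((n : ℝ) - 1) * e..(n + 2) * e, wt e n x * f x := by
  have e1 : ∀ n : ℤ, ∫ x in ((n : ℝ) - 1) * e..(n + 2) * e, wt e n x * f x =
      ∫ x, (Ioc (((n : ℝ) - 1) * e) ((n + 2) * e)).indicator (fun x => wt e n x * f x) x :=
    fun n => by
      rw [intervalIntegral.integral_of_le (cell_le he n), integral_indicator measurableSet_Ioc]
  simp only [e1]
  rw [← integral_finsetSum _ fun n hn => wt_integrable (hNI n hn) hf, ← integral_const_mul,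
    ← integral_indicator hS]
  refine integral_mono ?_ (integrable_finsetSum _ fun n hn => wt_integrable (hNI n hn) hf)
    fun x => ?_
  · rw [integrable_indicator_iff hS]
    exact ((continuousOn_const.mul hf).integrableOn_Icc).mono_set hSI
  · have hnn : ∀ n ∈ N, 0 ≤ (Ioc (((n : ℝ) - 1) * e) ((n + 2) * e)).indicator
        (fun x => wt e n x * f x) x := fun n _ =>
      indicator_nonneg (fun y _ => mul_nonneg (by unfold wt; positivity) (hf0 y)) x
    by_cases hx : x ∈ S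
    · rw [indicator_of_mem hx]
      refine le_trans ?_ (Finset.single_le_sum hnn (hN x hx))
      have h1 : (⌊x / e⌋ : ℝ) * e ≤ x := (le_div_iff₀ he).1 (Int.floor_le _)
      have h2 : x < (⌊x / e⌋ + 1 : ℝ) * e := (div_lt_iff₀ he).1 (Int.lt_floor_add_one _)
      rw [indicator_of_mem (show x ∈ Ioc _ _ from ⟨by linarith, by linarith⟩)]
      refine mul_le_mul_of_nonneg_right ?_ (hf0 x)
      have h3 : e ^ 2 ≤ (x - (⌊x / e⌋ - 1) * e) ^ 2 := pow_le_pow_left₀ he.le (by linarith) 2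
      have h4 : e ^ 2 ≤ ((⌊x / e⌋ + 2) * e - x) ^ 2 := pow_le_pow_left₀ he.le (by linarith) 2
      calc e ^ 4 = e ^ 2 * e ^ 2 := by ring
        _ ≤ _ := mul_le_mul h3 h4 (by positivity) (by positivity)
    · rw [indicator_of_notMem hx]
      exact Finset.sum_nonneg hnn

lemma cover_up {e A B : ℝ} (he : 0 < e) {S : Set ℝ} (hS : MeasurableSet S) (hSI : S ⊆ Icc A B)
    (N : Finset ℤ) (hNI : ∀ n ∈ N, Icc (((n : ℝ) - 1) * e) ((n + 2) * e) ⊆ S) {f : ℝ → ℝ}
    (hf : ContinuousOn f (Icc A B)) (hf0 : ∀ x, 0 ≤ f x) :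
    ∑ n ∈ N, ∫ x in ((n : ℝ) - 1) * e..(n + 2) * e, wt e n x * f x ≤
      324 * e ^ 4 * ∫ x in S, f x := by
  have e1 : ∀ n : ℤ, ∫ x in ((n : ℝ) - 1) * e..(n + 2) * e, wt e n x * f x =
      ∫ x, (Ioc (((n : ℝ) - 1) * e) ((n + 2) * e)).indicator (fun x => wt e n x * f x) x :=
    fun n => by
      rw [intervalIntegral.integral_of_le (cell_le he n), integral_indicator measurableSet_Ioc]
  have hi : ∀ n ∈ N, Integrable ((Ioc (((n : ℝ) - 1) * e) ((n + 2) * e)).indicator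
      fun x => wt e n x * f x) := fun n hn => wt_integrable ((hNI n hn).trans hSI) hf
  simp only [e1]
  rw [← integral_finsetSum _ hi, ← integral_const_mul, ← integral_indicator hS]
  refine integral_mono (integrable_finsetSum _ hi) ?_ fun x => ?_
  · rw [integrable_indicator_iff hS]
    exact ((continuousOn_const.mul hf).integrableOn_Icc).mono_set hSI
  · by_cases hx : x ∈ S
    · rw [indicator_of_mem hx]
      have h1 : (⌊x / e⌋ : ℝ) * e ≤ x := (le_div_iff₀ he).1 (Int.floor_le _)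
      have h2 : x < (⌊x / e⌋ + 1 : ℝ) * e := (div_lt_iff₀ he).1 (Int.lt_floor_add_one _)
      have hb : ∀ n : ℤ, (Ioc (((n : ℝ) - 1) * e) ((n + 2) * e)).indicator
          (fun x => wt e n x * f x) x ≤
          if n ∈ Finset.Icc (⌊x / e⌋ - 2) (⌊x / e⌋ + 1) then 81 * e ^ 4 * f x else 0 := by
        intro n
        by_cases hm : x ∈ Ioc (((n : ℝ) - 1) * e) ((n + 2) * e)
        · have h3 : ((n : ℝ) - 1) < ⌊x / e⌋ + 1 := lt_of_mul_lt_mul_right (hm.1.trans h2) he.le
          have h4 : (⌊x / e⌋ : ℝ) ≤ n + 2 := le_of_mul_le_mul_right (h1.trans hm.2) he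
          have h5 : n - 1 < ⌊x / e⌋ + 1 := by exact_mod_cast h3
          have h6 : ⌊x / e⌋ ≤ n + 2 := by exact_mod_cast h4
          rw [indicator_of_mem hm, if_pos (Finset.mem_Icc.2 ⟨by omega, by omega⟩)]
          refine mul_le_mul_of_nonneg_right ?_ (hf0 x)
          have h7 : (x - (n - 1) * e) ^ 2 ≤ (3 * e) ^ 2 :=
            pow_le_pow_left₀ (by linarith [hm.1]) (by linarith [hm.2]) 2
          have h8 : ((n + 2) * e - x) ^ 2 ≤ (3 * e) ^ 2 :=
            pow_le_pow_left₀ (by linarith [hm.2]) (by linarith [hm.1]) 2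
          calc wt e n x ≤ (3 * e) ^ 2 * (3 * e) ^ 2 :=
                mul_le_mul h7 h8 (by positivity) (by positivity)
            _ = 81 * e ^ 4 := by ring
        · rw [indicator_of_notMem hm]
          split_ifs
          · exact mul_nonneg (by positivity) (hf0 x)
          · exact le_rfl
      refine (Finset.sum_le_sum fun n _ => hb n).trans ?_
      rw [← Finset.sum_filter, Finset.sum_const, nsmul_eq_mul]
      have hc : (N.filter fun n => n ∈ Finset.Icc (⌊x / e⌋ - 2) (⌊x / e⌋ + 1)).card ≤ 4 := by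
        refine (Finset.card_le_card fun n hn => (Finset.mem_filter.1 hn).2).trans ?_
        rw [Int.card_Icc]
        omega
      have hc' : ((N.filter fun n => n ∈ Finset.Icc (⌊x / e⌋ - 2) (⌊x / e⌋ + 1)).card : ℝ) ≤ 4 := by
        exact_mod_cast hc
      have := mul_le_mul_of_nonneg_right hc' (mul_nonneg (by positivity : 0 ≤ 81 * e ^ 4) (hf0 x))
      linarith
    · rw [indicator_of_notMem hx]
      refine (Finset.sum_eq_zero fun n hn => ?_).le
      exact indicator_of_notMem (fun hm => hx (hNI n hn (Ioc_subset_Icc_self hm))) _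

/-- the square of a sum on a set is controlled by the clusters on a larger set and the far pairs -/
lemma clusters {ι : Type} [Fintype ι] (J : ι → ℤ) (c : ι → ℂ) {g : ι → ℝ → ℂ} {e A B : ℝ}
    (he : 0 < e) (hAB : A ≤ B) (hg : ∀ i, ContinuousOn (g i) (Icc A B)) {S S' : Set ℝ}
    (hS : MeasurableSet S) (hS' : MeasurableSet S') (hS'I : S' ⊆ Icc A B)
    (hSS' : ∀ x ∈ S, ∀ y, |y - x| ≤ 2 * e → y ∈ S') {k : ι → ι → ℝ} (hk0 : ∀ i j, 0 ≤ k i j)
    (hk : ∀ α β, A ≤ α → α ≤ β → β ≤ B → ∀ i j,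
      ‖∫ x in α..β, (((x - α) ^ 2 * (β - x) ^ 2 : ℝ) : ℂ) * g i x * conj (g j x)‖ ≤ k i j) :
    ∫ x in S, ‖∑ i, c i * g i x‖ ^ 2 ≤
      324 * ∑ m ∈ Finset.univ.image J, (∫ x in S', ‖∑ i with J i = m, c i * g i x‖ ^ 2) +
        ((B - A) / e + 2) / e ^ 4 * ∑ i, ∑ j, if J i = J j then 0 else ‖c i‖ * ‖c j‖ * k i j := by
  classical
  have hSI : S ⊆ Icc A B := fun x hx => hS'I (hSS' x hx x (by simp; positivity))
  set N : Finset ℤ := (Finset.Icc ⌊A / e⌋ ⌊B / e⌋).filter fun n => ∃ x ∈ S, ⌊x / e⌋ = n with hN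
  have hN1 : ∀ x ∈ S, ⌊x / e⌋ ∈ N := fun x hx =>
    Finset.mem_filter.2 ⟨Finset.mem_Icc.2
      ⟨Int.floor_mono (div_le_div_of_nonneg_right (hSI hx).1 he.le),
        Int.floor_mono (div_le_div_of_nonneg_right (hSI hx).2 he.le)⟩, x, hx, rfl⟩
  have hN2 : ∀ n ∈ N, Icc (((n : ℝ) - 1) * e) ((n + 2) * e) ⊆ S' := by
    intro n hn y hy
    obtain ⟨x, hx, rfl⟩ := (Finset.mem_filter.1 hn).2
    have h1 : (⌊x / e⌋ : ℝ) * e ≤ x := (le_div_iff₀ he).1 (Int.floor_le _)
    have h2 : x < (⌊x / e⌋ + 1 : ℝ) * e := (div_lt_iff₀ he).1 (Int.lt_floor_add_one _)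
    exact hSS' x hx y (abs_le.2 ⟨by linarith [hy.1], by linarith [hy.2]⟩)
  have hcard : (N.card : ℝ) ≤ (B - A) / e + 2 := by
    have h1 : N.card ≤ (⌊B / e⌋ + 1 - ⌊A / e⌋).toNat := by
      rw [← Int.card_Icc]
      exact Finset.card_filter_le _ _
    have h2 : ⌊A / e⌋ ≤ ⌊B / e⌋ := Int.floor_mono (div_le_div_of_nonneg_right hAB he.le)
    have h3 : (N.card : ℤ) ≤ ⌊B / e⌋ + 1 - ⌊A / e⌋ := by omega
    have h4 : (N.card : ℝ) ≤ ⌊B / e⌋ + 1 - ⌊A / e⌋ := by exact_mod_cast h3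
    have h5 := Int.floor_le (B / e)
    have h6 := Int.lt_floor_add_one (A / e)
    rw [sub_div]
    linarith
  set Far : ℝ := ∑ i, ∑ j, if J i = J j then 0 else ‖c i‖ * ‖c j‖ * k i j with hFar
  have hFar0 : 0 ≤ Far := Finset.sum_nonneg fun i _ => Finset.sum_nonneg fun j _ => by
    split_ifs
    · exact le_rfl
    · exact mul_nonneg (by positivity) (hk0 i j)
  have h1 := cover_low he hS hSI N hN1 (fun n hn => (hN2 n hn).trans hS'I)
    (cont_sq Finset.univ c hg) (fun x => by positivity)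
  have h2 : ∀ n ∈ N, ∫ x in ((n : ℝ) - 1) * e..(n + 2) * e, wt e n x * ‖∑ i, c i * g i x‖ ^ 2 ≤
      ∑ m ∈ Finset.univ.image J, (∫ x in ((n : ℝ) - 1) * e..(n + 2) * e,
        wt e n x * ‖∑ i with J i = m, c i * g i x‖ ^ 2) + Far := fun n hn => by
    have hsub := (hN2 n hn).trans hS'I
    have hle := cell_le he n
    exact expand J c hle (fun i => (hg i).mono hsub) (wt_cont e n)
      (hk _ _ (hsub (left_mem_Icc.2 hle)).1 hle (hsub (right_mem_Icc.2 hle)).2)
  have h3 := h1.trans (Finset.sum_le_sum h2)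
  rw [Finset.sum_add_distrib, Finset.sum_comm, Finset.sum_const, nsmul_eq_mul] at h3
  have h4 : ∑ m ∈ Finset.univ.image J, ∑ n ∈ N, (∫ x in ((n : ℝ) - 1) * e..(n + 2) * e,
      wt e n x * ‖∑ i with J i = m, c i * g i x‖ ^ 2) ≤ ∑ m ∈ Finset.univ.image J,
      324 * e ^ 4 * ∫ x in S', ‖∑ i with J i = m, c i * g i x‖ ^ 2 :=
    Finset.sum_le_sum fun m _ => cover_up he hS' hS'I N hN2 (cont_sq _ c hg)
      (fun x => by positivity)
  rw [← Finset.mul_sum] at h4
  have h5 := mul_le_mul_of_nonneg_right hcard hFar0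
  have he4 : 0 < e ^ 4 := by positivity
  refine le_of_mul_le_mul_left ?_ he4
  have e2 : e ^ 4 * (((B - A) / e + 2) / e ^ 4 * Far) = ((B - A) / e + 2) * Far := by
    field_simp
  rw [mul_add, e2]
  linarith

lemma card_sep {ι : Type} [Fintype ι] {y : ι → ℝ} {ϱ L : ℝ} (hϱ : 0 < ϱ) (hL : 0 ≤ L)
    (hs : Sep y ϱ) (t : ℝ) :
    ((Finset.univ.filter fun i => t ≤ y i ∧ y i ≤ t + L).card : ℝ) ≤ L / ϱ + 1 := by
  have h1 : (Finset.univ.filter fun i => t ≤ y i ∧ y i ≤ t + L).card ≤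
      (Finset.range (⌊L / ϱ⌋₊ + 1)).card := by
    refine Finset.card_le_card_of_injOn (fun i => ⌊(y i - t) / ϱ⌋₊) (fun i hi => ?_)
      fun i hi j hj hij => ?_
    · have hi' := (Finset.mem_filter.1 (Finset.mem_coe.1 hi)).2
      simp only [Finset.coe_range, mem_Iio]
      exact Nat.lt_succ_of_le (Nat.floor_mono
        (div_le_div_of_nonneg_right (by linarith [hi'.2]) hϱ.le))
    · by_contra hne
      have hi' := (Finset.mem_filter.1 (Finset.mem_coe.1 hi)).2
      have hj' := (Finset.mem_filter.1 (Finset.mem_coe.1 hj)).2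
      have a1 := Nat.floor_le (div_nonneg (sub_nonneg.2 hi'.1) hϱ.le)
      have a2 := Nat.floor_le (div_nonneg (sub_nonneg.2 hj'.1) hϱ.le)
      have a3 := Nat.lt_floor_add_one ((y i - t) / ϱ)
      have a4 := Nat.lt_floor_add_one ((y j - t) / ϱ)
      have hij' : ⌊(y i - t) / ϱ⌋₊ = ⌊(y j - t) / ϱ⌋₊ := hij
      rw [hij'] at a1 a3
      rw [le_div_iff₀ hϱ] at a1 a2
      rw [div_lt_iff₀ hϱ] at a3 a4
      have := hs i j hne
      have : |y i - y j| < ϱ := abs_lt.2 ⟨by linarith, by linarith⟩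
      linarith
  rw [Finset.card_range] at h1
  have h2 : ((Finset.univ.filter fun i => t ≤ y i ∧ y i ≤ t + L).card : ℝ) ≤ ⌊L / ϱ⌋₊ + 1 := by
    exact_mod_cast h1
  have h3 := Nat.floor_le (div_nonneg hL hϱ.le)
  linarith

lemma porous_all {Y : Set ℝ} {ν ν' L T R : ℝ} (hP : Porous Y ν L R) (hY : ∀ y ∈ Y, |y| ≤ T)
    (hR : 8 * T ≤ R) (hT : 0 < T) (h1 : ν' ≤ ν) (h2 : ν' ≤ 1 / 4) (hL : 0 ≤ L) (β : ℝ) :
    Porous Y ν' L β := by
  intro x ℓ hl _
  have hℓ : 0 ≤ ℓ := hL.trans hl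
  by_cases h : ℓ ≤ R
  · obtain ⟨y, a1, a2, a3⟩ := hP x ℓ hl h
    have := mul_le_mul_of_nonneg_right h1 hℓ
    exact ⟨y, a1, by linarith, fun t ht hm => a3 t ht ⟨hm.1, by linarith [hm.2]⟩⟩
  · push Not at h
    have h3 := mul_le_mul_of_nonneg_right h2 hℓ
    by_cases h' : x + ℓ / 4 < -T
    · refine ⟨x, le_rfl, by linarith, fun t ht hm => ?_⟩
      have := (abs_le.1 (hY t ht)).1
      linarith [hm.2]
    · push Not at h'
      refine ⟨x + 3 * ℓ / 4, by linarith, by linarith, fun t ht hm => ?_⟩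
      have := (abs_le.1 (hY t ht)).2
      linarith [hm.1]

end T2

end Pool.Agent.Lib.MP_e1e19a_an
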