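import Pool.Agent.Lib.MP_e1e19a_an.N.S2
import Pool.Agent.Lib.MP_e1e19a_an.N.T1

/-!
Geometric decay of the blocks of the Eisenstein series.
-/

namespace Pool.Agent.Lib.MP_e1e19a_an

open Real MeasureTheory Set
open scoped MatrixGroups ComplexConjugate UpperHalfPlane

variable {α : Type} [Fintype α] [DecidableEq α] [Inhabited α] (S : SchottkyData α)

namespace T5a

theorem log_bd {a : ℂ} {r R : ℝ} (r0 : 0 < r) (h1 : r ≤ ‖a‖) (h2 : ‖a‖ ≤ R) :
    ‖Complex.log a‖ ≤ |log r| + |log R| + π := by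
  refine (Complex.norm_le_abs_re_add_abs_im _).trans (add_le_add ?_ ?_)
  · rw [Complex.log_re, abs_le]
    have h3 := log_le_log r0 h1
    have h4 := log_le_log (r0.trans_le h1) h2
    constructor <;>
      linarith [neg_abs_le (log r), le_abs_self (log R), abs_nonneg (log r), abs_nonneg (log R)]
  · rw [Complex.log_im]
    exact Complex.abs_arg_le_pi a

theorem exp_bd {s L : ℂ} {σ b : ℝ} (hs : ‖s‖ ≤ σ) (hL : ‖L‖ ≤ b) :
    ‖Complex.exp (-s * L)‖ ≤ exp (σ * b) := by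
  refine (Complex.norm_exp_le_exp_norm _).trans (exp_le_exp.2 ?_)
  rw [norm_mul, norm_neg]
  exact mul_le_mul hs hL (norm_nonneg _) ((norm_nonneg _).trans hs)

theorem pow_bd {s : ℂ} {t T : ℝ} (t0 : 0 < t) (hT : 1 ≤ T) (h : t ≤ T) (s0 : 0 ≤ s.re)
    (s3 : s.re ≤ 3) : t ^ s.re ≤ T ^ 3 := by
  refine (rpow_le_rpow t0.le h s0).trans ((rpow_le_rpow_of_exponent_le hT s3).trans_eq ?_)
  exact_mod_cast rfl

theorem norm_w (s : ℂ) {t : ℝ} (t0 : 0 < t) : ‖Complex.exp (s * (log t : ℝ))‖ = t ^ s.re := by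
  rw [Complex.norm_exp, Complex.re_mul_ofReal, rpow_def_of_pos t0, mul_comm]

/-- holomorphic and bounded on thin neighbourhoods of the intervals -/
def P (δ β m : ℝ) (u : α × Bool → ℂ → ℂ) : Prop :=
  ∀ j, DifferentiableOn ℂ (u j) {x | |x.re - S.c j| < S.ρ j + δ ∧ |x.im| < β} ∧
    ∀ x : ℂ, |x.re - S.c j| < S.ρ j + δ → |x.im| < β → ‖u j x‖ ≤ m

variable {S} {δ B : ℝ}

omit [Fintype α] in
theorem step {Z : Finset (FreeGroup α)} {s : ℂ} {σ β m : ℝ} {u : α × Bool → ℂ → ℂ}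
    (δ0 : 0 < δ) (δ1 : δ ≤ 1)
    (hγ : ∀ i j, i ≠ j → ∀ x y, |x - S.c i| ≤ S.ρ i → |y - S.c j| ≤ S.ρ j → 2 * δ ≤ |x - y|)
    (hB : ∀ j, |S.c j| + S.ρ j ≤ B) (hZ : ∀ w ∈ Z, w ≠ 1 ∧ S.τ w ≤ δ ^ 2 / 2)
    (hp : ∀ w, w ≠ 1 → 0 < S.τ w ∧ |S.p w - S.c (hd w)| ≤ S.ρ (hd w)) (s0 : 0 ≤ s.re)
    (hs : ‖s‖ ≤ σ) (hβ : β ≤ δ) (m0 : 0 ≤ m) (hu : P S δ (β / 2) m u) :
    P S δ β (Z.card * exp (σ * (|log (δ ^ 2)| + |log ((2 * B + 2) ^ 2)| + π)) * m)
      (S.L Z s u) := by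
  have key : ∀ j, ∀ w ∈ Z, hd w⁻¹ ≠ j → ∀ x : ℂ, |x.re - S.c j| < S.ρ j + δ → |x.im| < β →
      δ < |x.re - S.p w⁻¹| ∧ δ ≤ ‖x - S.p w⁻¹‖ ∧ ‖x - S.p w⁻¹‖ ≤ 2 * B + 2 ∧
      |((S.p w : ℂ) - S.τ w / (x - S.p w⁻¹)).re - S.c (hd w)| < S.ρ (hd w) + δ ∧
      |((S.p w : ℂ) - S.τ w / (x - S.p w⁻¹)).im| < β / 2 := by
    intro j w hw hj x h1 h2
    obtain ⟨w1, wτ⟩ := hZ w hw
    obtain ⟨τ0, pw⟩ := hp w w1
    have q1 := (hp w⁻¹ (inv_ne_one.2 w1)).2
    have ρ0 := S.pos j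
    have a1 : δ < |x.re - S.p w⁻¹| := by
      obtain ⟨y, hy, hy'⟩ : ∃ y, |y - S.c j| ≤ S.ρ j ∧ |y - x.re| < δ := by
        rw [abs_lt] at h1
        rcases le_total x.re (S.c j - S.ρ j) with h | h
        · exact ⟨S.c j - S.ρ j, abs_le.2 ⟨by linarith, by linarith⟩,
            abs_lt.2 ⟨by linarith, by linarith⟩⟩
        rcases le_total x.re (S.c j + S.ρ j) with h' | h'
        · exact ⟨x.re, abs_le.2 ⟨by linarith, by linarith⟩, by simpa using δ0⟩
        · exact ⟨S.c j + S.ρ j, abs_le.2 ⟨by linarith, by linarith⟩,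
            abs_lt.2 ⟨by linarith, by linarith⟩⟩
      have := hγ _ _ hj.symm _ _ hy q1
      have := abs_sub_le y x.re (S.p w⁻¹)
      linarith
    have a2 : δ ≤ ‖x - S.p w⁻¹‖ := by
      have := Complex.abs_re_le_norm (x - S.p w⁻¹)
      rw [Complex.sub_re, Complex.ofReal_re] at this
      linarith
    have a3 : ‖x - S.p w⁻¹‖ ≤ 2 * B + 2 := by
      have := Complex.norm_le_abs_re_add_abs_im (x - S.p w⁻¹)
      rw [Complex.sub_re, Complex.ofReal_re, Complex.sub_im, Complex.ofReal_im, sub_zero] at this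
      have b1 := hB j
      have b2 := hB (hd w⁻¹)
      have b3 := abs_sub_le x.re (S.c j) (S.p w⁻¹)
      have b4 := abs_sub_le (S.c j) (S.c (hd w⁻¹)) (S.p w⁻¹)
      have b5 := abs_sub (S.c j) (S.c (hd w⁻¹))
      rw [abs_sub_comm] at q1
      linarith
    have a4 : ‖(S.τ w : ℂ) / (x - S.p w⁻¹)‖ ≤ δ / 2 := by
      rw [norm_div, Complex.norm_real, Real.norm_of_nonneg τ0.le, div_le_iff₀ (δ0.trans_le a2)]
      nlinarith
    refine ⟨a1, a2, a3, ?_, ?_⟩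
    · have b1 := (Complex.abs_re_le_norm _).trans a4
      rw [Complex.sub_re, Complex.ofReal_re]
      rw [abs_le] at b1 pw
      exact abs_lt.2 ⟨by linarith, by linarith⟩
    · have b1 : 0 < ‖x - S.p w⁻¹‖ ^ 2 := pow_pos (δ0.trans_le a2) 2
      have b2 : δ ^ 2 ≤ ‖x - S.p w⁻¹‖ ^ 2 := pow_le_pow_left₀ δ0.le a2 2
      have e : ((S.p w : ℂ) - S.τ w / (x - S.p w⁻¹)).im = S.τ w * x.im / ‖x - S.p w⁻¹‖ ^ 2 := by
        rw [Complex.sub_im, Complex.div_im, Complex.normSq_eq_norm_sq]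
        simp
      rw [e, abs_div, abs_mul, abs_of_pos τ0, abs_of_pos b1, div_lt_iff₀ b1]
      have b3 := abs_nonneg x.im
      nlinarith [mul_le_mul_of_nonneg_right (wτ.trans (by linarith : δ ^ 2 / 2 ≤
        ‖x - S.p w⁻¹‖ ^ 2 / 2)) b3]
  intro j
  refine ⟨DifferentiableOn.fun_sum fun w hw => ?_, fun x h1 h2 => ?_⟩
  · obtain ⟨hw, hj⟩ := Finset.mem_filter.1 hw
    refine ((differentiableOn_const _).mul fun x hx => (ek_diff s _ ?_).differentiableWithinAt).mul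
      ((hu (hd w)).1.comp ((differentiableOn_const _).sub ((differentiableOn_const _).div
        (by fun_prop) fun x hx => ?_)) fun x hx => (key j w hw hj x hx.1 hx.2).2.2.2)
    · linarith [(key j w hw hj x hx.1 hx.2).1, hx.2]
    · exact norm_pos_iff.1 (δ0.trans_le (key j w hw hj x hx.1 hx.2).2.1)
  · refine (norm_sum_le _ _).trans ((Finset.sum_le_card_nsmul _ _ (exp (σ * (|log (δ ^ 2)| +
      |log ((2 * B + 2) ^ 2)| + π)) * m) fun w hw => ?_).trans ?_)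
    · obtain ⟨hw, hj⟩ := Finset.mem_filter.1 hw
      obtain ⟨-, k2, k3, k4, k5⟩ := key j w hw hj x h1 h2
      have τ0 := (hp w (hZ w hw).1).1
      rw [norm_mul, norm_mul, norm_w s τ0]
      refine mul_le_mul ?_ ((hu _).2 _ k4 k5) (norm_nonneg _) (exp_pos _).le
      refine (mul_le_of_le_one_left (norm_nonneg _) (rpow_le_one τ0.le ?_ s0)).trans
        (exp_bd hs (log_bd (by positivity) ?_ ?_))
      · nlinarith [(hZ w hw).2]
      · rw [norm_pow]; exact pow_le_pow_left₀ δ0.le k2 2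
      · rw [norm_pow]; exact pow_le_pow_left₀ (norm_nonneg _) k3 2
    · rw [nsmul_eq_mul, mul_assoc]
      exact mul_le_mul_of_nonneg_right (Nat.cast_le.2 (Finset.card_filter_le _ _)) (by positivity)

omit [Fintype α] [DecidableEq α] [Inhabited α] in
theorem base {s z : ℂ} {σ y Y β : ℝ} (δ1 : δ ≤ 1) (hB : ∀ j, |S.c j| + S.ρ j ≤ B) (hs : ‖s‖ ≤ σ)
    (y0 : 0 < y) (hβ : β ≤ y) (h1 : 2 * y ≤ z.im) (h2 : ‖z‖ ≤ Y) :
    P S δ β (exp (σ * (2 * (|log y| + |log (2 * Y + B + 1)| + π)))) fun _ => fk s z (conj z) := by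
  intro j
  refine ⟨fun x hx => DifferentiableAt.differentiableWithinAt ?_, fun x h3 h4 => exp_bd hs ?_⟩
  · have h4 := abs_lt.1 hx.2
    refine (((DifferentiableAt.clog (by fun_prop) (Or.inr ?_)).add
      (DifferentiableAt.clog (by fun_prop) (Or.inr ?_))).const_mul (-s)).cexp
    · rw [Complex.sub_im]; linarith
    · rw [Complex.sub_im, Complex.conj_im]; linarith
  · have h5 := abs_lt.1 h4
    have h6 : ‖x‖ ≤ Y + B + 1 := by
      have := Complex.norm_le_abs_re_add_abs_im x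
      have := abs_sub_abs_le_abs_sub x.re (S.c j)
      have := (le_abs_self _).trans (Complex.abs_im_le_norm z)
      linarith [hB j]
    have h7 := (le_abs_self _).trans (Complex.abs_im_le_norm (z - x))
    have h8 := (neg_le_abs _).trans (Complex.abs_im_le_norm (conj z - x))
    rw [Complex.sub_im] at h7 h8
    rw [Complex.conj_im] at h8
    have h9 := norm_sub_le (conj z) x
    rw [Complex.norm_conj] at h9
    rw [two_mul]
    exact (norm_add_le _ _).trans (add_le_add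
      (log_bd y0 (by linarith) (by linarith [norm_sub_le z x]))
      (log_bd y0 (by linarith) (by linarith)))

omit [Fintype α] in
theorem good {Z : Finset (FreeGroup α)} {h m : ℝ} {u : α × Bool → ℂ → ℂ} (h0 : 0 < h)
    (h1 : h ≤ 1) (h2 : 2 * h ≤ δ) (hp : ∀ w ∈ Z, |S.p w - S.c (hd w)| ≤ S.ρ (hd w))
    (hu : P S δ δ m u) : S.Good Z h u (Z.card * m) := by
  have key : ∀ w ∈ Z, ∀ x : ℂ, ‖x - S.p w‖ < 2 * h →
      |x.re - S.c (hd w)| < S.ρ (hd w) + δ ∧ |x.im| < δ := fun w hw x hx => by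
    have a1 := Complex.abs_re_le_norm (x - S.p w)
    have a2 := Complex.abs_im_le_norm (x - S.p w)
    rw [Complex.sub_re, Complex.ofReal_re] at a1
    rw [Complex.sub_im, Complex.ofReal_im, sub_zero] at a2
    exact ⟨by linarith [abs_sub_le x.re (S.p w) (S.c (hd w)), hp w hw], by linarith⟩
  refine ⟨fun w hw => (hu _).1.mono fun x hx => key w hw x (mem_ball_iff_norm.1 hx),
    fun x hx => ?_⟩
  have a1 : ∑ w ∈ Z, ‖u (hd w) (x w)‖ ^ 2 ≤ Z.card * m ^ 2 := by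
    rw [← nsmul_eq_mul]
    refine Finset.sum_le_card_nsmul _ _ _ fun w hw => pow_le_pow_left₀ (norm_nonneg _) ?_ 2
    have := key w hw (x w) (by linarith [hx w hw])
    exact (hu _).2 _ this.1 this.2
  have a2 : (Z.card : ℝ) ≤ Z.card ^ 2 := by exact_mod_cast Nat.le_self_pow two_ne_zero _
  refine (mul_le_of_le_one_left (by positivity) h1).trans (a1.trans ?_)
  rw [mul_pow]
  exact mul_le_mul_of_nonneg_right a2 (sq_nonneg m)

end T5a

theorem SchottkyData.decay {c₀ η h₀ C₁ : ℝ} (hc : c₀ ∈ Ioc (0 : ℝ) 1) (hη : η ∈ Ioc (0 : ℝ) 1)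
    (hh : h₀ ∈ Ioc (0 : ℝ) 1) (H : S.Contr c₀ η h₀ C₁) : ∃ l₀ > (0 : ℝ), ∀ l₁ : ℝ,
    ∃ σ₀ < (1 / 2 : ℝ), ∀ l ∈ Icc l₀ l₁, ∀ Z Sf, S.Part c₀ (η / l) Z Sf →
      ∀ K : Set ℍ, IsCompact K → ∃ C : ℝ,
      ∀ n, ∀ z ∈ K, ∀ s : ℂ, σ₀ < s.re → s.re < 3 → |s.im - l| < 1 →
        ‖S.blk (blocks Z Sf n) s z‖ ≤ C / 2 ^ n := by
  obtain ⟨γ, ⟨γ0, γ1⟩, B, B1, hγ, hB, -, hτ, -⟩ := S.geo
  obtain ⟨δ, rfl⟩ : ∃ δ, γ = 2 * δ := ⟨γ / 2, by ring⟩
  have δ0 : 0 < δ := by linarith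
  have h₁0 : 0 < min h₀ (δ ^ 2 / 2) := lt_min hh.1 (by positivity)
  have cη : 0 < c₀ * η := mul_pos hc.1 hη.1
  refine ⟨1 / min h₀ (δ ^ 2 / 2), by positivity, fun l₁ => ?_⟩
  obtain ⟨M, M1, hM⟩ : ∃ M : ℝ, 1 ≤ M ∧ l₁ / (c₀ * η) ≤ M := ⟨_, le_max_left _ _, le_max_right _ _⟩
  have ε0 : 0 < 1 / (2 * M) := by positivity
  have ε1 : 1 / (2 * M) ≤ 1 / 2 := one_div_le_one_div_of_le two_pos (by linarith)
  refine ⟨1 / 2 - 1 / (2 * M), by linarith, fun l hl Z Sf hP K hK => ?_⟩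
  have l0 : 0 < l := lt_of_lt_of_le (by positivity) hl.1
  have g0 : 0 < 1 / l := by positivity
  have g1 : 1 / l ≤ min h₀ (δ ^ 2 / 2) := (one_div_le l0 h₁0).2 hl.1
  have g2 := g1.trans (min_le_left _ _)
  have g3 := g1.trans (min_le_right _ _)
  have hZ : ∀ w ∈ Z, w ≠ 1 ∧ S.τ w ≤ δ ^ 2 / 2 := fun w hw => ⟨hP.ne w (hP.sub hw),
    (hP.up w hw).trans ((div_le_div_of_nonneg_right hη.2 l0.le).trans g3)⟩
  have hp : ∀ w, w ≠ 1 → 0 < S.τ w ∧ |S.p w - S.c (hd w)| ≤ S.ρ (hd w) := fun w hw =>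
    ⟨S.τ_pos hw, S.p_mem hw⟩
  obtain ⟨y', y0', hy⟩ := hK.exists_forall_le' (f := fun z : ℍ => z.im)
    UpperHalfPlane.continuous_im.continuousOn (a := 0) fun z _ => z.im_pos
  obtain ⟨y, rfl⟩ : ∃ y, y' = 2 * y := ⟨y' / 2, by ring⟩
  have y0 : 0 < y := by linarith
  obtain ⟨Y', hY'⟩ := hK.exists_bound_of_continuousOn (f := fun z : ℍ => (z : ℂ))
    UpperHalfPlane.continuous_coe.continuousOn
  obtain ⟨Y, Y1, hY⟩ : ∃ Y : ℝ, 1 ≤ Y ∧ ∀ z ∈ K, ‖(z : ℂ)‖ ≤ Y :=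
    ⟨_, le_max_left _ _, fun z hz => (hY' z hz).trans (le_max_right _ _)⟩
  obtain ⟨N, hN⟩ := pow_unbounded_of_one_lt (δ / y) one_lt_two
  rw [div_lt_iff₀ y0] at hN
  set E := Z.card * exp ((l + 4) * (|log (δ ^ 2)| + |log ((2 * B + 2) ^ 2)| + π)) with hE
  set m := exp ((l + 4) * (2 * (|log y| + |log (2 * Y + B + 1)| + π))) with hm
  have E0 : 0 ≤ E := by positivity
  have m0 : 0 ≤ m := by positivity
  set A := Z.card * (E ^ N * m) with hA
  have A0 : 0 ≤ A := by positivity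
  set G := |C₁| * l + 1 with hG
  have G1 : 1 ≤ G := le_add_of_nonneg_left (by positivity)
  refine ⟨Y ^ 3 * (Sf.card * ((4 * B ^ 2) ^ 3 *
    (2 ^ N * ((E + 1) ^ N * m) + 2 ^ (N + 1) * (G * A)))), fun n z hz s s0 s3 sl => ?_⟩
  have s1 : 0 ≤ s.re := by linarith
  have hs : ‖s‖ ≤ l + 4 := by
    have := Complex.norm_le_abs_re_add_abs_im s
    have := abs_sub_abs_le_abs_sub s.im l
    rw [abs_of_pos l0] at this
    rw [abs_of_nonneg s1] at *
    linarith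
  set f : α × Bool → ℂ → ℂ := fun _ => fk s z (conj (z : ℂ)) with hf
  have i1 : ∀ k : ℕ, ∀ β ≤ δ, β ≤ 2 ^ k * y → T5a.P S δ β (E ^ k * m) ((S.L Z s)^[k] f) := by
    intro k
    induction k with
    | zero =>
      intro β _ h2
      rw [pow_zero, one_mul] at h2 ⊢
      exact T5a.base (by linarith) hB hs y0 h2 (hy z hz) (hY z hz)
    | succ k ih =>
      intro β h1 h2
      rw [Function.iterate_succ_apply', pow_succ' E, mul_assoc]
      rw [pow_succ] at h2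
      exact T5a.step δ0 (by linarith) hγ hB hZ hp s1 hs h1 (by positivity)
        (ih _ (by linarith) (by linarith))
  have hτ' : ∀ w ∈ Z, S.τ w ^ s.re ≤ 2 * √(S.τ w) := fun w hw => by
    have t0 := S.τ_pos (hZ w hw).1
    have t1 : S.τ w ≤ 1 := by nlinarith [(hZ w hw).2]
    have t2 : (S.τ w)⁻¹ ≤ M := by
      refine le_trans ?_ hM
      rw [inv_eq_one_div, div_le_div_iff₀ t0 cη]
      have := hP.low w (hP.sub hw)
      rw [← mul_div_assoc, div_le_iff₀ l0] at this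
      nlinarith [hl.2]
    refine (rpow_le_rpow_of_exponent_ge t0 t1 s0.le).trans ?_
    rw [sub_eq_add_neg, rpow_add t0, sqrt_eq_rpow, mul_comm, rpow_neg t0.le, ← inv_rpow t0.le]
    refine mul_le_mul_of_nonneg_right ((rpow_le_rpow (by positivity) t2 ε0.le).trans ?_)
      (by positivity)
    have := rpow_one_add_le_one_add_mul_self (s := M - 1) (by linarith) ε0.le (by linarith)
    rw [add_sub_cancel] at this
    have e : 1 / (2 * M) * M = 1 / 2 := by field_simp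
    nlinarith
  have HC := H (1 / l) ⟨g0, g2⟩ Z Sf (by rwa [mul_one_div]) s s1 s3.le
    (by rw [one_div_one_div]; exact sl.le) hτ'
  have i2 : ∀ k : ℕ, S.Good Z (1 / l) ((S.L Z s)^[k + N] f) (A / 2 ^ k) := by
    intro k
    induction k with
    | zero =>
      rw [zero_add, pow_zero, div_one]
      exact T5a.good g0 (g2.trans hh.2) (by nlinarith) (fun w hw => S.p_mem (hZ w hw).1)
        (i1 N δ le_rfl hN.le)
    | succ k ih =>
      rw [add_right_comm, Function.iterate_succ_apply', pow_succ, ← div_div]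
      exact (HC _ _ (by positivity) ih).1
  have i3 : ∀ b ∈ Sf, ‖(S.L Z s)^[n] f (hd b) (S.p b)‖ ≤
      (2 ^ N * ((E + 1) ^ N * m) + 2 ^ (N + 1) * (G * A)) / 2 ^ n := fun b hb => by
    rw [add_div]
    rcases le_or_gt n N with hn | hn
    · refine le_trans ?_ (le_add_of_nonneg_right (by positivity))
      have a1 : y ≤ 2 ^ n * y := le_mul_of_one_le_left y0.le (one_le_pow₀ one_le_two)
      refine ((i1 n (min δ y) (min_le_left _ _) ((min_le_right _ _).trans a1) (hd b)).2 _ ?_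
        ?_).trans ?_
      · rw [Complex.ofReal_re]
        linarith [S.p_mem (hP.ne b hb)]
      · rw [Complex.ofReal_im, abs_zero]
        exact lt_min δ0 y0
      · rw [le_div_iff₀' (by positivity)]
        refine mul_le_mul (pow_le_pow_right₀ one_le_two hn) (mul_le_mul_of_nonneg_right
          ((pow_le_pow_left₀ E0 (by linarith) n).trans (pow_le_pow_right₀ (by linarith) hn)) m0)
          (by positivity) (by positivity)
    · refine le_trans ?_ (le_add_of_nonneg_left (by positivity))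
      obtain ⟨k, rfl⟩ : ∃ k, n = k + N + 1 := ⟨n - N - 1, by omega⟩
      have a1 := (mul_le_mul_of_nonneg_left (Finset.single_le_sum (fun b _ => sq_nonneg _) hb)
        g0.le).trans (HC _ _ (by positivity) (i2 k)).2.1
      rw [Function.iterate_succ_apply', show 2 ^ (N + 1) * (G * A) / 2 ^ (k + N + 1) =
        G * (A / 2 ^ k) by field_simp; ring]
      rw [one_div, inv_mul_le_iff₀ l0, ← mul_assoc] at a1
      refine (pow_le_pow_iff_left₀ (norm_nonneg _) (by positivity) two_ne_zero).1 (a1.trans ?_)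
      rw [mul_pow]
      refine mul_le_mul_of_nonneg_right ?_ (sq_nonneg _)
      nlinarith [mul_le_mul_of_nonneg_right (le_abs_self C₁) l0.le]
  rw [S.blk_eq (S.blocks_ne hP n), S.ev_blocks hP, norm_mul, mul_div_assoc,
    Complex.norm_cpow_eq_rpow_re_of_pos z.im_pos]
  refine mul_le_mul (T5a.pow_bd z.im_pos Y1 ?_ s1 s3.le) ?_ (norm_nonneg _) (by positivity)
  · exact ((le_abs_self _).trans (Complex.abs_im_le_norm (z : ℂ))).trans (hY z hz)
  · rw [mul_div_assoc, mul_div_assoc, ← nsmul_eq_mul]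
    refine (norm_sum_le _ _).trans (Finset.sum_le_card_nsmul _ _ _ fun b hb => ?_)
    have t0 := S.τ_pos (hP.ne b hb)
    rw [norm_mul, T5a.norm_w s t0]
    exact mul_le_mul (T5a.pow_bd t0 (by nlinarith) (hτ b) s1 s3.le) (i3 b hb) (norm_nonneg _)
      (by positivity)

end Pool.Agent.Lib.MP_e1e19a_an
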