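import Pool.Agent.Lib.MP_e1e19a_an.N.Main

/-!
An arbitrary direction at infinity.
-/

namespace Pool.Agent.Lib.MP_e1e19a_an

open Real MeasureTheory Set
open scoped MatrixGroups ComplexConjugate UpperHalfPlane

set_option linter.unusedSectionVars false

variable {α : Type} [Fintype α] [DecidableEq α] [Inhabited α] (S : SchottkyData α)

namespace W1

/-- the map `z ↦ -1 / (z - ξ)` -/
def sg (ξ : ℝ) : SL(2, ℝ) := ⟨!![0, -1; 1, -ξ], by simp [Matrix.det_fin_two]⟩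

theorem sub_ne (ξ : ℝ) (z : ℍ) : (z : ℂ) - ξ ≠ 0 := fun e => by
  simpa [z.im_pos.ne'] using congrArg Complex.im e

theorem sg_smul (ξ : ℝ) (z : ℍ) : ((sg ξ • z : ℍ) : ℂ) = -1 / (z - ξ) := by
  have := coe_smul_mul (sg ξ) z
  rw [eq_div_iff (sub_ne ξ z)]
  simpa [sg, sub_eq_add_neg] using this

theorem nsq (ξ : ℝ) (z : ℍ) : ‖(z : ℂ) - ξ‖ ^ 2 = (z.re - ξ) ^ 2 + z.im ^ 2 := by
  rw [Complex.sq_norm, Complex.normSq_apply]
  simp [sq]

theorem sg_re (ξ : ℝ) (z : ℍ) : (sg ξ • z).re = -(z.re - ξ) / ((z.re - ξ) ^ 2 + z.im ^ 2) := by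
  rw [← UpperHalfPlane.coe_re, sg_smul, Complex.div_re, Complex.normSq_apply]
  simp [sq]

theorem sg_im (ξ : ℝ) (z : ℍ) : (sg ξ • z).im = z.im / ((z.re - ξ) ^ 2 + z.im ^ 2) := by
  rw [← UpperHalfPlane.coe_im, sg_smul, Complex.div_im, Complex.normSq_apply]
  simp [sq, neg_div]

theorem power (ξ : ℝ) (z : ℍ) {c ρ : ℝ} (h : 0 < (c - ξ) ^ 2 - ρ ^ 2) :
    ‖((sg ξ • z : ℍ) : ℂ) - (-(c - ξ) / ((c - ξ) ^ 2 - ρ ^ 2) : ℝ)‖ ^ 2 -
      (ρ / ((c - ξ) ^ 2 - ρ ^ 2)) ^ 2 = (‖(z : ℂ) - c‖ ^ 2 - ρ ^ 2) /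
        (((c - ξ) ^ 2 - ρ ^ 2) * ((z.re - ξ) ^ 2 + z.im ^ 2)) := by
  have y0 := z.im_pos
  rw [nsq, nsq, sg_re, sg_im]
  field_simp
  ring

theorem disc (ξ : ℝ) (z : ℍ) {c ρ : ℝ} (r0 : 0 < ρ) (h : 0 < (c - ξ) ^ 2 - ρ ^ 2) :
    (‖((sg ξ • z : ℍ) : ℂ) - (-(c - ξ) / ((c - ξ) ^ 2 - ρ ^ 2) : ℝ)‖ <
      ρ / ((c - ξ) ^ 2 - ρ ^ 2) ↔ ‖(z : ℂ) - c‖ < ρ) ∧
    (ρ / ((c - ξ) ^ 2 - ρ ^ 2) < ‖((sg ξ • z : ℍ) : ℂ) - (-(c - ξ) / ((c - ξ) ^ 2 - ρ ^ 2) : ℝ)‖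
      ↔ ρ < ‖(z : ℂ) - c‖) := by
  have y0 := z.im_pos
  have p := power ξ z h
  have a : 0 < ((c - ξ) ^ 2 - ρ ^ 2) * ((z.re - ξ) ^ 2 + z.im ^ 2) := by positivity
  constructor
  · rw [← pow_lt_pow_iff_left₀ (norm_nonneg _) (by positivity) two_ne_zero, ← sub_neg, p,
      div_lt_iff₀ a, zero_mul, sub_neg, pow_lt_pow_iff_left₀ (norm_nonneg _) r0.le two_ne_zero]
  · rw [← pow_lt_pow_iff_left₀ (by positivity) (norm_nonneg _) two_ne_zero, ← sub_pos, p,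
      div_pos_iff_of_pos_right a, sub_pos, pow_lt_pow_iff_left₀ r0.le (norm_nonneg _) two_ne_zero]

variable {ξ : ℝ} (hξ : ∀ j, S.ρ j < |ξ - S.c j|)

include hξ in
theorem den (j : α × Bool) : 0 < (S.c j - ξ) ^ 2 - S.ρ j ^ 2 := by
  have := pow_lt_pow_left₀ (hξ j) (S.pos j).le two_ne_zero
  rw [sq_abs] at this
  linarith

/-- the conjugate data -/
noncomputable def cj : SchottkyData α where
  gen i := sg ξ * S.gen i * (sg ξ)⁻¹
  c j := -(S.c j - ξ) / ((S.c j - ξ) ^ 2 - S.ρ j ^ 2)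
  ρ j := S.ρ j / ((S.c j - ξ) ^ 2 - S.ρ j ^ 2)
  pos j := div_pos (S.pos j) (den S hξ j)
  disj i j h := by
    have a := den S hξ i
    have b := den S hξ j
    have c := pow_lt_pow_left₀ (S.disj i j h) (add_pos (S.pos i) (S.pos j)).le two_ne_zero
    refine lt_of_pow_lt_pow_left₀ 2 (abs_nonneg _) ?_
    rw [sq_abs] at c ⊢
    rw [← sub_pos] at c ⊢
    convert div_pos c (mul_pos a b) using 1
    field_simp
    ring
  maps i z := by
    obtain ⟨w, rfl⟩ : ∃ w, z = sg ξ • w := ⟨(sg ξ)⁻¹ • z, (smul_inv_smul _ _).symm⟩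
    rw [mul_smul, mul_smul, inv_smul_smul, (disc ξ _ (S.pos _) (den S hξ _)).1,
      (disc ξ _ (S.pos _) (den S hξ _)).2, S.maps]

theorem cj_M (g : FreeGroup α) : (cj S hξ).M g = sg ξ * S.M g * (sg ξ)⁻¹ := by
  have : (cj S hξ).M = (MulAut.conj (sg ξ)).toMonoidHom.comp S.M :=
    FreeGroup.ext_hom _ _ fun i => by simp [SchottkyData.M, cj]
  rw [this]
  rfl

theorem cj_equiv : ∃ e : S.group ≃ (cj S hξ).group, 
    ∀ γ (z : ℍ), e γ • sg ξ • z = sg ξ • γ • z := by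
  obtain ⟨e, he⟩ := S.equiv
  obtain ⟨e', he'⟩ := (cj S hξ).equiv
  refine ⟨e.symm.trans e', fun γ z => ?_⟩
  obtain ⟨g, rfl⟩ := e.surjective γ
  simp only [Equiv.trans_apply, Equiv.symm_apply_apply, Subgroup.smul_def, he, he', cj_M, mul_smul,
    inv_smul_smul]

theorem orbit_bd (z : ℍ) : ∃ R, ∀ γ : S.group, ‖((γ • z : ℍ) : ℂ)‖ ≤ R := by
  obtain ⟨-, -, B, B1, -, -, b1, b2, -⟩ := S.geo
  obtain ⟨e, he⟩ := S.equiv
  have y0 := z.im_pos
  refine ⟨max ‖(z : ℂ)‖ (B + 4 * B ^ 2 / z.im), fun γ => ?_⟩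
  obtain ⟨g, rfl⟩ := e.surjective γ
  rw [Subgroup.smul_def, he]
  by_cases hg : g = 1
  · simp [hg]
  rw [S3.smul_eq S hg]
  refine le_max_of_le_right ((norm_sub_le _ _).trans (add_le_add (by simpa using b1 g hg) ?_))
  rw [norm_div, Complex.norm_real, Real.norm_of_nonneg (S.τ_pos hg).le]
  gcongr
  · exact b2 g
  · simpa [abs_of_pos y0] using Complex.abs_im_le_norm ((z : ℂ) - S.p g⁻¹)

theorem base {Γ : Subgroup SL(2, ℝ)} {z : ℍ} {r : ℝ} {γ : ℕ → Γ}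
    (h : Filter.Tendsto (fun n => ((γ n • z : ℍ) : ℂ)) Filter.atTop (nhds r)) : r ∈ limitSet Γ := by
  refine mem_closure_of_tendsto (f := fun n => ((γ n • UpperHalfPlane.I : ℍ) : ℂ))
    (h.congr_dist ?_) (Filter.Eventually.of_forall fun n => ⟨γ n, rfl⟩)
  have h1 := ((Complex.continuous_im.tendsto _).comp h).mul_const
    (exp (dist UpperHalfPlane.I z) - 1)
  rw [Complex.ofReal_im, zero_mul] at h1
  refine squeeze_zero (fun _ => dist_nonneg) (fun n => ?_) h1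
  have := UpperHalfPlane.dist_coe_le (γ n • UpperHalfPlane.I) (γ n • z)
  rwa [dist_comm, Subgroup.smul_def, Subgroup.smul_def, dist_smul] at this

theorem lim_cj {r : ℝ} (hr : r ∈ limitSet (cj S hξ).group) :
    r ≠ 0 ∧ ξ - 1 / r ∈ limitSet S.group := by
  obtain ⟨e, he⟩ := cj_equiv S hξ
  obtain ⟨x, hx, h⟩ := mem_closure_iff_seq_limit.1 hr
  choose γ hγ using hx
  obtain ⟨z, hz⟩ : ∃ z, UpperHalfPlane.I = sg ξ • z :=
    ⟨(sg ξ)⁻¹ • UpperHalfPlane.I, (smul_inv_smul _ _).symm⟩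
  obtain ⟨R, hR⟩ := orbit_bd S z
  have e1 : ∀ n, x n * ((e.symm (γ n) • z : ℍ) - ξ) = -1 := fun n => by
    rw [← hγ n]
    simp only
    rw [hz, ← e.apply_symm_apply (γ n), he, sg_smul, e.symm_apply_apply,
      div_mul_cancel₀ _ (sub_ne ξ _)]
  have r0 : r ≠ 0 := by
    rintro rfl
    have h1 := (h.norm.mul_const (R + |ξ|))
    simp only [Complex.ofReal_zero, norm_zero, zero_mul] at h1
    obtain ⟨n, hn⟩ := (h1.eventually (gt_mem_nhds one_pos)).exists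
    have := congrArg norm (e1 n)
    rw [norm_mul, norm_neg, norm_one] at this
    refine hn.not_ge (this.ge.trans ?_)
    gcongr
    exact (norm_sub_le _ _).trans (add_le_add (hR _) (by simp))
  refine ⟨r0, base (z := z) (γ := fun n => e.symm (γ n)) ?_⟩
  push_cast
  refine ((tendsto_const_nhds (x := (ξ : ℂ))).sub (tendsto_const_nhds.div h
    (Complex.ofReal_ne_zero.2 r0))).congr fun n => ?_
  have x0 : x n ≠ 0 := fun e => by simpa [e] using e1 n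
  simp only [Pi.div_apply]
  field_simp
  linear_combination -e1 n

theorem hull_cj {z : ℍ} (hz : sg ξ • z ∈ hull (limitSet (cj S hξ).group)) :
    z ∈ hull (limitSet S.group) := fun A B C H => by
  have y0 := z.im_pos
  have := hz (A * ξ ^ 2 + B * ξ + C) (-(2 * A * ξ + B)) A fun r hr => by
    obtain ⟨r0, h⟩ := lim_cj S hξ hr
    refine (mul_nonneg (H _ h) (sq_nonneg r)).trans_eq ?_
    field_simp
    ring
  rw [norm_sq_eq, sg_re, sg_im] at this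
  rw [norm_sq_eq]
  refine (mul_nonneg this (show 0 ≤ (z.re - ξ) ^ 2 + z.im ^ 2 by positivity)).trans_eq ?_
  field_simp
  ring

end W1

open W1

theorem SchottkyData.main' [Nontrivial α] (ξ : ℝ) (hξ : ∀ j, S.ρ j < |ξ - S.c j|) :
    ∃ l₀ > (0 : ℝ), ∃ E : ℂ → ℍ → ℂ,
    (∀ z, AnalyticOnNhd ℂ (fun s => E s z) {s | 1 / 2 ≤ s.re ∧ l₀ ≤ s.im}) ∧
    (∀ s : ℂ, 1 < s.re → l₀ ≤ s.im → ∀ z, HasSum (fun γ : S.group =>
      (((γ • z).im / ‖((γ • z : ℍ) : ℂ) - ξ‖ ^ 2 : ℝ) : ℂ) ^ s) (E s z)) ∧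
    ∃ c > (0 : ℝ), ∀ l ≥ l₀, ∀ C : ℂ, C ≠ 0 →
      ∃ 𝒟 : Finset (Set (Surf S.group)), c * l ^ 2 ≤ 𝒟.card ∧ ∀ D ∈ 𝒟,
        IsNodalDomain S.group (fun z => (C * E (1 / 2 + l * Complex.I) z).re) D ∧
          IsCompact (closure D) ∧
          closure D ⊆ interior (proj S.group '' hull (limitSet S.group)) := by
  classical
  obtain ⟨l₀, l0, E, a1, a2, c, c0, a3⟩ := (cj S hξ).main
  obtain ⟨e, he⟩ := cj_equiv S hξ
  let Φ : Surf S.group ≃ₜ Surf (cj S hξ).group :=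
    Homeomorph.Quotient.congr (Homeomorph.smul (sg ξ)) fun x y => by
      simp only [MulAction.orbitRel_apply, MulAction.mem_orbit_iff, Homeomorph.smul_apply]
      constructor
      · rintro ⟨γ, rfl⟩
        exact ⟨e γ, he _ _⟩
      · rintro ⟨γ, h⟩
        obtain ⟨γ, rfl⟩ := e.surjective γ
        exact ⟨γ, MulAction.injective (sg ξ) ((he _ _).symm.trans h)⟩
  have im : ∀ A : Set ℍ, Φ.symm '' (proj _ '' A) = proj _ '' {z | sg ξ • z ∈ A} := fun A => by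
    rw [← Φ.injective.image_injective.eq_iff, Φ.image_symm, Φ.surjective.image_preimage, image_image]
    ext q
    constructor
    · rintro ⟨w, hw, rfl⟩
      exact ⟨(sg ξ)⁻¹ • w, by simpa using hw, congrArg (proj _) (smul_inv_smul (sg ξ) w)⟩
    · rintro ⟨w, hw, rfl⟩
      exact ⟨_, hw, rfl⟩
  refine ⟨l₀, l0, fun s z => E s (sg ξ • z), fun z => a1 _, fun s h1 h2 z => ?_, c, c0,
    fun l hl C hC => ?_⟩
  · have := e.hasSum_iff.2 (a2 s h1 h2 (sg ξ • z))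
    convert this using 2 with γ
    simp only [Function.comp, he, sg_im, nsq]
  · obtain ⟨𝒟, d1, d2⟩ := a3 l hl C hC
    refine ⟨𝒟.image (Φ.symm '' ·), by
      rwa [Finset.card_image_of_injective _ Φ.symm.injective.image_injective], fun D hD => ?_⟩
    obtain ⟨D', hD', rfl⟩ := Finset.mem_image.1 hD
    obtain ⟨⟨q, q1, q2⟩, b2, b3⟩ := d2 D' hD'
    refine ⟨⟨Φ.symm q, fun h => q1 ?_, ?_⟩, ?_, ?_⟩
    · exact (Φ.symm.injective.mem_set_image).1 ((im _).ge h)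
    · rw [q2, Φ.symm.image_connectedComponentIn q1, image_compl_eq Φ.symm.bijective, im]
      rfl
    · rw [← Φ.symm.image_closure]
      exact b2.image Φ.symm.continuous
    · rw [← Φ.symm.image_closure]
      refine (image_mono b3).trans ?_
      rw [Φ.symm.image_interior, im]
      exact interior_mono (image_mono fun z hz => hull_cj S hξ hz)

end Pool.Agent.Lib.MP_e1e19a_an
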