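import Pool.Agent.Lib.MP_e1e19a_an.N.W1

/-!
All directions at infinity outside a countable set.
-/

namespace Pool.Agent.Lib.MP_e1e19a_an

open Real MeasureTheory Set
open scoped MatrixGroups ComplexConjugate UpperHalfPlane

set_option linter.unusedSectionVars false

variable {α : Type} [Fintype α] [DecidableEq α] [Inhabited α] (S : SchottkyData α)

namespace W2

/-- `m` maps the real point `x` to the real point `y` -/
def Rel (m : SL(2, ℝ)) (x y : ℝ) : Prop := y * (m 1 0 * x + m 1 1) = m 0 0 * x + m 0 1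

theorem Rel.ne {m : SL(2, ℝ)} {x y : ℝ} (h : Rel m x y) : m 1 0 * x + m 1 1 ≠ 0 := fun e =>
  one_ne_zero (α := ℝ) (by
    unfold Rel at h
    linear_combination (m 0 0 - y * m 1 0) * e + m 1 0 * h - det2 m)

theorem Rel.mul {m n : SL(2, ℝ)} {x y z : ℝ} (h : Rel m y z) (h' : Rel n x y) :
    Rel (m * n) x z := by
  unfold Rel at *
  simp only [Matrix.SpecialLinearGroup.coe_mul, Matrix.mul_apply, Fin.sum_univ_two]
  linear_combination (n 1 0 * x + n 1 1) * h + (m 0 0 - z * m 1 0) * h'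

theorem Rel.sub {m : SL(2, ℝ)} {x y : ℝ} (h : Rel m x y) (z : ℍ) :
    (((m • z : ℍ) : ℂ) - y) * ((m 1 0 * z + m 1 1) * (m 1 0 * x + m 1 1 : ℝ)) = z - x := by
  have h1 : (y * (m 1 0 * x + m 1 1) : ℂ) = m 0 0 * x + m 0 1 := by exact_mod_cast h
  have d : (m 0 0 * m 1 1 - m 0 1 * m 1 0 : ℂ) = 1 := by exact_mod_cast det2 m
  push_cast
  linear_combination (m 1 0 * x + m 1 1) * coe_smul_mul m z - (m 1 0 * z + m 1 1) * h1 +
    (z - x) * d

theorem Rel.pois {m : SL(2, ℝ)} {x y : ℝ} (h : Rel m x y) (z : ℍ) :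
    (m • z).im / ‖((m • z : ℍ) : ℂ) - y‖ ^ 2 =
      (m 1 0 * x + m 1 1) ^ 2 * (z.im / ‖(z : ℂ) - x‖ ^ 2) := by
  have h0 := h.ne
  have q := QQ_pos m (w := (z.re, z.im)) z.im_pos
  have a : ‖((m • z : ℍ) : ℂ) - y‖ ≠ 0 := norm_ne_zero_iff.2 (W1.sub_ne _ _)
  rw [← h.sub z, norm_mul, norm_mul, mul_pow, mul_pow, norm_den, im_eq, Complex.norm_real,
    Real.norm_eq_abs, sq_abs]
  field_simp

theorem Rel.out {j : α × Bool} {x y : ℝ} (h : Rel (S.M (S3.lt j)) x y) (hy : |y - S.c j| < S.ρ j) :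
    S.ρ (j.1, !j.2) ≤ |x - S.c (j.1, !j.2)| := by
  by_contra hx
  rw [not_le] at hx
  let m := S.M (S3.lt j)
  let f : ℝ → ℂ := fun t => x + t * Complex.I
  have c1 : ContinuousAt (fun t => ‖f t - S.c (j.1, !j.2)‖) 0 := by fun_prop
  have c2 : ContinuousAt (fun t => ‖y + (f t - x) / ((m 1 0 * f t + m 1 1) *
      (m 1 0 * x + m 1 1 : ℝ)) - S.c j‖) 0 := by
    refine ContinuousAt.norm (ContinuousAt.sub (continuousAt_const.add (ContinuousAt.div
      (by fun_prop) (by fun_prop) ?_)) continuousAt_const)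
    simp only [f, Complex.ofReal_zero, zero_mul, add_zero]
    exact_mod_cast mul_ne_zero h.ne h.ne
  have e1 := c1.eventually (gt_mem_nhds (a := S.ρ (j.1, !j.2)) (by
    simpa [f, ← Complex.ofReal_sub] using hx))
  have e2 := c2.eventually (gt_mem_nhds (a := S.ρ j) (by simpa [f, ← Complex.ofReal_sub] using hy))
  obtain ⟨t, ⟨a, b⟩, t0⟩ := (((e1.and e2).filter_mono nhdsWithin_le_nhds).and
    (self_mem_nhdsWithin (s := Ioi (0 : ℝ)))).exists
  let z : ℍ := ⟨f t, by simpa [f] using t0⟩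
  have e3 : ((m • z : ℍ) : ℂ) = y + (f t - x) / ((m 1 0 * f t + m 1 1) *
      (m 1 0 * x + m 1 1 : ℝ)) := by
    have := h.sub z
    have n0 : (m 1 0 * f t + m 1 1) * (m 1 0 * x + m 1 1 : ℝ) ≠ 0 := fun e =>
      W1.sub_ne x z (by rw [← this]; exact mul_eq_zero_of_right _ e)
    rw [← sub_eq_iff_eq_add', eq_div_iff n0]
    exact this
  rw [← e3] at b
  obtain ⟨i, _ | _⟩ := j
  · have e : m = (S.gen i)⁻¹ := by simp [m, S3.lt, SchottkyData.M, FreeGroup.lift_mk]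
    have := (S.maps i (m • z)).1 (by rw [e, smul_inv_smul]; exact a)
    exact absurd this (not_lt.2 b.le)
  · have e : m = S.gen i := by simp [m, S3.lt, SchottkyData.M, FreeGroup.lift_mk]
    exact absurd ((S.maps i z).1 (e ▸ b)) (not_lt.2 a.le)

theorem Rel.eq {g : FreeGroup α} (hg : g ≠ 1) {x y : ℝ} (h : Rel (S.M g) x y) :
    (S.p g - y) * (x - S.p g⁻¹) = S.τ g := by
  have c0 := S.c_ne hg
  rw [SchottkyData.p, SchottkyData.p, SchottkyData.τ, (S1.inv_entries S g).1,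
    (S1.inv_entries S g).2.2.1]
  unfold Rel at h
  field_simp
  linear_combination det2 (S.M g) - S.M g 1 0 * h

/-- the exceptional points -/
def Exc : Set ℝ := range S.p ∪ {y | ∃ g j, Rel (S.M g) (S.c j + S.ρ j) y ∨
  Rel (S.M g) (S.c j - S.ρ j) y}

theorem exc_count : (Exc S).Countable := by
  have key : ∀ g x, {y | Rel (S.M g) x y}.Countable := fun g x =>
    Set.Subsingleton.countable fun y h y' h' => mul_right_cancel₀ h.ne (h.trans h'.symm)
  have : Countable (FreeGroup α) := FreeGroup.toWord_injective.countable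
  refine (countable_range _).union ?_
  simp only [ofPred_exists, ofPred_or]
  exact countable_iUnion fun g => countable_iUnion fun j => (key _ _).union (key _ _)

theorem descent {ξ : ℝ} (h1 : ξ ∉ Exc S) (h2 : ξ ∉ S.Lam) :
    ∃ g x, Rel (S.M g) x ξ ∧ ∀ j, S.ρ j < |x - S.c j| := by
  by_contra H
  push Not at H
  obtain ⟨γ, ⟨γ0, γ1⟩, -, -, hγ, -⟩ := S.geo
  have ins : ∀ g x, Rel (S.M g) x ξ → ∃ j, |x - S.c j| < S.ρ j := fun g x h => by
    obtain ⟨j, hj⟩ := H g x h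
    refine ⟨j, hj.lt_of_ne fun e => h1 (Or.inr ⟨g, j, ?_⟩)⟩
    rcases (abs_eq (S.pos j).le).1 e with e | e
    · exact Or.inl (by rwa [← e, add_sub_cancel])
    · exact Or.inr (by rwa [sub_eq_add_neg, ← e, add_sub_cancel])
  have next : ∀ g x j, Rel (S.M g) x ξ → ∃ x', Rel (S.M (S3.lt j)) x' x := fun g x j h => by
    let m := S.M (S3.lt j)
    have : m 0 0 - x * m 1 0 ≠ 0 := fun e => h1 (Or.inl ⟨g * S3.lt j, ?_⟩)
    · refine ⟨(x * m 1 1 - m 0 1) / (m 0 0 - x * m 1 0), ?_⟩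
      unfold Rel
      field_simp
      ring
    · have c0 := S.c_ne (S3.lt_ne j)
      have e1 : S.M (g * S3.lt j) 1 0 = (S.M g 1 0 * x + S.M g 1 1) * m 1 0 := by
        simp only [map_mul, Matrix.SpecialLinearGroup.coe_mul, Matrix.mul_apply, Fin.sum_univ_two]
        linear_combination S.M g 1 0 * e
      rw [SchottkyData.p, e1, div_eq_iff (mul_ne_zero h.ne c0), ← mul_assoc, h]
      simp only [map_mul, Matrix.SpecialLinearGroup.coe_mul, Matrix.mul_apply, Fin.sum_univ_two]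
      linear_combination S.M g 0 0 * e
  have P : ∀ n, ∃ g x, g.norm = n + 1 ∧ Rel (S.M g) x ξ ∧
      S.ρ (hd g⁻¹) ≤ |x - S.c (hd g⁻¹)| := fun n => by
    induction n with
    | zero =>
      have r : Rel (S.M 1) ξ ξ := by simp [Rel]
      obtain ⟨j, hj⟩ := ins _ _ r
      obtain ⟨x, hx⟩ := next _ _ j r
      exact ⟨_, x, S3.lt_norm j, hx, S3.lt_hd_inv j ▸ hx.out S hj⟩
    | succ n ih =>
      obtain ⟨g, x, g1, g2, g3⟩ := ih
      obtain ⟨j, hj⟩ := ins _ _ g2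
      obtain ⟨y, hy⟩ := next _ _ j g2
      have g0 : g ≠ 1 := by rintro rfl; simp at g1
      obtain ⟨-, -, -, c1, c2⟩ := compat g0 (S3.lt_ne j) (by
        rw [S3.lt_hd]
        rintro rfl
        exact hj.not_ge g3)
      refine ⟨g * S3.lt j, y, by rw [c2, g1, S3.lt_norm], map_mul S.M _ _ ▸ g2.mul hy, ?_⟩
      rw [c1, S3.lt_hd_inv]
      exact hy.out S hj
  refine h2 fun ε ε0 => ?_
  obtain ⟨N, hN⟩ := ((S2.fin S (mul_pos ε0 γ0)).image FreeGroup.norm).bddAbove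
  obtain ⟨g, x, g1, g2, g3⟩ := P N
  have g0 : g ≠ 1 := by rintro rfl; simp at g1
  have t1 : S.τ g < ε * γ := not_le.1 fun h => by
    have := hN ⟨g, h, rfl⟩
    omega
  obtain ⟨j, hj⟩ := ins _ _ g2
  have a := hγ j (hd g⁻¹) (by rintro rfl; exact hj.not_ge g3) _ _ hj.le
    (S.p_mem (inv_ne_one.2 g0))
  refine ⟨g, g0, by nlinarith, le_of_mul_le_mul_right ?_ γ0⟩
  have := congrArg abs (g2.eq S g0)
  rw [abs_mul, abs_of_pos (S.τ_pos g0)] at this
  nlinarith [abs_nonneg (S.p g - ξ)]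

end W2

open W2

theorem SchottkyData.main'' [Nontrivial α] : ∃ N : Set ℝ, N.Countable ∧ ∀ ξ ∉ N,
    ξ ∉ limitSet S.group → ∃ l₀ > (0 : ℝ), ∃ E : ℂ → ℍ → ℂ,
    (∀ z, AnalyticOnNhd ℂ (fun s => E s z) {s | 1 / 2 ≤ s.re ∧ l₀ ≤ s.im}) ∧
    (∀ s : ℂ, 1 < s.re → l₀ ≤ s.im → ∀ z, HasSum (fun γ : S.group =>
      (((γ • z).im / ‖((γ • z : ℍ) : ℂ) - ξ‖ ^ 2 : ℝ) : ℂ) ^ s) (E s z)) ∧
    ∃ c > (0 : ℝ), ∀ l ≥ l₀, ∀ C : ℂ, C ≠ 0 →
      ∃ 𝒟 : Finset (Set (Surf S.group)), c * l ^ 2 ≤ 𝒟.card ∧ ∀ D ∈ 𝒟,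
        IsNodalDomain S.group (fun z => (C * E (1 / 2 + l * Complex.I) z).re) D ∧
          IsCompact (closure D) ∧
          closure D ⊆ interior (proj S.group '' hull (limitSet S.group)) := by
  refine ⟨Exc S, exc_count S, fun ξ h1 h2 => ?_⟩
  obtain ⟨g, x, r, hx⟩ := descent S h1 fun h => h2 (S.Lam_sub h)
  obtain ⟨l₀, l0, E, a1, a2, c, c0, a3⟩ := S.main' x hx
  obtain ⟨e, he⟩ := S.equiv
  obtain ⟨κ, hκ⟩ : ∃ κ, κ = (S.M g 1 0 * x + S.M g 1 1) ^ 2 := ⟨_, rfl⟩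
  have k0 : 0 < κ := hκ ▸ sq_pos_of_ne_zero r.ne
  have k1 : (κ : ℂ) ≠ 0 := Complex.ofReal_ne_zero.2 k0.ne'
  refine ⟨l₀, l0, fun s z => κ ^ s * E s z, fun z => AnalyticOnNhd.mul (fun s _ =>
    (Differentiable.const_cpow differentiable_id (Or.inl k1)).analyticAt s) (a1 z),
    fun s s1 s2 z => ?_, c, c0, fun l hl C hC => ?_⟩
  · rw [← (Equiv.mulLeft (e g)).hasSum_iff]
    refine Eq.mp (congrArg (HasSum · _) (funext fun γ => Eq.symm ?_))
      ((a2 s s1 s2 z).mul_left ((κ : ℂ) ^ s))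
    simp only [Function.comp, Equiv.coe_mulLeft, mul_smul]
    rw [Subgroup.smul_def (e g), he, r.pois, ← hκ, Complex.ofReal_mul,
      Complex.mul_cpow_ofReal_nonneg k0.le (div_nonneg (UpperHalfPlane.im_pos _).le (sq_nonneg _))]
  · simpa only [mul_assoc] using a3 l hl (C * κ ^ (1 / 2 + l * Complex.I))
      (mul_ne_zero hC (by simp [k1]))

end Pool.Agent.Lib.MP_e1e19a_an
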