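import Pool.Agent.Lib.MP_e1e19a_an.N.W2

/-!
Every direction at infinity.
-/

namespace Pool.Agent.Lib.MP_e1e19a_an

open Real MeasureTheory Set Filter
open scoped MatrixGroups ComplexConjugate UpperHalfPlane Topology

set_option linter.unusedSectionVars false

variable {α : Type} [Fintype α] [DecidableEq α] [Inhabited α] (S : SchottkyData α)

namespace W3

open W2

theorem half {c ρ c' ρ' : ℝ} (r0 : 0 < ρ)
    (h : ∀ w : ℍ, ‖(w : ℂ) - c‖ < ρ → ‖(w : ℂ) - c'‖ < ρ') : |c - c'| + ρ ≤ ρ' := by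
  by_contra H
  rw [not_le] at H
  obtain ⟨t, t0, t1, t2⟩ : ∃ t, 0 ≤ t ∧ t < ρ ∧ ρ' ≤ |c - c'| + t :=
    ⟨max 0 (ρ' - |c - c'|), le_max_left _ _, max_lt r0 (by linarith),
      by linarith [le_max_right 0 (ρ' - |c - c'|)]⟩
  obtain ⟨x, x1, x2⟩ : ∃ x, |x - c| = t ∧ |x - c'| = |c - c'| + t := by
    rcases le_total c c' with e | e
    · exact ⟨c - t, by rw [abs_of_nonpos] <;> linarith, by
        rw [abs_of_nonpos, abs_of_nonpos] <;> linarith⟩
    · exact ⟨c + t, by rw [abs_of_nonneg] <;> linarith, by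
        rw [abs_of_nonneg, abs_of_nonneg] <;> linarith⟩
  let w : ℍ := ⟨⟨x, (ρ - t) / 2⟩, by show 0 < (ρ - t) / 2; linarith⟩
  have a := Complex.norm_le_abs_re_add_abs_im ((w : ℂ) - c)
  have b := Complex.abs_re_le_norm ((w : ℂ) - c')
  have e1 : ((w : ℂ) - c).re = x - c := by simp [w]
  have e2 : ((w : ℂ) - c).im = (ρ - t) / 2 := by simp [w]
  have e3 : ((w : ℂ) - c').re = x - c' := by simp [w]
  rw [e1, e2, x1, abs_of_pos (by linarith)] at a
  rw [e3, x2] at b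
  linarith [h w (by linarith)]

theorem img {p τ q c t : ℝ} (τ0 : 0 < τ) (h : |c - q| < t) (z : ℍ) :
    ‖(p : ℂ) - τ / (z - q) - (p + τ * (c - q) / (t ^ 2 - (c - q) ^ 2) : ℝ)‖ <
      τ * t / (t ^ 2 - (c - q) ^ 2) ↔ t < ‖(z : ℂ) - c‖ := by
  have t0 : 0 < t := (abs_nonneg _).trans_lt h
  have d : 0 < t ^ 2 - (c - q) ^ 2 := by
    have := pow_lt_pow_left₀ h (abs_nonneg _) two_ne_zero
    rw [sq_abs] at this
    linarith
  have y0 := z.im_pos
  have n : (p : ℂ) - τ / (z - q) - (p + τ * (c - q) / (t ^ 2 - (c - q) ^ 2) : ℝ) =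
      τ * (((W1.sg q • z : ℍ) : ℂ) - ((c - q) / (t ^ 2 - (c - q) ^ 2) : ℝ)) := by
    rw [W1.sg_smul]
    push_cast
    ring
  have e : (t / (t ^ 2 - (c - q) ^ 2)) ^ 2 -
      ‖((W1.sg q • z : ℍ) : ℂ) - ((c - q) / (t ^ 2 - (c - q) ^ 2) : ℝ)‖ ^ 2 =
      (‖(z : ℂ) - c‖ ^ 2 - t ^ 2) / ((t ^ 2 - (c - q) ^ 2) * ((z.re - q) ^ 2 + z.im ^ 2)) := by
    rw [W1.nsq, W1.nsq, W1.sg_re, W1.sg_im]
    field_simp
    ring
  rw [n, norm_mul, Complex.norm_real, Real.norm_of_nonneg τ0.le, mul_div_assoc,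
    mul_lt_mul_iff_right₀ τ0, ← pow_lt_pow_iff_left₀ (norm_nonneg _) (by positivity) two_ne_zero,
    ← sub_pos, e, div_pos_iff_of_pos_right (by positivity), sub_pos,
    pow_lt_pow_iff_left₀ t0.le (norm_nonneg _) two_ne_zero]

theorem gen_eq (i : α) (z : ℍ) : ((S.gen i • z : ℍ) : ℂ) =
    S.p (.of i) - S.τ (.of i) / (z - S.p (FreeGroup.of i)⁻¹) := by
  rw [← S3.smul_eq S (FreeGroup.of_ne_one i)]
  simp [SchottkyData.M]

theorem pole (i : α) : |S.c (i, false) - S.p (FreeGroup.of i)⁻¹| < S.ρ (i, false) := by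
  by_contra H
  rw [not_lt] at H
  have τ0 := S.τ_pos (FreeGroup.of_ne_one i)
  have r1 := S.pos (i, true)
  have r2 := S.pos (i, false)
  let z : ℍ := ⟨⟨S.p (FreeGroup.of i)⁻¹, S.τ (.of i) / S.ρ (i, true)⟩, div_pos τ0 r1⟩
  have a := (S.maps i z).2 (by
    refine lt_of_pow_lt_pow_left₀ 2 (norm_nonneg _) ?_
    have := pow_le_pow_left₀ r2.le H 2
    have y := sq_pos_of_pos z.im_pos
    rw [sq_abs] at this
    rw [W1.nsq]
    have e : z.re = S.p (FreeGroup.of i)⁻¹ := rfl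
    rw [e]
    linarith)
  refine a.not_ge (le_trans (le_of_eq ?_) ((le_abs_self _).trans (Complex.abs_im_le_norm _)))
  have e : (z : ℂ) - S.p (FreeGroup.of i)⁻¹ = (S.τ (.of i) / S.ρ (i, true) : ℝ) * Complex.I := by
    apply Complex.ext <;> simp [z]
  have e' : (S.τ (.of i) : ℂ) / ((S.τ (.of i) / S.ρ (i, true) : ℝ) * Complex.I) =
      -(S.ρ (i, true) * Complex.I) := by
    have : (S.τ (.of i) : ℂ) ≠ 0 := Complex.ofReal_ne_zero.2 τ0.ne'
    have : (S.ρ (i, true) : ℂ) ≠ 0 := Complex.ofReal_ne_zero.2 r1.ne'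
    push_cast
    field_simp
    simp
  rw [gen_eq, e, e']
  simp

/-- the centres after the radius of the disc `(i, false)` is changed to `t` -/
noncomputable def cc (i : α) (t : ℝ) (j : α × Bool) : ℝ :=
  if j = (i, true) then S.p (.of i) + S.τ (.of i) * (S.c (i, false) - S.p (FreeGroup.of i)⁻¹) /
    (t ^ 2 - (S.c (i, false) - S.p (FreeGroup.of i)⁻¹) ^ 2) else S.c j

/-- the radii after the radius of the disc `(i, false)` is changed to `t` -/
noncomputable def rr (i : α) (t : ℝ) (j : α × Bool) : ℝ :=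
  if j = (i, true) then S.τ (.of i) * t /
    (t ^ 2 - (S.c (i, false) - S.p (FreeGroup.of i)⁻¹) ^ 2)
  else if j = (i, false) then t else S.ρ j

theorem den {u t : ℝ} (h : |u| < t) : 0 < t ^ 2 - u ^ 2 := by
  have := pow_lt_pow_left₀ h (abs_nonneg _) two_ne_zero
  rw [sq_abs] at this
  linarith

theorem at_self (i : α) (j : α × Bool) :
    cc S i (S.ρ (i, false)) j = S.c j ∧ rr S i (S.ρ (i, false)) j = S.ρ j := by
  unfold cc rr
  split_ifs with h h'
  · have τ0 := S.τ_pos (FreeGroup.of_ne_one i)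
    have key := fun w : ℍ => (S.maps i ((S.gen i)⁻¹ • w)).trans
      (img (p := S.p (.of i)) τ0 (pole S i) ((S.gen i)⁻¹ • w)).symm
    simp only [← gen_eq, smul_inv_smul] at key
    have a := half (S.pos _) fun w => (key w).1
    have b := half (div_pos (mul_pos τ0 (S.pos _)) (den (pole S i))) fun w => (key w).2
    rw [abs_sub_comm] at a
    have c := abs_nonneg (S.p (.of i) + S.τ (.of i) * (S.c (i, false) - S.p (FreeGroup.of i)⁻¹) /
      (S.ρ (i, false) ^ 2 - (S.c (i, false) - S.p (FreeGroup.of i)⁻¹) ^ 2) - S.c (i, true))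
    subst h
    exact ⟨sub_eq_zero.1 (abs_eq_zero.1 (by linarith)), by linarith⟩
  · exact ⟨rfl, h' ▸ rfl⟩
  · exact ⟨rfl, rfl⟩

theorem cont (i : α) (j : α × Bool) : Tendsto (cc S i · j) (𝓝 (S.ρ (i, false))) (𝓝 (S.c j)) ∧
    Tendsto (rr S i · j) (𝓝 (S.ρ (i, false))) (𝓝 (S.ρ j)) := by
  rw [← (at_self S i j).1, ← (at_self S i j).2]
  have d := (den (pole S i)).ne'
  unfold cc rr
  constructor
  · split_ifs
    · exact ContinuousAt.tendsto (f := fun t : ℝ => _ + _ / (t ^ 2 - _)) (by fun_prop (disch := exact d))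
    · exact tendsto_const_nhds
  · split_ifs
    · exact ContinuousAt.tendsto (f := fun t : ℝ => _ * t / (t ^ 2 - _)) (by fun_prop (disch := exact d))
    · exact tendsto_id
    · exact tendsto_const_nhds

theorem resize {x : ℝ} {j₀ : α × Bool} (hx : |x - S.c j₀| = S.ρ j₀) :
    ∃ S' : SchottkyData α, S'.gen = S.gen ∧ ∀ j, S'.ρ j < |x - S'.c j| := by
  obtain ⟨i, b⟩ := j₀
  have τ0 := S.τ_pos (FreeGroup.of_ne_one i)
  have e1 : ∀ᶠ t in 𝓝 (S.ρ (i, false)), |S.c (i, false) - S.p (FreeGroup.of i)⁻¹| < t :=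
    lt_mem_nhds (pole S i)
  have e2 : ∀ᶠ t in 𝓝 (S.ρ (i, false)), ∀ j, 0 < rr S i t j :=
    eventually_all.2 fun j => (cont S i j).2.eventually (lt_mem_nhds (S.pos j))
  have e3 : ∀ᶠ t in 𝓝 (S.ρ (i, false)), ∀ j k, j ≠ k →
      rr S i t j + rr S i t k < |cc S i t j - cc S i t k| :=
    eventually_all.2 fun j => eventually_all.2 fun k => eventually_all.2 fun h =>
      ((cont S i j).2.add (cont S i k).2).eventually_lt ((cont S i j).1.sub (cont S i k).1).abs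
        (S.disj j k h)
  have e4 : ∀ᶠ t in 𝓝 (S.ρ (i, false)), ∀ j, j ≠ (i, b) → rr S i t j < |x - cc S i t j| :=
    eventually_all.2 fun j => eventually_all.2 fun h =>
      (cont S i j).2.eventually_lt (tendsto_const_nhds.sub (cont S i j).1).abs (by
        have := S.disj j _ h
        have := abs_sub_le (S.c j) x (S.c (i, b))
        rw [abs_sub_comm x]
        linarith)
  have e5 : ∃ᶠ t in 𝓝 (S.ρ (i, false)), rr S i t (i, b) < |x - cc S i t (i, b)| := by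
    cases b
    · refine (Eventually.frequently (f := 𝓝[<] S.ρ (i, false)) (eventually_mem_nhdsWithin.mono
        fun t t1 => ?_)).filter_mono nhdsWithin_le_nhds
      simpa [cc, rr, hx] using t1
    · refine (Eventually.frequently (f := 𝓝[>] S.ρ (i, false)) (eventually_mem_nhdsWithin.mono
        fun t t1 => ?_)).filter_mono nhdsWithin_le_nhds
      rw [← (at_self S i (i, true)).2, ← (at_self S i (i, true)).1] at hx
      simp only [cc, rr, if_true] at hx ⊢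
      have g1 := abs_lt.1 (pole S i)
      have t2 : S.ρ (i, false) < t := t1
      have r0 := S.pos (i, false)
      generalize S.c (i, false) - S.p (FreeGroup.of i)⁻¹ = u at *
      generalize S.ρ (i, false) = r at *
      have a1 : 0 < r - u := by linarith
      have a2 : 0 < r + u := by linarith
      have a3 : 0 < t - u := by linarith
      have a4 : 0 < t + u := by linarith
      have s : ∀ v : ℝ, v ^ 2 - u ^ 2 = (v - u) * (v + u) := fun v => by ring
      rw [s] at hx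
      rw [s]
      have k1 : ∀ v : ℝ, 0 < v - u → 0 < v + u → S.τ (.of i) * u / ((v - u) * (v + u)) +
          S.τ (.of i) * v / ((v - u) * (v + u)) = S.τ (.of i) / (v - u) := fun v _ _ => by
        field_simp
        ring
      have k2 : ∀ v : ℝ, 0 < v - u → 0 < v + u → S.τ (.of i) * v / ((v - u) * (v + u)) -
          S.τ (.of i) * u / ((v - u) * (v + u)) = S.τ (.of i) / (v + u) := fun v _ _ => by
        field_simp
      have m1 : S.τ (.of i) / (t - u) < S.τ (.of i) / (r - u) := by gcongr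
      have m2 : S.τ (.of i) / (t + u) < S.τ (.of i) / (r + u) := by gcongr
      rw [lt_abs]
      rcases (abs_eq (by positivity)).1 hx with e | e
      · exact Or.inl (by linarith [k1 r a1 a2, k1 t a3 a4])
      · exact Or.inr (by linarith [k2 r a1 a2, k2 t a3 a4])
  obtain ⟨t, f5, ⟨⟨f1, f2⟩, f3⟩, f4⟩ := (e5.and_eventually (((e1.and e2).and e3).and e4)).exists
  refine ⟨⟨S.gen, cc S i t, rr S i t, f2, f3, fun k z => ?_⟩, rfl, fun j => ?_⟩
  · by_cases h : k = i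
    · subst h
      simpa [cc, rr, gen_eq] using img (p := S.p (.of k)) τ0 f1 z
    · simpa [cc, rr, h] using S.maps k z
  · by_cases h : j = (i, b)
    · exact h ▸ f5
    · exact f4 j h

theorem descent {ξ : ℝ} (h0 : ∀ g, g ≠ 1 → S.p g ≠ ξ)
    (h1 : ∀ g x j, Rel (S.M g) x ξ → |x - S.c j| ≠ S.ρ j) (h2 : ξ ∉ S.Lam) :
    ∃ g x, Rel (S.M g) x ξ ∧ ∀ j, S.ρ j < |x - S.c j| := by
  by_contra H
  push Not at H
  obtain ⟨γ, ⟨γ0, γ1⟩, -, -, hγ, -⟩ := S.geo
  have ins : ∀ g x, Rel (S.M g) x ξ → ∃ j, |x - S.c j| < S.ρ j := fun g x h => by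
    obtain ⟨j, hj⟩ := H g x h
    exact ⟨j, hj.lt_of_ne (h1 g x j h)⟩
  have next : ∀ g x j, Rel (S.M g) x ξ → ∃ x', Rel (S.M (S3.lt j)) x' x := fun g x j h => by
    let m := S.M (S3.lt j)
    have : m 0 0 - x * m 1 0 ≠ 0 := fun e => ?_
    · refine ⟨(x * m 1 1 - m 0 1) / (m 0 0 - x * m 1 0), ?_⟩
      unfold W2.Rel
      field_simp
      ring
    · have c0 := S.c_ne (S3.lt_ne j)
      have e1 : S.M (g * S3.lt j) 1 0 = (S.M g 1 0 * x + S.M g 1 1) * m 1 0 := by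
        simp only [map_mul, Matrix.SpecialLinearGroup.coe_mul, Matrix.mul_apply, Fin.sum_univ_two]
        linear_combination S.M g 1 0 * e
      refine h0 (g * S3.lt j) (fun e0 => mul_ne_zero h.ne c0 (by rw [← e1, e0]; simp)) ?_
      rw [SchottkyData.p, e1, div_eq_iff (mul_ne_zero h.ne c0), ← mul_assoc, h]
      simp only [map_mul, Matrix.SpecialLinearGroup.coe_mul, Matrix.mul_apply, Fin.sum_univ_two]
      linear_combination S.M g 0 0 * e
  have P : ∀ n, ∃ g x, g.norm = n + 1 ∧ Rel (S.M g) x ξ ∧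
      S.ρ (hd g⁻¹) ≤ |x - S.c (hd g⁻¹)| := fun n => by
    induction n with
    | zero =>
      have r : Rel (S.M 1) ξ ξ := by simp [W2.Rel]
      obtain ⟨j, hj⟩ := ins _ _ r
      obtain ⟨x, hx⟩ := next _ _ j r
      exact ⟨_, x, S3.lt_norm j, hx, S3.lt_hd_inv j ▸ hx.out S hj⟩
    | succ n ih =>
      obtain ⟨g, x, g1, g2, g3⟩ := ih
      obtain ⟨j, hj⟩ := ins _ _ g2
      obtain ⟨y, hy⟩ := next _ _ j g2
      have g0 : g ≠ 1 := by rintro rfl; simp at g1
      obtain ⟨-, -, -, c1, c2⟩ := compat g0 (S3.lt_ne j) (by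
        rw [S3.lt_hd]
        rintro rfl
        exact hj.not_ge g3)
      refine ⟨g * S3.lt j, y, by rw [c2, g1, S3.lt_norm], map_mul S.M _ _ ▸ g2.mul hy, ?_⟩
      rw [c1, S3.lt_hd_inv]
      exact hy.out S hj
  refine h2 fun ε ε0 => ?_
  obtain ⟨N, hN⟩ := ((S2.fin S (mul_pos ε0 γ0)).image FreeGroup.norm).bddAbove
  obtain ⟨g, x, g1, g2, g3⟩ := P N
  have g0 : g ≠ 1 := by rintro rfl; simp at g1
  have t1 : S.τ g < ε * γ := not_le.1 fun h => by
    have := hN ⟨g, h, rfl⟩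
    omega
  obtain ⟨j, hj⟩ := ins _ _ g2
  have a := hγ j (hd g⁻¹) (by rintro rfl; exact hj.not_ge g3) _ _ hj.le
    (S.p_mem (inv_ne_one.2 g0))
  refine ⟨g, g0, by nlinarith, le_of_mul_le_mul_right ?_ γ0⟩
  have := congrArg abs (g2.eq S g0)
  rw [abs_mul, abs_of_pos (S.τ_pos g0)] at this
  nlinarith [abs_nonneg (S.p g - ξ)]

/-- the conclusion for a kernel `K` -/
def Concl (Γ : Subgroup SL(2, ℝ)) (K : ℍ → ℝ) : Prop := ∃ l₀ > (0 : ℝ), ∃ E : ℂ → ℍ → ℂ,
    (∀ z, AnalyticOnNhd ℂ (fun s => E s z) {s | 1 / 2 ≤ s.re ∧ l₀ ≤ s.im}) ∧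
    (∀ s : ℂ, 1 < s.re → l₀ ≤ s.im → ∀ z, HasSum (fun γ : Γ => (K (γ • z) : ℂ) ^ s) (E s z)) ∧
    ∃ c > (0 : ℝ), ∀ l ≥ l₀, ∀ C : ℂ, C ≠ 0 →
      ∃ 𝒟 : Finset (Set (Surf Γ)), c * l ^ 2 ≤ 𝒟.card ∧ ∀ D ∈ 𝒟,
        IsNodalDomain Γ (fun z => (C * E (1 / 2 + l * Complex.I) z).re) D ∧
          IsCompact (closure D) ∧ closure D ⊆ interior (proj Γ '' hull (limitSet Γ))

theorem Concl.move {Γ : Subgroup SL(2, ℝ)} {K K' : ℍ → ℝ} (h : Concl Γ K) (K0 : ∀ w, 0 ≤ K w)
    (g : Γ) {κ : ℝ} (k0 : 0 < κ) (hK : ∀ w, K' (g • w) = κ * K w) : Concl Γ K' := by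
  obtain ⟨l₀, l0, E, a1, a2, c, c0, a3⟩ := h
  have k1 : (κ : ℂ) ≠ 0 := Complex.ofReal_ne_zero.2 k0.ne'
  refine ⟨l₀, l0, fun s z => κ ^ s * E s z, fun z => AnalyticOnNhd.mul (fun s _ =>
    (Differentiable.const_cpow differentiable_id (Or.inl k1)).analyticAt s) (a1 z),
    fun s s1 s2 z => ?_, c, c0, fun l hl C hC => ?_⟩
  · rw [← (Equiv.mulLeft g).hasSum_iff]
    refine Eq.mp (congrArg (HasSum · _) (funext fun γ => Eq.symm ?_))
      ((a2 s s1 s2 z).mul_left ((κ : ℂ) ^ s))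
    simp only [Function.comp, Equiv.coe_mulLeft, mul_smul]
    rw [hK, Complex.ofReal_mul, Complex.mul_cpow_ofReal_nonneg k0.le (K0 _)]
  · simpa only [mul_assoc] using a3 l hl (C * κ ^ (1 / 2 + l * Complex.I))
      (mul_ne_zero hC (by simp [k1]))

end W3

open W2 W3

theorem SchottkyData.every [Nontrivial α] {ξ : ℝ} (h2 : ξ ∉ limitSet S.group) :
    Concl S.group fun w => w.im / ‖(w : ℂ) - ξ‖ ^ 2 := by
  obtain ⟨e, he⟩ := S.equiv
  have mv : ∀ g x, Rel (S.M g) x ξ → (Concl S.group fun w => w.im / ‖(w : ℂ) - x‖ ^ 2) →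
      Concl S.group fun w => w.im / ‖(w : ℂ) - ξ‖ ^ 2 := fun g x r h =>
    h.move (fun w => div_nonneg w.im_pos.le (sq_nonneg _)) (e g) (sq_pos_of_ne_zero r.ne)
      fun w => by rw [Subgroup.smul_def, he, r.pois]
  by_cases h0 : ∀ g, g ≠ 1 → S.p g ≠ ξ
  · by_cases h1 : ∀ g x j, Rel (S.M g) x ξ → |x - S.c j| ≠ S.ρ j
    · obtain ⟨g, x, r, hx⟩ := W3.descent S h0 h1 fun h => h2 (S.Lam_sub h)
      exact mv g x r (S.main' x hx)
    · push Not at h1
      obtain ⟨g, x, j, r, hx⟩ := h1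
      obtain ⟨S', e1, e2⟩ := resize S hx
      have e3 : S'.group = S.group := by rw [SchottkyData.group, e1, SchottkyData.group]
      exact mv g x r (e3 ▸ S'.main' x e2)
  · push Not at h0
    obtain ⟨g, hg, rfl⟩ := h0
    have c0 := S.c_ne hg
    refine Concl.move (K := fun w => w.im) S.main (fun w => w.im_pos.le) (e g)
      (sq_pos_of_ne_zero c0) fun w => ?_
    have q := QQ_pos (S.M g) (w := (w.re, w.im)) w.im_pos
    have a : ‖((S.M g • w : ℍ) : ℂ) - S.p g‖ ≠ 0 := norm_ne_zero_iff.2 (W1.sub_ne _ _)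
    have c1 : (S.M g 1 0 : ℂ) ≠ 0 := Complex.ofReal_ne_zero.2 c0
    have d : (S.M g 0 0 * S.M g 1 1 - S.M g 0 1 * S.M g 1 0 : ℂ) = 1 := by
      exact_mod_cast det2 (S.M g)
    have s : (((S.M g • w : ℍ) : ℂ) - S.p g) * ((S.M g 1 0 * w + S.M g 1 1) * S.M g 1 0) = -1 := by
      have : (S.p g : ℂ) * S.M g 1 0 = S.M g 0 0 := by
        rw [SchottkyData.p]
        push_cast
        field_simp
      linear_combination S.M g 1 0 * coe_smul_mul (S.M g) w - (S.M g 1 0 * w + S.M g 1 1) * this - d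
    have s2 := congrArg (‖·‖ ^ 2) s
    simp only [norm_mul, mul_pow, norm_den, Complex.norm_real, Real.norm_eq_abs, sq_abs, norm_neg,
      norm_one, one_pow] at s2
    rw [Subgroup.smul_def, he, im_eq]
    field_simp
    linear_combination -s2

end Pool.Agent.Lib.MP_e1e19a_an
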